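import Pool.Agent.Helper42.SQ.GDefs2
import Pool.Agent.Helper21.V2.AR1

/-!
# SQ, stage 2, block HTg: heights in a field with an action of a finite group
-/

set_option autoImplicit false
set_option linter.unusedSectionVars false
set_option linter.unusedVariables false

namespace Pool.Agent.SQ

open NumberField Filter Module
open Pool.Agent.Helper64.Vojta (Pl nv)
open Pool.Agent.V2

universe u

section

variable {k : Type u} [Field k] [NumberField k] {G : Type*} [Group G] [Fintype G]

section

variable {L : Type u} [Field L] [Algebra k L] {s : G →* (L ≃ₐ[k] L)} {N : Pl k → L → ℝ} (h : QSG s N)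

include h

private theorem N_one33 (v : Pl k) : N v 1 = 1 := by
  have h1 := h.ext v 1
  rwa [map_one, Pool.Agent.Helper64.Vojta.nv_one] at h1

private theorem N_nonneg33 (v : Pl k) (x : L) : 0 ≤ N v x := by
  by_cases hx : x = 0
  · rw [hx, h.zero v]
  · exact (h.pos v x hx).le

private theorem N_neg33 (v : Pl k) (x : L) : N v (-x) = N v x := by
  have h1 : N v (-1) * N v (-1) = 1 := by
    rw [← h.mul v, neg_one_mul, neg_neg, N_one33 h v]
  have h2 : N v (-1) = 1 := by
    have h3 := N_nonneg33 h v (-1)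
    nlinarith
  rw [← neg_one_mul, h.mul v, h2, one_mul]

private theorem N_inv33 (v : Pl k) (x : L) (hx : x ≠ 0) : N v x⁻¹ = (N v x)⁻¹ := by
  have h1 : N v x⁻¹ * N v x = 1 := by
    rw [← h.mul v, inv_mul_cancel₀ hx, N_one33 h v]
  exact eq_inv_of_mul_eq_one_left h1

private theorem finS_max33 (x : L) : FinS fun v => Real.log (max 1 (N v x)) := by
  by_cases hx : x = 0
  · have h1 : (fun v => Real.log (max 1 (N v x))) = fun _ => (0 : ℝ) := by
      funext v
      rw [hx, h.zero v, max_eq_left zero_le_one, Real.log_one]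
    rw [h1]
    exact FinS.zero
  · refine Set.Finite.subset (h.fin x hx) fun v hv => ?_
    rw [Function.mem_support] at hv ⊢
    intro h1
    apply hv
    have h2 : N (.inr v) x = 1 := by
      rcases Real.log_eq_zero.1 h1 with h3 | h3 | h3
      · exact absurd h3 (h.pos _ x hx).ne'
      · exact h3
      · have := h.pos (.inr v) x hx
        linarith
    show Real.log (max 1 (N (.inr v) x)) = 0
    rw [h2, max_self, Real.log_one]

private theorem s_ne33 (g : G) (x : L) (hx : x ≠ 0) : s g x ≠ 0 := by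
  simpa using hx

theorem htg_finS (x : L) : FinS fun v => ∑ g, Real.log (max 1 (N v (s g x))) :=
  FinS.sum _ fun g _ => finS_max33 h (s g x)

private theorem sum_nonneg33 (x : L) (v : Pl k) : 0 ≤ ∑ g, Real.log (max 1 (N v (s g x))) :=
  Finset.sum_nonneg fun g _ => Real.log_nonneg (le_max_left _ _)

theorem htg_nonneg (x : L) : 0 ≤ htg s N x :=
  gsum_nonneg fun v => sum_nonneg33 h x v

private theorem log_max_mul33 (a b : ℝ) (ha : 0 ≤ a) (hb : 0 ≤ b) :
    Real.log (max 1 (a * b)) ≤ Real.log (max 1 a) + Real.log (max 1 b) := by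
  have h1 : (0 : ℝ) < max 1 a := lt_max_of_lt_left one_pos
  have h2 : (0 : ℝ) < max 1 b := lt_max_of_lt_left one_pos
  rw [← Real.log_mul h1.ne' h2.ne']
  refine Real.log_le_log (lt_max_of_lt_left one_pos) (max_le ?_ ?_)
  · nlinarith [le_max_left 1 a, le_max_left 1 b]
  · exact mul_le_mul (le_max_right _ _) (le_max_right _ _) hb h1.le

theorem htg_mul (x y : L) : htg s N (x * y) ≤ htg s N x + htg s N y := by
  have h0 : htg s N x + htg s N y = gsum fun v => (∑ g, Real.log (max 1 (N v (s g x)))) +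
      ∑ g, Real.log (max 1 (N v (s g y))) := by
    rw [gsum_add (htg_finS h x) (htg_finS h y)]
    rfl
  rw [h0]
  refine gsum_mono (htg_finS h (x * y)) ((htg_finS h x).add (htg_finS h y)) fun v => ?_
  rw [← Finset.sum_add_distrib]
  refine Finset.sum_le_sum fun g _ => ?_
  rw [map_mul, h.mul]
  exact log_max_mul33 h (N v (s g x)) (N v (s g y)) (N_nonneg33 h v _) (N_nonneg33 h v _)

private theorem log_max_inv33 (a : ℝ) (ha : 0 < a) :
    Real.log (max 1 a⁻¹) = Real.log (max 1 a) + - Real.log a := by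
  rcases le_total 1 a with h1 | h1
  · rw [max_eq_left (inv_le_one_of_one_le₀ h1), max_eq_right h1, Real.log_one]
    ring
  · rw [max_eq_right ((one_le_inv₀ ha).2 h1), max_eq_left h1, Real.log_one, Real.log_inv]
    ring

theorem htg_inv (x : L) (hx : x ≠ 0) : htg s N x⁻¹ = htg s N x := by
  have h1 : (fun v => ∑ g, Real.log (max 1 (N v (s g x⁻¹)))) = fun v =>
      (∑ g, Real.log (max 1 (N v (s g x)))) + -(∑ g, Real.log (N v (s g x))) := by
    funext v
    rw [← Finset.sum_neg_distrib, ← Finset.sum_add_distrib]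
    refine Finset.sum_congr rfl fun g _ => ?_
    rw [map_inv₀, N_inv33 h v _ (s_ne33 h g x hx), log_max_inv33 h _ (h.pos v _ (s_ne33 h g x hx))]
  have h2 : FinS fun v => ∑ g, Real.log (N v (s g x)) := FinS.sum _ fun g _ => h.fin _ (s_ne33 h g x hx)
  unfold htg
  rw [h1, gsum_add (htg_finS h x) h2.neg, gsum_neg, h.prod x hx, neg_zero, add_zero]

theorem htg_neg (x : L) : htg s N (-x) = htg s N x := by
  unfold htg
  congr 1
  funext v
  exact Finset.sum_congr rfl fun g _ => by rw [map_neg, N_neg33 h]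

theorem htg_s (g : G) (x : L) : htg s N (s g x) = htg s N x := by
  unfold htg
  congr 1
  funext v
  rw [← Equiv.sum_comp (Equiv.mulRight g) fun g' => Real.log (max 1 (N v (s g' x)))]
  refine Finset.sum_congr rfl fun g' _ => ?_
  rw [Equiv.coe_mulRight, map_mul]
  rfl

private theorem log_le33 (v : Pl k) (x : L) (hx : x ≠ 0) : Real.log (N v x) ≤ htg s N x := by
  have h1 := sum_le_gsum (htg_finS h x) (sum_nonneg33 h x) {v}
  rw [Finset.sum_singleton] at h1
  have h2 : Real.log (N v x) ≤ Real.log (max 1 (N v x)) := Real.log_le_log (h.pos v x hx) (le_max_right _ _)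
  have h3 : Real.log (max 1 (N v (s 1 x))) ≤ ∑ g, Real.log (max 1 (N v (s g x))) :=
    Finset.single_le_sum (f := fun g => Real.log (max 1 (N v (s g x))))
      (fun g _ => Real.log_nonneg (le_max_left _ _)) (Finset.mem_univ 1)
  have h4 : s 1 x = x := by rw [map_one]; rfl
  rw [h4] at h3
  unfold htg
  linarith

theorem abs_logg_le (v : Pl k) (x : L) (hx : x ≠ 0) : |Real.log (N v x)| ≤ htg s N x := by
  rw [abs_le]
  refine ⟨?_, log_le33 h v x hx⟩
  have h1 := log_le33 h v x⁻¹ (inv_ne_zero hx)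
  rw [htg_inv h x hx, N_inv33 h v x hx, Real.log_inv] at h1
  linarith

private theorem le_mxn33 {ι : Type*} [Finite ι] (v : Pl k) (X : ι → L) (a : ι) : N v (X a) ≤ mxn (N v) X :=
  le_ciSup (Set.finite_range fun a => N v (X a)).bddAbove a

private theorem mxn_one33 {ι : Type*} [Finite ι] (v : Pl k) (X : ι → L) (a : ι) (ha : X a = 1) : 1 ≤ mxn (N v) X := by
  have h1 := le_mxn33 h v X a
  rwa [ha, N_one33 h v] at h1

private theorem finS_mxn33 {ι : Type*} [Finite ι] (X : ι → L) (a : ι) (ha : X a = 1) :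
    FinS fun v => Real.log (mxn (N v) X) := by
  classical
  have : Fintype ι := Fintype.ofFinite ι
  have h1 : FinS fun v => ∑ a, Real.log (max 1 (N v (X a))) := FinS.sum _ fun a _ => finS_max33 h (X a)
  refine Set.Finite.subset h1 fun v hv => ?_
  rw [Function.mem_support] at hv ⊢
  intro h2
  apply hv
  have h3 : ∀ b, N (.inr v) (X b) ≤ 1 := by
    intro b
    have h4 := (Finset.sum_eq_zero_iff_of_nonneg fun a _ => Real.log_nonneg (le_max_left 1 (N (.inr v) (X a)))).1 h2 b
      (Finset.mem_univ b)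
    by_contra h5
    rw [not_le] at h5
    rw [max_eq_right h5.le] at h4
    exact absurd h4 (Real.log_pos h5).ne'
  have : Nonempty ι := ⟨a⟩
  have h6 : mxn (N (.inr v)) X = 1 := le_antisymm (ciSup_le h3) (mxn_one33 h _ X a ha)
  show Real.log (mxn (N (.inr v)) X) = 0
  rw [h6, Real.log_one]

theorem Hg_finS {ι : Type} [Fintype ι] (x : ι → L) (hx : ∃ j, x j = 1) :
    FinS fun v => ∑ g, Real.log (mxn (N v) fun j => s g (x j)) := by
  obtain ⟨a, ha⟩ := hx
  exact FinS.sum _ fun g _ => finS_mxn33 h (fun j => s g (x j)) a (by rw [ha, map_one])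

/-- the height of the coordinates -/
theorem htg_crd {ι : Type} [Fintype ι] (x : ι → L) (hx : ∃ j, x j = 1) (j : ι) : htg s N (x j) ≤ Hg s N x := by
  have hF := Hg_finS h x hx
  obtain ⟨a, ha⟩ := hx
  refine gsum_mono (htg_finS h (x j)) hF fun v => Finset.sum_le_sum fun g _ => ?_
  have ha' : s g (x a) = 1 := by rw [ha, map_one]
  exact Real.log_le_log (lt_max_of_lt_left one_pos)
    (max_le (mxn_one33 h v (fun j => s g (x j)) a ha') (le_mxn33 h v (fun j => s g (x j)) j))

end

variable (k G) in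
theorem htg_add : ∃ C : ℝ, ∀ (L : Type u) [Field L] [Algebra k L] (s : G →* (L ≃ₐ[k] L)) (N : Pl k → L → ℝ), QSG s N →
    ∀ x y : L, htg s N (x + y) ≤ htg s N x + htg s N y + C := by
  refine ⟨gsum (K := k) fun v => match v with
    | .inl _ => (Fintype.card G : ℝ) * Real.log 4
    | .inr _ => 0, ?_⟩
  intro L _ _ s N h x y
  have hC : FinS (K := k) fun v => match v with
    | .inl _ => (Fintype.card G : ℝ) * Real.log 4
    | .inr _ => 0 := by
    unfold FinS
    simp
  have h0 := gsum_add ((htg_finS h x).add (htg_finS h y)) hC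
  rw [gsum_add (htg_finS h x) (htg_finS h y)] at h0
  unfold htg
  rw [← h0]
  refine gsum_mono (htg_finS h (x + y)) (((htg_finS h x).add (htg_finS h y)).add hC) fun v => ?_
  have e4 : (0 : ℝ) < 4 := by norm_num
  have key : ∀ a b c : ℝ, 0 ≤ a → 0 ≤ b → c ≤ 4 * max a b →
      Real.log (max 1 c) ≤ Real.log (max 1 a) + Real.log (max 1 b) + Real.log 4 := by
    intro a b c ha hb hc
    have h1 : (0 : ℝ) < max 1 a := lt_max_of_lt_left one_pos
    have h2 : (0 : ℝ) < max 1 b := lt_max_of_lt_left one_pos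
    have i1 : (1 : ℝ) ≤ max 1 a := le_max_left _ _
    have i2 : (1 : ℝ) ≤ max 1 b := le_max_left _ _
    have i3 : a ≤ max 1 a := le_max_right _ _
    have i4 : b ≤ max 1 b := le_max_right _ _
    rw [← Real.log_mul h1.ne' h2.ne', ← Real.log_mul (mul_pos h1 h2).ne' e4.ne']
    refine Real.log_le_log (lt_max_of_lt_left one_pos) (max_le ?_ ?_)
    · nlinarith
    · have i5 : max a b ≤ max 1 a * max 1 b := max_le (by nlinarith) (by nlinarith)
      linarith
  have key2 : ∀ a b c : ℝ, 0 ≤ a → 0 ≤ b → c ≤ max a b →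
      Real.log (max 1 c) ≤ Real.log (max 1 a) + Real.log (max 1 b) := by
    intro a b c ha hb hc
    have h1 : (0 : ℝ) < max 1 a := lt_max_of_lt_left one_pos
    have h2 : (0 : ℝ) < max 1 b := lt_max_of_lt_left one_pos
    have i1 : (1 : ℝ) ≤ max 1 a := le_max_left _ _
    have i2 : (1 : ℝ) ≤ max 1 b := le_max_left _ _
    have i3 : a ≤ max 1 a := le_max_right _ _
    have i4 : b ≤ max 1 b := le_max_right _ _
    rw [← Real.log_mul h1.ne' h2.ne']
    refine Real.log_le_log (lt_max_of_lt_left one_pos) (max_le ?_ ?_)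
    · nlinarith
    · have i5 : max a b ≤ max 1 a * max 1 b := max_le (by nlinarith) (by nlinarith)
      linarith
  rcases v with v | v
  · have j1 : ∑ g, Real.log (max 1 (N (.inl v) (s g (x + y)))) ≤ ∑ g, (Real.log (max 1 (N (.inl v) (s g x))) +
        Real.log (max 1 (N (.inl v) (s g y))) + Real.log 4) := by
      refine Finset.sum_le_sum fun g _ => ?_
      rw [map_add]
      exact key _ _ _ (N_nonneg33 h (.inl v) (s g x)) (N_nonneg33 h (.inl v) (s g y)) (h.add (.inl v) (s g x) (s g y))
    rw [Finset.sum_add_distrib, Finset.sum_add_distrib, Finset.sum_const, Finset.card_univ, nsmul_eq_mul] at j1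
    exact j1
  · have j1 : ∑ g, Real.log (max 1 (N (.inr v) (s g (x + y)))) ≤ ∑ g, (Real.log (max 1 (N (.inr v) (s g x))) +
        Real.log (max 1 (N (.inr v) (s g y)))) := by
      refine Finset.sum_le_sum fun g _ => ?_
      rw [map_add]
      exact key2 _ _ _ (N_nonneg33 h (.inr v) (s g x)) (N_nonneg33 h (.inr v) (s g y)) (h.ult v (s g x) (s g y))
    rw [Finset.sum_add_distrib] at j1
    show _ ≤ _ + (0 : ℝ)
    linarith

variable (G) in
theorem htg_alg (c : k) : ∃ C : ℝ, ∀ (L : Type u) [Field L] [Algebra k L] (s : G →* (L ≃ₐ[k] L)) (N : Pl k → L → ℝ), QSG s N →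
    htg s N (algebraMap k L c) ≤ C := by
  refine ⟨gsum fun v => ∑ _g : G, Real.log (max 1 (nv v c)), ?_⟩
  intro L _ _ s N h
  unfold htg
  apply le_of_eq
  congr 1
  funext v
  exact Finset.sum_congr rfl fun g _ => by rw [AlgEquiv.commutes, h.ext]

end

end Pool.Agent.SQ
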