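import Pool.Agent.Helper42.SQ.Defs
import Pool.Agent.Helper16.QP.GDefs
import Pool.Agent.Helper16.FIN.Chart

/-!
# SQ: definitions for the arithmetic part and for the combinatorial part
-/

set_option autoImplicit false

namespace Pool.Agent.SQ

open NumberField Filter Module
open Pool.Agent.Helper64.Vojta (Pl nv)
open Pool.Agent.V2

universe u

/-- the maximum of the absolute values of the coordinates -/
noncomputable def mxn {L ι : Type*} (N : L → ℝ) (X : ι → L) : ℝ := ⨆ a, N (X a)

/-- `σ` generates the Galois group of `L/k`, of order at most two; for every place `v` of `k`, `N v` is (a power of) an absolute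
value of `L` which extends the normalised absolute value at `v`; `N v ∘ σ` is the other one. -/
structure QS {k L : Type u} [Field k] [NumberField k] [Field L] [Algebra k L] (σ : L ≃ₐ[k] L) (N : Pl k → L → ℝ) :
    Prop where
  zero : ∀ v, N v 0 = 0
  pos : ∀ v x, x ≠ 0 → 0 < N v x
  mul : ∀ v x y, N v (x * y) = N v x * N v y
  add : ∀ v x y, N v (x + y) ≤ 4 * max (N v x) (N v y)
  ult : ∀ (v : FinitePlace k) x y, N (.inr v) (x + y) ≤ max (N (.inr v) x) (N (.inr v) y)
  ext : ∀ v (x : k), N v (algebraMap k L x) = nv v x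
  fin : ∀ x, x ≠ 0 → FinS fun v => Real.log (N v x)
  prod : ∀ x, x ≠ 0 → gsum (fun v => Real.log (N v x) + Real.log (N v (σ x))) = 0
  inv : ∀ x, σ (σ x) = x
  fix : ∀ x, σ x = x → ∃ c : k, x = algebraMap k L c

/-- height of an element -/
noncomputable def ht {k L : Type u} [Field k] [NumberField k] [Field L] [Algebra k L] (σ : L ≃ₐ[k] L) (N : Pl k → L → ℝ)
    (z : L) : ℝ :=
  gsum fun v => Real.log (max 1 (N v z)) + Real.log (max 1 (N v (σ z)))

/-- the data of a sequence of fields of degree at most two -/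
structure Sq (k : Type u) [Field k] [NumberField k] where
  U : Ultrafilter ℕ
  L : ℕ → Type u
  fL : ∀ n, Field (L n)
  aL : ∀ n, Algebra k (L n)
  σ : ∀ n, L n ≃ₐ[k] L n
  N : ∀ n, Pl k → L n → ℝ
  qs : ∀ n, QS (σ n) (N n)
  H : ℕ → ℝ
  H1 : Tendsto H (U : Filter ℕ) atTop

attribute [instance] Sq.fL Sq.aL

section

variable {k : Type u} [Field k] [NumberField k]

/-- The family `z` has height `O(H)`. -/
def Bdd (D : Sq k) (z : ∀ n, D.L n) : Prop :=
  ∃ C : ℝ, ∀ᶠ n in (D.U : Filter ℕ), ht (D.σ n) (D.N n) (z n) ≤ C * D.H n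

/-- The field of the germs of height `O(H)`; `rp x` is a representative of `x`. -/
structure GF (D : Sq k) where
  K : Type u
  fK : Field K
  aK : Algebra k K
  τ : K ≃ₐ[k] K
  ττ : ∀ x, τ (τ x) = x
  rp : K → ∀ n, D.L n
  rp_bdd : ∀ x, Bdd D (rp x)
  rp_inj : ∀ x y, (∀ᶠ n in (D.U : Filter ℕ), rp x n = rp y n) → x = y
  rp_surj : ∀ z, Bdd D z → ∃ x, ∀ᶠ n in (D.U : Filter ℕ), rp x n = z n
  rp_add : ∀ x y, ∀ᶠ n in (D.U : Filter ℕ), rp (x + y) n = rp x n + rp y n
  rp_mul : ∀ x y, ∀ᶠ n in (D.U : Filter ℕ), rp (x * y) n = rp x n * rp y n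
  rp_alg : ∀ c : k, ∀ᶠ n in (D.U : Filter ℕ), rp (algebraMap k K c) n = algebraMap k (D.L n) c
  rp_τ : ∀ x, ∀ᶠ n in (D.U : Filter ℕ), rp (τ x) n = D.σ n (rp x n)

attribute [instance] GF.fK GF.aK

/-- the valuation at `v` -/
noncomputable def om {D : Sq k} (G : GF D) (v : Pl k) (x : G.K) : ℝ :=
  limUnder (D.U : Filter ℕ) fun n => -Real.log (D.N n v (G.rp x n)) / D.H n

/-- the size of the point at the first absolute value over `v` -/
noncomputable def cv (D : Sq k) {d : ℕ} (x : ∀ n, Fin (d + 1) → D.L n) (v : Pl k) : ℝ :=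
  limUnder (D.U : Filter ℕ) fun n => Real.log (mxn (D.N n v) (x n)) / D.H n

/-- the size of the point at the second absolute value over `v` -/
noncomputable def dv (D : Sq k) {d : ℕ} (x : ∀ n, Fin (d + 1) → D.L n) (v : Pl k) : ℝ :=
  limUnder (D.U : Filter ℕ) fun n => Real.log (mxn (D.N n v) fun i => D.σ n (x n i)) / D.H n

/-- one coordinate is one; `H` is the height -/
def Pt (D : Sq k) {d : ℕ} (x : ∀ n, Fin (d + 1) → D.L n) : Prop :=
  (∀ n, ∃ j, x n j = 1) ∧
  ∀ n, D.H n = gsum fun v => Real.log (mxn (D.N n v) (x n)) + Real.log (mxn (D.N n v) fun i => D.σ n (x n i))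

/-- value of a linear form over `k` -/
def lv {L : Type*} [Field L] [Algebra k L] {d : ℕ} (m : Fin (d + 1) → k) (x : Fin (d + 1) → L) : L :=
  ∑ j, algebraMap k L (m j) * x j

/-- the linear forms which vanish along the ultrafilter -/
def vanx (D : Sq k) {d : ℕ} (x : ∀ n, Fin (d + 1) → D.L n) : Submodule k (Fin (d + 1) → k) where
  carrier := {m | ∀ᶠ n in (D.U : Filter ℕ), lv m (x n) = 0}
  zero_mem' := Eventually.of_forall fun n => by simp [lv]
  add_mem' := by
    intro m m' h h'
    filter_upwards [h, h'] with n h1 h2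
    have : lv (m + m') (x n) = lv m (x n) + lv m' (x n) := by simp [lv, add_mul, Finset.sum_add_distrib]
    rw [this, h1, h2, add_zero]
  smul_mem' := by
    intro c m h
    filter_upwards [h] with n h1
    have : lv (c • m) (x n) = algebraMap k _ c * lv m (x n) := by simp [lv, Finset.mul_sum, mul_assoc]
    rw [this, h1, mul_zero]

end

/-! ### the combinatorial part -/

section

variable {k : Type*} [Field k]

open Classical in
/-- For weights on proper subspaces such that the subspaces containing a given vector have weight at most one: the number of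
the `L i` in the subspace is on average at most its dimension, plus `2 p` in total. -/
def Comb (k : Type*) [Field k] {Q : Type*} [AddCommGroup Q] [Module k Q] {q : ℕ} (L : Fin q → Q) (p : ℕ) : Prop :=
  ∀ (m : ℕ) (W : Fin m → Submodule k Q) (w : Fin m → ℝ), (∀ j, W j ≠ ⊤) → (∀ j, 0 ≤ w j) →
    (∀ x : Q, x ≠ 0 → ∑ j with x ∈ W j, w j ≤ 1) →
    ∑ j, w j * ((Finset.univ.filter fun i => L i ∈ W j).card : ℝ) ≤ ∑ j, w j * finrank k (W j) + 2 * p

/-- any `n + 1` of the forms are linearly independent -/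
def GenPos {n q : ℕ} (l : Fin q → Fin (n + 1) → k) : Prop :=
  ∀ I : Finset (Fin q), I.card ≤ n + 1 → LinearIndependent k fun i : I => l i

/-- `N` and the forms `l j`, `j ∈ J` -/
def spJ {n q : ℕ} (l : Fin q → Fin (n + 1) → k) (N : Submodule k (Fin (n + 1) → k)) (J : Finset (Fin q)) :
    Submodule k (Fin (n + 1) → k) :=
  N ⊔ Submodule.span k (l '' (J : Set (Fin q)))

/-- the intersection of the spaces `N + span (l j, j ∈ J)`, `J < i`, which contain `l i` -/
def Ut {n q : ℕ} (l : Fin q → Fin (n + 1) → k) (N : Submodule k (Fin (n + 1) → k)) (i : Fin q) :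
    Submodule k (Fin (n + 1) → k) :=
  ⨅ (J : Finset (Fin q)) (_ : (∀ j ∈ J, j < i) ∧ l i ∈ spJ l N J), spJ l N J

/-- its codimension -/
noncomputable def cost {n q : ℕ} (l : Fin q → Fin (n + 1) → k) (N : Submodule k (Fin (n + 1) → k)) (i : Fin q) : ℕ :=
  n + 1 - finrank k (Ut l N i)

/-- `N` satisfies more conditions than the dimension of the Grassmannian -/
def Bad {n q : ℕ} (l : Fin q → Fin (n + 1) → k) (N : Submodule k (Fin (n + 1) → k)) : Prop :=
  (∀ i, l i ∉ N) ∧ finrank k N * (n + 1 - finrank k N) < ∑ i, cost l N i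

end

end Pool.Agent.SQ
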