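import Pool.Agent.Helper42.SQ.Defs2
import Pool.Agent.Helper42.SQ.GDefs

/-!
# SQ, stage 2: definitions for the arithmetic part (a finite group `G` instead of one involution)
-/

set_option autoImplicit false

namespace Pool.Agent.SQ

open NumberField Filter Module MvPolynomial
open Pool.Agent.Helper64.Vojta (Pl nv sn above)
open Pool.Agent.V2
open Pool.Agent.Chart (fld dg crd hgt)

universe u

/-- `G` acts on `L`, the invariants are `k`; for every place `v` of `k`, `N v` is (a power of) an absolute value of `L` which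
extends the normalised absolute value at `v`; the `N v ∘ g` are all of them. -/
structure QSG {k L : Type u} [Field k] [NumberField k] [Field L] [Algebra k L] {G : Type*} [Group G] [Fintype G]
    (s : G →* (L ≃ₐ[k] L)) (N : Pl k → L → ℝ) : Prop where
  zero : ∀ v, N v 0 = 0
  pos : ∀ v x, x ≠ 0 → 0 < N v x
  mul : ∀ v x y, N v (x * y) = N v x * N v y
  add : ∀ v x y, N v (x + y) ≤ 4 * max (N v x) (N v y)
  ult : ∀ (v : FinitePlace k) x y, N (.inr v) (x + y) ≤ max (N (.inr v) x) (N (.inr v) y)
  ext : ∀ v (x : k), N v (algebraMap k L x) = nv v x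
  fin : ∀ x, x ≠ 0 → FinS fun v => Real.log (N v x)
  prod : ∀ x, x ≠ 0 → gsum (fun v => ∑ g, Real.log (N v (s g x))) = 0
  fix : ∀ x, (∀ g, s g x = x) → ∃ c : k, x = algebraMap k L c

/-- height of an element -/
noncomputable def htg {k L : Type u} [Field k] [NumberField k] [Field L] [Algebra k L] {G : Type*} [Group G] [Fintype G]
    (s : G →* (L ≃ₐ[k] L)) (N : Pl k → L → ℝ) (z : L) : ℝ :=
  gsum fun v => ∑ g, Real.log (max 1 (N v (s g z)))

/-- height of a point, times the order of the group -/
noncomputable def Hg {k L : Type u} [Field k] [NumberField k] [Field L] [Algebra k L] {G : Type*} [Group G] [Fintype G]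
    (s : G →* (L ≃ₐ[k] L)) (N : Pl k → L → ℝ) {ι : Type*} (x : ι → L) : ℝ :=
  gsum fun v => ∑ g, Real.log (mxn (N v) fun j => s g (x j))

/-- the data of a sequence of fields with an action of `G` -/
structure SqG (k : Type u) [Field k] [NumberField k] (G : Type) [Group G] [Fintype G] where
  U : Ultrafilter ℕ
  L : ℕ → Type u
  fL : ∀ n, Field (L n)
  aL : ∀ n, Algebra k (L n)
  s : ∀ n, G →* (L n ≃ₐ[k] L n)
  N : ∀ n, Pl k → L n → ℝ
  qs : ∀ n, QSG (s n) (N n)
  H : ℕ → ℝ
  H1 : Tendsto H (U : Filter ℕ) atTop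

attribute [instance] SqG.fL SqG.aL

section

variable {k : Type u} [Field k] [NumberField k] {G : Type} [Group G] [Fintype G]

/-- The family `z` has height `O(H)`. -/
def BddG (D : SqG k G) (z : ∀ n, D.L n) : Prop :=
  ∃ C : ℝ, ∀ᶠ n in (D.U : Filter ℕ), htg (D.s n) (D.N n) (z n) ≤ C * D.H n

/-- The field of the germs of height `O(H)`; `rp x` is a representative of `x`. -/
structure GFG (D : SqG k G) where
  K : Type u
  fK : Field K
  aK : Algebra k K
  s : G →* (K ≃ₐ[k] K)
  rp : K → ∀ n, D.L n
  rp_bdd : ∀ x, BddG D (rp x)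
  rp_inj : ∀ x y, (∀ᶠ n in (D.U : Filter ℕ), rp x n = rp y n) → x = y
  rp_surj : ∀ z, BddG D z → ∃ x, ∀ᶠ n in (D.U : Filter ℕ), rp x n = z n
  rp_add : ∀ x y, ∀ᶠ n in (D.U : Filter ℕ), rp (x + y) n = rp x n + rp y n
  rp_mul : ∀ x y, ∀ᶠ n in (D.U : Filter ℕ), rp (x * y) n = rp x n * rp y n
  rp_alg : ∀ c : k, ∀ᶠ n in (D.U : Filter ℕ), rp (algebraMap k K c) n = algebraMap k (D.L n) c
  rp_s : ∀ (g : G) x, ∀ᶠ n in (D.U : Filter ℕ), rp (s g x) n = D.s n g (rp x n)

attribute [instance] GFG.fK GFG.aK

/-- the valuation at `v` -/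
noncomputable def omg {D : SqG k G} (F : GFG D) (v : Pl k) (x : F.K) : ℝ :=
  limUnder (D.U : Filter ℕ) fun n => -Real.log (D.N n v (F.rp x n)) / D.H n

/-- the size of the point `x` at `N v ∘ g` -/
noncomputable def cg (D : SqG k G) {ι : Type} (x : ∀ n, ι → D.L n) (v : Pl k) (g : G) : ℝ :=
  limUnder (D.U : Filter ℕ) fun n => Real.log (mxn (D.N n v) fun j => D.s n g (x n j)) / D.H n

/-- one coordinate is one; `H` is the height times the order of the group -/
def Ptg (D : SqG k G) {ι : Type} (x : ∀ n, ι → D.L n) : Prop :=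
  (∀ n, ∃ j, x n j = 1) ∧ ∀ n, D.H n = Hg (D.s n) (D.N n) (x n)

/-- value of a linear form over `k` -/
def lvg {L : Type*} [Field L] [Algebra k L] {ι : Type*} [Fintype ι] (m : ι → k) (x : ι → L) : L :=
  ∑ j, algebraMap k L (m j) * x j

/-- the linear forms which vanish along the ultrafilter -/
def vang (D : SqG k G) {ι : Type} [Fintype ι] (x : ∀ n, ι → D.L n) : Submodule k (ι → k) where
  carrier := {m | ∀ᶠ n in (D.U : Filter ℕ), lvg m (x n) = 0}
  zero_mem' := Eventually.of_forall fun n => by simp [lvg]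
  add_mem' := by
    intro m m' h h'
    filter_upwards [h, h'] with n h1 h2
    have : lvg (m + m') (x n) = lvg m (x n) + lvg m' (x n) := by simp [lvg, add_mul, Finset.sum_add_distrib]
    rw [this, h1, h2, add_zero]
  smul_mem' := by
    intro c m h
    filter_upwards [h] with n h1
    have : lvg (c • m) (x n) = algebraMap k _ c * lvg m (x n) := by simp [lvg, Finset.mul_sum, mul_assoc]
    rw [this, h1, mul_zero]

/-- the polynomials which vanish along the ultrafilter -/
def vanI (D : SqG k G) {N : ℕ} (x : ∀ n, Fin (N + 1) → D.L n) : Ideal (MvPolynomial (Fin (N + 1)) k) where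
  carrier := {f | ∀ᶠ n in (D.U : Filter ℕ), aeval (x n) f = 0}
  zero_mem' := Eventually.of_forall fun n => by simp
  add_mem' := by
    intro f f' h h'
    filter_upwards [h, h'] with n h1 h2
    rw [map_add, h1, h2, add_zero]
  smul_mem' := by
    intro c f h
    filter_upwards [h] with n h1
    rw [smul_eq_mul, map_mul, h1, mul_zero]

/-- the dimension of the part of degree `e` of the coordinate ring -/
noncomputable def hilb {N : ℕ} (I : Ideal (MvPolynomial (Fin (N + 1)) k)) (e : ℕ) : ℕ :=
  finrank k ((homogeneousSubmodule (Fin (N + 1)) k e).map (Ideal.Quotient.mkₐ k I).toLinearMap)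

/-! ### points -/

/-- the Galois closure of the residue field -/
noncomputable def gal {N : ℕ} (x : Fin N → AlgebraicClosure k) : IntermediateField k (AlgebraicClosure k) :=
  IntermediateField.normalClosure k (fld x) (AlgebraicClosure k)

/-- the Weil function of the section `f = 0` of degree `d` at `ν`, relative to `k` -/
noncomputable def lamP (d : ℕ) {N : ℕ} (f : MvPolynomial (Fin N) k) (ν : Pl k) (x : Fin N → AlgebraicClosure k) : ℝ :=
  (∑ w ∈ above (fld x) ν, (d * Real.log (sn w (crd x)) - Real.log (nv w (aeval (crd x) f)))) / dg x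

end

end Pool.Agent.SQ
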