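import Pool.Agent.Helper42.SQ.GDefs3

/-!
# SQ, stage 6, block OMs: the valuations are trivial on the slow germs
-/

set_option autoImplicit false

namespace Pool.Agent.SQ

open NumberField Filter Module
open Pool.Agent.Helper64.Vojta (Pl nv sn above)
open Pool.Agent.V2

universe u

variable {k : Type u} [Field k] [NumberField k] {G : Type} [Group G] [Fintype G] {D : SqG k G} (F : GFG D)

private theorem omg_slow54 (v : Pl k) (x : F.K) (hx : x ≠ 0) (h : SlowG D (F.rp x)) : omg F v x = 0 := by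
  have hne : ∀ᶠ n in (D.U : Filter ℕ), F.rp x n ≠ 0 := by
    rw [Ultrafilter.eventually_not]
    intro h1
    apply hx
    apply F.rp_inj
    have h3 := F.rp_alg 0
    simp only [map_zero] at h3
    filter_upwards [h1, h3] with n h4 h5
    rw [h4, h5]
  have key : ∀ ε : ℝ, 0 < ε → |omg F v x| ≤ ε := by
    intro ε hε
    refine le_of_tendsto (omg_tendsto F v x hx).abs ?_
    filter_upwards [h ε hε, hne, D.H1.eventually_gt_atTop 0] with n h1 h2 h3
    rw [abs_div, abs_neg, abs_of_pos h3, div_le_iff₀ h3]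
    exact (abs_logg_le (D.qs n) v _ h2).trans h1
  exact abs_eq_zero.1 (le_antisymm (le_of_forall_pos_le_add fun ε hε => by
    have := key ε hε
    linarith) (abs_nonneg _))

theorem omg_RVs (v : Pl k) : RV (slk F) (omg F v) where
  mul := (omg_RV F v).mul
  add := (omg_RV F v).add
  alg := by
    intro c hc
    exact omg_slow54 F v _ ((map_ne_zero _).2 hc) c.2.2

section

variable {ι : Type} [Fintype ι] (x : ∀ n, ι → D.L n) (hx : Ptg D x)
  (ξ : ι → F.K) (hξ : ∀ j, ∀ᶠ n in (D.U : Filter ℕ), F.rp (ξ j) n = x n j)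

include hx hξ

private theorem sum_nonneg54 (v : Pl k) (g : G) (m : ι → slk F) (t : Finset ι)
    (h0 : ∑ j ∈ t, m j • ξ j ≠ 0) : 0 ≤ omg F v (F.s g (∑ j ∈ t, m j • ξ j)) + cg D x v g := by
  classical
  induction t using Finset.induction_on with
  | empty => exact absurd (by simp) h0
  | insert a t ha ih =>
    rw [Finset.sum_insert ha] at h0 ⊢
    by_cases h1 : m a • ξ a = 0
    · rw [h1, zero_add] at h0 ⊢
      exact ih h0
    have hma : m a ≠ 0 := by
      rintro h
      exact h1 (by rw [h, zero_smul])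
    have hxa : ξ a ≠ 0 := by
      rintro h
      exact h1 (by rw [h, smul_zero])
    have h2 : 0 ≤ omg F v (F.s g (m a • ξ a)) + cg D x v g := by
      have h3 : F.s g (m a • ξ a) = m a • F.s g (ξ a) := by
        exact map_smul (ss F g) (m a) (ξ a)
      rw [h3, (omg_RVs F v).smul _ _ hma ((map_ne_zero _).2 hxa)]
      exact omg_nonneg F x hx ξ hξ v g _ (Submodule.subset_span ⟨a, rfl⟩) hxa
    by_cases h4 : ∑ j ∈ t, m j • ξ j = 0
    · rw [h4, add_zero]
      exact h2
    have h5 := ih h4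
    have h6 := (omg_RV F v).add (F.s g (m a • ξ a)) (F.s g (∑ j ∈ t, m j • ξ j)) ((map_ne_zero _).2 h1)
      ((map_ne_zero _).2 h4) (by rw [← map_add]; exact (map_ne_zero _).2 h0)
    rw [← map_add] at h6
    rcases le_total (omg F v (F.s g (m a • ξ a))) (omg F v (F.s g (∑ j ∈ t, m j • ξ j))) with h7 | h7
    · rw [min_eq_left h7] at h6
      linarith
    · rw [min_eq_right h7] at h6
      linarith

theorem omgs_nonneg (v : Pl k) (g : G) (z : F.K) (hz : z ∈ Submodule.span (slk F) (Set.range ξ)) (hz0 : z ≠ 0) :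
    0 ≤ omg F v (ss F g z) + cg D x v g := by
  obtain ⟨m, rfl⟩ := (Submodule.mem_span_range_iff_exists_fun (slk F)).1 hz
  rw [ss_apply]
  exact sum_nonneg54 F x hx ξ hξ v g m Finset.univ hz0

theorem omgs_attained (v : Pl k) (g : G) :
    ∃ z ∈ Submodule.span (slk F) (Set.range ξ), z ≠ 0 ∧ omg F v (ss F g z) + cg D x v g = 0 := by
  obtain ⟨z, hz, hz0, h⟩ := omg_attained F x hx ξ hξ v g
  refine ⟨z, ?_, hz0, h⟩
  obtain ⟨m, rfl⟩ := (Submodule.mem_span_range_iff_exists_fun k).1 hz
  refine Submodule.sum_mem _ fun j _ => ?_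
  have h1 : m j • ξ j = (algebraMap k (slk F) (m j)) • ξ j := by
    rw [algebraMap_smul]
  rw [h1]
  exact Submodule.smul_mem _ _ (Submodule.subset_span ⟨j, rfl⟩)

end

end Pool.Agent.SQ
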