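import Pool.Agent.Helper42.SQ.GDefs2
import Pool.Agent.Helper21.V2.AR1

/-!
# SQ, stage 2, block LVg: forms at a point, the inequality of Liouville, the Nullstellensatz
-/

set_option autoImplicit false
set_option linter.unusedSectionVars false
set_option linter.unusedVariables false

namespace Pool.Agent.SQ

open NumberField Filter Module MvPolynomial
open Pool.Agent.Helper64.Vojta (Pl nv sn above)
open Pool.Agent.V2
open Pool.Agent.Chart (fld dg crd hgt)

universe u

section

variable {k : Type u} [Field k] [NumberField k] {G : Type*} [Group G] [Fintype G]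

section

variable {L : Type u} [Field L] [Algebra k L] {s : G →* (L ≃ₐ[k] L)} {N : Pl k → L → ℝ} (h : QSG s N)

include h

private theorem N_one54 (v : Pl k) : N v 1 = 1 := by
  have h1 := h.ext v 1
  rwa [map_one, Pool.Agent.Helper64.Vojta.nv_one] at h1

private theorem N_nonneg54 (v : Pl k) (x : L) : 0 ≤ N v x := by
  by_cases hx : x = 0
  · rw [hx, h.zero v]
  · exact (h.pos v x hx).le

private theorem N_pow54 (v : Pl k) (x : L) (n : ℕ) : N v (x ^ n) = N v x ^ n := by
  induction n with
  | zero => rw [pow_zero, pow_zero, N_one54 h v]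
  | succ n ih => rw [pow_succ, pow_succ, h.mul, ih]

private theorem N_prod54 {ι : Type*} (v : Pl k) (t : Finset ι) (x : ι → L) : N v (∏ i ∈ t, x i) = ∏ i ∈ t, N v (x i) := by
  classical
  induction t using Finset.induction_on with
  | empty => rw [Finset.prod_empty, Finset.prod_empty, N_one54 h v]
  | insert a t ha ih => rw [Finset.prod_insert ha, Finset.prod_insert ha, h.mul, ih]

private theorem finS_max54 (x : L) : FinS fun v => Real.log (max 1 (N v x)) := by
  by_cases hx : x = 0
  · have h1 : (fun v => Real.log (max 1 (N v x))) = fun _ => (0 : ℝ) := by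
      funext v
      rw [hx, h.zero v, max_eq_left zero_le_one, Real.log_one]
    rw [h1]
    exact FinS.zero
  · refine Set.Finite.subset (h.fin x hx) fun v hv => ?_
    rw [Function.mem_support] at hv ⊢
    intro h1
    apply hv
    have h2 : N (.inr v) x = 1 := by
      rcases Real.log_eq_zero.1 h1 with h3 | h3 | h3
      · exact absurd h3 (h.pos _ x hx).ne'
      · exact h3
      · have := h.pos (.inr v) x hx
        linarith
    show Real.log (max 1 (N (.inr v) x)) = 0
    rw [h2, max_self, Real.log_one]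

private theorem le_mxn54 {ι : Type*} [Finite ι] (v : Pl k) (X : ι → L) (a : ι) : N v (X a) ≤ mxn (N v) X :=
  le_ciSup (Set.finite_range fun a => N v (X a)).bddAbove a

private theorem mxn_nonneg54 {ι : Type*} (v : Pl k) (X : ι → L) : 0 ≤ mxn (N v) X :=
  Real.iSup_nonneg fun a => N_nonneg54 h v (X a)

private theorem mxn_one54 {ι : Type*} [Finite ι] (v : Pl k) (X : ι → L) (a : ι) (ha : X a = 1) : 1 ≤ mxn (N v) X := by
  have h1 := le_mxn54 h v X a
  rwa [ha, N_one54 h v] at h1

private theorem finS_mxn54 {ι : Type*} [Finite ι] (X : ι → L) (a : ι) (ha : X a = 1) :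
    FinS fun v => Real.log (mxn (N v) X) := by
  classical
  have : Fintype ι := Fintype.ofFinite ι
  have h1 : FinS fun v => ∑ a, Real.log (max 1 (N v (X a))) := FinS.sum _ fun a _ => finS_max54 h (X a)
  refine Set.Finite.subset h1 fun v hv => ?_
  rw [Function.mem_support] at hv ⊢
  intro h2
  apply hv
  have h3 : ∀ b, N (.inr v) (X b) ≤ 1 := by
    intro b
    have h4 := (Finset.sum_eq_zero_iff_of_nonneg fun a _ => Real.log_nonneg (le_max_left 1 (N (.inr v) (X a)))).1 h2 b
      (Finset.mem_univ b)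
    by_contra h5
    rw [not_le] at h5
    rw [max_eq_right h5.le] at h4
    exact absurd h4 (Real.log_pos h5).ne'
  have : Nonempty ι := ⟨a⟩
  have h6 : mxn (N (.inr v)) X = 1 := le_antisymm (ciSup_le h3) (mxn_one54 h _ X a ha)
  show Real.log (mxn (N (.inr v)) X) = 0
  rw [h6, Real.log_one]

private theorem sum_le_inr54 {ι : Type*} (v : FinitePlace k) (t : Finset ι) (f : ι → L) (B : ℝ) (hB : 0 ≤ B)
    (hf : ∀ i ∈ t, N (.inr v) (f i) ≤ B) : N (.inr v) (∑ i ∈ t, f i) ≤ B := by
  classical
  induction t using Finset.induction_on with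
  | empty => rw [Finset.sum_empty, h.zero]; exact hB
  | insert a t ha ih =>
    rw [Finset.sum_insert ha]
    exact (h.ult v _ _).trans (max_le (hf a (Finset.mem_insert_self _ _))
      (ih fun i hi => hf i (Finset.mem_insert_of_mem hi)))

private theorem sum_le54 {ι : Type*} (v : Pl k) (t : Finset ι) (f : ι → L) (B : ℝ) (hB : 0 ≤ B)
    (hf : ∀ i ∈ t, N v (f i) ≤ B) : N v (∑ i ∈ t, f i) ≤ 4 ^ t.card * B := by
  classical
  induction t using Finset.induction_on with
  | empty =>
    rw [Finset.sum_empty, h.zero, Finset.card_empty, pow_zero, one_mul]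
    exact hB
  | insert a t ha ih =>
    rw [Finset.sum_insert ha, Finset.card_insert_of_notMem ha, pow_succ]
    have h1 := ih fun i hi => hf i (Finset.mem_insert_of_mem hi)
    have h2 := hf a (Finset.mem_insert_self _ _)
    have h3 : B ≤ 4 ^ t.card * B := le_mul_of_one_le_left hB (one_le_pow₀ (by norm_num))
    have h4 := h.add v (f a) (∑ i ∈ t, f i)
    have h5 : max (N v (f a)) (N v (∑ i ∈ t, f i)) ≤ 4 ^ t.card * B := max_le (h2.trans h3) h1
    linarith

end

/-- the local constant of a family of coefficients -/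
private noncomputable def lc54 {τ : Type*} (T : Finset τ) (c : τ → k) (v : Pl k) : ℝ :=
  (∑ j ∈ T, Real.log (max 1 (nv v (c j)))) + match v with
    | .inl _ => (T.card : ℝ) * Real.log 4
    | .inr _ => 0

private theorem lc_finS54 {τ : Type*} (T : Finset τ) (c : τ → k) : FinS (lc54 T c) := by
  have hC : FinS (K := k) fun v => match v with
    | .inl _ => (T.card : ℝ) * Real.log 4
    | .inr _ => 0 := by
    unfold FinS
    simp
  refine FinS.add (FinS.sum _ fun j _ => ?_) hC
  by_cases hj : c j = 0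
  · have h1 : (fun v : Pl k => Real.log (max 1 (nv v (c j)))) = fun _ => (0 : ℝ) := by
      funext v
      rw [hj, Pool.Agent.Helper64.Vojta.nv_zero, max_eq_left zero_le_one, Real.log_one]
    rw [h1]
    exact FinS.zero
  · refine Set.Finite.subset (finS_nv hj) fun v hv => ?_
    rw [Function.mem_support] at hv ⊢
    intro h1
    apply hv
    have h0 : 0 < nv (.inr v : Pl k) (c j) := Pool.Agent.Helper64.Vojta.nv_pos _ hj
    have h2 : nv (.inr v : Pl k) (c j) = 1 := by
      rcases Real.log_eq_zero.1 h1 with h3 | h3 | h3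
      · exact absurd h3 h0.ne'
      · exact h3
      · linarith
    show Real.log (max 1 (nv (.inr v) (c j))) = 0
    rw [h2, max_self, Real.log_one]

private theorem lc_nonneg54 {τ : Type*} (T : Finset τ) (c : τ → k) (v : Pl k) : 0 ≤ lc54 T c v := by
  unfold lc54
  refine add_nonneg (Finset.sum_nonneg fun j _ => Real.log_nonneg (le_max_left _ _)) ?_
  rcases v with v | v
  · exact mul_nonneg (Nat.cast_nonneg _) (Real.log_nonneg (by norm_num))
  · exact le_refl _

/-- a linear combination of bounded terms -/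
private theorem comb_le54 {L : Type u} [Field L] [Algebra k L] {s : G →* (L ≃ₐ[k] L)} {N : Pl k → L → ℝ} (h : QSG s N)
    {τ : Type*} (T : Finset τ) (c : τ → k) (y : τ → L) (v : Pl k) (B : ℝ) (hB : 0 ≤ B) (hy : ∀ j ∈ T, N v (y j) ≤ B) :
    N v (∑ j ∈ T, algebraMap k L (c j) * y j) ≤ Real.exp (lc54 T c v) * B := by
  classical
  set A : ℝ := ∏ j ∈ T, max 1 (nv v (c j)) with hA
  have hA1 : 0 < A := Finset.prod_pos fun j _ => lt_max_of_lt_left one_pos
  have hlogA : Real.log A = ∑ j ∈ T, Real.log (max 1 (nv v (c j))) :=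
    Real.log_prod fun j _ => (lt_max_of_lt_left one_pos).ne'
  have hexpA : Real.exp (∑ j ∈ T, Real.log (max 1 (nv v (c j)))) = A := by rw [← hlogA, Real.exp_log hA1]
  have hterm : ∀ j ∈ T, N v (algebraMap k L (c j) * y j) ≤ A * B := by
    intro j hj
    rw [h.mul, h.ext]
    refine mul_le_mul ?_ (hy j hj) (N_nonneg54 h v _) hA1.le
    calc nv v (c j) ≤ max 1 (nv v (c j)) := le_max_right _ _
      _ ≤ A := by
        rw [hA, ← Finset.mul_prod_erase _ _ hj]
        exact le_mul_of_one_le_right (zero_le_one.trans (le_max_left _ _))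
          (Finset.prod_induction _ (fun t : ℝ => 1 ≤ t) (fun a b ha hb => one_le_mul_of_one_le_of_one_le ha hb)
            (le_refl _) fun i _ => le_max_left _ _)
  rcases v with v | v
  · have h1 := sum_le54 h (.inl v) T _ _ (mul_nonneg hA1.le hB) hterm
    have h2 : Real.exp (lc54 T c (.inl v)) = A * 4 ^ T.card := by
      show Real.exp ((∑ j ∈ T, Real.log (max 1 (nv (.inl v) (c j)))) + (T.card : ℝ) * Real.log 4) = _
      rw [Real.exp_add, hexpA, ← Real.log_pow, Real.exp_log (by positivity)]
    rw [h2]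
    calc _ ≤ _ := h1
      _ = _ := by ring
  · have h1 := sum_le_inr54 h v T _ _ (mul_nonneg hA1.le hB) hterm
    have h2 : Real.exp (lc54 T c (.inr v)) = A := by
      show Real.exp ((∑ j ∈ T, Real.log (max 1 (nv (.inr v) (c j)))) + 0) = _
      rw [add_zero, hexpA]
    rw [h2]
    exact h1

/-- a form of degree `e` at a point -/
private theorem form_le54 {L : Type u} [Field L] [Algebra k L] {s : G →* (L ≃ₐ[k] L)} {N : Pl k → L → ℝ} (h : QSG s N)
    {N' e : ℕ} (f : MvPolynomial (Fin (N' + 1)) k) (hf : f.IsHomogeneous e) (x : Fin (N' + 1) → L) (v : Pl k) :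
    N v (aeval x f) ≤ Real.exp (lc54 f.support (fun m => coeff m f) v) * mxn (N v) x ^ e := by
  have h1 : aeval x f = ∑ m ∈ f.support, algebraMap k L (coeff m f) * ∏ i, x i ^ m i := by
    rw [aeval_def, eval₂_eq']
  rw [h1]
  refine comb_le54 h f.support (fun m => coeff m f) (fun m => ∏ i, x i ^ m i) v _ (pow_nonneg (mxn_nonneg54 h v x) e) ?_
  intro m hm
  have h2 : ∑ i, m i = e := by
    have h3 := hf (mem_support_iff.1 hm)
    rw [Finsupp.weight_apply, Finsupp.sum_fintype _ _ (by simp)] at h3
    simpa using h3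
  show N v (∏ i, x i ^ m i) ≤ _
  rw [N_prod54 h, ← h2, ← Finset.prod_pow_eq_pow_sum]
  refine Finset.prod_le_prod (fun i _ => N_nonneg54 h v _) fun i _ => ?_
  rw [N_pow54 h]
  exact pow_le_pow_left₀ (N_nonneg54 h v _) (le_mxn54 h v x i) _

variable (G) in
/-- Local inequality: a form of degree `e` is at most the norm to the power `e`, up to a constant which is one at almost all
places. -/
theorem ev_le {N' e : ℕ} (f : MvPolynomial (Fin (N' + 1)) k) (hf : f.IsHomogeneous e) :
    ∃ C : Pl k → ℝ, FinS C ∧ (∀ v, 0 ≤ C v) ∧ ∀ (L : Type u) [Field L] [Algebra k L]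
    (s : G →* (L ≃ₐ[k] L)) (N : Pl k → L → ℝ), QSG s N → ∀ (x : Fin (N' + 1) → L) (v : Pl k), aeval x f ≠ 0 →
      Real.log (N v (aeval x f)) ≤ e * Real.log (mxn (N v) x) + C v := by
  refine ⟨lc54 f.support fun m => coeff m f, lc_finS54 _ _, lc_nonneg54 _ _, ?_⟩
  intro L _ _ s N h x v hz
  have h1 := form_le54 h f hf x v
  have h2 := h.pos v _ hz
  have h3 := Real.log_le_log h2 h1
  have h4 : mxn (N v) x ^ e ≠ 0 := by
    intro h5
    rw [h5, mul_zero] at h1
    linarith
  rw [Real.log_mul (Real.exp_pos _).ne' h4, Real.log_exp, Real.log_pow] at h3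
  linarith

variable (G) in
/-- the same for linear forms in a family of coordinates -/
theorem lvg_le {ι : Type} [Fintype ι] (m : ι → k) :
    ∃ C : Pl k → ℝ, FinS C ∧ (∀ v, 0 ≤ C v) ∧ ∀ (L : Type u) [Field L] [Algebra k L]
    (s : G →* (L ≃ₐ[k] L)) (N : Pl k → L → ℝ), QSG s N → ∀ (x : ι → L) (v : Pl k), lvg m x ≠ 0 →
      Real.log (N v (lvg m x)) ≤ Real.log (mxn (N v) x) + C v := by
  refine ⟨lc54 Finset.univ m, lc_finS54 _ _, lc_nonneg54 _ _, ?_⟩
  intro L _ _ s N h x v hz
  have h1 : N v (lvg m x) ≤ Real.exp (lc54 Finset.univ m v) * mxn (N v) x :=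
    comb_le54 h Finset.univ m x v _ (mxn_nonneg54 h v x) fun j _ => le_mxn54 h v x j
  have h2 := h.pos v _ hz
  have h3 := Real.log_le_log h2 h1
  have h4 : mxn (N v) x ≠ 0 := by
    intro h5
    rw [h5, mul_zero] at h1
    linarith
  rw [Real.log_mul (Real.exp_pos _).ne' h4, Real.log_exp] at h3
  linarith

variable (G) in
/-- Liouville's inequality -/
theorem liouville_g {N' e : ℕ} (f : MvPolynomial (Fin (N' + 1)) k) (hf : f.IsHomogeneous e) (P : Finset (Pl k)) :
    ∃ C : ℝ, ∀ (L : Type u) [Field L] [Algebra k L] (s : G →* (L ≃ₐ[k] L)) (N : Pl k → L → ℝ), QSG s N →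
      ∀ (x : Fin (N' + 1) → L), (∃ j, x j = 1) → aeval x f ≠ 0 →
      ∑ v ∈ P, ∑ g, (e * Real.log (mxn (N v) fun j => s g (x j)) - Real.log (N v (s g (aeval x f)))) ≤
      e * Hg s N x + C := by
  obtain ⟨C, hC, hC0, hle⟩ := ev_le G f hf
  refine ⟨gsum fun v => (Fintype.card G : ℝ) * C v, ?_⟩
  intro L _ _ s N h x hx hz
  obtain ⟨a, ha⟩ := hx
  have ha' : ∀ g, s g (x a) = 1 := fun g => by rw [ha, map_one]
  have hs : ∀ g, s g (aeval x f) = aeval (fun j => s g (x j)) f := by
    intro g
    rw [aeval_def, aeval_def, eval₂_eq', eval₂_eq', map_sum]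
    refine Finset.sum_congr rfl fun m _ => ?_
    rw [map_mul, AlgEquiv.commutes, map_prod]
    simp only [map_pow]
  have hs0 : ∀ g, s g (aeval x f) ≠ 0 := fun g => by simpa using hz
  have f1 : FinS fun v => ∑ g, Real.log (mxn (N v) fun j => s g (x j)) :=
    FinS.sum _ fun g _ => finS_mxn54 h (fun j => s g (x j)) a (ha' g)
  have f2 : FinS fun v => ∑ g, Real.log (N v (s g (aeval x f))) := FinS.sum _ fun g _ => h.fin _ (hs0 g)
  have f3 := hC.const_mul (Fintype.card G : ℝ)
  have f4 := f1.const_mul (e : ℝ)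
  have hg : ∀ g v, Real.log (N v (s g (aeval x f))) ≤ e * Real.log (mxn (N v) fun j => s g (x j)) + C v := by
    intro g v
    have h1 := hle L s N h (fun j => s g (x j)) v (by rw [← hs g]; exact hs0 g)
    rwa [← hs g] at h1
  have hid : ∀ v, (∑ g, (e * Real.log (mxn (N v) fun j => s g (x j)) + C v - Real.log (N v (s g (aeval x f))))) =
      (e * (∑ g, Real.log (mxn (N v) fun j => s g (x j))) + (Fintype.card G : ℝ) * C v) +
      -(∑ g, Real.log (N v (s g (aeval x f)))) := by
    intro v
    rw [Finset.sum_sub_distrib, Finset.sum_add_distrib, ← Finset.mul_sum, Finset.sum_const, Finset.card_univ, nsmul_eq_mul]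
    ring
  have hnn : ∀ v, 0 ≤ (e * (∑ g, Real.log (mxn (N v) fun j => s g (x j))) + (Fintype.card G : ℝ) * C v) +
      -(∑ g, Real.log (N v (s g (aeval x f)))) := by
    intro v
    rw [← hid v]
    refine Finset.sum_nonneg fun g _ => ?_
    have := hg g v
    linarith
  have h3 := sum_le_gsum ((f4.add f3).add f2.neg) hnn P
  rw [gsum_add (f4.add f3) f2.neg, gsum_add f4 f3, gsum_neg, h.prod _ hz, neg_zero, add_zero, gsum_const_mul] at h3
  have e1 : Hg s N x = gsum fun v => ∑ g, Real.log (mxn (N v) fun j => s g (x j)) := rfl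
  rw [e1]
  refine le_trans (Finset.sum_le_sum fun v _ => ?_) h3
  rw [← hid v]
  refine Finset.sum_le_sum fun g _ => ?_
  have := hC0 v
  linarith

private theorem hc_mul54 {σ : Type*} {n d : ℕ} (a f : MvPolynomial σ k) (hf : f.IsHomogeneous d) :
    homogeneousComponent (n + d) (a * f) = homogeneousComponent n a * f := by
  classical
  conv_lhs => rw [← sum_homogeneousComponent a, Finset.sum_mul, map_sum]
  have h1 : ∀ i ∈ Finset.range (a.totalDegree + 1), homogeneousComponent (n + d) (homogeneousComponent i a * f) =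
      if i = n then homogeneousComponent n a * f else 0 := by
    intro i _
    have h2 : (homogeneousComponent i a * f).IsHomogeneous (i + d) := (homogeneousComponent_isHomogeneous i a).mul hf
    rw [homogeneousComponent_of_mem ((mem_homogeneousSubmodule _ _).2 h2)]
    by_cases h3 : i = n
    · subst h3
      simp
    · rw [if_neg (by omega), if_neg h3]
  rw [Finset.sum_congr rfl h1, Finset.sum_ite_eq']
  split_ifs with h4
  · rfl
  · rw [homogeneousComponent_eq_zero, zero_mul]
    simpa using h4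

variable (G) in
/-- Nullstellensatz: forms without common zero are not all small. -/
theorem nul {N' n d : ℕ} (I : Ideal (MvPolynomial (Fin (N' + 1)) k)) (hI : ∀ p ∈ I, ∀ m, homogeneousComponent m p ∈ I)
    (f : Fin (n + 1) → MvPolynomial (Fin (N' + 1)) k)
    (hf : ∀ i, (f i).IsHomogeneous d) (hfin : ∃ M, ∀ j, (X j) ^ M ∈ I ⊔ Ideal.span (Set.range f)) (v : Pl k) :
    ∃ C : ℝ, ∀ (L : Type u) [Field L] [Algebra k L] (s : G →* (L ≃ₐ[k] L)) (N : Pl k → L → ℝ), QSG s N →
      ∀ (x : Fin (N' + 1) → L), (∃ j, x j = 1) → (∀ p ∈ I, aeval x p = 0) → (∀ i, aeval x (f i) ≠ 0) →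
      ∃ i, d * Real.log (mxn (N v) x) - Real.log (N v (aeval x (f i))) ≤ C := by
  classical
  obtain ⟨M, hM⟩ := hfin
  have hkey : ∀ j : Fin (N' + 1), ∃ (p : MvPolynomial (Fin (N' + 1)) k) (b : Fin (n + 1) → MvPolynomial (Fin (N' + 1)) k),
      p ∈ I ∧ (∀ i, (b i).IsHomogeneous M) ∧ X j ^ (M + d) = p + ∑ i, b i * f i := by
    intro j
    have h1 : (X j : MvPolynomial (Fin (N' + 1)) k) ^ (M + d) ∈ I ⊔ Ideal.span (Set.range f) := by
      rw [pow_add]
      exact Ideal.mul_mem_right _ _ (hM j)
    obtain ⟨p, hp, q, hq, hpq⟩ := Submodule.mem_sup.1 h1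
    obtain ⟨c, hc⟩ := (Ideal.mem_span_range_iff_exists_fun).1 hq
    refine ⟨homogeneousComponent (M + d) p, fun i => homogeneousComponent M (c i), hI p hp _,
      fun i => homogeneousComponent_isHomogeneous _ _, ?_⟩
    have h2 : homogeneousComponent (M + d) ((X j : MvPolynomial (Fin (N' + 1)) k) ^ (M + d)) = X j ^ (M + d) := by
      rw [homogeneousComponent_of_mem ((mem_homogeneousSubmodule _ _).2 (isHomogeneous_X_pow j (M + d))), if_pos rfl]
    rw [← h2, ← hpq, map_add, ← hc, map_sum]
    congr 1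
    exact Finset.sum_congr rfl fun i _ => hc_mul54 (c i) (f i) (hf i)
  choose p b hp hb hpb using hkey
  set K : ℝ := ∑ j, ∑ i, lc54 (b j i).support (fun m => coeff m (b j i)) v with hK
  refine ⟨(n + 1 : ℕ) * Real.log 4 + K, ?_⟩
  intro L _ _ s N h x hx hxI hfx
  obtain ⟨a, ha⟩ := hx
  have hm1 : 1 ≤ mxn (N v) x := mxn_one54 h v x a ha
  have hm0 : 0 < mxn (N v) x := one_pos.trans_le hm1
  -- the coordinate of maximal size
  obtain ⟨j, hj⟩ : ∃ j, N v (x j) = mxn (N v) x := exists_eq_ciSup_of_finite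
  -- the form of maximal size
  obtain ⟨i0, -, hi0⟩ := Finset.exists_max_image Finset.univ (fun i => N v (aeval x (f i))) ⟨0, Finset.mem_univ _⟩
  refine ⟨i0, ?_⟩
  have hKle : ∀ i, lc54 (b j i).support (fun m => coeff m (b j i)) v ≤ K := by
    intro i
    rw [hK]
    have h1 : lc54 (b j i).support (fun m => coeff m (b j i)) v ≤ ∑ i, lc54 (b j i).support (fun m => coeff m (b j i)) v :=
      Finset.single_le_sum (f := fun i => lc54 (b j i).support (fun m => coeff m (b j i)) v)
        (fun i _ => lc_nonneg54 _ _ v) (Finset.mem_univ i)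
    exact h1.trans (Finset.single_le_sum (f := fun j => ∑ i, lc54 (b j i).support (fun m => coeff m (b j i)) v)
      (fun j _ => Finset.sum_nonneg fun i _ => lc_nonneg54 _ _ v) (Finset.mem_univ j))
  have hFpos : 0 < N v (aeval x (f i0)) := h.pos v _ (hfx i0)
  have h5 : x j ^ (M + d) = ∑ i, aeval x (b j i) * aeval x (f i) := by
    have h6 := congrArg (aeval x) (hpb j)
    rw [map_pow, aeval_X, map_add, hxI _ (hp j), zero_add, map_sum] at h6
    simpa only [map_mul] using h6
  have h7 : N v (∑ i, aeval x (b j i) * aeval x (f i)) ≤ 4 ^ (Finset.univ : Finset (Fin (n + 1))).card *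
      (Real.exp K * mxn (N v) x ^ M * N v (aeval x (f i0))) := by
    refine sum_le54 h v Finset.univ _ _ (by positivity) fun i _ => ?_
    rw [h.mul]
    refine mul_le_mul ?_ (hi0 i (Finset.mem_univ _)) (N_nonneg54 h v _) (by positivity)
    refine (form_le54 h (b j i) (hb j i) x v).trans ?_
    exact mul_le_mul_of_nonneg_right (Real.exp_le_exp.2 (hKle i)) (by positivity)
  rw [← h5, N_pow54 h, hj, Finset.card_univ, Fintype.card_fin] at h7
  have h8 := Real.log_le_log (by positivity) h7
  rw [Real.log_mul (by positivity) (by positivity), Real.log_mul (by positivity) hFpos.ne',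
    Real.log_mul (by positivity) (by positivity), Real.log_exp, Real.log_pow, Real.log_pow, Real.log_pow] at h8
  push_cast at h8 ⊢
  nlinarith [h8]

end

end Pool.Agent.SQ
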