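import Pool.Agent.Helper42.SQ.HTg
import Pool.Agent.Helper42.SQ.LVg
import Pool.Agent.Helper21.V2.AR1

/-!
# SQ, stage 2, block OMg: limits along the ultrafilter (following helper85's block OM)
-/

set_option autoImplicit false
set_option linter.unusedSectionVars false

namespace Pool.Agent.SQ

open NumberField Filter Module
open Pool.Agent.Helper64.Vojta (Pl nv)
open Pool.Agent.V2

universe u

private theorem og_lim (U : Ultrafilter ℕ) (f : ℕ → ℝ) (C : ℝ) (h : ∀ᶠ n in (U : Filter ℕ), |f n| ≤ C) :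
    Tendsto f (U : Filter ℕ) (nhds (limUnder (U : Filter ℕ) f)) := by
  have h1 : ∃ a, Tendsto f (U : Filter ℕ) (nhds a) := by
    have hc : IsCompact (Set.Icc (-C) C) := isCompact_Icc
    have h2 : (Ultrafilter.map f U : Filter ℝ) ≤ Filter.principal (Set.Icc (-C) C) := by
      rw [Filter.le_principal_iff, Ultrafilter.coe_map, Filter.mem_map]
      filter_upwards [h] with n hn using abs_le.1 hn
    obtain ⟨a, _, ha⟩ := isCompact_iff_ultrafilter_le_nhds.1 hc (Ultrafilter.map f U) h2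
    exact ⟨a, ha⟩
  exact tendsto_nhds_limUnder h1

private theorem og_mxn {L : Type*} {ι : Type*} [Finite ι] [Nonempty ι] (N : L → ℝ) (X : ι → L) :
    ∃ j, mxn N X = N (X j) ∧ ∀ i, N (X i) ≤ N (X j) := by
  obtain ⟨j, hj⟩ := Finite.exists_max fun i => N (X i)
  exact ⟨j, le_antisymm (ciSup_le hj) (le_ciSup (f := fun i => N (X i)) (Set.finite_range _).bddAbove j), hj⟩

section

variable {k : Type u} [Field k] [NumberField k] {G : Type} [Group G] [Fintype G]

private theorem og_one {L : Type u} [Field L] [Algebra k L] {s : G →* (L ≃ₐ[k] L)} {N : Pl k → L → ℝ} (h : QSG s N)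
    (v : Pl k) : N v 1 = 1 := by
  have h1 := h.mul v 1 1
  rw [mul_one] at h1
  have h2 := h.pos v 1 one_ne_zero
  have h3 : N v 1 * (N v 1 - 1) = 0 := by linarith
  rcases mul_eq_zero.1 h3 with h4 | h4
  · exact absurd h4 h2.ne'
  · linarith

omit [NumberField k] in
private theorem og_lvs {L : Type u} [Field L] [Algebra k L] (σ : L ≃ₐ[k] L) {ι : Type*} [Fintype ι] (m : ι → k)
    (x : ι → L) : lvg m (fun i => σ (x i)) = σ (lvg m x) := by
  simp only [lvg, map_sum, map_mul, AlgEquiv.commutes]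

variable {D : SqG k G}

private theorem og_H (D : SqG k G) : ∀ᶠ n in (D.U : Filter ℕ), 0 < D.H n := D.H1.eventually_gt_atTop 0

private theorem og_c (D : SqG k G) (c : ℝ) : Tendsto (fun n => c / D.H n) (D.U : Filter ℕ) (nhds 0) :=
  tendsto_const_nhds.div_atTop D.H1

variable (F : GFG D)

private theorem og_zero : ∀ᶠ n in (D.U : Filter ℕ), F.rp 0 n = 0 := by
  have h := F.rp_alg 0
  rw [map_zero] at h
  filter_upwards [h] with n hn
  rw [hn, map_zero]

private theorem og_ne (x : F.K) (hx : x ≠ 0) : ∀ᶠ n in (D.U : Filter ℕ), F.rp x n ≠ 0 := by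
  rw [Ultrafilter.eventually_not]
  intro h
  apply hx
  apply F.rp_inj
  filter_upwards [h, og_zero F] with n h1 h2
  rw [h1, h2]

theorem omg_tendsto (v : Pl k) (x : F.K) (hx : x ≠ 0) :
    Tendsto (fun n => -Real.log (D.N n v (F.rp x n)) / D.H n) (D.U : Filter ℕ) (nhds (omg F v x)) := by
  obtain ⟨C, hC⟩ := F.rp_bdd x
  apply og_lim D.U _ C
  filter_upwards [hC, og_ne F x hx, og_H D] with n h1 h2 h3
  rw [abs_div, abs_neg, abs_of_pos h3, div_le_iff₀ h3]
  exact (abs_logg_le (D.qs n) v _ h2).trans h1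

private theorem omg_unique (v : Pl k) (x : F.K) (hx : x ≠ 0) (f : ℕ → ℝ) (a : ℝ)
    (h : ∀ᶠ n in (D.U : Filter ℕ), -Real.log (D.N n v (F.rp x n)) / D.H n = f n)
    (hf : Tendsto f (D.U : Filter ℕ) (nhds a)) : omg F v x = a :=
  tendsto_nhds_unique ((omg_tendsto F v x hx).congr' h) hf

theorem omg_RV (v : Pl k) : RV k (omg F v) where
  mul := by
    intro x y hx hy
    refine omg_unique F v (x * y) (mul_ne_zero hx hy) _ _ ?_ ((omg_tendsto F v x hx).add (omg_tendsto F v y hy))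
    filter_upwards [F.rp_mul x y, og_ne F x hx, og_ne F y hy] with n h1 h2 h3
    rw [h1, (D.qs n).mul, Real.log_mul ((D.qs n).pos v _ h2).ne' ((D.qs n).pos v _ h3).ne']
    ring
  add := by
    intro x y hx hy hxy
    have h1 := ((omg_tendsto F v x hx).min (omg_tendsto F v y hy)).sub (og_c D (Real.log 4))
    rw [sub_zero] at h1
    refine le_of_tendsto_of_tendsto h1 (omg_tendsto F v (x + y) hxy) ?_
    filter_upwards [F.rp_add x y, og_ne F x hx, og_ne F y hy, og_ne F (x + y) hxy, og_H D] with n h2 h3 h4 h5 h6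
    have hX := (D.qs n).pos v _ h3
    have hY := (D.qs n).pos v _ h4
    have hZ := (D.qs n).pos v _ h5
    have h7 := (D.qs n).add v (F.rp x n) (F.rp y n)
    rw [← h2] at h7
    rcases le_total (D.N n v (F.rp x n)) (D.N n v (F.rp y n)) with h8 | h8
    · rw [max_eq_right h8] at h7
      have h9 : Real.log (D.N n v (F.rp (x + y) n)) ≤ Real.log 4 + Real.log (D.N n v (F.rp y n)) := by
        rw [← Real.log_mul (by norm_num) hY.ne']
        exact Real.log_le_log hZ h7
      have h10 : -Real.log (D.N n v (F.rp y n)) / D.H n - Real.log 4 / D.H n ≤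
          -Real.log (D.N n v (F.rp (x + y) n)) / D.H n := by
        rw [← sub_div]
        exact div_le_div_of_nonneg_right (by linarith) h6.le
      exact (sub_le_sub_right (min_le_right _ _) _).trans h10
    · rw [max_eq_left h8] at h7
      have h9 : Real.log (D.N n v (F.rp (x + y) n)) ≤ Real.log 4 + Real.log (D.N n v (F.rp x n)) := by
        rw [← Real.log_mul (by norm_num) hX.ne']
        exact Real.log_le_log hZ h7
      have h10 : -Real.log (D.N n v (F.rp x n)) / D.H n - Real.log 4 / D.H n ≤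
          -Real.log (D.N n v (F.rp (x + y) n)) / D.H n := by
        rw [← sub_div]
        exact div_le_div_of_nonneg_right (by linarith) h6.le
      exact (sub_le_sub_right (min_le_left _ _) _).trans h10
  alg := by
    intro c hc
    refine omg_unique F v _ ((map_ne_zero _).2 hc) _ _ ?_ (og_c D (-Real.log (nv v c)))
    filter_upwards [F.rp_alg c] with n h1
    rw [h1, (D.qs n).ext]

section

variable {ι : Type} [Fintype ι] (x : ∀ n, ι → D.L n) (hx : Ptg D x)

include hx

private theorem og_nonempty : Nonempty ι := ⟨(hx.1 0).choose⟩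

omit hx in
private theorem og_ge (n : ℕ) (hn : ∃ j, x n j = 1) (v : Pl k) (g : G) :
    1 ≤ mxn (D.N n v) (fun i => D.s n g (x n i)) := by
  obtain ⟨j, hj⟩ := hn
  have : Nonempty ι := ⟨j⟩
  obtain ⟨i, hi, hi'⟩ := og_mxn (D.N n v) (fun i => D.s n g (x n i))
  rw [hi, ← og_one (D.qs n) v]
  have h1 := hi' j
  rwa [hj, map_one] at h1

omit hx in
private theorem og_nz (n : ℕ) (v : Pl k) (z : D.L n) (h : 1 ≤ D.N n v z) : z ≠ 0 := by
  rintro rfl
  rw [(D.qs n).zero] at h
  linarith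

theorem cg_tendsto (v : Pl k) (g : G) :
    Tendsto (fun n => Real.log (mxn (D.N n v) fun j => D.s n g (x n j)) / D.H n) (D.U : Filter ℕ) (nhds (cg D x v g)) := by
  have := og_nonempty x hx
  apply og_lim D.U _ 1
  filter_upwards [og_H D] with n h3
  rw [abs_div, abs_of_pos h3, div_le_iff₀ h3, one_mul]
  obtain ⟨i, hi, hi'⟩ := og_mxn (D.N n v) (fun i => D.s n g (x n i))
  have h4 := og_ge x n (hx.1 n) v g
  rw [hi] at h4 ⊢
  refine (abs_logg_le (D.qs n) v _ (og_nz n v _ h4)).trans ?_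
  rw [hx.2 n, htg_s (D.qs n)]
  exact htg_crd (D.qs n) (x n) (hx.1 n) i

theorem exists_xig : ∃ ξ : ι → F.K, ∀ j, ∀ᶠ n in (D.U : Filter ℕ), F.rp (ξ j) n = x n j := by
  have h1 : ∀ j : ι, ∃ z : F.K, ∀ᶠ n in (D.U : Filter ℕ), F.rp z n = x n j := by
    intro j
    apply F.rp_surj fun n => x n j
    refine ⟨1, Eventually.of_forall fun n => ?_⟩
    rw [one_mul, hx.2 n]
    exact htg_crd (D.qs n) (x n) (hx.1 n) j
  choose ξ hξ using h1
  exact ⟨ξ, hξ⟩

variable (ξ : ι → F.K) (hξ : ∀ j, ∀ᶠ n in (D.U : Filter ℕ), F.rp (ξ j) n = x n j)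

include hξ

omit hx hξ in
private theorem og_sum {κ : Type*} (t : Finset κ) (z : κ → F.K) :
    ∀ᶠ n in (D.U : Filter ℕ), F.rp (∑ j ∈ t, z j) n = ∑ j ∈ t, F.rp (z j) n := by
  classical
  induction t using Finset.induction_on with
  | empty => simpa using og_zero F
  | insert a t ha ih =>
    rw [Finset.sum_insert ha]
    filter_upwards [ih, F.rp_add (z a) (∑ j ∈ t, z j)] with n h1 h2
    rw [Finset.sum_insert ha, h2, h1]

theorem rp_lvg (m : ι → k) : ∀ᶠ n in (D.U : Filter ℕ), F.rp (∑ j, m j • ξ j) n = lvg m (x n) := by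
  have h1 : ∀ᶠ n in (D.U : Filter ℕ), ∀ j, F.rp (m j • ξ j) n = algebraMap k (D.L n) (m j) * x n j := by
    rw [eventually_all]
    intro j
    filter_upwards [hξ j, F.rp_alg (m j), F.rp_mul (algebraMap k F.K (m j)) (ξ j)] with n h2 h3 h4
    rw [Algebra.smul_def, h4, h3, h2]
  filter_upwards [h1, og_sum F Finset.univ fun j => m j • ξ j] with n h2 h3
  rw [h3, lvg]
  exact Finset.sum_congr rfl fun j _ => h2 j

theorem omg_nonneg (v : Pl k) (g : G) (z : F.K) (hz : z ∈ Submodule.span k (Set.range ξ)) (hz0 : z ≠ 0) :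
    0 ≤ omg F v (F.s g z) + cg D x v g := by
  obtain ⟨m, rfl⟩ := (Submodule.mem_span_range_iff_exists_fun k).1 hz
  obtain ⟨C, _, _, hC⟩ := lvg_le G m
  have hs : F.s g (∑ j, m j • ξ j) ≠ 0 := (map_ne_zero (F.s g)).2 hz0
  refine le_of_tendsto_of_tendsto (og_c D (-C v)) ((omg_tendsto F v _ hs).add (cg_tendsto x hx v g)) ?_
  filter_upwards [rp_lvg F x hx ξ hξ m, og_ne F _ hs, og_H D, F.rp_s g (∑ j, m j • ξ j)] with n h1 h2 h3 h4
  rw [h4, h1] at h2 ⊢
  rw [← og_lvs] at h2 ⊢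
  have h5 := hC (D.L n) (D.s n) (D.N n) (D.qs n) _ v h2
  rw [← add_div]
  exact div_le_div_of_nonneg_right (by linarith) h3.le

omit hx hξ in
private theorem og_pig (p : ι → ℕ → Prop) (h : ∀ n, ∃ j, p j n) : ∃ j, ∀ᶠ n in (D.U : Filter ℕ), p j n := by
  by_contra h1
  rw [not_exists] at h1
  have h2 : ∀ᶠ n in (D.U : Filter ℕ), ∀ j, ¬ p j n := by
    rw [eventually_all]
    intro j
    exact Ultrafilter.eventually_not.2 (h1 j)
  obtain ⟨n, hn⟩ := h2.exists
  obtain ⟨j, hj⟩ := h n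
  exact hn j hj

theorem omg_attained (v : Pl k) (g : G) :
    ∃ z ∈ Submodule.span k (Set.range ξ), z ≠ 0 ∧ omg F v (F.s g z) + cg D x v g = 0 := by
  have := og_nonempty x hx
  obtain ⟨j, hj⟩ := og_pig (D := D) (fun j n => mxn (D.N n v) (fun i => D.s n g (x n i)) = D.N n v (D.s n g (x n j)))
    fun n => by
      obtain ⟨i, hi, _⟩ := og_mxn (D.N n v) (fun i => D.s n g (x n i))
      exact ⟨i, hi⟩
  have h0 : ξ j ≠ 0 := by
    intro h
    have h1 := hξ j
    rw [h] at h1
    obtain ⟨n, h2, h3, h4⟩ := (h1.and ((og_zero F).and hj)).exists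
    have h5 := og_ge x n (hx.1 n) v g
    rw [h4] at h5
    exact og_nz n v _ h5 (by rw [← h2, h3, map_zero])
  refine ⟨ξ j, Submodule.subset_span ⟨j, rfl⟩, h0, ?_⟩
  refine tendsto_nhds_unique ((omg_tendsto F v _ ((map_ne_zero (F.s g)).2 h0)).add (cg_tendsto x hx v g)) ?_
  refine Tendsto.congr' ?_ tendsto_const_nhds
  filter_upwards [hξ j, hj, F.rp_s g (ξ j)] with n h1 h2 h3
  rw [h3, h1, h2]
  ring

omit hx hξ in
/-- Liouville's inequality for linear forms -/
private theorem og_liouville (m : ι → k) (P : Finset (Pl k)) :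
    ∃ C : ℝ, ∀ (L : Type u) [Field L] [Algebra k L] (s : G →* (L ≃ₐ[k] L)) (N : Pl k → L → ℝ), QSG s N →
      ∀ (x : ι → L), (∃ j, x j = 1) → lvg m x ≠ 0 →
      ∑ v ∈ P, ∑ g, (Real.log (mxn (N v) fun j => s g (x j)) - Real.log (N v (s g (lvg m x)))) ≤
        Hg s N x + C := by
  obtain ⟨C, hC, hC0, hle⟩ := lvg_le (k := k) G m
  refine ⟨gsum fun v => ∑ _g : G, C v, ?_⟩
  intro L _ _ s N h x hx hz
  have f1 := Hg_finS h x hx
  have f2 : FinS fun v => ∑ g, Real.log (N v (s g (lvg m x))) :=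
    FinS.sum Finset.univ fun g _ => h.fin _ ((map_ne_zero (s g)).2 hz)
  have f3 : FinS fun v => ∑ _g : G, C v := FinS.sum Finset.univ fun _ _ => hC
  have hnn : ∀ v, 0 ≤ ((∑ g, Real.log (mxn (N v) fun j => s g (x j))) + ∑ _g : G, C v) +
      -(∑ g, Real.log (N v (s g (lvg m x)))) := by
    intro v
    rw [← Finset.sum_add_distrib, ← sub_eq_add_neg, ← Finset.sum_sub_distrib]
    refine Finset.sum_nonneg fun g _ => ?_
    have h1 := hle L s N h (fun i => s g (x i)) v (by
      rw [og_lvs]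
      exact (map_ne_zero (s g)).2 hz)
    rw [og_lvs] at h1
    linarith
  have h3 := sum_le_gsum ((f1.add f3).add f2.neg) hnn P
  rw [gsum_add (f1.add f3) f2.neg, gsum_add f1 f3, gsum_neg, h.prod _ hz, neg_zero, add_zero] at h3
  refine le_trans (Finset.sum_le_sum fun v _ => ?_) h3
  rw [← Finset.sum_add_distrib, ← sub_eq_add_neg, ← Finset.sum_sub_distrib]
  refine Finset.sum_le_sum fun g _ => ?_
  have := hC0 v
  linarith

theorem omg_prod (P : Finset (Pl k)) (z : F.K) (hz : z ∈ Submodule.span k (Set.range ξ)) (hz0 : z ≠ 0) :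
    ∑ v ∈ P, ∑ g, (omg F v (F.s g z) + cg D x v g) ≤ 1 := by
  obtain ⟨m, rfl⟩ := (Submodule.mem_span_range_iff_exists_fun k).1 hz
  obtain ⟨C, hC⟩ := og_liouville (k := k) (G := G) m P
  have hs : ∀ g, F.s g (∑ j, m j • ξ j) ≠ 0 := fun g => (map_ne_zero (F.s g)).2 hz0
  have h1 := tendsto_finsetSum P fun v _ => tendsto_finsetSum Finset.univ fun g _ =>
    (omg_tendsto F v _ (hs g)).add (cg_tendsto x hx v g)
  have h2 := (og_c D C).const_add 1
  rw [add_zero] at h2
  refine le_of_tendsto_of_tendsto h1 h2 ?_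
  have h6 : ∀ᶠ n in (D.U : Filter ℕ), ∀ g : G, F.rp (F.s g (∑ j, m j • ξ j)) n = D.s n g (F.rp (∑ j, m j • ξ j) n) := by
    rw [eventually_all]
    exact fun g => F.rp_s g _
  filter_upwards [rp_lvg F x hx ξ hξ m, og_ne F _ hz0, og_H D, h6] with n h3 h4 h5 h6
  rw [h3] at h4
  have h7 := hC (D.L n) (D.s n) (D.N n) (D.qs n) (x n) (hx.1 n) h4
  rw [← hx.2 n] at h7
  have h8 : ∀ v ∈ P, (∑ g, (-Real.log (D.N n v (F.rp (F.s g (∑ j, m j • ξ j)) n)) / D.H n +
      Real.log (mxn (D.N n v) fun j => D.s n g (x n j)) / D.H n)) =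
      (∑ g, (Real.log (mxn (D.N n v) fun j => D.s n g (x n j)) - Real.log (D.N n v (D.s n g (lvg m (x n)))))) /
        D.H n := by
    intro v _
    rw [Finset.sum_div]
    refine Finset.sum_congr rfl fun g _ => ?_
    rw [h6 g, h3]
    ring
  rw [Finset.sum_congr rfl h8, ← Finset.sum_div, div_le_iff₀ h5, add_mul, one_mul, div_mul_cancel₀ _ h5.ne']
  exact h7

end

end

end Pool.Agent.SQ
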