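import Pool.Agent.Helper42.SQ.GDefs2
import Pool.Agent.Helper61.QP.Sch
import Pool.Agent.Helper16.TP.Bdd
import Pool.Agent.Helper42.SQ.OMg

/-!
# SQ, block SUBg: the subspace theorem for the invariants of a finite group
-/

set_option autoImplicit false

namespace Pool.Agent.SQ

open NumberField Filter Module
open Pool.Agent.Helper64.Vojta (Pl nv nv_nonneg nv_mul nv_one nv_zero nv_pos)
open Pool.Agent.V2
open Pool.Agent.QP (vl van Qt sz szf sz_mk sch szf_tendsto)

universe u

variable {k : Type u} [Field k] [NumberField k]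

theorem finS_absg76 {f : Pl k → ℝ} (hf : FinS f) : FinS fun v => |f v| := by
  refine Set.Finite.subset hf fun v hv => ?_
  rw [Function.mem_support] at hv ⊢
  intro h
  apply hv
  show |f (.inr v)| = 0
  rw [h, abs_zero]

/-! ### germs -/

section germg76

variable {Γ : Type} [Group Γ] [Fintype Γ] {D : SqG k Γ} (G : GFG D)

theorem rp_zerog76 : ∀ᶠ n in (D.U : Filter ℕ), G.rp 0 n = 0 := by
  have h := G.rp_alg 0
  simp only [map_zero] at h
  exact h

theorem rp_oneg76 : ∀ᶠ n in (D.U : Filter ℕ), G.rp 1 n = 1 := by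
  have h := G.rp_alg 1
  simp only [map_one] at h
  exact h

theorem rp_neg76 {z : G.K} (hz : z ≠ 0) : ∀ᶠ n in (D.U : Filter ℕ), G.rp z n ≠ 0 := by
  rw [Ultrafilter.eventually_not]
  intro h
  apply hz
  apply G.rp_inj
  filter_upwards [h, rp_zerog76 G] with n h1 h2
  rw [h1, h2]

theorem rp_smulg76 (c : k) (z : G.K) :
    ∀ᶠ n in (D.U : Filter ℕ), G.rp (c • z) n = algebraMap k (D.L n) c * G.rp z n := by
  filter_upwards [G.rp_mul (algebraMap k G.K c) z, G.rp_alg c] with n h1 h2
  rw [Algebra.smul_def, h1, h2]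

theorem rp_sumg76 {ι : Type*} (s : Finset ι) (y : ι → G.K) :
    ∀ᶠ n in (D.U : Filter ℕ), G.rp (∑ i ∈ s, y i) n = ∑ i ∈ s, G.rp (y i) n := by
  classical
  induction s using Finset.induction_on with
  | empty =>
    simp only [Finset.sum_empty]
    exact rp_zerog76 G
  | insert a s ha ih =>
    filter_upwards [ih, G.rp_add (y a) (∑ i ∈ s, y i)] with n h1 h2
    rw [Finset.sum_insert ha, Finset.sum_insert ha, h2, h1]

theorem rp_ling76 {ι : Type*} [Fintype ι] (g : ι → k) (y : ι → G.K) :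
    ∀ᶠ n in (D.U : Filter ℕ), G.rp (∑ j, g j • y j) n = ∑ j, algebraMap k (D.L n) (g j) * G.rp (y j) n := by
  filter_upwards [rp_sumg76 G Finset.univ fun j => g j • y j,
    Filter.eventually_all.2 fun j => rp_smulg76 G (g j) (y j)] with n h1 h2
  rw [h1]
  exact Finset.sum_congr rfl fun j _ => h2 j

/-- the invariant germs come from `k` -/
theorem invg76 {y : G.K} (hy : ∀ g, G.s g y = y) :
    ∀ᶠ n in (D.U : Filter ℕ), ∃ c : k, G.rp y n = algebraMap k (D.L n) c := by
  filter_upwards [Filter.eventually_all.2 fun g => G.rp_s g y] with n hn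
  refine (D.qs n).fix _ fun g => ?_
  rw [← hn g, hy g]

/-- the germs bounded by `A` -/
def Bndg76 (A : ℕ → Pl k → ℝ) (hA : ∀ n v, 0 ≤ A n v) : Submodule k G.K where
  carrier := {z | ∃ C : Pl k → ℝ, FinS C ∧ (∀ v, 0 ≤ C v) ∧
    ∀ᶠ n in (D.U : Filter ℕ), ∀ v, D.N n v (G.rp z n) ≤ Real.exp (C v) * A n v}
  zero_mem' := by
    refine ⟨fun _ => 0, FinS.zero, fun _ => le_rfl, ?_⟩
    filter_upwards [rp_zerog76 G] with n hn v
    rw [hn, (D.qs n).zero, Real.exp_zero, one_mul]
    exact hA n v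
  add_mem' := by
    rintro z z' ⟨C, hC1, hC2, hC3⟩ ⟨C', hC1', hC2', hC3'⟩
    refine ⟨fun v => (C v + C' v) + (match v with | .inl _ => Real.log 4 | .inr _ => 0), ?_, ?_, ?_⟩
    · refine (hC1.add hC1').add ?_
      unfold FinS
      simp
    · intro v
      have h1 := hC2 v
      have h2 := hC2' v
      have h3 : 0 ≤ Real.log 4 := Real.log_nonneg (by norm_num)
      rcases v with v | v
      · show 0 ≤ (C (.inl v) + C' (.inl v)) + Real.log 4
        linarith
      · show 0 ≤ (C (.inr v) + C' (.inr v)) + 0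
        linarith
    · filter_upwards [hC3, hC3', G.rp_add z z'] with n h1 h2 h3 v
      have h4 := hC2 v
      have h5 := hC2' v
      have h6 : max (D.N n v (G.rp z n)) (D.N n v (G.rp z' n)) ≤ Real.exp (C v + C' v) * A n v := by
        refine max_le ((h1 v).trans ?_) ((h2 v).trans ?_)
        · exact mul_le_mul_of_nonneg_right (Real.exp_le_exp.2 (by linarith)) (hA n v)
        · exact mul_le_mul_of_nonneg_right (Real.exp_le_exp.2 (by linarith)) (hA n v)
      rw [h3]
      rcases v with v | v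
      · refine ((D.qs n).add (.inl v) _ _).trans ?_
        show _ ≤ Real.exp ((C (.inl v) + C' (.inl v)) + Real.log 4) * A n (.inl v)
        rw [Real.exp_add, Real.exp_log (by norm_num), mul_comm (Real.exp _) 4, mul_assoc]
        exact mul_le_mul_of_nonneg_left h6 (by norm_num)
      · refine ((D.qs n).ult v _ _).trans ?_
        show _ ≤ Real.exp ((C (.inr v) + C' (.inr v)) + 0) * A n (.inr v)
        rw [add_zero]
        exact h6
  smul_mem' := by
    rintro c z ⟨C, hC1, hC2, hC3⟩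
    by_cases hc : c = 0
    · subst hc
      rw [zero_smul]
      refine ⟨fun _ => 0, FinS.zero, fun _ => le_rfl, ?_⟩
      filter_upwards [rp_zerog76 G] with n hn v
      rw [hn, (D.qs n).zero, Real.exp_zero, one_mul]
      exact hA n v
    refine ⟨fun v => |Real.log (nv v c)| + C v, ?_, fun v => add_nonneg (abs_nonneg _) (hC2 v), ?_⟩
    · exact (finS_absg76 (finS_nv hc)).add hC1
    · filter_upwards [hC3, rp_smulg76 G c z] with n h1 h2 v
      rw [h2, (D.qs n).mul, (D.qs n).ext, Real.exp_add, mul_assoc]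
      refine mul_le_mul ?_ (h1 v) ?_ (Real.exp_pos _).le
      · conv_lhs => rw [← Real.exp_log (nv_pos v hc)]
        exact Real.exp_le_exp.2 (le_abs_self _)
      · by_cases h3 : G.rp z n = 0
        · rw [h3, (D.qs n).zero]
        · exact ((D.qs n).pos v _ h3).le

theorem Bnd_mulg76 {A B : ℕ → Pl k → ℝ} (hA : ∀ n v, 0 ≤ A n v) (hB : ∀ n v, 0 ≤ B n v) :
    Bndg76 G A hA * Bndg76 G B hB ≤ Bndg76 G (fun n v => A n v * B n v) fun n v => mul_nonneg (hA n v) (hB n v) := by
  rw [Submodule.mul_le]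
  rintro z ⟨C, hC1, hC2, hC3⟩ z' ⟨C', hC1', hC2', hC3'⟩
  refine ⟨fun v => C v + C' v, hC1.add hC1', fun v => add_nonneg (hC2 v) (hC2' v), ?_⟩
  filter_upwards [hC3, hC3', G.rp_mul z z'] with n h1 h2 h3 v
  rw [h3, (D.qs n).mul, Real.exp_add]
  have h4 : 0 ≤ D.N n v (G.rp z' n) := by
    by_cases h : G.rp z' n = 0
    · rw [h, (D.qs n).zero]
    · exact ((D.qs n).pos v _ h).le
  calc D.N n v (G.rp z n) * D.N n v (G.rp z' n) ≤ (Real.exp (C v) * A n v) * (Real.exp (C' v) * B n v) :=
        mul_le_mul (h1 v) (h2 v) h4 (mul_nonneg (Real.exp_pos _).le (hA n v))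
    _ = _ := by ring

theorem Bnd_oneg76 : (1 : Submodule k G.K) ≤ Bndg76 G (fun _ _ => 1) fun _ _ => zero_le_one := by
  intro z hz
  rw [Submodule.mem_one] at hz
  obtain ⟨c, rfl⟩ := hz
  by_cases hc : c = 0
  · subst hc
    rw [map_zero]
    exact Submodule.zero_mem _
  refine ⟨fun v => |Real.log (nv v c)|, finS_absg76 (finS_nv hc), fun v => abs_nonneg _, ?_⟩
  filter_upwards [G.rp_alg c] with n h1 v
  rw [h1, (D.qs n).ext, mul_one]
  conv_lhs => rw [← Real.exp_log (nv_pos v hc)]
  exact Real.exp_le_exp.2 (le_abs_self _)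

theorem Bnd_prodg76 {A : Γ → ℕ → Pl k → ℝ} (hA : ∀ g n v, 0 ≤ A g n v) (W : Γ → Submodule k G.K)
    (hW : ∀ g, W g ≤ Bndg76 G (A g) (hA g)) (T : Finset Γ) :
    ∏ g ∈ T, W g ≤ Bndg76 G (fun n v => ∏ g ∈ T, A g n v) fun n v => Finset.prod_nonneg fun g _ => hA g n v := by
  classical
  induction T using Finset.induction_on with
  | empty =>
    simp only [Finset.prod_empty]
    exact Bnd_oneg76 G
  | insert a T ha ih =>
    rw [Finset.prod_insert ha]
    refine (mul_le_mul' (hW a) ih).trans ((Bnd_mulg76 G (hA a) fun n v => Finset.prod_nonneg fun g _ => hA g n v).trans ?_)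
    intro z hz
    obtain ⟨C, h1, h2, h3⟩ := hz
    refine ⟨C, h1, h2, ?_⟩
    filter_upwards [h3] with n hn v
    rw [Finset.prod_insert ha]
    exact hn v

theorem Bnd_powg76 {A : ℕ → Pl k → ℝ} (hA : ∀ n v, 0 ≤ A n v) (W : Submodule k G.K) (hW : W ≤ Bndg76 G A hA) (m : ℕ) :
    W ^ m ≤ Bndg76 G (fun n v => A n v ^ m) fun n v => pow_nonneg (hA n v) m := by
  induction m with
  | zero =>
    rw [pow_zero]
    intro z hz
    rw [Submodule.mem_one] at hz
    obtain ⟨c, rfl⟩ := hz
    by_cases hc : c = 0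
    · subst hc
      rw [map_zero]
      exact Submodule.zero_mem _
    refine ⟨fun v => |Real.log (nv v c)|, ?_, fun v => abs_nonneg _, ?_⟩
    · exact finS_absg76 (finS_nv hc)
    · filter_upwards [G.rp_alg c] with n h1 v
      rw [h1, (D.qs n).ext, pow_zero, mul_one]
      conv_lhs => rw [← Real.exp_log (nv_pos v hc)]
      exact Real.exp_le_exp.2 (le_abs_self _)
  | succ m ih =>
    rw [pow_succ]
    refine (mul_le_mul' ih hW).trans ((Bnd_mulg76 G (fun n v => pow_nonneg (hA n v) m) hA).trans ?_)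
    intro z hz
    obtain ⟨C, h1, h2, h3⟩ := hz
    refine ⟨C, h1, h2, ?_⟩
    filter_upwards [h3] with n hn v
    rw [pow_succ]
    exact hn v

end germg76

/-! ### places -/

section plg76

variable {L : Type u} [Field L] [Algebra k L] {Γ : Type} [Group Γ] [Fintype Γ] {s : Γ →* (L ≃ₐ[k] L)}
  {N : Pl k → L → ℝ} (h : QSG s N)

include h

theorem N_oneg76 (v : Pl k) : N v 1 = 1 := by
  have := h.ext v 1
  rwa [map_one, nv_one] at this

theorem N_nonnegg76 (v : Pl k) (x : L) : 0 ≤ N v x := by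
  by_cases hx : x = 0
  · rw [hx, h.zero]
  · exact (h.pos v x hx).le

theorem one_le_mxng76 {ι : Type} [Finite ι] (x : ι → L) (hx : ∃ j, x j = 1) (v : Pl k) : 1 ≤ mxn (N v) x := by
  obtain ⟨j, hj⟩ := hx
  have h1 : N v (x j) ≤ mxn (N v) x := le_ciSup (f := fun a => N v (x a)) (Set.finite_range _).bddAbove j
  rwa [hj, N_oneg76 h] at h1

theorem finS_mxng76 {ι : Type} [Finite ι] (x : ι → L) (hx : ∃ j, x j = 1) : FinS fun v => Real.log (mxn (N v) x) := by
  have hne : Nonempty ι := ⟨hx.choose⟩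
  have hf : (⋃ j : {j // x j ≠ 0}, Function.support fun v : FinitePlace k => Real.log (N (.inr v) (x j))).Finite :=
    Set.finite_iUnion fun j => h.fin _ j.2
  refine hf.subset fun v hv => ?_
  by_contra hcon
  apply hv
  simp only [Set.mem_iUnion, Function.mem_support, not_exists, not_not] at hcon
  have h1 : mxn (N (.inr v)) x = 1 := by
    refine le_antisymm (ciSup_le fun j => ?_) (one_le_mxng76 h x hx _)
    by_cases hj : x j = 0
    · rw [hj, h.zero]
      exact zero_le_one
    · have h2 := hcon ⟨j, hj⟩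
      have h3 := h.pos (.inr v) _ hj
      rw [← Real.exp_log h3, h2, Real.exp_zero]
  show Real.log (mxn (N (.inr v)) x) = 0
  rw [h1, Real.log_one]

end plg76

theorem limg76 (U : Ultrafilter ℕ) (f : ℕ → ℝ) {A B : ℝ} (h : ∀ᶠ n in (U : Filter ℕ), f n ∈ Set.Icc A B) :
    ∃ a, Tendsto f (U : Filter ℕ) (nhds a) := by
  obtain ⟨a, _, ha⟩ := isCompact_Icc.ultrafilter_le_nhds (U.map f) (by
    rw [le_principal_iff]
    exact h)
  exact ⟨a, ha⟩

/-- extension of a family indexed by a finite set of places -/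
theorem schg76 (U : Ultrafilter ℕ) {ι : Type*} [Fintype ι] (F : ℕ → ι → k)
    (hH : Tendsto (fun n => vH (F n)) (U : Filter ℕ) atTop) (P : Finset (Pl k)) (n : P → ℕ)
    (w : ∀ v : P, Fin (n v) → Qt U F) (hw : ∀ v, LinearIndependent k (w v)) :
    ∑ v : P, ∑ i, sz U F v (w v i) ≤ finrank k (Qt U F) := by
  classical
  let s : Pl k → Σ m : ℕ, (Fin m → Qt U F) := fun v => if h : v ∈ P then ⟨n ⟨v, h⟩, w ⟨v, h⟩⟩ else ⟨0, Fin.elim0⟩
  have hs : ∀ v : P, s v = ⟨n v, w v⟩ := fun v => dif_pos v.2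
  have h1 := sch U F hH P (fun v => (s v).1) (fun v => (s v).2) (by
    intro v hv
    show LinearIndependent k (s v).2
    rw [hs ⟨v, hv⟩]
    exact hw ⟨v, hv⟩)
  refine le_trans (le_of_eq ?_) h1
  rw [← Finset.sum_coe_sort P]
  refine Finset.sum_congr rfl fun v _ => ?_
  show _ = ∑ i, sz U F v ((s v).2 i)
  rw [hs v]

variable {Γ : Type} [Group Γ] [Fintype Γ] {D : SqG k Γ} (G : GFG D)

section

variable {ι : Type} [Fintype ι] (x : ∀ n, ι → D.L n) (hx : Ptg D x)

include hx

variable (ξ : ι → G.K) (hξ : ∀ j, ∀ᶠ n in (D.U : Filter ℕ), G.rp (ξ j) n = x n j)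

include hξ

theorem le_Bndg76 (m : ℕ) : ∃ hA, (∏ g, (Submodule.span k (Set.range ξ)).map (G.s g).toLinearMap) ^ m ≤
    Bndg76 G (fun n v => (∏ g, mxn (D.N n v) fun i => D.s n g (x n i)) ^ m) hA := by
  have h2 : ∀ g n v, 0 ≤ mxn (D.N n v) fun i => D.s n g (x n i) := fun g n v =>
    zero_le_one.trans (one_le_mxng76 (D.qs n) _ (by
      obtain ⟨j, hj⟩ := hx.1 n
      exact ⟨j, by rw [hj, map_one]⟩) v)
  refine ⟨fun n v => pow_nonneg (Finset.prod_nonneg fun g _ => h2 g n v) m,
    Bnd_powg76 G (fun n v => Finset.prod_nonneg fun g _ => h2 g n v) _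
      (Bnd_prodg76 G (A := fun g n v => mxn (D.N n v) fun i => D.s n g (x n i)) h2 _ ?_ Finset.univ) m⟩
  intro g
  rw [Submodule.map_span, Submodule.span_le]
  rintro _ ⟨_, ⟨j, rfl⟩, rfl⟩
  refine ⟨fun _ => 0, FinS.zero, fun _ => le_rfl, ?_⟩
  filter_upwards [hξ j, G.rp_s g (ξ j)] with n hn hn' v
  show D.N n v (G.rp (G.s g (ξ j)) n) ≤ _
  rw [hn', hn, Real.exp_zero, one_mul]
  exact le_ciSup (f := fun a => D.N n v (D.s n g (x n a))) (Set.finite_range _).bddAbove j

open Pool.Agent.V2 in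
theorem datag76 (P : Finset (Pl k)) (m : ℕ) (E : Submodule k G.K)
    (hE : E ≤ (∏ g, (Submodule.span k (Set.range ξ)).map (G.s g).toLinearMap) ^ m)
    (hEs : ∀ z ∈ E, ∀ g, G.s g z = z) (hE0 : E ≠ ⊥) [FiniteDimensional k E] :
    ∃ (T : Pl k → G.K → ℝ) (B : Pl k → ℝ) (ρ : ℝ),
      (∀ v z, omg G v z + m * ∑ g, cg D x v g = T v z + B v) ∧ (∀ v, 0 ≤ B v) ∧ ∑ v ∈ P, B v ≤ m - ρ ∧
      ∀ (n : P → ℕ) (z : ∀ v : P, Fin (n v) → G.K), (∀ v, LinearIndependent k (z v)) → (∀ v i, z v i ∈ E) →
        ∑ v : P, ∑ i, T v (z v i) ≤ ρ * finrank k E := by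
  classical
  have hnt : Nontrivial E := Submodule.nontrivial_iff_ne_bot.2 hE0
  have he0 : 0 < finrank k E := finrank_pos
  obtain ⟨e, he⟩ : ∃ e, e = finrank k E := ⟨_, rfl⟩
  rw [← he] at he0 ⊢
  let b : Basis (Fin e) k E := finBasisOfFinrankEq k E he.symm
  let i0 : Fin e := ⟨0, he0⟩
  let f : Fin e → G.K := fun j => (b j : G.K)
  have hf0 : f i0 ≠ 0 := fun h => b.ne_zero i0 (Subtype.ext h)
  -- the germ `F`
  have hFex : ∃ F : ℕ → Fin e → k, ∀ᶠ n in (D.U : Filter ℕ), ∀ j, G.rp (f j / f i0) n = algebraMap k (D.L n) (F n j) := by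
    have h1 : ∀ᶠ n in (D.U : Filter ℕ), ∀ j, ∃ c : k, G.rp (f j / f i0) n = algebraMap k (D.L n) c :=
      Filter.eventually_all.2 fun j => invg76 G fun g => by
        rw [map_div₀, hEs _ (b j).2, hEs _ (b i0).2]
    refine ⟨fun n j => if h : ∃ c : k, G.rp (f j / f i0) n = algebraMap k (D.L n) c then h.choose else 0, ?_⟩
    filter_upwards [h1] with n hn j
    rw [dif_pos (hn j)]
    exact (hn j).choose_spec
  obtain ⟨F, hF⟩ := hFex
  have ha : ∀ᶠ n in (D.U : Filter ℕ), G.rp (f i0) n ≠ 0 := rp_neg76 G hf0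
  have hF1 : ∀ᶠ n in (D.U : Filter ℕ), F n i0 = 1 := by
    filter_upwards [hF, rp_oneg76 G] with n h1 h2
    have h3 := h1 i0
    rw [div_self hf0, h2] at h3
    exact ((algebraMap k (D.L n)).injective (by rw [← h3, map_one]))
  have hmain : ∀ g : Fin e → k, ∀ᶠ n in (D.U : Filter ℕ),
      G.rp (∑ j, g j • f j) n = algebraMap k (D.L n) (vl g (F n)) * G.rp (f i0) n := by
    intro g
    have h1 : ∑ j, g j • f j = (∑ j, g j • (f j / f i0)) * f i0 := by
      rw [Finset.sum_mul]
      refine Finset.sum_congr rfl fun j _ => ?_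
      rw [smul_mul_assoc, div_mul_cancel₀ _ hf0]
    filter_upwards [hF, G.rp_mul (∑ j, g j • (f j / f i0)) (f i0), rp_ling76 G g fun j => f j / f i0] with n h2 h3 h4
    rw [h1, h3, h4]
    congr 1
    unfold vl
    rw [map_sum]
    refine Finset.sum_congr rfl fun j _ => ?_
    rw [h2 j, map_mul]
  have hsum0 : ∀ g : Fin e → k, ∑ j, g j • f j = 0 → g = 0 := by
    intro g hg
    have h1 : ∑ j, g j • b j = 0 := by
      apply Subtype.ext
      rw [← Submodule.subtype_apply, map_sum]
      simpa using hg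
    funext j
    exact Fintype.linearIndependent_iff.1 b.linearIndependent g h1 j
  have hvan : ∀ g : Fin e → k, g ≠ 0 → g ∉ van D.U F := by
    intro g hg h
    apply hg
    apply hsum0
    apply G.rp_inj
    have h' : ∀ᶠ n in (D.U : Filter ℕ), vl g (F n) = 0 := h
    filter_upwards [hmain g, h', rp_zerog76 G] with n h1 h2 h3
    rw [h1, h2, map_zero, zero_mul, h3]
  -- the bound
  obtain ⟨hA, hle⟩ := le_Bndg76 G x hx ξ hξ m
  have hC : ∀ j, ∃ C : Pl k → ℝ, FinS C ∧ (∀ v, 0 ≤ C v) ∧ ∀ᶠ n in (D.U : Filter ℕ), ∀ v,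
      D.N n v (G.rp (f j) n) ≤ Real.exp (C v) * (∏ g, mxn (D.N n v) fun i => D.s n g (x n i)) ^ m :=
    fun j => hle (hE (b j).2)
  choose C hC1 hC2 hC3 using hC
  have hx2 : ∀ n g, ∃ j, (fun i => D.s n g (x n i)) j = 1 := by
    intro n g
    obtain ⟨j, hj⟩ := hx.1 n
    exact ⟨j, by show D.s n g (x n j) = 1; rw [hj, map_one]⟩
  obtain ⟨C', hC'⟩ : ∃ C' : Pl k → ℝ, C' = fun v => ∑ j, C j v := ⟨_, rfl⟩
  have hC'f : FinS C' := hC' ▸ FinS.sum Finset.univ fun j _ => hC1 j
  have hC'0 : ∀ v, 0 ≤ C' v := by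
    intro v
    rw [hC']
    exact Finset.sum_nonneg fun j _ => hC2 j v
  have hC'le : ∀ j v, C j v ≤ C' v := by
    intro j v
    rw [hC']
    exact Finset.single_le_sum (f := fun j => C j v) (fun j _ => hC2 j v) (Finset.mem_univ j)
  have hgC : 0 ≤ gsum C' := gsum_nonneg hC'0
  let X : ℕ → Pl k → ℝ := fun n v => ∑ g, Real.log (mxn (D.N n v) fun i => D.s n g (x n i))
  let Y : ℕ → Pl k → ℝ := fun n v => Real.log (vn v (F n))
  let Z : ℕ → Pl k → ℝ := fun n v => Real.log (D.N n v (G.rp (f i0) n))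
  have hFne : ∀ᶠ n in (D.U : Filter ℕ), F n ≠ 0 := by
    filter_upwards [hF1] with n hn h
    rw [h] at hn
    exact zero_ne_one hn
  have hfj : ∀ᶠ n in (D.U : Filter ℕ), ∀ j, G.rp (f j) n = G.rp (f j / f i0) n * G.rp (f i0) n := by
    refine Filter.eventually_all.2 fun j => ?_
    filter_upwards [G.rp_mul (f j / f i0) (f i0)] with n hn
    rw [← hn, div_mul_cancel₀ _ hf0]
  have hR : ∀ᶠ n in (D.U : Filter ℕ), ∀ v, 0 ≤ m * X n v + C' v - Y n v - Z n v := by
    filter_upwards [Filter.eventually_all.2 hC3, hF, ha, hFne, hfj] with n h1 h2 h3 h4 hj v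
    have h5 : ∀ g, 0 < mxn (D.N n v) fun i => D.s n g (x n i) := fun g =>
      zero_lt_one.trans_le (one_le_mxng76 (D.qs n) _ (hx2 n g) v)
    have h6 : 0 < ∏ g, mxn (D.N n v) fun i => D.s n g (x n i) := Finset.prod_pos fun g _ => h5 g
    have h7 : 0 < D.N n v (G.rp (f i0) n) := (D.qs n).pos v _ h3
    have h8 : vn v (F n) ≤ Real.exp (C' v) * (∏ g, mxn (D.N n v) fun i => D.s n g (x n i)) ^ m /
        D.N n v (G.rp (f i0) n) := by
      refine vn_le v _ (by positivity) fun j => ?_
      rw [le_div_iff₀ h7, ← (D.qs n).ext v, ← (D.qs n).mul, ← h2 j, ← hj j]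
      exact (h1 j v).trans (mul_le_mul_of_nonneg_right (Real.exp_le_exp.2 (hC'le j v)) (by positivity))
    have h9 := Real.log_le_log (vn_pos v h4) h8
    rw [Real.log_div (by positivity) h7.ne', Real.log_mul (Real.exp_pos _).ne' (by positivity), Real.log_exp,
      Real.log_pow, Real.log_prod fun g _ => (h5 g).ne'] at h9
    show 0 ≤ m * (∑ g, Real.log (mxn (D.N n v) fun i => D.s n g (x n i))) + C' v -
      Real.log (vn v (F n)) - Real.log (D.N n v (G.rp (f i0) n))
    linarith
  have hprod : ∀ᶠ n in (D.U : Filter ℕ), gsum (Z n) = 0 := by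
    filter_upwards [ha, Filter.eventually_all.2 fun g => G.rp_s g (f i0)] with n h1 h2
    have h4 : ∀ g, D.s n g (G.rp (f i0) n) = G.rp (f i0) n := by
      intro g
      rw [← h2 g, hEs _ (b i0).2 g]
    have h5 := (D.qs n).prod _ h1
    have h6 : (fun v => ∑ g, Real.log (D.N n v (D.s n g (G.rp (f i0) n)))) =
        fun v => (Fintype.card Γ : ℝ) * Z n v := by
      funext v
      show _ = (Fintype.card Γ : ℝ) * Real.log (D.N n v (G.rp (f i0) n))
      rw [Finset.sum_congr rfl fun g _ => by rw [h4 g], Finset.sum_const, Finset.card_univ, nsmul_eq_mul]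
    rw [h6, gsum_const_mul] at h5
    have h7 : (Fintype.card Γ : ℝ) ≠ 0 := by
      have : 0 < Fintype.card Γ := Fintype.card_pos
      positivity
    exact (mul_eq_zero.1 h5).resolve_left h7
  have hX : ∀ n, FinS (X n) := fun n => FinS.sum Finset.univ fun g _ => finS_mxng76 (D.qs n) _ (hx2 n g)
  have hXH : ∀ n, gsum (X n) = D.H n := fun n => (hx.2 n).symm
  have hS : ∀ᶠ n in (D.U : Filter ℕ), ∀ Q : Finset (Pl k),
      vH (F n) + ∑ v ∈ Q, (m * X n v + C' v - Y n v - Z n v) ≤ m * D.H n + gsum C' := by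
    filter_upwards [hR, hprod, ha, hFne] with n h1 h2 h3 h4 Q
    have hYf : FinS (Y n) := finS_vn h4
    have hZf : FinS (Z n) := (D.qs n).fin _ h3
    have e1 : (fun v => m * X n v + C' v - Y n v - Z n v) = fun v => ((m * X n v + C' v) + -Y n v) + -Z n v := by
      funext v
      ring
    have hf1 : FinS fun v => ((m * X n v + C' v) + -Y n v) + -Z n v :=
      ((((hX n).const_mul m).add hC'f).add hYf.neg).add hZf.neg
    have h5 := sum_le_gsum (e1 ▸ hf1) h1 Q
    have h6 : gsum (fun v => m * X n v + C' v - Y n v - Z n v) = m * D.H n + gsum C' - vH (F n) := by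
      rw [e1, gsum_add ((((hX n).const_mul m).add hC'f).add hYf.neg) hZf.neg,
        gsum_add (((hX n).const_mul m).add hC'f) hYf.neg, gsum_add ((hX n).const_mul m) hC'f, gsum_const_mul,
        gsum_neg, gsum_neg, h2, hXH]
      show _ = m * D.H n + gsum C' - gsum (Y n)
      ring
    rw [h6] at h5
    linarith
  have hvH : ∀ᶠ n in (D.U : Filter ℕ), vH (F n) ≤ m * D.H n + gsum C' := by
    filter_upwards [hS] with n hn
    have := hn ∅
    rwa [Finset.sum_empty, add_zero] at this
  have hvH0 : ∀ᶠ n in (D.U : Filter ℕ), 0 ≤ vH (F n) := by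
    filter_upwards [hFne] with n hn
    exact vH_nonneg hn
  have hY0 : ∀ᶠ n in (D.U : Filter ℕ), ∀ v, 0 ≤ Y n v := by
    filter_upwards [hF1] with n hn v
    have h1 := le_vn v (F n) i0
    rw [hn, nv_one] at h1
    exact Real.log_nonneg h1
  have hYle : ∀ᶠ n in (D.U : Filter ℕ), ∀ v, Y n v ≤ vH (F n) := by
    filter_upwards [hY0, hFne] with n h1 h2 v
    exact single_le_gsum (finS_vn h2) h1 v
  have hH1 : ∀ᶠ n in (D.U : Filter ℕ), 1 ≤ D.H n := D.H1.eventually_ge_atTop 1
  -- limits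
  obtain ⟨ρ, hρ⟩ := limg76 D.U (fun n => vH (F n) / D.H n) (A := 0) (B := m + gsum C') (by
    filter_upwards [hvH, hvH0, hH1] with n h1 h2 h3
    refine ⟨by positivity, ?_⟩
    rw [div_le_iff₀ (by linarith)]
    nlinarith)
  have hlam : ∀ v, ∃ a, Tendsto (fun n => Y n v / D.H n) (D.U : Filter ℕ) (nhds a) := fun v =>
    limg76 D.U (fun n => Y n v / D.H n) (A := 0) (B := m + gsum C') (by
      filter_upwards [hvH, hYle, hY0, hH1] with n h1 h2 h4 h3
      have h5 := h2 v
      have h6 := h4 v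
      refine ⟨by positivity, ?_⟩
      rw [div_le_iff₀ (by linarith)]
      nlinarith)
  choose lam hlam using hlam
  have hρ0 : 0 ≤ ρ := by
    refine ge_of_tendsto hρ ?_
    filter_upwards [hvH0, hH1] with n h1 h2
    positivity
  have hconst : ∀ c : ℝ, Tendsto (fun n => c / D.H n) (D.U : Filter ℕ) (nhds 0) := fun c =>
    tendsto_const_nhds.div_atTop D.H1
  have hBt : ∀ v, Tendsto (fun n => (m * X n v + C' v - Y n v - Z n v) / D.H n) (D.U : Filter ℕ)
      (nhds (m * ∑ g, cg D x v g - lam v + omg G v (f i0))) := by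
    intro v
    have h1 := (((tendsto_finsetSum Finset.univ fun g _ => cg_tendsto x hx v g).const_mul (m : ℝ)).add
      (hconst (C' v))).sub (hlam v)
    have h2 := h1.add (omg_tendsto G v (f i0) hf0)
    rw [add_zero] at h2
    refine h2.congr' ?_
    filter_upwards [hH1] with n hn
    have hn0 : D.H n ≠ 0 := by positivity
    show (m : ℝ) * (∑ g, Real.log (mxn (D.N n v) fun i => D.s n g (x n i)) / D.H n) +
      C' v / D.H n - Y n v / D.H n + -Z n v / D.H n = (m * (∑ g,
        Real.log (mxn (D.N n v) fun i => D.s n g (x n i))) + C' v - Y n v - Z n v) / D.H n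
    rw [← Finset.sum_div]
    field_simp
    ring
  refine ⟨fun v z => omg G v z - omg G v (f i0) + lam v, fun v => m * ∑ g, cg D x v g - lam v + omg G v (f i0), ρ,
    fun v z => by ring, ?_, ?_, ?_⟩
  · intro v
    refine ge_of_tendsto (hBt v) ?_
    filter_upwards [hR, hH1] with n h1 h2
    have := h1 v
    positivity
  · have h1 : Tendsto (fun n => ∑ v ∈ P, (m * X n v + C' v - Y n v - Z n v) / D.H n) (D.U : Filter ℕ)
        (nhds (∑ v ∈ P, (m * ∑ g, cg D x v g - lam v + omg G v (f i0)))) := tendsto_finsetSum _ fun v _ => hBt v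
    have h2 : Tendsto (fun n => (m : ℝ) + gsum C' / D.H n - vH (F n) / D.H n) (D.U : Filter ℕ)
        (nhds ((m : ℝ) + 0 - ρ)) := (tendsto_const_nhds.add (hconst _)).sub hρ
    rw [add_zero] at h2
    refine le_of_tendsto_of_tendsto h1 h2 ?_
    filter_upwards [hS, hH1] with n h3 h4
    have h5 := h3 P
    have h6 : 0 < D.H n := by linarith
    rw [← Finset.sum_div, div_le_iff₀ h6]
    have h7 : ((m : ℝ) + gsum C' / D.H n - vH (F n) / D.H n) * D.H n = m * D.H n + gsum C' - vH (F n) := by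
      field_simp
    rw [h7]
    linarith
  · intro n z hz hzE
    let g : ∀ v : P, Fin (n v) → Fin e → k := fun v i => b.equivFun ⟨z v i, hzE v i⟩
    have hg : ∀ v i, ∑ j, g v i j • f j = z v i := by
      intro v i
      have h1 := congrArg E.subtype (b.sum_equivFun ⟨z v i, hzE v i⟩)
      rw [map_sum] at h1
      exact h1
    have hg0 : ∀ v i, g v i ≠ 0 := by
      intro v i h
      apply (hz v).ne_zero i
      rw [← hg v i, h]
      simp
    have hTt : ∀ v i, Tendsto (fun l => (Y l v.1 - Real.log (nv v.1 (vl (g v i) (F l)))) / D.H l) (D.U : Filter ℕ)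
        (nhds (omg G v.1 (z v i) - omg G v.1 (f i0) + lam v.1)) := by
      intro v i
      have h1 := ((omg_tendsto G v.1 (z v i) ((hz v).ne_zero i)).sub (omg_tendsto G v.1 (f i0) hf0)).add (hlam v.1)
      refine h1.congr' ?_
      filter_upwards [hmain (g v i), ha, Pool.Agent.QP.not_van D.U F (hvan _ (hg0 v i))] with l h2 h3 h4
      rw [hg v i] at h2
      rw [h2, (D.qs l).mul, (D.qs l).ext, Real.log_mul (nv_pos v.1 h4).ne' ((D.qs l).pos v.1 _ h3).ne']
      ring
    rcases Pool.Agent.Helper16.TP.bdd_vec D.U F i0 hF1 with hH | ⟨y, hy⟩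
    · have hT : ∀ v i, omg G v.1 (z v i) - omg G v.1 (f i0) + lam v.1 =
          ρ * sz D.U F v.1 ((van D.U F).mkQ (g v i)) := by
        intro v i
        rw [sz_mk D.U F hH v.1 _ (hvan _ (hg0 v i))]
        refine tendsto_nhds_unique (hTt v i) ?_
        have h1 := hρ.mul (szf_tendsto D.U F hH v.1 _ (hvan _ (hg0 v i)))
        refine h1.congr' ?_
        filter_upwards [hH.eventually_gt_atTop 0, hH1] with l h2 h3
        have h4 : D.H l ≠ 0 := by positivity
        show vH (F l) / D.H l * ((Y l v.1 - _) / vH (F l)) = _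
        field_simp
      have h1 := schg76 D.U F hH P n (fun v i => (van D.U F).mkQ (g v i)) (by
        intro v
        have hbot : van D.U F = ⊥ := by
          rw [Submodule.eq_bot_iff]
          intro c hc
          by_contra h
          exact hvan c h hc
        have h2 : LinearIndependent k (g v) := by
          have h3 : LinearIndependent k (fun i => (⟨z v i, hzE v i⟩ : E)) :=
            LinearIndependent.of_comp E.subtype (hz v)
          exact h3.map' b.equivFun.toLinearMap (LinearEquiv.ker _)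
        exact h2.map' _ (by rw [Submodule.ker_mkQ, hbot]))
      have h2 : finrank k (Qt D.U F) ≤ e := by
        refine (Submodule.finrank_quotient_le _).trans ?_
        rw [Module.finrank_fin_fun]
      calc ∑ v : P, ∑ i, (omg G v.1 (z v i) - omg G v.1 (f i0) + lam v.1)
          = ρ * ∑ v : P, ∑ i, sz D.U F v.1 ((van D.U F).mkQ (g v i)) := by
            rw [Finset.mul_sum]
            refine Finset.sum_congr rfl fun v _ => ?_
            rw [Finset.mul_sum]
            exact Finset.sum_congr rfl fun i _ => hT v i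
        _ ≤ ρ * e := mul_le_mul_of_nonneg_left (h1.trans (by exact_mod_cast h2)) hρ0
    · have hT : ∀ v i, omg G v.1 (z v i) - omg G v.1 (f i0) + lam v.1 = 0 := by
        intro v i
        refine tendsto_nhds_unique (hTt v i) ?_
        refine (hconst (Real.log (vn v.1 y) - Real.log (nv v.1 (vl (g v i) y)))).congr' ?_
        filter_upwards [hy] with l hl
        show _ = (Real.log (vn v.1 (F l)) - Real.log (nv v.1 (vl (g v i) (F l)))) / D.H l
        rw [hl]
      have h1 : ∑ v : P, ∑ i, (omg G v.1 (z v i) - omg G v.1 (f i0) + lam v.1) = 0 :=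
        Finset.sum_eq_zero fun v _ => Finset.sum_eq_zero fun i _ => hT v i
      show ∑ v : P, ∑ i, (omg G v.1 (z v i) - omg G v.1 (f i0) + lam v.1) ≤ _
      rw [h1]
      positivity

end

/-! ### SUBg -/

section

variable {k : Type u} [Field k] [NumberField k] {G : Type} [Group G] [Fintype G] {D : SqG k G}

variable (F : GFG D)

variable {ι : Type} [Fintype ι] (x : ∀ n, ι → D.L n) (hx : Ptg D x)

include hx

variable (ξ : ι → F.K) (hξ : ∀ j, ∀ᶠ n in (D.U : Filter ℕ), F.rp (ξ j) n = x n j)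

include hξ

/-- The subspace theorem for the invariants. -/
theorem sub_g (P : Finset (Pl k)) (m : ℕ) (E : Submodule k F.K)
    (hE : E ≤ (∏ g, (Submodule.span k (Set.range ξ)).map (F.s g).toLinearMap) ^ m)
    (hEs : ∀ z ∈ E, ∀ g, F.s g z = z) (n : P → ℕ) (z : ∀ v : P, Fin (n v) → F.K) (hz : ∀ v, LinearIndependent k (z v))
    (hzE : ∀ v i, z v i ∈ E) :
    ∑ v : P, ∑ i, (omg F v (z v i) + m * ∑ g, cg D x v g) ≤ m * finrank k E := by
  classical
  have hfg0 : ∀ T : Finset G, (∏ g ∈ T, (Submodule.span k (Set.range ξ)).map (F.s g).toLinearMap).FG := by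
    intro T
    induction T using Finset.induction_on with
    | empty => rw [Finset.prod_empty, Submodule.one_eq_span]; exact Submodule.fg_span (Set.finite_singleton 1)
    | insert a T ha ih =>
      rw [Finset.prod_insert ha]
      exact ((Submodule.fg_span (Set.finite_range ξ)).map _).mul ih
  have hfg : ((∏ g, (Submodule.span k (Set.range ξ)).map (F.s g).toLinearMap) ^ m).FG := (hfg0 Finset.univ).pow m
  have hfd1 : FiniteDimensional k
      ↥((∏ g, (Submodule.span k (Set.range ξ)).map (F.s g).toLinearMap) ^ m) := Module.Finite.iff_fg.2 hfg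
  have hfd : FiniteDimensional k E := Submodule.finiteDimensional_of_le hE
  have hn : ∀ v, n v ≤ finrank k E := by
    intro v
    have h3 : LinearIndependent k (fun i => (⟨z v i, hzE v i⟩ : E)) := LinearIndependent.of_comp E.subtype (hz v)
    simpa using h3.fintype_card_le_finrank
  by_cases hE0 : E = ⊥
  · have h1 : ∀ v, n v = 0 := by
      intro v
      have := hn v
      rw [hE0, finrank_bot] at this
      omega
    have h2 : ∑ v : P, ∑ i, (omg F v (z v i) + m * ∑ g, cg D x v g) = 0 := by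
      refine Finset.sum_eq_zero fun v _ => Finset.sum_eq_zero fun i _ => ?_
      have h2 := i.2
      have h3 := h1 v
      omega
    rw [h2]
    positivity
  obtain ⟨T, B, ρ, h1, h2, h3, h4⟩ := datag76 F x hx ξ hξ P m E hE hEs hE0
  have h5 := h4 n z hz hzE
  calc ∑ v : P, ∑ i, (omg F v (z v i) + m * ∑ g, cg D x v g)
      = ∑ v : P, ∑ i, T v (z v i) + ∑ v : P, (n v : ℝ) * B v := by
        rw [← Finset.sum_add_distrib]
        refine Finset.sum_congr rfl fun v _ => ?_
        simp only [h1]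
        rw [Finset.sum_add_distrib, Finset.sum_const, Finset.card_univ, Fintype.card_fin, nsmul_eq_mul]
    _ ≤ ρ * finrank k E + ∑ v : P, (finrank k E : ℝ) * B v := by
        refine add_le_add h5 (Finset.sum_le_sum fun v _ => ?_)
        exact mul_le_mul_of_nonneg_right (by exact_mod_cast hn v) (h2 v)
    _ = ρ * finrank k E + finrank k E * ∑ v ∈ P, B v := by
        rw [← Finset.mul_sum, Finset.sum_coe_sort P B]
    _ ≤ ρ * finrank k E + finrank k E * (m - ρ) := by
        have : (0 : ℝ) ≤ finrank k E := Nat.cast_nonneg _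
        nlinarith [mul_le_mul_of_nonneg_left h3 this]
    _ = m * finrank k E := by ring

end

end Pool.Agent.SQ
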