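import Pool.Agent.Helper42.SQ.GDefs3
import Pool.Agent.Helper42.SQ.SUBg

/-!
# SQ, block SUBm: the subspace theorem for the invariants, with slow multipliers, for a subgroup `H` which fixes the point
-/

set_option autoImplicit false

namespace Pool.Agent.SQ

open NumberField Filter Module
open Pool.Agent.Helper64.Vojta (Pl nv nv_nonneg nv_mul nv_one nv_zero nv_pos)
open Pool.Agent.V2
open Pool.Agent.QP (vl van Qt sz szf sz_mk sch szf_tendsto)

universe u

variable {k : Type u} [Field k] [NumberField k]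

section germm41

variable {Γ : Type} [Group Γ] [Fintype Γ] {D : SqG k Γ} (G : GFG D)

/-- a slowly growing family of local constants -/
private structure Slc41 (D : SqG k Γ) (C : ℕ → Pl k → ℝ) : Prop where
  fin : ∀ n, FinS (C n)
  nn : ∀ n v, 0 ≤ C n v
  slow : ∀ η : ℝ, 0 < η → ∀ᶠ n in (D.U : Filter ℕ), gsum (C n) ≤ η * D.H n

private theorem Slc41.cst {C : Pl k → ℝ} (h : FinS C) (h0 : ∀ v, 0 ≤ C v) : Slc41 D fun _ => C where
  fin _ := h
  nn _ := h0
  slow η hη := by
    filter_upwards [D.H1.eventually_ge_atTop (gsum C / η)] with n hn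
    rw [div_le_iff₀ hη] at hn
    linarith

private theorem Slc41.add {C C' : ℕ → Pl k → ℝ} (h : Slc41 D C) (h' : Slc41 D C') : Slc41 D fun n v => C n v + C' n v where
  fin n := (h.fin n).add (h'.fin n)
  nn n v := add_nonneg (h.nn n v) (h'.nn n v)
  slow η hη := by
    filter_upwards [h.slow (η / 2) (half_pos hη), h'.slow (η / 2) (half_pos hη)] with n h1 h2
    rw [gsum_add (h.fin n) (h'.fin n)]
    linarith

private theorem Slc41.sum {α : Type*} (s : Finset α) {C : α → ℕ → Pl k → ℝ} (h : ∀ a, Slc41 D (C a)) :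
    Slc41 D fun n v => ∑ a ∈ s, C a n v := by
  classical
  induction s using Finset.induction_on with
  | empty =>
    simp only [Finset.sum_empty]
    exact Slc41.cst FinS.zero fun _ => le_rfl
  | insert a s ha ih =>
    simp only [Finset.sum_insert ha]
    exact (h a).add ih

private noncomputable def c4m41 : Pl k → ℝ
  | .inl _ => Real.log 4
  | .inr _ => 0

/-- the germs bounded by `A`, up to a slowly growing constant -/
private def Bndm41 (A : ℕ → Pl k → ℝ) (hA : ∀ n v, 0 ≤ A n v) : Submodule k G.K where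
  carrier := {z | ∃ C : ℕ → Pl k → ℝ, Slc41 D C ∧
    ∀ᶠ n in (D.U : Filter ℕ), ∀ v, D.N n v (G.rp z n) ≤ Real.exp (C n v) * A n v}
  zero_mem' := by
    refine ⟨fun _ _ => 0, Slc41.cst FinS.zero fun _ => le_rfl, ?_⟩
    filter_upwards [rp_zerog76 G] with n hn v
    rw [hn, (D.qs n).zero, Real.exp_zero, one_mul]
    exact hA n v
  add_mem' := by
    rintro z z' ⟨C, hC1, hC3⟩ ⟨C', hC1', hC3'⟩
    have hc4 : Slc41 D fun _ => c4m41 (k := k) := by
      refine Slc41.cst ?_ ?_
      · unfold FinS c4m41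
        simp
      · rintro (v | v)
        · exact Real.log_nonneg (by norm_num)
        · exact le_rfl
    refine ⟨fun n v => (C n v + C' n v) + c4m41 v, (hC1.add hC1').add hc4, ?_⟩
    · filter_upwards [hC3, hC3', G.rp_add z z'] with n h1 h2 h3 v
      have h4 := hC1.nn n v
      have h5 := hC1'.nn n v
      have h6 : max (D.N n v (G.rp z n)) (D.N n v (G.rp z' n)) ≤ Real.exp (C n v + C' n v) * A n v := by
        refine max_le ((h1 v).trans ?_) ((h2 v).trans ?_)
        · exact mul_le_mul_of_nonneg_right (Real.exp_le_exp.2 (by linarith)) (hA n v)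
        · exact mul_le_mul_of_nonneg_right (Real.exp_le_exp.2 (by linarith)) (hA n v)
      rw [h3]
      rcases v with v | v
      · refine ((D.qs n).add (.inl v) _ _).trans ?_
        show _ ≤ Real.exp ((C n (.inl v) + C' n (.inl v)) + Real.log 4) * A n (.inl v)
        rw [Real.exp_add, Real.exp_log (by norm_num), mul_comm (Real.exp _) 4, mul_assoc]
        exact mul_le_mul_of_nonneg_left h6 (by norm_num)
      · refine ((D.qs n).ult v _ _).trans ?_
        show _ ≤ Real.exp ((C n (.inr v) + C' n (.inr v)) + 0) * A n (.inr v)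
        rw [add_zero]
        exact h6
  smul_mem' := by
    rintro c z ⟨C, hC1, hC3⟩
    by_cases hc : c = 0
    · subst hc
      rw [zero_smul]
      refine ⟨fun _ _ => 0, Slc41.cst FinS.zero fun _ => le_rfl, ?_⟩
      filter_upwards [rp_zerog76 G] with n hn v
      rw [hn, (D.qs n).zero, Real.exp_zero, one_mul]
      exact hA n v
    refine ⟨fun n v => |Real.log (nv v c)| + C n v,
      (Slc41.cst (finS_absg76 (finS_nv hc)) fun v => abs_nonneg _).add hC1, ?_⟩
    · filter_upwards [hC3, rp_smulg76 G c z] with n h1 h2 v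
      rw [h2, (D.qs n).mul, (D.qs n).ext, Real.exp_add, mul_assoc]
      refine mul_le_mul ?_ (h1 v) ?_ (Real.exp_pos _).le
      · conv_lhs => rw [← Real.exp_log (nv_pos v hc)]
        exact Real.exp_le_exp.2 (le_abs_self _)
      · by_cases h3 : G.rp z n = 0
        · rw [h3, (D.qs n).zero]
        · exact ((D.qs n).pos v _ h3).le

private theorem Bnd_mulm41 {A B : ℕ → Pl k → ℝ} (hA : ∀ n v, 0 ≤ A n v) (hB : ∀ n v, 0 ≤ B n v) :
    Bndm41 G A hA * Bndm41 G B hB ≤ Bndm41 G (fun n v => A n v * B n v) fun n v => mul_nonneg (hA n v) (hB n v) := by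
  rw [Submodule.mul_le]
  rintro z ⟨C, hC1, hC3⟩ z' ⟨C', hC1', hC3'⟩
  refine ⟨fun n v => C n v + C' n v, hC1.add hC1', ?_⟩
  filter_upwards [hC3, hC3', G.rp_mul z z'] with n h1 h2 h3 v
  rw [h3, (D.qs n).mul, Real.exp_add]
  have h4 : 0 ≤ D.N n v (G.rp z' n) := by
    by_cases h : G.rp z' n = 0
    · rw [h, (D.qs n).zero]
    · exact ((D.qs n).pos v _ h).le
  calc D.N n v (G.rp z n) * D.N n v (G.rp z' n) ≤ (Real.exp (C n v) * A n v) * (Real.exp (C' n v) * B n v) :=
        mul_le_mul (h1 v) (h2 v) h4 (mul_nonneg (Real.exp_pos _).le (hA n v))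
    _ = _ := by ring

/-- slow germs -/
private theorem Bnd_slowm41 (B : Submodule k G.K) (hB : ∀ b ∈ B, SlowG D (G.rp b)) :
    B ≤ Bndm41 G (fun _ _ => 1) fun _ _ => zero_le_one := by
  intro z hz
  refine ⟨fun n v => ∑ g, Real.log (max 1 (D.N n v (D.s n g (G.rp z n)))), ⟨fun n => htg_finS (D.qs n) _, fun n v =>
    Finset.sum_nonneg fun g _ => Real.log_nonneg (le_max_left _ _), hB z hz⟩, ?_⟩
  refine Eventually.of_forall fun n v => ?_
  have h1 : Real.log (max 1 (D.N n v (G.rp z n))) ≤ ∑ g, Real.log (max 1 (D.N n v (D.s n g (G.rp z n)))) := by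
    have h2 := Finset.single_le_sum (f := fun g => Real.log (max 1 (D.N n v (D.s n g (G.rp z n)))))
      (fun g _ => Real.log_nonneg (le_max_left _ _)) (Finset.mem_univ 1)
    have h3 : D.s n 1 (G.rp z n) = G.rp z n := by rw [map_one]; rfl
    rwa [h3] at h2
  rw [mul_one]
  refine (le_max_right 1 _).trans ?_
  conv_lhs => rw [← Real.exp_log (lt_of_lt_of_le zero_lt_one (le_max_left 1 (D.N n v (G.rp z n))))]
  exact Real.exp_le_exp.2 h1

private theorem Bnd_onem41 : (1 : Submodule k G.K) ≤ Bndm41 G (fun _ _ => 1) fun _ _ => zero_le_one := by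
  refine Bnd_slowm41 G _ fun b hb => ?_
  rw [Submodule.mem_one] at hb
  obtain ⟨c, rfl⟩ := hb
  exact ((slk G).algebraMap_mem c).2

private theorem Bnd_prodm41 {α : Type*} {A : α → ℕ → Pl k → ℝ} (hA : ∀ g n v, 0 ≤ A g n v) (W : α → Submodule k G.K)
    (hW : ∀ g, W g ≤ Bndm41 G (A g) (hA g)) (T : Finset α) :
    ∏ g ∈ T, W g ≤ Bndm41 G (fun n v => ∏ g ∈ T, A g n v) fun n v => Finset.prod_nonneg fun g _ => hA g n v := by
  classical
  induction T using Finset.induction_on with
  | empty =>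
    simp only [Finset.prod_empty]
    exact Bnd_onem41 G
  | insert a T ha ih =>
    rw [Finset.prod_insert ha]
    refine (mul_le_mul' (hW a) ih).trans ((Bnd_mulm41 G (hA a) fun n v => Finset.prod_nonneg fun g _ => hA g n v).trans ?_)
    intro z hz
    obtain ⟨C, h1, h3⟩ := hz
    refine ⟨C, h1, ?_⟩
    filter_upwards [h3] with n hn v
    rw [Finset.prod_insert ha]
    exact hn v

private theorem Bnd_powm41 {A : ℕ → Pl k → ℝ} (hA : ∀ n v, 0 ≤ A n v) (W : Submodule k G.K) (hW : W ≤ Bndm41 G A hA)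
    (m : ℕ) : W ^ m ≤ Bndm41 G (fun n v => A n v ^ m) fun n v => pow_nonneg (hA n v) m := by
  have h1 := Bnd_prodm41 G (α := ℕ) (A := fun _ => A) (fun _ => hA) (fun _ => W) (fun _ => hW) (Finset.range m)
  rw [Finset.prod_const, Finset.card_range] at h1
  refine h1.trans ?_
  rintro z ⟨C, h2, h3⟩
  refine ⟨C, h2, ?_⟩
  filter_upwards [h3] with n hn v
  have h4 := hn v
  rwa [Finset.prod_const, Finset.card_range] at h4

end germm41

private theorem sum_cosetm41 {Γ : Type} [Group Γ] [Fintype Γ] (H : Subgroup Γ) [Fintype (Γ ⧸ H)] (f : Γ → ℝ)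
    (hf : ∀ g, ∀ h ∈ H, f (g * h) = f g) : ∑ g, f g = Nat.card H * ∑ q : Γ ⧸ H, f q.out := by
  classical
  have : Fintype H := Fintype.ofFinite _
  have h1 : ∑ g, f g = ∑ p : (Γ ⧸ H) × H, f p.1.out := by
    symm
    refine Fintype.sum_bijective (fun p : (Γ ⧸ H) × H => p.1.out * (p.2 : Γ)) ⟨?_, ?_⟩ _ _ fun p => (hf _ _ p.2.2).symm
    · rintro ⟨q, h⟩ ⟨q', h'⟩ e
      have e' : q.out * (h : Γ) = q'.out * (h' : Γ) := e
      have e1 : ((q.out * (h : Γ) : Γ) : Γ ⧸ H) = ((q'.out * (h' : Γ) : Γ) : Γ ⧸ H) := by rw [e']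
      rw [QuotientGroup.mk_mul_of_mem _ h.2, QuotientGroup.mk_mul_of_mem _ h'.2, QuotientGroup.out_eq',
        QuotientGroup.out_eq'] at e1
      subst e1
      rw [Prod.mk.injEq]
      exact ⟨rfl, Subtype.ext (mul_left_cancel e')⟩
    · intro g
      refine ⟨((g : Γ ⧸ H), ⟨((g : Γ ⧸ H).out)⁻¹ * g, ?_⟩), ?_⟩
      · rw [← QuotientGroup.eq, QuotientGroup.out_eq']
      · show (g : Γ ⧸ H).out * (((g : Γ ⧸ H).out)⁻¹ * g) = g
        rw [mul_inv_cancel_left]
  rw [h1, Fintype.sum_prod_type]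
  simp only [Finset.sum_const, Finset.card_univ, nsmul_eq_mul]
  rw [← Finset.mul_sum, Nat.card_eq_fintype_card]

section

variable {Γ : Type} [Group Γ] [Fintype Γ] {D : SqG k Γ} (G : GFG D)

variable {ι : Type} [Fintype ι] (x : ∀ n, ι → D.L n) (hx : Ptg D x)

include hx

variable (ξ : ι → G.K) (hξ : ∀ j, ∀ᶠ n in (D.U : Filter ℕ), G.rp (ξ j) n = x n j)

include hξ

variable (H : Subgroup Γ) [Fintype (Γ ⧸ H)]

private theorem le_Bndm41 (m : ℕ) (B : Submodule k G.K) (hB : ∀ b ∈ B, SlowG D (G.rp b)) :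
    ∃ hA, B * (∏ q : Γ ⧸ H, (Submodule.span k (Set.range ξ)).map (G.s q.out).toLinearMap) ^ m ≤
    Bndm41 G (fun n v => (∏ q : Γ ⧸ H, mxn (D.N n v) fun i => D.s n q.out (x n i)) ^ m) hA := by
  have h2 : ∀ g n v, 0 ≤ mxn (D.N n v) fun i => D.s n g (x n i) := fun g n v =>
    zero_le_one.trans (one_le_mxng76 (D.qs n) _ (by
      obtain ⟨j, hj⟩ := hx.1 n
      exact ⟨j, by rw [hj, map_one]⟩) v)
  have hA0 : ∀ n v, 0 ≤ ∏ q : Γ ⧸ H, mxn (D.N n v) fun i => D.s n q.out (x n i) :=
    fun n v => Finset.prod_nonneg fun q _ => h2 q.out n v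
  refine ⟨fun n v => pow_nonneg (hA0 n v) m, ?_⟩
  have h3 : ∀ q : Γ ⧸ H, (Submodule.span k (Set.range ξ)).map (G.s q.out).toLinearMap ≤
      Bndm41 G (fun n v => mxn (D.N n v) fun i => D.s n q.out (x n i)) (h2 q.out) := by
    intro q
    rw [Submodule.map_span, Submodule.span_le]
    rintro _ ⟨_, ⟨j, rfl⟩, rfl⟩
    refine ⟨fun _ _ => 0, Slc41.cst FinS.zero fun _ => le_rfl, ?_⟩
    filter_upwards [hξ j, G.rp_s q.out (ξ j)] with n hn hn' v
    show D.N n v (G.rp (G.s q.out (ξ j)) n) ≤ _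
    rw [hn', hn, Real.exp_zero, one_mul]
    exact le_ciSup (f := fun a => D.N n v (D.s n q.out (x n a))) (Set.finite_range _).bddAbove j
  have h4 := Bnd_powm41 G hA0 _ (Bnd_prodm41 G (A := fun (q : Γ ⧸ H) n v => mxn (D.N n v) fun i => D.s n q.out (x n i))
    (fun q => h2 q.out) _ h3 Finset.univ) m
  refine (mul_le_mul' (Bnd_slowm41 G B hB) h4).trans ((Bnd_mulm41 G _ _).trans ?_)
  rintro z ⟨C, h5, h6⟩
  refine ⟨C, h5, ?_⟩
  filter_upwards [h6] with n hn v
  have h7 := hn v
  rwa [one_mul] at h7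

open Pool.Agent.V2 in
private theorem datam41 (hxH : ∀ n, ∀ h ∈ H, ∀ j, D.s n h (x n j) = x n j) (P : Finset (Pl k)) (m : ℕ)
    (B : Submodule k G.K) (hB : ∀ b ∈ B, SlowG D (G.rp b)) (E : Submodule k G.K)
    (hE : E ≤ B * (∏ q : Γ ⧸ H, (Submodule.span k (Set.range ξ)).map (G.s q.out).toLinearMap) ^ m)
    (hEs : ∀ z ∈ E, ∀ g, G.s g z = z) (hE0 : E ≠ ⊥) [FiniteDimensional k E] :
    ∃ (T : Pl k → G.K → ℝ) (B : Pl k → ℝ) (ρ : ℝ),
      (∀ v z, omg G v z + m * ∑ q : Γ ⧸ H, cg D x v q.out = T v z + B v) ∧ (∀ v, 0 ≤ B v) ∧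
      ∑ v ∈ P, B v ≤ m / Nat.card H - ρ ∧
      ∀ (n : P → ℕ) (z : ∀ v : P, Fin (n v) → G.K), (∀ v, LinearIndependent k (z v)) → (∀ v i, z v i ∈ E) →
        ∑ v : P, ∑ i, T v (z v i) ≤ ρ * finrank k E := by
  classical
  have hcH : (0 : ℝ) < Nat.card H := by exact_mod_cast Nat.card_pos
  have hnt : Nontrivial E := Submodule.nontrivial_iff_ne_bot.2 hE0
  have he0 : 0 < finrank k E := finrank_pos
  obtain ⟨e, he⟩ : ∃ e, e = finrank k E := ⟨_, rfl⟩
  rw [← he] at he0 ⊢
  let b : Basis (Fin e) k E := finBasisOfFinrankEq k E he.symm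
  let i0 : Fin e := ⟨0, he0⟩
  let f : Fin e → G.K := fun j => (b j : G.K)
  have hf0 : f i0 ≠ 0 := fun h => b.ne_zero i0 (Subtype.ext h)
  -- the germ `F`
  have hFex : ∃ F : ℕ → Fin e → k, ∀ᶠ n in (D.U : Filter ℕ), ∀ j, G.rp (f j / f i0) n = algebraMap k (D.L n) (F n j) := by
    have h1 : ∀ᶠ n in (D.U : Filter ℕ), ∀ j, ∃ c : k, G.rp (f j / f i0) n = algebraMap k (D.L n) c :=
      Filter.eventually_all.2 fun j => invg76 G fun g => by
        rw [map_div₀, hEs _ (b j).2, hEs _ (b i0).2]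
    refine ⟨fun n j => if h : ∃ c : k, G.rp (f j / f i0) n = algebraMap k (D.L n) c then h.choose else 0, ?_⟩
    filter_upwards [h1] with n hn j
    rw [dif_pos (hn j)]
    exact (hn j).choose_spec
  obtain ⟨F, hF⟩ := hFex
  have ha : ∀ᶠ n in (D.U : Filter ℕ), G.rp (f i0) n ≠ 0 := rp_neg76 G hf0
  have hF1 : ∀ᶠ n in (D.U : Filter ℕ), F n i0 = 1 := by
    filter_upwards [hF, rp_oneg76 G] with n h1 h2
    have h3 := h1 i0
    rw [div_self hf0, h2] at h3
    exact ((algebraMap k (D.L n)).injective (by rw [← h3, map_one]))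
  have hmain : ∀ g : Fin e → k, ∀ᶠ n in (D.U : Filter ℕ),
      G.rp (∑ j, g j • f j) n = algebraMap k (D.L n) (vl g (F n)) * G.rp (f i0) n := by
    intro g
    have h1 : ∑ j, g j • f j = (∑ j, g j • (f j / f i0)) * f i0 := by
      rw [Finset.sum_mul]
      refine Finset.sum_congr rfl fun j _ => ?_
      rw [smul_mul_assoc, div_mul_cancel₀ _ hf0]
    filter_upwards [hF, G.rp_mul (∑ j, g j • (f j / f i0)) (f i0), rp_ling76 G g fun j => f j / f i0] with n h2 h3 h4
    rw [h1, h3, h4]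
    congr 1
    unfold vl
    rw [map_sum]
    refine Finset.sum_congr rfl fun j _ => ?_
    rw [h2 j, map_mul]
  have hsum0 : ∀ g : Fin e → k, ∑ j, g j • f j = 0 → g = 0 := by
    intro g hg
    have h1 : ∑ j, g j • b j = 0 := by
      apply Subtype.ext
      rw [← Submodule.subtype_apply, map_sum]
      simpa using hg
    funext j
    exact Fintype.linearIndependent_iff.1 b.linearIndependent g h1 j
  have hvan : ∀ g : Fin e → k, g ≠ 0 → g ∉ van D.U F := by
    intro g hg h
    apply hg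
    apply hsum0
    apply G.rp_inj
    have h' : ∀ᶠ n in (D.U : Filter ℕ), vl g (F n) = 0 := h
    filter_upwards [hmain g, h', rp_zerog76 G] with n h1 h2 h3
    rw [h1, h2, map_zero, zero_mul, h3]
  -- the bound
  obtain ⟨hA, hle⟩ := le_Bndm41 G x hx ξ hξ H m B hB
  have hC : ∀ j, ∃ C : ℕ → Pl k → ℝ, Slc41 D C ∧ ∀ᶠ n in (D.U : Filter ℕ), ∀ v,
      D.N n v (G.rp (f j) n) ≤ Real.exp (C n v) * (∏ q : Γ ⧸ H, mxn (D.N n v) fun i => D.s n q.out (x n i)) ^ m :=
    fun j => hle (hE (b j).2)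
  choose C hC1 hC3 using hC
  have hx2 : ∀ n g, ∃ j, (fun i => D.s n g (x n i)) j = 1 := by
    intro n g
    obtain ⟨j, hj⟩ := hx.1 n
    exact ⟨j, by show D.s n g (x n j) = 1; rw [hj, map_one]⟩
  obtain ⟨C', hC'⟩ : ∃ C' : ℕ → Pl k → ℝ, C' = fun n v => ∑ j, C j n v := ⟨_, rfl⟩
  have hC's : Slc41 D C' := hC' ▸ Slc41.sum Finset.univ hC1
  have hC'le : ∀ j n v, C j n v ≤ C' n v := by
    intro j n v
    rw [hC']
    exact Finset.single_le_sum (f := fun j => C j n v) (fun j _ => (hC1 j).nn n v) (Finset.mem_univ j)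
  have hgC : ∀ n, 0 ≤ gsum (C' n) := fun n => gsum_nonneg (hC's.nn n)
  let X : ℕ → Pl k → ℝ := fun n v => ∑ q : Γ ⧸ H, Real.log (mxn (D.N n v) fun i => D.s n q.out (x n i))
  let Y : ℕ → Pl k → ℝ := fun n v => Real.log (vn v (F n))
  let Z : ℕ → Pl k → ℝ := fun n v => Real.log (D.N n v (G.rp (f i0) n))
  have hFne : ∀ᶠ n in (D.U : Filter ℕ), F n ≠ 0 := by
    filter_upwards [hF1] with n hn h
    rw [h] at hn
    exact zero_ne_one hn
  have hfj : ∀ᶠ n in (D.U : Filter ℕ), ∀ j, G.rp (f j) n = G.rp (f j / f i0) n * G.rp (f i0) n := by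
    refine Filter.eventually_all.2 fun j => ?_
    filter_upwards [G.rp_mul (f j / f i0) (f i0)] with n hn
    rw [← hn, div_mul_cancel₀ _ hf0]
  have hR : ∀ᶠ n in (D.U : Filter ℕ), ∀ v, 0 ≤ m * X n v + C' n v - Y n v - Z n v := by
    filter_upwards [Filter.eventually_all.2 hC3, hF, ha, hFne, hfj] with n h1 h2 h3 h4 hj v
    have h5 : ∀ g, 0 < mxn (D.N n v) fun i => D.s n g (x n i) := fun g =>
      zero_lt_one.trans_le (one_le_mxng76 (D.qs n) _ (hx2 n g) v)
    have h6 : 0 < ∏ q : Γ ⧸ H, mxn (D.N n v) fun i => D.s n q.out (x n i) := Finset.prod_pos fun q _ => h5 q.out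
    have h7 : 0 < D.N n v (G.rp (f i0) n) := (D.qs n).pos v _ h3
    have h8 : vn v (F n) ≤ Real.exp (C' n v) * (∏ q : Γ ⧸ H, mxn (D.N n v) fun i => D.s n q.out (x n i)) ^ m /
        D.N n v (G.rp (f i0) n) := by
      refine vn_le v _ (by positivity) fun j => ?_
      rw [le_div_iff₀ h7, ← (D.qs n).ext v, ← (D.qs n).mul, ← h2 j, ← hj j]
      exact (h1 j v).trans (mul_le_mul_of_nonneg_right (Real.exp_le_exp.2 (hC'le j n v)) (by positivity))
    have h9 := Real.log_le_log (vn_pos v h4) h8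
    rw [Real.log_div (by positivity) h7.ne', Real.log_mul (Real.exp_pos _).ne' (by positivity), Real.log_exp,
      Real.log_pow, Real.log_prod fun q _ => (h5 q.out).ne'] at h9
    show 0 ≤ m * (∑ q : Γ ⧸ H, Real.log (mxn (D.N n v) fun i => D.s n q.out (x n i))) + C' n v -
      Real.log (vn v (F n)) - Real.log (D.N n v (G.rp (f i0) n))
    linarith
  have hprod : ∀ᶠ n in (D.U : Filter ℕ), gsum (Z n) = 0 := by
    filter_upwards [ha, Filter.eventually_all.2 fun g => G.rp_s g (f i0)] with n h1 h2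
    have h4 : ∀ g, D.s n g (G.rp (f i0) n) = G.rp (f i0) n := by
      intro g
      rw [← h2 g, hEs _ (b i0).2 g]
    have h5 := (D.qs n).prod _ h1
    have h6 : (fun v => ∑ g, Real.log (D.N n v (D.s n g (G.rp (f i0) n)))) =
        fun v => (Fintype.card Γ : ℝ) * Z n v := by
      funext v
      show _ = (Fintype.card Γ : ℝ) * Real.log (D.N n v (G.rp (f i0) n))
      rw [Finset.sum_congr rfl fun g _ => by rw [h4 g], Finset.sum_const, Finset.card_univ, nsmul_eq_mul]
    rw [h6, gsum_const_mul] at h5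
    have h7 : (Fintype.card Γ : ℝ) ≠ 0 := by
      have : 0 < Fintype.card Γ := Fintype.card_pos
      positivity
    exact (mul_eq_zero.1 h5).resolve_left h7
  have hX : ∀ n, FinS (X n) := fun n => FinS.sum Finset.univ fun q _ => finS_mxng76 (D.qs n) _ (hx2 n q.out)
  have hXH : ∀ n, Nat.card H * gsum (X n) = D.H n := by
    intro n
    rw [hx.2 n, ← gsum_const_mul]
    unfold Hg
    congr 1
    funext v
    refine (sum_cosetm41 H (fun g => Real.log (mxn (D.N n v) fun i => D.s n g (x n i))) fun g h hh => ?_).symm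
    have h1 : (fun i => D.s n (g * h) (x n i)) = fun i => D.s n g (x n i) := by
      funext i
      rw [map_mul]
      show D.s n g (D.s n h (x n i)) = _
      rw [hxH n h hh i]
    simp only [h1]
  have hS : ∀ᶠ n in (D.U : Filter ℕ), ∀ Q : Finset (Pl k),
      vH (F n) + ∑ v ∈ Q, (m * X n v + C' n v - Y n v - Z n v) ≤ m / Nat.card H * D.H n + gsum (C' n) := by
    filter_upwards [hR, hprod, ha, hFne] with n h1 h2 h3 h4 Q
    have hYf : FinS (Y n) := finS_vn h4
    have hZf : FinS (Z n) := (D.qs n).fin _ h3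
    have e1 : (fun v => m * X n v + C' n v - Y n v - Z n v) = fun v => ((m * X n v + C' n v) + -Y n v) + -Z n v := by
      funext v
      ring
    have hf1 : FinS fun v => ((m * X n v + C' n v) + -Y n v) + -Z n v :=
      ((((hX n).const_mul m).add (hC's.fin n)).add hYf.neg).add hZf.neg
    have h5 := sum_le_gsum (e1 ▸ hf1) h1 Q
    have h6 : gsum (fun v => m * X n v + C' n v - Y n v - Z n v) = m / Nat.card H * D.H n + gsum (C' n) - vH (F n) := by
      rw [e1, gsum_add ((((hX n).const_mul m).add (hC's.fin n)).add hYf.neg) hZf.neg,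
        gsum_add (((hX n).const_mul m).add (hC's.fin n)) hYf.neg, gsum_add ((hX n).const_mul m) (hC's.fin n),
        gsum_const_mul, gsum_neg, gsum_neg, h2, ← hXH]
      show _ = m / Nat.card H * (Nat.card H * gsum (X n)) + gsum (C' n) - gsum (Y n)
      field_simp
      ring
    rw [h6] at h5
    linarith
  have hslow : ∀ᶠ n in (D.U : Filter ℕ), gsum (C' n) ≤ 1 * D.H n := hC's.slow 1 one_pos
  have hvH : ∀ᶠ n in (D.U : Filter ℕ), vH (F n) ≤ (m / Nat.card H + 1) * D.H n := by
    filter_upwards [hS, hslow] with n hn h1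
    have := hn ∅
    rw [Finset.sum_empty, add_zero] at this
    linarith
  have hvH0 : ∀ᶠ n in (D.U : Filter ℕ), 0 ≤ vH (F n) := by
    filter_upwards [hFne] with n hn
    exact vH_nonneg hn
  have hY0 : ∀ᶠ n in (D.U : Filter ℕ), ∀ v, 0 ≤ Y n v := by
    filter_upwards [hF1] with n hn v
    have h1 := le_vn v (F n) i0
    rw [hn, nv_one] at h1
    exact Real.log_nonneg h1
  have hYle : ∀ᶠ n in (D.U : Filter ℕ), ∀ v, Y n v ≤ vH (F n) := by
    filter_upwards [hY0, hFne] with n h1 h2 v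
    exact single_le_gsum (finS_vn h2) h1 v
  have hH1 : ∀ᶠ n in (D.U : Filter ℕ), 1 ≤ D.H n := D.H1.eventually_ge_atTop 1
  -- limits
  obtain ⟨ρ, hρ⟩ := limg76 D.U (fun n => vH (F n) / D.H n) (A := 0) (B := m / Nat.card H + 1) (by
    filter_upwards [hvH, hvH0, hH1] with n h1 h2 h3
    refine ⟨by positivity, ?_⟩
    rw [div_le_iff₀ (by linarith)]
    exact h1)
  have hlam : ∀ v, ∃ a, Tendsto (fun n => Y n v / D.H n) (D.U : Filter ℕ) (nhds a) := fun v =>
    limg76 D.U (fun n => Y n v / D.H n) (A := 0) (B := m / Nat.card H + 1) (by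
      filter_upwards [hvH, hYle, hY0, hH1] with n h1 h2 h4 h3
      have h5 := h2 v
      have h6 := h4 v
      refine ⟨by positivity, ?_⟩
      rw [div_le_iff₀ (by linarith)]
      exact h5.trans h1)
  choose lam hlam using hlam
  have hρ0 : 0 ≤ ρ := by
    refine ge_of_tendsto hρ ?_
    filter_upwards [hvH0, hH1] with n h1 h2
    positivity
  have hconst : ∀ c : ℝ, Tendsto (fun n => c / D.H n) (D.U : Filter ℕ) (nhds 0) := fun c =>
    tendsto_const_nhds.div_atTop D.H1
  have hgs : Tendsto (fun n => gsum (C' n) / D.H n) (D.U : Filter ℕ) (nhds 0) := by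
    rw [Metric.tendsto_nhds]
    intro η hη
    filter_upwards [hC's.slow (η / 2) (half_pos hη), hH1] with n h1 h2
    have h3 : 0 ≤ gsum (C' n) / D.H n := div_nonneg (hgC n) (by linarith)
    rw [Real.dist_eq, sub_zero, abs_of_nonneg h3, div_lt_iff₀ (by linarith)]
    nlinarith
  have hCt : ∀ v, Tendsto (fun n => C' n v / D.H n) (D.U : Filter ℕ) (nhds 0) := by
    intro v
    refine squeeze_zero' (g := fun n => gsum (C' n) / D.H n) ?_ ?_ hgs
    · filter_upwards [hH1] with n h2
      exact div_nonneg (hC's.nn n v) (by linarith)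
    · filter_upwards [hH1] with n h2
      exact div_le_div_of_nonneg_right (single_le_gsum (hC's.fin n) (hC's.nn n) v) (by linarith)
  have hBt : ∀ v, Tendsto (fun n => (m * X n v + C' n v - Y n v - Z n v) / D.H n) (D.U : Filter ℕ)
      (nhds (m * ∑ q : Γ ⧸ H, cg D x v q.out - lam v + omg G v (f i0))) := by
    intro v
    have h1 := (((tendsto_finsetSum Finset.univ fun (q : Γ ⧸ H) _ => cg_tendsto x hx v q.out).const_mul (m : ℝ)).add
      (hCt v)).sub (hlam v)
    have h2 := h1.add (omg_tendsto G v (f i0) hf0)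
    rw [add_zero] at h2
    refine h2.congr' ?_
    filter_upwards [hH1] with n hn
    have hn0 : D.H n ≠ 0 := by positivity
    show (m : ℝ) * (∑ q : Γ ⧸ H, Real.log (mxn (D.N n v) fun i => D.s n q.out (x n i)) / D.H n) +
      C' n v / D.H n - Y n v / D.H n + -Z n v / D.H n = (m * (∑ q : Γ ⧸ H,
        Real.log (mxn (D.N n v) fun i => D.s n q.out (x n i))) + C' n v - Y n v - Z n v) / D.H n
    rw [← Finset.sum_div]
    field_simp
    ring
  refine ⟨fun v z => omg G v z - omg G v (f i0) + lam v,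
    fun v => m * ∑ q : Γ ⧸ H, cg D x v q.out - lam v + omg G v (f i0), ρ, fun v z => by ring, ?_, ?_, ?_⟩
  · intro v
    refine ge_of_tendsto (hBt v) ?_
    filter_upwards [hR, hH1] with n h1 h2
    have := h1 v
    positivity
  · have h1 : Tendsto (fun n => ∑ v ∈ P, (m * X n v + C' n v - Y n v - Z n v) / D.H n) (D.U : Filter ℕ)
        (nhds (∑ v ∈ P, (m * ∑ q : Γ ⧸ H, cg D x v q.out - lam v + omg G v (f i0)))) :=
      tendsto_finsetSum _ fun v _ => hBt v
    have h2 : Tendsto (fun n => (m / Nat.card H : ℝ) + gsum (C' n) / D.H n - vH (F n) / D.H n) (D.U : Filter ℕ)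
        (nhds ((m / Nat.card H : ℝ) + 0 - ρ)) := (tendsto_const_nhds.add hgs).sub hρ
    rw [add_zero] at h2
    refine le_of_tendsto_of_tendsto h1 h2 ?_
    filter_upwards [hS, hH1] with n h3 h4
    have h5 := h3 P
    have h6 : 0 < D.H n := by linarith
    rw [← Finset.sum_div, div_le_iff₀ h6]
    have h7 : ((m / Nat.card H : ℝ) + gsum (C' n) / D.H n - vH (F n) / D.H n) * D.H n =
        m / Nat.card H * D.H n + gsum (C' n) - vH (F n) := by
      rw [sub_mul, add_mul, div_mul_cancel₀ _ h6.ne', div_mul_cancel₀ _ h6.ne']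
    rw [h7]
    linarith
  · intro n z hz hzE
    let g : ∀ v : P, Fin (n v) → Fin e → k := fun v i => b.equivFun ⟨z v i, hzE v i⟩
    have hg : ∀ v i, ∑ j, g v i j • f j = z v i := by
      intro v i
      have h1 := congrArg E.subtype (b.sum_equivFun ⟨z v i, hzE v i⟩)
      rw [map_sum] at h1
      exact h1
    have hg0 : ∀ v i, g v i ≠ 0 := by
      intro v i h
      apply (hz v).ne_zero i
      rw [← hg v i, h]
      simp
    have hTt : ∀ v i, Tendsto (fun l => (Y l v.1 - Real.log (nv v.1 (vl (g v i) (F l)))) / D.H l) (D.U : Filter ℕ)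
        (nhds (omg G v.1 (z v i) - omg G v.1 (f i0) + lam v.1)) := by
      intro v i
      have h1 := ((omg_tendsto G v.1 (z v i) ((hz v).ne_zero i)).sub (omg_tendsto G v.1 (f i0) hf0)).add (hlam v.1)
      refine h1.congr' ?_
      filter_upwards [hmain (g v i), ha, Pool.Agent.QP.not_van D.U F (hvan _ (hg0 v i))] with l h2 h3 h4
      rw [hg v i] at h2
      rw [h2, (D.qs l).mul, (D.qs l).ext, Real.log_mul (nv_pos v.1 h4).ne' ((D.qs l).pos v.1 _ h3).ne']
      ring
    rcases Pool.Agent.Helper16.TP.bdd_vec D.U F i0 hF1 with hH | ⟨y, hy⟩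
    · have hT : ∀ v i, omg G v.1 (z v i) - omg G v.1 (f i0) + lam v.1 =
          ρ * sz D.U F v.1 ((van D.U F).mkQ (g v i)) := by
        intro v i
        rw [sz_mk D.U F hH v.1 _ (hvan _ (hg0 v i))]
        refine tendsto_nhds_unique (hTt v i) ?_
        have h1 := hρ.mul (szf_tendsto D.U F hH v.1 _ (hvan _ (hg0 v i)))
        refine h1.congr' ?_
        filter_upwards [hH.eventually_gt_atTop 0, hH1] with l h2 h3
        have h4 : D.H l ≠ 0 := by positivity
        show vH (F l) / D.H l * ((Y l v.1 - _) / vH (F l)) = _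
        field_simp
      have h1 := schg76 D.U F hH P n (fun v i => (van D.U F).mkQ (g v i)) (by
        intro v
        have hbot : van D.U F = ⊥ := by
          rw [Submodule.eq_bot_iff]
          intro c hc
          by_contra h
          exact hvan c h hc
        have h2 : LinearIndependent k (g v) := by
          have h3 : LinearIndependent k (fun i => (⟨z v i, hzE v i⟩ : E)) :=
            LinearIndependent.of_comp E.subtype (hz v)
          exact h3.map' b.equivFun.toLinearMap (LinearEquiv.ker _)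
        exact h2.map' _ (by rw [Submodule.ker_mkQ, hbot]))
      have h2 : finrank k (Qt D.U F) ≤ e := by
        refine (Submodule.finrank_quotient_le _).trans ?_
        rw [Module.finrank_fin_fun]
      calc ∑ v : P, ∑ i, (omg G v.1 (z v i) - omg G v.1 (f i0) + lam v.1)
          = ρ * ∑ v : P, ∑ i, sz D.U F v.1 ((van D.U F).mkQ (g v i)) := by
            rw [Finset.mul_sum]
            refine Finset.sum_congr rfl fun v _ => ?_
            rw [Finset.mul_sum]
            exact Finset.sum_congr rfl fun i _ => hT v i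
        _ ≤ ρ * e := mul_le_mul_of_nonneg_left (h1.trans (by exact_mod_cast h2)) hρ0
    · have hT : ∀ v i, omg G v.1 (z v i) - omg G v.1 (f i0) + lam v.1 = 0 := by
        intro v i
        refine tendsto_nhds_unique (hTt v i) ?_
        refine (hconst (Real.log (vn v.1 y) - Real.log (nv v.1 (vl (g v i) y)))).congr' ?_
        filter_upwards [hy] with l hl
        show _ = (Real.log (vn v.1 (F l)) - Real.log (nv v.1 (vl (g v i) (F l)))) / D.H l
        rw [hl]
      have h1 : ∑ v : P, ∑ i, (omg G v.1 (z v i) - omg G v.1 (f i0) + lam v.1) = 0 :=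
        Finset.sum_eq_zero fun v _ => Finset.sum_eq_zero fun i _ => hT v i
      show ∑ v : P, ∑ i, (omg G v.1 (z v i) - omg G v.1 (f i0) + lam v.1) ≤ _
      rw [h1]
      positivity

end

/-! ### SUBm -/

section

variable {G : Type} [Group G] [Fintype G] {D : SqG k G} (F : GFG D)

variable {ι : Type} [Fintype ι] (x : ∀ n, ι → D.L n) (hx : Ptg D x)
  (ξ : ι → F.K) (hξ : ∀ j, ∀ᶠ n in (D.U : Filter ℕ), F.rp (ξ j) n = x n j)

include hx hξ

variable {H : Subgroup G} [Fintype (G ⧸ H)] (hxH : ∀ n, ∀ h ∈ H, ∀ j, D.s n h (x n j) = x n j)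

include hxH

/-- The subspace theorem for the invariants, with slow multipliers. -/
theorem sub_tm (P : Finset (Pl k)) (m : ℕ) (B : Submodule k F.K) (hB : ∀ b ∈ B, SlowG D (F.rp b))
    (E : Submodule k F.K) [FiniteDimensional k E]
    (hE : E ≤ B * (∏ q : G ⧸ H, (Submodule.span k (Set.range ξ)).map (F.s q.out).toLinearMap) ^ m)
    (hEs : ∀ z ∈ E, ∀ g, F.s g z = z) (n : P → ℕ) (z : ∀ v : P, Fin (n v) → F.K) (hz : ∀ v, LinearIndependent k (z v))
    (hzE : ∀ v i, z v i ∈ E) :
    ∑ v : P, ∑ i, (Nat.card H * omg F v (z v i) + m * ∑ g, cg D x v g) ≤ m * finrank k E := by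
  classical
  have hcH : (0 : ℝ) < Nat.card H := by exact_mod_cast Nat.card_pos
  have hn : ∀ v, n v ≤ finrank k E := by
    intro v
    have h3 : LinearIndependent k (fun i => (⟨z v i, hzE v i⟩ : E)) := LinearIndependent.of_comp E.subtype (hz v)
    simpa using h3.fintype_card_le_finrank
  by_cases hE0 : E = ⊥
  · have h1 : ∀ v, n v = 0 := by
      intro v
      have := hn v
      rw [hE0, finrank_bot] at this
      omega
    have h2 : ∑ v : P, ∑ i, (Nat.card H * omg F v (z v i) + m * ∑ g, cg D x v g) = 0 := by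
      refine Finset.sum_eq_zero fun v _ => Finset.sum_eq_zero fun i _ => ?_
      have h2 := i.2
      have h3 := h1 v
      omega
    rw [h2]
    positivity
  have hcg : ∀ v, ∑ g, cg D x v g = Nat.card H * ∑ q : G ⧸ H, cg D x v q.out := by
    intro v
    refine sum_cosetm41 H (cg D x v) fun g h hh => ?_
    unfold cg
    have h1 : ∀ n, (fun j => D.s n (g * h) (x n j)) = fun j => D.s n g (x n j) := by
      intro n
      funext j
      rw [map_mul]
      show D.s n g (D.s n h (x n j)) = _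
      rw [hxH n h hh j]
    simp only [h1]
  obtain ⟨T, B', ρ, h1, h2, h3, h4⟩ := datam41 F x hx ξ hξ H hxH P m B hB E hE hEs hE0
  have h5 := h4 n z hz hzE
  have h6 : ∑ v : P, ∑ i, (omg F v (z v i) + m * ∑ q : G ⧸ H, cg D x v q.out) ≤ m / Nat.card H * finrank k E :=
    calc ∑ v : P, ∑ i, (omg F v (z v i) + m * ∑ q : G ⧸ H, cg D x v q.out)
        = ∑ v : P, ∑ i, T v (z v i) + ∑ v : P, (n v : ℝ) * B' v := by
          rw [← Finset.sum_add_distrib]
          refine Finset.sum_congr rfl fun v _ => ?_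
          simp only [h1]
          rw [Finset.sum_add_distrib, Finset.sum_const, Finset.card_univ, Fintype.card_fin, nsmul_eq_mul]
      _ ≤ ρ * finrank k E + ∑ v : P, (finrank k E : ℝ) * B' v := by
          refine add_le_add h5 (Finset.sum_le_sum fun v _ => ?_)
          exact mul_le_mul_of_nonneg_right (by exact_mod_cast hn v) (h2 v)
      _ = ρ * finrank k E + finrank k E * ∑ v ∈ P, B' v := by
          rw [← Finset.mul_sum, Finset.sum_coe_sort P B']
      _ ≤ ρ * finrank k E + finrank k E * (m / Nat.card H - ρ) := by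
          have : (0 : ℝ) ≤ finrank k E := Nat.cast_nonneg _
          nlinarith [mul_le_mul_of_nonneg_left h3 this]
      _ = m / Nat.card H * finrank k E := by ring
  have h7 : ∑ v : P, ∑ i, (Nat.card H * omg F v (z v i) + m * ∑ g, cg D x v g) =
      Nat.card H * ∑ v : P, ∑ i, (omg F v (z v i) + m * ∑ q : G ⧸ H, cg D x v q.out) := by
    refine Eq.trans (Finset.sum_congr rfl fun v _ => ?_) (Finset.mul_sum _ _ _).symm
    rw [hcg]
    generalize (∑ q : G ⧸ H, cg D x v q.out) = T
    rw [Finset.mul_sum]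
    exact Finset.sum_congr rfl fun i _ => by ring
  rw [h7]
  have h8 : (m : ℝ) * finrank k E = Nat.card H * (m / Nat.card H * finrank k E) := by
    field_simp
  rw [h8]
  exact mul_le_mul_of_nonneg_left h6 hcH.le

end

end Pool.Agent.SQ
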