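import Pool.Agent.Helper42.SQ.GROg
import Pool.Agent.Helper42.SQ.OMs
import Pool.Agent.Helper42.SQ.SUBm

/-!
# SQ, stage 6, block SUBs: the subspace theorem over the field of the slow germs (Steinmetz's trick)

`E` with basis `e_1, ..., e_h` over `slk F`; `z p = ∑ A p j e_j`; `V s` the `k`-span of the products of `s` elements of
`{1} ∪ {A p j}`, of dimension at most polynomial in `s`, so `dim V (s + 1) ≤ (1 + η) dim V s` for some `s`;
`E' = V (s + 1) * span_k (e_j)` contains the elements `b_a z p`, `b_a` a `k`-basis of `V s`.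
-/

set_option autoImplicit false

namespace Pool.Agent.SQ

open Module

section alg5s

open scoped Pointwise in
theorem pol5s {k K : Type*} [Field k] [Field K] [Algebra k K] (S : Finset K) (s : ℕ) :
    finrank k (Submodule.span k (S : Set K) ^ s : Submodule k K) ≤ (s + 1) ^ S.card := by
  classical
  have h1 : Submodule.span k (S : Set K) ^ s ≤
      Submodule.span k (Set.range fun e : S → Fin (s + 1) => ∏ x : S, (x : K) ^ (e x : ℕ)) := by
    rw [Submodule.span_pow]
    refine Submodule.span_le.2 fun a ha => Submodule.subset_span ?_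
    rw [Set.mem_pow] at ha
    obtain ⟨f, rfl⟩ := ha
    rw [List.prod_ofFn]
    refine ⟨fun x => ⟨(Finset.univ.filter fun i => f i = x).card, ?_⟩, ?_⟩
    · have := Finset.card_le_univ (Finset.univ.filter fun i => f i = x)
      rw [Fintype.card_fin] at this
      omega
    · show ∏ x : S, (x : K) ^ (Finset.univ.filter fun i => f i = x).card = ∏ i, (f i : K)
      rw [← Finset.prod_fiberwise Finset.univ (fun i => f i) fun i => (f i : K)]
      refine Finset.prod_congr rfl fun x _ => ?_
      rw [← Finset.prod_const]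
      refine Finset.prod_congr rfl fun i hi => ?_
      rw [(Finset.mem_filter.1 hi).2]
  have : FiniteDimensional k (Submodule.span k
      (Set.range fun e : S → Fin (s + 1) => ∏ x : S, (x : K) ^ (e x : ℕ))) :=
    FiniteDimensional.span_of_finite k (Set.finite_range _)
  refine (Submodule.finrank_mono h1).trans ((finrank_range_le_card _).trans ?_)
  simp

variable {k K : Type*} [Field k] [Field K] [Algebra k K] (κ : IntermediateField k K)

theorem spm5s (V W : Submodule k K) : Submodule.span κ (V : Set K) * Submodule.span κ (W : Set K) ≤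
    Submodule.span κ ((V * W : Submodule k K) : Set K) := by
  rw [Submodule.span_mul_span]
  refine Submodule.span_mono ?_
  rintro _ ⟨a, ha, b, hb, rfl⟩
  exact Submodule.mul_mem_mul ha hb

theorem sp15s : (1 : Submodule κ K) ≤ Submodule.span κ ((1 : Submodule k K) : Set K) := by
  rw [Submodule.one_eq_span]
  refine Submodule.span_mono ?_
  rintro _ rfl
  exact Submodule.one_le.1 le_rfl

theorem sprod5s {ι : Type*} (s : Finset ι) (A : ι → Submodule κ K) (V : ι → Submodule k K)
    (h : ∀ i, A i ≤ Submodule.span κ (V i : Set K)) :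
    ∏ i ∈ s, A i ≤ Submodule.span κ ((∏ i ∈ s, V i : Submodule k K) : Set K) := by
  classical
  induction s using Finset.induction_on with
  | empty =>
    rw [Finset.prod_empty, Finset.prod_empty]
    exact sp15s κ
  | insert a s ha ih =>
    rw [Finset.prod_insert ha, Finset.prod_insert ha]
    exact (mul_le_mul' (h a) ih).trans (spm5s κ _ _)

theorem spow5s (A : Submodule κ K) (V : Submodule k K) (h : A ≤ Submodule.span κ (V : Set K)) (m : ℕ) :
    A ^ m ≤ Submodule.span κ ((V ^ m : Submodule k K) : Set K) := by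
  induction m with
  | zero =>
    rw [pow_zero, pow_zero]
    exact sp15s κ
  | succ m ih =>
    rw [pow_succ, pow_succ]
    exact (mul_le_mul' ih h).trans (spm5s κ _ _)

theorem exB5s (W : Submodule k K) (y : K) (hy : y ∈ Submodule.span κ (W : Set K)) :
    ∃ B : Submodule k K, B.FG ∧ (∀ b ∈ B, b ∈ κ) ∧ y ∈ B * W := by
  induction hy using Submodule.span_induction with
  | mem x hx =>
    refine ⟨1, ?_, ?_, ?_⟩
    · rw [Submodule.one_eq_span]
      exact Submodule.fg_span_singleton 1
    · intro b hb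
      rw [Submodule.mem_one] at hb
      obtain ⟨c, rfl⟩ := hb
      exact κ.algebraMap_mem c
    · rw [one_mul]
      exact hx
  | zero => exact ⟨⊥, Submodule.fg_bot, fun b hb => by rw [(Submodule.mem_bot k).1 hb]; exact κ.zero_mem, by simp⟩
  | add x y hx hy ihx ihy =>
    obtain ⟨B, h1, h2, h3⟩ := ihx
    obtain ⟨B', h1', h2', h3'⟩ := ihy
    refine ⟨B ⊔ B', h1.sup h1', ?_, ?_⟩
    · intro b hb
      obtain ⟨a, ha, c, hc, rfl⟩ := Submodule.mem_sup.1 hb
      exact κ.add_mem (h2 a ha) (h2' c hc)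
    · have e1 : B * W ≤ (B ⊔ B') * W := mul_le_mul' le_sup_left le_rfl
      have e2 : B' * W ≤ (B ⊔ B') * W := mul_le_mul' le_sup_right le_rfl
      exact Submodule.add_mem _ (e1 h3) (e2 h3')
  | smul c x hx ih =>
    obtain ⟨B, h1, h2, h3⟩ := ih
    refine ⟨Submodule.span k {(c : K)} * B, (Submodule.fg_span_singleton _).mul h1, ?_, ?_⟩
    · intro b hb
      obtain ⟨a, ha, rfl⟩ := Submodule.mem_span_singleton_mul.1 hb
      exact κ.mul_mem c.2 (h2 a ha)
    · rw [mul_assoc]
      exact Submodule.mul_mem_mul (Submodule.mem_span_singleton_self _) h3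

theorem frk5s (V : Submodule k K) [FiniteDimensional k V] {h : ℕ} (e : Fin h → K) :
    finrank k (V * Submodule.span k (Set.range e) : Submodule k K) ≤ finrank k V * h := by
  obtain ⟨b⟩ : Nonempty (Basis (Fin (finrank k V)) k V) := ⟨Module.finBasis k V⟩
  have h1 : V * Submodule.span k (Set.range e) ≤
      Submodule.span k (Set.range fun p : Fin (finrank k V) × Fin h => (b p.1 : K) * e p.2) := by
    refine Submodule.mul_le.2 fun x hx y hy => ?_
    have h2 : V ≤ Submodule.span k (Set.range fun i => (b i : K)) := by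
      intro x hx
      have h3 := b.sum_repr ⟨x, hx⟩
      have h4 := congrArg (fun x : V => (x : K)) h3
      simp only [AddSubmonoidClass.coe_finsetSum, SetLike.val_smul] at h4
      rw [← h4]
      exact Submodule.sum_mem _ fun i _ => Submodule.smul_mem _ _ (Submodule.subset_span ⟨i, rfl⟩)
    have h3 : x * y ∈ Submodule.span k (Set.range fun i => (b i : K)) * Submodule.span k (Set.range e) :=
      Submodule.mul_mem_mul (h2 hx) hy
    rw [Submodule.span_mul_span] at h3
    refine Submodule.span_mono ?_ h3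
    rintro _ ⟨_, ⟨i, rfl⟩, _, ⟨j, rfl⟩, rfl⟩
    exact ⟨(i, j), rfl⟩
  have : FiniteDimensional k (Submodule.span k
      (Set.range fun p : Fin (finrank k V) × Fin h => (b p.1 : K) * e p.2)) :=
    FiniteDimensional.span_of_finite k (Set.finite_range _)
  refine (Submodule.finrank_mono h1).trans ((finrank_range_le_card _).trans ?_)
  simp

/-- Steinmetz's trick -/
theorem stein5s {P : Type*} [Finite P] (W : Submodule k K) (hW : W.FG) (E : Submodule κ K)
    (hE : E ≤ Submodule.span κ (W : Set K)) (z : P → K) (hz : ∀ p, z p ∈ E) {η : ℝ} (hη : 0 < η) :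
    FiniteDimensional κ E ∧ ∃ (d : ℕ) (B E' : Submodule k K) (b : Fin d → κ), 1 ≤ d ∧ (∀ x ∈ B, x ∈ κ) ∧
      FiniteDimensional k E' ∧ E' ≤ B * W ∧ E' ≤ E.restrictScalars k ∧ LinearIndependent k b ∧
      (∀ p a, (b a : K) * z p ∈ E') ∧ (finrank k E' : ℝ) ≤ (1 + η) * d * finrank κ E := by
  classical
  -- `E` is finite dimensional
  have hfin : FiniteDimensional κ (Submodule.span κ (W : Set K)) := by
    obtain ⟨S, hS⟩ := hW
    have h1 : Submodule.span κ (W : Set K) ≤ Submodule.span κ (S : Set K) := by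
      rw [Submodule.span_le, ← hS]
      intro x hx
      have h2 : Submodule.span k (S : Set K) ≤ (Submodule.span κ (S : Set K)).restrictScalars k := by
        rw [Submodule.span_le]
        exact Submodule.subset_span
      exact h2 hx
    have h2 : FiniteDimensional κ (Submodule.span κ (S : Set K)) :=
      FiniteDimensional.span_of_finite κ S.finite_toSet
    exact Submodule.finiteDimensional_of_le h1
  have hfE : FiniteDimensional κ E := Submodule.finiteDimensional_of_le hE
  refine ⟨hfE, ?_⟩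
  obtain ⟨h, hh⟩ : ∃ h, h = finrank κ E := ⟨_, rfl⟩
  have e : Basis (Fin h) κ E := by
    rw [hh]
    exact Module.finBasis κ E
  -- the coordinates
  have := Fintype.ofFinite P
  obtain ⟨A, hA⟩ : ∃ A : P → Fin h → κ, ∀ p, z p = ∑ j, (A p j : K) * (e j : K) := by
    refine ⟨fun p j => e.repr ⟨z p, hz p⟩ j, fun p => ?_⟩
    have h1 := congrArg (fun x : E => (x : K)) (e.sum_repr ⟨z p, hz p⟩)
    simp only [AddSubmonoidClass.coe_finsetSum, SetLike.val_smul] at h1
    rw [← h1]
    refine Finset.sum_congr rfl fun j _ => ?_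
    rw [Algebra.smul_def]
    rfl
  -- `B₀`
  have hB0 : ∀ j, ∃ B : Submodule k K, B.FG ∧ (∀ b ∈ B, b ∈ κ) ∧ (e j : K) ∈ B * W :=
    fun j => exB5s κ W _ (hE (e j).2)
  choose B₀ b1 b2 b3 using hB0
  obtain ⟨B₁, hB₁⟩ : ∃ B₁, B₁ = ⨆ j, B₀ j := ⟨_, rfl⟩
  have c1 : ∀ b ∈ B₁, b ∈ κ := by
    intro b hb
    have h1 : B₁ ≤ Subalgebra.toSubmodule κ.toSubalgebra := by
      rw [hB₁]
      exact iSup_le fun j x hx => b2 j x hx
    exact h1 hb
  have c2 : ∀ j, (e j : K) ∈ B₁ * W := by
    intro j
    have h1 : B₀ j * W ≤ B₁ * W := mul_le_mul' (by rw [hB₁]; exact le_iSup B₀ j) le_rfl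
    exact h1 (b3 j)
  -- the generators
  obtain ⟨S, hS⟩ : ∃ S : Finset K, S = insert 1 (Finset.univ.image fun pj : P × Fin h => (A pj.1 pj.2 : K)) :=
    ⟨_, rfl⟩
  have s1 : (1 : K) ∈ Submodule.span k (S : Set K) := by
    refine Submodule.subset_span ?_
    rw [hS]
    simp
  have s2 : ∀ p j, (A p j : K) ∈ Submodule.span k (S : Set K) := by
    intro p j
    refine Submodule.subset_span ?_
    rw [hS, Finset.coe_insert, Finset.coe_image]
    exact Set.mem_insert_of_mem _ ⟨(p, j), by simp, rfl⟩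
  have s3 : Submodule.span k (S : Set K) ≤ Subalgebra.toSubmodule κ.toSubalgebra := by
    rw [Submodule.span_le, hS, Finset.coe_insert, Finset.coe_image]
    rintro x (rfl | ⟨pj, -, rfl⟩)
    · exact κ.one_mem
    · exact (A pj.1 pj.2).2
  obtain ⟨V, hV⟩ : ∃ V : ℕ → Submodule k K, ∀ s, V s = Submodule.span k (S : Set K) ^ s := ⟨_, fun _ => rfl⟩
  have v1 : ∀ s, ∀ x ∈ V s, x ∈ κ := by
    intro s
    have : V s ≤ Subalgebra.toSubmodule κ.toSubalgebra := by
      rw [hV]
      induction s with
      | zero =>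
        rw [pow_zero]
        intro x hx
        rw [Submodule.mem_one] at hx
        obtain ⟨c, rfl⟩ := hx
        exact κ.algebraMap_mem c
      | succ s ih =>
        rw [pow_succ]
        refine Submodule.mul_le.2 fun x hx y hy => ?_
        exact κ.mul_mem (ih hx) (s3 hy)
    exact fun x hx => this hx
  have v2 : ∀ s, FiniteDimensional k (V s) := by
    intro s
    rw [hV]
    exact Module.Finite.iff_fg.2 (Submodule.FG.pow ⟨S, rfl⟩ s)
  have v3 : ∀ s, (1 : K) ∈ V s := by
    intro s
    rw [hV]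
    have := Submodule.pow_mem_pow _ s1 s
    rwa [one_pow] at this
  have v4 : ∀ s, 1 ≤ finrank k (V s) := by
    intro s
    have := v2 s
    have : Nontrivial (V s) := ⟨⟨⟨1, v3 s⟩, 0, fun h => one_ne_zero (congrArg Subtype.val h)⟩⟩
    exact Module.finrank_pos
  obtain ⟨dd, hdd⟩ : ∃ dd : ℕ → ℕ, ∀ s, dd s = finrank k (V s) := ⟨_, fun _ => rfl⟩
  obtain ⟨s, -, hs⟩ := gro_g (g := 1) one_pos dd (fun s => by rw [hdd]; exact v4 s) S.card 1 (fun m => by
    rw [one_mul, hdd, hV]
    exact pol5s S m) 1 hη 0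
  rw [one_mul, Nat.cast_one, one_pow, mul_one, hdd, hdd] at hs
  -- the basis of `V s`
  have := v2 s
  have := v2 (s + 1)
  obtain ⟨d, hd⟩ : ∃ d, d = finrank k (V s) := ⟨_, rfl⟩
  have bb : Basis (Fin d) k (V s) := by
    rw [hd]
    exact Module.finBasis k (V s)
  obtain ⟨E', hE'⟩ : ∃ E', E' = V (s + 1) * Submodule.span k (Set.range fun j => (e j : K)) := ⟨_, rfl⟩
  have fE : (Submodule.span k (Set.range fun j => (e j : K))).FG := Submodule.fg_span (Set.finite_range _)
  refine ⟨d, V (s + 1) * B₁, E', fun a => ⟨bb a, v1 s _ (bb a).2⟩, by rw [hd]; exact v4 s, ?_, ?_, ?_, ?_, ?_, ?_, ?_⟩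
  · intro x hx
    have : V (s + 1) * B₁ ≤ Subalgebra.toSubmodule κ.toSubalgebra :=
      Submodule.mul_le.2 fun x hx y hy => κ.mul_mem (v1 _ x hx) (c1 y hy)
    exact this hx
  · rw [hE']
    refine Module.Finite.iff_fg.2 (Submodule.FG.mul ?_ fE)
    exact Module.Finite.iff_fg.1 (v2 (s + 1))
  · rw [hE', mul_assoc]
    refine mul_le_mul' le_rfl ?_
    rw [Submodule.span_le]
    rintro _ ⟨j, rfl⟩
    exact c2 j
  · rw [hE']
    refine Submodule.mul_le.2 fun x hx y hy => ?_
    have h1 : Submodule.span k (Set.range fun j => (e j : K)) ≤ E.restrictScalars k := by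
      rw [Submodule.span_le]
      rintro _ ⟨j, rfl⟩
      exact (e j).2
    have h2 : y ∈ E := h1 hy
    exact E.smul_mem (⟨x, v1 _ x hx⟩ : κ) h2
  · have h1 : LinearIndependent k fun a => ((bb a : V s) : K) :=
      bb.linearIndependent.map' (V s).subtype (Submodule.ker_subtype _)
    exact LinearIndependent.of_comp (κ.val.toLinearMap) h1
  · intro p a
    rw [hA, Finset.mul_sum, hE']
    refine Submodule.sum_mem _ fun j _ => ?_
    rw [← mul_assoc]
    refine Submodule.mul_mem_mul ?_ (Submodule.subset_span ⟨j, rfl⟩)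
    rw [hV, pow_succ]
    exact Submodule.mul_mem_mul (le_of_eq (hV s) (bb a).2) (s2 p j)
  · have h1 : finrank k E' ≤ finrank k (V (s + 1)) * h := by
      rw [hE']
      exact frk5s _ _
    rw [hd, ← hh]
    calc (finrank k E' : ℝ) ≤ finrank k (V (s + 1)) * h := by exact_mod_cast h1
      _ ≤ ((1 + η) * finrank k (V s)) * h := mul_le_mul_of_nonneg_right hs (Nat.cast_nonneg _)

end alg5s

open NumberField Filter
open Pool.Agent.Helper64.Vojta (Pl nv sn above)
open Pool.Agent.V2

universe u

section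

variable {k : Type u} [Field k] [NumberField k] {G : Type} [Group G] [Fintype G] {D : SqG k G} (F : GFG D)
variable {ι : Type} [Fintype ι] (x : ∀ n, ι → D.L n) (hx : Ptg D x)
  (ξ : ι → F.K) (hξ : ∀ j, ∀ᶠ n in (D.U : Filter ℕ), F.rp (ξ j) n = x n j)

include hx hξ

variable {H : Subgroup G} [Fintype (G ⧸ H)] (hxH : ∀ n, ∀ h ∈ H, ∀ j, D.s n h (x n j) = x n j)

include hxH

/-- **BLOCK SUBs**: the subspace theorem over the slow germs -/
theorem sub_ts (P : Finset (Pl k)) (m : ℕ) (E : Submodule (slk F) F.K)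
    (hE : E ≤ (∏ q : G ⧸ H, (Submodule.span (slk F) (Set.range ξ)).map (ss F q.out).toLinearMap) ^ m)
    (hEs : ∀ z ∈ E, ∀ g, ss F g z = z) (n : P → ℕ) (z : ∀ v : P, Fin (n v) → F.K)
    (hz : ∀ v, LinearIndependent (slk F) (z v)) (hzE : ∀ v i, z v i ∈ E) :
    ∑ v : P, ∑ i, (Nat.card H * omg F v (z v i) + m * ∑ g, cg D x v g) ≤ m * finrank (slk F) E := by
  classical
  obtain ⟨W, hW⟩ : ∃ W : Submodule k F.K,
      W = (∏ q : G ⧸ H, (Submodule.span k (Set.range ξ)).map (F.s q.out).toLinearMap) ^ m := ⟨_, rfl⟩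
  have hWfg : W.FG := by
    rw [hW]
    refine Submodule.FG.pow ?_ m
    have h1 : ∀ s : Finset (G ⧸ H),
        (∏ q ∈ s, (Submodule.span k (Set.range ξ)).map (F.s q.out).toLinearMap).FG := by
      intro s
      induction s using Finset.induction_on with
      | empty =>
        rw [Finset.prod_empty, Submodule.one_eq_span]
        exact Submodule.fg_span_singleton 1
      | insert a s ha ih =>
        rw [Finset.prod_insert ha]
        exact ((Submodule.fg_span (Set.finite_range ξ)).map _).mul ih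
    exact h1 _
  have hEW : E ≤ Submodule.span (slk F) (W : Set F.K) := by
    refine hE.trans ?_
    rw [hW]
    refine spow5s (slk F) _ _ (sprod5s (slk F) Finset.univ _ _ fun q => ?_) m
    rw [Submodule.map_span]
    refine Submodule.span_mono ?_
    rintro _ ⟨y, hy, rfl⟩
    exact ⟨y, Submodule.subset_span hy, rfl⟩
  obtain ⟨T, hT⟩ : ∃ T : ℝ, T = ∑ v : P, ∑ i, (Nat.card H * omg F v (z v i) + m * ∑ g, cg D x v g) := ⟨_, rfl⟩
  rw [← hT]
  refine le_of_forall_pos_le_add fun ε hε => ?_
  obtain ⟨N, hN⟩ : ∃ N : ℝ, N = m * finrank (slk F) E := ⟨_, rfl⟩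
  have hN0 : 0 ≤ N := by rw [hN]; positivity
  obtain ⟨hfE, d, B, E', b, hd, hB, hE'f, hE'B, hE'E, hb, hbz, hrk⟩ := stein5s (slk F) (P := Σ v : P, Fin (n v)) W hWfg E
    hEW (fun p => z p.1 p.2) (fun p => hzE p.1 p.2) (show 0 < ε / (N + 1) by positivity)
  -- the families for the places
  obtain ⟨y, hy⟩ : ∃ y : ∀ v : P, Fin (d * n v) → F.K, ∀ v p, y v p =
      (b (finProdFinEquiv.symm p).1 : F.K) * z v (finProdFinEquiv.symm p).2 := ⟨_, fun _ _ => rfl⟩
  have hyi : ∀ v, LinearIndependent k (y v) := by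
    intro v
    have h1 := linearIndependent_smul hb (hz v)
    have h2 := h1.comp _ (finProdFinEquiv (m := d) (n := n v)).symm.injective
    refine (show y v = _ from ?_) ▸ h2
    funext p
    rw [hy]
    rfl
  have key := sub_tm F x hx ξ hξ hxH P m B (fun c hc => (hB c hc).2) E' (by rw [← hW]; exact hE'B)
    (fun c hc g => hEs c (hE'E hc) g) (fun v => d * n v) y hyi (fun v p => by
      rw [hy]
      exact hbz ⟨v, (finProdFinEquiv.symm p).2⟩ (finProdFinEquiv.symm p).1)
  have hb0 : ∀ a, b a ≠ 0 := fun a => hb.ne_zero a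
  have hz0 : ∀ v i, z v i ≠ 0 := fun v i => (hz v).ne_zero i
  have e1 : ∀ v : P, ∑ p, (Nat.card H * omg F v (y v p) + m * ∑ g, cg D x v g) =
      d * ∑ i, (Nat.card H * omg F v (z v i) + m * ∑ g, cg D x v g) := by
    intro v
    rw [← Equiv.sum_comp (finProdFinEquiv (m := d) (n := n v)), Fintype.sum_prod_type]
    have h1 : ∀ (a : Fin d) (i : Fin (n v)), omg F v (y v (finProdFinEquiv (a, i))) = omg F v (z v i) := by
      intro a i
      rw [hy, Equiv.symm_apply_apply]
      exact (omg_RVs F v).smul (b a) (z v i) (hb0 a) (hz0 v i)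
    simp only [h1]
    rw [Finset.sum_const, Finset.card_univ, Fintype.card_fin, nsmul_eq_mul]
  rw [Finset.sum_congr rfl fun v _ => e1 v, ← Finset.mul_sum, ← hT] at key
  have hd0 : (0 : ℝ) < d := by exact_mod_cast hd
  have h1 : (d : ℝ) * T ≤ d * ((1 + ε / (N + 1)) * N) := by
    refine key.trans ?_
    have h2 := mul_le_mul_of_nonneg_left hrk (Nat.cast_nonneg (α := ℝ) m)
    refine h2.trans (le_of_eq ?_)
    rw [hN]
    ring
  have h2 := le_of_mul_le_mul_left h1 hd0
  have h3 : ε / (N + 1) * N ≤ ε := by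
    rw [div_mul_eq_mul_div, div_le_iff₀ (by positivity)]
    nlinarith
  rw [← hN]
  linarith

end

end Pool.Agent.SQ
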