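import Pool.Agent.Helper42.SQ.Defs

/-!
# SQ, block DVR: a discrete valuation with residue field finite over `k(t_1, .., t_w)` on a field finite over
`k(t_1, .., t_(w+1))`
-/

set_option autoImplicit false

namespace Pool.Agent.SQ

open Module Polynomial IsDedekindDomain

universe u

section

variable {F K : Type u} [Field F] [Field K] [Algebra F[X] K]
  {B : Type u} [CommRing B] [IsDedekindDomain B] [Algebra F[X] B] [Algebra B K] [IsScalarTower F[X] B K] [IsFractionRing B K]
  (v0 : HeightOneSpectrum B)

/-- the valuation ring -/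
private noncomputable abbrev OO (K : Type u) [Field K] [Algebra B K] [IsFractionRing B K] (v0 : HeightOneSpectrum B) :
    ValuationSubring K :=
  (v0.valuation K).valuationSubring

/-- the map from `B` to the valuation ring -/
private noncomputable def rho34 (K : Type u) [Field K] [Algebra B K] [IsFractionRing B K] (v0 : HeightOneSpectrum B) :
    B →+* OO K v0 :=
  (algebraMap B K).codRestrict (OO K v0) fun b => v0.valuation_le_one b

/-- the map from `B` to the residue field -/
private noncomputable def resB34 (K : Type u) [Field K] [Algebra B K] [IsFractionRing B K] (v0 : HeightOneSpectrum B) :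
    B →+* IsLocalRing.ResidueField (OO K v0) :=
  (IsLocalRing.residue (OO K v0)).comp (rho34 K v0)

/-- the map from `F` to the residue field -/
private noncomputable def iota34 (F K : Type u) [Field F] [Field K] [Algebra F[X] B] [Algebra B K] [IsFractionRing B K]
    (v0 : HeightOneSpectrum B) : F →+* IsLocalRing.ResidueField (OO K v0) :=
  ((resB34 K v0).comp (algebraMap F[X] B)).comp C

private theorem mem_O34 (x : K) : x ∈ OO K v0 ↔ v0.valuation K x ≤ 1 := Iff.rfl

private theorem residue_zero34 (x : OO K v0) :
    IsLocalRing.residue (OO K v0) x = 0 ↔ v0.valuation K (x : K) < 1 := by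
  rw [IsLocalRing.residue_eq_zero_iff]
  exact (ValuationSubring.valuation_lt_one_iff _ _).trans
    ((Valuation.isEquiv_iff_val_lt_one.mp (Valuation.isEquiv_valuation_valuationSubring (v0.valuation K))).symm)

open Classical in
/-- the residue map on `K` -/
private noncomputable def resK34 (K : Type u) [Field K] [Algebra B K] [IsFractionRing B K] (v0 : HeightOneSpectrum B)
    (x : K) : IsLocalRing.ResidueField (OO K v0) :=
  if h : x ∈ OO K v0 then IsLocalRing.residue (OO K v0) ⟨x, h⟩ else 0

private theorem resK_of34 {x : K} (h : x ∈ OO K v0) : resK34 K v0 x = IsLocalRing.residue (OO K v0) ⟨x, h⟩ := by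
  unfold resK34
  rw [dif_pos h]

private noncomputable def vK34 (K : Type u) [Field K] [Algebra B K] [IsFractionRing B K] (v0 : HeightOneSpectrum B)
    (x : K) : ℤ := -WithZero.log (v0.valuation K x)

private theorem val_ne34 {x : K} (hx : x ≠ 0) : v0.valuation K x ≠ 0 := (Valuation.ne_zero_iff _).2 hx

private theorem vK_nonneg34 (x : K) : (x = 0 ∨ 0 ≤ vK34 K v0 x) ↔ x ∈ OO K v0 := by
  by_cases hx : x = 0
  · subst hx
    simp
  · have h : 0 ≤ vK34 K v0 x ↔ v0.valuation K x ≤ 1 := by
      unfold vK34
      rw [← WithZero.log_le_log (val_ne34 v0 hx) one_ne_zero, WithZero.log_one]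
      omega
    rw [mem_O34, ← h]
    simp [hx]

private theorem vK_pos34 (x : K) : (x = 0 ∨ 0 < vK34 K v0 x) ↔ v0.valuation K x < 1 := by
  by_cases hx : x = 0
  · subst hx
    simp
  · have h : 0 < vK34 K v0 x ↔ v0.valuation K x < 1 := by
      unfold vK34
      rw [← WithZero.log_lt_log (val_ne34 v0 hx) one_ne_zero, WithZero.log_one]
      omega
    rw [← h]
    simp [hx]

private theorem val_C34 (c : F) : v0.valuation K (algebraMap F[X] K (C c)) ≤ 1 := by
  rw [IsScalarTower.algebraMap_apply F[X] B K]
  exact v0.valuation_le_one _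

private theorem val_C_eq34 {c : F} (hc : c ≠ 0) : v0.valuation K (algebraMap F[X] K (C c)) = 1 := by
  have h1 : v0.valuation K (algebraMap F[X] K (C c)) * v0.valuation K (algebraMap F[X] K (C c⁻¹)) = 1 := by
    rw [← map_mul, ← map_mul, ← C_mul, mul_inv_cancel₀ hc, C_1, map_one, map_one]
  refine le_antisymm (val_C34 v0 c) ?_
  calc (1 : WithZero (Multiplicative ℤ)) = v0.valuation K (algebraMap F[X] K (C c)) * v0.valuation K (algebraMap F[X] K (C c⁻¹)) := h1.symm
    _ ≤ v0.valuation K (algebraMap F[X] K (C c)) * 1 := mul_le_mul_right (val_C34 v0 c⁻¹) _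
    _ = _ := mul_one _

private theorem resK_B34 (b : B) : resK34 K v0 (algebraMap B K b) = resB34 K v0 b := by
  rw [resK_of34 v0 (v0.valuation_le_one b)]
  rfl

private theorem resK_C34 (c : F) : resK34 K v0 (algebraMap F[X] K (C c)) = iota34 F K v0 c := by
  rw [IsScalarTower.algebraMap_apply F[X] B K, resK_B34]
  rfl

/-- the discrete valuation -/
private theorem dv34 {k : Type u} [Field k] [Algebra k K] [Algebra k F]
    (hk : ∀ c : k, algebraMap k K c = algebraMap F[X] K (C (algebraMap k F c))) :
    letI : Algebra k (IsLocalRing.ResidueField (OO K v0)) := ((iota34 F K v0).comp (algebraMap k F)).toAlgebra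
    Nonempty (DV k K (IsLocalRing.ResidueField (OO K v0))) := by
  letI : Algebra k (IsLocalRing.ResidueField (OO K v0)) := ((iota34 F K v0).comp (algebraMap k F)).toAlgebra
  obtain ⟨π, hπ⟩ := v0.valuation_exists_uniformizer K
  have hπ0 : π ≠ 0 := by
    rintro rfl
    rw [map_zero] at hπ
    exact (WithZero.exp_ne_zero hπ.symm).elim
  refine ⟨⟨vK34 K v0, ?_, ?_, ?_, π, hπ0, ?_, resK34 K v0, ?_, ?_, ?_, ?_, ?_⟩⟩
  · intro x y hx hy
    unfold vK34
    rw [map_mul, WithZero.log_mul (val_ne34 v0 hx) (val_ne34 v0 hy)]
    ring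
  · intro x y hx hy hxy
    unfold vK34
    have h := (v0.valuation K).map_add x y
    rcases le_max_iff.1 h with h | h
    · have := (WithZero.log_le_log (val_ne34 v0 hxy) (val_ne34 v0 hx)).2 h
      exact (min_le_left _ _).trans (by omega)
    · have := (WithZero.log_le_log (val_ne34 v0 hxy) (val_ne34 v0 hy)).2 h
      exact (min_le_right _ _).trans (by omega)
  · intro c hc
    unfold vK34
    rw [hk, val_C_eq34 v0 (by simpa using hc), WithZero.log_one, neg_zero]
  · unfold vK34
    rw [hπ, WithZero.log_exp]
    norm_num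
  · intro x y hx hy
    rw [vK_nonneg34] at hx hy
    rw [resK_of34 v0 hx, resK_of34 v0 hy, resK_of34 v0 (add_mem hx hy), ← map_add]
    rfl
  · intro x y hx hy
    rw [vK_nonneg34] at hx hy
    rw [resK_of34 v0 hx, resK_of34 v0 hy, resK_of34 v0 (mul_mem hx hy), ← map_mul]
    rfl
  · intro c
    rw [hk, resK_C34]
    rfl
  · intro x hx
    rw [vK_nonneg34] at hx
    rw [vK_pos34, resK_of34 v0 hx, residue_zero34]
  · intro y
    obtain ⟨x, rfl⟩ := IsLocalRing.residue_surjective y
    exact ⟨x, (vK_nonneg34 v0 _).2 x.2, resK_of34 v0 x.2⟩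

private theorem iota_eq34 (hX : v0.valuation K (algebraMap F[X] K X) < 1) (g : F[X]) :
    resK34 K v0 (algebraMap F[X] K g) = iota34 F K v0 (g.coeff 0) := by
  have h1 : algebraMap F[X] K g = algebraMap B K (algebraMap F[X] B g) := IsScalarTower.algebraMap_apply F[X] B K g
  have h2 : resB34 K v0 (algebraMap F[X] B X) = 0 := by
    have h3 : resK34 K v0 (algebraMap F[X] K X) = 0 := by
      rw [resK_of34 v0 (le_of_lt hX), residue_zero34]
      exact hX
    rw [← h3, IsScalarTower.algebraMap_apply F[X] B K, resK_B34]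
  rw [h1, resK_B34]
  conv_lhs => rw [← X_mul_divX_add g]
  rw [map_add, map_mul, map_add, map_mul, h2, zero_mul, zero_add]
  rfl

private theorem indep34 (hX : v0.valuation K (algebraMap F[X] K X) < 1) {ι : Type u} (y : ι → IsLocalRing.ResidueField (OO K v0))
    (hy : ∀ (s : Finset ι) (c : ι → F), ∑ i ∈ s, iota34 F K v0 (c i) * y i = 0 → ∀ i ∈ s, c i = 0) (x : ι → K)
    (hx : ∀ i, x i ∈ OO K v0) (hxy : ∀ i, resK34 K v0 (x i) = y i)
    (hinj : Function.Injective (algebraMap F[X] K)) (s : Finset ι) :
    ∀ (n : ℕ) (g : ι → F[X]), ∑ i ∈ s, algebraMap F[X] K (g i) * x i = 0 → ∀ i ∈ s, X ^ n ∣ g i := by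
  intro n
  induction n with
  | zero =>
    intro g _ i _
    simp
  | succ n ih =>
    intro g hg i hi
    have hmem : ∀ i, algebraMap F[X] K (g i) ∈ OO K v0 := by
      intro i
      rw [IsScalarTower.algebraMap_apply F[X] B K]
      exact v0.valuation_le_one _
    have h1 : ∑ i ∈ s, iota34 F K v0 ((g i).coeff 0) * y i = 0 := by
      have h2 : IsLocalRing.residue (OO K v0) (∑ i ∈ s, (⟨algebraMap F[X] K (g i), hmem i⟩ : OO K v0) * ⟨x i, hx i⟩) = 0 := by
        have h3 : (∑ i ∈ s, (⟨algebraMap F[X] K (g i), hmem i⟩ : OO K v0) * ⟨x i, hx i⟩) = 0 := by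
          apply Subtype.ext
          rw [AddSubmonoidClass.coe_finsetSum]
          exact hg
        rw [h3, map_zero]
      rw [map_sum] at h2
      rw [← h2]
      refine Finset.sum_congr rfl fun j _ => ?_
      rw [map_mul, ← resK_of34 v0 (hmem j), ← resK_of34 v0 (hx j), iota_eq34 v0 hX, hxy]
    have h4 : ∀ j ∈ s, X ∣ g j := fun j hj => X_dvd_iff.2 (hy s _ h1 j hj)
    have h5 : ∀ j, j ∈ s → g j = X * (g j).divX := by
      intro j hj
      have := X_mul_divX_add (g j)
      rw [X_dvd_iff.1 (h4 j hj), C_0, add_zero] at this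
      exact this.symm
    have h6 : ∑ i ∈ s, algebraMap F[X] K ((g i).divX) * x i = 0 := by
      have h7 : algebraMap F[X] K X * ∑ i ∈ s, algebraMap F[X] K ((g i).divX) * x i = 0 := by
        rw [← hg, Finset.mul_sum]
        refine Finset.sum_congr rfl fun j hj => ?_
        conv_rhs => rw [h5 j hj]
        rw [map_mul]
        ring
      rcases mul_eq_zero.1 h7 with h8 | h8
      · exact absurd (hinj (h8.trans (map_zero _).symm)) X_ne_zero
      · exact h8
    rw [h5 i hi, pow_succ']
    exact mul_dvd_mul_left _ (ih _ h6 i hi)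

private theorem iota_finite34 [Algebra (FractionRing F[X]) K] [IsScalarTower F[X] (FractionRing F[X]) K]
    [FiniteDimensional (FractionRing F[X]) K] (hX : v0.valuation K (algebraMap F[X] K X) < 1) :
    (iota34 F K v0).Finite := by
  have hinj : Function.Injective (algebraMap F[X] K) := by
    rw [IsScalarTower.algebraMap_eq F[X] (FractionRing F[X]) K]
    exact (algebraMap (FractionRing F[X]) K).injective.comp (IsFractionRing.injective F[X] (FractionRing F[X]))
  letI : Algebra F (IsLocalRing.ResidueField (OO K v0)) := (iota34 F K v0).toAlgebra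
  show Module.Finite F (IsLocalRing.ResidueField (OO K v0))
  let b := Basis.ofVectorSpace F (IsLocalRing.ResidueField (OO K v0))
  have hsur : ∀ i, ∃ x : OO K v0, IsLocalRing.residue (OO K v0) x = b i := fun i => IsLocalRing.residue_surjective _
  choose x hx using hsur
  have hli : LinearIndependent F[X] fun i => (x i : K) := by
    rw [linearIndependent_iff']
    intro s g hg i hi
    have hg' : ∑ i ∈ s, algebraMap F[X] K (g i) * (x i : K) = 0 := by
      rw [← hg]
      exact Finset.sum_congr rfl fun j _ => (Algebra.smul_def _ _).symm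
    have h1 := indep34 v0 hX (fun i => b i) (by
      intro s c hc
      refine linearIndependent_iff'.1 b.linearIndependent s c ?_
      rw [← hc]
      exact Finset.sum_congr rfl fun j _ => Algebra.smul_def _ _) (fun i => (x i : K)) (fun i => (x i).2)
      (fun i => by rw [resK_of34 v0 (x i).2, ← hx i]) hinj s ((g i).natDegree + 1) g hg' i hi
    by_contra hne
    have h2 := natDegree_le_of_dvd h1 hne
    rw [natDegree_X_pow] at h2
    omega
  have hli' : LinearIndependent (FractionRing F[X]) fun i => (x i : K) :=
    (LinearIndependent.iff_fractionRing F[X] (FractionRing F[X])).1 hli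
  haveI : Finite (Basis.ofVectorSpaceIndex F (IsLocalRing.ResidueField (OO K v0))) := hli'.finite
  exact Module.Finite.of_basis b

end

private theorem dvr_main34 {k F K : Type u} [Field k] [Field F] [CharZero F] [Algebra k F] [Field K] [Algebra k K]
    (g : FractionRing F[X] →+* K) (hg : g.Finite)
    (hk : ∀ c : k, g (algebraMap F[X] (FractionRing F[X]) (C (algebraMap k F c))) = algebraMap k K c) :
    ∃ (κ : Type u) (_ : Field κ) (_ : Algebra k κ) (ι : F →+* κ), ι.Finite ∧ (∀ c, ι (algebraMap k F c) = algebraMap k κ c) ∧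
      Nonempty (DV k K κ) := by
  letI : Algebra (FractionRing F[X]) K := g.toAlgebra
  letI : Algebra F[X] K := (g.comp (algebraMap F[X] (FractionRing F[X]))).toAlgebra
  haveI : IsScalarTower F[X] (FractionRing F[X]) K := IsScalarTower.of_algebraMap_eq fun _ => rfl
  haveI : FiniteDimensional (FractionRing F[X]) K := hg
  haveI : CharZero (FractionRing F[X]) :=
    charZero_of_injective_algebraMap (IsFractionRing.injective F[X] (FractionRing F[X]))
  haveI : IsFractionRing (integralClosure F[X] K) K :=
    integralClosure.isFractionRing_of_finite_extension (FractionRing F[X]) K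
  haveI : FaithfulSMul F[X] (integralClosure F[X] K) := by
    rw [faithfulSMul_iff_algebraMap_injective]
    have h1 : Function.Injective (algebraMap F[X] K) := by
      rw [IsScalarTower.algebraMap_eq F[X] (FractionRing F[X]) K]
      exact (algebraMap (FractionRing F[X]) K).injective.comp (IsFractionRing.injective F[X] (FractionRing F[X]))
    intro x y hxy
    refine h1 ?_
    rw [IsScalarTower.algebraMap_apply F[X] (integralClosure F[X] K) K, hxy,
      ← IsScalarTower.algebraMap_apply F[X] (integralClosure F[X] K) K]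
  haveI : (Ideal.span {(X : F[X])}).IsMaximal := PrincipalIdealRing.isMaximal_of_irreducible irreducible_X
  obtain ⟨Q, hQm, hQ⟩ := Ideal.exists_ideal_over_maximal_of_isIntegral (S := integralClosure F[X] K) (Ideal.span {(X : F[X])})
    (by
      rw [(RingHom.injective_iff_ker_eq_bot _).1 (FaithfulSMul.algebraMap_injective F[X] (integralClosure F[X] K))]
      exact bot_le)
  have hXQ : algebraMap F[X] (integralClosure F[X] K) X ∈ Q := by
    rw [← Ideal.mem_comap, hQ]
    exact Ideal.mem_span_singleton_self X
  have hQ0 : Q ≠ ⊥ := by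
    rintro rfl
    rw [Ideal.mem_bot] at hXQ
    exact X_ne_zero (FaithfulSMul.algebraMap_injective F[X] (integralClosure F[X] K) (hXQ.trans (map_zero _).symm))
  let v0 : HeightOneSpectrum (integralClosure F[X] K) := ⟨Q, hQm.isPrime, hQ0⟩
  have hX : v0.valuation K (algebraMap F[X] K X) < 1 := by
    rw [IsScalarTower.algebraMap_apply F[X] (integralClosure F[X] K) K]
    exact (v0.valuation_lt_one_iff_mem _).2 hXQ
  letI : Algebra k (IsLocalRing.ResidueField (OO K v0)) := ((iota34 F K v0).comp (algebraMap k F)).toAlgebra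
  exact ⟨IsLocalRing.ResidueField (OO K v0), inferInstance, inferInstance, iota34 F K v0, iota_finite34 v0 hX, fun c => rfl,
    dv34 v0 fun c => (hk c).symm⟩

private theorem setup34 (w : ℕ) {k K : Type u} [Field k] [Field K] [Algebra k K] (h : FinOver (w + 1) k K) :
    ∃ g : FractionRing (FractionRing (MvPolynomial (Fin w) k))[X] →+* K, g.Finite ∧
      ∀ c : k, g (algebraMap (FractionRing (MvPolynomial (Fin w) k))[X] _
        (C (algebraMap k (FractionRing (MvPolynomial (Fin w) k)) c))) = algebraMap k K c := by
  obtain ⟨φ, hφ⟩ := h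
  set E := MvPolynomial.finSuccEquiv k w with hE
  let ψ : (MvPolynomial (Fin w) k)[X] →+* K :=
    φ.toRingHom.comp ((algebraMap (MvPolynomial (Fin (w + 1)) k) (FractionRing (MvPolynomial (Fin (w + 1)) k))).comp
      (E.symm : (MvPolynomial (Fin w) k)[X] →+* MvPolynomial (Fin (w + 1)) k))
  have hψ0 : ∀ q, ψ q = φ (algebraMap (MvPolynomial (Fin (w + 1)) k) (FractionRing (MvPolynomial (Fin (w + 1)) k)) (E.symm q)) :=
    fun _ => rfl
  have hψ : Function.Injective ψ := by
    intro x y hxy
    exact E.symm.injective (IsFractionRing.injective _ (FractionRing (MvPolynomial (Fin (w + 1)) k))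
      (φ.toRingHom.injective hxy))
  have hψC : Function.Injective (ψ.comp C) := hψ.comp C_injective
  let a : FractionRing (MvPolynomial (Fin w) k) →+* K := IsFractionRing.lift hψC
  have ha : ∀ r : MvPolynomial (Fin w) k, a (algebraMap _ _ r) = ψ (C r) := fun r => IsFractionRing.lift_algebraMap hψC r
  let e : (FractionRing (MvPolynomial (Fin w) k))[X] →+* K := eval₂RingHom a (ψ X)
  have he : ∀ q : (MvPolynomial (Fin w) k)[X], e (q.map (algebraMap _ _)) = ψ q := by
    intro q
    show eval₂ a (ψ X) (q.map (algebraMap _ _)) = ψ q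
    rw [eval₂_map]
    have h1 : a.comp (algebraMap (MvPolynomial (Fin w) k) (FractionRing (MvPolynomial (Fin w) k))) = ψ.comp C :=
      RingHom.ext ha
    rw [h1]
    exact (hom_eval₂ q C ψ X).symm.trans (by rw [eval₂_C_X])
  have hinj : Function.Injective e := by
    rw [injective_iff_map_eq_zero]
    intro p hp
    obtain ⟨b, hb0, hb⟩ := IsLocalization.integerNormalization_spec (nonZeroDivisors (MvPolynomial (Fin w) k)) p
    have h1 : ψ (IsLocalization.integerNormalization (nonZeroDivisors (MvPolynomial (Fin w) k)) p) = 0 := by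
      rw [← he, hb, Algebra.smul_def, map_mul, hp, mul_zero]
    have h2 := hψ (h1.trans (map_zero _).symm)
    rw [h2, Polynomial.map_zero] at hb
    rcases smul_eq_zero.1 hb.symm with h3 | h3
    · exact absurd h3 (nonZeroDivisors.ne_zero hb0)
    · exact h3
  refine ⟨IsFractionRing.lift hinj, ?_, ?_⟩
  · let θ0 : MvPolynomial (Fin (w + 1)) k →+* FractionRing (FractionRing (MvPolynomial (Fin w) k))[X] :=
      (algebraMap (FractionRing (MvPolynomial (Fin w) k))[X] _).comp ((mapRingHom (algebraMap (MvPolynomial (Fin w) k) _)).comp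
        (E : MvPolynomial (Fin (w + 1)) k →+* (MvPolynomial (Fin w) k)[X]))
    have hθ0 : Function.Injective θ0 := by
      intro x y hxy
      exact E.injective (map_injective _ (IsFractionRing.injective (MvPolynomial (Fin w) k) (FractionRing (MvPolynomial (Fin w) k)))
        (IsFractionRing.injective (FractionRing (MvPolynomial (Fin w) k))[X] (FractionRing (FractionRing (MvPolynomial (Fin w) k))[X])
          hxy))
    have hc : (IsFractionRing.lift hinj).comp (IsFractionRing.lift hθ0) = φ.toRingHom := by
      refine IsLocalization.ringHom_ext (nonZeroDivisors (MvPolynomial (Fin (w + 1)) k)) ?_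
      refine RingHom.ext fun p => ?_
      have h1 : θ0 p = algebraMap (FractionRing (MvPolynomial (Fin w) k))[X] (FractionRing (FractionRing (MvPolynomial (Fin w) k))[X])
          ((E p).map (algebraMap (MvPolynomial (Fin w) k) (FractionRing (MvPolynomial (Fin w) k)))) := rfl
      have h2 : (IsFractionRing.lift hinj) (θ0 p) = φ (algebraMap (MvPolynomial (Fin (w + 1)) k)
          (FractionRing (MvPolynomial (Fin (w + 1)) k)) p) := by
        rw [h1, IsFractionRing.lift_algebraMap hinj, he, hψ0, E.symm_apply_apply]
      rw [RingHom.comp_apply, RingHom.comp_apply, IsFractionRing.lift_algebraMap hθ0, h2]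
      rfl
    have h3 : ((IsFractionRing.lift hinj).comp (IsFractionRing.lift (K := FractionRing (MvPolynomial (Fin (w + 1)) k)) hθ0)).Finite := by
      rw [hc]
      exact hφ
    exact RingHom.Finite.of_comp_finite h3
  · intro c
    rw [IsFractionRing.lift_algebraMap]
    show eval₂ a (ψ X) (C _) = _
    rw [eval₂_C, IsScalarTower.algebraMap_apply k (MvPolynomial (Fin w) k), ha]
    have h1 : E.symm (C (algebraMap k (MvPolynomial (Fin w) k) c)) = algebraMap k (MvPolynomial (Fin (w + 1)) k) c :=
      E.symm.commutes c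
    rw [hψ0, h1, ← IsScalarTower.algebraMap_apply k (MvPolynomial (Fin (w + 1)) k)
      (FractionRing (MvPolynomial (Fin (w + 1)) k)), φ.commutes]

theorem exists_dv (w : ℕ) {k K : Type u} [Field k] [CharZero k] [Field K] [Algebra k K] (h : FinOver (w + 1) k K) :
    ∃ (κ : Type u) (_ : Field κ) (_ : Algebra k κ), FinOver w k κ ∧ Nonempty (DV k K κ) := by
  obtain ⟨g, hg, hk⟩ := setup34 w h
  haveI : CharZero (FractionRing (MvPolynomial (Fin w) k)) :=
    charZero_of_injective_algebraMap (algebraMap k (FractionRing (MvPolynomial (Fin w) k))).injective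
  obtain ⟨κ, i1, i2, ι, hι, hιk, hD⟩ := dvr_main34 g hg hk
  exact ⟨κ, i1, i2, ⟨⟨ι, hιk⟩, hι⟩, hD⟩

end Pool.Agent.SQ
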