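import Pool.Agent.Helper42.SQ.GRG
import Pool.Agent.Helper42.SQ.DVR

/-!
# SQ, block BMG: the inequality of Brunn and Minkowski for several subspaces
-/

set_option autoImplicit false

namespace Pool.Agent.SQ

open Module

universe u

theorem finite_of_finOver5 {k K : Type*} [Field k] [Field K] [Algebra k K] (h : FinOver 0 k K) :
    FiniteDimensional k K := by
  obtain ⟨φ, hφ⟩ := h
  have hs : Function.Surjective
      (algebraMap k (FractionRing (MvPolynomial (Fin 0) k))) := by
    intro z
    obtain ⟨a, b, hb, rfl⟩ := IsFractionRing.div_surjective (A := MvPolynomial (Fin 0) k) z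
    obtain ⟨a0, ha0⟩ : ∃ a0 : k, MvPolynomial.C a0 = a :=
      MvPolynomial.C_surjective (Fin 0) a
    obtain ⟨b0, hb0⟩ : ∃ b0 : k, MvPolynomial.C b0 = b :=
      MvPolynomial.C_surjective (Fin 0) b
    refine ⟨a0 / b0, ?_⟩
    rw [map_div₀, ← ha0, ← hb0]
    rfl
  have h1 : (algebraMap k (FractionRing (MvPolynomial (Fin 0) k))).Finite :=
    RingHom.Finite.of_surjective _ hs
  have h2 := hφ.comp h1
  have h3 : (φ.toRingHom.comp (algebraMap k (FractionRing (MvPolynomial (Fin 0) k)))) =
      algebraMap k K := φ.comp_algebraMap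
  rw [h3] at h2
  exact RingHom.finite_algebraMap.1 h2

/-- the start of the induction -/
theorem bm_zeroG5 {k K : Type*} [Field k] [Field K] [Algebra k K] [FiniteDimensional k K]
    (G : Type*) [Fintype G] [Nonempty G] (A : G → Submodule k K) : BMAtG 0 G (⊤ : Submodule k K) A := by
  classical
  have hr : (0 : ℝ) < Fintype.card G := by exact_mod_cast Fintype.card_pos
  unfold BMAtG
  rw [pow_zero, one_mul]
  by_cases h0 : ∃ g, A g = ⊥
  · obtain ⟨g, hg⟩ := h0
    have h1 : ∏ g, (finrank k (A g) : ℝ) = 0 := by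
      apply Finset.prod_eq_zero (Finset.mem_univ g)
      rw [hg, finrank_bot, Nat.cast_zero]
    rw [h1, Real.zero_rpow (by positivity)]
    exact Nat.cast_nonneg _
  · push Not at h0
    have h1 : ∀ s : Finset G, ∃ a ∈ ∏ g ∈ s, A g, a ≠ 0 := by
      intro s
      induction s using Finset.induction_on with
      | empty =>
        rw [Finset.prod_empty]
        exact ⟨1, Submodule.one_le.1 le_rfl, one_ne_zero⟩
      | insert g s hg ih =>
        obtain ⟨a, ha, ha0⟩ := ih
        obtain ⟨b, hb, hb0⟩ := Submodule.exists_mem_ne_zero_of_ne_bot (h0 g)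
        rw [Finset.prod_insert hg]
        exact ⟨b * a, Submodule.mul_mem_mul hb ha, mul_ne_zero hb0 ha0⟩
    obtain ⟨a, ha, ha0⟩ := h1 Finset.univ
    have htop : (∏ g, A g) * (⊤ : Submodule k K) = ⊤ := by
      rw [eq_top_iff]
      intro z _
      have h2 : z = a * (a⁻¹ * z) := by rw [← mul_assoc, mul_inv_cancel₀ ha0, one_mul]
      rw [h2]
      exact Submodule.mul_mem_mul ha Submodule.mem_top
    rw [htop, finrank_top]
    have h2 : ∏ g, (finrank k (A g) : ℝ) ≤ (finrank k K : ℝ) ^ Fintype.card G := by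
      have h3 : ∏ g, (finrank k (A g) : ℝ) ≤ ∏ _g : G, (finrank k K : ℝ) :=
        Finset.prod_le_prod (fun g _ => Nat.cast_nonneg _) fun g _ => by
          exact_mod_cast Submodule.finrank_le (A g)
      rwa [Finset.prod_const, Finset.card_univ] at h3
    calc (∏ g, (finrank k (A g) : ℝ)) ^ (1 / (Fintype.card G : ℝ)) ≤
          ((finrank k K : ℝ) ^ Fintype.card G) ^ (1 / (Fintype.card G : ℝ)) :=
          Real.rpow_le_rpow (Finset.prod_nonneg fun g _ => Nat.cast_nonneg _) h2 (by positivity)
      _ = finrank k K := by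
          rw [← Real.rpow_natCast, ← Real.rpow_mul (Nat.cast_nonneg _), mul_one_div_cancel hr.ne',
            Real.rpow_one]

/-- **BLOCK BMG** -/
theorem bmG (w : ℕ) {k K : Type u} [Field k] [CharZero k] [Field K] [Algebra k K] (h : FinOver w k K)
    (G : Type*) [Fintype G] [Nonempty G] :
    ∃ Q : Submodule k K, FiniteDimensional k Q ∧
      ∀ A : G → Submodule k K, (∀ g, FiniteDimensional k (A g)) → BMAtG w G Q A := by
  induction w generalizing K with
  | zero =>
    have := finite_of_finOver5 h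
    exact ⟨⊤, inferInstance, fun A _ => bm_zeroG5 G A⟩
  | succ w ih =>
    obtain ⟨κ, _, _, hκ, ⟨D⟩⟩ := exists_dv w h
    obtain ⟨Q', hQ', hbm⟩ := ih hκ
    exact bm_stepG w D Q' hbm

end Pool.Agent.SQ
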