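import Pool.Agent.Helper42.SQ.BM2A
import Pool.Agent.Helper42.SQ.BMG

/-!
# SQ, block BM2G: the inequality of Brunn and Minkowski for the powers of a subspace, several factors
(following helper30's proof of BM2)
-/

set_option autoImplicit false

namespace Pool.Agent.SQ

open Module

universe u

section

variable {k K : Type u} [Field k] [Field K] [Algebra k K]

/-- the line spanned by an element -/
private noncomputable def bm2S5 (x : K) : Submodule k K := Submodule.span k {x}

private theorem bm2S5_mul (x y : K) : bm2S5 (k := k) x * bm2S5 y = bm2S5 (x * y) := by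
  unfold bm2S5
  rw [Submodule.span_mul_span, Set.singleton_mul_singleton]

private theorem bm2S5_one : bm2S5 (k := k) (1 : K) = 1 := by
  unfold bm2S5
  exact Submodule.one_eq_span.symm

private theorem bm2S5_pow (x : K) (n : ℕ) : bm2S5 (k := k) x ^ n = bm2S5 (x ^ n) := by
  induction n with
  | zero => rw [pow_zero, pow_zero, bm2S5_one]
  | succ n ih => rw [pow_succ, pow_succ, ih, bm2S5_mul]

private theorem bm2S5_eq (x : K) (A : Submodule k K) : bm2S5 x * A = A.map (LinearMap.mulLeft k x) := by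
  apply le_antisymm
  · rw [Submodule.mul_le]
    intro a ha b hb
    unfold bm2S5 at ha
    obtain ⟨c, rfl⟩ := Submodule.mem_span_singleton.1 ha
    refine ⟨c • b, A.smul_mem c hb, ?_⟩
    rw [LinearMap.mulLeft_apply, mul_smul_comm, smul_mul_assoc]
  · rintro _ ⟨a, ha, rfl⟩
    exact Submodule.mul_mem_mul (Submodule.mem_span_singleton_self x) ha

private theorem bm2S5_finrank (x : K) (hx : x ≠ 0) (A : Submodule k K) :
    finrank k ↥(bm2S5 (k := k) x * A) = finrank k ↥A := by
  rw [bm2S5_eq]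
  have hinj : Function.Injective (LinearMap.mulLeft k x) := fun a b hab => by
    rw [LinearMap.mulLeft_apply, LinearMap.mulLeft_apply] at hab
    exact mul_left_cancel₀ hx hab
  exact ((Submodule.equivMapOfInjective _ hinj A).finrank_eq).symm

/-- elements of the algebra generated by a subspace containing `1` lie in some power -/
private theorem bm2_adjoin5 (S : Submodule k K) (h1 : (1 : K) ∈ S) (T : Set K) (hT : T ⊆ S) {x : K}
    (hx : x ∈ Algebra.adjoin k T) : ∃ q : ℕ, x ∈ S ^ q := by
  have h1' : (1 : Submodule k K) ≤ S := Submodule.one_le.2 h1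
  induction hx using Algebra.adjoin_induction with
  | mem x hx => exact ⟨1, by rw [pow_one]; exact hT hx⟩
  | algebraMap c => exact ⟨0, by rw [pow_zero]; exact Submodule.algebraMap_mem c⟩
  | add x y _ _ hx hy =>
    obtain ⟨a, ha⟩ := hx
    obtain ⟨b, hb⟩ := hy
    exact ⟨max a b, add_mem (pow_le_pow_right' h1' (le_max_left a b) ha) (pow_le_pow_right' h1' (le_max_right a b) hb)⟩
  | mul x y _ _ hx hy =>
    obtain ⟨a, ha⟩ := hx
    obtain ⟨b, hb⟩ := hy
    exact ⟨a + b, by rw [pow_add]; exact Submodule.mul_mem_mul ha hb⟩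

/-- a common denominator of a finite set of the field generated by `T` -/
private theorem bm2_den5 (S : Submodule k K) (h1 : (1 : K) ∈ S) (T : Set K) (hT : T ⊆ S) (Y : Finset K)
    (hY : ∀ y ∈ Y, y ∈ IntermediateField.adjoin k T) :
    ∃ D ∈ Algebra.adjoin k T, D ≠ 0 ∧ ∃ q : ℕ, ∀ y ∈ Y, D * y ∈ S ^ q := by
  classical
  have h1' : (1 : Submodule k K) ≤ S := Submodule.one_le.2 h1
  induction Y using Finset.induction_on with
  | empty => exact ⟨1, one_mem _, one_ne_zero, 0, by simp⟩
  | insert y Y hy ih =>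
    obtain ⟨D, hD, hD0, q, hq⟩ := ih fun z hz => hY z (Finset.mem_insert_of_mem hz)
    obtain ⟨a, ha, b, hb, hab⟩ := IntermediateField.mem_adjoin_iff_div.1 (hY y (Finset.mem_insert_self _ _))
    obtain ⟨r, hr⟩ := bm2_adjoin5 S h1 T hT hD
    by_cases hb0 : b = 0
    · refine ⟨D, hD, hD0, q, fun z hz => ?_⟩
      rcases Finset.mem_insert.1 hz with rfl | hz
      · rw [hab, hb0, div_zero, mul_zero]; exact Submodule.zero_mem _
      · exact hq z hz
    · obtain ⟨s, hs⟩ := bm2_adjoin5 S h1 T hT ha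
      obtain ⟨t, ht⟩ := bm2_adjoin5 S h1 T hT hb
      refine ⟨D * b, mul_mem hD hb, mul_ne_zero hD0 hb0, r + s + q + t, fun z hz => ?_⟩
      rcases Finset.mem_insert.1 hz with rfl | hz
      · have e : D * b * z = D * a := by
          rw [hab]; field_simp
        rw [e]
        have h2 : D * a ∈ S ^ (r + s) := by rw [pow_add]; exact Submodule.mul_mem_mul hr hs
        exact pow_le_pow_right' h1' (by omega) h2
      · have e : D * b * z = (D * z) * b := by ring
        rw [e]
        have h2 : (D * z) * b ∈ S ^ (q + t) := by rw [pow_add]; exact Submodule.mul_mem_mul (hq z hz) ht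
        exact pow_le_pow_right' h1' (by omega) h2

private theorem bm2S5_prod {G : Type*} (s : Finset G) (x : G → K) :
    ∏ g ∈ s, bm2S5 (k := k) (x g) = bm2S5 (∏ g ∈ s, x g) := by
  classical
  induction s using Finset.induction_on with
  | empty => rw [Finset.prod_empty, Finset.prod_empty, bm2S5_one]
  | insert a s ha ih => rw [Finset.prod_insert ha, Finset.prod_insert ha, ih, bm2S5_mul]

private theorem map_prod5 {F : Type u} [Field F] [Algebra k F] (ι : F →ₐ[k] K) {G : Type*}
    (s : Finset G) (A : G → Submodule k F) :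
    (∏ g ∈ s, A g).map ι.toLinearMap = ∏ g ∈ s, (A g).map ι.toLinearMap := by
  classical
  induction s using Finset.induction_on with
  | empty =>
    rw [Finset.prod_empty, Finset.prod_empty]
    exact Submodule.map_one ι
  | insert a s ha ih =>
    rw [Finset.prod_insert ha, Finset.prod_insert ha, ← ih]
    exact Submodule.map_mul _ _ ι

end

/-- **BLOCK BM2G** -/
theorem bm2G {k K : Type u} [Field k] [CharZero k] [Field K] [Algebra k K]
    (G : Type*) [Fintype G] [Nonempty G]
    (W : Submodule k K) [FiniteDimensional k W] (hW : W ≠ ⊥) : ∃ (w q C : ℕ) (Q : Submodule k K), Q ≤ W ^ q ∧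
      (∀ (m : G → ℕ) (A : G → Submodule k K), (∀ g, A g ≤ W ^ m g) → BMAtG w G Q A) ∧
      ∀ m : ℕ, finrank k ↥(W ^ m) ≤ C * (m + 1) ^ w := by
  classical
  obtain ⟨z0, hz0W, hz0⟩ := (Submodule.ne_bot_iff W).1 hW
  have hzi : z0⁻¹ ≠ 0 := inv_ne_zero hz0
  let S : Submodule k K := bm2S5 z0⁻¹ * W
  have hS1 : (1 : K) ∈ S := by
    have := Submodule.mul_mem_mul (Submodule.mem_span_singleton_self (R := k) z0⁻¹) hz0W
    rwa [inv_mul_cancel₀ hz0] at this
  have hWfg : W.FG := (Submodule.fg_iff_finiteDimensional W).2 inferInstance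
  have hSfg : S.FG := (Submodule.fg_span_singleton _).mul hWfg
  obtain ⟨T, hT⟩ := hSfg
  have hTS : (T : Set K) ⊆ S := by rw [← hT]; exact Submodule.subset_span
  obtain ⟨w, hw⟩ := bm2_finOver (k := k) T
  set F := IntermediateField.adjoin k (T : Set K) with hF
  have hSF : ∀ x ∈ S, x ∈ F := by
    intro x hx
    rw [← hT] at hx
    have h2 : Submodule.span k (T : Set K) ≤ F.toSubalgebra.toSubmodule := Submodule.span_le.2
      (IntermediateField.subset_adjoin k (T : Set K))
    exact h2 hx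
  let ι : F →ₐ[k] K := F.val
  have hι : Function.Injective ι := Subtype.val_injective
  have hr : LinearMap.range ι.toLinearMap = F.toSubalgebra.toSubmodule := by
    ext x
    constructor
    · rintro ⟨y, rfl⟩; exact y.2
    · intro hx; exact ⟨⟨x, hx⟩, rfl⟩
  have hSr : S ≤ LinearMap.range ι.toLinearMap := by rw [hr]; exact hSF
  have hSpow : ∀ m : ℕ, S ^ m ≤ LinearMap.range ι.toLinearMap := by
    intro m
    rw [hr]
    induction m with
    | zero =>
      rw [pow_zero, Submodule.one_le]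
      exact F.one_mem
    | succ m ih =>
      rw [pow_succ, Submodule.mul_le]
      intro a ha b hb
      exact F.mul_mem (ih ha) (hSF b hb)
  have hcm : ∀ A : Submodule k K, A ≤ LinearMap.range ι.toLinearMap →
      (A.comap ι.toLinearMap).map ι.toLinearMap = A := fun A hA => Submodule.map_comap_eq_of_le hA
  have hmr : ∀ A : Submodule k F, finrank k ↥(A.map ι.toLinearMap) = finrank k A := fun A =>
    ((Submodule.equivMapOfInjective ι.toLinearMap hι A).finrank_eq).symm
  have hmm : ∀ A B : Submodule k F, (A * B).map ι.toLinearMap = A.map ι.toLinearMap * B.map ι.toLinearMap :=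
    fun A B => Submodule.map_mul A B ι
  obtain ⟨Q1, hQ1, hbm⟩ := bmG w hw G
  have hfd : ∀ A : Submodule k K, FiniteDimensional k A → A ≤ LinearMap.range ι.toLinearMap →
      FiniteDimensional k ↥(A.comap ι.toLinearMap) := by
    intro A hA hle
    have h1 : FiniteDimensional k ↥((A.comap ι.toLinearMap).map ι.toLinearMap) := by rw [hcm A hle]; exact hA
    exact Module.Finite.equiv (Submodule.equivMapOfInjective ι.toLinearMap hι (A.comap ι.toLinearMap)).symm
  have hSd : FiniteDimensional k S := by rw [← hT]; exact FiniteDimensional.span_finset k T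
  have _ := hfd S hSd hSr
  obtain ⟨C, hC⟩ := growth w hw (S.comap ι.toLinearMap)
  obtain ⟨Y1, hY1⟩ := (Submodule.fg_iff_finiteDimensional Q1).2 hQ1
  obtain ⟨D, hD, hD0, q, hq⟩ := bm2_den5 S hS1 (T : Set K) hTS (Y1.image ι) (by
    intro y hy
    rw [Finset.mem_image] at hy
    obtain ⟨x, _, rfl⟩ := hy
    exact x.2)
  have hQq : bm2S5 D * Q1.map ι.toLinearMap ≤ S ^ q := by
    rw [← hY1, Submodule.map_span, bm2S5, Submodule.span_mul_span, Submodule.span_le]
    rintro _ ⟨a, ha, b, hb, rfl⟩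
    rw [Set.mem_singleton_iff] at ha
    subst ha
    obtain ⟨c, hc, rfl⟩ := hb
    exact hq _ (Finset.mem_image_of_mem ι hc)
  have hSm : ∀ m : ℕ, S ^ m = bm2S5 (z0⁻¹ ^ m) * W ^ m := by
    intro m
    rw [← bm2S5_pow, ← mul_pow]
  have hSW : ∀ m : ℕ, bm2S5 (z0 ^ m) * S ^ m = W ^ m := by
    intro m
    rw [hSm, ← mul_assoc, bm2S5_mul, ← mul_pow, mul_inv_cancel₀ hz0, one_pow, bm2S5_one, one_mul]
  have hrecov : ∀ (m : ℕ) (A : Submodule k K), bm2S5 (z0 ^ m) * (bm2S5 (z0⁻¹ ^ m) * A) = A := by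
    intro m A
    rw [← mul_assoc, bm2S5_mul, ← mul_pow, mul_inv_cancel₀ hz0, one_pow, bm2S5_one, one_mul]
  have hle : ∀ (m : ℕ) (A : Submodule k K), A ≤ W ^ m → bm2S5 (z0⁻¹ ^ m) * A ≤ LinearMap.range ι.toLinearMap := by
    intro m A hA
    refine le_trans ?_ (hSpow m)
    rw [hSm]
    exact mul_le_mul' le_rfl hA
  have hWd : ∀ m : ℕ, FiniteDimensional k ↥(W ^ m) := fun m =>
    (Submodule.fg_iff_finiteDimensional _).1 (hWfg.pow m)
  have hAd : ∀ (m : ℕ) (A : Submodule k K), A ≤ W ^ m → FiniteDimensional k ↥(bm2S5 (k := k) (z0⁻¹ ^ m) * A) := by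
    intro m A hA
    have _ := hWd m
    have hA' : FiniteDimensional k A := Submodule.finiteDimensional_of_le hA
    rw [bm2S5_eq]
    infer_instance
  refine ⟨w, q, C, bm2S5 (z0 ^ q * D) * Q1.map ι.toLinearMap, ?_, ?_, ?_⟩
  · rw [← bm2S5_mul, mul_assoc, ← hSW q]
    exact mul_le_mul' le_rfl hQq
  · intro m A hA
    have hA1 : ∀ g, ((bm2S5 (z0⁻¹ ^ m g) * A g).comap ι.toLinearMap).map ι.toLinearMap =
        bm2S5 (z0⁻¹ ^ m g) * A g := fun g => hcm _ (hle (m g) (A g) (hA g))
    have h := hbm (fun g => (bm2S5 (z0⁻¹ ^ m g) * A g).comap ι.toLinearMap)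
      fun g => hfd _ (hAd (m g) (A g) (hA g)) (hle (m g) (A g) (hA g))
    unfold BMAtG at h ⊢
    have e1 : ∀ g, finrank k ↥((bm2S5 (k := k) (z0⁻¹ ^ m g) * A g).comap ι.toLinearMap) =
        finrank k ↥(A g) := fun g => by
      rw [← hmr, hA1, bm2S5_finrank _ (pow_ne_zero _ hzi)]
    have e3 : (∏ g, A g) * (bm2S5 (z0 ^ q * D) * Q1.map ι.toLinearMap) =
        bm2S5 ((∏ g, z0 ^ m g) * (z0 ^ q * D)) *
          ((∏ g, (bm2S5 (z0⁻¹ ^ m g) * A g)) * Q1.map ι.toLinearMap) := by
      conv_lhs => rw [← Finset.prod_congr rfl fun g _ => hrecov (m g) (A g)]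
      rw [Finset.prod_mul_distrib, bm2S5_prod, ← bm2S5_mul (∏ g, z0 ^ m g) (z0 ^ q * D)]
      generalize ∏ g, bm2S5 (k := k) (z0⁻¹ ^ m g) * A g = A'
      ring
    have e4 : finrank k ↥((∏ g, A g) * (bm2S5 (k := k) (z0 ^ q * D) * Q1.map ι.toLinearMap)) =
        finrank k ↥((∏ g, (bm2S5 (k := k) (z0⁻¹ ^ m g) * A g).comap ι.toLinearMap) * Q1) := by
      rw [e3, bm2S5_finrank _ (mul_ne_zero (Finset.prod_ne_zero_iff.2 fun g _ => pow_ne_zero _ hz0)
        (mul_ne_zero (pow_ne_zero _ hz0) hD0)), ← hmr, hmm, map_prod5]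
      rw [Finset.prod_congr rfl fun g _ => hA1 g]
    simp only [e1] at h
    rw [e4]
    exact h
  · intro m
    have e : ((S.comap ι.toLinearMap) ^ m).map ι.toLinearMap = S ^ m := by
      induction m with
      | zero =>
        rw [pow_zero, pow_zero]
        exact Submodule.map_one ι
      | succ m ih => rw [pow_succ, pow_succ, hmm, ih, hcm S hSr]
    have := hC m
    rw [← hmr, e] at this
    rw [← hSW m, bm2S5_finrank _ (pow_ne_zero _ hz0)]
    exact this

end Pool.Agent.SQ
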