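import Pool.Agent.Helper42.SQ.BMg
import Pool.Agent.Helper42.SQ.BM2G

/-!
# SQ, stage 2, block BM2g
-/

set_option autoImplicit false

namespace Pool.Agent.SQ

open Module

universe u

/-- **BLOCK BM2g** -/
theorem bm2_g {g : ℕ} (hg : 0 < g) {k K : Type u} [Field k] [CharZero k] [Field K] [Algebra k K] (W : Submodule k K)
    [FiniteDimensional k W] (hW : W ≠ ⊥) : ∃ (w q C : ℕ) (Q : Submodule k K), Q ≤ W ^ q ∧
      (∀ (m : Fin g → ℕ) (A : Fin g → Submodule k K), (∀ i, A i ≤ W ^ m i) → BMg g w Q A) ∧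
      ∀ m : ℕ, finrank k ↥(W ^ m) ≤ C * (m + 1) ^ w := by
  have : Nonempty (Fin g) := ⟨⟨0, hg⟩⟩
  obtain ⟨w, q, C, Q, h1, h2, h3⟩ := bm2G (Fin g) W hW
  exact ⟨w, q, C, Q, h1, fun m A hA => (bmg_iff5 hg w Q A).1 (h2 m A hA), h3⟩

end Pool.Agent.SQ
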