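import Mathlib

/-!
# SQ, stage 2, block GROg: sequences of polynomial growth
-/

set_option autoImplicit false

namespace Pool.Agent.SQ

theorem gro_g {g : ℕ} (hg : 0 < g) (D : ℕ → ℕ) (hD : ∀ m, 1 ≤ D m) (w C : ℕ) (hC : ∀ m, D m ≤ C * (m + 1) ^ w) (q : ℕ)
    {ε : ℝ} (hε : 0 < ε) (m0 : ℕ) : ∃ m ≥ m0, (D (g * m + q) : ℝ) ≤ (1 + ε) * g ^ w * D m := by
  by_contra hcon
  push Not at hcon
  have hg' : (0 : ℝ) < g := by exact_mod_cast hg
  obtain ⟨M, hM0, hMs⟩ : ∃ M : ℕ → ℕ, M 0 = m0 ∧ ∀ j, M (j + 1) = g * M j + q :=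
    ⟨fun j => Nat.rec m0 (fun _ x => g * x + q) j, rfl, fun _ => rfl⟩
  have hMge : ∀ j, m0 ≤ M j := by
    intro j
    induction j with
    | zero => rw [hM0]
    | succ j ih => rw [hMs]; nlinarith
  have hMup : ∀ j, M j + 1 ≤ g ^ j * (m0 + 1 + j * q) := by
    intro j
    induction j with
    | zero => rw [hM0]; simp
    | succ j ih =>
      have h1 : 1 ≤ g ^ (j + 1) := Nat.one_le_pow _ _ hg
      have h2 : g * (M j + 1) ≤ g * (g ^ j * (m0 + 1 + j * q)) := Nat.mul_le_mul_left g ih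
      have h3 : q ≤ g ^ (j + 1) * q := by nlinarith
      rw [hMs]
      calc g * M j + q + 1 ≤ g * (M j + 1) + q := by nlinarith
        _ ≤ g * (g ^ j * (m0 + 1 + j * q)) + g ^ (j + 1) * q := Nat.add_le_add h2 h3
        _ = g ^ (j + 1) * (m0 + 1 + (j + 1) * q) := by rw [pow_succ]; ring
  have hlow : ∀ j, ((1 + ε) * g ^ w) ^ j ≤ (D (M j) : ℝ) := by
    intro j
    induction j with
    | zero =>
      rw [pow_zero]
      exact_mod_cast hD _
    | succ j ih =>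
      rw [hMs, pow_succ, mul_comm]
      refine le_trans ?_ (hcon (M j) (hMge j)).le
      exact mul_le_mul_of_nonneg_left ih (by positivity)
  have hup : ∀ j : ℕ, (D (M j) : ℝ) ≤ C * (m0 + 1 + q) ^ w * ((j : ℝ) + 1) ^ w * (g ^ w) ^ j := by
    intro j
    have h1 : (D (M j) : ℝ) ≤ C * ((M j : ℝ) + 1) ^ w := by exact_mod_cast hC (M j)
    have h2 : (M j : ℝ) + 1 ≤ g ^ j * (((m0 : ℝ) + 1 + q) * (j + 1)) := by
      have h3 : (M j : ℝ) + 1 ≤ g ^ j * ((m0 : ℝ) + 1 + j * q) := by exact_mod_cast hMup j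
      refine h3.trans (mul_le_mul_of_nonneg_left ?_ (by positivity))
      have h5 : (0 : ℝ) ≤ q := Nat.cast_nonneg q
      have h6 : (0 : ℝ) ≤ m0 := Nat.cast_nonneg m0
      have h7 : (0 : ℝ) ≤ j := Nat.cast_nonneg j
      nlinarith [mul_nonneg h6 h7]
    refine h1.trans ?_
    calc (C : ℝ) * ((M j : ℝ) + 1) ^ w ≤ C * (g ^ j * (((m0 : ℝ) + 1 + q) * (j + 1))) ^ w := by gcongr
      _ = C * (m0 + 1 + q) ^ w * ((j : ℝ) + 1) ^ w * (g ^ w) ^ j := by
        rw [mul_pow, mul_pow, ← pow_mul, ← pow_mul, mul_comm j w]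
        ring
  have hb : ∀ j : ℕ, (1 + ε) ^ j ≤ C * ((m0 : ℝ) + 1 + q) ^ w * ((j : ℝ) + 1) ^ w := by
    intro j
    have h1 := (hlow j).trans (hup j)
    rw [mul_pow] at h1
    exact le_of_mul_le_mul_right h1 (by positivity)
  have h1 : (1 : ℝ) < 1 + ε := by linarith
  have ht := (tendsto_pow_const_div_const_pow_of_one_lt w h1).comp (Filter.tendsto_add_atTop_nat 1)
  obtain ⟨B, hB⟩ : ∃ B : ℝ, B = C * ((m0 : ℝ) + 1 + q) ^ w := ⟨_, rfl⟩
  have hB0 : 0 ≤ B := by rw [hB]; positivity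
  have hpos : (0 : ℝ) < 1 / ((B + 1) * (1 + ε)) := by positivity
  obtain ⟨j, hj⟩ := (ht.eventually_lt_const hpos).exists
  have h2 := hb j
  rw [← hB] at h2
  simp only [Function.comp] at hj
  rw [div_lt_div_iff₀ (by positivity) (by positivity)] at hj
  push_cast at hj
  have h3 : (0 : ℝ) < (1 + ε) ^ j := by positivity
  have h4 : (0 : ℝ) ≤ ((j : ℝ) + 1) ^ w := by positivity
  rw [pow_succ] at hj
  have h5 : ((j : ℝ) + 1) ^ w * (B + 1) < (1 + ε) ^ j := by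
    have h6 : ((j : ℝ) + 1) ^ w * (B + 1) * (1 + ε) < (1 + ε) ^ j * (1 + ε) := by linarith
    exact lt_of_mul_lt_mul_right h6 (by linarith)
  nlinarith

end Pool.Agent.SQ
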