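import Pool.Agent.Helper42.SQ.Defs2

/-!
# SQ, block INV: descent to the invariants of a finite group by traces (helper27; idea of helper68)
-/

set_option autoImplicit false

namespace Pool.Agent.SQ

open Module Polynomial

universe u

section

variable {k K : Type*} [Field k] [Field K] [Algebra k K] {G : Type*} [Group G] (ρ : G →* (K ≃ₐ[k] K))

variable {ρ}

private theorem agree_pow {W : Submodule k K} {g h : G} (H : ∀ x ∈ W, ρ g x = ρ h x) (m : ℕ) : ∀ x ∈ W ^ m, ρ g x = ρ h x := by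
  intro x hx
  induction hx using Submodule.pow_induction_on_left' with
  | algebraMap r => rw [AlgEquiv.commutes, AlgEquiv.commutes]
  | add x y i hx hy h1 h2 => rw [map_add, map_add, h1, h2]
  | mem_mul a ha i x hx h1 => rw [map_mul, map_mul, h1, H a ha]

private theorem stable_pow {W : Submodule k K} (hW : ∀ g, ∀ x ∈ W, ρ g x ∈ W) (g : G) (m : ℕ) : ∀ x ∈ W ^ m, ρ g x ∈ W ^ m := by
  intro x hx
  induction hx using Submodule.pow_induction_on_left' with
  | algebraMap r => rw [AlgEquiv.commutes, pow_zero]; exact Submodule.algebraMap_mem r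
  | add x y i hx hy h1 h2 => rw [map_add]; exact Submodule.add_mem _ h1 h2
  | mem_mul a ha i x hx h1 => rw [map_mul, pow_succ']; exact Submodule.mul_mem_mul (hW g a ha) h1

private theorem exists_gen27 [CharZero k] [Fintype G] (W : Submodule k K) :
    ∃ a ∈ W, ∀ g h, ρ g a = ρ h a → ∀ x ∈ W, ρ g x = ρ h x := by
  classical
  have hinf : Infinite k := CharZero.infinite k
  obtain ⟨p, hp⟩ : ∃ p : G × G → Submodule k W, ∀ q, ∀ x : W, x ∈ p q ↔ ρ q.1 (x : K) = ρ q.2 (x : K) :=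
    ⟨fun q => LinearMap.ker (((ρ q.1).toLinearMap - (ρ q.2).toLinearMap).comp W.subtype), fun q x => by
      rw [LinearMap.mem_ker]
      simp [sub_eq_zero]⟩
  obtain ⟨s, hs⟩ : ∃ s : Finset (Submodule k W), s = (Finset.univ.image p).erase ⊤ := ⟨_, rfl⟩
  have h1 := Subspace.biUnion_ne_univ_of_top_notMem (s := s) (by rw [hs]; exact Finset.notMem_erase _ _)
  obtain ⟨a, ha⟩ := (Set.ne_univ_iff_exists_notMem _).1 h1
  refine ⟨a, a.2, fun g h hgh x hx => ?_⟩
  by_contra hne
  apply ha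
  rw [Set.mem_iUnion₂]
  refine ⟨p (g, h), ?_, (hp (g, h) a).2 hgh⟩
  rw [hs, Finset.mem_erase]
  refine ⟨fun ht => hne ?_, Finset.mem_image_of_mem _ (Finset.mem_univ _)⟩
  have := (hp (g, h) ⟨x, hx⟩).1 (by rw [ht]; exact Submodule.mem_top)
  exact this

/-- the trace of `x` -/
private def tr27 [Fintype G] (ρ : G →* (K ≃ₐ[k] K)) : K →ₗ[k] K := ∑ g, (ρ g).toLinearMap

private theorem tr27_apply [Fintype G] (x : K) : tr27 ρ x = ∑ g, ρ g x := by
  unfold tr27
  simp

private theorem tr27_inv [Fintype G] (x : K) (h : G) : ρ h (tr27 ρ x) = tr27 ρ x := by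
  rw [tr27_apply, map_sum]
  have e : ∀ g, ρ h (ρ g x) = ρ (h * g) x := fun g => by rw [map_mul]; rfl
  rw [Finset.sum_congr rfl fun g _ => e g]
  exact Fintype.sum_equiv (Equiv.mulLeft h) _ _ fun g => rfl

private theorem descent [CharZero k] [Fintype G] (W : Submodule k K) [FiniteDimensional k W] (z1 : K)
    (hz1 : z1 ∈ W) (hz0 : z1 ≠ 0) (hzi : ∀ g, ρ g z1 = z1) :
    ∃ (s : ℕ) (y : Fin s → K), 0 < s ∧ (∀ i, y i ∈ W ^ (s - 1)) ∧ (∀ i, ∀ g, ρ g (y i) ≠ 0) ∧
      (∀ m, ∀ z ∈ W ^ m, (∀ i, ∑ g, ρ g (z * y i) = 0) → z = 0) ∧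
      ∀ a : Fin s → K, (∀ i, ∀ g, ρ g (a i) = a i) → ∑ i, a i * y i = 0 → a = 0 := by
  classical
  obtain ⟨a, haW, ha⟩ : ∃ a ∈ W, a ≠ 0 ∧ ∀ g h, ρ g a = ρ h a → ∀ x ∈ W, ρ g x = ρ h x := by
    obtain ⟨a, haW, ha⟩ := exists_gen27 (ρ := ρ) W
    by_cases h0 : a = 0
    · subst h0
      exact ⟨z1, hz1, hz0, fun g h _ => ha g h (by rw [map_zero, map_zero])⟩
    · exact ⟨a, haW, h0, ha⟩
  obtain ⟨ha0, ha⟩ := ha
  obtain ⟨O, hO⟩ : ∃ O : Finset K, O = Finset.univ.image fun g => ρ g a := ⟨_, rfl⟩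
  obtain ⟨s, hs⟩ : ∃ s, s = O.card := ⟨_, rfl⟩
  have e : Fin s ≃ O := (finCongr hs).trans O.equivFin.symm
  obtain ⟨α, hα⟩ : ∃ α : Fin s → K, ∀ j, α j = e j := ⟨fun j => e j, fun _ => rfl⟩
  have hαi : Function.Injective α := fun i j hij => e.injective (Subtype.ext (by rw [← hα, ← hα, hij]))
  have hαs : ∀ g, ∃ j, α j = ρ g a := fun g => by
    obtain ⟨j, hj⟩ := e.surjective ⟨ρ g a, by rw [hO]; exact Finset.mem_image_of_mem _ (Finset.mem_univ g)⟩
    exact ⟨j, by rw [hα, hj]⟩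
  have hs0 : 0 < s := by
    obtain ⟨j, _⟩ := hαs 1
    exact j.pos
  refine ⟨s, fun i => a ^ (i : ℕ) * z1 ^ (s - 1 - i), hs0, ?_, ?_, ?_, ?_⟩
  · intro i
    have h1 : a ^ (i : ℕ) * z1 ^ (s - 1 - i) ∈ W ^ (i : ℕ) * W ^ (s - 1 - i) :=
      Submodule.mul_mem_mul (Submodule.pow_mem_pow W haW _) (Submodule.pow_mem_pow W hz1 _)
    rw [← pow_add] at h1
    have h2 : (i : ℕ) + (s - 1 - i) = s - 1 := by
      have := i.2
      omega
    rwa [h2] at h1
  · intro i g
    rw [map_mul, map_pow, map_pow]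
    exact mul_ne_zero (pow_ne_zero _ (by simpa using ha0)) (pow_ne_zero _ (by simpa using hz0))
  · intro m z hz h
    -- the coefficients
    obtain ⟨c, hc⟩ : ∃ c : Fin s → K, ∀ j, c j = ∑ g with ρ g a = α j, ρ g z := ⟨_, fun _ => rfl⟩
    have hc0 : c = 0 := by
      apply Matrix.eq_zero_of_forall_pow_sum_mul_pow_eq_zero hαi
      intro i
      have h1 := h i
      have h2 : ∀ g, ρ g (z * (a ^ (i : ℕ) * z1 ^ (s - 1 - i))) = z1 ^ (s - 1 - i) * (ρ g z * ρ g a ^ (i : ℕ)) := by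
        intro g
        rw [map_mul, map_mul, map_pow, map_pow, hzi g]
        ring
      rw [Finset.sum_congr rfl fun g _ => h2 g, ← Finset.mul_sum] at h1
      have h3 := (mul_eq_zero.1 h1).resolve_left (pow_ne_zero _ hz0)
      rw [← h3]
      have h4 : ∀ j, c j * α j ^ (i : ℕ) = ∑ g with ρ g a = α j, ρ g z * ρ g a ^ (i : ℕ) := by
        intro j
        rw [hc, Finset.sum_mul]
        exact Finset.sum_congr rfl fun g hg => by rw [(Finset.mem_filter.1 hg).2]
      rw [Finset.sum_congr rfl fun j _ => h4 j]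
      have h5 := Finset.sum_fiberwise_of_maps_to (s := (Finset.univ : Finset G)) (t := Finset.univ.image α)
        (g := fun g => ρ g a) (fun g _ => by
          obtain ⟨j, hj⟩ := hαs g
          show ρ g a ∈ _
          rw [← hj]
          exact Finset.mem_image_of_mem _ (Finset.mem_univ _)) (fun g => ρ g z * ρ g a ^ (i : ℕ))
      rw [← h5, Finset.sum_image (fun _ _ _ _ hij => hαi hij)]
    obtain ⟨j, hj⟩ := hαs 1
    have h1 := congrFun hc0 j
    rw [hc, hj] at h1
    have h2 : ∀ g ∈ (Finset.univ.filter fun g => ρ g a = ρ 1 a), ρ g z = z := by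
      intro g hg
      have h3 := agree_pow (ha g 1 (Finset.mem_filter.1 hg).2) m z hz
      rw [h3, map_one]
      rfl
    rw [Finset.sum_congr rfl h2, Finset.sum_const, Pi.zero_apply, nsmul_eq_mul] at h1
    have hK : CharZero K := charZero_of_injective_algebraMap (algebraMap k K).injective
    have h3 : 0 < (Finset.univ.filter fun g => ρ g a = ρ 1 a).card :=
      Finset.card_pos.2 ⟨1, Finset.mem_filter.2 ⟨Finset.mem_univ _, rfl⟩⟩
    exact (mul_eq_zero.1 h1).resolve_left (Nat.cast_ne_zero.2 h3.ne')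
  · intro b hb h
    obtain ⟨d, hd⟩ : ∃ d : Fin s → K, ∀ i, d i = b i * z1 ^ (s - 1 - i) := ⟨_, fun _ => rfl⟩
    have hd0 : d = 0 := by
      apply Matrix.eq_zero_of_forall_index_sum_mul_pow_eq_zero hαi
      intro j
      obtain ⟨g, hg⟩ : ∃ g, ρ g a = α j := by
        have h1 : α j ∈ O := by rw [hα]; exact (e j).2
        rw [hO, Finset.mem_image] at h1
        obtain ⟨g, _, hg⟩ := h1
        exact ⟨g, hg⟩
      have h1 := congrArg (ρ g) h
      rw [map_zero, map_sum] at h1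
      rw [← h1]
      refine Finset.sum_congr rfl fun i _ => ?_
      rw [map_mul, map_mul, map_pow, map_pow, hb i g, hzi g, hg, hd]
      ring
    funext i
    have h1 := congrFun hd0 i
    rw [hd] at h1
    exact (mul_eq_zero.1 h1).resolve_right (pow_ne_zero _ hz0)

/-- injective maps into and from powers -/
private theorem finrank_pow27 {s : ℕ} (A B : Submodule k K) [FiniteDimensional k B] (φ : Fin s → K →ₗ[k] K)
    (hφ : ∀ i, ∀ z ∈ A, φ i z ∈ B) (h : ∀ z ∈ A, (∀ i, φ i z = 0) → z = 0) : finrank k A ≤ s * finrank k B := by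
  obtain ⟨f, hf⟩ : ∃ f : A →ₗ[k] (Fin s → B), ∀ z i, (f z i : K) = φ i z :=
    ⟨LinearMap.pi fun i => ((φ i).comp A.subtype).codRestrict B fun z => hφ i z z.2, fun z i => rfl⟩
  have hi : Function.Injective f := by
    rw [← LinearMap.ker_eq_bot, LinearMap.ker_eq_bot']
    intro z hz
    refine Subtype.ext (h z z.2 fun i => ?_)
    rw [← hf, hz]
    rfl
  have h1 := LinearMap.finrank_le_finrank_of_injective hi
  rwa [Module.finrank_pi_fintype, Finset.sum_const, Finset.card_univ, Fintype.card_fin, smul_eq_mul] at h1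

private theorem pow_finrank27 {s : ℕ} (A B : Submodule k K) [FiniteDimensional k A] [FiniteDimensional k B] (y : Fin s → K)
    (hy : ∀ i, ∀ z ∈ A, z * y i ∈ B) (h : ∀ a : Fin s → K, (∀ i, a i ∈ A) → ∑ i, a i * y i = 0 → a = 0) :
    s * finrank k A ≤ finrank k B := by
  obtain ⟨f, hf⟩ : ∃ f : (Fin s → A) →ₗ[k] B, ∀ a, (f a : K) = ∑ i, (a i : K) * y i := by
    refine ⟨LinearMap.codRestrict B (∑ i, ((LinearMap.mulRight k (y i)).comp A.subtype).comp (LinearMap.proj i))
      fun a => ?_, fun a => ?_⟩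
    · rw [LinearMap.sum_apply]
      exact B.sum_mem fun i _ => hy i _ (a i).2
    · rw [LinearMap.codRestrict_apply, LinearMap.sum_apply]
      rfl
  have hi : Function.Injective f := by
    rw [← LinearMap.ker_eq_bot, LinearMap.ker_eq_bot']
    intro a ha
    have h1 := h (fun i => (a i : K)) (fun i => (a i).2) (by rw [← hf, ha]; rfl)
    funext i
    exact Subtype.ext (congrFun h1 i)
  have h1 := LinearMap.finrank_le_finrank_of_injective hi
  rwa [Module.finrank_pi_fintype, Finset.sum_const, Finset.card_univ, Fintype.card_fin, smul_eq_mul] at h1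

end

theorem inv_g {k K : Type u} [Field k] [Field K] [Algebra k K] {G : Type*} [Group G] [Fintype G] (s : G →* (K ≃ₐ[k] K))
    [CharZero k] (W : Submodule k K) [FiniteDimensional k W] (hW : ∀ g, ∀ z ∈ W, s g z ∈ W)
    (hz : ∃ z ∈ W, z ≠ 0 ∧ ∀ g, s g z = z) : ∃ h q : ℕ, 0 < h ∧
      (∀ m : ℕ, h * finrank k (fx s (W ^ m)) ≤ finrank k ↥(W ^ (m + q))) ∧
      ∀ (m : ℕ) (B : Submodule k K), B ≤ W ^ m → (∀ g, ∀ z ∈ B, s g z ∈ B) →
        finrank k B ≤ h * finrank k (fx s (B * W ^ q)) := by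
  obtain ⟨z1, hz1, hz0, hzi⟩ := hz
  obtain ⟨h, y, hs0, hyW, hy0, h1, h2⟩ := descent (ρ := s) W z1 hz1 hz0 hzi
  have hfd : ∀ n : ℕ, FiniteDimensional k ↥(W ^ n) := fun n =>
    Module.Finite.iff_fg.2 (Submodule.FG.pow (Module.Finite.iff_fg.1 inferInstance) n)
  have hfx : ∀ E : Submodule k K, fx s E ≤ E := fun _ _ h => h.1
  refine ⟨h, h - 1, hs0, fun m => ?_, fun m B hB hBs => ?_⟩
  · have hf : FiniteDimensional k (fx s (W ^ m)) := Submodule.finiteDimensional_of_le (hfx _)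
    refine pow_finrank27 _ _ y (fun i z hz => ?_) fun a ha h => h2 a (fun i => (ha i).2) h
    rw [pow_add]
    exact Submodule.mul_mem_mul hz.1 (hyW i)
  · have hfB : FiniteDimensional k B := Submodule.finiteDimensional_of_le hB
    have hfP : FiniteDimensional k ↥(B * W ^ (h - 1)) :=
      Module.Finite.iff_fg.2 (Submodule.FG.mul (Module.Finite.iff_fg.1 hfB) (Module.Finite.iff_fg.1 (hfd _)))
    have hf : FiniteDimensional k (fx s (B * W ^ (h - 1))) := Submodule.finiteDimensional_of_le (hfx _)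
    refine finrank_pow27 _ _ (fun i => (tr27 s).comp (LinearMap.mulRight k (y i))) ?_ ?_
    · intro i z hz
      refine ⟨?_, fun g => ?_⟩
      · rw [LinearMap.comp_apply, LinearMap.mulRight_apply, tr27_apply]
        refine Submodule.sum_mem _ fun g _ => ?_
        rw [map_mul]
        exact Submodule.mul_mem_mul (hBs g z hz) (stable_pow hW g _ _ (hyW i))
      · rw [LinearMap.comp_apply]
        exact tr27_inv _ _
    · intro z hz h
      refine h1 m z (hB hz) fun i => ?_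
      have := h i
      rwa [LinearMap.comp_apply, LinearMap.mulRight_apply, tr27_apply] at this

end Pool.Agent.SQ
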