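import Pool.Agent.Helper42.SQ.Defs

/-!
# SQ, block SNF (helper12): facts on the numbers `SN`
-/

set_option autoImplicit false

namespace Pool.Agent.SQ

open Module Polynomial

section

variable {k : Type*} {K : Type*} [Field k] [Field K] [Algebra k K]

private theorem mem_lev_12 {ω : K → ℝ} (h : RV k ω) (c : ℝ) (x : K) : x ∈ lev h c ↔ x = 0 ∨ c ≤ ω x := Iff.rfl

private theorem lev_anti_12 {ω : K → ℝ} (h : RV k ω) {a b : ℝ} (hab : a ≤ b) : lev h b ≤ lev h a := by
  intro x hx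
  rcases (mem_lev_12 h b x).1 hx with hx | hx
  · exact Or.inl hx
  · exact Or.inr (hab.trans hx)

/-- the elements of value larger than `c` -/
private def levlt_12 {ω : K → ℝ} (h : RV k ω) (c : ℝ) : Submodule k K where
  carrier := {x | x = 0 ∨ c < ω x}
  zero_mem' := Or.inl rfl
  add_mem' := by
    intro x y hx hy
    rcases hx with rfl | hx
    · simpa using hy
    rcases hy with rfl | hy
    · rw [add_zero]; exact Or.inr hx
    by_cases hxy : x + y = 0
    · exact Or.inl hxy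
    by_cases hx0 : x = 0
    · subst hx0; rw [zero_add]; exact Or.inr hy
    by_cases hy0 : y = 0
    · subst hy0; rw [add_zero]; exact Or.inr hx
    exact Or.inr ((lt_min hx hy).trans_le (h.add x y hx0 hy0 hxy))
  smul_mem' := by
    intro c x hx
    rcases hx with rfl | hx
    · simp
    by_cases hc : c = 0
    · left; simp [hc]
    by_cases hx0 : x = 0
    · left; simp [hx0]
    right
    rw [h.smul c x hc hx0]
    exact hx

private theorem mem_levlt_12 {ω : K → ℝ} (h : RV k ω) (c : ℝ) (x : K) : x ∈ levlt_12 h c ↔ x = 0 ∨ c < ω x := Iff.rfl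

private theorem val_bdd_aux_12 {ω : K → ℝ} (h : RV k ω) (n : ℕ) : ∀ E : Submodule k K, FiniteDimensional k E →
    finrank k E = n → ∃ B : ℝ, ∀ x ∈ E, x ≠ 0 → ω x ≤ B := by
  induction n using Nat.strong_induction_on with
  | _ n ih =>
    intro E hE hn
    by_cases h0 : ∃ x0 ∈ E, x0 ≠ 0 ∧ ∃ x1 ∈ E, x1 ≠ 0 ∧ ω x0 < ω x1
    · obtain ⟨x0, hx0, hx00, x1, hx1, hx10, hlt⟩ := h0
      have hle : E ⊓ lev h (ω x1) < E := by
        refine lt_of_le_of_ne inf_le_left fun heq => ?_
        have : x0 ∈ E ⊓ lev h (ω x1) := by rw [heq]; exact hx0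
        rcases (mem_lev_12 h _ x0).1 this.2 with h1 | h1
        · exact hx00 h1
        · exact absurd h1 (not_le.2 hlt)
      haveI : FiniteDimensional k ↥(E ⊓ lev h (ω x1)) := Submodule.finiteDimensional_of_le hle.le
      obtain ⟨B, hB⟩ := ih _ (by rw [← hn]; exact Submodule.finrank_lt_finrank_of_lt hle) _ this rfl
      refine ⟨max B (ω x1), fun x hx hx0' => ?_⟩
      rcases le_total (ω x) (ω x1) with h1 | h1
      · exact h1.trans (le_max_right _ _)
      · exact (hB x ⟨hx, Or.inr h1⟩ hx0').trans (le_max_left _ _)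
    · push Not at h0
      by_cases h1 : ∃ x0 ∈ E, x0 ≠ 0
      · obtain ⟨x0, hx0, hx00⟩ := h1
        exact ⟨ω x0, fun x hx hxx => h0 x0 hx0 hx00 x hx hxx⟩
      · push Not at h1
        exact ⟨0, fun x hx hxx => absurd (h1 x hx) hxx⟩

variable {ω : K → ℝ} (h : RV k ω) (E : Submodule k K) [FiniteDimensional k E]

include h in
theorem val_bdd : ∃ B : ℝ, ∀ x ∈ E, x ≠ 0 → ω x ≤ B := val_bdd_aux_12 h _ E inferInstance rfl

private theorem exists_M0_12 {N : ℕ} (hN : 0 < N) (c : ℝ) : ∃ M0 : ℕ, ∀ j : ℕ, M0 ≤ j →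
    E ⊓ lev h (((j : ℝ) + 1) / N - c) = ⊥ := by
  obtain ⟨B, hB⟩ := val_bdd h E
  obtain ⟨M0, hM0⟩ := exists_nat_ge (N * (B + c))
  refine ⟨M0, fun j hj => ?_⟩
  rw [eq_bot_iff]
  intro x hx
  rcases (mem_lev_12 h _ x).1 hx.2 with h1 | h1
  · exact h1
  · by_contra hx0
    have h2 := hB x hx.1 hx0
    have hN' : (0 : ℝ) < N := by exact_mod_cast hN
    have h3 : ((j : ℝ) + 1) / N ≤ B + c := by linarith
    rw [div_le_iff₀ hN'] at h3
    have h4 : (M0 : ℝ) ≤ j := by exact_mod_cast hj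
    nlinarith

theorem SN_support {N : ℕ} (hN : 0 < N) (c : ℝ) :
    (Function.support fun j : ℕ => finrank k ↥(E ⊓ lev h (((j : ℝ) + 1) / N - c))).Finite := by
  obtain ⟨M0, hM0⟩ := exists_M0_12 h E hN c
  refine (Finset.range M0).finite_toSet.subset fun j hj => ?_
  by_contra hj'
  refine hj ?_
  have : M0 ≤ j := by simpa using hj'
  show finrank k ↥(E ⊓ lev h (((j : ℝ) + 1) / N - c)) = 0
  rw [hM0 j this]
  exact finrank_bot k K

theorem SN_eq {N : ℕ} (hN : 0 < N) (c : ℝ) : ∃ M0 : ℕ, ∀ M ≥ M0, ∀ E' ≤ E,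
    SN h N c E' = ∑ j ∈ Finset.Icc 1 M, finrank k ↥(E' ⊓ lev h ((j : ℝ) / N - c)) := by
  obtain ⟨M0, hM0⟩ := exists_M0_12 h E hN c
  refine ⟨M0, fun M hM E' hE' => ?_⟩
  have hs : (Function.support fun j : ℕ => finrank k ↥(E' ⊓ lev h (((j : ℝ) + 1) / N - c))) ⊆ (Finset.range M : Set ℕ) := by
    intro j hj
    by_contra hj'
    refine hj ?_
    have h1 : M0 ≤ j := by
      have : M ≤ j := by simpa using hj'
      exact hM.trans this
    show finrank k ↥(E' ⊓ lev h (((j : ℝ) + 1) / N - c)) = 0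
    have h2 : E' ⊓ lev h (((j : ℝ) + 1) / N - c) = ⊥ := by
      rw [eq_bot_iff, ← hM0 j h1]
      exact inf_le_inf_right _ hE'
    rw [h2]
    exact finrank_bot k K
  unfold SN
  rw [finsum_eq_sum_of_support_subset _ hs]
  have e : Finset.Icc 1 M = Finset.Ico 1 (M + 1) := by
    ext j; simp [Finset.mem_Icc, Finset.mem_Ico, Nat.lt_succ_iff]
  rw [e, Finset.sum_Ico_eq_sum_range]
  refine Finset.sum_congr (by simp) fun j _ => ?_
  have : (((1 + j : ℕ) : ℝ)) = (j : ℝ) + 1 := by push_cast; ring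
  rw [this]

theorem SN_ge_sum {N : ℕ} (hN : 0 < N) (c : ℝ) (M : ℕ) :
    ∑ j ∈ Finset.Icc 1 M, finrank k ↥(E ⊓ lev h ((j : ℝ) / N - c)) ≤ SN h N c E := by
  obtain ⟨M0, hM0⟩ := SN_eq h E hN c
  rw [hM0 (max M M0) (le_max_right _ _) E le_rfl]
  refine Finset.sum_le_sum_of_subset (Finset.Icc_subset_Icc le_rfl (le_max_left _ _))

theorem SN_comp (τ : K ≃ₐ[k] K) (N : ℕ) (c : ℝ) : SN (h.comp τ) N c E = SN h N c (E.map τ.toLinearMap) := by
  unfold SN
  refine finsum_congr fun j => ?_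
  have e : E.map τ.toLinearMap ⊓ lev h (((j : ℝ) + 1) / N - c) =
      (E ⊓ lev (h.comp τ) (((j : ℝ) + 1) / N - c)).map (τ.toLinearEquiv : K →ₗ[k] K) := by
    ext x
    constructor
    · rintro ⟨⟨y, hy, rfl⟩, h2⟩
      refine ⟨y, ⟨hy, ?_⟩, rfl⟩
      rcases h2 with h2 | h2
      · left
        have : τ y = 0 := h2
        simpa using this
      · right; exact h2
    · rintro ⟨y, ⟨hy, h2⟩, rfl⟩
      refine ⟨⟨y, hy, rfl⟩, ?_⟩
      rcases h2 with h2 | h2
      · left
        have h3 : y = 0 := h2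
        show τ y = 0
        rw [h3, map_zero]
      · right; exact h2
  rw [e]
  exact (LinearEquiv.finrank_map_eq τ.toLinearEquiv _).symm

theorem SN_mono {N : ℕ} (hN : 0 < N) (c : ℝ) {E' : Submodule k K} (hE' : E' ≤ E) : SN h N c E' ≤ SN h N c E := by
  obtain ⟨M0, hM0⟩ := SN_eq h E hN c
  rw [hM0 M0 le_rfl E le_rfl, hM0 M0 le_rfl E' hE']
  refine Finset.sum_le_sum fun j _ => ?_
  haveI : FiniteDimensional k ↥(E ⊓ lev h ((j : ℝ) / N - c)) := Submodule.finiteDimensional_of_le inf_le_left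
  exact Submodule.finrank_mono (inf_le_inf_right _ hE')

omit [FiniteDimensional k E] in
theorem SN_bot (N : ℕ) (c : ℝ) : SN h N c ⊥ = 0 := by
  unfold SN
  rw [finsum_eq_zero_of_forall_eq_zero]
  intro j
  rw [bot_inf_eq]
  exact finrank_bot k K

private theorem cnt_le_12 (y : ℝ) (hy : 0 ≤ y) (M : ℕ) :
    (∑ j ∈ Finset.Icc 1 M, if (j : ℝ) ≤ y then (1 : ℝ) else 0) ≤ y := by
  rw [← Finset.sum_filter, Finset.sum_const, nsmul_eq_mul, mul_one]
  have h1 : (Finset.Icc 1 M).filter (fun j : ℕ => (j : ℝ) ≤ y) ⊆ Finset.Icc 1 ⌊y⌋₊ := by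
    intro j hj
    rw [Finset.mem_filter, Finset.mem_Icc] at hj
    rw [Finset.mem_Icc]
    exact ⟨hj.1.1, Nat.le_floor hj.2⟩
  have h2 := Finset.card_le_card h1
  rw [Nat.card_Icc, Nat.add_sub_cancel] at h2
  calc (((Finset.Icc 1 M).filter (fun j : ℕ => (j : ℝ) ≤ y)).card : ℝ) ≤ (⌊y⌋₊ : ℝ) := by exact_mod_cast h2
    _ ≤ y := Nat.floor_le hy

private theorem cnt_ge_12 (y : ℝ) (M : ℕ) (hM : y ≤ M) :
    y - 1 ≤ ∑ j ∈ Finset.Icc 1 M, if (j : ℝ) ≤ y then (1 : ℝ) else 0 := by
  by_cases hy : 0 ≤ y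
  · rw [← Finset.sum_filter, Finset.sum_const, nsmul_eq_mul, mul_one]
    have h1 : Finset.Icc 1 ⌊y⌋₊ ⊆ (Finset.Icc 1 M).filter (fun j : ℕ => (j : ℝ) ≤ y) := by
      intro j hj
      rw [Finset.mem_Icc] at hj
      rw [Finset.mem_filter, Finset.mem_Icc]
      have h3 : (j : ℝ) ≤ y := (Nat.le_floor_iff hy).1 hj.2
      exact ⟨⟨hj.1, by exact_mod_cast h3.trans hM⟩, h3⟩
    have h2 := Finset.card_le_card h1
    rw [Nat.card_Icc, Nat.add_sub_cancel] at h2
    have h3 : (⌊y⌋₊ : ℝ) ≤ (((Finset.Icc 1 M).filter (fun j : ℕ => (j : ℝ) ≤ y)).card : ℝ) := by exact_mod_cast h2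
    have h4 := Nat.lt_floor_add_one y
    linarith
  · have : (0 : ℝ) ≤ ∑ j ∈ Finset.Icc 1 M, if (j : ℝ) ≤ y then (1 : ℝ) else 0 :=
      Finset.sum_nonneg fun j _ => by split_ifs <;> norm_num
    linarith

theorem SN_ge {N : ℕ} (hN : 0 < N) (c : ℝ) {n : ℕ} (e : Fin n → K) (he : LinearIndependent k e) (heE : ∀ i, e i ∈ E) :
    N * ∑ i, (ω (e i) + c) ≤ SN h N c E + n := by
  have hN' : (0 : ℝ) < N := by exact_mod_cast hN
  obtain ⟨B, hB⟩ := val_bdd h E
  obtain ⟨M, hM⟩ := exists_nat_ge (N * (B + c))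
  have h1 : ∀ j : ℕ, (∑ i, if ((j : ℝ) ≤ N * (ω (e i) + c)) then (1 : ℝ) else 0) ≤
      (finrank k ↥(E ⊓ lev h ((j : ℝ) / N - c)) : ℝ) := by
    intro j
    rw [← Finset.sum_filter, Finset.sum_const, nsmul_eq_mul, mul_one]
    haveI : FiniteDimensional k ↥(E ⊓ lev h ((j : ℝ) / N - c)) := Submodule.finiteDimensional_of_le inf_le_left
    have h2 : ∀ i : {i : Fin n // (j : ℝ) ≤ N * (ω (e i) + c)}, e i ∈ E ⊓ lev h ((j : ℝ) / N - c) := by
      intro i
      refine ⟨heE _, Or.inr ?_⟩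
      have := i.2
      have h3 : (j : ℝ) / N ≤ ω (e i) + c := by
        rw [div_le_iff₀ hN', mul_comm]; exact this
      linarith
    have h3 : LinearIndependent k fun i : {i : Fin n // (j : ℝ) ≤ N * (ω (e i) + c)} =>
        (⟨e i, h2 i⟩ : ↥(E ⊓ lev h ((j : ℝ) / N - c))) := by
      refine LinearIndependent.of_comp (Submodule.subtype _) ?_
      exact he.comp (fun i : {i : Fin n // (j : ℝ) ≤ N * (ω (e i) + c)} => (i : Fin n)) Subtype.val_injective
    have h4 := h3.fintype_card_le_finrank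
    rw [Fintype.card_subtype] at h4
    exact_mod_cast h4
  have h5 : (∑ j ∈ Finset.Icc 1 M, (finrank k ↥(E ⊓ lev h ((j : ℝ) / N - c)) : ℝ)) ≤ SN h N c E := by
    exact_mod_cast SN_ge_sum h E hN c M
  have h6 : ∑ i, (N * (ω (e i) + c) - 1) ≤
      ∑ j ∈ Finset.Icc 1 M, ∑ i, if ((j : ℝ) ≤ N * (ω (e i) + c)) then (1 : ℝ) else 0 := by
    rw [Finset.sum_comm]
    refine Finset.sum_le_sum fun i _ => cnt_ge_12 _ M ?_
    refine le_trans ?_ hM
    have := hB (e i) (heE i) (he.ne_zero i)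
    exact mul_le_mul_of_nonneg_left (by linarith) hN'.le
  have h7 := Finset.sum_le_sum fun (j : ℕ) (_ : j ∈ Finset.Icc 1 M) => h1 j
  have h8 : ∑ i, (N * (ω (e i) + c) - 1) = N * ∑ i, (ω (e i) + c) - n := by
    rw [Finset.sum_sub_distrib, Finset.mul_sum]; simp
  linarith

private theorem adapted_12 (n : ℕ) : ∀ E : Submodule k K, FiniteDimensional k E → finrank k E = n →
    ∃ e : Fin n → K, LinearIndependent k e ∧ (∀ i, e i ∈ E) ∧
      ∀ a : ℝ, (finrank k ↥(E ⊓ lev h a) : ℝ) ≤ ∑ i, if a ≤ ω (e i) then (1 : ℝ) else 0 := by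
  induction n with
  | zero =>
    intro E hE hn
    refine ⟨Fin.elim0, linearIndependent_empty_type, fun i => i.elim0, fun a => ?_⟩
    have h1 : finrank k ↥(E ⊓ lev h a) ≤ finrank k E := Submodule.finrank_mono inf_le_left
    rw [hn] at h1
    have h2 : finrank k ↥(E ⊓ lev h a) = 0 := Nat.le_zero.1 h1
    rw [h2]; simp
  | succ n ih =>
    intro E hE hn
    -- the least value
    let b := Module.finBasis k E
    have hne : Nonempty (Fin (finrank k E)) := ⟨⟨0, by rw [hn]; exact Nat.succ_pos n⟩⟩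
    obtain ⟨i0, hi0⟩ := Finite.exists_min fun i : Fin (finrank k E) => ω (b i : K)
    set c0 := ω (b i0 : K) with hc0
    have hb0 : ∀ i, (b i : K) ≠ 0 := fun i h0 => b.ne_zero i (Subtype.ext h0)
    have hmin : ∀ x ∈ E, x ∈ lev h c0 := by
      intro x hx
      have h1 := b.sum_repr ⟨x, hx⟩
      have h2 : x = ∑ i, b.repr ⟨x, hx⟩ i • (b i : K) := by
        have := congrArg (Submodule.subtype E) h1
        rw [map_sum] at this
        simp only [map_smul, Submodule.subtype_apply] at this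
        exact this.symm
      rw [h2]
      exact Submodule.sum_mem _ fun i _ => Submodule.smul_mem _ _ (Or.inr (hi0 i))
    -- a hyperplane containing the elements of larger value
    let p : Submodule k E := (levlt_12 h c0).comap E.subtype
    have hp : p < ⊤ := by
      refine lt_top_iff_ne_top.2 fun h1 => ?_
      have h2 : b i0 ∈ p := by rw [h1]; trivial
      rcases h2 with h2 | h2
      · exact hb0 i0 h2
      · exact lt_irrefl _ h2
    obtain ⟨f, hf, hpf⟩ := Submodule.exists_le_ker_of_lt_top p hp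
    set E' : Submodule k K := (LinearMap.ker f).map E.subtype with hE'
    have hE'E : E' ≤ E := Submodule.map_subtype_le _ _
    haveI : FiniteDimensional k E' := Submodule.finiteDimensional_of_le hE'E
    have hr : finrank k E' = n := by
      have h1 : finrank k E' = finrank k (LinearMap.ker f) :=
        (Submodule.equivSubtypeMap E (LinearMap.ker f)).finrank_eq.symm
      have h2 := f.finrank_range_add_finrank_ker
      have h3 : finrank k (LinearMap.range f) = 1 := by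
        have : LinearMap.range f = ⊤ := LinearMap.range_eq_top.2 (LinearMap.surjective hf)
        rw [this, finrank_top]; exact finrank_self k
      omega
    obtain ⟨e, he, heE, hea⟩ := ih E' inferInstance hr
    obtain ⟨x, hx⟩ : ∃ x : E, f x ≠ 0 := by
      by_contra hcon
      push Not at hcon
      exact hf (LinearMap.ext hcon)
    have hxE' : (x : K) ∉ E' := by
      rintro ⟨y, hy, hyx⟩
      have : y = x := Subtype.ext hyx
      rw [this] at hy
      exact hx hy
    have hx0 : (x : K) ≠ 0 := fun h0 => hxE' (by rw [h0]; exact E'.zero_mem)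
    have hωx : c0 ≤ ω x := by
      rcases hmin x x.2 with h1 | h1
      · exact absurd h1 hx0
      · exact h1
    have hlt : ∀ y ∈ E, y ∈ levlt_12 h c0 → y ∈ E' := by
      intro y hy hy2
      exact ⟨⟨y, hy⟩, hpf hy2, rfl⟩
    refine ⟨Fin.cons (x : K) e, ?_, ?_, fun a => ?_⟩
    · rw [linearIndependent_fin_cons]
      refine ⟨he, fun hmem => hxE' ?_⟩
      refine (Submodule.span_le.2 ?_) hmem
      rintro _ ⟨i, rfl⟩
      exact heE i
    · intro i
      refine Fin.cases ?_ (fun i => ?_) i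
      · exact x.2
      · exact hE'E (heE i)
    · rw [Fin.sum_univ_succ]
      simp only [Fin.cons_zero, Fin.cons_succ]
      rcases le_or_gt a c0 with ha | ha
      · have h1 : (finrank k ↥(E ⊓ lev h a) : ℝ) ≤ n + 1 := by
          have : finrank k ↥(E ⊓ lev h a) ≤ finrank k E := Submodule.finrank_mono inf_le_left
          rw [hn] at this
          exact_mod_cast this
        have h2 : ∀ i : Fin n, (if a ≤ ω (e i) then (1 : ℝ) else 0) = 1 := by
          intro i
          rw [if_pos]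
          refine ha.trans ?_
          rcases hmin (e i) (hE'E (heE i)) with h3 | h3
          · exact absurd h3 (he.ne_zero i)
          · exact h3
        rw [if_pos (ha.trans hωx), Finset.sum_congr rfl fun i _ => h2 i]
        simp only [Finset.sum_const, Finset.card_univ, Fintype.card_fin, nsmul_eq_mul, mul_one]
        linarith
      · have h1 : E ⊓ lev h a ≤ E' ⊓ lev h a := by
          intro y hy
          refine ⟨hlt y hy.1 ?_, hy.2⟩
          rcases hy.2 with h2 | h2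
          · exact Or.inl h2
          · exact Or.inr (ha.trans_le h2)
        haveI : FiniteDimensional k ↥(E' ⊓ lev h a) := Submodule.finiteDimensional_of_le inf_le_left
        have h2 : (finrank k ↥(E ⊓ lev h a) : ℝ) ≤ finrank k ↥(E' ⊓ lev h a) := by
          exact_mod_cast Submodule.finrank_mono h1
        have h3 := hea a
        have h4 : (0 : ℝ) ≤ if a ≤ ω (x : K) then (1 : ℝ) else 0 := by split_ifs <;> norm_num
        linarith

theorem SN_le {N : ℕ} (hN : 0 < N) (c : ℝ) (h0 : ∀ x ∈ E, x ≠ 0 → 0 ≤ ω x + c) :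
    ∃ e : Fin (finrank k E) → K, LinearIndependent k e ∧ (∀ i, e i ∈ E) ∧ (SN h N c E : ℝ) ≤ N * ∑ i, (ω (e i) + c) := by
  have hN' : (0 : ℝ) < N := by exact_mod_cast hN
  obtain ⟨e, he, heE, hea⟩ := adapted_12 h (finrank k E) E inferInstance rfl
  refine ⟨e, he, heE, ?_⟩
  obtain ⟨M, hM⟩ := SN_eq h E hN c
  rw [hM M le_rfl E le_rfl]
  push_cast
  calc (∑ j ∈ Finset.Icc 1 M, (finrank k ↥(E ⊓ lev h ((j : ℝ) / N - c)) : ℝ))
      ≤ ∑ j ∈ Finset.Icc 1 M, ∑ i, if ((j : ℝ) ≤ N * (ω (e i) + c)) then (1 : ℝ) else 0 := by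
        refine Finset.sum_le_sum fun j _ => (hea _).trans (le_of_eq ?_)
        refine Finset.sum_congr rfl fun i _ => ?_
        have : (j : ℝ) / N - c ≤ ω (e i) ↔ (j : ℝ) ≤ N * (ω (e i) + c) := by
          rw [sub_le_iff_le_add, div_le_iff₀ hN', mul_comm]
        simp only [this]
    _ = ∑ i, ∑ j ∈ Finset.Icc 1 M, if ((j : ℝ) ≤ N * (ω (e i) + c)) then (1 : ℝ) else 0 := Finset.sum_comm
    _ ≤ ∑ i, N * (ω (e i) + c) := Finset.sum_le_sum fun i _ =>
        cnt_le_12 _ (mul_nonneg hN'.le (h0 _ (heE i) (he.ne_zero i))) M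
    _ = N * ∑ i, (ω (e i) + c) := by rw [Finset.mul_sum]

end

end Pool.Agent.SQ
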