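import Pool.Agent.Helper42.SQ.Defs2
import Pool.Agent.Helper24.SQ.TenG

/-!
# SQ, stage 2: block TENg (semistability for a finite family of subspaces), from `Pool/Agent/Helper24/SQ/TenG.lean`
-/

set_option autoImplicit false

namespace Pool.Agent.SQ

open Module Polynomial

universe u

theorem ten_g {k K : Type u} [Field k] [Field K] [Algebra k K] [CharZero k] {ι T : Type*} [Fintype ι] [Fintype T]
    (ω : ι → K → ℝ) (hω : ∀ i, RV k (ω i)) (c : ι → T → ℝ)
    (V : T → Submodule k K) [∀ a, FiniteDimensional k (V a)] {r : ℕ} (hr : 0 < r) (hr' : ∀ a, finrank k (V a) = r)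
    {N : ℕ} (hN : 0 < N) (ha : ∀ i a, ∀ x ∈ V a, x ≠ 0 → 0 ≤ ω i x + c i a) (t : ℕ)
    (hT : ∀ a, ∑ i, SN (hω i) N (c i a) (V a) = t)
    (hss : ∀ a, ∀ E ≤ V a, r * ∑ i, SN (hω i) N (c i a) E ≤ t * finrank k E) (m : ℕ) :
    Fintype.card T * m * finrank k ↥((∏ a, V a) ^ m) * t ≤
      r * (∑ i, SN (hω i) N (m * ∑ a, c i a) ((∏ a, V a) ^ m)) +
      Fintype.card T * m * finrank k ↥((∏ a, V a) ^ m) * (r * (r * Fintype.card ι + 1)) := by
  have hV : ∀ a, V a ≠ ⊥ := by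
    intro a h
    have h1 := hr' a
    rw [h, finrank_bot] at h1
    omega
  have key := SQ24.tenG ω hω (fun a i => c i a) V hV hN (fun a i => ha i a)
    (fun a E hE => by rw [hr' a, hT a]; exact hss a E hE) (fun _ => m)
  have e1 : (∏ a, V a ^ m) = (∏ a, V a) ^ m := Finset.prod_pow _ _ _
  have e2 : ∀ a, (∑ i, (SN (hω i) N (c i a) (V a) : ℝ)) = t := fun a => by rw [← hT a]; push_cast; rfl
  have e3 : ∀ i, (∑ a, (m : ℝ) * c i a) = m * ∑ a, c i a := fun i => (Finset.mul_sum _ _ _).symm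
  have e1' : finrank k ↥(∏ a, V a ^ m) = finrank k ↥((∏ a, V a) ^ m) := by rw [e1]
  simp only [e1', e1, e2, e3, hr', Finset.sum_const, Finset.card_univ, nsmul_eq_mul] at key
  have hr0 : (0 : ℝ) < r := by exact_mod_cast hr
  have h2 := mul_le_mul_of_nonneg_left key hr0.le
  have h3 : (r : ℝ) * ((finrank k ↥((∏ a, V a) ^ m) : ℝ) * (Fintype.card T * (m * ((t : ℝ) / r)))) =
      Fintype.card T * m * finrank k ↥((∏ a, V a) ^ m) * t := by
    field_simp
  rw [h3] at h2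
  have h4 : ((Fintype.card T * m * finrank k ↥((∏ a, V a) ^ m) * t : ℕ) : ℝ) ≤
      ((r * (∑ i, SN (hω i) N (m * ∑ a, c i a) ((∏ a, V a) ^ m)) +
      Fintype.card T * m * finrank k ↥((∏ a, V a) ^ m) * (r * (r * Fintype.card ι + 1)) : ℕ) : ℝ) := by
    push_cast
    refine h2.trans (le_of_eq ?_)
    ring
  exact_mod_cast h4

end Pool.Agent.SQ
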