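import Pool.Agent.Helper42.SQ.Defs2
import Pool.Agent.Helper42.SQ.SNF
import Pool.Agent.Helper42.SQ.BM2g
import Pool.Agent.Helper42.SQ.GROg
import Pool.Agent.Helper42.SQ.TENg
import Pool.Agent.Helper42.SQ.INV

/-!
# SQ stage 2, block ABSg (helper63): Theorem A for a finite group
-/

set_option autoImplicit false

namespace Pool.Agent.SQ

open Module Polynomial

universe u

section

variable {k K : Type u} [Field k] [Field K] [Algebra k K]

section

variable {ω : K → ℝ} (h : RV k ω)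

private theorem lev_mul63 (a b : ℝ) : lev h a * lev h b ≤ lev h (a + b) := by
  rw [Submodule.mul_le]
  intro x hx y hy
  by_cases hx0 : x = 0
  · subst hx0
    exact Or.inl (zero_mul y)
  by_cases hy0 : y = 0
  · subst hy0
    exact Or.inl (mul_zero x)
  have hx1 : a ≤ ω x := hx.resolve_left hx0
  have hy1 : b ≤ ω y := hy.resolve_left hy0
  right
  rw [h.mul x y hx0 hy0]
  linarith

private theorem lev_anti63 {a b : ℝ} (hab : a ≤ b) : lev h b ≤ lev h a := by
  intro x hx
  rcases hx with hx | hx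
  · exact Or.inl hx
  · exact Or.inr (hab.trans hx)

private theorem one_lev63 : (1 : Submodule k K) ≤ lev h 0 := by
  rw [Submodule.one_le]
  right
  have h1 := h.mul 1 1 one_ne_zero one_ne_zero
  rw [mul_one] at h1
  linarith

private theorem lev_prod63 {α : Type*} (S : Finset α) (E : α → Submodule k K) (c : α → ℝ)
    (hE : ∀ a ∈ S, E a ≤ lev h (c a)) : ∏ a ∈ S, E a ≤ lev h (∑ a ∈ S, c a) := by
  classical
  induction S using Finset.induction_on with
  | empty => simpa using one_lev63 h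
  | insert a S ha ih =>
    rw [Finset.prod_insert ha, Finset.sum_insert ha]
    exact (mul_le_mul' (hE a (Finset.mem_insert_self a S)) (ih fun b hb => hE b (Finset.mem_insert_of_mem hb))).trans
      (lev_mul63 h _ _)

private theorem lev_pow63 {E : Submodule k K} {c : ℝ} (hE : E ≤ lev h c) (m : ℕ) : E ^ m ≤ lev h (m * c) := by
  induction m with
  | zero => simpa using one_lev63 h
  | succ m ih =>
    rw [pow_succ]
    refine (mul_le_mul' ih hE).trans ((lev_mul63 h _ _).trans (le_of_eq ?_))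
    push_cast
    congr 1
    ring

end

private theorem SN_congr63 {ω ω' : K → ℝ} (h : RV k ω) (h' : RV k ω') (e : ω = ω') (N : ℕ) (c : ℝ) (E : Submodule k K) :
    SN h N c E = SN h' N c E := by
  subst e
  rfl

private theorem map_mul63 (τ : K ≃ₐ[k] K) (E F : Submodule k K) :
    (E * F).map τ.toLinearMap = E.map τ.toLinearMap * F.map τ.toLinearMap :=
  Submodule.map_mul E F (τ : K →ₐ[k] K)

private theorem map_prod63 {α : Type*} (τ : K ≃ₐ[k] K) (S : Finset α) (E : α → Submodule k K) :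
    (∏ a ∈ S, E a).map τ.toLinearMap = ∏ a ∈ S, (E a).map τ.toLinearMap := by
  classical
  induction S using Finset.induction_on with
  | empty =>
    rw [Finset.prod_empty, Finset.prod_empty]
    exact Submodule.map_one (τ : K →ₐ[k] K)
  | insert a S ha ih => rw [Finset.prod_insert ha, Finset.prod_insert ha, map_mul63, ih]

private theorem map_pow63 (τ : K ≃ₐ[k] K) (E : Submodule k K) (m : ℕ) :
    (E ^ m).map τ.toLinearMap = (E.map τ.toLinearMap) ^ m := by
  induction m with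
  | zero =>
    rw [pow_zero, pow_zero]
    exact Submodule.map_one (τ : K →ₐ[k] K)
  | succ m ih => rw [pow_succ, pow_succ, map_mul63, ih]

private theorem fr_map63 (τ : K ≃ₐ[k] K) (E : Submodule k K) : finrank k (E.map τ.toLinearMap) = finrank k E :=
  LinearEquiv.finrank_map_eq τ.toLinearEquiv E

private theorem fd_prod63 {α : Type*} (S : Finset α) (E : α → Submodule k K) (h : ∀ a, FiniteDimensional k (E a)) :
    FiniteDimensional k ↥(∏ a ∈ S, E a) := by
  classical
  induction S using Finset.induction_on with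
  | empty =>
    rw [Finset.prod_empty, Submodule.one_eq_span]
    exact FiniteDimensional.span_singleton k 1
  | insert a S ha ih =>
    rw [Finset.prod_insert ha]
    rw [← Submodule.fg_iff_finiteDimensional] at ih ⊢
    exact ((Submodule.fg_iff_finiteDimensional _).2 (h a)).mul ih

private theorem fd_pow63 (E : Submodule k K) [FiniteDimensional k E] (m : ℕ) : FiniteDimensional k ↥(E ^ m) := by
  rw [← Submodule.fg_iff_finiteDimensional]
  exact ((Submodule.fg_iff_finiteDimensional _).2 inferInstance).pow m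

private theorem mem_prod63 {α : Type*} (S : Finset α) (E : α → Submodule k K) (z : α → K) (h : ∀ a ∈ S, z a ∈ E a) :
    ∏ a ∈ S, z a ∈ ∏ a ∈ S, E a := by
  classical
  induction S using Finset.induction_on with
  | empty =>
    rw [Finset.prod_empty, Finset.prod_empty]
    exact Submodule.one_le.1 le_rfl
  | insert a S ha ih =>
    rw [Finset.prod_insert ha, Finset.prod_insert ha]
    exact Submodule.mul_mem_mul (h a (Finset.mem_insert_self a S)) (ih fun b hb => h b (Finset.mem_insert_of_mem hb))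

variable {G : Type*} [Group G] (s : G →* (K ≃ₐ[k] K))

private theorem ss63 (a b : G) (x : K) : s a (s b x) = s (a * b) x := by
  rw [map_mul]
  rfl

private theorem s_inv63 (a : G) (x : K) : s a (s a⁻¹ x) = x := by
  rw [ss63, mul_inv_cancel, map_one]
  rfl

private theorem map_map63 (a b : G) (E : Submodule k K) :
    (E.map (s a).toLinearMap).map (s b).toLinearMap = E.map (s (b * a)).toLinearMap := by
  rw [← Submodule.map_comp]
  congr 1
  ext x
  exact ss63 s b a x

private theorem stab63 [Fintype G] (E : Submodule k K) (h : G) :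
    (∏ a, E.map (s a).toLinearMap).map (s h).toLinearMap = ∏ a, E.map (s a).toLinearMap := by
  rw [map_prod63]
  simp only [map_map63]
  exact Fintype.prod_equiv (Equiv.mulLeft h) _ _ fun a => rfl

private theorem inv_mem63 {E : Submodule k K} (hE : ∀ h, E.map (s h).toLinearMap = E) (h : G) {z : K} (hz : z ∈ E) :
    s h z ∈ E := by
  rw [← hE h]
  exact ⟨z, hz, rfl⟩

private theorem pow_stab63 {E : Submodule k K} (hE : ∀ h, E.map (s h).toLinearMap = E) (m : ℕ) (h : G) :
    (E ^ m).map (s h).toLinearMap = E ^ m := by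
  rw [map_pow63, hE]

variable [Fintype G]

/-- one level -/
private theorem level63 [CharZero k] {ω : K → ℝ} (hω : RV k ω) (cs : ℝ) (W Q : Submodule k K) [FiniteDimensional k W]
    (hWs : ∀ h, W.map (s h).toLinearMap = W) (hW : ∀ h, W ≤ lev (hω.comp (s h)) (-cs)) (w q hh q' : ℕ) (hQ : Q ≤ W ^ q)
    (hbm : ∀ (m : Fin (Fintype.card G) → ℕ) (A : Fin (Fintype.card G) → Submodule k K), (∀ i, A i ≤ W ^ m i) →
      BMg (Fintype.card G) w Q A)
    (hinv : ∀ (m : ℕ) (B : Submodule k K), B ≤ W ^ m → (∀ g, ∀ z ∈ B, s g z ∈ B) →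
        finrank k B ≤ hh * finrank k (fx s (B * W ^ q'))) (m : ℕ) (a : ℝ) :
    Fintype.card G ^ w * finrank k ↥(W ^ m ⊓ lev hω (a - m * cs)) ≤
      hh * finrank k ↥(fx s (W ^ (Fintype.card G * m + q + q')) ⊓
        lev hω (a - ((Fintype.card G * m + q + q' : ℕ) : ℝ) * cs)) := by
  have hγ : 0 < Fintype.card G := Fintype.card_pos
  obtain ⟨γ, hγe⟩ : ∃ γ, γ = Fintype.card G := ⟨_, rfl⟩
  have e : Fin γ ≃ G := hγe ▸ (Fintype.equivFin G).symm
  rw [← hγe] at hγ hbm ⊢
  obtain ⟨A, hA⟩ : ∃ A, A = W ^ m ⊓ lev hω (a - m * cs) := ⟨_, rfl⟩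
  have hfd := fd_pow63 W
  -- Brunn-Minkowski
  have h1 : γ ^ w * finrank k A ≤ finrank k ↥((∏ g : G, A.map (s g).toLinearMap) * Q) := by
    have h2 := hbm (fun _ => m) (fun i => A.map (s (e i)).toLinearMap) (fun i => by
      rw [← pow_stab63 s hWs m (e i)]
      exact Submodule.map_mono (hA ▸ inf_le_left))
    unfold BMg at h2
    simp only [fr_map63] at h2
    rw [Finset.prod_const, Finset.card_univ, Fintype.card_fin, mul_comm γ w, pow_mul, ← mul_pow] at h2
    have h3 : (∏ i, A.map (s (e i)).toLinearMap) = ∏ g : G, A.map (s g).toLinearMap :=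
      Fintype.prod_equiv e _ _ fun i => rfl
    rw [h3] at h2
    exact le_of_pow_le_pow_left₀ hγ.ne' (Nat.zero_le _) h2
  -- the stable space
  obtain ⟨M, hM⟩ : ∃ M, M = γ * m + q := ⟨_, rfl⟩
  obtain ⟨B, hB⟩ : ∃ B : Submodule k K, B = W ^ M ⊓ ⨅ h : G, lev (hω.comp (s h)) (a - M * cs) := ⟨_, rfl⟩
  have hBW : B ≤ W ^ M := hB ▸ inf_le_left
  have h4 : (∏ g : G, A.map (s g).toLinearMap) * Q ≤ B := by
    rw [hB]
    refine le_inf ?_ (le_iInf fun h => ?_)
    · rw [hM, pow_add]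
      refine mul_le_mul' ?_ hQ
      calc (∏ g : G, A.map (s g).toLinearMap) ≤ ∏ _g : G, W ^ m := by
            refine Finset.prod_le_prod' fun g _ => ?_
            rw [← pow_stab63 s hWs m g]
            exact Submodule.map_mono (hA ▸ inf_le_left)
        _ = W ^ (γ * m) := by
            rw [Finset.prod_const, Finset.card_univ, ← hγe, ← pow_mul, mul_comm]
    · classical
      have h5 : (∏ g : G, A.map (s g).toLinearMap) ≤ lev (hω.comp (s h))
          (∑ g : G, (m * (-cs) + if g = h⁻¹ then a else 0)) := by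
        refine lev_prod63 _ _ _ _ fun g _ => ?_
        split_ifs with hg
        · subst hg
          rw [show m * (-cs) + a = a - m * cs by ring]
          rintro _ ⟨x, hx, rfl⟩
          rw [hA] at hx
          rcases hx.2 with h0 | h0
          · left
            simp [h0]
          · right
            show a - m * cs ≤ ω (s h (s h⁻¹ x))
            rw [s_inv63]
            exact h0
        · rw [add_zero]
          refine le_trans ?_ (lev_pow63 (hω.comp (s h)) (hW h) m)
          rw [← pow_stab63 s hWs m g]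
          exact Submodule.map_mono (hA ▸ inf_le_left)
      refine (mul_le_mul' h5 (hQ.trans (lev_pow63 (hω.comp (s h)) (hW h) q))).trans ((lev_mul63 _ _ _).trans (le_of_eq ?_))
      congr 1
      rw [Finset.sum_add_distrib, Finset.sum_ite_eq', if_pos (Finset.mem_univ _), Finset.sum_const, Finset.card_univ,
        ← hγe, nsmul_eq_mul, hM]
      push_cast
      ring
  have hfB : FiniteDimensional k B := Submodule.finiteDimensional_of_le hBW
  have h6 : finrank k ↥((∏ g : G, A.map (s g).toLinearMap) * Q) ≤ finrank k B := Submodule.finrank_mono h4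
  have hBs : ∀ g, ∀ z ∈ B, s g z ∈ B := by
    intro g z hz
    rw [hB] at hz ⊢
    refine ⟨inv_mem63 s (pow_stab63 s hWs M) g hz.1, ?_⟩
    have h7 := hz.2
    simp only [SetLike.mem_coe, Submodule.mem_iInf] at h7 ⊢
    intro h
    rcases h7 (h * g) with h0 | h0
    · left
      simp [h0]
    · right
      show a - M * cs ≤ ω (s h (s g z))
      rw [ss63]
      exact h0
  have h8 := hinv M B hBW hBs
  have h9 : fx s (B * W ^ q') ≤ fx s (W ^ (M + q')) ⊓ lev hω (a - ((M + q' : ℕ) : ℝ) * cs) := by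
    rintro z ⟨hz1, hz2⟩
    refine ⟨⟨?_, hz2⟩, ?_⟩
    · rw [pow_add]
      exact mul_le_mul' hBW le_rfl hz1
    · have h10 : B ≤ lev (hω.comp (s 1)) (a - M * cs) := by
        rw [hB]
        exact inf_le_right.trans (iInf_le _ 1)
      have h11 := (mul_le_mul' h10 (lev_pow63 (hω.comp (s 1)) (hW 1) q')).trans (lev_mul63 _ _ _) hz1
      have h12 : a - M * cs + q' * (-cs) = a - ((M + q' : ℕ) : ℝ) * cs := by push_cast; ring
      rw [h12] at h11
      rcases h11 with h0 | h0
      · exact Or.inl h0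
      · right
        have h13 : s 1 z = z := hz2 1
        have h14 : a - ((M + q' : ℕ) : ℝ) * cs ≤ ω (s 1 z) := h0
        rwa [h13] at h14
  have hfx : FiniteDimensional k ↥(fx s (W ^ (M + q')) ⊓ lev hω (a - ((M + q' : ℕ) : ℝ) * cs)) := by
    have h15 : fx s (W ^ (M + q')) ⊓ lev hω (a - ((M + q' : ℕ) : ℝ) * cs) ≤ W ^ (M + q') := fun z hz => hz.1.1
    exact Submodule.finiteDimensional_of_le h15
  have h16 := Submodule.finrank_mono h9
  rw [← hA, ← hM]
  calc γ ^ w * finrank k A ≤ finrank k B := h1.trans h6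
    _ ≤ hh * finrank k (fx s (B * W ^ q')) := h8
    _ ≤ _ := Nat.mul_le_mul_left _ h16

/-- the sum over the places and the group -/
private noncomputable def TG63 {P : Type*} [Fintype P] {ω : P → K → ℝ} (hω : ∀ v, RV k (ω v)) (c : P → G → ℝ) (N : ℕ)
    (E : Submodule k K) : ℕ :=
  ∑ v, ∑ g, SN ((hω v).comp (s g)) N (c v g) E

private theorem TG_map63 {P : Type*} [Fintype P] {ω : P → K → ℝ} (hω : ∀ v, RV k (ω v)) (c : P → G → ℝ) (N : ℕ)
    (E : Submodule k K) [FiniteDimensional k E] (a : G) :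
    ∑ i : P × G, SN ((hω i.1).comp (s i.2)) N (c i.1 (i.2 * a)) (E.map (s a).toLinearMap) = TG63 s hω c N E := by
  rw [Fintype.sum_prod_type]
  unfold TG63
  refine Finset.sum_congr rfl fun v _ => ?_
  refine Fintype.sum_equiv (Equiv.mulRight a) _ _ fun h => ?_
  show SN ((hω v).comp (s h)) N (c v (h * a)) (E.map (s a).toLinearMap) = SN ((hω v).comp (s (h * a))) N (c v (h * a)) E
  rw [← SN_comp ((hω v).comp (s h)) E (s a)]
  refine SN_congr63 _ _ ?_ _ _ _
  funext x
  show ω v (s h (s a x)) = ω v (s (h * a) x)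
  rw [ss63]

omit [Fintype G] in
private theorem fd_fx63 (E : Submodule k K) [FiniteDimensional k E] : FiniteDimensional k (fx s E) :=
  Submodule.finiteDimensional_of_le (show fx s E ≤ E from fun _ hz => hz.1)

private theorem core63 [CharZero k] {P : Type*} [Fintype P] (ω : P → K → ℝ) (hω : ∀ v, RV k (ω v)) (c : P → G → ℝ)
    (V : Submodule k K) [FiniteDimensional k V] (ha : ∀ v g, ∀ x ∈ V, x ≠ 0 → 0 ≤ ω v (s g x) + c v g)
    (hS : ∀ (m : ℕ) (E : Submodule k K), E ≤ (∏ g, V.map (s g).toLinearMap) ^ m → (∀ z ∈ E, ∀ g, s g z = z) →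
      ∀ (n : P → ℕ) (z : ∀ v, Fin (n v) → K), (∀ v, LinearIndependent k (z v)) → (∀ v i, z v i ∈ E) →
        ∑ v, ∑ i, (ω v (z v i) + m * ∑ g, c v g) ≤ m * finrank k E) {N : ℕ} (hN : 0 < N)
    (V' : Submodule k K) (hV' : V' ≤ V) (h0 : V' ≠ ⊥)
    (hmax : ∀ E ≤ V', finrank k V' * TG63 s hω c N E ≤ TG63 s hω c N V' * finrank k E) :
    TG63 s hω c N V' ≤
      (Fintype.card G * N + (finrank k V' * (Fintype.card P * Fintype.card G) + 1)) * finrank k V' := by
  have hfdV : FiniteDimensional k V' := Submodule.finiteDimensional_of_le hV'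
  obtain ⟨r, hr⟩ : ∃ r, r = finrank k V' := ⟨_, rfl⟩
  obtain ⟨t, ht⟩ : ∃ t, t = TG63 s hω c N V' := ⟨_, rfl⟩
  have hr0 : 0 < r := by
    rw [hr]
    exact Nat.pos_of_ne_zero fun h => h0 (Submodule.finrank_eq_zero.1 h)
  have hγ : 0 < Fintype.card G := Fintype.card_pos
  obtain ⟨cs, hcs⟩ : ∃ cs : P → ℝ, cs = fun v => ∑ g, c v g := ⟨_, rfl⟩
  have hcs' : ∀ v, cs v = ∑ g, c v g := fun v => by rw [hcs]
  obtain ⟨W, hW⟩ : ∃ W : Submodule k K, W = ∏ a, V'.map (s a).toLinearMap := ⟨_, rfl⟩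
  have hWs : ∀ h, W.map (s h).toLinearMap = W := fun h => by rw [hW]; exact stab63 s V' h
  have hmapfd : ∀ a, FiniteDimensional k ↥(V'.map (s a).toLinearMap) := fun a => inferInstance
  have hWfd : FiniteDimensional k W := by rw [hW]; exact fd_prod63 _ _ hmapfd
  have hWlev : ∀ v h, W ≤ lev ((hω v).comp (s h)) (-cs v) := by
    intro v h
    have h1 : ∏ a, V'.map (s a).toLinearMap ≤ lev ((hω v).comp (s h)) (∑ a, -c v (h * a)) := by
      refine lev_prod63 _ _ _ _ fun a _ => ?_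
      rintro _ ⟨x, hx, rfl⟩
      by_cases hx0 : x = 0
      · left
        simp [hx0]
      · right
        show -c v (h * a) ≤ ω v (s h (s a x))
        rw [ss63]
        have := ha v (h * a) x (hV' hx) hx0
        linarith
    have h2 : ∑ a, -c v (h * a) = -cs v := by
      rw [Finset.sum_neg_distrib, hcs']
      congr 1
      exact Fintype.sum_equiv (Equiv.mulLeft h) _ _ fun a => rfl
    rwa [h2, ← hW] at h1
  -- an invariant
  have hz : ∃ z ∈ W, z ≠ 0 ∧ ∀ g, s g z = z := by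
    obtain ⟨x, hx, hx0⟩ := Submodule.exists_mem_ne_zero_of_ne_bot h0
    refine ⟨∏ a, s a x, ?_, ?_, fun g => ?_⟩
    · rw [hW]
      exact mem_prod63 _ _ _ fun a _ => ⟨x, hx, rfl⟩
    · rw [Finset.prod_ne_zero_iff]
      intro a _
      simpa using hx0
    · rw [map_prod]
      refine Fintype.prod_equiv (Equiv.mulLeft g) _ _ fun a => ?_
      rw [ss63]
      rfl
  have hW0 : W ≠ ⊥ := by
    obtain ⟨z, hz1, hz2, _⟩ := hz
    intro h
    rw [h] at hz1
    exact hz2 hz1
  obtain ⟨w, q, C', Q, hQ, hbm, hgr⟩ := bm2_g hγ W hW0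
  obtain ⟨hh, q', hh0, hinv1, hinv2⟩ := inv_g s W (fun g z hz => inv_mem63 s hWs g hz) hz
  have hfdp : ∀ m : ℕ, FiniteDimensional k ↥(W ^ m) := fun m => fd_pow63 W m
  have hfdf : ∀ m : ℕ, FiniteDimensional k (fx s (W ^ m)) := fun m => by
    have := hfdp m
    exact fd_fx63 s _
  -- semistability
  have h1 : ∀ m : ℕ, m * finrank k ↥(W ^ m) * t ≤ r * (∑ v, SN (hω v) N (m * cs v) (W ^ m)) +
      m * finrank k ↥(W ^ m) * (r * (r * (Fintype.card P * Fintype.card G) + 1)) := by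
    intro m
    have h2 := ten_g (ι := P × G) (T := G) (fun i x => ω i.1 (s i.2 x)) (fun i => (hω i.1).comp (s i.2))
      (fun i a => c i.1 (i.2 * a)) (fun a => V'.map (s a).toLinearMap) hr0 (fun a => by rw [fr_map63, hr]) hN (by
        rintro i a _ ⟨x, hx, rfl⟩ hx0
        have hx1 : x ≠ 0 := by
          rintro rfl
          exact hx0 (map_zero _)
        show 0 ≤ ω i.1 (s i.2 (s a x)) + c i.1 (i.2 * a)
        rw [ss63]
        exact ha _ _ x (hV' hx) hx1) t (fun a => by rw [ht]; exact TG_map63 s hω c N V' a) (by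
        intro a E hE
        have hEE : (E.map (s a⁻¹).toLinearMap).map (s a).toLinearMap = E := by
          rw [map_map63, mul_inv_cancel, map_one]
          exact Submodule.map_id E
        have hE' : E.map (s a⁻¹).toLinearMap ≤ V' := by
          have h3 := Submodule.map_mono (f := (s a⁻¹).toLinearMap) hE
          rw [map_map63, inv_mul_cancel, map_one] at h3
          exact h3.trans (Submodule.map_id V').le
        have hEfd : FiniteDimensional k ↥(E.map (s a⁻¹).toLinearMap) := Submodule.finiteDimensional_of_le hE'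
        have h4 := TG_map63 s hω c N (E.map (s a⁻¹).toLinearMap) a
        rw [hEE] at h4
        have h5 := hmax _ hE'
        rw [fr_map63] at h5
        rw [ht, hr]
        show finrank k V' * ∑ i : P × G, SN ((hω i.1).comp (s i.2)) N (c i.1 (i.2 * a)) E ≤ _
        rw [h4]
        exact h5) m
    have h6 : ∑ i : P × G, SN ((hω i.1).comp (s i.2)) N (m * ∑ a, c i.1 (i.2 * a)) (W ^ m) =
        Fintype.card G * ∑ v, SN (hω v) N (m * cs v) (W ^ m) := by
      rw [Fintype.sum_prod_type, Finset.mul_sum]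
      refine Finset.sum_congr rfl fun v _ => ?_
      have h7 : ∀ h : G, SN ((hω v).comp (s h)) N (m * ∑ a, c v (h * a)) (W ^ m) = SN (hω v) N (m * cs v) (W ^ m) := by
        intro h
        have := hfdp m
        rw [SN_comp (hω v) (W ^ m) (s h), pow_stab63 s hWs, hcs']
        congr 2
        exact Fintype.sum_equiv (Equiv.mulLeft h) _ _ fun a => rfl
      simp only [h7]
      rw [Finset.sum_const, Finset.card_univ, smul_eq_mul]
    rw [← hW] at h2
    have h2' : Fintype.card G * m * finrank k ↥(W ^ m) * t ≤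
      r * (∑ i : P × G, SN ((hω i.1).comp (s i.2)) N (m * ∑ a, c i.1 (i.2 * a)) (W ^ m)) +
      Fintype.card G * m * finrank k ↥(W ^ m) * (r * (r * Fintype.card (P × G) + 1)) := h2
    rw [h6, Fintype.card_prod] at h2'
    have h8 : Fintype.card G * (m * finrank k ↥(W ^ m) * t) ≤ Fintype.card G *
        (r * (∑ v, SN (hω v) N (m * cs v) (W ^ m)) +
          m * finrank k ↥(W ^ m) * (r * (r * (Fintype.card P * Fintype.card G) + 1))) := by
      calc Fintype.card G * (m * finrank k ↥(W ^ m) * t) = Fintype.card G * m * finrank k ↥(W ^ m) * t := by ring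
        _ ≤ _ := h2'
        _ = _ := by ring
    exact Nat.le_of_mul_le_mul_left h8 hγ
  -- levels
  have h2 : ∀ (m : ℕ) (v : P), Fintype.card G ^ w * SN (hω v) N (m * cs v) (W ^ m) ≤
      hh * SN (hω v) N (((Fintype.card G * m + q + q' : ℕ) : ℝ) * cs v) (fx s (W ^ (Fintype.card G * m + q + q'))) := by
    intro m v
    have := hfdp m
    have := hfdf (Fintype.card G * m + q + q')
    obtain ⟨M1, hM1⟩ := SN_eq (hω v) (W ^ m) hN (m * cs v)
    obtain ⟨M2, hM2⟩ := SN_eq (hω v) (fx s (W ^ (Fintype.card G * m + q + q'))) hN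
      (((Fintype.card G * m + q + q' : ℕ) : ℝ) * cs v)
    rw [hM1 (max M1 M2) (le_max_left _ _) _ le_rfl, hM2 (max M1 M2) (le_max_right _ _) _ le_rfl, Finset.mul_sum,
      Finset.mul_sum]
    refine Finset.sum_le_sum fun j _ => ?_
    exact level63 s (hω v) (cs v) W Q hWs (hWlev v) w q hh q' hQ hbm hinv2 m _
  -- the hypothesis SUB
  have h3 : ∀ M : ℕ, (∑ v, SN (hω v) N (M * cs v) (fx s (W ^ M)) : ℝ) ≤ N * (M * finrank k (fx s (W ^ M))) := by
    intro M
    have := hfdf M
    have hle : ∀ v, ∀ x ∈ fx s (W ^ M), x ≠ 0 → 0 ≤ ω v x + M * cs v := by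
      intro v x hx hx0
      have h4 := lev_pow63 ((hω v).comp (s 1)) (hWlev v 1) M hx.1
      have h5 : (M : ℝ) * (-cs v) ≤ ω v (s 1 x) := h4.resolve_left hx0
      rw [hx.2 1] at h5
      linarith
    choose e he1 he2 he3 using fun v => SN_le (hω v) (fx s (W ^ M)) hN (M * cs v) (hle v)
    have hEV : fx s (W ^ M) ≤ (∏ g, V.map (s g).toLinearMap) ^ M := by
      have h6 : W ≤ ∏ g, V.map (s g).toLinearMap := by
        rw [hW]
        exact Finset.prod_le_prod' fun g _ => Submodule.map_mono hV'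
      exact (show fx s (W ^ M) ≤ W ^ M from fun _ hz => hz.1).trans (pow_le_pow_left' h6 M)
    have h7 := hS M (fx s (W ^ M)) hEV (fun z hz => hz.2) (fun _ => finrank k (fx s (W ^ M))) e he1 he2
    calc (∑ v, SN (hω v) N (M * cs v) (fx s (W ^ M)) : ℝ) ≤ ∑ v, N * ∑ i, (ω v (e v i) + M * cs v) :=
          Finset.sum_le_sum fun v _ => he3 v
      _ = N * ∑ v, ∑ i, (ω v (e v i) + M * ∑ g, c v g) := by
          rw [Finset.mul_sum]
          simp only [hcs']
      _ ≤ N * (M * finrank k (fx s (W ^ M))) := by gcongr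
  -- conclusion
  obtain ⟨D, hD⟩ : ∃ D : ℕ → ℕ, D = fun m => finrank k ↥(W ^ m) := ⟨_, rfl⟩
  have hD' : ∀ m, finrank k ↥(W ^ m) = D m := fun m => by rw [hD]
  have hD1 : ∀ m, 1 ≤ D m := by
    intro m
    rw [← hD']
    have := hfdp m
    rw [Submodule.one_le_finrank_iff]
    intro h
    obtain ⟨z, hz1, hz2, _⟩ := hz
    have h4 : z ^ m ∈ W ^ m := Submodule.pow_mem_pow W hz1 m
    rw [h] at h4
    exact pow_ne_zero m hz2 h4
  rw [← ht, ← hr]
  by_contra hlt
  push Not at hlt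
  obtain ⟨C0, hC0⟩ : ∃ C0, C0 = r * (Fintype.card P * Fintype.card G) + 1 := ⟨_, rfl⟩
  rw [← hC0] at hlt
  simp only [← hC0] at h1
  obtain ⟨γ, hγe⟩ : ∃ γ, γ = Fintype.card G := ⟨_, rfl⟩
  rw [← hγe] at hγ hlt h2
  obtain ⟨δ, hδ⟩ : ∃ δ : ℝ, δ = t - (γ * N + C0) * r := ⟨_, rfl⟩
  have hδ0 : 0 < δ := by
    rw [hδ, sub_pos]
    exact_mod_cast hlt
  have hγR : (0 : ℝ) < γ := by exact_mod_cast hγ
  have hrR : (0 : ℝ) < r := by exact_mod_cast hr0
  have hNR : (0 : ℝ) < N := by exact_mod_cast hN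
  obtain ⟨ε, hε⟩ : ∃ ε : ℝ, ε = δ / (2 * (r * N * γ)) := ⟨_, rfl⟩
  have hε0 : 0 < ε := by rw [hε]; positivity
  obtain ⟨m0, hm0⟩ := exists_nat_gt (2 * (r * N * (q + q') * (1 + ε)) / δ)
  obtain ⟨m, hm, hgm⟩ := gro_g hγ D hD1 w C' (fun m => by rw [← hD']; exact hgr m) (q + q' + q') hε0 (m0 + 1)
  have hmR : (m0 : ℝ) + 1 ≤ m := by exact_mod_cast hm
  -- chain
  obtain ⟨M, hM⟩ : ∃ M, M = γ * m + q + q' := ⟨_, rfl⟩
  have k1 := h1 m
  have k2 : γ ^ w * ∑ v, SN (hω v) N (m * cs v) (W ^ m) ≤ hh * ∑ v, SN (hω v) N ((M : ℝ) * cs v) (fx s (W ^ M)) := by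
    rw [Finset.mul_sum, Finset.mul_sum]
    refine Finset.sum_le_sum fun v _ => ?_
    rw [hM]
    exact h2 m v
  have k3 := h3 M
  have k4 := hinv1 M
  rw [hD'] at k1 k4
  have k5 : M + q' = γ * m + (q + q' + q') := by rw [hM]; ring
  rw [k5] at k4
  have k1' : (m : ℝ) * D m * t ≤ r * (∑ v, SN (hω v) N (m * cs v) (W ^ m) : ℝ) + m * D m * (r * C0) := by
    exact_mod_cast k1
  have k2' : (γ : ℝ) ^ w * (∑ v, SN (hω v) N (m * cs v) (W ^ m) : ℝ) ≤
      hh * (∑ v, SN (hω v) N ((M : ℝ) * cs v) (fx s (W ^ M)) : ℝ) := by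
    exact_mod_cast k2
  have k4' : (hh : ℝ) * finrank k (fx s (W ^ M)) ≤ D (γ * m + (q + q' + q')) := by exact_mod_cast k4
  have hhR : (0 : ℝ) < hh := by exact_mod_cast hh0
  have hDm : (0 : ℝ) < D m := by exact_mod_cast hD1 m
  have hMR : (M : ℝ) = γ * m + q + q' := by rw [hM]; push_cast; ring
  have hγw : (0 : ℝ) < (γ : ℝ) ^ w := by positivity
  obtain ⟨S1, hS1⟩ : ∃ S1 : ℝ, S1 = (∑ v, SN (hω v) N (m * cs v) (W ^ m) : ℝ) := ⟨_, rfl⟩
  obtain ⟨S2, hS2⟩ : ∃ S2 : ℝ, S2 = (∑ v, SN (hω v) N ((M : ℝ) * cs v) (fx s (W ^ M)) : ℝ) := ⟨_, rfl⟩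
  rw [← hS1] at k1' k2'
  rw [← hS2] at k2' k3
  have k6 : (γ : ℝ) ^ w * S1 ≤ N * M * ((1 + ε) * γ ^ w * D m) := by
    calc (γ : ℝ) ^ w * S1 ≤ hh * S2 := k2'
      _ ≤ hh * (N * (M * finrank k (fx s (W ^ M)))) := by gcongr
      _ = N * M * (hh * finrank k (fx s (W ^ M))) := by ring
      _ ≤ N * M * D (γ * m + (q + q' + q')) := by gcongr
      _ ≤ N * M * ((1 + ε) * γ ^ w * D m) := by gcongr
  have k7 : S1 ≤ N * M * (1 + ε) * D m := by
    have : (γ : ℝ) ^ w * S1 ≤ γ ^ w * (N * M * (1 + ε) * D m) := by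
      calc (γ : ℝ) ^ w * S1 ≤ N * M * ((1 + ε) * γ ^ w * D m) := k6
        _ = _ := by ring
    exact le_of_mul_le_mul_left this hγw
  have k8 : (m : ℝ) * t ≤ r * (N * M * (1 + ε)) + m * (r * C0) := by
    have : (D m : ℝ) * (m * t) ≤ D m * (r * (N * M * (1 + ε)) + m * (r * C0)) := by
      calc (D m : ℝ) * (m * t) = m * D m * t := by ring
        _ ≤ r * S1 + m * D m * (r * C0) := k1'
        _ ≤ r * (N * M * (1 + ε) * D m) + m * D m * (r * C0) := by gcongr
        _ = _ := by ring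
    exact le_of_mul_le_mul_left this hDm
  have k9 : (m : ℝ) * δ ≤ r * N * (q + q') * (1 + ε) + m * (δ / 2) := by
    have e1 : (m : ℝ) * δ = m * t - m * (γ * N * r) - m * (r * C0) := by rw [hδ]; ring
    have e2 : ε * (r * N * γ) = δ / 2 := by rw [hε]; field_simp
    have e3 : (m : ℝ) * (δ / 2) = m * (ε * (r * N * γ)) := by rw [e2]
    rw [e1, e3]
    rw [hMR] at k8
    nlinarith [k8]
  have k10 : (m : ℝ) * (δ / 2) ≤ r * N * (q + q') * (1 + ε) := by linarith
  rw [div_lt_iff₀ hδ0] at hm0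
  nlinarith

private theorem TG_mono63 {P : Type*} [Fintype P] {ω : P → K → ℝ} (hω : ∀ v, RV k (ω v)) (c : P → G → ℝ) {N : ℕ}
    (hN : 0 < N) {E E' : Submodule k K} [FiniteDimensional k E] (h : E' ≤ E) : TG63 s hω c N E' ≤ TG63 s hω c N E :=
  Finset.sum_le_sum fun _ _ => Finset.sum_le_sum fun _ _ => SN_mono _ _ hN _ h

private theorem TG_bot63 {P : Type*} [Fintype P] {ω : P → K → ℝ} (hω : ∀ v, RV k (ω v)) (c : P → G → ℝ) (N : ℕ) :
    TG63 s hω c N ⊥ = 0 :=
  Finset.sum_eq_zero fun _ _ => Finset.sum_eq_zero fun _ _ => SN_bot _ _ _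

/-- a subspace of maximal slope -/
private theorem slope63 {P : Type*} [Fintype P] {ω : P → K → ℝ} (hω : ∀ v, RV k (ω v)) (c : P → G → ℝ) {N : ℕ}
    (hN : 0 < N) (V : Submodule k K) [FiniteDimensional k V] (hV : V ≠ ⊥) :
    ∃ V' ≤ V, V' ≠ ⊥ ∧ ∀ E ≤ V, finrank k V' * TG63 s hω c N E ≤ TG63 s hω c N V' * finrank k E := by
  have hfr : ∀ E ≤ V, E ≠ ⊥ → 0 < finrank k E := by
    intro E hE hE0
    have : FiniteDimensional k E := Submodule.finiteDimensional_of_le hE
    exact Nat.pos_of_ne_zero fun h => hE0 (Submodule.finrank_eq_zero.1 h)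
  obtain ⟨R, hR⟩ : ∃ R : Set ℚ, R = {x | ∃ E ≤ V, E ≠ ⊥ ∧ x = (TG63 s hω c N E : ℚ) / finrank k E} := ⟨_, rfl⟩
  have hfin : R.Finite := by
    refine (((Finset.range (TG63 s hω c N V + 1)) ×ˢ (Finset.range (finrank k V + 1))).finite_toSet.image
      fun x : ℕ × ℕ => (x.1 : ℚ) / x.2).subset ?_
    rw [hR]
    rintro _ ⟨E, hE, hE0, rfl⟩
    refine ⟨(TG63 s hω c N E, finrank k E), ?_, rfl⟩
    rw [Finset.mem_coe, Finset.mem_product, Finset.mem_range, Finset.mem_range]
    exact ⟨Nat.lt_succ_of_le (TG_mono63 s hω c hN hE), Nat.lt_succ_of_le (Submodule.finrank_mono hE)⟩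
  have hne : R.Nonempty := ⟨_, by rw [hR]; exact ⟨V, le_rfl, hV, rfl⟩⟩
  obtain ⟨x, hx, hmax⟩ := Set.exists_max_image R id hfin hne
  rw [hR] at hx
  obtain ⟨V', hV', hV0, rfl⟩ := hx
  refine ⟨V', hV', hV0, fun E hE => ?_⟩
  by_cases hE0 : E = ⊥
  · subst hE0
    rw [TG_bot63, mul_zero]
    exact Nat.zero_le _
  have h1 := hmax ((TG63 s hω c N E : ℚ) / finrank k E) (by rw [hR]; exact ⟨E, hE, hE0, rfl⟩)
  have h2 : (TG63 s hω c N E : ℚ) / finrank k E ≤ (TG63 s hω c N V' : ℚ) / finrank k V' := h1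
  have h3 : (0 : ℚ) < finrank k E := by exact_mod_cast hfr E hE hE0
  have h4 : (0 : ℚ) < finrank k V' := by exact_mod_cast hfr V' hV' hV0
  rw [div_le_div_iff₀ h3 h4] at h2
  have h5 : (finrank k V' : ℚ) * TG63 s hω c N E ≤ TG63 s hω c N V' * finrank k E := by
    rw [mul_comm]
    exact h2
  exact_mod_cast h5

theorem abs_g [CharZero k] {P : Type*} [Fintype P] (ω : P → K → ℝ) (hω : ∀ v, RV k (ω v)) (c : P → G → ℝ)
    (V : Submodule k K) [FiniteDimensional k V] (ha : ∀ v g, ∀ x ∈ V, x ≠ 0 → 0 ≤ ω v (s g x) + c v g)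
    (hS : ∀ (m : ℕ) (E : Submodule k K), E ≤ (∏ g, V.map (s g).toLinearMap) ^ m → (∀ z ∈ E, ∀ g, s g z = z) →
      ∀ (n : P → ℕ) (z : ∀ v, Fin (n v) → K), (∀ v, LinearIndependent k (z v)) → (∀ v i, z v i ∈ E) →
        ∑ v, ∑ i, (ω v (z v i) + m * ∑ g, c v g) ≤ m * finrank k E) :
    ∃ C : ℕ, ∀ N : ℕ, 0 < N → ∑ v, ∑ g, SN ((hω v).comp (s g)) N (c v g) V ≤ (Fintype.card G * N + C) * finrank k V := by
  refine ⟨finrank k V * (Fintype.card P * Fintype.card G) + 1, fun N hN => ?_⟩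
  by_cases hV : V = ⊥
  · subst hV
    have h1 : ∑ v, ∑ g, SN ((hω v).comp (s g)) N (c v g) (⊥ : Submodule k K) = 0 := TG_bot63 s hω c N
    rw [h1]
    exact Nat.zero_le _
  obtain ⟨V', hV', hV0, hmax⟩ := slope63 s hω c hN V hV
  have hfd : FiniteDimensional k V' := Submodule.finiteDimensional_of_le hV'
  have h1 := core63 s ω hω c V ha hS hN V' hV' hV0 fun E hE => hmax E (hE.trans hV')
  have h2 := hmax V le_rfl
  have h3 : 0 < finrank k V' := Nat.pos_of_ne_zero fun h => hV0 (Submodule.finrank_eq_zero.1 h)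
  have h4 : finrank k V' ≤ finrank k V := Submodule.finrank_mono hV'
  show TG63 s hω c N V ≤ _
  have h5 : finrank k V' * TG63 s hω c N V ≤ finrank k V' *
      ((Fintype.card G * N + (finrank k V * (Fintype.card P * Fintype.card G) + 1)) * finrank k V) := by
    calc finrank k V' * TG63 s hω c N V ≤ TG63 s hω c N V' * finrank k V := h2
      _ ≤ ((Fintype.card G * N + (finrank k V' * (Fintype.card P * Fintype.card G) + 1)) * finrank k V') *
          finrank k V := Nat.mul_le_mul_right _ h1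
      _ ≤ ((Fintype.card G * N + (finrank k V * (Fintype.card P * Fintype.card G) + 1)) * finrank k V') *
          finrank k V := by gcongr
      _ = _ := by ring
  exact Nat.le_of_mul_le_mul_left h5 h3

/-- The form for independent families. -/
theorem thm_g [CharZero k] {P : Type*} [Fintype P] (ω : P → K → ℝ) (hω : ∀ v, RV k (ω v)) (c : P → G → ℝ)
    (V : Submodule k K) [FiniteDimensional k V] (ha : ∀ v g, ∀ x ∈ V, x ≠ 0 → 0 ≤ ω v (s g x) + c v g)
    (hS : ∀ (m : ℕ) (E : Submodule k K), E ≤ (∏ g, V.map (s g).toLinearMap) ^ m → (∀ z ∈ E, ∀ g, s g z = z) →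
      ∀ (n : P → ℕ) (z : ∀ v, Fin (n v) → K), (∀ v, LinearIndependent k (z v)) → (∀ v i, z v i ∈ E) →
        ∑ v, ∑ i, (ω v (z v i) + m * ∑ g, c v g) ≤ m * finrank k E)
    (n : P → G → ℕ) (e : ∀ v g, Fin (n v g) → K) (he : ∀ v g, LinearIndependent k (e v g)) (heV : ∀ v g i, e v g i ∈ V) :
    ∑ v, ∑ g, ∑ i, (ω v (s g (e v g i)) + c v g) ≤ Fintype.card G * finrank k V := by
  obtain ⟨C, hC⟩ := abs_g s ω hω c V ha hS
  obtain ⟨X, hX⟩ : ∃ X : ℝ, X = ∑ v, ∑ g, ∑ i, (ω v (s g (e v g i)) + c v g) := ⟨_, rfl⟩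
  obtain ⟨R, hR⟩ : ∃ R : ℝ, R = C * finrank k V + ∑ v, ∑ g, (n v g : ℝ) := ⟨_, rfl⟩
  have h1 : ∀ N : ℕ, 0 < N → (N : ℝ) * X ≤ N * (Fintype.card G * finrank k V) + R := by
    intro N hN
    have h2 : (N : ℝ) * X ≤ ∑ v, ∑ g, ((SN ((hω v).comp (s g)) N (c v g) V : ℝ) + n v g) := by
      rw [hX, Finset.mul_sum]
      refine Finset.sum_le_sum fun v _ => ?_
      rw [Finset.mul_sum]
      refine Finset.sum_le_sum fun g _ => ?_
      exact SN_ge ((hω v).comp (s g)) V hN (c v g) (e v g) (he v g) (heV v g)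
    have h3 : (∑ v, ∑ g, (SN ((hω v).comp (s g)) N (c v g) V : ℝ)) ≤ (Fintype.card G * N + C) * finrank k V := by
      exact_mod_cast hC N hN
    simp only [Finset.sum_add_distrib] at h2
    rw [hR]
    linarith
  rw [← hX]
  by_contra hlt
  push Not at hlt
  have hδ : 0 < X - Fintype.card G * finrank k V := sub_pos.2 hlt
  obtain ⟨N, hN⟩ := exists_nat_gt (R / (X - Fintype.card G * finrank k V))
  rw [div_lt_iff₀ hδ] at hN
  have h4 := h1 (N + 1) (Nat.succ_pos N)
  push_cast at h4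
  nlinarith

end

end Pool.Agent.SQ
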