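import Pool.Agent.Helper42.SQ.FB
import Pool.Agent.Helper42.SQ.ABSg

/-!
# SQ, stage 3, block FBg: Theorem B for a finite group
-/

set_option autoImplicit false

namespace Pool.Agent.SQ

open Module

universe u

theorem thmB_g {k K : Type u} [Field k] [CharZero k] [Field K] [Algebra k K] {G : Type*} [Group G] [Fintype G]
    (s : G →* (K ≃ₐ[k] K)) {P : Type*} [Fintype P] (ω : P → K → ℝ) (hω : ∀ v, RV k (ω v)) (c : P → G → ℝ)
    (V : Submodule k K) [FiniteDimensional k V] (ha : ∀ v g, ∀ x ∈ V, x ≠ 0 → 0 ≤ ω v (s g x) + c v g)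
    (hS : ∀ (m : ℕ) (E : Submodule k K), E ≤ (∏ g, V.map (s g).toLinearMap) ^ m → (∀ z ∈ E, ∀ g, s g z = z) →
      ∀ (n : P → ℕ) (z : ∀ v, Fin (n v) → K), (∀ v, LinearIndependent k (z v)) → (∀ v i, z v i ∈ E) →
        ∑ v, ∑ i, (ω v (z v i) + m * ∑ g, c v g) ≤ m * finrank k E)
    (h1 : ∀ v g, ∃ x ∈ V, x ≠ 0 ∧ ω v (s g x) + c v g = 0)
    (hpf : ∀ x ∈ V, x ≠ 0 → ∑ v, ∑ g, (ω v (s g x) + c v g) ≤ 1)
    {q p : ℕ} (L : Fin q → V) (hL : ∀ i, L i ≠ 0) (hC : Comb k L p) :
    ∑ v, ∑ g, ∑ i, (ω v (s g (L i)) + c v g) ≤ Fintype.card G * finrank k V + 2 * p := by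
  obtain ⟨C, hN⟩ := abs_g s ω hω c V ha hS
  have hO : ∀ i : P × G, RV k ((fun (i : P × G) (x : K) => ω i.1 (s i.2 x)) i) := fun i => (hω i.1).comp (s i.2)
  have key : ∀ N : ℕ, 0 < N → ∑ v, ∑ g, ∑ i, (ω v (s g (L i)) + c v g) ≤
      Fintype.card G * finrank k V + 2 * p + (C * finrank k V + Fintype.card (P × G) * q) / N := by
    intro N hN0
    have hN' : (0 : ℝ) < N := by exact_mod_cast hN0
    have h3 := FB_comb_sum (fun (i : P × G) (x : K) => ω i.1 (s i.2 x)) hO (fun i => c i.1 i.2) V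
      (fun i x hx hx0 => ha i.1 i.2 x hx hx0) (fun i => h1 i.1 i.2)
      (by
        intro x hx hx0
        rw [Fintype.sum_prod_type]
        exact hpf x hx hx0) L hL hC hN0
    rw [Fintype.sum_prod_type, Fintype.sum_prod_type] at h3
    have h5 : (∑ v, ∑ g, (SN ((hω v).comp (s g)) N (c v g) V : ℝ)) ≤ (Fintype.card G * N + C) * finrank k V := by
      exact_mod_cast hN N hN0
    have h6 : (∑ v, ∑ g, (SN ((hω v).comp (s g)) N (c v g) V : ℝ)) / N ≤
        Fintype.card G * finrank k V + C * finrank k V / N := by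
      rw [div_le_iff₀ hN']
      refine h5.trans (le_of_eq ?_)
      field_simp
    refine h3.trans ?_
    have h7 : (C * finrank k V + Fintype.card (P × G) * q : ℝ) / N = C * finrank k V / N + Fintype.card (P × G) * q / N := by
      ring
    rw [h7]
    have h8 : (∑ v, ∑ g, (SN (hO (v, g)) N (c v g) V : ℝ)) / N ≤ Fintype.card G * finrank k V + C * finrank k V / N := h6
    linarith
  refine le_of_forall_pos_le_add fun ε hε => ?_
  obtain ⟨N, hN1⟩ := exists_nat_gt ((C * finrank k V + Fintype.card (P × G) * q : ℝ) / ε)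
  have hB : (0 : ℝ) ≤ (C * finrank k V + Fintype.card (P × G) * q : ℝ) := by positivity
  have hN' : (0 : ℝ) < N := lt_of_le_of_lt (by positivity) hN1
  have h9 : (C * finrank k V + Fintype.card (P × G) * q : ℝ) / N ≤ ε := by
    rw [div_le_iff₀ hN']
    rw [div_lt_iff₀ hε] at hN1
    linarith
  have := key N (by exact_mod_cast hN')
  linarith

end Pool.Agent.SQ
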