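import Pool.Agent.Helper42.SQ.HTg

/-!
# SQ, stage 2, block GERg: the field of germs of height `O(H)` with the action of `G`
-/

set_option autoImplicit false

namespace Pool.Agent.SQ

open NumberField Filter Module
open Pool.Agent.Helper64.Vojta (Pl nv)
open Pool.Agent.V2

universe u

section

variable {k : Type u} [Field k] [NumberField k] {G : Type} [Group G] [Fintype G] (D : SqG k G)

private theorem one_le_H68g : ∀ᶠ n in (D.U : Filter ℕ), 1 ≤ D.H n := D.H1.eventually_ge_atTop 1

private theorem bdd_alg68g (c : k) : BddG D fun n => algebraMap k (D.L n) c := by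
  obtain ⟨C, hC⟩ := htg_alg G c
  refine ⟨max C 0, ?_⟩
  filter_upwards [one_le_H68g D] with n hn
  have h1 := hC (D.L n) (D.s n) (D.N n) (D.qs n)
  have h2 : max C 0 * 1 ≤ max C 0 * D.H n := mul_le_mul_of_nonneg_left hn (le_max_right _ _)
  have h3 := le_max_left C 0
  linarith

private theorem bdd_add68g {x y : ∀ n, D.L n} (hx : BddG D x) (hy : BddG D y) : BddG D (x + y) := by
  obtain ⟨C, hC⟩ := htg_add k G
  obtain ⟨A, hA⟩ := hx
  obtain ⟨B, hB⟩ := hy
  refine ⟨A + B + max C 0, ?_⟩
  filter_upwards [hA, hB, one_le_H68g D] with n h1 h2 h3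
  have h4 := hC (D.L n) (D.s n) (D.N n) (D.qs n) (x n) (y n)
  have h5 : max C 0 * 1 ≤ max C 0 * D.H n := mul_le_mul_of_nonneg_left h3 (le_max_right _ _)
  have h6 := le_max_left C 0
  have h7 : (x + y) n = x n + y n := rfl
  rw [h7]
  nlinarith

private theorem bdd_mul68g {x y : ∀ n, D.L n} (hx : BddG D x) (hy : BddG D y) : BddG D (x * y) := by
  obtain ⟨A, hA⟩ := hx
  obtain ⟨B, hB⟩ := hy
  refine ⟨A + B, ?_⟩
  filter_upwards [hA, hB] with n h1 h2
  have h4 := htg_mul (D.qs n) (x n) (y n)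
  have h7 : (x * y) n = x n * y n := rfl
  rw [h7]
  nlinarith

private theorem bdd_sig68g (g : G) {x : ∀ n, D.L n} (hx : BddG D x) : BddG D fun n => D.s n g (x n) := by
  obtain ⟨A, hA⟩ := hx
  refine ⟨A, ?_⟩
  filter_upwards [hA] with n h1
  rw [htg_s (D.qs n)]
  exact h1

private theorem bdd_inv68g {x : ∀ n, D.L n} (hx : BddG D x) : BddG D fun n => (x n)⁻¹ := by
  obtain ⟨A, hA⟩ := hx
  refine ⟨A, ?_⟩
  filter_upwards [hA] with n h1
  by_cases h : x n = 0
  · rw [h, inv_zero, ← h]
    exact h1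
  · rw [htg_inv (D.qs n) _ h]
    exact h1

/-- the bounded families -/
private def gA : Subalgebra k (∀ n, D.L n) where
  carrier := {x | BddG D x}
  mul_mem' := fun hx hy => bdd_mul68g D hx hy
  add_mem' := fun hx hy => bdd_add68g D hx hy
  algebraMap_mem' := fun c => bdd_alg68g D c

private def gI : Ideal (gA D) where
  carrier := {x | ∀ᶠ n in (D.U : Filter ℕ), x.1 n = 0}
  zero_mem' := Eventually.of_forall fun n => rfl
  add_mem' := by
    intro x y hx hy
    filter_upwards [hx, hy] with n h1 h2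
    show x.1 n + y.1 n = 0
    rw [h1, h2, add_zero]
  smul_mem' := by
    intro c x hx
    filter_upwards [hx] with n h1
    show c.1 n * x.1 n = 0
    rw [h1, mul_zero]

private theorem mem_gI {x : gA D} : x ∈ gI D ↔ ∀ᶠ n in (D.U : Filter ℕ), x.1 n = 0 := Iff.rfl

private theorem gI_max : (gI D).IsMaximal := by
  rw [Ideal.isMaximal_iff]
  constructor
  · intro h
    have h1 : ∀ᶠ n in (D.U : Filter ℕ), ((1 : gA D) : ∀ n, D.L n) n = 0 := h
    obtain ⟨n, hn⟩ := h1.exists
    exact one_ne_zero (α := D.L n) hn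
  · intro J x hJ hx hxJ
    have hne : ∀ᶠ n in (D.U : Filter ℕ), x.1 n ≠ 0 := by
      rw [Ultrafilter.eventually_not]
      exact hx
    let y : gA D := ⟨fun n => (x.1 n)⁻¹, bdd_inv68g D x.2⟩
    have h1 : 1 - y * x ∈ J := by
      apply hJ
      rw [mem_gI]
      filter_upwards [hne] with n hn
      show 1 - (x.1 n)⁻¹ * x.1 n = 0
      rw [inv_mul_cancel₀ hn, sub_self]
    have h2 : y * x ∈ J := J.mul_mem_left y hxJ
    have h3 := J.add_mem h1 h2
    rwa [sub_add_cancel] at h3

private def gs (g : G) : gA D →ₐ[k] gA D where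
  toFun x := ⟨fun n => D.s n g (x.1 n), bdd_sig68g D g x.2⟩
  map_one' := Subtype.ext (funext fun n => map_one (D.s n g))
  map_mul' x y := Subtype.ext (funext fun n => map_mul (D.s n g) (x.1 n) (y.1 n))
  map_zero' := Subtype.ext (funext fun n => map_zero (D.s n g))
  map_add' x y := Subtype.ext (funext fun n => map_add (D.s n g) (x.1 n) (y.1 n))
  commutes' c := Subtype.ext (funext fun n => (D.s n g).commutes c)

private theorem gs_mul (g g' : G) (x : gA D) : gs D (g * g') x = gs D g (gs D g' x) :=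
  Subtype.ext (funext fun n => by
    show D.s n (g * g') (x.1 n) = D.s n g (D.s n g' (x.1 n))
    rw [map_mul]
    rfl)

private theorem gs_one (x : gA D) : gs D 1 x = x :=
  Subtype.ext (funext fun n => by
    show D.s n 1 (x.1 n) = x.1 n
    rw [map_one]
    rfl)

private def gt (g : G) : (gA D ⧸ gI D) →ₐ[k] (gA D ⧸ gI D) :=
  Ideal.quotientMapₐ (gI D) (gs D g) (by
    intro x hx
    rw [Ideal.mem_comap, mem_gI]
    rw [mem_gI] at hx
    filter_upwards [hx] with n hn
    show D.s n g (x.1 n) = 0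
    rw [hn, map_zero])

private theorem gt_mk (g : G) (x : gA D) :
    gt D g (Ideal.Quotient.mk (gI D) x) = Ideal.Quotient.mk (gI D) (gs D g x) := rfl

private theorem gt_mul (g g' : G) (x : gA D ⧸ gI D) : gt D (g * g') x = gt D g (gt D g' x) := by
  obtain ⟨y, rfl⟩ := Ideal.Quotient.mk_surjective x
  rw [gt_mk, gt_mk, gt_mk, gs_mul]

private theorem gt_one (x : gA D ⧸ gI D) : gt D 1 x = x := by
  obtain ⟨y, rfl⟩ := Ideal.Quotient.mk_surjective x
  rw [gt_mk, gs_one]

private def ge (g : G) : (gA D ⧸ gI D) ≃ₐ[k] (gA D ⧸ gI D) :=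
  AlgEquiv.ofAlgHom (gt D g) (gt D g⁻¹)
    (AlgHom.ext fun x => by
      show gt D g (gt D g⁻¹ x) = x
      rw [← gt_mul, mul_inv_cancel, gt_one])
    (AlgHom.ext fun x => by
      show gt D g⁻¹ (gt D g x) = x
      rw [← gt_mul, inv_mul_cancel, gt_one])

private noncomputable def gr (x : gA D ⧸ gI D) : gA D :=
  Function.surjInv (Ideal.Quotient.mk_surjective (I := gI D)) x

private theorem mk_gr (x : gA D ⧸ gI D) : Ideal.Quotient.mk (gI D) (gr D x) = x :=
  Function.surjInv_eq _ x

private theorem ev_of_mk {x y : gA D} (h : Ideal.Quotient.mk (gI D) x = Ideal.Quotient.mk (gI D) y) :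
    ∀ᶠ n in (D.U : Filter ℕ), x.1 n = y.1 n := by
  have h1 := (mem_gI D).1 (Ideal.Quotient.eq.1 h)
  filter_upwards [h1] with n hn
  exact sub_eq_zero.1 hn

private theorem mk_of_ev {x y : gA D} (h : ∀ᶠ n in (D.U : Filter ℕ), x.1 n = y.1 n) :
    Ideal.Quotient.mk (gI D) x = Ideal.Quotient.mk (gI D) y := by
  rw [Ideal.Quotient.eq, mem_gI]
  filter_upwards [h] with n hn
  exact sub_eq_zero.2 hn


theorem ger_g : Nonempty (GFG D) := by
  have := gI_max D
  exact ⟨{
    K := gA D ⧸ gI D
    fK := Ideal.Quotient.field (gI D)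
    aK := inferInstance
    s :=
      { toFun := fun g => ge D g
        map_one' := AlgEquiv.ext fun x => gt_one D x
        map_mul' := fun g g' => AlgEquiv.ext fun x => gt_mul D g g' x }
    rp := fun x => (gr D x).1
    rp_bdd := fun x => (gr D x).2
    rp_inj := fun x y h => by
      rw [← mk_gr D x, ← mk_gr D y]
      exact mk_of_ev D h
    rp_surj := fun z hz => ⟨Ideal.Quotient.mk (gI D) ⟨z, hz⟩, ev_of_mk D (mk_gr D _)⟩
    rp_add := fun x y => by
      have h : Ideal.Quotient.mk (gI D) (gr D (x + y)) = Ideal.Quotient.mk (gI D) (gr D x + gr D y) := by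
        rw [mk_gr, map_add, mk_gr, mk_gr]
      exact ev_of_mk D h
    rp_mul := fun x y => by
      have h : Ideal.Quotient.mk (gI D) (gr D (x * y)) = Ideal.Quotient.mk (gI D) (gr D x * gr D y) := by
        rw [mk_gr, map_mul, mk_gr, mk_gr]
      exact ev_of_mk D h
    rp_alg := fun c => by
      have h : Ideal.Quotient.mk (gI D) (gr D (algebraMap k _ c)) =
          Ideal.Quotient.mk (gI D) (algebraMap k (gA D) c) := by
        rw [mk_gr]
        rfl
      exact ev_of_mk D h
    rp_s := fun g x => by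
      have h : Ideal.Quotient.mk (gI D) (gr D (gt D g x)) = Ideal.Quotient.mk (gI D) (gs D g (gr D x)) := by
        rw [mk_gr, ← gt_mk, mk_gr]
      exact ev_of_mk D h }⟩

end

end Pool.Agent.SQ
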