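import Pool.Agent.Helper42.SQ.GDefs
import Pool.Agent.Helper7.LK.Main

/-!
# SQ: linear forms in general position satisfy `Comb` unless the vanishing forms are bad (block LIN)
-/

set_option autoImplicit false

namespace Pool.Agent.SQ

open Module

/-! ### linear algebra -/

section

variable {k : Type*} [Field k]

private theorem spJ_insert99 {n q : ℕ} (l : Fin q → Fin (n + 1) → k) (N : Submodule k (Fin (n + 1) → k)) (J : Finset (Fin q))
    (a : Fin q) : spJ l N (insert a J) = spJ l N J ⊔ Submodule.span k {l a} := by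
  unfold spJ
  rw [Finset.coe_insert, Set.image_insert_eq, Submodule.span_insert, sup_comm (Submodule.span k {l a}), sup_assoc]

open Classical in
private theorem finrank_spJ99 {n q : ℕ} (l : Fin q → Fin (n + 1) → k) (N : Submodule k (Fin (n + 1) → k))
    (J : Finset (Fin q)) : finrank k (spJ l N J) = finrank k N +
      (J.filter fun i => l i ∉ spJ l N (J.filter fun j => j < i)).card := by
  induction J using Finset.induction_on_max with
  | empty =>
    have h : spJ l N ∅ = N := by simp [spJ]
    rw [h, Finset.filter_empty, Finset.card_empty, add_zero]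
  | insert a J ha ih =>
    have haJ : a ∉ J := fun h => lt_irrefl a (ha a h)
    have e1 : ∀ i ∈ J, ((insert a J).filter fun j => j < i) = J.filter fun j => j < i := by
      intro i hi
      rw [Finset.filter_insert, if_neg (not_lt.2 (ha i hi).le)]
    have e2 : ((insert a J).filter fun j => j < a) = J := by
      rw [Finset.filter_insert, if_neg (lt_irrefl a)]
      exact Finset.filter_true_of_mem ha
    have e3 : (J.filter fun i => l i ∉ spJ l N ((insert a J).filter fun j => j < i)) =
        J.filter fun i => l i ∉ spJ l N (J.filter fun j => j < i) := by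
      refine Finset.filter_congr fun i hi => ?_
      rw [e1 i hi]
    rw [Finset.filter_insert, e3, e2, spJ_insert99]
    by_cases h : l a ∈ spJ l N J
    · rw [if_neg (not_not.2 h), ← ih, sup_eq_left.2 (by rwa [Submodule.span_singleton_le_iff_mem])]
    · rw [if_pos h, Submodule.finrank_sup_span_singleton h, ih, Finset.card_insert_of_notMem (fun h' =>
        haJ (Finset.mem_filter.1 h').1), add_assoc]

private theorem finrank_comap99 {E : Type*} [AddCommGroup E] [Module k E] [FiniteDimensional k E] (N : Submodule k E)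
    (W : Submodule k (E ⧸ N)) : finrank k (W.comap N.mkQ) = finrank k W + finrank k N := by
  have h := (N.mkQ.domRestrict (W.comap N.mkQ)).finrank_range_add_finrank_ker
  have h1 : LinearMap.range (N.mkQ.domRestrict (W.comap N.mkQ)) = W := by
    rw [LinearMap.range_domRestrict, Submodule.map_comap_eq_of_surjective (Submodule.mkQ_surjective N)]
  have h2 : LinearMap.ker (N.mkQ.domRestrict (W.comap N.mkQ)) = N.comap (W.comap N.mkQ).subtype := by
    rw [LinearMap.ker_domRestrict, Submodule.ker_mkQ]
  have h3 := (Submodule.comapSubtypeEquivOfLe (Submodule.le_comap_mkQ N W)).finrank_eq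
  rw [h1, h2] at h
  rw [← h, h3]

/-- codimensions add at most -/
private theorem inf_codim99 {E ι : Type*} [AddCommGroup E] [Module k E] [FiniteDimensional k E] (U : ι → Submodule k E)
    (Z : Finset ι) : finrank k E ≤ finrank k ↥(⨅ i ∈ Z, U i) + ∑ i ∈ Z, (finrank k E - finrank k (U i)) := by
  classical
  induction Z using Finset.induction_on with
  | empty =>
    have h : (⨅ i ∈ (∅ : Finset ι), U i) = ⊤ := by simp
    rw [h, finrank_top]
    exact Nat.le_add_right _ _
  | insert a Z ha ih =>
    rw [Finset.iInf_insert, Finset.sum_insert ha]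
    have h1 := Submodule.finrank_sup_add_finrank_inf_eq (U a) (⨅ i ∈ Z, U i)
    have h2 := Submodule.finrank_le (U a ⊔ ⨅ i ∈ Z, U i)
    omega

end

theorem comb_of_not_bad {k : Type*} [Field k] {n q : ℕ} (l : Fin q → Fin (n + 1) → k) (hl : GenPos l)
    (N : Submodule k (Fin (n + 1) → k)) (hN : ∀ i, l i ∉ N) (hb : ¬ Bad l N) :
    Comb k (fun i => N.mkQ (l i)) (finrank k N) := by
  classical
  intro m W w hW hw hh
  have hE : finrank k (Fin (n + 1) → k) = n + 1 := by simp
  have hNn : finrank k N ≤ n + 1 := (Submodule.finrank_le N).trans hE.le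
  set Wt : Fin m → Submodule k (Fin (n + 1) → k) := fun j => (W j).comap N.mkQ with hWt
  have hWtN : ∀ j, N ≤ Wt j := fun j => Submodule.le_comap_mkQ N (W j)
  have hWtf : ∀ j, finrank k (Wt j) = finrank k (W j) + finrank k N := fun j => finrank_comap99 N (W j)
  have hWt0 : ∀ j, Wt j ≠ ⊤ := by
    intro j h
    apply hW j
    have := Submodule.map_comap_eq_of_surjective (Submodule.mkQ_surjective N) (W j)
    rw [← this]
    have h' : (W j).comap N.mkQ = ⊤ := h
    rw [h', Submodule.map_top, Submodule.range_mkQ]
  have hWtl : ∀ j, finrank k (Wt j) ≤ n := by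
    intro j
    have := Submodule.finrank_lt (hWt0 j)
    omega
  -- the forms in `W j`
  set J : Fin m → Finset (Fin q) := fun j => Finset.univ.filter fun i => l i ∈ Wt j with hJ
  have hJle : ∀ j, ∀ I ⊆ J j, spJ l N I ≤ Wt j := by
    intro j I hI
    refine sup_le (hWtN j) (Submodule.span_le.2 ?_)
    rintro _ ⟨i, hi, rfl⟩
    exact (Finset.mem_filter.1 (hI hi)).2
  have hspan : ∀ j, ∀ I ⊆ J j, I.card ≤ n + 1 → I.card ≤ finrank k (spJ l N I) := by
    intro j I hI hc
    have h1 := hl I hc
    have h2 := finrank_span_eq_card h1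
    rw [Fintype.card_coe] at h2
    rw [← h2]
    apply Submodule.finrank_mono
    refine le_trans (Submodule.span_mono ?_) le_sup_right
    rintro _ ⟨i, rfl⟩
    exact ⟨i, i.2, rfl⟩
  have hJn : ∀ j, (J j).card ≤ n := by
    intro j
    by_contra hcon
    obtain ⟨I, hI, hIc⟩ := Finset.exists_subset_card_eq (show n + 1 ≤ (J j).card by omega)
    have h1 := hspan j I hI hIc.le
    have h2 := Submodule.finrank_mono (hJle j I hI)
    have h3 := hWtl j
    omega
  set X : Fin m → Finset (Fin q) := fun j => (J j).filter fun i => l i ∈ spJ l N ((J j).filter fun a => a < i) with hX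
  have hXJ : ∀ j, (J j).card = (X j).card + ((J j).filter fun i => l i ∉ spJ l N ((J j).filter fun a => a < i)).card :=
    fun j => (Finset.card_filter_add_card_filter_not _).symm
  have hrank : ∀ j, finrank k (spJ l N (J j)) = finrank k N +
      ((J j).filter fun i => l i ∉ spJ l N ((J j).filter fun a => a < i)).card := fun j => finrank_spJ99 l N (J j)
  have hXp : ∀ j, (X j).card ≤ finrank k N := by
    intro j
    have h1 := hspan j (J j) (Finset.Subset.refl _) ((hJn j).trans (by omega))
    have h2 := hXJ j
    have h3 := hrank j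
    omega
  have hJX : ∀ j, (J j).card ≤ finrank k (W j) + (X j).card := by
    intro j
    have h1 := Submodule.finrank_mono (hJle j (J j) (Finset.Subset.refl _))
    have h2 := hXJ j
    have h3 := hrank j
    have h4 := hWtf j
    omega
  -- the spaces `Ut`
  have hUt : ∀ j, ∀ i ∈ X j, Ut l N i ≤ Wt j := by
    intro j i hi
    refine le_trans (iInf₂_le ((J j).filter fun a => a < i) ⟨fun a ha => (Finset.mem_filter.1 ha).2,
      (Finset.mem_filter.1 hi).2⟩) (hJle j _ (Finset.filter_subset _ _))
  have hUtN : ∀ i, N ⊔ Submodule.span k {l i} ≤ Ut l N i := by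
    intro i
    refine le_iInf₂ fun I hI => ?_
    refine sup_le le_sup_left ?_
    rw [Submodule.span_singleton_le_iff_mem]
    exact hI.2
  have hcost : ∀ i, cost l N i + finrank k N + 1 ≤ n + 1 := by
    intro i
    have h1 := Submodule.finrank_mono (hUtN i)
    rw [Submodule.finrank_sup_span_singleton (hN i)] at h1
    have h2 := Submodule.finrank_le (Ut l N i)
    unfold cost
    omega
  set G : Finset (Fin q) := Finset.univ.filter fun i => 1 ≤ cost l N i with hG
  have hXG : ∀ j, X j ⊆ G := by
    intro j i hi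
    rw [hG, Finset.mem_filter]
    refine ⟨Finset.mem_univ _, ?_⟩
    have h1 := Submodule.finrank_mono (hUt j i hi)
    have h2 := hWtl j
    unfold cost
    omega
  -- the case of the whole space
  rcases Nat.eq_or_lt_of_le hNn with hNe | hNl
  · have h0 : m = 0 := by
      by_contra hm
      have h1 := hWtl ⟨0, Nat.pos_of_ne_zero hm⟩
      have h2 := hWtf ⟨0, Nat.pos_of_ne_zero hm⟩
      omega
    subst h0
    simp
  have hsum : ∑ i ∈ G, cost l N i ≤ finrank k N * ((n - finrank k N) + 1) := by
    have h1 : ¬ finrank k N * (n + 1 - finrank k N) < ∑ i, cost l N i := fun h => hb ⟨hN, h⟩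
    have h2 : ∑ i ∈ G, cost l N i ≤ ∑ i, cost l N i :=
      Finset.sum_le_sum_of_subset_of_nonneg (Finset.subset_univ _) fun _ _ _ => Nat.zero_le _
    have h3 : n - finrank k N + 1 = n + 1 - finrank k N := by omega
    rw [h3]
    omega
  have hXi : ∀ j, X j ∩ G = X j := fun j => Finset.inter_eq_left.2 (hXG j)
  have key := Pool.Agent.Helper7.LK.lemmaK_nat G (fun i => cost l N i) (finrank k N) (n - finrank k N)
    (fun i hi => (Finset.mem_filter.1 hi).2)
    (fun i _ => by have := hcost i; omega) hsum Finset.univ X w (fun j _ => hw j) (fun j _ => by rw [hXi]; exact hXp j) (by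
    intro Z _ hZ
    -- a common vector
    have h1 := inf_codim99 (fun i => Ut l N i) Z
    rw [hE] at h1
    have h2 : ∑ i ∈ Z, (n + 1 - finrank k (Ut l N i)) = ∑ i ∈ Z, cost l N i := rfl
    rw [h2] at h1
    have h3 : finrank k N < finrank k ↥(⨅ i ∈ Z, Ut l N i) := by
      have h4 : ∑ i ∈ Z, cost l N i ≤ n - finrank k N := hZ
      omega
    obtain ⟨y, hy, hyN⟩ : ∃ y ∈ (⨅ i ∈ Z, Ut l N i : Submodule k (Fin (n + 1) → k)), y ∉ N := by
      by_contra hcon
      push Not at hcon
      exact absurd (Submodule.finrank_mono (show (⨅ i ∈ Z, Ut l N i) ≤ N from hcon)) (by omega)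
    refine le_trans ?_ (hh (N.mkQ y) (by rwa [Ne, Submodule.mkQ_apply, Submodule.Quotient.mk_eq_zero]))
    refine Finset.sum_le_sum_of_subset_of_nonneg ?_ fun j _ _ => hw j
    intro j hj
    simp only [Finset.mem_filter, Finset.mem_univ, true_and] at hj ⊢
    obtain ⟨i, hi⟩ := hj
    obtain ⟨hiX, hiZ⟩ := Finset.mem_inter.1 hi
    have h5 : y ∈ Ut l N i := by
      have h6 : (⨅ i ∈ Z, Ut l N i) ≤ Ut l N i := iInf₂_le i hiZ
      exact h6 hy
    exact hUt j i hiX h5)
  simp only [hXi] at key
  have hfin : ∑ j, w j * ((J j).card : ℝ) ≤ ∑ j, w j * finrank k (W j) + ∑ j, w j * ((X j).card : ℝ) := by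
    rw [← Finset.sum_add_distrib]
    refine Finset.sum_le_sum fun j _ => ?_
    rw [← mul_add]
    refine mul_le_mul_of_nonneg_left ?_ (hw j)
    exact_mod_cast hJX j
  have hfin2 : ∑ j, w j * ((Finset.univ.filter fun i => N.mkQ (l i) ∈ W j).card : ℝ) = ∑ j, w j * ((J j).card : ℝ) := rfl
  rw [hfin2]
  linarith

/-- invariance -/
theorem Comb.map {k : Type*} [Field k] {Q Q' : Type*} [AddCommGroup Q] [Module k Q] [AddCommGroup Q'] [Module k Q']
    (e : Q ≃ₗ[k] Q') {q p : ℕ} {L : Fin q → Q} (h : Comb k L p) : Comb k (fun i => e (L i)) p := by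
  intro m W w hW hw hh
  have h1 := h m (fun j => (W j).comap e.toLinearMap) w (fun j hj => hW j (by
      rw [← Submodule.map_comap_eq_of_surjective e.surjective (W j), hj, Submodule.map_top, LinearEquiv.range])) hw
    (fun x hx => hh (e x) (by simpa using hx))
  refine le_trans h1 ?_
  have h2 : ∀ j, finrank k ((W j).comap e.toLinearMap) = finrank k (W j) := by
    intro j
    have h3 := LinearEquiv.finrank_map_eq e ((W j).comap e.toLinearMap)
    rw [← h3]
    have h4 := Submodule.map_comap_eq_of_surjective e.surjective (W j)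
    have h5 : (Submodule.map (e : Q →ₗ[k] Q') ((W j).comap e.toLinearMap)) = W j := h4
    rw [h5]
  simp only [h2]
  exact le_rfl

end Pool.Agent.SQ
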