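import Pool.Agent.Helper42.SQ.OMg
import Pool.Agent.Helper42.SQ.GERg
import Pool.Agent.Helper42.SQ.SUBg
import Pool.Agent.Helper42.SQ.FBg
import Pool.Agent.Helper42.SQ.LIN

/-!
# SQ3, block GABg: the theorem for the germs of a sequence of points, with `thmB_g`
-/

set_option autoImplicit false

namespace Pool.Agent.SQ

open NumberField Filter Module
open Pool.Agent.Helper64.Vojta (Pl nv sn above)
open Pool.Agent.V2
open Pool.Agent.Chart (fld dg crd val hgt lam)

universe u

theorem germsB_g {k : Type u} [Field k] [NumberField k] {G : Type} [Group G] [Fintype G] {D : SqG k G} {n : ℕ}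
    (x : ∀ a, Fin (n + 1) → D.L a) (hx : Ptg D x) {q : ℕ} (l : Fin q → Fin (n + 1) → k) (hl : ∀ i, l i ∉ vang D x)
    (hC : Comb k (fun i => (vang D x).mkQ (l i)) (finrank k (vang D x))) (P : Finset (Pl k)) {ε : ℝ} (hε : 0 < ε) :
    ∀ᶠ a in (D.U : Filter ℕ), ∑ v ∈ P, ∑ g, ∑ i, (Real.log (mxn (D.N a v) fun j => D.s a g (x a j)) -
      Real.log (D.N a v (D.s a g (lvg (l i) (x a))))) ≤
      (Fintype.card G * finrank k ((Fin (n + 1) → k) ⧸ vang D x) + 2 * finrank k (vang D x) + ε) * D.H a := by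
  obtain ⟨F⟩ := ger_g D
  obtain ⟨ξ, hξ⟩ := exists_xig F x hx
  set Θ : (Fin (n + 1) → k) →ₗ[k] F.K := Fintype.linearCombination k ξ with hΘdef
  have hΘ : ∀ m, Θ m = ∑ j, m j • ξ j := fun m => Fintype.linearCombination_apply k ξ m
  have hrange : LinearMap.range Θ = Submodule.span k (Set.range ξ) := Fintype.range_linearCombination k ξ
  have hrp0 : ∀ᶠ a in (D.U : Filter ℕ), F.rp 0 a = 0 := by
    filter_upwards [F.rp_alg 0] with a ha
    rw [map_zero, map_zero] at ha
    exact ha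
  have hker : LinearMap.ker Θ = vang D x := by
    ext m
    have h1 := rp_lvg F x hx ξ hξ m
    rw [← hΘ] at h1
    rw [LinearMap.mem_ker]
    constructor
    · intro h2
      rw [h2] at h1
      show ∀ᶠ a in (D.U : Filter ℕ), lvg m (x a) = 0
      filter_upwards [h1, hrp0] with a h3 h4
      rw [← h3, h4]
    · intro h2
      refine F.rp_inj _ _ ?_
      have h3 : ∀ᶠ a in (D.U : Filter ℕ), lvg m (x a) = 0 := h2
      filter_upwards [h1, hrp0, h3] with a h4 h5 h6
      rw [h4, h5, h6]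
  set V := Submodule.span k (Set.range ξ) with hV
  haveI : FiniteDimensional k V := FiniteDimensional.span_of_finite k (Set.finite_range ξ)
  let e : ((Fin (n + 1) → k) ⧸ vang D x) ≃ₗ[k] V :=
    (Submodule.quotEquivOfEq _ _ hker.symm) ≪≫ₗ Θ.quotKerEquivRange ≪≫ₗ LinearEquiv.ofEq _ _ hrange
  have he : ∀ m, ((e ((vang D x).mkQ m) : V) : F.K) = ∑ j, m j • ξ j := fun m => hΘ m
  have hL : ∀ i, e ((vang D x).mkQ (l i)) ≠ 0 := by
    intro i h
    rw [LinearEquiv.map_eq_zero_iff, Submodule.mkQ_apply, Submodule.Quotient.mk_eq_zero] at h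
    exact hl i h
  have key := thmB_g F.s (P := P) (fun v => omg F v) (fun v => omg_RV F v) (fun v g => cg D x v g) V
    (fun v g z hz hz0 => omg_nonneg F x hx ξ hξ v g z hz hz0)
    (fun m E hE hEs N z hz hzE => sub_g F x hx ξ hξ P m E hE hEs N z hz hzE)
    (fun v g => by
      obtain ⟨z, h1, h2, h3⟩ := omg_attained F x hx ξ hξ v g
      exact ⟨z, h1, h2, h3⟩)
    (fun z hz hz0 => by
      have h1 := omg_prod F x hx ξ hξ P z hz hz0
      rw [← Finset.sum_coe_sort P (fun v => ∑ g, (omg F v (F.s g z) + cg D x v g))] at h1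
      exact h1)
    (fun i => e ((vang D x).mkQ (l i))) hL (Comb.map e hC)
  have key' : ∑ v ∈ P, ∑ g, ∑ i, (omg F v (F.s g (e ((vang D x).mkQ (l i)) : V)) + cg D x v g) ≤
      Fintype.card G * finrank k ((Fin (n + 1) → k) ⧸ vang D x) + 2 * finrank k (vang D x) := by
    rw [e.finrank_eq, ← Finset.sum_coe_sort P
      (fun v => ∑ g, ∑ i, (omg F v (F.s g (e ((vang D x).mkQ (l i)) : V)) + cg D x v g))]
    exact key
  have hlim : ∀ (v : Pl k) (g : G) (i : Fin q), Tendsto (fun a => (Real.log (mxn (D.N a v) fun j => D.s a g (x a j)) -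
      Real.log (D.N a v (D.s a g (lvg (l i) (x a))))) / D.H a) (D.U : Filter ℕ)
      (nhds (omg F v (F.s g (e ((vang D x).mkQ (l i)) : V)) + cg D x v g)) := by
    intro v g i
    have h0 : F.s g ((e ((vang D x).mkQ (l i)) : V) : F.K) ≠ 0 := by
      rw [Ne, EmbeddingLike.map_eq_zero_iff, Submodule.coe_eq_zero]
      exact hL i
    have h1 := (omg_tendsto F v _ h0).add (cg_tendsto x hx v g)
    refine h1.congr' ?_
    have h2 := rp_lvg F x hx ξ hξ (l i)
    rw [← he] at h2
    filter_upwards [h2, F.rp_s g ((e ((vang D x).mkQ (l i)) : V) : F.K)] with a h3 h4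
    rw [h4, h3]
    ring
  have hsum : Tendsto (fun a => ∑ v ∈ P, ∑ g, ∑ i, (Real.log (mxn (D.N a v) fun j => D.s a g (x a j)) -
      Real.log (D.N a v (D.s a g (lvg (l i) (x a))))) / D.H a) (D.U : Filter ℕ)
      (nhds (∑ v ∈ P, ∑ g, ∑ i, (omg F v (F.s g (e ((vang D x).mkQ (l i)) : V)) + cg D x v g))) :=
    tendsto_finsetSum _ fun v _ => tendsto_finsetSum _ fun g _ => tendsto_finsetSum _ fun i _ => hlim v g i
  have hlt : ∑ v ∈ P, ∑ g, ∑ i, (omg F v (F.s g (e ((vang D x).mkQ (l i)) : V)) + cg D x v g) <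
      Fintype.card G * finrank k ((Fin (n + 1) → k) ⧸ vang D x) + 2 * finrank k (vang D x) + ε := by linarith
  filter_upwards [hsum.eventually (gt_mem_nhds hlt), D.H1.eventually (eventually_gt_atTop 0)] with a h1 h2
  have h3 : ∑ v ∈ P, ∑ g, ∑ i, (Real.log (mxn (D.N a v) fun j => D.s a g (x a j)) -
      Real.log (D.N a v (D.s a g (lvg (l i) (x a))))) / D.H a = (∑ v ∈ P, ∑ g, ∑ i, (Real.log (mxn (D.N a v) fun j =>
      D.s a g (x a j)) - Real.log (D.N a v (D.s a g (lvg (l i) (x a)))))) / D.H a := by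
    simp only [Finset.sum_div]
  rw [h3, div_lt_iff₀ h2] at h1
  exact h1.le

end Pool.Agent.SQ
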