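import Mathlib

/-!
# SQ: definitions

`K` is a field over `k`; `ω : K → ℝ` with `RV k ω` is a real valuation, trivial on `k` (its value at `0` is irrelevant).
`lev ω c`: the elements of value at least `c`. `SN ω N c E`: the sum over `j ≥ 1` of the dimensions of the subspaces `ω + c ≥ j/N` of `E`.
`PInd z`: the polynomials `z a ∈ K[X]` are linearly independent over `k[X]`. `Lat`: the lattice of the polynomials with coefficients in `E`
whose Taylor coefficients at the points `t i` satisfy the conditions given by the flags `F i`.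
-/

set_option autoImplicit false

namespace Pool.Agent.SQ

open Module Polynomial

/-- a real valuation, trivial on `k` -/
structure RV (k : Type*) {K : Type*} [Field k] [Field K] [Algebra k K] (ω : K → ℝ) : Prop where
  mul : ∀ x y, x ≠ 0 → y ≠ 0 → ω (x * y) = ω x + ω y
  add : ∀ x y, x ≠ 0 → y ≠ 0 → x + y ≠ 0 → min (ω x) (ω y) ≤ ω (x + y)
  alg : ∀ c : k, c ≠ 0 → ω (algebraMap k K c) = 0

section

variable {k : Type*} {K : Type*} [Field k] [Field K] [Algebra k K]

theorem RV.smul {ω : K → ℝ} (h : RV k ω) (c : k) (x : K) (hc : c ≠ 0) (hx : x ≠ 0) : ω (c • x) = ω x := by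
  rw [Algebra.smul_def, h.mul _ _ (by simpa using hc) hx, h.alg c hc, zero_add]

/-- the elements of value at least `c` -/
def lev {ω : K → ℝ} (h : RV k ω) (c : ℝ) : Submodule k K where
  carrier := {x | x = 0 ∨ c ≤ ω x}
  zero_mem' := Or.inl rfl
  add_mem' := by
    intro x y hx hy
    rcases hx with rfl | hx
    · simpa using hy
    rcases hy with rfl | hy
    · rw [add_zero]; exact Or.inr hx
    by_cases hxy : x + y = 0
    · exact Or.inl hxy
    by_cases hx0 : x = 0
    · subst hx0; rw [zero_add]; exact Or.inr hy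
    by_cases hy0 : y = 0
    · subst hy0; rw [add_zero]; exact Or.inr hx
    exact Or.inr ((le_min hx hy).trans (h.add x y hx0 hy0 hxy))
  smul_mem' := by
    intro c x hx
    rcases hx with rfl | hx
    · simp
    by_cases hc : c = 0
    · left; simp [hc]
    by_cases hx0 : x = 0
    · left; simp [hx0]
    right
    rw [h.smul c x hc hx0]
    exact hx

/-- the sum over `j ≥ 1` of the dimensions of the subspaces `ω + c ≥ j/N` of `E` -/
noncomputable def SN {ω : K → ℝ} (h : RV k ω) (N : ℕ) (c : ℝ) (E : Submodule k K) : ℕ :=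
  ∑ᶠ j : ℕ, finrank k ↥(E ⊓ lev h (((j : ℝ) + 1) / N - c))

/-- the polynomials `z a` are linearly independent over `k[X]` -/
def PInd (k : Type*) {K : Type*} [Field k] [Field K] [Algebra k K] {α : Type*} [Fintype α] (z : α → K[X]) : Prop :=
  ∀ p : α → k[X], ∑ a, (p a).map (algebraMap k K) * z a = 0 → p = 0

/-- the polynomials with coefficients in `E` whose `j`-th Taylor coefficient at `t i` is in `F i (M - j)` for all `j < M` -/
def Lat {ι : Type*} (t : ι → k) (F : ι → ℕ → Submodule k K) (M : ℕ) (E : Submodule k K) : Submodule k K[X] where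
  carrier := {u | (∀ n, u.coeff n ∈ E) ∧ ∀ i, ∀ j < M, (taylor (algebraMap k K (t i)) u).coeff j ∈ F i (M - j)}
  zero_mem' := ⟨fun n => by simp, fun i j _ => by simp⟩
  add_mem' := by
    rintro u v ⟨h1, h2⟩ ⟨h3, h4⟩
    refine ⟨fun n => ?_, fun i j hj => ?_⟩
    · rw [coeff_add]; exact E.add_mem (h1 n) (h3 n)
    · rw [map_add, coeff_add]; exact (F i (M - j)).add_mem (h2 i j hj) (h4 i j hj)
  smul_mem' := by
    rintro c u ⟨h1, h2⟩
    have e : c • u = algebraMap k K c • u := by rw [algebraMap_smul]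
    refine ⟨fun n => ?_, fun i j hj => ?_⟩
    · rw [e, coeff_smul, algebraMap_smul]; exact E.smul_mem c (h1 n)
    · rw [e, map_smul, coeff_smul, algebraMap_smul]; exact (F i (M - j)).smul_mem c (h2 i j hj)

/-- the total weight of the flags on `E` -/
noncomputable def TT {ι : Type*} [Fintype ι] (F : ι → ℕ → Submodule k K) (M : ℕ) (E : Submodule k K) : ℕ :=
  ∑ i, ∑ j ∈ Finset.Icc 1 M, finrank k ↥(E ⊓ F i j)

end

/-- A discrete valuation of `K`, trivial on `k`, with residue field `κ`. -/
structure DV (k K κ : Type*) [Field k] [Field K] [Field κ] [Algebra k K] [Algebra k κ] where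
  v : K → ℤ
  mul : ∀ x y, x ≠ 0 → y ≠ 0 → v (x * y) = v x + v y
  add : ∀ x y, x ≠ 0 → y ≠ 0 → x + y ≠ 0 → min (v x) (v y) ≤ v (x + y)
  alg : ∀ c : k, c ≠ 0 → v (algebraMap k K c) = 0
  π : K
  π0 : π ≠ 0
  vπ : v π = 1
  /-- the residue map, defined on the valuation ring, `0` elsewhere -/
  res : K → κ
  res_add : ∀ x y, (x = 0 ∨ 0 ≤ v x) → (y = 0 ∨ 0 ≤ v y) → res (x + y) = res x + res y
  res_mul : ∀ x y, (x = 0 ∨ 0 ≤ v x) → (y = 0 ∨ 0 ≤ v y) → res (x * y) = res x * res y
  res_alg : ∀ c : k, res (algebraMap k K c) = algebraMap k κ c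
  res_zero : ∀ x, (x = 0 ∨ 0 ≤ v x) → (res x = 0 ↔ (x = 0 ∨ 0 < v x))
  res_surj : ∀ y, ∃ x, (x = 0 ∨ 0 ≤ v x) ∧ res x = y

/-- `K` is finite over a field of rational functions in `w` variables over `k`. -/
def FinOver (w : ℕ) (k K : Type*) [Field k] [Field K] [Algebra k K] : Prop :=
  ∃ φ : FractionRing (MvPolynomial (Fin w) k) →ₐ[k] K, φ.toRingHom.Finite

/-- `y` depends on the polynomials `z a` over `k(X)`. -/
def Dep (k : Type*) {K : Type*} [Field k] [Field K] [Algebra k K] {α : Type*} [Fintype α] (z : α → K[X]) (y : K[X]) : Prop :=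
  ∃ (p : k[X]) (c : α → k[X]), p ≠ 0 ∧ p.map (algebraMap k K) * y = ∑ a, (c a).map (algebraMap k K) * z a

/-- the rank over `k(X)` of a set of polynomials -/
noncomputable def rk (k : Type*) {K : Type*} [Field k] [Field K] [Algebra k K] (S : Set K[X]) : ℕ :=
  sSup {n | ∃ z : Fin n → K[X], (∀ a, z a ∈ S) ∧ PInd k z}

/-- the polynomials of degree at most `e` with coefficients in `E` -/
def PE {k K : Type*} [Field k] [Field K] [Algebra k K] (E : Submodule k K) (e : ℕ) : Submodule k K[X] where
  carrier := {u | (∀ n, u.coeff n ∈ E) ∧ u.natDegree ≤ e}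
  zero_mem' := ⟨fun n => by simp, by simp⟩
  add_mem' := by
    rintro u v ⟨h1, h2⟩ ⟨h3, h4⟩
    refine ⟨fun n => ?_, (natDegree_add_le _ _).trans (max_le h2 h4)⟩
    rw [coeff_add]; exact E.add_mem (h1 n) (h3 n)
  smul_mem' := by
    rintro c u ⟨h1, h2⟩
    have e : c • u = algebraMap k K c • u := by rw [algebraMap_smul]
    refine ⟨fun n => ?_, ?_⟩
    · rw [e, coeff_smul, algebraMap_smul]; exact E.smul_mem c (h1 n)
    · rw [e]; exact (natDegree_smul_le _ _).trans h2

/-- `ω ∘ τ` -/
theorem RV.comp {k K : Type*} [Field k] [Field K] [Algebra k K] {ω : K → ℝ} (h : RV k ω) (τ : K ≃ₐ[k] K) :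
    RV k fun x => ω (τ x) where
  mul := fun x y hx hy => by
    show ω (τ (x * y)) = _
    rw [map_mul, h.mul _ _ (by simpa using hx) (by simpa using hy)]
  add := fun x y hx hy hxy => by
    show _ ≤ ω (τ (x + y))
    rw [map_add]
    exact h.add _ _ (by simpa using hx) (by simpa using hy) (by rw [← map_add]; exact (map_ne_zero τ).2 hxy)
  alg := fun c hc => by
    show ω (τ (algebraMap k K c)) = 0
    rw [AlgEquiv.commutes, h.alg c hc]

/-- The inequality of Brunn and Minkowski. -/
def BMAt (w : ℕ) {k K : Type*} [Field k] [Field K] [Algebra k K] (Q A B : Submodule k K) : Prop :=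
  2 ^ w * √((finrank k A : ℝ) * finrank k B) ≤ finrank k ↥(A * B * Q)

end Pool.Agent.SQ
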