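import Mathlib

/-!
# SQ, block GRO: sequences of polynomial growth
-/

set_option autoImplicit false

namespace Pool.Agent.SQ

theorem gro (D : ℕ → ℕ) (hD : ∀ m, 1 ≤ D m) (w C : ℕ) (hC : ∀ m, D m ≤ C * (m + 1) ^ w) (q : ℕ) {ε : ℝ} (hε : 0 < ε)
    (m0 : ℕ) : ∃ m ≥ m0, (D (2 * m + q) : ℝ) ≤ (1 + ε) * 2 ^ w * D m := by
  by_contra hcon
  push Not at hcon
  obtain ⟨M, hM⟩ : ∃ M : ℕ → ℕ, M = fun j => 2 ^ j * (m0 + q) - q := ⟨_, rfl⟩
  have hMq : ∀ j, M j + q = 2 ^ j * (m0 + q) := by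
    intro j
    have h1 : 1 ≤ 2 ^ j := Nat.one_le_two_pow
    have h2 : q ≤ 2 ^ j * (m0 + q) := by nlinarith
    rw [hM]
    exact Nat.sub_add_cancel h2
  have hM0 : M 0 = m0 := by
    have := hMq 0
    rw [pow_zero, one_mul] at this
    omega
  have hMs : ∀ j, M (j + 1) = 2 * M j + q := by
    intro j
    have h1 := hMq j
    have h2 := hMq (j + 1)
    rw [pow_succ, mul_comm (2 ^ j) 2, mul_assoc, ← h1] at h2
    omega
  have hMge : ∀ j, m0 ≤ M j := by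
    intro j
    induction j with
    | zero => rw [hM0]
    | succ j ih => rw [hMs]; omega
  have hlow : ∀ j, ((1 + ε) * 2 ^ w) ^ j ≤ (D (M j) : ℝ) := by
    intro j
    induction j with
    | zero =>
      rw [pow_zero]
      exact_mod_cast hD _
    | succ j ih =>
      rw [hMs, pow_succ, mul_comm]
      refine le_trans ?_ (hcon (M j) (hMge j)).le
      exact mul_le_mul_of_nonneg_left ih (by positivity)
  have hup : ∀ j, (D (M j) : ℝ) ≤ C * (m0 + q + 1) ^ w * (2 ^ w) ^ j := by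
    intro j
    have h1 : (D (M j) : ℝ) ≤ C * ((M j : ℝ) + 1) ^ w := by exact_mod_cast hC (M j)
    have h2 : (M j : ℝ) + 1 ≤ 2 ^ j * ((m0 : ℝ) + q + 1) := by
      have h3 : (M j : ℝ) + q = 2 ^ j * ((m0 : ℝ) + q) := by exact_mod_cast hMq j
      have h4 : (1 : ℝ) ≤ 2 ^ j := one_le_pow₀ (by norm_num)
      have h5 : (0 : ℝ) ≤ q := Nat.cast_nonneg q
      nlinarith
    refine h1.trans ?_
    calc (C : ℝ) * ((M j : ℝ) + 1) ^ w ≤ C * (2 ^ j * ((m0 : ℝ) + q + 1)) ^ w := by gcongr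
      _ = C * (m0 + q + 1) ^ w * (2 ^ w) ^ j := by
        rw [mul_pow, ← pow_mul, ← pow_mul, mul_comm j w]
        ring
  have hb : ∀ j, (1 + ε) ^ j ≤ C * ((m0 : ℝ) + q + 1) ^ w := by
    intro j
    have h1 := (hlow j).trans (hup j)
    rw [mul_pow] at h1
    exact le_of_mul_le_mul_right h1 (by positivity)
  obtain ⟨j, hj⟩ := pow_unbounded_of_one_lt (C * ((m0 : ℝ) + q + 1) ^ w) (show (1 : ℝ) < 1 + ε by linarith)
  exact absurd (hb j) (not_le.2 hj)

end Pool.Agent.SQ
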