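import Pool.Agent.Helper42.SQ.Defs
import Pool.Agent.Helper42.SQ.SNF

/-!
# SQ, block SR: reduction to the two eigenspaces of `τ` (helper41)
-/

set_option autoImplicit false

namespace Pool.Agent.SQ

open Module Polynomial

section

variable {k K : Type*} [Field k] [Field K] [Algebra k K]

/-- the eigenspace of `τ` in `E` for the eigenvalue `s` -/
private def eig (τ : K ≃ₐ[k] K) (E : Submodule k K) (s : k) : Submodule k K :=
  E ⊓ LinearMap.ker (τ.toLinearMap - s • LinearMap.id)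

private theorem mem_eig {τ : K ≃ₐ[k] K} {E : Submodule k K} {s : k} {z : K} : z ∈ eig τ E s ↔ z ∈ E ∧ τ z = s • z := by
  unfold eig
  rw [Submodule.mem_inf, LinearMap.mem_ker]
  simp [sub_eq_zero]

private theorem eig_le (τ : K ≃ₐ[k] K) (E : Submodule k K) (s : k) : eig τ E s ≤ E := inf_le_left

/-- a stable subspace is the sum of the two eigenspaces -/
private theorem finrank_eig [CharZero k] (τ : K ≃ₐ[k] K) (hτ : ∀ x, τ (τ x) = x) (E : Submodule k K)
    [FiniteDimensional k E] (hE : ∀ z ∈ E, τ z ∈ E) :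
    finrank k ↥(eig τ E 1) + finrank k ↥(eig τ E (-1)) = finrank k E := by
  have hf1 : FiniteDimensional k ↥(eig τ E 1) := Submodule.finiteDimensional_of_le (eig_le τ E 1)
  have hf2 : FiniteDimensional k ↥(eig τ E (-1)) := Submodule.finiteDimensional_of_le (eig_le τ E (-1))
  have h1 : eig τ E 1 ⊔ eig τ E (-1) = E := by
    refine le_antisymm (sup_le (eig_le _ _ _) (eig_le _ _ _)) fun z hz => ?_
    have e : z = (2⁻¹ : k) • (z + τ z) + (2⁻¹ : k) • (z - τ z) := by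
      rw [← smul_add]
      have : z + τ z + (z - τ z) = (2 : k) • z := by rw [two_smul]; ring
      rw [this, smul_smul, inv_mul_cancel₀ two_ne_zero, one_smul]
    rw [e]
    refine Submodule.add_mem_sup (Submodule.smul_mem _ _ (mem_eig.2 ⟨E.add_mem hz (hE z hz), ?_⟩))
      (Submodule.smul_mem _ _ (mem_eig.2 ⟨E.sub_mem hz (hE z hz), ?_⟩))
    · rw [map_add, hτ, one_smul, add_comm]
    · rw [map_sub, hτ, neg_smul, one_smul, neg_sub]
  have h2 : eig τ E 1 ⊓ eig τ E (-1) = ⊥ := by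
    rw [Submodule.eq_bot_iff]
    rintro z ⟨hz1, hz2⟩
    have e1 := (mem_eig.1 hz1).2
    have e2 := (mem_eig.1 hz2).2
    rw [e1, one_smul, neg_smul, one_smul] at e2
    have : (2 : k) • z = 0 := by
      rw [two_smul]
      nth_rewrite 1 [e2]
      simp
    exact (smul_eq_zero.1 this).resolve_left two_ne_zero
  have h3 := Submodule.finrank_sup_add_finrank_inf_eq (eig τ E 1) (eig τ E (-1))
  rw [h1, h2, finrank_bot, add_zero] at h3
  exact h3.symm

theorem subred [CharZero k] (τ : K ≃ₐ[k] K) (hτ : ∀ x, τ (τ x) = x) {P : Type*} [Fintype P] (ω : P → K → ℝ)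
    (hω : ∀ v, RV k (ω v)) (g : P → ℝ) (E : Submodule k K) [FiniteDimensional k E] (hE : ∀ z ∈ E, τ z ∈ E)
    (h0 : ∀ v, ∀ z ∈ E, z ≠ 0 → 0 ≤ ω v z + g v) (m : ℕ)
    (hS : ∀ s : k, (s = 1 ∨ s = -1) → ∀ E' ≤ E, (∀ z ∈ E', τ z = s • z) → ∀ (n : P → ℕ) (z : ∀ v, Fin (n v) → K),
      (∀ v, LinearIndependent k (z v)) → (∀ v i, z v i ∈ E') → ∑ v, ∑ i, (ω v (z v i) + g v) ≤ m * finrank k E')
    {N : ℕ} (hN : 0 < N) :
    ∑ v, ∑ᶠ j : ℕ, finrank k ↥(E ⊓ lev (hω v) (((j : ℝ) + 1) / N - g v) ⊓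
      (lev (hω v) (((j : ℝ) + 1) / N - g v)).comap τ.toLinearMap) ≤ N * m * finrank k E := by
  have hf : ∀ s : k, FiniteDimensional k ↥(eig τ E s) := fun s => Submodule.finiteDimensional_of_le (eig_le τ E s)
  -- the dimensions of the pieces
  have hdim : ∀ (v : P) (c : ℝ), finrank k ↥(E ⊓ lev (hω v) c ⊓ (lev (hω v) c).comap τ.toLinearMap) =
      finrank k ↥(eig τ E 1 ⊓ lev (hω v) c) + finrank k ↥(eig τ E (-1) ⊓ lev (hω v) c) := by
    intro v c
    set W : Submodule k K := E ⊓ lev (hω v) c ⊓ (lev (hω v) c).comap τ.toLinearMap with hW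
    have hWE : W ≤ E := inf_le_left.trans inf_le_left
    have : FiniteDimensional k W := Submodule.finiteDimensional_of_le hWE
    have hWs : ∀ z ∈ W, τ z ∈ W := by
      rintro z ⟨⟨hz1, hz2⟩, hz3⟩
      refine ⟨⟨hE z hz1, hz3⟩, ?_⟩
      show τ (τ z) ∈ lev (hω v) c
      rw [hτ]; exact hz2
    rw [← finrank_eig τ hτ W hWs]
    have key : ∀ s : k, eig τ W s = eig τ E s ⊓ lev (hω v) c := by
      intro s
      ext z
      refine Iff.trans mem_eig (Iff.trans ?_ (Iff.symm (Iff.trans Submodule.mem_inf (and_congr_left' mem_eig))))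
      constructor
      · rintro ⟨⟨⟨hz1, hz2⟩, hz3⟩, hz4⟩
        exact ⟨⟨hz1, hz4⟩, hz2⟩
      · rintro ⟨⟨hz1, hz4⟩, hz2⟩
        refine ⟨⟨⟨hz1, hz2⟩, ?_⟩, hz4⟩
        show τ z ∈ lev (hω v) c
        rw [hz4]
        exact Submodule.smul_mem _ _ hz2
    rw [key, key]
  have hsum : ∀ v : P, ∑ᶠ j : ℕ, finrank k ↥(E ⊓ lev (hω v) (((j : ℝ) + 1) / N - g v) ⊓
      (lev (hω v) (((j : ℝ) + 1) / N - g v)).comap τ.toLinearMap) =
      SN (hω v) N (g v) (eig τ E 1) + SN (hω v) N (g v) (eig τ E (-1)) := by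
    intro v
    unfold SN
    rw [← finsum_add_distrib (SN_support (hω v) (eig τ E 1) hN (g v)) (SN_support (hω v) (eig τ E (-1)) hN (g v))]
    exact finsum_congr fun j => hdim v _
  -- the bound on an eigenspace
  have hb : ∀ s : k, (s = 1 ∨ s = -1) → ∑ v, SN (hω v) N (g v) (eig τ E s) ≤ N * m * finrank k ↥(eig τ E s) := by
    intro s hs
    choose e he1 he2 he3 using fun v : P => SN_le (hω v) (eig τ E s) hN (g v)
      (fun x hx hx0 => h0 v x (eig_le τ E s hx) hx0)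
    have h1 := hS s hs (eig τ E s) (eig_le τ E s) (fun z hz => (mem_eig.1 hz).2) (fun _ => finrank k ↥(eig τ E s)) e he1 he2
    have h2 : ((∑ v, SN (hω v) N (g v) (eig τ E s) : ℕ) : ℝ) ≤ N * (m * finrank k ↥(eig τ E s)) := by
      push_cast
      calc (∑ v, (SN (hω v) N (g v) (eig τ E s) : ℝ)) ≤ ∑ v, (N : ℝ) * ∑ i, (ω v (e v i) + g v) :=
            Finset.sum_le_sum fun v _ => he3 v
        _ = N * ∑ v, ∑ i, (ω v (e v i) + g v) := by rw [Finset.mul_sum]
        _ ≤ N * (m * finrank k ↥(eig τ E s)) := mul_le_mul_of_nonneg_left h1 (Nat.cast_nonneg _)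
    have h3 : ((∑ v, SN (hω v) N (g v) (eig τ E s) : ℕ) : ℝ) ≤ ((N * m * finrank k ↥(eig τ E s) : ℕ) : ℝ) := by
      push_cast
      push_cast at h2
      linarith
    exact_mod_cast h3
  calc ∑ v, ∑ᶠ j : ℕ, finrank k ↥(E ⊓ lev (hω v) (((j : ℝ) + 1) / N - g v) ⊓
      (lev (hω v) (((j : ℝ) + 1) / N - g v)).comap τ.toLinearMap)
      = ∑ v, (SN (hω v) N (g v) (eig τ E 1) + SN (hω v) N (g v) (eig τ E (-1))) :=
        Finset.sum_congr rfl fun v _ => hsum v
    _ = ∑ v, SN (hω v) N (g v) (eig τ E 1) + ∑ v, SN (hω v) N (g v) (eig τ E (-1)) := Finset.sum_add_distrib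
    _ ≤ N * m * finrank k ↥(eig τ E 1) + N * m * finrank k ↥(eig τ E (-1)) :=
        add_le_add (hb 1 (Or.inl rfl)) (hb (-1) (Or.inr rfl))
    _ = N * m * finrank k E := by rw [← mul_add, finrank_eig τ hτ E hE]

end

end Pool.Agent.SQ
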