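import Pool.Agent.Helper24.SQ.Ten

/-!
# SQ: block TEN (semistability of tensor products), proof in `Pool/Agent/Helper24/SQ`
-/

set_option autoImplicit false

namespace Pool.Agent.SQ

open Module Polynomial

universe u

section

variable {k K : Type u} [Field k] [Field K] [Algebra k K]

theorem ten [CharZero k] {ι : Type*} [Fintype ι] (ω : ι → K → ℝ) (hω : ∀ i, RV k (ω i)) (c c' : ι → ℝ)
    (V V' : Submodule k K) [FiniteDimensional k V] [FiniteDimensional k V'] (hV : V ≠ ⊥) (hr : finrank k V' = finrank k V)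
    {N : ℕ} (hN : 0 < N) (ha : ∀ i, ∀ x ∈ V, x ≠ 0 → 0 ≤ ω i x + c i) (ha' : ∀ i, ∀ x ∈ V', x ≠ 0 → 0 ≤ ω i x + c' i) (T : ℕ)
    (hT : ∑ i, SN (hω i) N (c i) V = T) (hT' : ∑ i, SN (hω i) N (c' i) V' = T)
    (hss : ∀ E ≤ V, finrank k V * ∑ i, SN (hω i) N (c i) E ≤ T * finrank k E)
    (hss' : ∀ E ≤ V', finrank k V * ∑ i, SN (hω i) N (c' i) E ≤ T * finrank k E) (m : ℕ) :
    2 * m * finrank k ↥(V ^ m * V' ^ m) * T ≤
      finrank k V * (∑ i, SN (hω i) N (m * (c i + c' i)) (V ^ m * V' ^ m)) +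
      2 * m * finrank k ↥(V ^ m * V' ^ m) * (finrank k V * (finrank k V * Fintype.card ι + 1)) :=
  SQ24.ten ω hω c c' V V' hV hr hN ha ha' T hT hT' hss hss' m

end

end Pool.Agent.SQ
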