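import Pool.Agent.Helper42.SQ.SNF
import Pool.Agent.Helper42.SQ.SR
import Pool.Agent.Helper42.SQ.TEN
import Pool.Agent.Helper42.SQ.GRO
import Pool.Agent.Helper42.SQ.BM2g

/-!
# SQ: block ABS (Theorem A)
-/

set_option autoImplicit false

namespace Pool.Agent.SQ

open Module Polynomial

universe u

private theorem bm22 {k K : Type u} [Field k] [CharZero k] [Field K] [Algebra k K] (W : Submodule k K) [FiniteDimensional k W]
    (hW : W ≠ ⊥) : ∃ (w q C : ℕ) (Q : Submodule k K), Q ≤ W ^ q ∧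
      (∀ (m m' : ℕ) (A B : Submodule k K), A ≤ W ^ m → B ≤ W ^ m' → BMAt w Q A B) ∧
      ∀ m : ℕ, finrank k ↥(W ^ m) ≤ C * (m + 1) ^ w := by
  obtain ⟨w, q, C, Q, h1, h2, h3⟩ := bm2_g (g := 2) two_pos W hW
  refine ⟨w, q, C, Q, h1, fun m m' A B hA hB => ?_, h3⟩
  have h4 := h2 ![m, m'] ![A, B] (by
    intro i
    fin_cases i
    · exact hA
    · exact hB)
  unfold BMg at h4
  rw [Fin.prod_univ_two, Fin.prod_univ_two] at h4
  simp only [Matrix.cons_val_zero, Matrix.cons_val_one] at h4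
  unfold BMAt
  have h5 : ((2 : ℝ) ^ w) ^ 2 * ((finrank k A : ℝ) * finrank k B) ≤ (finrank k ↥(A * B * Q) : ℝ) ^ 2 := by
    rw [← pow_mul, mul_comm w 2]
    exact_mod_cast h4
  have h6 : (2 : ℝ) ^ w * √((finrank k A : ℝ) * finrank k B) = √(((2 : ℝ) ^ w) ^ 2 * ((finrank k A : ℝ) * finrank k B)) := by
    rw [Real.sqrt_mul (show (0 : ℝ) ≤ (2 ^ w) ^ 2 by positivity), Real.sqrt_sq (show (0 : ℝ) ≤ 2 ^ w by positivity)]
  rw [h6]
  exact Real.sqrt_le_iff.2 ⟨Nat.cast_nonneg _, h5⟩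

section

variable {k K : Type u} [Field k] [Field K] [Algebra k K]

/-- a subspace with the largest slope -/
private theorem exists_ss22 (V : Submodule k K) [FiniteDimensional k V] (hV : V ≠ ⊥) (T : Submodule k K → ℕ)
    (hT : ∀ E ≤ V, T E ≤ T V) (h0 : T ⊥ = 0) :
    ∃ V' ≤ V, V' ≠ ⊥ ∧ ∀ E ≤ V, finrank k V' * T E ≤ T V' * finrank k E := by
  classical
  set S : Finset (ℕ × ℕ) := ((Finset.range (T V + 1)) ×ˢ (Finset.range (finrank k V + 1))).filter
    (fun p => ∃ E ≤ V, E ≠ ⊥ ∧ T E = p.1 ∧ finrank k E = p.2) with hS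
  have hmem : ∀ E ≤ V, E ≠ ⊥ → (T E, finrank k E) ∈ S := by
    intro E hE hE0
    rw [hS, Finset.mem_filter, Finset.mem_product, Finset.mem_range, Finset.mem_range]
    refine ⟨⟨Nat.lt_succ_of_le (hT E hE), Nat.lt_succ_of_le (Submodule.finrank_mono hE)⟩, E, hE, hE0, rfl, rfl⟩
  obtain ⟨p, hp, hmax⟩ := S.exists_max_image (fun p => (p.1 : ℚ) / p.2) ⟨_, hmem V le_rfl hV⟩
  rw [hS, Finset.mem_filter] at hp
  obtain ⟨-, V', hV', hV'0, h1, h2⟩ := hp
  refine ⟨V', hV', hV'0, fun E hE => ?_⟩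
  rcases eq_or_ne E ⊥ with rfl | hE0
  · rw [h0]
    simp
  have hfd : FiniteDimensional k V' := Submodule.finiteDimensional_of_le hV'
  have hfdE : FiniteDimensional k E := Submodule.finiteDimensional_of_le hE
  have hpos : 0 < finrank k V' := by
    rw [Module.finrank_pos_iff]
    exact Submodule.nontrivial_iff_ne_bot.2 hV'0
  have hposE : 0 < finrank k E := by
    rw [Module.finrank_pos_iff]
    exact Submodule.nontrivial_iff_ne_bot.2 hE0
  have h3 := hmax _ (hmem E hE hE0)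
  simp only at h3
  rw [← h1, ← h2, div_le_div_iff₀ (by exact_mod_cast hposE) (by exact_mod_cast hpos)] at h3
  have h4 : T E * finrank k V' ≤ T V' * finrank k E := by exact_mod_cast h3
  rw [mul_comm]
  exact h4

private theorem lev_mul22 {ω : K → ℝ} (h : RV k ω) {a b : ℝ} {A B : Submodule k K} (hA : A ≤ lev h a) (hB : B ≤ lev h b) :
    A * B ≤ lev h (a + b) := by
  rw [Submodule.mul_le]
  intro x hx y hy
  rcases hA hx with rfl | hx'
  · rw [zero_mul]; exact Or.inl rfl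
  rcases hB hy with rfl | hy'
  · rw [mul_zero]; exact Or.inl rfl
  by_cases hx0 : x = 0
  · left; rw [hx0, zero_mul]
  by_cases hy0 : y = 0
  · left; rw [hy0, mul_zero]
  right
  rw [h.mul x y hx0 hy0]
  exact add_le_add hx' hy'

private theorem lev_pow22 {ω : K → ℝ} (h : RV k ω) {a : ℝ} {A : Submodule k K} (hA : A ≤ lev h a) (m : ℕ) :
    A ^ m ≤ lev h (m * a) := by
  induction m with
  | zero =>
    rw [pow_zero, Nat.cast_zero, zero_mul]
    rintro x hx
    rw [Submodule.mem_one] at hx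
    obtain ⟨c, rfl⟩ := hx
    by_cases hc : c = 0
    · left; rw [hc, map_zero]
    · right; rw [h.alg c hc]
  | succ m ih =>
    rw [pow_succ]
    have h1 := lev_mul22 h ih hA
    have e : ((m + 1 : ℕ) : ℝ) * a = m * a + a := by push_cast; ring
    rw [e]
    exact h1

private theorem lev_eq22 {ω : K → ℝ} (h : RV k ω) {a b : ℝ} (hab : a = b) {A : Submodule k K} (hA : A ≤ lev h a) : A ≤ lev h b :=
  hab ▸ hA

private noncomputable def tA22 (τ : K ≃ₐ[k] K) {P : Type*} [Fintype P] {ω : P → K → ℝ} (hω : ∀ v, RV k (ω v)) (c d : P → ℝ)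
    (N : ℕ) (E : Submodule k K) : ℕ :=
  ∑ v, (SN (hω v) N (c v) E + SN ((hω v).comp τ) N (d v) E)

private theorem map_map22 (τ : K ≃ₐ[k] K) (hτ : ∀ x, τ (τ x) = x) (E : Submodule k K) :
    (E.map τ.toLinearMap).map τ.toLinearMap = E := by
  ext x
  constructor
  · rintro ⟨y, ⟨z, hz, rfl⟩, rfl⟩
    change τ (τ z) ∈ E
    rw [hτ]
    exact hz
  · intro hx
    exact ⟨τ x, ⟨x, hx, rfl⟩, hτ x⟩

private theorem map_mul22 (τ : K ≃ₐ[k] K) (A B : Submodule k K) :
    (A * B).map τ.toLinearMap = A.map τ.toLinearMap * B.map τ.toLinearMap :=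
  Submodule.map_mul A B (τ : K →ₐ[k] K)

private theorem map_pow22 (τ : K ≃ₐ[k] K) (A : Submodule k K) (m : ℕ) :
    (A ^ m).map τ.toLinearMap = (A.map τ.toLinearMap) ^ m :=
  Submodule.map_pow A (τ : K →ₐ[k] K) m

private theorem finrank_map22 (τ : K ≃ₐ[k] K) (E : Submodule k K) : finrank k (E.map τ.toLinearMap) = finrank k E :=
  LinearEquiv.finrank_map_eq τ.toLinearEquiv E

/-- the inequality of Brunn and Minkowski for the levels -/
private theorem key22 [CharZero k] (τ : K ≃ₐ[k] K) (hτ : ∀ x, τ (τ x) = x) {P : Type*} [Fintype P] {ω : P → K → ℝ}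
    (hω : ∀ v, RV k (ω v)) (g : P → ℝ) (W : Submodule k K) [FiniteDimensional k W] (hWτ : W.map τ.toLinearMap = W)
    (hW : ∀ v, W ≤ lev (hω v) (-g v))
    (hS : ∀ (m : ℕ) (s : k), (s = 1 ∨ s = -1) → ∀ E ≤ W ^ m, (∀ z ∈ E, τ z = s • z) →
      ∀ (n : P → ℕ) (z : ∀ v, Fin (n v) → K), (∀ v, LinearIndependent k (z v)) → (∀ v i, z v i ∈ E) →
        ∑ v, ∑ i, (ω v (z v i) + m * g v) ≤ m * finrank k E) {N : ℕ} (hN : 0 < N)
    {w q : ℕ} {Q : Submodule k K} (hQ : Q ≤ W ^ q)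
    (hBM : ∀ (m m' : ℕ) (A B : Submodule k K), A ≤ W ^ m → B ≤ W ^ m' → BMAt w Q A B) (m : ℕ) :
    2 ^ w * ∑ v, SN (hω v) N (m * g v) (W ^ m) ≤ N * (2 * m + q) * finrank k ↥(W ^ (2 * m + q)) := by
  classical
  have hfg : ∀ n : ℕ, FiniteDimensional k ↥(W ^ n) := fun n =>
    Module.Finite.iff_fg.2 ((Module.Finite.iff_fg.1 (inferInstance : FiniteDimensional k W)).pow n)
  have hWm : ∀ n : ℕ, (W ^ n).map τ.toLinearMap = W ^ n := fun n => by rw [map_pow22, hWτ]
  have hWl : ∀ v (n : ℕ), W ^ n ≤ lev (hω v) (-(n * g v)) := fun v n =>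
    lev_eq22 (hω v) (by ring) (lev_pow22 (hω v) (hW v) n)
  have := hfg (2 * m + q)
  have h1 := subred τ hτ ω hω (fun v => ((2 * m + q : ℕ) : ℝ) * g v) (W ^ (2 * m + q))
    (by
      intro z hz
      rw [← hWm (2 * m + q)]
      exact ⟨z, hz, rfl⟩)
    (by
      intro v z hz hz0
      rcases hWl v (2 * m + q) hz with h | h
      · exact absurd h hz0
      · linarith)
    (2 * m + q) (hS (2 * m + q)) hN
  refine le_trans ?_ h1
  rw [Finset.mul_sum]
  refine Finset.sum_le_sum fun v _ => ?_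
  have hA : ∀ j : ℕ, 2 ^ w * finrank k ↥(W ^ m ⊓ lev (hω v) (((j : ℝ) + 1) / N - m * g v)) ≤
      finrank k ↥(W ^ (2 * m + q) ⊓ lev (hω v) (((j : ℝ) + 1) / N - ((2 * m + q : ℕ) : ℝ) * g v) ⊓
      (lev (hω v) (((j : ℝ) + 1) / N - ((2 * m + q : ℕ) : ℝ) * g v)).comap τ.toLinearMap) := by
    intro j
    set A : Submodule k K := W ^ m ⊓ lev (hω v) (((j : ℝ) + 1) / N - m * g v) with hA
    have hAW : A ≤ W ^ m := inf_le_left
    have hAl : A ≤ lev (hω v) (((j : ℝ) + 1) / N - m * g v) := inf_le_right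
    set B : Submodule k K := A.map τ.toLinearMap with hB
    have hBW : B ≤ W ^ m := by
      rw [hB, ← hWm m]
      exact Submodule.map_mono hAW
    have h2 := hBM m m A B hAW hBW
    have hBf : finrank k B = finrank k A := finrank_map22 τ A
    unfold BMAt at h2
    rw [hBf, Real.sqrt_mul_self (Nat.cast_nonneg _)] at h2
    have h3 : 2 ^ w * finrank k A ≤ finrank k ↥(A * B * Q) := by exact_mod_cast h2
    refine h3.trans ?_
    have h5 : A * B * Q ≤ W ^ (2 * m + q) := by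
      have : W ^ (2 * m + q) = W ^ m * W ^ m * W ^ q := by
        rw [← pow_add, ← pow_add]
        congr 1
        ring
      rw [this]
      exact mul_le_mul' (mul_le_mul' hAW hBW) hQ
    have h6 : A * B * Q ≤ lev (hω v) (((j : ℝ) + 1) / N - ((2 * m + q : ℕ) : ℝ) * g v) := by
      refine lev_eq22 (hω v) ?_ (lev_mul22 (hω v) (lev_mul22 (hω v) hAl (hBW.trans (hWl v m))) (hQ.trans (hWl v q)))
      push_cast
      ring
    have h7 : A * B * Q ≤ (lev (hω v) (((j : ℝ) + 1) / N - ((2 * m + q : ℕ) : ℝ) * g v)).comap τ.toLinearMap := by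
      rw [← Submodule.map_le_iff_le_comap, map_mul22, map_mul22, ← hB]
      have e : B.map τ.toLinearMap = A := map_map22 τ hτ A
      rw [e]
      have hQτ : Q.map τ.toLinearMap ≤ W ^ q := by
        rw [← hWm q]
        exact Submodule.map_mono hQ
      refine lev_eq22 (hω v) ?_ (lev_mul22 (hω v) (lev_mul22 (hω v) (hBW.trans (hWl v m)) hAl) (hQτ.trans (hWl v q)))
      push_cast
      ring
    exact Submodule.finrank_mono (le_inf (le_inf h5 h6) h7)
  unfold SN
  have := hfg m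
  have hs1 := SN_support (hω v) (W ^ m) hN (m * g v)
  have hs2 := SN_support (hω v) (W ^ (2 * m + q)) hN (((2 * m + q : ℕ) : ℝ) * g v)
  set s : Finset ℕ := hs1.toFinset ∪ hs2.toFinset with hs
  rw [finsum_eq_sum_of_support_subset (s := s), finsum_eq_sum_of_support_subset (s := s), Finset.mul_sum]
  · exact Finset.sum_le_sum fun j _ => hA j
  · intro j hj
    rw [hs, Finset.coe_union]
    right
    rw [Set.Finite.coe_toFinset]
    intro h0
    apply hj
    have h0' : finrank k ↥(W ^ (2 * m + q) ⊓ lev (hω v) (((j : ℝ) + 1) / N - ((2 * m + q : ℕ) : ℝ) * g v)) = 0 := h0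
    have h2 : finrank k ↥(W ^ (2 * m + q) ⊓ lev (hω v) (((j : ℝ) + 1) / N - ((2 * m + q : ℕ) : ℝ) * g v) ⊓
      (lev (hω v) (((j : ℝ) + 1) / N - ((2 * m + q : ℕ) : ℝ) * g v)).comap τ.toLinearMap) ≤ 0 := by
      rw [← h0']
      have : FiniteDimensional k ↥(W ^ (2 * m + q) ⊓ lev (hω v) (((j : ℝ) + 1) / N - ((2 * m + q : ℕ) : ℝ) * g v)) :=
        Submodule.finiteDimensional_of_le (inf_le_left)
      exact Submodule.finrank_mono inf_le_left
    exact Nat.le_zero.1 h2
  · intro j hj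
    rw [hs, Finset.coe_union]
    left
    rw [Set.Finite.coe_toFinset]
    exact hj

private theorem abs_ss22 [CharZero k] (τ : K ≃ₐ[k] K) (hτ : ∀ x, τ (τ x) = x) {P : Type*} [Fintype P] (ω : P → K → ℝ)
    (hω : ∀ v, RV k (ω v)) (c d : P → ℝ) (V : Submodule k K) [FiniteDimensional k V] (hV : V ≠ ⊥)
    (ha : ∀ v, ∀ x ∈ V, x ≠ 0 → 0 ≤ ω v x + c v) (hb : ∀ v, ∀ x ∈ V, x ≠ 0 → 0 ≤ ω v (τ x) + d v)
    (hS : ∀ (m : ℕ) (s : k), (s = 1 ∨ s = -1) → ∀ E ≤ (V * V.map τ.toLinearMap) ^ m, (∀ z ∈ E, τ z = s • z) →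
      ∀ (n : P → ℕ) (z : ∀ v, Fin (n v) → K), (∀ v, LinearIndependent k (z v)) → (∀ v i, z v i ∈ E) →
        ∑ v, ∑ i, (ω v (z v i) + m * (c v + d v)) ≤ m * finrank k E) {N : ℕ} (hN : 0 < N)
    (hss : ∀ E ≤ V, finrank k V * tA22 τ hω c d N E ≤ tA22 τ hω c d N V * finrank k E) :
    tA22 τ hω c d N V ≤ (2 * N + (2 * Fintype.card P * finrank k V + 1)) * finrank k V := by
  classical
  set V2 : Submodule k K := V.map τ.toLinearMap with hV2
  set W : Submodule k K := V * V2 with hWd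
  have hV2V : V2.map τ.toLinearMap = V := map_map22 τ hτ V
  have hWτ : W.map τ.toLinearMap = W := by
    rw [hWd, map_mul22, hV2V, ← hV2, mul_comm]
  have hfV2 : FiniteDimensional k V2 := by rw [hV2]; infer_instance
  have hfW : FiniteDimensional k W := by
    rw [hWd]
    exact Module.Finite.iff_fg.2 ((Module.Finite.iff_fg.1 (inferInstance : FiniteDimensional k V)).mul
      (Module.Finite.iff_fg.1 hfV2))
  have hfg : ∀ n : ℕ, FiniteDimensional k ↥(W ^ n) := fun n =>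
    Module.Finite.iff_fg.2 ((Module.Finite.iff_fg.1 hfW).pow n)
  obtain ⟨x0, hx0, hx00⟩ := (Submodule.ne_bot_iff V).1 hV
  have hw0 : x0 * τ x0 ∈ W := Submodule.mul_mem_mul hx0 ⟨x0, hx0, rfl⟩
  have hw00 : x0 * τ x0 ≠ 0 := mul_ne_zero hx00 (by simpa using hx00)
  have hW0 : W ≠ ⊥ := (Submodule.ne_bot_iff W).2 ⟨_, hw0, hw00⟩
  have hVl : ∀ v, V ≤ lev (hω v) (-c v) := by
    intro v x hx
    by_cases hx0 : x = 0
    · exact Or.inl hx0
    · right
      have := ha v x hx hx0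
      linarith
  have hV2l : ∀ v, V2 ≤ lev (hω v) (-d v) := by
    rintro v _ ⟨x, hx, rfl⟩
    by_cases hx0 : x = 0
    · left
      rw [hx0, map_zero]
    · right
      have := hb v x hx hx0
      change -d v ≤ ω v (τ x)
      linarith
  have hWl : ∀ v, W ≤ lev (hω v) (-(c v + d v)) := fun v =>
    lev_eq22 (hω v) (by ring) (lev_mul22 (hω v) (hVl v) (hV2l v))
  obtain ⟨w, q, C, Q, hQ, hBM, hgr⟩ := bm22 W hW0
  set r := finrank k V with hr
  set T := tA22 τ hω c d N V with hT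
  set D : ℕ → ℕ := fun m => finrank k ↥(W ^ m) with hD
  have hD1 : ∀ m, 1 ≤ D m := by
    intro m
    have := hfg m
    have h1 : 0 < finrank k ↥(W ^ m) := by
      rw [Module.finrank_pos_iff]
      exact Submodule.nontrivial_iff_ne_bot.2 ((Submodule.ne_bot_iff _).2 ⟨_, Submodule.pow_mem_pow W hw0 m, pow_ne_zero m hw00⟩)
    exact h1
  -- the lower bound
  let ω' : P ⊕ P → K → ℝ := Sum.elim ω (fun v x => ω v (τ x))
  have hω' : ∀ i, RV k (ω' i) := by
    rintro (v | v)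
    · exact hω v
    · exact (hω v).comp τ
  have hsum1 : ∀ E : Submodule k K, ∑ i, SN (hω' i) N (Sum.elim c d i) E = tA22 τ hω c d N E := by
    intro E
    unfold tA22
    rw [Fintype.sum_sum_type, ← Finset.sum_add_distrib]
    rfl
  have hsum2 : ∀ E : Submodule k K, FiniteDimensional k E →
      ∑ i, SN (hω' i) N (Sum.elim d c i) (E.map τ.toLinearMap) = tA22 τ hω c d N E := by
    intro E hfE
    unfold tA22
    rw [Fintype.sum_sum_type, ← Finset.sum_add_distrib]
    refine Finset.sum_congr rfl fun v _ => ?_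
    have e1 : SN (hω' (Sum.inl v)) N (Sum.elim d c (Sum.inl v)) (E.map τ.toLinearMap) = SN ((hω v).comp τ) N (d v) E :=
      (SN_comp (hω v) E τ N (d v)).symm
    have e2 : SN (hω' (Sum.inr v)) N (Sum.elim d c (Sum.inr v)) (E.map τ.toLinearMap) = SN (hω v) N (c v) E := by
      have := SN_comp (hω v) (E.map τ.toLinearMap) τ N (c v)
      rw [map_map22 τ hτ] at this
      exact this
    rw [e1, e2, add_comm]
  have hlow : ∀ m : ℕ, m * D m * T ≤ r * ∑ v, SN (hω v) N (m * (c v + d v)) (W ^ m) +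
      m * D m * (r * (r * (2 * Fintype.card P) + 1)) := by
    intro m
    have h1 := ten ω' hω' (Sum.elim c d) (Sum.elim d c) V V2 hV (finrank_map22 τ V) hN
      (by
        rintro (v | v) x hx hx0
        · exact ha v x hx hx0
        · exact hb v x hx hx0)
      (by
        rintro (v | v) _ ⟨x, hx, rfl⟩ hx0
        · have hx0' : x ≠ 0 := fun h => hx0 (by rw [h, map_zero])
          exact hb v x hx hx0'
        · have hx0' : x ≠ 0 := fun h => hx0 (by rw [h, map_zero])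
          change 0 ≤ ω v (τ (τ x)) + c v
          rw [hτ]
          exact ha v x hx hx0') T (hsum1 V) (hsum2 V inferInstance)
      (by
        intro E hE
        rw [hsum1 E]
        exact hss E hE)
      (by
        intro E hE
        have h2 : E.map τ.toLinearMap ≤ V := by
          rw [← hV2V]
          exact Submodule.map_mono hE
        have h3 := hss _ h2
        rw [← hsum2 (E.map τ.toLinearMap) (Submodule.finiteDimensional_of_le h2), map_map22 τ hτ, finrank_map22] at h3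
        exact h3) m
    have e : V ^ m * V2 ^ m = W ^ m := (mul_pow V V2 m).symm
    rw [e, Fintype.card_sum] at h1
    have e2 : ∑ i, SN (hω' i) N (m * ((Sum.elim c d i : ℝ) + (Sum.elim d c i : ℝ))) (W ^ m) =
        2 * ∑ v, SN (hω v) N (m * (c v + d v)) (W ^ m) := by
      rw [Fintype.sum_sum_type, two_mul]
      congr 1
      refine Finset.sum_congr rfl fun v _ => ?_
      have h4 := SN_comp (hω v) (W ^ m) τ N (m * (d v + c v))
      rw [map_pow22, hWτ] at h4
      have h5 : SN (hω' (Sum.inr v)) N (m * ((Sum.elim c d (Sum.inr v) : ℝ) + (Sum.elim d c (Sum.inr v) : ℝ))) (W ^ m) =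
        SN (hω v) N (m * (d v + c v)) (W ^ m) := h4
      rw [h5, add_comm (d v) (c v)]
    rw [e2] at h1
    have h6 : 2 * (m * D m * T) ≤ 2 * (r * ∑ v, SN (hω v) N (m * (c v + d v)) (W ^ m) +
      m * D m * (r * (r * (2 * Fintype.card P) + 1))) := by
      refine le_trans (le_of_eq ?_) (h1.trans (le_of_eq ?_))
      · ring
      · ring
    exact Nat.le_of_mul_le_mul_left h6 (by norm_num)
  have hup : ∀ m : ℕ, 2 ^ w * ∑ v, SN (hω v) N (m * (c v + d v)) (W ^ m) ≤ N * (2 * m + q) * D (2 * m + q) := fun m =>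
    key22 τ hτ hω (fun v => c v + d v) W hWτ hWl hS hN hQ hBM m
  -- the limit
  by_contra hcon
  push Not at hcon
  have hX : (2 * N + (2 * Fintype.card P * r + 1)) * r + 1 ≤ T := hcon
  set a : ℝ := (r : ℝ) * N with ha'
  have ha0 : 0 ≤ a := by positivity
  obtain ⟨m, hm, hgro⟩ := gro D hD1 w C hgr q (ε := 1 / (4 * (a + 1))) (by positivity) (4 * (r * N + 1) * (q + 1))
  have hm0 : 0 < m := lt_of_lt_of_le (by positivity) hm
  have hDm : (1 : ℝ) ≤ D m := by exact_mod_cast hD1 m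
  have h1 : ((m : ℝ) * D m * T) ≤ r * (∑ v, SN (hω v) N (m * (c v + d v)) (W ^ m) : ℕ) +
      m * D m * (r * (r * (2 * Fintype.card P) + 1)) := by exact_mod_cast hlow m
  have h2 : (2 : ℝ) ^ w * (∑ v, SN (hω v) N (m * (c v + d v)) (W ^ m) : ℕ) ≤ N * (2 * m + q) * D (2 * m + q) := by
    exact_mod_cast hup m
  set S1 : ℝ := ((∑ v, SN (hω v) N (m * (c v + d v)) (W ^ m) : ℕ) : ℝ) with hS1
  have h2w : (0 : ℝ) < 2 ^ w := by positivity
  have hε : (0 : ℝ) < 1 / (4 * (a + 1)) := by positivity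
  set ε : ℝ := 1 / (4 * (a + 1)) with hεd
  have h3 : S1 ≤ N * (2 * m + q) * ((1 + ε) * D m) := by
    have h4 : (2 : ℝ) ^ w * S1 ≤ 2 ^ w * (N * (2 * m + q) * ((1 + ε) * D m)) := by
      refine h2.trans ?_
      have : (N : ℝ) * (2 * m + q) * D (2 * m + q) ≤ N * (2 * m + q) * ((1 + ε) * 2 ^ w * D m) := by
        gcongr
      refine this.trans (le_of_eq ?_)
      ring
    exact le_of_mul_le_mul_left h4 h2w
  have hmr : (0 : ℝ) < m := by exact_mod_cast hm0
  have h5 : (m : ℝ) * D m * T ≤ m * D m * (a * (2 + q / m) * (1 + ε) + r * (r * (2 * Fintype.card P) + 1)) := by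
    refine h1.trans ?_
    have h6 : (r : ℝ) * S1 ≤ r * (N * (2 * m + q) * ((1 + ε) * D m)) := by gcongr
    refine (add_le_add_left h6 _).trans (le_of_eq ?_)
    rw [ha']
    field_simp
  have hmD : (0 : ℝ) < m * D m := by positivity
  have h6 : (T : ℝ) ≤ a * (2 + q / m) * (1 + ε) + r * (r * (2 * Fintype.card P) + 1) := le_of_mul_le_mul_left h5 hmD
  have hX' : ((2 * N + (2 * Fintype.card P * r + 1)) * r + 1 : ℝ) ≤ T := by exact_mod_cast hX
  have hq : (q : ℝ) / m ≤ ε := by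
    rw [hεd, div_le_div_iff₀ hmr (by positivity)]
    have h7 : ((4 * (r * N + 1) * (q + 1) : ℕ) : ℝ) ≤ m := by exact_mod_cast hm
    push_cast at h7
    rw [ha']
    nlinarith [Nat.cast_nonneg (α := ℝ) q, ha0]
  have hε1 : ε ≤ 1 / 4 := by
    rw [hεd]
    apply one_div_le_one_div_of_le (by norm_num)
    linarith
  have haε : a * ε ≤ 1 / 4 := by
    rw [hεd, mul_one_div, div_le_div_iff₀ (by positivity) (by norm_num)]
    linarith
  have h8 : a * (2 + q / m) * (1 + ε) ≤ a * 2 + 13 / 16 := by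
    have h9 : a * (2 + q / m) * (1 + ε) ≤ a * (2 + ε) * (1 + ε) := by gcongr
    refine h9.trans ?_
    have h10 : a * (2 + ε) * (1 + ε) = a * 2 + a * ε * (3 + ε) := by ring
    rw [h10]
    have h11 : a * ε * (3 + ε) ≤ 1 / 4 * (3 + 1 / 4) := by gcongr
    linarith
  have h12 : ((2 * N + (2 * Fintype.card P * r + 1)) * r + 1 : ℝ) = a * 2 + r * (r * (2 * Fintype.card P) + 1) + 1 := by
    rw [ha']
    ring
  rw [h12] at hX'
  linarith

theorem absN [CharZero k] (τ : K ≃ₐ[k] K) (hτ : ∀ x, τ (τ x) = x) {P : Type*} [Fintype P] (ω : P → K → ℝ)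
    (hω : ∀ v, RV k (ω v)) (c d : P → ℝ) (V : Submodule k K) [FiniteDimensional k V]
    (ha : ∀ v, ∀ x ∈ V, x ≠ 0 → 0 ≤ ω v x + c v) (hb : ∀ v, ∀ x ∈ V, x ≠ 0 → 0 ≤ ω v (τ x) + d v)
    (hS : ∀ (m : ℕ) (s : k), (s = 1 ∨ s = -1) → ∀ E ≤ (V * V.map τ.toLinearMap) ^ m, (∀ z ∈ E, τ z = s • z) →
      ∀ (n : P → ℕ) (z : ∀ v, Fin (n v) → K), (∀ v, LinearIndependent k (z v)) → (∀ v i, z v i ∈ E) →
        ∑ v, ∑ i, (ω v (z v i) + m * (c v + d v)) ≤ m * finrank k E) :
    ∃ C : ℕ, ∀ N : ℕ, 0 < N → ∑ v, (SN (hω v) N (c v) V + SN ((hω v).comp τ) N (d v) V) ≤ (2 * N + C) * finrank k V := by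
  refine ⟨2 * Fintype.card P * finrank k V + 1, fun N hN => ?_⟩
  have h0 : tA22 τ hω c d N ⊥ = 0 := by
    unfold tA22
    simp only [SN_bot, add_zero, Finset.sum_const_zero]
  change tA22 τ hω c d N V ≤ _
  rcases eq_or_ne V ⊥ with hV | hV
  · rw [hV, h0]
    exact Nat.zero_le _
  obtain ⟨V', hV', hV'0, hmax⟩ := exists_ss22 V hV (tA22 τ hω c d N) (by
    intro E hE
    unfold tA22
    exact Finset.sum_le_sum fun v _ => add_le_add (SN_mono (hω v) V hN (c v) hE) (SN_mono ((hω v).comp τ) V hN (d v) hE)) h0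
  have hfd : FiniteDimensional k V' := Submodule.finiteDimensional_of_le hV'
  have hWle : ∀ m : ℕ, (V' * V'.map τ.toLinearMap) ^ m ≤ (V * V.map τ.toLinearMap) ^ m := fun m =>
    pow_le_pow_left' (mul_le_mul' hV' (Submodule.map_mono hV')) m
  have h1 := abs_ss22 τ hτ ω hω c d V' hV'0 (fun v x hx => ha v x (hV' hx)) (fun v x hx => hb v x (hV' hx))
    (fun m s hs E hE => hS m s hs E (hE.trans (hWle m))) hN (fun E hE => hmax E (hE.trans hV'))
  have hpos : 0 < finrank k V' := by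
    rw [Module.finrank_pos_iff]
    exact Submodule.nontrivial_iff_ne_bot.2 hV'0
  have hle : finrank k V' ≤ finrank k V := Submodule.finrank_mono hV'
  have h2 := hmax V le_rfl
  refine Nat.le_of_mul_le_mul_left (h2.trans ?_) hpos
  calc tA22 τ hω c d N V' * finrank k V ≤ ((2 * N + (2 * Fintype.card P * finrank k V' + 1)) * finrank k V') * finrank k V :=
        Nat.mul_le_mul_right _ h1
    _ ≤ ((2 * N + (2 * Fintype.card P * finrank k V + 1)) * finrank k V') * finrank k V := by gcongr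
    _ = finrank k V' * ((2 * N + (2 * Fintype.card P * finrank k V + 1)) * finrank k V) := by ring

end

end Pool.Agent.SQ
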