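import Pool.Agent.Helper42.SQ.GDefs
import Pool.Agent.Helper42.SQ.ABS

/-!
# SQ, block FB: Theorem B from Theorem A and the combinatorial hypothesis

`comb_sum`: the levels `{f_i >= j/N}`, `1 <= j <= N`, with the weights `1/N`; then `N → ∞`.
-/

set_option autoImplicit false

namespace Pool.Agent.SQ

open Module

universe u

private lemma FB_count {N : ℕ} (hN : 0 < N) {y : ℝ} (hy : 0 ≤ y) :
    (∑ j : Fin N, (if (((j : ℕ) : ℝ) + 1) / N ≤ y then (1 : ℝ) else 0)) ≤ N * y ∧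
    (y ≤ 1 → N * y - 1 ≤ ∑ j : Fin N, (if (((j : ℕ) : ℝ) + 1) / N ≤ y then (1 : ℝ) else 0)) := by
  have hN' : (0 : ℝ) < N := by exact_mod_cast hN
  have hNy : 0 ≤ (N : ℝ) * y := by positivity
  have e : (∑ j : Fin N, (if (((j : ℕ) : ℝ) + 1) / N ≤ y then (1 : ℝ) else 0)) = ((min N ⌊(N : ℝ) * y⌋₊ : ℕ) : ℝ) := by
    rw [Fin.sum_univ_eq_sum_range (fun j : ℕ => if ((j : ℝ) + 1) / N ≤ y then (1 : ℝ) else 0) N, ← Finset.sum_filter,
      Finset.sum_const, nsmul_eq_mul, mul_one]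
    congr 1
    have : (Finset.range N).filter (fun j : ℕ => ((j : ℝ) + 1) / N ≤ y) = Finset.range (min N ⌊(N : ℝ) * y⌋₊) := by
      ext j
      rw [Finset.mem_filter, Finset.mem_range, Finset.mem_range, lt_min_iff, div_le_iff₀ hN', mul_comm y]
      refine and_congr_right fun _ => ?_
      rw [← Nat.add_one_le_iff, Nat.le_floor_iff hNy]
      push_cast
      rfl
    rw [this, Finset.card_range]
  rw [e]
  refine ⟨?_, fun h1 => ?_⟩
  · refine le_trans ?_ (Nat.floor_le hNy)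
    exact_mod_cast min_le_right _ _
  · have h2 : ⌊(N : ℝ) * y⌋₊ ≤ N := by
      have h3 : (N : ℝ) * y ≤ N := by nlinarith
      calc ⌊(N : ℝ) * y⌋₊ ≤ ⌊(N : ℝ)⌋₊ := Nat.floor_le_floor h3
        _ = N := Nat.floor_natCast N
    rw [min_eq_right h2]
    have := Nat.lt_floor_add_one ((N : ℝ) * y)
    linarith

theorem FB_comb_sum {k K : Type*} [Field k] [Field K] [Algebra k K] {I : Type*} [Fintype I] (ω : I → K → ℝ)
    (hω : ∀ i, RV k (ω i)) (c : I → ℝ) (V : Submodule k K) [FiniteDimensional k V]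
    (h0 : ∀ i, ∀ x ∈ V, x ≠ 0 → 0 ≤ ω i x + c i) (h1 : ∀ i, ∃ x ∈ V, x ≠ 0 ∧ ω i x + c i = 0)
    (hpf : ∀ x ∈ V, x ≠ 0 → ∑ i, (ω i x + c i) ≤ 1) {q p : ℕ} (L : Fin q → V) (hL : ∀ j, L j ≠ 0) (hC : Comb k L p)
    {N : ℕ} (hN : 0 < N) :
    ∑ i, ∑ j, (ω i (L j) + c i) ≤ (∑ i, (SN (hω i) N (c i) V : ℝ)) / N + 2 * p + Fintype.card I * q / N := by
  classical
  have hN' : (0 : ℝ) < N := by exact_mod_cast hN
  have hle : ∀ i, ∀ x ∈ V, x ≠ 0 → ω i x + c i ≤ 1 := fun i x hx hx0 =>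
    (Finset.single_le_sum (f := fun i => ω i x + c i) (fun i _ => h0 i x hx hx0) (Finset.mem_univ i)).trans (hpf x hx hx0)
  obtain ⟨W, hW⟩ : ∃ W : I × Fin N → Submodule k V, W = fun a =>
      (lev (hω a.1) ((((a.2 : ℕ) : ℝ) + 1) / N - c a.1)).comap V.subtype := ⟨_, rfl⟩
  have hmem : ∀ (i : I) (t : Fin N) (x : V), x ≠ 0 → (x ∈ W (i, t) ↔ (((t : ℕ) : ℝ) + 1) / N ≤ ω i x + c i) := by
    intro i t x hx
    have hx' : (x : K) ≠ 0 := fun h => hx (Subtype.ext h)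
    rw [hW]
    show ((x : K) = 0 ∨ _) ↔ _
    constructor
    · rintro (h | h)
      · exact absurd h hx'
      · have h' : (((t : ℕ) : ℝ) + 1) / N - c i ≤ ω i x := h
        linarith
    · intro h
      right
      show (((t : ℕ) : ℝ) + 1) / N - c i ≤ ω i x
      linarith
  obtain ⟨eq, -⟩ : ∃ eq : Fin (Fintype.card (I × Fin N)) ≃ I × Fin N, True := ⟨(Fintype.equivFin _).symm, trivial⟩
  have hne : ∀ a, W a ≠ ⊤ := by
    rintro ⟨i, t⟩ h
    obtain ⟨x, hx, hx0, hx1⟩ := h1 i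
    have h2 : (⟨x, hx⟩ : V) ∈ W (i, t) := by rw [h]; trivial
    rw [hmem i t ⟨x, hx⟩ (fun h => hx0 (congrArg Subtype.val h))] at h2
    have h3 : (0 : ℝ) < (((t : ℕ) : ℝ) + 1) / N := by positivity
    simp only at h2
    linarith
  have hx : ∀ x : V, x ≠ 0 → ∑ m with x ∈ W (eq m), (1 / (N : ℝ)) ≤ 1 := by
    intro x hx0
    have hx' : (x : K) ≠ 0 := fun h => hx0 (Subtype.ext h)
    rw [Finset.sum_filter, Equiv.sum_comp eq (fun a => if x ∈ W a then (1 / (N : ℝ)) else 0), Fintype.sum_prod_type]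
    refine le_trans (Finset.sum_le_sum fun i _ => ?_) (hpf x x.2 hx')
    have h2 := (FB_count hN (h0 i x x.2 hx')).1
    have h3 : ∑ t : Fin N, (if x ∈ W (i, t) then (1 / (N : ℝ)) else 0) =
        1 / N * ∑ t : Fin N, (if (((t : ℕ) : ℝ) + 1) / N ≤ ω i x + c i then (1 : ℝ) else 0) := by
      rw [Finset.mul_sum]
      refine Finset.sum_congr rfl fun t _ => ?_
      rw [mul_ite, mul_one, mul_zero]
      exact if_congr (hmem i t x hx0) rfl rfl
    rw [h3, one_div, inv_mul_le_iff₀ hN']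
    exact h2
  have key := hC (Fintype.card (I × Fin N)) (fun m => W (eq m)) (fun _ => 1 / (N : ℝ)) (fun m => hne _) (fun _ => by positivity) hx
  rw [Equiv.sum_comp eq (fun a => 1 / (N : ℝ) * ((Finset.univ.filter fun i => L i ∈ W a).card : ℝ)),
    Equiv.sum_comp eq (fun a => 1 / (N : ℝ) * (finrank k (W a) : ℝ)), ← Finset.mul_sum, ← Finset.mul_sum,
    Fintype.sum_prod_type, Fintype.sum_prod_type] at key
  -- the left side
  have hl : ∀ i, ∑ j, ((N : ℝ) * (ω i (L j) + c i) - 1) ≤ ∑ t : Fin N, ((Finset.univ.filter fun j => L j ∈ W (i, t)).card : ℝ) := by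
    intro i
    have e1 : ∑ t : Fin N, ((Finset.univ.filter fun j => L j ∈ W (i, t)).card : ℝ) =
        ∑ j, ∑ t : Fin N, (if (((t : ℕ) : ℝ) + 1) / N ≤ ω i (L j) + c i then (1 : ℝ) else 0) := by
      rw [Finset.sum_comm]
      refine Finset.sum_congr rfl fun t _ => ?_
      rw [Finset.card_filter, Nat.cast_sum]
      refine Finset.sum_congr rfl fun j _ => ?_
      rw [Nat.cast_ite, Nat.cast_one, Nat.cast_zero]
      exact if_congr (hmem i t (L j) (hL j)) rfl rfl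
    rw [e1]
    refine Finset.sum_le_sum fun j _ => ?_
    have hx' : ((L j : V) : K) ≠ 0 := fun h => hL j (Subtype.ext h)
    exact (FB_count hN (h0 i _ (L j).2 hx')).2 (hle i _ (L j).2 hx')
  -- the right side
  have hr : ∀ i, ∑ t : Fin N, (finrank k (W (i, t)) : ℝ) = (SN (hω i) N (c i) V : ℝ) := by
    intro i
    have e1 : ∀ t : Fin N, finrank k (W (i, t)) = finrank k ↥(V ⊓ lev (hω i) ((((t : ℕ) : ℝ) + 1) / N - c i)) := by
      intro t
      rw [hW]
      rw [← Submodule.map_comap_subtype, Submodule.finrank_map_subtype_eq]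
    have e2 : SN (hω i) N (c i) V = ∑ j ∈ Finset.range N, finrank k ↥(V ⊓ lev (hω i) (((j : ℝ) + 1) / N - c i)) := by
      unfold SN
      refine finsum_eq_sum_of_support_subset _ fun j hj => ?_
      rw [Finset.coe_range, Set.mem_Iio]
      by_contra hjN
      push Not at hjN
      apply hj
      have : V ⊓ lev (hω i) (((j : ℝ) + 1) / N - c i) = ⊥ := by
        rw [eq_bot_iff]
        rintro x ⟨hx1, hx2⟩
        rw [Submodule.mem_bot]
        by_contra hx0
        rcases hx2 with h | h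
        · exact hx0 h
        · have h3 := hle i x hx1 hx0
          have h4 : (1 : ℝ) < ((j : ℝ) + 1) / N := by
            rw [lt_div_iff₀ hN']
            have : (N : ℝ) ≤ j := by exact_mod_cast hjN
            linarith
          linarith
      show finrank k ↥(V ⊓ lev (hω i) (((j : ℝ) + 1) / N - c i)) = 0
      rw [this, finrank_bot]
    rw [e2, ← Fin.sum_univ_eq_sum_range (fun j : ℕ => finrank k ↥(V ⊓ lev (hω i) (((j : ℝ) + 1) / N - c i))) N]
    push_cast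
    exact Finset.sum_congr rfl fun t _ => by rw [e1 t]
  have h5 : 1 / (N : ℝ) * ∑ i, ∑ j, ((N : ℝ) * (ω i (L j) + c i) - 1) ≤ 1 / (N : ℝ) * ∑ i, (SN (hω i) N (c i) V : ℝ) + 2 * p := by
    refine le_trans (mul_le_mul_of_nonneg_left (Finset.sum_le_sum fun i _ => hl i) (by positivity)) (key.trans (le_of_eq ?_))
    rw [Finset.sum_congr rfl fun i _ => hr i]
  have h6 : 1 / (N : ℝ) * ∑ i, ∑ j, ((N : ℝ) * (ω i (L j) + c i) - 1) = ∑ i, ∑ j, (ω i (L j) + c i) - Fintype.card I * q / N := by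
    have : ∑ i, ∑ j, ((N : ℝ) * (ω i (L j) + c i) - 1) = N * ∑ i, ∑ j, (ω i (L j) + c i) - Fintype.card I * q := by
      simp only [Finset.sum_sub_distrib, ← Finset.mul_sum, Finset.sum_const, Finset.card_univ, Fintype.card_fin, nsmul_eq_mul, mul_one]
    rw [this, mul_sub, ← mul_assoc, one_div, inv_mul_cancel₀ hN'.ne', one_mul, ← div_eq_inv_mul]
  rw [h6] at h5
  have h7 : 1 / (N : ℝ) * ∑ i, (SN (hω i) N (c i) V : ℝ) = (∑ i, (SN (hω i) N (c i) V : ℝ)) / N := by ring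
  rw [h7] at h5
  linarith

theorem thmB {k K : Type u} [Field k] [CharZero k] [Field K] [Algebra k K] (τ : K ≃ₐ[k] K) (hτ : ∀ x, τ (τ x) = x)
    {P : Type*} [Fintype P] (ω : P → K → ℝ)
    (hω : ∀ v, RV k (ω v)) (c d : P → ℝ) (V : Submodule k K) [FiniteDimensional k V]
    (ha : ∀ v, ∀ x ∈ V, x ≠ 0 → 0 ≤ ω v x + c v) (hb : ∀ v, ∀ x ∈ V, x ≠ 0 → 0 ≤ ω v (τ x) + d v)
    (hS : ∀ (m : ℕ) (s : k), (s = 1 ∨ s = -1) → ∀ E ≤ (V * V.map τ.toLinearMap) ^ m, (∀ z ∈ E, τ z = s • z) →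
      ∀ (n : P → ℕ) (z : ∀ v, Fin (n v) → K), (∀ v, LinearIndependent k (z v)) → (∀ v i, z v i ∈ E) →
        ∑ v, ∑ i, (ω v (z v i) + m * (c v + d v)) ≤ m * finrank k E)
    (h1 : ∀ v, ∃ x ∈ V, x ≠ 0 ∧ ω v x + c v = 0) (h2 : ∀ v, ∃ x ∈ V, x ≠ 0 ∧ ω v (τ x) + d v = 0)
    (hpf : ∀ x ∈ V, x ≠ 0 → ∑ v, ((ω v x + c v) + (ω v (τ x) + d v)) ≤ 1)
    {q p : ℕ} (L : Fin q → V) (hL : ∀ i, L i ≠ 0) (hC : Comb k L p) :
    ∑ v, ∑ i, ((ω v (L i) + c v) + (ω v (τ (L i)) + d v)) ≤ 2 * (finrank k V + p) := by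
  obtain ⟨C, hN⟩ := absN τ hτ ω hω c d V ha hb hS
  have hO : ∀ i : P ⊕ P, RV k (Sum.elim ω (fun v x => ω v (τ x)) i) := fun i => by
    rcases i with v | v
    · exact hω v
    · exact (hω v).comp τ
  have key : ∀ N : ℕ, 0 < N → ∑ v, ∑ i, ((ω v (L i) + c v) + (ω v (τ (L i)) + d v)) ≤
      2 * (finrank k V + p) + (C * finrank k V + Fintype.card (P ⊕ P) * q) / N := by
    intro N hN0
    have hN' : (0 : ℝ) < N := by exact_mod_cast hN0
    have h3 := FB_comb_sum (Sum.elim ω (fun v x => ω v (τ x))) hO (Sum.elim c d) V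
      (by
        rintro (v | v) x hx hx0
        · exact ha v x hx hx0
        · exact hb v x hx hx0)
      (by
        rintro (v | v)
        · exact h1 v
        · exact h2 v)
      (by
        intro x hx hx0
        rw [Fintype.sum_sum_type, ← Finset.sum_add_distrib]
        exact hpf x hx hx0) L hL hC hN0
    rw [Fintype.sum_sum_type, Fintype.sum_sum_type] at h3
    have h4 : ∑ v, ∑ i, ((ω v (L i) + c v) + (ω v (τ (L i)) + d v)) =
        ∑ v, ∑ i, (ω v (L i) + c v) + ∑ v, ∑ i, (ω v (τ (L i)) + d v) := by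
      rw [← Finset.sum_add_distrib]
      exact Finset.sum_congr rfl fun v _ => Finset.sum_add_distrib
    have h5 : (∑ v, (SN (hω v) N (c v) V : ℝ)) + ∑ v, (SN ((hω v).comp τ) N (d v) V : ℝ) ≤ (2 * N + C) * finrank k V := by
      rw [← Finset.sum_add_distrib]
      exact_mod_cast hN N hN0
    have h6 : ((∑ v, (SN (hω v) N (c v) V : ℝ)) + ∑ v, (SN ((hω v).comp τ) N (d v) V : ℝ)) / N ≤
        2 * finrank k V + C * finrank k V / N := by
      rw [div_le_iff₀ hN']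
      refine h5.trans (le_of_eq ?_)
      field_simp
    rw [h4]
    refine h3.trans ?_
    have h7 : (C * finrank k V + Fintype.card (P ⊕ P) * q : ℝ) / N = C * finrank k V / N + Fintype.card (P ⊕ P) * q / N := by
      ring
    rw [h7]
    have h8 : ((∑ v, (SN (hO (Sum.inl v)) N (Sum.elim c d (Sum.inl v)) V : ℝ)) +
        ∑ v, (SN (hO (Sum.inr v)) N (Sum.elim c d (Sum.inr v)) V : ℝ)) / N ≤ 2 * finrank k V + C * finrank k V / N := h6
    linarith
  refine le_of_forall_pos_le_add fun ε hε => ?_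
  obtain ⟨N, hN1⟩ := exists_nat_gt ((C * finrank k V + Fintype.card (P ⊕ P) * q : ℝ) / ε)
  have hB : (0 : ℝ) ≤ (C * finrank k V + Fintype.card (P ⊕ P) * q : ℝ) := by positivity
  have hN' : (0 : ℝ) < N := lt_of_le_of_lt (by positivity) hN1
  have h9 : (C * finrank k V + Fintype.card (P ⊕ P) * q : ℝ) / N ≤ ε := by
    rw [div_le_iff₀ hN']
    rw [div_lt_iff₀ hε] at hN1
    linarith
  have := key N (by exact_mod_cast hN')
  linarith

end Pool.Agent.SQ
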