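import Pool.Agent.Helper42.SQ.GDefs2
import Pool.Agent.Helper61.AD.Tower
import Pool.Agent.Helper16.UP.HtChow
import Pool.Agent.Helper36.SB.Link2
import Pool.Agent.Helper64.QP.Conj

/-!
# SQ, stage 2, block DATAg: Galois closure of the residue field, heights and Weil functions
-/

set_option autoImplicit false

namespace Pool.Agent.SQ

open NumberField Filter Module MvPolynomial
open Pool.Agent.Helper64.Vojta (Pl nv sn above mem_above above_unique nv_nonneg nv_mul nv_zero nv_pos le_sn sn_pos)
open Pool.Agent.V2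
open Pool.Agent.Chart (fld dg crd hgt)

universe u

section places

/-- the place `w' ∘ e` -/
private theorem exists_comp17 {k L L' : Type*} [Field k] [NumberField k] [Field L] [NumberField L] [Field L'] [NumberField L']
    [Algebra k L] [Algebra k L'] (e : L ≃ₐ[k] L') {v : Pl k} {w' : Pl L'} (hw' : w' ∈ above L' v) :
    ∃ w ∈ above L v, ∀ x, nv w' (e x) = nv w x := by
  let alg : Algebra L L' := (e : L →+* L').toAlgebra
  have hfr : finrank L L' = 1 := by
    have hb : Function.Bijective (Algebra.linearMap L L') := e.bijective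
    exact (LinearEquiv.ofBijective (Algebra.linearMap L L') hb).finrank_eq.symm.trans (Module.finrank_self L)
  have hst : IsScalarTower k L L' := IsScalarTower.of_algebraMap_eq fun c => (e.commutes c).symm
  obtain ⟨w, hw⟩ := Pool.Agent.Helper52.Vojta.exists_below (L := L) w'
  obtain ⟨v', hv'⟩ := Pool.Agent.Helper52.Vojta.exists_below (L := k) w
  have h1 := Pool.Agent.Helper61.AD.above_trans hv' hw
  have h2 : v' = v := above_unique (mem_above.1 h1) (mem_above.1 hw')
  rw [h2] at hv'
  exact ⟨w, hv', fun x => Pool.Agent.Helper36.SB.nv_of_degree_one hfr hw x⟩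

variable {k L : Type u} [Field k] [NumberField k] [Field L] [NumberField L] [Algebra k L] [IsGalois k L]

private theorem exists_above17 (L : Type u) [Field L] [NumberField L] [Algebra k L] (v : Pl k) : ∃ w, w ∈ above L v := by
  by_contra hcon
  push Not at hcon
  have h1 := Pool.Agent.Helper52.Vojta.sum_ldeg (L' := L) v
  rw [Finset.sum_eq_zero fun w hw => absurd hw (hcon w)] at h1
  have h2 : FiniteDimensional k L := FiniteDimensional.right ℚ k L
  have h3 : 0 < finrank k L := finrank_pos
  omega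

/-- Every place above `v` is `w₀ ∘ g` for the same number of elements `g`. -/
private theorem equi17 [Fintype (L ≃ₐ[k] L)] {v : Pl k} {w₀ : Pl L} (hw₀ : w₀ ∈ above L v) (π : (L ≃ₐ[k] L) → Pl L)
    (hπ : ∀ g, π g ∈ above L v ∧ ∀ x, nv w₀ (g x) = nv (π g) x) (φ : Pl L → ℝ) :
    ((above L v).card : ℝ) / finrank k L * ∑ g, φ (π g) = ∑ w ∈ above L v, φ w := by
  classical
  have hfd : FiniteDimensional k L := FiniteDimensional.right ℚ k L
  have hr : (finrank k L : ℝ) ≠ 0 := by exact_mod_cast (finrank_pos (R := k) (M := L)).ne'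
  have hle : ∀ w ∈ above L v, ∀ w' ∈ above L v, (Finset.univ.filter fun g => π g = w).card ≤
      (Finset.univ.filter fun g => π g = w').card := by
    intro w hw w' hw'
    obtain ⟨σ, hσ⟩ := Pool.Agent.Helper36.SB.exists_gal hw' hw
    refine Finset.card_le_card_of_injOn (fun g => g * σ) ?_ fun a _ b _ h => mul_right_cancel h
    intro g hg
    have hg' : π g = w := by simpa using hg
    have h1 : π (g * σ) = w' := by
      apply Pool.Agent.QP.nv_inj
      intro x
      rw [← (hπ (g * σ)).2 x, ← hσ x, ← hg', ← (hπ g).2]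
      rfl
    simpa using h1
  have hcard : ∀ w ∈ above L v, (Finset.univ.filter fun g => π g = w).card =
      (Finset.univ.filter fun g => π g = w₀).card := fun w hw => le_antisymm (hle w hw w₀ hw₀) (hle w₀ hw₀ w hw)
  set c := (Finset.univ.filter fun g => π g = w₀).card with hc
  have hmap : ∀ g ∈ (Finset.univ : Finset (L ≃ₐ[k] L)), π g ∈ above L v := fun g _ => (hπ g).1
  have h1 : ∑ g, φ (π g) = c * ∑ w ∈ above L v, φ w := by
    rw [← Finset.sum_fiberwise_of_maps_to hmap, Finset.mul_sum]
    refine Finset.sum_congr rfl fun w hw => ?_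
    rw [Finset.sum_congr rfl (g := fun _ => φ w) (by
      intro g hg
      rw [(Finset.mem_filter.1 hg).2]), Finset.sum_const, nsmul_eq_mul, hcard w hw]
  have h2 : (above L v).card * c = finrank k L := by
    have h3 := Finset.card_eq_sum_card_fiberwise hmap
    rw [Finset.sum_congr rfl hcard, Finset.sum_const, smul_eq_mul, Finset.card_univ, ← Nat.card_eq_fintype_card,
      IsGalois.card_aut_eq_finrank] at h3
    exact h3.symm
  have h4 : ((above L v).card : ℝ) * c = finrank k L := by exact_mod_cast h2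
  rw [h1, ← mul_assoc, div_mul_eq_mul_div, h4, div_self hr, one_mul]

private theorem nv_add17 {L : Type u} [Field L] [NumberField L] (w : Pl L) (x y : L) : nv w (x + y) ≤ 4 * max (nv w x) (nv w y) := by
  have hm0 : 0 ≤ max (nv w x) (nv w y) := (nv_nonneg w x).trans (le_max_left _ _)
  rcases w with w | w
  · have h1 : w (x + y) ≤ w x + w y := w.1.add_le _ _
    have hx : 0 ≤ w x := apply_nonneg w x
    have hy : 0 ≤ w y := apply_nonneg w y
    have h2 : w (x + y) ≤ 2 * max (w x) (w y) := by
      have := le_max_left (w x) (w y)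
      have := le_max_right (w x) (w y)
      linarith
    have h3 : max (w x ^ w.mult) (w y ^ w.mult) = max (w x) (w y) ^ w.mult := by
      rcases le_total (w x) (w y) with h | h
      · rw [max_eq_right h, max_eq_right (pow_le_pow_left₀ hx h _)]
      · rw [max_eq_left h, max_eq_left (pow_le_pow_left₀ hy h _)]
    have h4 : (2 : ℝ) ^ w.mult ≤ 4 := by
      calc (2 : ℝ) ^ w.mult ≤ 2 ^ 2 := pow_le_pow_right₀ (by norm_num) (Pool.Agent.Helper64.Vojta.mult_le_two w)
        _ = 4 := by norm_num
    show w (x + y) ^ w.mult ≤ 4 * max (w x ^ w.mult) (w y ^ w.mult)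
    rw [h3]
    calc w (x + y) ^ w.mult ≤ (2 * max (w x) (w y)) ^ w.mult := pow_le_pow_left₀ (apply_nonneg w _) h2 _
      _ = 2 ^ w.mult * max (w x) (w y) ^ w.mult := mul_pow _ _ _
      _ ≤ 4 * max (w x) (w y) ^ w.mult :=
        mul_le_mul_of_nonneg_right h4 (pow_nonneg (hx.trans (le_max_left _ _)) _)
  · have h1 : nv (.inr w) (x + y) ≤ max (nv (.inr w) x) (nv (.inr w) y) := FinitePlace.add_le w _ _
    linarith

private theorem max_rpow17 {a b c : ℝ} (ha : 0 ≤ a) (hb : 0 ≤ b) (hc : 0 ≤ c) : max a b ^ c = max (a ^ c) (b ^ c) := by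
  rcases le_total a b with h | h
  · rw [max_eq_right h, max_eq_right (Real.rpow_le_rpow ha h hc)]
  · rw [max_eq_left h, max_eq_left (Real.rpow_le_rpow hb h hc)]

private theorem iSup_rpow17 {n : ℕ} (f : Fin (n + 1) → ℝ) (hf : ∀ i, 0 ≤ f i) {c : ℝ} (hc : 0 ≤ c) :
    (⨆ i, f i ^ c) = (⨆ i, f i) ^ c := by
  apply le_antisymm
  · refine ciSup_le fun i => Real.rpow_le_rpow (hf i) ?_ hc
    exact le_ciSup (Set.finite_range f).bddAbove i
  · obtain ⟨i, hi⟩ := exists_eq_ciSup_of_finite (f := f)
    rw [← hi]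
    exact le_ciSup (f := fun i => f i ^ c) (Set.finite_range _).bddAbove i

end places

section galois

variable {k L : Type u} [Field k] [NumberField k] [Field L] [NumberField L] [Algebra k L] [IsGalois k L]

/-- The absolute values. -/
private theorem core17 [Fintype (L ≃ₐ[k] L)] :
    ∃ M : Pl k → L → ℝ, QSG (MonoidHom.id (L ≃ₐ[k] L)) M ∧
      (∀ (v : Pl k) (z : L), z ≠ 0 → ∑ g : L ≃ₐ[k] L, Real.log (M v (g z)) = ∑ w ∈ above L v, Real.log (nv w z)) ∧
      ∀ (v : Pl k) (N : ℕ) (y : Fin (N + 1) → L), y ≠ 0 → ∑ g : L ≃ₐ[k] L, Real.log (mxn (M v) fun j => g (y j)) =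
        ∑ w ∈ above L v, Real.log (sn w y) := by
  classical
  have hfd : FiniteDimensional k L := FiniteDimensional.right ℚ k L
  have hr0 : 0 < finrank k L := finrank_pos
  have hr : (0 : ℝ) < finrank k L := by exact_mod_cast hr0
  choose w₀ hw₀ using exists_above17 (k := k) L
  have hex := fun (v : Pl k) (g : L ≃ₐ[k] L) => exists_comp17 g (hw₀ v)
  choose π hπ1 hπ2 using hex
  set c : Pl k → ℝ := fun v => ((above L v).card : ℝ) / finrank k L with hc
  have hc0 : ∀ v, 0 < c v := by
    intro v
    have h1 : 0 < (above L v).card := Finset.card_pos.2 ⟨_, hw₀ v⟩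
    have h2 : (0 : ℝ) < (above L v).card := by exact_mod_cast h1
    exact div_pos h2 hr
  have hc1 : ∀ v, c v ≤ 1 := by
    intro v
    have h1 := Pool.Agent.Helper64.Vojta.card_above_le (L := L) v
    have h2 : ((above L v).card : ℝ) ≤ finrank k L := by exact_mod_cast h1
    exact (div_le_one hr).2 h2
  set M : Pl k → L → ℝ := fun v z => nv (w₀ v) z ^ c v with hM
  have hlog : ∀ v z, z ≠ 0 → Real.log (M v z) = c v * Real.log (nv (w₀ v) z) := fun v z hz =>
    Real.log_rpow (nv_pos _ hz) _
  have hsum : ∀ (v : Pl k) (z : L), z ≠ 0 → ∑ g : L ≃ₐ[k] L, Real.log (M v (g z)) = ∑ w ∈ above L v, Real.log (nv w z) := by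
    intro v z hz
    rw [← equi17 (hw₀ v) (π v) (fun g => ⟨hπ1 v g, hπ2 v g⟩) fun w => Real.log (nv w z), Finset.mul_sum]
    refine Finset.sum_congr rfl fun g _ => ?_
    rw [hlog v _ ((map_ne_zero g).2 hz), hπ2 v g z]
  refine ⟨M, ?_, hsum, ?_⟩
  · refine ⟨?_, ?_, ?_, ?_, ?_, ?_, ?_, ?_, ?_⟩
    · intro v
      show nv (w₀ v) 0 ^ c v = 0
      rw [nv_zero, Real.zero_rpow (hc0 v).ne']
    · intro v x hx
      exact Real.rpow_pos_of_pos (nv_pos _ hx) _
    · intro v x y
      show nv (w₀ v) (x * y) ^ c v = _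
      rw [nv_mul, Real.mul_rpow (nv_nonneg _ _) (nv_nonneg _ _)]
    · intro v x y
      show nv (w₀ v) (x + y) ^ c v ≤ 4 * max (nv (w₀ v) x ^ c v) (nv (w₀ v) y ^ c v)
      rw [← max_rpow17 (nv_nonneg _ _) (nv_nonneg _ _) (hc0 v).le]
      have hm : 0 ≤ max (nv (w₀ v) x) (nv (w₀ v) y) := (nv_nonneg _ x).trans (le_max_left _ _)
      calc nv (w₀ v) (x + y) ^ c v ≤ (4 * max (nv (w₀ v) x) (nv (w₀ v) y)) ^ c v :=
            Real.rpow_le_rpow (nv_nonneg _ _) (nv_add17 _ x y) (hc0 v).le
        _ = 4 ^ c v * max (nv (w₀ v) x) (nv (w₀ v) y) ^ c v := Real.mul_rpow (by norm_num) hm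
        _ ≤ 4 * max (nv (w₀ v) x) (nv (w₀ v) y) ^ c v := by
            refine mul_le_mul_of_nonneg_right ?_ (Real.rpow_nonneg hm _)
            calc (4 : ℝ) ^ c v ≤ 4 ^ (1 : ℝ) := Real.rpow_le_rpow_of_exponent_le (by norm_num) (hc1 v)
              _ = 4 := Real.rpow_one 4
    · intro v x y
      show nv (w₀ (.inr v)) (x + y) ^ c (.inr v) ≤ max (nv (w₀ (.inr v)) x ^ c (.inr v)) (nv (w₀ (.inr v)) y ^ c (.inr v))
      rw [← max_rpow17 (nv_nonneg _ _) (nv_nonneg _ _) (hc0 _).le]
      refine Real.rpow_le_rpow (nv_nonneg _ _) ?_ (hc0 _).le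
      have hw := hw₀ (.inr v)
      rcases hww : w₀ (.inr v) with w | w
      · rw [hww] at hw
        exact absurd (mem_above.1 hw) id
      · exact FinitePlace.add_le w _ _
    · intro v z
      by_cases hz : z = 0
      · rw [hz, map_zero, nv_zero]
        show nv (w₀ v) 0 ^ c v = 0
        rw [nv_zero, Real.zero_rpow (hc0 v).ne']
      · have h1 := Pool.Agent.Helper36.SB.gal_log (hw₀ v) z
        have hz' : algebraMap k L z ≠ 0 := (map_ne_zero _).2 hz
        have h2 : Real.log (M v (algebraMap k L z)) = Real.log (nv v z) := by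
          rw [hlog v _ hz', ← h1]
        exact Real.log_injOn_pos (Set.mem_Ioi.2 (Real.rpow_pos_of_pos (nv_pos _ hz') _)) (Set.mem_Ioi.2 (nv_pos _ hz)) h2
    · intro x hx
      have h1 : FinS fun w : Pl L => |Real.log (nv w x)| := by
        have h2 := finS_nv hx
        refine Set.Finite.subset h2 fun w hw => ?_
        rw [Function.mem_support] at hw ⊢
        intro h0
        have h0' : Real.log (nv (.inr w) x) = 0 := h0
        apply hw
        show |Real.log (nv (.inr w) x)| = 0
        rw [h0', abs_zero]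
      have h2 := (Pool.Agent.Helper16.UP.gsum_above (k := k) _ h1).1
      refine Set.Finite.subset h2 fun v hv => ?_
      rw [Function.mem_support] at hv ⊢
      intro h0
      apply hv
      show Real.log (M (.inr v) x) = 0
      rw [hlog _ _ hx]
      have h3 := (Finset.sum_eq_zero_iff_of_nonneg fun w _ => abs_nonneg _).1 h0 _ (hw₀ (.inr v))
      rw [abs_eq_zero.1 h3, mul_zero]
    · intro x hx
      have h1 : (fun v => ∑ g : L ≃ₐ[k] L, Real.log (M v ((MonoidHom.id (L ≃ₐ[k] L)) g x))) =
          fun v => ∑ w ∈ above L v, Real.log (nv w x) := funext fun v => hsum v x hx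
      rw [h1, ← (Pool.Agent.Helper16.UP.gsum_above (k := k) _ (finS_nv hx)).2, gsum_nv hx]
    · intro x hx
      obtain ⟨c, hc⟩ := (IsGalois.mem_range_algebraMap_iff_fixed (F := k) x).2 hx
      exact ⟨c, hc.symm⟩
  · intro v N y hy
    rw [← equi17 (hw₀ v) (π v) (fun g => ⟨hπ1 v g, hπ2 v g⟩) fun w => Real.log (sn w y), Finset.mul_sum]
    refine Finset.sum_congr rfl fun g _ => ?_
    have h1 : mxn (M v) (fun j => g (y j)) = sn (π v g) y ^ c v := by
      show (⨆ j, nv (w₀ v) (g (y j)) ^ c v) = (⨆ j, nv (π v g) (y j)) ^ c v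
      rw [iSup_rpow17 _ (fun j => nv_nonneg _ _) (hc0 v).le]
      congr 1
      exact congrArg iSup (funext fun j => hπ2 v g (y j))
    rw [h1, Real.log_rpow (sn_pos _ hy)]

end galois

theorem data_g {k : Type u} [Field k] [NumberField k] {N : ℕ} (x : Fin (N + 1) → AlgebraicClosure k) (h1 : ∃ j, x j = 1) :
    ∃ (y : Fin (N + 1) → gal x) (M : Pl k → gal x → ℝ) (_ : Fintype (gal x ≃ₐ[k] gal x)), (∀ j, (y j : AlgebraicClosure k) = x j) ∧
      QSG (MonoidHom.id (gal x ≃ₐ[k] gal x)) M ∧
      finrank k (gal x) * hgt x = Hg (MonoidHom.id (gal x ≃ₐ[k] gal x)) M y ∧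
      ∀ (v : Pl k) (d : ℕ) (f : MvPolynomial (Fin (N + 1)) k), aeval (crd x) f ≠ 0 → finrank k (gal x) * lamP d f v x =
        ∑ g : gal x ≃ₐ[k] gal x, (d * Real.log (mxn (M v) fun j => g (y j)) - Real.log (M v (g (aeval y f)))) := by
  classical
  have hF : FiniteDimensional k (fld x) := FiniteDimensional.right ℚ k (fld x)
  have hfd : FiniteDimensional k (gal x) := by
    unfold gal
    infer_instance
  have hgal : IsGalois k (gal x) := by
    unfold gal
    infer_instance
  have h0 : CharZero (gal x) := charZero_of_injective_algebraMap (algebraMap k (gal x)).injective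
  have hQ : FiniteDimensional ℚ (gal x) := Module.Finite.trans k (gal x)
  have hnf : NumberField (gal x) := { to_charZero := h0, to_finiteDimensional := hQ }
  let alg : Algebra (fld x) (gal x) := normalClosure.algebra k (fld x) (AlgebraicClosure k)
  have hst : IsScalarTower k (fld x) (gal x) := by
    unfold gal
    infer_instance
  have hcoe : ∀ z : fld x, ((algebraMap (fld x) (gal x) z : gal x) : AlgebraicClosure k) = z := fun z => rfl
  have hft : Fintype (gal x ≃ₐ[k] gal x) := Fintype.ofFinite _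
  obtain ⟨M, hQS, hM1, hM2⟩ := core17 (k := k) (L := gal x)
  set y : Fin (N + 1) → gal x := fun j => algebraMap (fld x) (gal x) (crd x j) with hy
  have hcrd : crd x ≠ 0 := by
    obtain ⟨j, hj⟩ := h1
    intro h
    have h2 := congrFun h j
    have h3 : ((crd x j : fld x) : AlgebraicClosure k) = x j := rfl
    rw [h2, hj] at h3
    exact zero_ne_one h3
  have hy0 : y ≠ 0 := by
    intro h
    apply hcrd
    funext j
    have h2 := congrFun h j
    have h3 : algebraMap (fld x) (gal x) (crd x j) = 0 := h2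
    exact (map_eq_zero _).1 h3
  have hdeg : (finrank k (gal x) : ℝ) = dg x * finrank (fld x) (gal x) := by
    have h2 := Module.finrank_mul_finrank k (fld x) (gal x)
    rw [← h2]
    push_cast
    rfl
  have hdg : (dg x : ℝ) ≠ 0 := by
    have h2 : 0 < finrank k (fld x) := finrank_pos
    exact_mod_cast h2.ne'
  refine ⟨y, M, hft, fun j => rfl, hQS, ?_, ?_⟩
  · have h2 : Hg (MonoidHom.id (gal x ≃ₐ[k] gal x)) M y = Height.logHeight y := by
      unfold Hg
      have h3 : (fun v => ∑ g : gal x ≃ₐ[k] gal x, Real.log (mxn (M v) fun j => (MonoidHom.id (gal x ≃ₐ[k] gal x)) g (y j))) =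
          fun v => ∑ w ∈ above (gal x) v, Real.log (sn w y) := funext fun v => hM2 v N y hy0
      have h4 : FinS fun w : Pl (gal x) => Real.log (sn w y) :=
        Pool.Agent.Helper64.Vojta.log_support _ (Pool.Agent.Helper64.Vojta.fin_support_sn hy0)
      rw [h3, ← (Pool.Agent.Helper16.UP.gsum_above (k := k) _ h4).2, Pool.Agent.Helper64.Vojta.logHeight_eq hy0]
      rfl
    rw [h2, hy, Pool.Agent.Helper52.Vojta.logHeight_algebraMap hcrd, hdeg]
    unfold hgt
    field_simp
  · intro v d f hf
    have h2 : aeval y f = algebraMap (fld x) (gal x) (aeval (crd x) f) := by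
      have h3 := MvPolynomial.aeval_algebraMap_apply (A := fld x) (gal x) (crd x) f
      exact h3
    have hf' : aeval y f ≠ 0 := by
      rw [h2]
      exact (map_ne_zero _).2 hf
    rw [Finset.sum_sub_distrib, ← Finset.mul_sum, hM2 v N y hy0, hM1 v _ hf', Finset.mul_sum, ← Finset.sum_sub_distrib]
    have h4 := Pool.Agent.Helper61.AD.sum_above_tower (K := fld x) (N := gal x) {v}
      fun w => (d * Real.log (sn w y) - Real.log (nv w (aeval y f)))
    rw [Finset.sum_singleton, Pool.Agent.Helper52.Vojta.sum_upW, Finset.sum_singleton] at h4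
    rw [h4, hdeg]
    unfold lamP
    rw [mul_comm (dg x : ℝ), mul_assoc, mul_div_cancel₀ _ hdg, Finset.mul_sum]
    refine Finset.sum_congr rfl fun w _ => ?_
    rw [Finset.sum_sub_distrib, ← Finset.mul_sum, h2, Pool.Agent.Helper52.Vojta.sum_log_nv,
      hy, Pool.Agent.Helper52.Vojta.sum_log_sn (Nat.succ_pos N)]
    ring

end Pool.Agent.SQ
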