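import Pool.Agent.Helper42.SQ.GDefs2

/-!
# SQ, block NULA: Hilbert's Nullstellensatz descended to `k`
-/

set_option autoImplicit false
set_option linter.unusedVariables false
set_option linter.unusedSectionVars false

namespace Pool.Agent.SQ

open NumberField Filter Module MvPolynomial

universe u

section

variable {k : Type u} [Field k] [NumberField k]

/-- no common zero over the algebraic closure (Hilbert) -/
theorem nul_alg {N' n d : ℕ} (hd : 0 < d) (I : Ideal (MvPolynomial (Fin (N' + 1)) k))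
    (hI : ∀ p ∈ I, ∀ m, homogeneousComponent m p ∈ I)
    (f : Fin (n + 1) → MvPolynomial (Fin (N' + 1)) k)
    (hf : ∀ i, (f i).IsHomogeneous d) (h : ∀ x : Fin (N' + 1) → AlgebraicClosure k, (∀ p ∈ I, aeval x p = 0) →
      (∀ i, aeval x (f i) = 0) → x = 0) :
    ∃ M, ∀ j, (X j) ^ M ∈ I ⊔ Ideal.span (Set.range f) := by
  have h1 : ∀ j, ∃ M, (X j : MvPolynomial (Fin (N' + 1)) k) ^ M ∈ I ⊔ Ideal.span (Set.range f) := by
    intro j
    have h2 : (X j : MvPolynomial (Fin (N' + 1)) k) ∈
        vanishingIdeal k (zeroLocus (AlgebraicClosure k) (I ⊔ Ideal.span (Set.range f))) := by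
      rw [mem_vanishingIdeal_iff]
      intro x hx
      rw [mem_zeroLocus_iff] at hx
      have h3 : x = 0 := h x (fun p hp => hx p (Ideal.mem_sup_left hp))
        (fun i => hx _ (Ideal.mem_sup_right (Ideal.subset_span ⟨i, rfl⟩)))
      rw [aeval_X, h3, Pi.zero_apply]
    rwa [vanishingIdeal_zeroLocus_eq_radical, Ideal.mem_radical_iff] at h2
  choose M hM using h1
  refine ⟨∑ j, M j, fun j => ?_⟩
  have h2 : M j ≤ ∑ j, M j := Finset.single_le_sum (fun i _ => Nat.zero_le _) (Finset.mem_univ j)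
  obtain ⟨r, hr⟩ := Nat.exists_eq_add_of_le h2
  rw [hr, pow_add]
  exact Ideal.mul_mem_right _ _ (hM j)

end

end Pool.Agent.SQ
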