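import Pool.Agent.Helper42.SQ.GAg
import Pool.Agent.Helper42.SQ.VERA

/-!
# SQ, stage 2, block VER
-/

set_option autoImplicit false

namespace Pool.Agent.SQ

open NumberField Filter Module MvPolynomial
open Pool.Agent.Helper64.Vojta (Pl nv sn above)
open Pool.Agent.V2
open Pool.Agent.Chart (fld dg crd hgt)

universe u

variable {k : Type u} [Field k] [NumberField k] {G : Type} [Group G] [Fintype G] {D : SqG k G}

/-- `germs_g` for the monomials of degree `δ` -/
theorem ver {N δ : ℕ} (hδ : 0 < δ) (x : ∀ n, Fin (N + 1) → D.L n) (hx : Ptg D x) (P : Finset (Pl k)) (n : Pl k → G → ℕ)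
    (e : ∀ v g, Fin (n v g) → MvPolynomial (Fin (N + 1)) k) (hh : ∀ v g i, (e v g i).IsHomogeneous δ)
    (he : ∀ v ∈ P, ∀ g, LinearIndependent k fun i => Ideal.Quotient.mk (vanI D x) (e v g i)) {ε : ℝ} (hε : 0 < ε) :
    ∀ᶠ a in (D.U : Filter ℕ), ∑ v ∈ P, ∑ g, ∑ i, (δ * Real.log (mxn (D.N a v) fun j => D.s a g (x a j)) -
      Real.log (D.N a v (D.s a g (aeval (x a) (e v g i))))) ≤
      (Fintype.card G * hilb (vanI D x) δ * δ + ε) * D.H a :=
  ver_of (fun _ {_} [_] x hx P n e he {_} hε => germs_g x hx P n e he hε) hδ x hx P n e hh he hε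

end Pool.Agent.SQ
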