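import Pool.Agent.Helper42.SQ.EFX
import Pool.Agent.Helper42.SQ.LVg
import Pool.Agent.Helper42.SQ.NULA
import Pool.Agent.Helper42.SQ.DATAg
import Pool.Agent.Helper42.SQ.HTg
import Pool.Agent.Helper42.SQ.VER

/-!
# SQ, stage 2, block FINX: points of a projective variety
-/

set_option autoImplicit false
set_option linter.unusedVariables false
set_option linter.unusedSectionVars false

namespace Pool.Agent.SQ

open NumberField Filter Module MvPolynomial
open Pool.Agent.Helper64.Vojta (Pl nv sn above)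
open Pool.Agent.V2
open Pool.Agent.Chart (fld dg crd hgt)

universe u

section

variable {k : Type u} [Field k] [NumberField k]

/-! ### the group -/

/-- The data of the point `x` with the group `G`; the subgroup `H` fixes the coordinates. -/
def PD23 {G : Type} [Group G] [Fintype G] (H : Subgroup G) {N : ℕ} (x : Fin (N + 1) → AlgebraicClosure k) : Prop :=
  ∃ (y : Fin (N + 1) → gal x) (M : Pl k → gal x → ℝ) (s : G →* (gal x ≃ₐ[k] gal x)),
    (∀ j, (y j : AlgebraicClosure k) = x j) ∧ QSG s M ∧ Fintype.card G * hgt x = Hg s M y ∧ (∀ h ∈ H, ∀ j, s h (y j) = y j) ∧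
    ∀ (v : Pl k) (d : ℕ) (f : MvPolynomial (Fin (N + 1)) k), aeval (crd x) f ≠ 0 → Fintype.card G * lamP d f v x =
      ∑ g : G, (d * Real.log (mxn (M v) fun j => s g (y j)) - Real.log (M v (s g (aeval y f))))

private theorem QSG_comp23 {L : Type u} [Field L] [Algebra k L] {G G' : Type*} [Group G] [Fintype G] [Group G'] [Fintype G']
    {s : G →* (L ≃ₐ[k] L)} {M : Pl k → L → ℝ} (h : QSG s M) (e : G' ≃* G) : QSG (s.comp e.toMonoidHom) M where
  zero := h.zero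
  pos := h.pos
  mul := h.mul
  add := h.add
  ult := h.ult
  ext := h.ext
  fin := h.fin
  prod := by
    intro x hx
    rw [← h.prod x hx]
    congr 1
    funext v
    exact Equiv.sum_comp e.toEquiv fun g => Real.log (M v (s g x))
  fix := by
    intro x hx
    refine h.fix x fun g => ?_
    have h1 := hx (e.symm g)
    simpa using h1

private theorem PD_aux23 {N : ℕ} (x : Fin (N + 1) → AlgebraicClosure k) (h1 : ∃ j, x j = 1) (G : Type) [Fintype G]
    (hG : Fintype.card G = finrank k (gal x)) : ∃ Gr : Group G, PD23 (⊥ : Subgroup G) x := by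
  classical
  obtain ⟨y, M, hft, hy, hQ, hH, hl⟩ := data_g x h1
  have hF : FiniteDimensional k (fld x) := FiniteDimensional.right ℚ k (fld x)
  have hfd : FiniteDimensional k (gal x) := by
    unfold gal
    infer_instance
  have hgal : IsGalois k (gal x) := by
    unfold gal
    infer_instance
  have hcard : Nat.card (gal x ≃ₐ[k] gal x) = finrank k (gal x) := IsGalois.card_aut_eq_finrank k (gal x)
  have hcard' : Fintype.card G = Fintype.card (gal x ≃ₐ[k] gal x) := by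
    rw [hG, ← hcard, Nat.card_eq_fintype_card]
  let e : G ≃ (gal x ≃ₐ[k] gal x) := Fintype.equivOfCardEq hcard'
  let Gr : Group G := e.group
  let e' : G ≃* (gal x ≃ₐ[k] gal x) := { e with map_mul' := fun a b => e.apply_symm_apply _ }
  refine ⟨Gr, y, M, (MonoidHom.id (gal x ≃ₐ[k] gal x)).comp e'.toMonoidHom, hy, QSG_comp23 hQ e', ?_, ?_, ?_⟩
  · rw [hG, hH]
    unfold Hg
    congr 1
    funext v
    exact (Equiv.sum_comp e'.toEquiv fun g => Real.log (mxn (M v) fun j => (MonoidHom.id (gal x ≃ₐ[k] gal x)) g (y j))).symm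
  · intro h hh j
    rw [Subgroup.mem_bot.1 hh, map_one]
    rfl
  · intro v d f hf
    rw [hG, hl v d f hf]
    exact (Equiv.sum_comp e'.toEquiv fun g => (d * Real.log (mxn (M v) fun j => g (y j)) -
      Real.log (M v (g (aeval y f))))).symm

private theorem PD_exists23 {N : ℕ} (x : Fin (N + 1) → AlgebraicClosure k) (h1 : ∃ j, x j = 1) :
    ∃ G : Group (Fin (finrank k (gal x))), 0 < finrank k (gal x) ∧ PD23 (⊥ : Subgroup (Fin (finrank k (gal x)))) x := by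
  have hF : FiniteDimensional k (fld x) := FiniteDimensional.right ℚ k (fld x)
  have hfd : FiniteDimensional k (gal x) := by
    unfold gal
    infer_instance
  obtain ⟨G, hG⟩ := PD_aux23 x h1 (Fin (finrank k (gal x))) (Fintype.card_fin _)
  exact ⟨G, finrank_pos, hG⟩

private instance finite_group23 (c : ℕ) : Finite (Group (Fin c)) :=
  Finite.of_injective (fun G : Group (Fin c) => G.mul) fun G G' h => Group.ext h

/-! ### ultrafilters -/

private theorem pig23 (U : Ultrafilter ℕ) {ι : Type*} [Finite ι] (p : ι → ℕ → Prop) (h : ∀ᶠ n in (U : Filter ℕ), ∃ j, p j n) :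
    ∃ j, ∀ᶠ n in (U : Filter ℕ), p j n :=
  Ultrafilter.eventually_exists_iff.1 h

/-! ### homogeneous polynomials -/

section

variable {G : Type} [Group G] [Fintype G] {N : ℕ}

private theorem fd23 (e : ℕ) : FiniteDimensional k (homogeneousSubmodule (Fin (N + 1)) k e) := by
  have hfin : {μ : Fin (N + 1) →₀ ℕ | μ.degree = e}.Finite := Finsupp.finite_of_degree_eq _
  have h1 : FiniteDimensional k (Submodule.span k ((fun μ => monomial μ (1 : k)) '' {μ : Fin (N + 1) →₀ ℕ | μ.degree = e})) :=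
    FiniteDimensional.span_of_finite k (hfin.image _)
  refine Submodule.finiteDimensional_of_le (S₂ := Submodule.span k
    ((fun μ => monomial μ (1 : k)) '' {μ : Fin (N + 1) →₀ ℕ | μ.degree = e})) ?_
  intro p hp
  rw [p.as_sum]
  refine Submodule.sum_mem _ fun μ hμ => ?_
  have h2 : μ.degree = e := by
    have h3 := (show p.IsHomogeneous e from hp) (mem_support_iff.1 hμ)
    rwa [Finsupp.degree_eq_weight_one]
  have h3 : monomial μ (coeff μ p) = coeff μ p • monomial μ (1 : k) := by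
    rw [MvPolynomial.smul_monomial, smul_eq_mul, mul_one]
  rw [h3]
  exact Submodule.smul_mem _ _ (Submodule.subset_span ⟨μ, h2, rfl⟩)

private theorem hilb_pos23 (I : Ideal (MvPolynomial (Fin (N + 1)) k)) [I.IsPrime] (j : Fin (N + 1)) (hj : (X j : MvPolynomial (Fin (N + 1)) k) ∉ I)
    (e : ℕ) : 0 < hilb I e := by
  have := fd23 (k := k) (N := N) e
  unfold hilb
  have h1 : X j ^ e ∉ I := fun h => hj (Ideal.IsPrime.mem_of_pow_mem ‹_› e h)
  have h2 : (X j ^ e : MvPolynomial (Fin (N + 1)) k) ∈ homogeneousSubmodule (Fin (N + 1)) k e := by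
    have := (isHomogeneous_X k j).pow e
    simpa using this
  have h3 : Nontrivial ((homogeneousSubmodule (Fin (N + 1)) k e).map (Ideal.Quotient.mkₐ k I).toLinearMap) := by
    refine ⟨⟨⟨Ideal.Quotient.mk I (X j ^ e), ⟨_, h2, rfl⟩⟩, 0, fun h => h1 ?_⟩⟩
    have := congrArg Subtype.val h
    exact Ideal.Quotient.eq_zero_iff_mem.1 this
  exact finrank_pos

/-- Two ideals with the same homogeneous elements of degree `e`. -/
private theorem hilb_congr23 (I J : Ideal (MvPolynomial (Fin (N + 1)) k)) (e : ℕ)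
    (h : ∀ p : MvPolynomial (Fin (N + 1)) k, p.IsHomogeneous e → (p ∈ I ↔ p ∈ J)) : hilb I e = hilb J e := by
  unfold hilb
  have h1 : ∀ A : Ideal (MvPolynomial (Fin (N + 1)) k), (homogeneousSubmodule (Fin (N + 1)) k e).map (Ideal.Quotient.mkₐ k A).toLinearMap =
      LinearMap.range ((Ideal.Quotient.mkₐ k A).toLinearMap.comp (homogeneousSubmodule (Fin (N + 1)) k e).subtype) := by
    intro A
    rw [LinearMap.range_comp, Submodule.range_subtype]
  rw [h1, h1]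
  rw [← (LinearMap.quotKerEquivRange _).finrank_eq, ← (LinearMap.quotKerEquivRange _).finrank_eq]
  have h2 : LinearMap.ker ((Ideal.Quotient.mkₐ k I).toLinearMap.comp (homogeneousSubmodule (Fin (N + 1)) k e).subtype) =
      LinearMap.ker ((Ideal.Quotient.mkₐ k J).toLinearMap.comp (homogeneousSubmodule (Fin (N + 1)) k e).subtype) := by
    ext p
    have h3 : ∀ A : Ideal (MvPolynomial (Fin (N + 1)) k), p ∈ LinearMap.ker ((Ideal.Quotient.mkₐ k A).toLinearMap.comp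
        (homogeneousSubmodule (Fin (N + 1)) k e).subtype) ↔ p.1 ∈ A := fun A => Ideal.Quotient.eq_zero_iff_mem
    rw [h3, h3]
    exact h p.1 p.2
  rw [h2]

private theorem li_congr23 (I J : Ideal (MvPolynomial (Fin (N + 1)) k)) (e : ℕ)
    (h : ∀ p : MvPolynomial (Fin (N + 1)) k, p.IsHomogeneous e → (p ∈ I ↔ p ∈ J)) {ι : Type*} [Fintype ι]
    (f : ι → MvPolynomial (Fin (N + 1)) k) (hf : ∀ i, (f i).IsHomogeneous e)
    (hI : LinearIndependent k fun i => Ideal.Quotient.mk I (f i)) : LinearIndependent k fun i => Ideal.Quotient.mk J (f i) := by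
  classical
  rw [Fintype.linearIndependent_iff] at hI ⊢
  intro c hc
  refine hI c ?_
  have h1 : ∀ A : Ideal (MvPolynomial (Fin (N + 1)) k), ∑ i, c i • Ideal.Quotient.mk A (f i) = Ideal.Quotient.mk A (∑ i, c i • f i) := by
    intro A
    rw [map_sum]
    refine Finset.sum_congr rfl fun i _ => ?_
    exact ((Ideal.Quotient.mkₐ k A).toLinearMap.map_smul (c i) (f i)).symm
  rw [h1, Ideal.Quotient.eq_zero_iff_mem] at hc ⊢
  refine (h _ ?_).2 hc
  exact Submodule.sum_mem (homogeneousSubmodule (Fin (N + 1)) k e) fun i _ => Submodule.smul_mem _ _ (hf i)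

/-- the largest `n` values -/
private theorem top23 {q : ℕ} (A : Fin q → ℝ) {n : ℕ} (hn : n ≤ q) :
    ∃ J : Finset (Fin q), J.card = n ∧ ∀ i ∈ J, ∀ j, j ∉ J → A j ≤ A i := by
  classical
  have hne : ((Finset.univ : Finset (Fin q)).powersetCard n).Nonempty :=
    Finset.powersetCard_nonempty.2 (by rwa [Finset.card_univ, Fintype.card_fin])
  obtain ⟨J, hJ, hmax⟩ := Finset.exists_max_image _ (fun J : Finset (Fin q) => ∑ i ∈ J, A i) hne
  rw [Finset.mem_powersetCard] at hJ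
  refine ⟨J, hJ.2, fun i hi j hj => ?_⟩
  have h1 : j ∉ J.erase i := fun h => hj (Finset.mem_of_mem_erase h)
  have h2 := hmax (insert j (J.erase i)) (by
    rw [Finset.mem_powersetCard]
    refine ⟨Finset.subset_univ _, ?_⟩
    rw [Finset.card_insert_of_notMem h1, Finset.card_erase_of_mem hi]
    have : 0 < J.card := Finset.card_pos.2 ⟨i, hi⟩
    omega)
  rw [Finset.sum_insert h1] at h2
  have h3 := Finset.add_sum_erase J A hi
  linarith

end

/-! ### the local terms -/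

section loc

variable {G : Type} [Group G] [Fintype G] {D : SqG k G} {N : ℕ}

/-- the local Weil function of the form `p` of degree `d` at `N v ∘ g` -/
private noncomputable def A23 (D : SqG k G) {N : ℕ} (x : ∀ a, Fin (N + 1) → D.L a) (v : Pl k) (g : G) (d : ℕ)
    (p : MvPolynomial (Fin (N + 1)) k) (a : ℕ) : ℝ :=
  d * Real.log (mxn (D.N a v) fun j => D.s a g (x a j)) - Real.log (D.N a v (D.s a g (aeval (x a) p)))

private theorem aeval23 {L : Type u} [Field L] [Algebra k L] (σ : L ≃ₐ[k] L) (x : Fin (N + 1) → L)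
    (p : MvPolynomial (Fin (N + 1)) k) : aeval (fun j => σ (x j)) p = σ (aeval x p) :=
  (MvPolynomial.comp_aeval_apply (f := x) (σ : L →ₐ[k] L) p).symm

variable (x : ∀ a, Fin (N + 1) → D.L a)

private theorem lg_mul23 (a : ℕ) (v : Pl k) (g : G) (z w : D.L a) (hz : z ≠ 0) (hw : w ≠ 0) :
    Real.log (D.N a v (D.s a g (z * w))) = Real.log (D.N a v (D.s a g z)) + Real.log (D.N a v (D.s a g w)) := by
  rw [map_mul, (D.qs a).mul, Real.log_mul]
  · exact ((D.qs a).pos v _ ((map_ne_zero _).2 hz)).ne'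
  · exact ((D.qs a).pos v _ ((map_ne_zero _).2 hw)).ne'

private theorem lg_one23 (a : ℕ) (v : Pl k) (g : G) : Real.log (D.N a v (D.s a g 1)) = 0 := by
  have h1 := lg_mul23 (D := D) a v g 1 1 one_ne_zero one_ne_zero
  rw [mul_one] at h1
  linarith

private theorem lg_pow23 (a : ℕ) (v : Pl k) (g : G) (z : D.L a) (hz : z ≠ 0) (m : ℕ) :
    Real.log (D.N a v (D.s a g (z ^ m))) = m * Real.log (D.N a v (D.s a g z)) := by
  induction m with
  | zero => rw [pow_zero, lg_one23]; simp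
  | succ m ih =>
    rw [pow_succ, lg_mul23 a v g _ _ (pow_ne_zero _ hz) hz, ih]
    push_cast
    ring

private theorem lg_prod23 (a : ℕ) (v : Pl k) (g : G) {ι : Type*} (s : Finset ι) (z : ι → D.L a) (hz : ∀ i ∈ s, z i ≠ 0) :
    Real.log (D.N a v (D.s a g (∏ i ∈ s, z i))) = ∑ i ∈ s, Real.log (D.N a v (D.s a g (z i))) := by
  classical
  induction s using Finset.induction_on with
  | empty => rw [Finset.prod_empty, Finset.sum_empty, lg_one23]
  | insert i s hi ih =>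
    rw [Finset.prod_insert hi, Finset.sum_insert hi, lg_mul23 a v g _ _ (hz i (Finset.mem_insert_self _ _))
      (Finset.prod_ne_zero_iff.2 fun j hj => hz j (Finset.mem_insert_of_mem hj)), ih fun j hj => hz j (Finset.mem_insert_of_mem hj)]

/-- the local term of a product -/
private theorem A_prod23 (a : ℕ) (v : Pl k) (g : G) {d m β : ℕ} {ι : Type*} [Fintype ι] (f : ι → MvPolynomial (Fin (N + 1)) k)
    (b : MvPolynomial (Fin (N + 1)) k) (α : ι → ℕ) (hm : ∑ i, α i + β = m) (hf : ∀ i, aeval (x a) (f i) ≠ 0)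
    (hb : aeval (x a) b ≠ 0) :
    A23 D x v g (d * m) ((∏ i, f i ^ α i) * b) a = ∑ i, α i * A23 D x v g d (f i) a + A23 D x v g (d * β) b a := by
  classical
  unfold A23
  rw [map_mul, map_prod, lg_mul23 a v g _ _ (Finset.prod_ne_zero_iff.2 fun i _ => by
    rw [map_pow]; exact pow_ne_zero _ (hf i)) hb, lg_prod23 a v g _ _ fun i _ => by
    rw [map_pow]; exact pow_ne_zero _ (hf i)]
  have h1 : ∀ i, Real.log (D.N a v (D.s a g (aeval (x a) (f i ^ α i)))) =
      α i * Real.log (D.N a v (D.s a g (aeval (x a) (f i)))) := by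
    intro i
    rw [map_pow, lg_pow23 a v g _ (hf i)]
  simp only [h1]
  simp only [mul_sub, Finset.sum_sub_distrib, ← mul_assoc, ← Finset.sum_mul]
  have h2 : ((d * m : ℕ) : ℝ) = d * (∑ i, (α i : ℝ)) + (d * β : ℕ) := by
    rw [← hm]
    push_cast
    ring
  rw [h2]
  ring

/-- lower bound -/
private theorem A_ge23 (v : Pl k) (g : G) {e : ℕ} (p : MvPolynomial (Fin (N + 1)) k) (hp : p.IsHomogeneous e) :
    ∃ C : ℝ, 0 ≤ C ∧ ∀ a, aeval (x a) p ≠ 0 → -C ≤ A23 D x v g e p a := by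
  obtain ⟨C, -, hC0, hC⟩ := ev_le G p hp
  refine ⟨C v, hC0 v, fun a ha => ?_⟩
  have h1 := hC (D.L a) (D.s a) (D.N a) (D.qs a) (fun j => D.s a g (x a j)) v (by
    rw [aeval23]
    exact (map_ne_zero _).2 ha)
  rw [aeval23] at h1
  unfold A23
  linarith

/-- The selection of the `n + 1` smallest forms. -/
private theorem sel23 (hx1 : ∀ a, ∃ j, x a j = 1) {n d q : ℕ} (hd : 0 < d) (hq : n + 1 ≤ q) (I : Ideal (MvPolynomial (Fin (N + 1)) k))
    (hI : ∀ p ∈ I, ∀ m, homogeneousComponent m p ∈ I) (hxI : ∀ a, ∀ p ∈ I, aeval (x a) p = 0)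
    (f : Fin q → MvPolynomial (Fin (N + 1)) k) (hf : ∀ i, (f i).IsHomogeneous d)
    (hgp : ∀ J : Finset (Fin q), J.card = n + 1 → ∀ x : Fin (N + 1) → AlgebraicClosure k, (∀ p ∈ I, aeval x p = 0) →
      (∀ i ∈ J, aeval x (f i) = 0) → x = 0) (hxf : ∀ a, ∀ i, aeval (x a) (f i) ≠ 0) (v : Pl k) (g : G) :
    ∃ j : Fin (n + 1) → Fin q, Function.Injective j ∧
      (∃ M, ∀ l, (X l : MvPolynomial (Fin (N + 1)) k) ^ M ∈ I ⊔ Ideal.span (Set.range fun l => f (j l))) ∧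
      ∃ C : ℝ, ∀ᶠ a in (D.U : Filter ℕ), ∑ i, A23 D x v g d (f i) a ≤ ∑ l, A23 D x v g d (f (j l)) a + C := by
  classical
  obtain ⟨J, hJ⟩ := pig23 D.U (fun (J : Finset (Fin q)) a => J.card = n + 1 ∧ ∀ i ∈ J, ∀ j, j ∉ J →
    A23 D x v g d (f j) a ≤ A23 D x v g d (f i) a) (Eventually.of_forall fun a => top23 (fun i => A23 D x v g d (f i) a) hq)
  obtain ⟨-, hJc, -⟩ := hJ.exists
  let j : Fin (n + 1) → Fin q := fun l => J.orderEmbOfFin hJc l
  have hj : Function.Injective j := (J.orderEmbOfFin hJc).injective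
  have hjJ : ∀ l, j l ∈ J := fun l => Finset.orderEmbOfFin_mem J hJc l
  have him : Finset.univ.image j = J := by
    ext i
    rw [Finset.mem_image]
    constructor
    · rintro ⟨l, -, rfl⟩
      exact hjJ l
    · intro hi
      have h1 : i ∈ Set.range (J.orderEmbOfFin hJc) := by
        rw [Finset.range_orderEmbOfFin]
        exact hi
      obtain ⟨l, hl⟩ := h1
      exact ⟨l, Finset.mem_univ _, hl⟩
  have hfin : ∃ M, ∀ l, (X l : MvPolynomial (Fin (N + 1)) k) ^ M ∈ I ⊔ Ideal.span (Set.range fun l => f (j l)) := by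
    refine nul_alg hd I hI (fun l => f (j l)) (fun l => hf _) fun y hy hy0 => hgp J hJc y hy fun i hi => ?_
    rw [← him, Finset.mem_image] at hi
    obtain ⟨l, -, rfl⟩ := hi
    exact hy0 l
  refine ⟨j, hj, hfin, ?_⟩
  obtain ⟨C, hC⟩ := nul G I hI (fun l => f (j l)) (fun l => hf _) hfin v
  refine ⟨∑ i ∈ Finset.univ \ J, C, ?_⟩
  filter_upwards [hJ] with a ha
  obtain ⟨l, hl⟩ := hC (D.L a) (D.s a) (D.N a) (D.qs a) (fun j => D.s a g (x a j)) (by
    obtain ⟨j, hj⟩ := hx1 a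
    exact ⟨j, by rw [hj, map_one]⟩) (fun p hp => by rw [aeval23, hxI a p hp, map_zero]) (fun i => by
      rw [aeval23]
      exact (map_ne_zero _).2 (hxf a _))
  rw [aeval23] at hl
  have h1 : ∑ l, A23 D x v g d (f (j l)) a = ∑ i ∈ J, A23 D x v g d (f i) a := by
    rw [← him, Finset.sum_image fun l _ l' _ h => hj h]
  rw [h1, ← Finset.sum_sdiff (Finset.subset_univ J), add_comm]
  refine add_le_add le_rfl (Finset.sum_le_sum fun i hi => ?_)
  rw [Finset.mem_sdiff] at hi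
  exact (ha.2 (j l) (hjJ l) i hi.2).trans hl

/-- The lower bound for the family of products. -/
private theorem low23 (I : Ideal (MvPolynomial (Fin (N + 1)) k))
    (hxg : ∀ p : MvPolynomial (Fin (N + 1)) k, (∃ e, p.IsHomogeneous e) → p ∉ I → ∀ᶠ a in (D.U : Filter ℕ), aeval (x a) p ≠ 0)
    {n d : ℕ} (f : Fin (n + 1) → MvPolynomial (Fin (N + 1)) k) (hf : ∀ i, (f i).IsHomogeneous d)
    (hxf : ∀ a, ∀ i, aeval (x a) (f i) ≠ 0) (v : Pl k) (g : G) {m r : ℕ} (α : Fin r → Fin (n + 1) → ℕ) (β : Fin r → ℕ)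
    (b : Fin r → MvPolynomial (Fin (N + 1)) k) (hm : ∀ t, ∑ i, α t i + β t = m) (hb : ∀ t, (b t).IsHomogeneous (d * β t))
    (hli : LinearIndependent k (fun t => Ideal.Quotient.mk I ((∏ i, f i ^ α t i) * b t))) {κ : ℝ}
    (hκ : ∀ i, κ ≤ ∑ t, (α t i : ℝ)) :
    ∃ C : ℝ, ∀ᶠ a in (D.U : Filter ℕ), κ * ∑ l, A23 D x v g d (f l) a ≤
      ∑ t, A23 D x v g (d * m) ((∏ i, f i ^ α t i) * b t) a + C := by
  classical
  have h1 : ∀ t, ∀ᶠ a in (D.U : Filter ℕ), aeval (x a) (b t) ≠ 0 := by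
    intro t
    refine hxg _ ⟨_, hb t⟩ fun h => ?_
    refine hli.ne_zero t ?_
    rw [Ideal.Quotient.eq_zero_iff_mem]
    exact Ideal.mul_mem_left _ _ h
  have h2 : ∀ t, ∃ C : ℝ, 0 ≤ C ∧ ∀ a, aeval (x a) (b t) ≠ 0 → -C ≤ A23 D x v g (d * β t) (b t) a :=
    fun t => A_ge23 x v g (b t) (hb t)
  have h3 : ∀ i, ∃ C : ℝ, 0 ≤ C ∧ ∀ a, aeval (x a) (f i) ≠ 0 → -C ≤ A23 D x v g d (f i) a :=
    fun i => A_ge23 x v g (f i) (hf i)
  choose B hB0 hB using h2
  choose E hE0 hE using h3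
  refine ⟨∑ t, B t + ∑ i, (∑ t, (α t i : ℝ) - κ) * E i, ?_⟩
  filter_upwards [eventually_all.2 h1] with a ha
  have h4 : ∀ t, A23 D x v g (d * m) ((∏ i, f i ^ α t i) * b t) a =
      ∑ i, α t i * A23 D x v g d (f i) a + A23 D x v g (d * β t) (b t) a :=
    fun t => A_prod23 x a v g f (b t) (α t) (hm t) (hxf a) (ha t)
  simp only [h4, Finset.sum_add_distrib]
  rw [Finset.sum_comm]
  have h5 : -∑ t, B t ≤ ∑ t, A23 D x v g (d * β t) (b t) a := by
    rw [← Finset.sum_neg_distrib]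
    exact Finset.sum_le_sum fun t _ => hB t a (ha t)
  have h6 : κ * ∑ l, A23 D x v g d (f l) a ≤
      ∑ i, ∑ t, α t i * A23 D x v g d (f i) a + ∑ i, (∑ t, (α t i : ℝ) - κ) * E i := by
    rw [Finset.mul_sum, ← Finset.sum_add_distrib]
    refine Finset.sum_le_sum fun i _ => ?_
    rw [← Finset.sum_mul]
    have h7 := hE i a (hxf a i)
    have h8 : 0 ≤ ∑ t, (α t i : ℝ) - κ := sub_nonneg.2 (hκ i)
    nlinarith
  linarith

end loc

/-! ### the inequality along the ultrafilter -/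

section core

variable {G : Type} [Group G] [Fintype G] {D : SqG k G} {N : ℕ}

private theorem core23 {w : ℕ} (hw : 0 < w) {n d q : ℕ} (hd : 0 < d) (hq : n + 1 ≤ q)
    (I : Ideal (MvPolynomial (Fin (N + 1)) k)) [I.IsPrime] (hI : ∀ p ∈ I, ∀ m, homogeneousComponent m p ∈ I)
    (hdim : Algebra.trdeg k (MvPolynomial (Fin (N + 1)) k ⧸ I) = n + 1) (S : Finset (Pl k))
    (f : Pl k → Fin q → MvPolynomial (Fin (N + 1)) k) (hf : ∀ v ∈ S, ∀ i, (f v i).IsHomogeneous d)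
    (hgp : ∀ v ∈ S, ∀ J : Finset (Fin q), J.card = n + 1 → ∀ x : Fin (N + 1) → AlgebraicClosure k, (∀ p ∈ I, aeval x p = 0) →
      (∀ i ∈ J, aeval x (f v i) = 0) → x = 0) {ε : ℝ} (hε : 0 < ε)
    (x : ∀ a, Fin (N + 1) → D.L a) (hx : Ptg D x)
    (hver : ∀ (δ : ℕ), 0 < δ → ∀ (P : Finset (Pl k)) (n : Pl k → G → ℕ)
      (e : ∀ v g, Fin (n v g) → MvPolynomial (Fin (N + 1)) k), (∀ v g i, (e v g i).IsHomogeneous δ) →
      (∀ v ∈ P, ∀ g, LinearIndependent k fun i => Ideal.Quotient.mk (vanI D x) (e v g i)) → ∀ ε : ℝ, 0 < ε →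
      ∀ᶠ a in (D.U : Filter ℕ), ∑ v ∈ P, ∑ g, ∑ i, (δ * Real.log (mxn (D.N a v) fun j => D.s a g (x a j)) -
        Real.log (D.N a v (D.s a g (aeval (x a) (e v g i))))) ≤ (w * hilb (vanI D x) δ * δ + ε) * D.H a)
    (hxI : ∀ a, ∀ p ∈ I, aeval (x a) p = 0)
    (hxg : ∀ p : MvPolynomial (Fin (N + 1)) k, (∃ e, p.IsHomogeneous e) → p ∉ I → ∀ᶠ a in (D.U : Filter ℕ), aeval (x a) p ≠ 0)
    (hxf : ∀ a, ∀ v ∈ S, ∀ i, aeval (x a) (f v i) ≠ 0) :
    ∃ C : ℝ, ∀ᶠ a in (D.U : Filter ℕ), ∑ v ∈ S, ∑ g, ∑ i, A23 D x v g d (f v i) a ≤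
      (w * (n + 1) * d + ε) * D.H a + C := by
  classical
  -- a coordinate which is not in the ideal
  obtain ⟨j0, hj0⟩ : ∃ j, (X j : MvPolynomial (Fin (N + 1)) k) ∉ I := by
    obtain ⟨j, hj⟩ := hx.1 0
    refine ⟨j, fun h => ?_⟩
    have h1 := hxI 0 _ h
    rw [aeval_X, hj] at h1
    exact one_ne_zero h1
  -- the homogeneous elements of the two ideals
  have hvan : ∀ e : ℕ, ∀ p : MvPolynomial (Fin (N + 1)) k, p.IsHomogeneous e → (p ∈ I ↔ p ∈ vanI D x) := by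
    intro e p hp
    constructor
    · intro h
      exact Eventually.of_forall fun a => hxI a p h
    · intro h
      by_contra h1
      obtain ⟨a, h2, h3⟩ := (hxg p ⟨e, hp⟩ h1).and h |>.exists
      exact h2 h3
  -- the constants
  obtain ⟨B, hB⟩ : ∃ B : ℝ, B = w * (n + 1) * d := ⟨_, rfl⟩
  have hB0 : 0 < B := by
    rw [hB]
    have h1 : (0 : ℝ) < w := by exact_mod_cast hw
    have h2 : (0 : ℝ) < d := by exact_mod_cast hd
    positivity
  obtain ⟨ε', hε'⟩ : ∃ ε' : ℝ, ε' = min (1 / 2) (ε / (4 * B)) := ⟨_, rfl⟩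
  have hε'0 : 0 < ε' := by
    rw [hε']
    exact lt_min (by norm_num) (by positivity)
  have hε'1 : ε' ≤ 1 / 2 := by
    rw [hε']
    exact min_le_left _ _
  have hε'2 : ε' * (4 * B) ≤ ε := by
    have h1 : ε' ≤ ε / (4 * B) := by
      rw [hε']
      exact min_le_right _ _
    rwa [le_div_iff₀ (by positivity)] at h1
  -- the selections
  have hsel : ∀ (v : Pl k) (g : G), ∃ j : Fin (n + 1) → Fin q, v ∈ S →
      (∃ M, ∀ l, (X l : MvPolynomial (Fin (N + 1)) k) ^ M ∈ I ⊔ Ideal.span (Set.range fun l => f v (j l))) ∧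
      ∃ C : ℝ, ∀ᶠ a in (D.U : Filter ℕ), ∑ i, A23 D x v g d (f v i) a ≤ ∑ l, A23 D x v g d (f v (j l)) a + C := by
    intro v g
    by_cases hv : v ∈ S
    · obtain ⟨j, -, h1, h2⟩ := sel23 x hx.1 hd hq I hI hxI (f v) (hf v hv) (hgp v hv) (fun a => hxf a v hv) v g
      exact ⟨j, fun _ => ⟨h1, h2⟩⟩
    · exact ⟨fun l => ⟨l, lt_of_lt_of_le l.2 hq⟩, fun h => absurd h hv⟩
  choose j hj using hsel
  -- the families
  have hfam : ∀ v ∈ S, ∀ g : G, ∀ᶠ m : ℕ in atTop, ∃ (r : ℕ) (α : Fin r → Fin (n + 1) → ℕ) (β : Fin r → ℕ)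
      (b : Fin r → MvPolynomial (Fin (N + 1)) k),
      (∀ t, ∑ i, α t i + β t = m) ∧ (∀ t, (b t).IsHomogeneous (d * β t)) ∧
      LinearIndependent k (fun t => Ideal.Quotient.mk I ((∏ i, f v (j v g i) ^ α t i) * b t)) ∧
      ∀ i, (1 - ε') * (m / (n + 1)) * hilb I (d * m) ≤ ∑ t, (α t i : ℝ) := by
    intro v hv g
    obtain ⟨m0, hm0⟩ := efx hd I hI hdim (fun l => f v (j v g l)) (fun l => hf v hv _) (hj v g hv).1 hε'0
    exact (eventually_ge_atTop m0).mono fun m hm => hm0 m hm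
  have hfam2 : ∀ᶠ m : ℕ in atTop, ∀ v ∈ S, ∀ g : G, ∃ (r : ℕ) (α : Fin r → Fin (n + 1) → ℕ) (β : Fin r → ℕ)
      (b : Fin r → MvPolynomial (Fin (N + 1)) k),
      (∀ t, ∑ i, α t i + β t = m) ∧ (∀ t, (b t).IsHomogeneous (d * β t)) ∧
      LinearIndependent k (fun t => Ideal.Quotient.mk I ((∏ i, f v (j v g i) ^ α t i) * b t)) ∧
      ∀ i, (1 - ε') * (m / (n + 1)) * hilb I (d * m) ≤ ∑ t, (α t i : ℝ) := by
    rw [Filter.eventually_all_finset]
    intro v hv
    rw [Filter.eventually_all]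
    exact hfam v hv
  obtain ⟨m, hm, hm1⟩ := (hfam2.and (eventually_ge_atTop 1)).exists
  obtain ⟨κ, hκ⟩ : ∃ κ : ℝ, κ = (1 - ε') * (m / (n + 1)) * hilb I (d * m) := ⟨_, rfl⟩
  have hh0 : (0 : ℝ) < hilb I (d * m) := by exact_mod_cast hilb_pos23 I j0 hj0 (d * m)
  have hm0 : (0 : ℝ) < m := by exact_mod_cast hm1
  have hκ0 : 0 < κ := by
    rw [hκ]
    have : 0 < 1 - ε' := by linarith
    positivity
  have hm2 : ∀ (v : Pl k) (g : G), ∃ (r : ℕ) (α : Fin r → Fin (n + 1) → ℕ) (β : Fin r → ℕ)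
      (b : Fin r → MvPolynomial (Fin (N + 1)) k), (v ∈ S →
      (∀ t, ∑ i, α t i + β t = m) ∧ (∀ t, (b t).IsHomogeneous (d * β t)) ∧
      LinearIndependent k (fun t => Ideal.Quotient.mk I ((∏ i, f v (j v g i) ^ α t i) * b t)) ∧
      ∀ i, κ ≤ ∑ t, (α t i : ℝ)) ∧ ∀ t, ((∏ i, f v (j v g i) ^ α t i) * b t).IsHomogeneous (d * m) := by
    intro v g
    by_cases hv : v ∈ S
    · obtain ⟨r, α, β, b, h1, h2, h3, h4⟩ := hm v hv g
      refine ⟨r, α, β, b, fun _ => ⟨h1, h2, h3, fun i => by rw [hκ]; exact h4 i⟩, fun t => ?_⟩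
      have h5 : (∏ i, f v (j v g i) ^ α t i).IsHomogeneous (∑ i, d * α t i) :=
        IsHomogeneous.prod _ _ _ fun i _ => (hf v hv _).pow _
      have h6 := h5.mul (h2 t)
      have h7 : ∑ i, d * α t i + d * β t = d * m := by
        rw [← h1 t, ← Finset.mul_sum, mul_add]
      rwa [h7] at h6
    · exact ⟨0, Fin.elim0, Fin.elim0, Fin.elim0, fun h => absurd h hv, fun t => t.elim0⟩
  choose r α β b hb hbh using hm2
  -- the lower bounds
  have hlow : ∀ v g, ∃ C : ℝ, v ∈ S → ∀ᶠ a in (D.U : Filter ℕ), κ * ∑ i, A23 D x v g d (f v i) a ≤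
      ∑ t, A23 D x v g (d * m) ((∏ i, f v (j v g i) ^ α v g t i) * b v g t) a + C := by
    intro v g
    by_cases hv : v ∈ S
    · obtain ⟨C1, h1⟩ := (hj v g hv).2
      obtain ⟨C2, h2⟩ := low23 x I hxg (fun l => f v (j v g l)) (fun l => hf v hv _) (fun a l => hxf a v hv _) v g
        (α v g) (β v g) (b v g) (hb v g hv).1 (hb v g hv).2.1 (hb v g hv).2.2.1 (hb v g hv).2.2.2
      refine ⟨κ * C1 + C2, fun _ => ?_⟩
      filter_upwards [h1, h2] with a h3 h4
      have h5 := mul_le_mul_of_nonneg_left h3 hκ0.le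
      rw [mul_add] at h5
      linarith
    · exact ⟨0, fun h => absurd h hv⟩
  choose C hC using hlow
  have hall : ∀ᶠ a in (D.U : Filter ℕ), ∀ v ∈ S, ∀ g, κ * ∑ i, A23 D x v g d (f v i) a ≤
      ∑ t, A23 D x v g (d * m) ((∏ i, f v (j v g i) ^ α v g t i) * b v g t) a + C v g := by
    rw [Filter.eventually_all_finset]
    intro v hv
    rw [Filter.eventually_all]
    exact fun g => hC v g hv
  -- the upper bound
  have hver := hver (d * m) (Nat.mul_pos hd hm1) S r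
    (fun v g t => (∏ i, f v (j v g i) ^ α v g t i) * b v g t) hbh (fun v hv g => li_congr23 I (vanI D x) (d * m) (hvan (d * m)) _
      (hbh v g) (hb v g hv).2.2.1) (κ * (ε / 2)) (by positivity)
  rw [← hilb_congr23 I (vanI D x) (d * m) (hvan (d * m))] at hver
  refine ⟨κ⁻¹ * ∑ v ∈ S, ∑ g, C v g, ?_⟩
  filter_upwards [hall, hver, D.H1.eventually_ge_atTop 0] with a h1 h2 h3
  have h4 : κ * ∑ v ∈ S, ∑ g, ∑ i, A23 D x v g d (f v i) a ≤
      (w * hilb I (d * m) * (d * m : ℕ) + κ * (ε / 2)) * D.H a + ∑ v ∈ S, ∑ g, C v g := by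
    refine le_trans ?_ (add_le_add h2 le_rfl)
    rw [Finset.mul_sum, ← Finset.sum_add_distrib]
    refine Finset.sum_le_sum fun v hv => ?_
    rw [Finset.mul_sum, ← Finset.sum_add_distrib]
    exact Finset.sum_le_sum fun g _ => h1 v hv g
  have h5 : w * hilb I (d * m) * (d * m : ℕ) + κ * (ε / 2) ≤ κ * (B + ε) := by
    have h6 : w * hilb I (d * m) * (d * m : ℕ) = B * (m / (n + 1) * hilb I (d * m)) := by
      rw [hB]
      push_cast
      have : ((n : ℝ) + 1) ≠ 0 := by positivity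
      field_simp
    have h7 : 0 < (m / (n + 1) * hilb I (d * m) : ℝ) := by positivity
    rw [h6, hκ]
    obtain ⟨z, hz⟩ : ∃ z : ℝ, z = (m / (n + 1) * hilb I (d * m) : ℝ) := ⟨_, rfl⟩
    rw [← hz] at h7
    have h8 : (1 - ε') * (m / (n + 1)) * hilb I (d * m) = (1 - ε') * z := by
      rw [hz]
      ring
    rw [h8, ← hz]
    have h9 : B ≤ (1 - ε') * (B + ε / 2) := by
      have h11 : ε' * ε ≤ 1 / 2 * ε := mul_le_mul_of_nonneg_right hε'1 hε.le
      nlinarith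
    have h10 := mul_le_mul_of_nonneg_left h9 h7.le
    nlinarith
  have h6 : κ * ∑ v ∈ S, ∑ g, ∑ i, A23 D x v g d (f v i) a ≤ κ * ((B + ε) * D.H a + κ⁻¹ * ∑ v ∈ S, ∑ g, C v g) := by
    have h7 := mul_le_mul_of_nonneg_right h5 h3
    rw [mul_add, ← mul_assoc κ κ⁻¹, mul_inv_cancel₀ hκ0.ne', one_mul]
    nlinarith
  rw [hB] at h6
  exact le_of_mul_le_mul_left h6 hκ0

end core

/-! ### the enumeration of the forms -/

variable (k) in
private theorem countable23 : Countable k := by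
  have h1 : Countable (Fin (finrank ℚ k) → ℚ) := inferInstance
  exact (finBasis ℚ k).equivFun.toEquiv.injective.countable

private theorem enum23 {N : ℕ} (I : Ideal (MvPolynomial (Fin (N + 1)) k)) [hIp : I.IsPrime] :
    ∃ P : ℕ → MvPolynomial (Fin (N + 1)) k, (∀ m, P m ∉ I) ∧ (∀ m, ∃ e, (P m).IsHomogeneous e) ∧
      ∀ p : MvPolynomial (Fin (N + 1)) k, (∃ e, p.IsHomogeneous e) → p ∉ I → ∃ m0, ∀ m ≥ m0, p ∣ P m := by
  classical
  have h0 : Countable k := countable23 k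
  have h1 : Countable (MvPolynomial (Fin (N + 1)) k) := by
    have h2 : Function.Injective fun p : MvPolynomial (Fin (N + 1)) k => (show (Fin (N + 1) →₀ ℕ) →₀ k from
      ⟨p.support, fun m => coeff m p, fun m => by rw [MvPolynomial.mem_support_iff]⟩) := by
      intro p p' h
      ext m
      exact DFunLike.congr_fun h m
    exact h2.countable
  have hne : Nonempty {p : MvPolynomial (Fin (N + 1)) k // (∃ e, p.IsHomogeneous e) ∧ p ∉ I} :=
    ⟨⟨1, ⟨0, isHomogeneous_one _ _⟩, fun h => hIp.ne_top ((Ideal.eq_top_iff_one I).2 h)⟩⟩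
  obtain ⟨F, hF⟩ := exists_surjective_nat {p : MvPolynomial (Fin (N + 1)) k // (∃ e, p.IsHomogeneous e) ∧ p ∉ I}
  refine ⟨fun m => ∏ i ∈ Finset.range (m + 1), (F i).1, fun m h => ?_, fun m => ?_, fun p hp hpI => ?_⟩
  · obtain ⟨i, -, hi⟩ := (hIp.prod_mem_iff).1 h
    exact (F i).2.2 hi
  · choose e he using fun i => (F i).2.1
    exact ⟨∑ i ∈ Finset.range (m + 1), e i, IsHomogeneous.prod _ _ _ fun i _ => he i⟩
  · obtain ⟨i, hi⟩ := hF ⟨p, hp, hpI⟩
    refine ⟨i, fun m hm => ?_⟩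
    have h2 : (F i).1 ∣ ∏ i ∈ Finset.range (m + 1), (F i).1 :=
      Finset.dvd_prod_of_mem (fun i => (F i).1) (Finset.mem_range.2 (by omega))
    rwa [hi] at h2

/-! ### points -/

private theorem val_crd23 {N : ℕ} (x : Fin (N + 1) → AlgebraicClosure k) (f : MvPolynomial (Fin (N + 1)) k) :
    ((aeval (crd x) f : fld x) : AlgebraicClosure k) = aeval x f := by
  have h1 := MvPolynomial.comp_aeval_apply (f := crd x) (fld x).val f
  exact h1

private theorem val_y23 {N : ℕ} (x : Fin (N + 1) → AlgebraicClosure k) (y : Fin (N + 1) → gal x)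
    (hy : ∀ j, (y j : AlgebraicClosure k) = x j) (f : MvPolynomial (Fin (N + 1)) k) :
    ((aeval y f : gal x) : AlgebraicClosure k) = aeval x f := by
  have h1 := MvPolynomial.comp_aeval_apply (f := y) (gal x).val f
  have h2 : (fun j => (gal x).val (y j)) = x := funext hy
  rw [h2] at h1
  exact h1

private theorem ne_iff23 {N : ℕ} (x : Fin (N + 1) → AlgebraicClosure k) (y : Fin (N + 1) → gal x)
    (hy : ∀ j, (y j : AlgebraicClosure k) = x j) (f : MvPolynomial (Fin (N + 1)) k) : aeval y f = 0 ↔ aeval x f = 0 := by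
  rw [← val_y23 x y hy f]
  exact ZeroMemClass.coe_eq_zero.symm

private theorem crd_iff23 {N : ℕ} (x : Fin (N + 1) → AlgebraicClosure k) (f : MvPolynomial (Fin (N + 1)) k) :
    aeval (crd x) f = 0 ↔ aeval x f = 0 := by
  rw [← val_crd23 x f]
  exact ZeroMemClass.coe_eq_zero.symm

section main

variable {G : Type} [Group G] [Fintype G] {H : Subgroup G} {N : ℕ}

private theorem hgt_nonneg23 (x : Fin (N + 1) → AlgebraicClosure k) (hx : ∃ j, x j = 1) (h : PD23 H x) : 0 ≤ hgt x := by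
  obtain ⟨y, M, s, hy, hQ, hH, -, hl⟩ := h
  obtain ⟨j, hj⟩ := hx
  have h1 := htg_crd hQ y ⟨j, Subtype.ext (by rw [hy, hj]; rfl)⟩ j
  have h2 := htg_nonneg hQ (y j)
  rw [← hH] at h1
  have h3 : (0 : ℝ) < Fintype.card G := by exact_mod_cast Fintype.card_pos
  exact nonneg_of_mul_nonneg_right (h2.trans h1) h3

variable (H) in
/-- Liouville's inequality for the points with group `G` -/
private theorem liou23 (S : Finset (Pl k)) {d : ℕ} (f : MvPolynomial (Fin (N + 1)) k) (hf : f.IsHomogeneous d) :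
    ∃ C : ℝ, 0 ≤ C ∧ ∀ x : Fin (N + 1) → AlgebraicClosure k, (∃ j, x j = 1) → PD23 H x → aeval (crd x) f ≠ 0 →
      Fintype.card G * ∑ ν ∈ S, lamP d f ν x ≤ d * (Fintype.card G * hgt x) + C := by
  obtain ⟨C, hC⟩ := liouville_g G f hf S
  refine ⟨max C 0, le_max_right _ _, fun x hx h hfx => ?_⟩
  obtain ⟨y, M, s, hy, hQ, hH, -, hl⟩ := h
  obtain ⟨j, hj⟩ := hx
  have h1 := hC (gal x) s M hQ y ⟨j, Subtype.ext (by rw [hy, hj]; rfl)⟩ (fun h => hfx (by
    rw [crd_iff23, ← ne_iff23 x y hy]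
    exact h))
  rw [hH, Finset.mul_sum]
  have h2 : ∑ ν ∈ S, Fintype.card G * lamP d f ν x = ∑ v ∈ S, ∑ g, (d * Real.log (mxn (M v) fun j => s g (y j)) -
      Real.log (M v (s g (aeval y f)))) := Finset.sum_congr rfl fun ν _ => hl ν d f hfx
  rw [h2]
  exact h1.trans (add_le_add le_rfl (le_max_left _ _))

/-- The contradiction for a sequence with constant group. -/
theorem main23 (U : Ultrafilter ℕ) (hU : (U : Filter ℕ) ≤ atTop) {w : ℕ} (hw : 0 < w)
    (hver : ∀ (D : SqG k G) (x : ∀ n, Fin (N + 1) → D.L n), Ptg D x → (∀ n, ∀ h ∈ H, ∀ j, D.s n h (x n j) = x n j) →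
      ∀ (δ : ℕ), 0 < δ → ∀ (P : Finset (Pl k)) (n : Pl k → G → ℕ)
      (e : ∀ v g, Fin (n v g) → MvPolynomial (Fin (N + 1)) k), (∀ v g i, (e v g i).IsHomogeneous δ) →
      (∀ v ∈ P, ∀ g, LinearIndependent k fun i => Ideal.Quotient.mk (vanI D x) (e v g i)) → ∀ ε : ℝ, 0 < ε →
      ∀ᶠ a in (D.U : Filter ℕ), ∑ v ∈ P, ∑ g, ∑ i, (δ * Real.log (mxn (D.N a v) fun j => D.s a g (x a j)) -
        Real.log (D.N a v (D.s a g (aeval (x a) (e v g i))))) ≤ (w * hilb (vanI D x) δ * δ + ε) * D.H a)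
    {n d q r : ℕ} (hd : 0 < d) (hq : n + 1 ≤ q)
    (I : Ideal (MvPolynomial (Fin (N + 1)) k)) [I.IsPrime] (hI : ∀ p ∈ I, ∀ m, homogeneousComponent m p ∈ I)
    (hdim : Algebra.trdeg k (MvPolynomial (Fin (N + 1)) k ⧸ I) = n + 1) (S : Finset (Pl k))
    (f : Pl k → Fin q → MvPolynomial (Fin (N + 1)) k) (hf : ∀ v ∈ S, ∀ i, (f v i).IsHomogeneous d)
    (hgp : ∀ v ∈ S, ∀ J : Finset (Fin q), J.card = n + 1 → ∀ x : Fin (N + 1) → AlgebraicClosure k, (∀ p ∈ I, aeval x p = 0) →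
      (∀ i ∈ J, aeval x (f v i) = 0) → x = 0) {ε : ℝ} (hε : 0 < ε) (hGr : w ≤ r)
    (P : ℕ → MvPolynomial (Fin (N + 1)) k)
    (hPd : ∀ p : MvPolynomial (Fin (N + 1)) k, (∃ e, p.IsHomogeneous e) → p ∉ I → ∃ m0, ∀ m ≥ m0, p ∣ P m)
    (x : ℕ → Fin (N + 1) → AlgebraicClosure k) (hx1 : ∀ m, ∃ j, x m j = 1) (hxI : ∀ m, ∀ p ∈ I, aeval (x m) p = 0)
    (hxf : ∀ m, ∀ v ∈ S, ∀ i, aeval (crd (x m)) (f v i) ≠ 0) (hxP : ∀ m, aeval (x m) (P m) ≠ 0)
    (hxv : ∀ m : ℕ, (r * (n + 1) * d + ε) * hgt (x m) + m < ∑ ν ∈ S, ∑ i, lamP d (f ν i) ν (x m))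
    (hPD : ∀ᶠ m in (U : Filter ℕ), PD23 H (x m)) : False := by
  classical
  have hc1 : (1 : ℝ) ≤ Fintype.card G := by exact_mod_cast Nat.succ_le_of_lt (Fintype.card_pos (α := G))
  have hc0 : (0 : ℝ) < Fintype.card G := by linarith
  obtain ⟨m0, hm0⟩ := hPD.exists
  obtain ⟨φ, hφ⟩ : ∃ φ : ℕ → ℕ, φ = fun m => if PD23 H (x m) then m else m0 := ⟨_, rfl⟩
  have hφ1 : ∀ m, PD23 H (x (φ m)) := by
    intro m
    rw [hφ]
    by_cases h : PD23 H (x m)
    · simpa only [if_pos h] using h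
    · simpa only [if_neg h] using hm0
  have hφ2 : ∀ᶠ m in (U : Filter ℕ), φ m = m := by
    filter_upwards [hPD] with m hm
    rw [hφ]
    exact if_pos hm
  -- the heights
  have hh0 : ∀ m, 0 ≤ hgt (x (φ m)) := fun m => hgt_nonneg23 (x (φ m)) (hx1 _) (hφ1 m)
  have hL : ∀ (ν : Pl k) (i : Fin q), ∃ C : ℝ, 0 ≤ C ∧ (ν ∈ S → ∀ m, Fintype.card G * lamP d (f ν i) ν (x (φ m)) ≤
      d * (Fintype.card G * hgt (x (φ m))) + C) := by
    intro ν i
    by_cases hν : ν ∈ S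
    · obtain ⟨C, hC0, hC⟩ := liou23 H {ν} (f ν i) (hf ν hν i)
      refine ⟨C, hC0, fun _ m => ?_⟩
      have h1 := hC (x (φ m)) (hx1 _) (hφ1 m) (hxf _ ν hν i)
      rwa [Finset.sum_singleton] at h1
    · exact ⟨0, le_rfl, fun h => absurd h hν⟩
  choose C hC0 hC using hL
  obtain ⟨K, hK⟩ : ∃ K : ℝ, K = S.card * q * d := ⟨_, rfl⟩
  have hK0 : 0 ≤ K := by
    rw [hK]
    positivity
  have hb : ∀ m, (φ m : ℝ) ≤ (K + 1) * (Fintype.card G * hgt (x (φ m))) + ∑ ν ∈ S, ∑ i, C ν i := by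
    intro m
    have h1 := hxv (φ m)
    have h2 : Fintype.card G * ∑ ν ∈ S, ∑ i, lamP d (f ν i) ν (x (φ m)) ≤
        K * (Fintype.card G * hgt (x (φ m))) + ∑ ν ∈ S, ∑ i, C ν i := by
      rw [Finset.mul_sum]
      calc ∑ ν ∈ S, Fintype.card G * ∑ i, lamP d (f ν i) ν (x (φ m))
          ≤ ∑ ν ∈ S, ∑ i : Fin q, (d * (Fintype.card G * hgt (x (φ m))) + C ν i) := by
            refine Finset.sum_le_sum fun ν hν => ?_
            rw [Finset.mul_sum]
            exact Finset.sum_le_sum fun i _ => hC ν i hν m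
        _ = K * (Fintype.card G * hgt (x (φ m))) + ∑ ν ∈ S, ∑ i, C ν i := by
            simp only [Finset.sum_add_distrib, Finset.sum_const, Finset.card_univ, Fintype.card_fin, nsmul_eq_mul]
            rw [hK]
            ring
    have h3 : 0 ≤ (r * (n + 1) * d + ε) * hgt (x (φ m)) := mul_nonneg (by positivity) (hh0 m)
    have h4 : (φ m : ℝ) ≤ Fintype.card G * ∑ ν ∈ S, ∑ i, lamP d (f ν i) ν (x (φ m)) := by
      have h5 : (0 : ℝ) ≤ φ m := Nat.cast_nonneg _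
      nlinarith
    have h6 : 0 ≤ Fintype.card G * hgt (x (φ m)) := mul_nonneg hc0.le (hh0 m)
    nlinarith
  have hφt : Tendsto (fun m => (φ m : ℝ)) (U : Filter ℕ) atTop := by
    refine (tendsto_natCast_atTop_atTop.mono_left hU).congr' ?_
    filter_upwards [hφ2] with m hm
    rw [hm]
  have hHt : Tendsto (fun m => Fintype.card G * hgt (x (φ m))) (U : Filter ℕ) atTop := by
    refine tendsto_atTop_mono (f := fun m => ((φ m : ℝ) + -∑ ν ∈ S, ∑ i, C ν i) / (K + 1)) (fun m => ?_) ?_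
    · rw [div_le_iff₀ (by linarith)]
      have := hb m
      linarith
    · exact (tendsto_atTop_add_const_right _ _ hφt).atTop_div_const (by linarith)
  -- the data
  choose y M s hy hQ hH hfix hl using hφ1
  let D : SqG k G :=
    { U := U
      L := fun m => gal (x (φ m))
      fL := fun m => inferInstance
      aL := fun m => inferInstance
      s := s
      N := M
      qs := hQ
      H := fun m => Fintype.card G * hgt (x (φ m))
      H1 := hHt }
  have hyx : ∀ m (p : MvPolynomial (Fin (N + 1)) k), aeval (y m) p = 0 ↔ aeval (x (φ m)) p = 0 :=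
    fun m p => ne_iff23 _ _ (hy m) p
  have hPt : Ptg D y := ⟨fun m => by
      obtain ⟨j, hj⟩ := hx1 (φ m)
      exact ⟨j, Subtype.ext (by rw [hy, hj]; rfl)⟩, hH⟩
  obtain ⟨B, hB⟩ := core23 (D := D) hw hd hq I hI hdim S f hf hgp hε y hPt (hver D y hPt hfix) (fun m p hp => (hyx m p).2 (hxI _ p hp)) (by
      intro p hp hpI
      obtain ⟨m1, hm1⟩ := hPd p hp hpI
      filter_upwards [hφ2, hU (eventually_ge_atTop m1)] with m h1 h2 h3
      rw [hyx, h1] at h3
      obtain ⟨z, hz⟩ := hm1 m h2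
      apply hxP m
      rw [hz, map_mul, h3, zero_mul]) (fun m v hv i h => hxf (φ m) v hv i (by
        rw [crd_iff23, ← hyx]
        exact h))
  obtain ⟨m, h1, h2⟩ := (hB.and (hφt.eventually_ge_atTop B)).exists
  have h3 := hxv (φ m)
  have h4 : Fintype.card G * ∑ ν ∈ S, ∑ i, lamP d (f ν i) ν (x (φ m)) =
      ∑ v ∈ S, ∑ g, ∑ i, A23 D y v g d (f v i) m := by
    rw [Finset.mul_sum]
    refine Finset.sum_congr rfl fun v hv => ?_
    rw [Finset.mul_sum, Finset.sum_comm]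
    exact Finset.sum_congr rfl fun i _ => hl m v d (f v i) (hxf _ v hv i)
  rw [← h4] at h1
  have h5 : (w * (n + 1) * d + ε) * (Fintype.card G * hgt (x (φ m))) ≤
      (r * (n + 1) * d + ε) * (Fintype.card G * hgt (x (φ m))) := by
    refine mul_le_mul_of_nonneg_right ?_ (mul_nonneg hc0.le (hh0 m))
    have h6 : (w : ℝ) ≤ r := by exact_mod_cast hGr
    have h7 : (w : ℝ) * (n + 1) * d ≤ r * (n + 1) * d := by gcongr
    linarith
  have h6 : D.H m = Fintype.card G * hgt (x (φ m)) := rfl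
  rw [h6] at h1
  have h7 : Fintype.card G * ((r * (n + 1) * d + ε) * hgt (x (φ m)) + φ m) <
      Fintype.card G * ∑ ν ∈ S, ∑ i, lamP d (f ν i) ν (x (φ m)) := mul_lt_mul_of_pos_left h3 hc0
  have h8 : (φ m : ℝ) ≤ Fintype.card G * φ m := le_mul_of_one_le_left (Nat.cast_nonneg _) hc1
  nlinarith

end main

/-! ### the theorems -/

/-- The negation of the final inequality gives a sequence. -/
theorem bad23 {N d q : ℕ} {I : Ideal (MvPolynomial (Fin (N + 1)) k)} [I.IsPrime] {S : Finset (Pl k)}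
    {f : Pl k → Fin q → MvPolynomial (Fin (N + 1)) k} {c : ℝ} {R : (Fin (N + 1) → AlgebraicClosure k) → Prop}
    (hcon : ¬ ∃ (Q : MvPolynomial (Fin (N + 1)) k) (C : ℝ), Q ∉ I ∧ (∃ e, Q.IsHomogeneous e) ∧
      ∀ x : Fin (N + 1) → AlgebraicClosure k, (∃ j, x j = 1) → (∀ p ∈ I, aeval x p = 0) → R x →
        (∀ v ∈ S, ∀ i, aeval (crd x) (f v i) ≠ 0) → aeval x Q ≠ 0 →
        ∑ ν ∈ S, ∑ i, lamP d (f ν i) ν x ≤ c * hgt x + C) :
    ∃ (P : ℕ → MvPolynomial (Fin (N + 1)) k) (x : ℕ → Fin (N + 1) → AlgebraicClosure k),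
      (∀ p : MvPolynomial (Fin (N + 1)) k, (∃ e, p.IsHomogeneous e) → p ∉ I → ∃ m0, ∀ m ≥ m0, p ∣ P m) ∧
      (∀ m, ∃ j, x m j = 1) ∧ (∀ m, ∀ p ∈ I, aeval (x m) p = 0) ∧ (∀ m, R (x m)) ∧
      (∀ m, ∀ v ∈ S, ∀ i, aeval (crd (x m)) (f v i) ≠ 0) ∧ (∀ m, aeval (x m) (P m) ≠ 0) ∧
      ∀ m : ℕ, c * hgt (x m) + m < ∑ ν ∈ S, ∑ i, lamP d (f ν i) ν (x m) := by
  classical
  have hbad : ∀ (Q : MvPolynomial (Fin (N + 1)) k), Q ∉ I → (∃ e, Q.IsHomogeneous e) → ∀ C : ℝ,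
      ∃ x : Fin (N + 1) → AlgebraicClosure k, (∃ j, x j = 1) ∧ (∀ p ∈ I, aeval x p = 0) ∧ R x ∧
        (∀ v ∈ S, ∀ i, aeval (crd x) (f v i) ≠ 0) ∧ aeval x Q ≠ 0 ∧
        c * hgt x + C < ∑ ν ∈ S, ∑ i, lamP d (f ν i) ν x := by
    intro Q hQ hQh C
    by_contra h
    apply hcon
    refine ⟨Q, C, hQ, hQh, fun x h1 h2 h3 h4 h5 => ?_⟩
    by_contra h6
    exact h ⟨x, h1, h2, h3, h4, h5, not_le.1 h6⟩
  obtain ⟨P, hP, hPh, hPd⟩ := enum23 I
  choose x hx1 hxI hxr hxf hxQ hxv using fun m : ℕ => hbad (P m) (hP m) (hPh m) m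
  exact ⟨P, x, hPd, hx1, hxI, hxr, hxf, hxQ, hxv⟩

/-- Liouville's inequality for the points of bounded degree. -/
theorem liouN23 {N d q : ℕ} (R : ℕ) (f : Fin q → MvPolynomial (Fin (N + 1)) k) (hf : ∀ i, (f i).IsHomogeneous d)
    (S : Finset (Pl k)) : ∃ C : ℝ, ∀ x : Fin (N + 1) → AlgebraicClosure k, (∃ j, x j = 1) → finrank k (gal x) ≤ R →
      (∀ i, aeval (crd x) (f i) ≠ 0) → 0 ≤ hgt x ∧ ∑ ν ∈ S, ∑ i, lamP d (f i) ν x ≤ q * d * hgt x + C := by
  classical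
  have hfin : Fintype (Σ c : Fin (R + 1), Group (Fin c)) := Fintype.ofFinite _
  have hL : ∀ (a : Σ c : Fin (R + 1), Group (Fin c)) (i : Fin q), ∃ C : ℝ, 0 ≤ C ∧
      ∀ x : Fin (N + 1) → AlgebraicClosure k, (∃ j, x j = 1) → @PD23 k _ _ (Fin a.1) a.2 _ ⊥ N x → aeval (crd x) (f i) ≠ 0 →
      (Fintype.card (Fin a.1) : ℝ) * ∑ ν ∈ S, lamP d (f i) ν x ≤ d * ((Fintype.card (Fin a.1) : ℝ) * hgt x) + C :=
    fun a i => @liou23 k _ _ (Fin a.1) a.2 _ ⊥ N S d (f i) (hf i)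
  choose C hC0 hC using hL
  refine ⟨∑ i, ∑ a, C a i, fun x h1 h3 h4 => ?_⟩
  obtain ⟨G, h5, h6⟩ := PD_exists23 x h1
  have hh : 0 ≤ hgt x := @hgt_nonneg23 k _ _ _ G _ ⊥ N x h1 h6
  refine ⟨hh, ?_⟩
  have h7 : ∀ i, ∑ ν ∈ S, lamP d (f i) ν x ≤ d * hgt x + ∑ a, C a i := by
    intro i
    have h8 := hC ⟨⟨finrank k (gal x), Nat.lt_succ_of_le h3⟩, G⟩ i x h1 h6 (h4 i)
    have h9 : C ⟨⟨finrank k (gal x), Nat.lt_succ_of_le h3⟩, G⟩ i ≤ ∑ a, C a i :=
      Finset.single_le_sum (f := fun a => C a i) (fun a _ => hC0 a i) (Finset.mem_univ _)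
    have h10 : (1 : ℝ) ≤ Fintype.card (Fin (finrank k (gal x))) := by
      rw [Fintype.card_fin]
      exact_mod_cast h5
    have h11 : 0 ≤ C ⟨⟨finrank k (gal x), Nat.lt_succ_of_le h3⟩, G⟩ i := hC0 _ i
    have h12 : (Fintype.card (Fin (finrank k (gal x))) : ℝ) * ∑ ν ∈ S, lamP d (f i) ν x ≤
        (Fintype.card (Fin (finrank k (gal x))) : ℝ) * (d * hgt x + ∑ a, C a i) := by
      have h13 : 0 ≤ ∑ a, C a i := h11.trans h9
      have h14 := le_mul_of_one_le_left h13 h10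
      have h15 := h8
      simp only at h15
      nlinarith
    exact le_of_mul_le_mul_left h12 (by linarith)
  rw [Finset.sum_comm]
  have h8 : ∑ i, ∑ ν ∈ S, lamP d (f i) ν x ≤ ∑ i : Fin q, (d * hgt x + ∑ a, C a i) := Finset.sum_le_sum fun i _ => h7 i
  rw [Finset.sum_add_distrib, Finset.sum_const, Finset.card_univ, Fintype.card_fin, nsmul_eq_mul] at h8
  refine h8.trans (le_of_eq ?_)
  ring

/-- `X` of dimension `n` in `P^N`, at every place of `S` `q ≥ n + 1` sections of degree `d`, any `n + 1` of them without common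
zero on `X`; points of `X` whose residue field has a Galois closure of degree at most `r`. -/
theorem fin_xv {N n d q r : ℕ} (hd : 0 < d) (hq : n + 1 ≤ q) (I : Ideal (MvPolynomial (Fin (N + 1)) k))
    [I.IsPrime] (hI : ∀ p ∈ I, ∀ m, homogeneousComponent m p ∈ I)
    (hdim : Algebra.trdeg k (MvPolynomial (Fin (N + 1)) k ⧸ I) = n + 1) (S : Finset (Pl k))
    (f : Pl k → Fin q → MvPolynomial (Fin (N + 1)) k) (hf : ∀ v ∈ S, ∀ i, (f v i).IsHomogeneous d)
    (hgp : ∀ v ∈ S, ∀ J : Finset (Fin q), J.card = n + 1 → ∀ x : Fin (N + 1) → AlgebraicClosure k, (∀ p ∈ I, aeval x p = 0) →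
      (∀ i ∈ J, aeval x (f v i) = 0) → x = 0) {ε : ℝ} (hε : 0 < ε) :
    ∃ (Q : MvPolynomial (Fin (N + 1)) k) (C : ℝ), Q ∉ I ∧ (∃ e, Q.IsHomogeneous e) ∧
      ∀ x : Fin (N + 1) → AlgebraicClosure k, (∃ j, x j = 1) → (∀ p ∈ I, aeval x p = 0) → finrank k (gal x) ≤ r →
        (∀ v ∈ S, ∀ i, aeval (crd x) (f v i) ≠ 0) → aeval x Q ≠ 0 →
        ∑ ν ∈ S, ∑ i, lamP d (f ν i) ν x ≤ (r * (n + 1) * d + ε) * hgt x + C := by
  classical
  by_contra hcon
  obtain ⟨P, x, hPd, hx1, hxI, hxr, hxf, hxQ, hxv⟩ := bad23 (R := fun x => finrank k (gal x) ≤ r) hcon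
  have hgr : ∀ m, ∃ a : Σ c : Fin (r + 1), Group (Fin c), @PD23 k _ _ (Fin a.1) a.2 _ ⊥ N (x m) := by
    intro m
    obtain ⟨G, h1, h2⟩ := PD_exists23 (x m) (hx1 m)
    exact ⟨⟨⟨finrank k (gal (x m)), Nat.lt_succ_of_le (hxr m)⟩, G⟩, h2⟩
  obtain ⟨⟨c, Gr⟩, hG⟩ := pig23 (hyperfilter ℕ) (fun (a : Σ c : Fin (r + 1), Group (Fin c)) m =>
    @PD23 k _ _ (Fin a.1) a.2 _ ⊥ N (x m)) (Eventually.of_forall hgr)
  refine @main23 k _ _ (Fin c) Gr _ ⊥ N (hyperfilter ℕ) Nat.hyperfilter_le_atTop (Fintype.card (Fin c)) ?_ ?_ n d q r hd hq I _ hI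
    hdim S f hf hgp ε hε ?_ P hPd x hx1 hxI hxf hxQ hxv hG
  · exact @Fintype.card_pos _ _ ⟨Gr.one⟩
  · intro D x hx _ δ hδ P n e hh he ε hε
    exact ver hδ x hx P n e hh he hε
  · rw [Fintype.card_fin]
    exact Nat.lt_succ_iff.1 c.2

/-- `X` of dimension `n` in `P^N`, `q` sections of degree `d`, any `n + 1` of them without common zero on `X`; points of `X` whose residue
field has a Galois closure of degree at most `r`. -/
theorem fin_x {k : Type u} [Field k] [NumberField k] {N n d q r : ℕ} (hd : 0 < d) (I : Ideal (MvPolynomial (Fin (N + 1)) k))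
    [I.IsPrime] (hI : ∀ p ∈ I, ∀ m, homogeneousComponent m p ∈ I)
    (hdim : Algebra.trdeg k (MvPolynomial (Fin (N + 1)) k ⧸ I) = n + 1)
    (f : Fin q → MvPolynomial (Fin (N + 1)) k) (hf : ∀ i, (f i).IsHomogeneous d)
    (hgp : ∀ J : Finset (Fin q), J.card = n + 1 → ∀ x : Fin (N + 1) → AlgebraicClosure k, (∀ p ∈ I, aeval x p = 0) →
      (∀ i ∈ J, aeval x (f i) = 0) → x = 0) (S : Finset (Pl k)) {ε : ℝ} (hε : 0 < ε) :
    ∃ (Q : MvPolynomial (Fin (N + 1)) k) (C : ℝ), Q ∉ I ∧ (∃ e, Q.IsHomogeneous e) ∧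
      ∀ x : Fin (N + 1) → AlgebraicClosure k, (∃ j, x j = 1) → (∀ p ∈ I, aeval x p = 0) → finrank k (gal x) ≤ r →
        (∀ i, aeval (crd x) (f i) ≠ 0) → aeval x Q ≠ 0 →
        ∑ ν ∈ S, ∑ i, lamP d (f i) ν x ≤ (r * (n + 1) * d + ε) * hgt x + C := by
  classical
  by_cases hq : n + 1 ≤ q
  · obtain ⟨Q, C, hQ, hQh, h⟩ := fin_xv (r := r) hd hq I hI hdim S (fun _ => f) (fun _ _ => hf) (fun _ _ => hgp) hε
    exact ⟨Q, C, hQ, hQh, fun x h1 h2 h3 h4 h5 => h x h1 h2 h3 (fun _ _ => h4) h5⟩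
  · obtain ⟨C, hC⟩ := liouN23 r f hf S
    refine ⟨1, C, fun h => (‹I.IsPrime›).ne_top ((Ideal.eq_top_iff_one I).2 h), ⟨0, isHomogeneous_one _ _⟩,
      fun x h1 h2 h3 h4 _ => ?_⟩
    obtain ⟨hh, h5⟩ := hC x h1 h3 h4
    refine h5.trans (add_le_add ?_ le_rfl)
    have h8 : 1 ≤ r := by
      obtain ⟨G, h6, -⟩ := PD_exists23 x h1
      omega
    have h9 : (q : ℝ) ≤ n + 1 := by exact_mod_cast (by omega : q ≤ n + 1)
    have h10 : (1 : ℝ) ≤ r := by exact_mod_cast h8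
    refine mul_le_mul_of_nonneg_right ?_ hh
    have h11 : (q : ℝ) * d ≤ r * (n + 1) * d := by
      refine mul_le_mul_of_nonneg_right ?_ (Nat.cast_nonneg _)
      nlinarith
    linarith

end

end Pool.Agent.SQ
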