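import Pool.Agent.Helper42.SQ.PHI

/-!
# SQ, block PHIs: multihomogeneous form of `phi`

A multihomogeneous component of the polynomial of `phi`.
-/

set_option autoImplicit false

namespace Pool.Agent.SQ

open Module MvPolynomial

universe u

/-- the degree in the coefficients of the form `i` -/
private noncomputable def phisW {n q : ℕ} (d : Fin q × Fin (n + 1) →₀ ℕ) : Fin q →₀ ℕ :=
  Finsupp.equivFunOnFinite.symm fun i => ∑ j, d (i, j)

private theorem phisW_apply {n q : ℕ} (d : Fin q × Fin (n + 1) →₀ ℕ) (i : Fin q) : phisW d i = ∑ j, d (i, j) := rfl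

private theorem phis_scale {K : Type*} [Field K] {n q : ℕ} (d : Fin q × Fin (n + 1) →₀ ℕ) (c : Fin q → K)
    (l : Fin q → Fin (n + 1) → K) :
    ∏ p : Fin q × Fin (n + 1), (c p.1 * l p.1 p.2) ^ d p =
      (∏ i, c i ^ phisW d i) * ∏ p : Fin q × Fin (n + 1), l p.1 p.2 ^ d p := by
  have h1 : ∏ i, c i ^ phisW d i = ∏ p : Fin q × Fin (n + 1), c p.1 ^ d p := by
    rw [Fintype.prod_prod_type]
    refine Finset.prod_congr rfl fun i _ => ?_
    rw [phisW_apply]
    exact (Finset.prod_pow_eq_pow_sum _ _ _).symm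
  rw [h1, ← Finset.prod_mul_distrib]
  exact Finset.prod_congr rfl fun p _ => mul_pow _ _ _

private theorem phis_spJ {K : Type*} [Field K] {n q : ℕ} (l : Fin q → Fin (n + 1) → K) (c : Fin q → K) (hc : ∀ i, c i ≠ 0)
    (N : Submodule K (Fin (n + 1) → K)) (J : Finset (Fin q)) : spJ (fun i j => c i * l i j) N J = spJ l N J := by
  unfold spJ
  congr 1
  apply le_antisymm
  · rw [Submodule.span_le]
    rintro _ ⟨i, hi, rfl⟩
    exact Submodule.smul_mem _ (c i) (Submodule.subset_span ⟨i, hi, rfl⟩)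
  · rw [Submodule.span_le]
    rintro _ ⟨i, hi, rfl⟩
    have h1 : l i = (c i)⁻¹ • fun j => c i * l i j := by
      funext j
      rw [Pi.smul_apply, smul_eq_mul, ← mul_assoc, inv_mul_cancel₀ (hc i), one_mul]
    rw [SetLike.mem_coe, h1]
    exact Submodule.smul_mem _ _ (Submodule.subset_span ⟨i, hi, rfl⟩)

private theorem phis_mem {K : Type*} [Field K] {n q : ℕ} (l : Fin q → Fin (n + 1) → K) (c : Fin q → K) (hc : ∀ i, c i ≠ 0)
    (N : Submodule K (Fin (n + 1) → K)) (i : Fin q) : (fun j => c i * l i j) ∈ N ↔ l i ∈ N := by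
  have h1 : (fun j => c i * l i j) = c i • l i := rfl
  rw [h1]
  exact Submodule.smul_mem_iff _ (hc i)

private theorem phis_cost {K : Type*} [Field K] {n q : ℕ} (l : Fin q → Fin (n + 1) → K) (c : Fin q → K) (hc : ∀ i, c i ≠ 0)
    (N : Submodule K (Fin (n + 1) → K)) (i : Fin q) : cost (fun i j => c i * l i j) N i = cost l N i := by
  have h1 : Ut (fun i j => c i * l i j) N i = Ut l N i := by
    unfold Ut
    refine iInf_congr fun J => ?_
    rw [phis_spJ l c hc]
    have h2 := phis_mem l c hc (spJ l N J) i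
    simp only [h2]
  unfold cost
  rw [h1]

private theorem phis_bad {K : Type*} [Field K] {n q : ℕ} (l : Fin q → Fin (n + 1) → K) (c : Fin q → K) (hc : ∀ i, c i ≠ 0)
    (N : Submodule K (Fin (n + 1) → K)) (h : Bad l N) : Bad (fun i j => c i * l i j) N := by
  refine ⟨fun i hi => h.1 i ((phis_mem l c hc N i).1 hi), ?_⟩
  have h2 := h.2
  rw [Finset.sum_congr rfl fun i _ => phis_cost l c hc N i]
  exact h2

private theorem phis_gen {K : Type*} [Field K] {n q : ℕ} (l : Fin q → Fin (n + 1) → K) (c : Fin q → K) (hc : ∀ i, c i ≠ 0)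
    (h : GenPos l) : GenPos (fun i j => c i * l i j) := by
  intro I hI
  exact (h I hI).units_smul fun i => Units.mk0 (c i) (hc i)

theorem phi_s (n q : ℕ) : ∃ Φ : MvPolynomial (Fin q × Fin (n + 1)) ℚ, Φ ≠ 0 ∧
    (∀ (k : Type u) [Field k] [Algebra ℚ k] (l : Fin q → Fin (n + 1) → k) (c : Fin q → k), (∀ i, c i ≠ 0) →
      aeval (fun p : Fin q × Fin (n + 1) => l p.1 p.2) Φ ≠ 0 →
      aeval (fun p : Fin q × Fin (n + 1) => c p.1 * l p.1 p.2) Φ ≠ 0) ∧
    ∀ (k : Type u) [Field k] [Algebra ℚ k] (l : Fin q → Fin (n + 1) → k),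
      aeval (fun p : Fin q × Fin (n + 1) => l p.1 p.2) Φ ≠ 0 → GenPos l ∧ ∀ N : Submodule k (Fin (n + 1) → k), ¬ Bad l N := by
  classical
  obtain ⟨Φ₀, h0, h0'⟩ := phi.{u} n q
  obtain ⟨d₀, hd₀⟩ := MvPolynomial.exists_coeff_ne_zero h0
  set T := Φ₀.support.filter fun d => phisW d = phisW d₀ with hT
  set Φ : MvPolynomial (Fin q × Fin (n + 1)) ℚ := ∑ d ∈ T, monomial d (coeff d Φ₀) with hΦ
  have hae : ∀ (k : Type u) [Field k] [Algebra ℚ k] (f : Fin q × Fin (n + 1) → k),
      aeval f Φ = ∑ d ∈ T, algebraMap ℚ k (coeff d Φ₀) * ∏ p, f p ^ d p := by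
    intro k _ _ f
    rw [hΦ, map_sum]
    refine Finset.sum_congr rfl fun d _ => ?_
    rw [aeval_monomial, Finsupp.prod_fintype _ _ fun i => pow_zero _]
  have hae0 : ∀ (k : Type u) [Field k] [Algebra ℚ k] (f : Fin q × Fin (n + 1) → k),
      aeval f Φ₀ = ∑ d ∈ Φ₀.support, algebraMap ℚ k (coeff d Φ₀) * ∏ p, f p ^ d p := by
    intro k _ _ f
    rw [aeval_def, eval₂_eq']
  refine ⟨Φ, ?_, ?_, ?_⟩
  · intro h1
    have h2 : coeff d₀ Φ = coeff d₀ Φ₀ := by
      rw [hΦ, coeff_sum, Finset.sum_eq_single d₀]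
      · rw [coeff_monomial, if_pos rfl]
      · intro d _ hd
        rw [coeff_monomial, if_neg hd]
      · intro h3
        exfalso
        apply h3
        rw [hT, Finset.mem_filter]
        exact ⟨mem_support_iff.2 hd₀, rfl⟩
    rw [h1, coeff_zero] at h2
    exact hd₀ h2.symm
  · intro k _ _ l c hc hl
    have h1 : aeval (fun p : Fin q × Fin (n + 1) => c p.1 * l p.1 p.2) Φ =
        (∏ i, c i ^ phisW d₀ i) * aeval (fun p : Fin q × Fin (n + 1) => l p.1 p.2) Φ := by
      rw [hae, hae, Finset.mul_sum]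
      refine Finset.sum_congr rfl fun d hd => ?_
      rw [phis_scale d c l, (Finset.mem_filter.1 hd).2]
      ring
    rw [h1]
    exact mul_ne_zero (Finset.prod_ne_zero_iff.2 fun i _ => pow_ne_zero _ (hc i)) hl
  · intro k _ _ l hl
    have : CharZero k := algebraRat.charZero k
    have : Infinite k := inferInstance
    set P : MvPolynomial (Fin q) k := ∑ d ∈ Φ₀.support,
      monomial (phisW d) (algebraMap ℚ k (coeff d Φ₀) * ∏ p : Fin q × Fin (n + 1), l p.1 p.2 ^ d p) with hP
    have hP0 : P ≠ 0 := by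
      intro h1
      have h2 : coeff (phisW d₀) P = aeval (fun p : Fin q × Fin (n + 1) => l p.1 p.2) Φ := by
        rw [hae, hP, coeff_sum, hT, Finset.sum_filter]
        refine Finset.sum_congr rfl fun d _ => ?_
        rw [coeff_monomial]
      rw [h1, coeff_zero] at h2
      exact hl h2.symm
    have hP1 : ∀ t : Fin q → k, eval t P = aeval (fun p : Fin q × Fin (n + 1) => t p.1 * l p.1 p.2) Φ₀ := by
      intro t
      rw [hae0, hP, map_sum]
      refine Finset.sum_congr rfl fun d _ => ?_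
      rw [eval_monomial, Finsupp.prod_fintype _ _ fun i => pow_zero _, phis_scale d t l]
      ring
    obtain ⟨t, ht⟩ : ∃ t : Fin q → k, eval t (P * ∏ i, X i) ≠ 0 := by
      by_contra hcon
      push Not at hcon
      have h1 : P * ∏ i, X i = 0 := by
        apply MvPolynomial.funext
        intro t
        rw [hcon t, map_zero]
      rcases mul_eq_zero.1 h1 with h2 | h2
      · exact hP0 h2
      · rw [Finset.prod_eq_zero_iff] at h2
        obtain ⟨i, _, hi⟩ := h2
        exact X_ne_zero i hi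
    rw [map_mul, hP1, map_prod] at ht
    have ht1 := left_ne_zero_of_mul ht
    have ht2 : ∀ i, t i ≠ 0 := by
      intro i
      have := Finset.prod_ne_zero_iff.1 (right_ne_zero_of_mul ht) i (Finset.mem_univ i)
      rwa [eval_X] at this
    obtain ⟨h3, h4⟩ := h0' k (fun i j => t i * l i j) ht1
    refine ⟨?_, fun N hN => h4 N (phis_bad l t ht2 N hN)⟩
    have h5 := phis_gen (fun i j => t i * l i j) (fun i => (t i)⁻¹) (fun i => inv_ne_zero (ht2 i)) h3
    have h6 : (fun i j => (t i)⁻¹ * (t i * l i j)) = l := by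
      funext i j
      rw [← mul_assoc, inv_mul_cancel₀ (ht2 i), one_mul]
    rw [h6] at h5
    exact h5

end Pool.Agent.SQ
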