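import Pool.Agent.Helper42.SQ.GDefs2
import Pool.Agent.Helper21.V2.BA

/-!
# SQ, block SHARP3, part B: one absolute value

`z j`: the roots of `∏_{a ∈ WA} (X - a) + u ∏_{b ∈ WB} (X - b)`, where `|WA| + 1 = |WB| = r`.
-/

set_option autoImplicit false
set_option linter.unusedSectionVars false

namespace Pool.Agent.SQ

open NumberField Filter Module
open Pool.Agent.Helper64.Vojta (Pl nv nv_one nv_mul nv_pos nv_nonneg nv_zero nv_inv)
open Pool.Agent.V2

universe u

/-- the constant in the triangle inequality -/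
noncomputable def ka73 {k : Type u} [Field k] [NumberField k] : Pl k → ℝ
  | .inl _ => 4
  | .inr _ => 1

/-- an absolute value (up to a power) which extends the one at `v` -/
structure AV73 {k : Type u} [Field k] [NumberField k] (v : Pl k) {L : Type u} [Field L] [Algebra k L] (N : L → ℝ) : Prop where
  zero : N 0 = 0
  pos : ∀ x, x ≠ 0 → 0 < N x
  mul : ∀ x y, N (x * y) = N x * N y
  add : ∀ x y, N (x + y) ≤ ka73 v * max (N x) (N y)
  ext : ∀ x : k, N (algebraMap k L x) = nv v x

section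

variable {k : Type u} [Field k] [NumberField k]

theorem ka_one73 (v : Pl k) : 1 ≤ ka73 v := by
  rcases v with v | v <;> simp [ka73]

theorem lka_nonneg73 (v : Pl k) : 0 ≤ Real.log (ka73 v) := Real.log_nonneg (ka_one73 v)

theorem finS_ka73 : FinS (K := k) fun v => Real.log (ka73 v) := by
  unfold FinS
  simp [ka73]

/-- `log max 1 |c|` -/
noncomputable def lm73 (c : k) (v : Pl k) : ℝ := Real.log (max 1 (nv v c))

theorem lm_nonneg73 (c : k) (v : Pl k) : 0 ≤ lm73 c v := Real.log_nonneg (le_max_left _ _)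

theorem exp_lm73 (c : k) (v : Pl k) : Real.exp (lm73 c v) = max 1 (nv v c) :=
  Real.exp_log (lt_max_of_lt_left one_pos)

theorem log_le_lm73 (c : k) (v : Pl k) (hc : c ≠ 0) : Real.log (nv v c) ≤ lm73 c v :=
  Real.log_le_log (nv_pos v hc) (le_max_right _ _)

theorem finS_lm73 (c : k) : FinS (lm73 c) := by
  by_cases hj : c = 0
  · have h1 : lm73 c = fun _ => (0 : ℝ) := by
      funext v
      unfold lm73
      rw [hj, nv_zero, max_eq_left zero_le_one, Real.log_one]
    rw [h1]
    exact FinS.zero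
  · refine Set.Finite.subset (finS_nv hj) fun v hv => ?_
    rw [Function.mem_support] at hv ⊢
    intro h1
    apply hv
    have h0 : 0 < nv (.inr v : Pl k) c := nv_pos _ hj
    have h2 : nv (.inr v : Pl k) c = 1 := by
      rcases Real.log_eq_zero.1 h1 with h3 | h3 | h3
      · exact absurd h3 h0.ne'
      · exact h3
      · linarith
    show Real.log (max 1 (nv (.inr v) c)) = 0
    rw [h2, max_self, Real.log_one]

theorem QSG.av73 {G : Type*} [Group G] [Fintype G] {L : Type u} [Field L] [Algebra k L] {s : G →* (L ≃ₐ[k] L)}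
    {N : Pl k → L → ℝ} (h : QSG s N) (v : Pl k) (g : G) : AV73 v fun x => N v (s g x) where
  zero := by rw [map_zero]; exact h.zero v
  pos := fun x hx => h.pos v _ ((map_ne_zero (s g)).2 hx)
  mul := fun x y => by rw [map_mul]; exact h.mul v _ _
  add := fun x y => by
    rw [map_add]
    rcases v with v | v
    · exact h.add _ _ _
    · have h1 := h.ult v (s g x) (s g y)
      simpa [ka73] using h1
  ext := fun x => by rw [AlgEquiv.commutes]; exact h.ext v x

variable {v : Pl k} {L : Type u} [Field L] [Algebra k L] {N : L → ℝ}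

namespace AV73

theorem one (h : AV73 v N) : N 1 = 1 := by
  have h1 := h.ext 1
  rwa [map_one, nv_one] at h1

theorem nonneg (h : AV73 v N) (x : L) : 0 ≤ N x := by
  by_cases hx : x = 0
  · rw [hx, h.zero]
  · exact (h.pos x hx).le

theorem neg (h : AV73 v N) (x : L) : N (-x) = N x := by
  have h1 : N (-1) * N (-1) = 1 := by
    rw [← h.mul, neg_one_mul, neg_neg, h.one]
  have h2 : N (-1) = 1 := by
    have h3 := h.nonneg (-1)
    nlinarith
  rw [← neg_one_mul, h.mul, h2, one_mul]

theorem prod (h : AV73 v N) {ι : Type*} (t : Finset ι) (x : ι → L) : N (∏ i ∈ t, x i) = ∏ i ∈ t, N (x i) := by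
  classical
  induction t using Finset.induction_on with
  | empty => rw [Finset.prod_empty, Finset.prod_empty, h.one]
  | insert a t ha ih => rw [Finset.prod_insert ha, Finset.prod_insert ha, h.mul, ih]

theorem sub (h : AV73 v N) (x y : L) : N (x - y) ≤ ka73 v * max (N x) (N y) := by
  rw [sub_eq_add_neg, ← h.neg y]
  exact h.add x (-y)

theorem sub_comm (h : AV73 v N) (x y : L) : N (x - y) = N (y - x) := by
  rw [← h.neg, neg_sub]

/-- `|z - c|` -/
theorem le_one_pt (h : AV73 v N) (c : k) (z : L) :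
    N (z - algebraMap k L c) ≤ Real.exp (Real.log (ka73 v) + lm73 c v) * max 1 (N z) := by
  have hk := ka_one73 v
  have h1 : (1 : ℝ) ≤ max 1 (N z) := le_max_left _ _
  have h2 : (1 : ℝ) ≤ max 1 (nv v c) := le_max_left _ _
  rw [Real.exp_add, Real.exp_log (by linarith), exp_lm73, mul_assoc]
  refine (h.sub _ _).trans (mul_le_mul_of_nonneg_left ?_ (by linarith))
  rw [h.ext]
  refine max_le ?_ ?_
  · exact (le_max_right 1 _).trans (le_mul_of_one_le_left (by linarith) h2)
  · exact (le_max_right 1 _).trans (le_mul_of_one_le_right (by linarith) h1)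

theorem log_one_pt (h : AV73 v N) (c : k) (z : L) (hz : z - algebraMap k L c ≠ 0) :
    Real.log (N (z - algebraMap k L c)) ≤ Real.log (max 1 (N z)) + (Real.log (ka73 v) + lm73 c v) := by
  have h1 : (0 : ℝ) < max 1 (N z) := lt_max_of_lt_left one_pos
  have h2 := Real.log_le_log (h.pos _ hz) (h.le_one_pt c z)
  rw [Real.log_mul (Real.exp_pos _).ne' h1.ne', Real.log_exp] at h2
  linarith

/-- two points -/
theorem two_pt (h : AV73 v N) {p p' : k} (hp : p ≠ p') (z : L) :
    max 1 (N z) ≤ Real.exp (2 * Real.log (ka73 v) + lm73 p v + lm73 (p - p')⁻¹ v) *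
      max (N (z - algebraMap k L p)) (N (z - algebraMap k L p')) := by
  have hk := ka_one73 v
  have hk0 : 0 < ka73 v := by linarith
  set M := max (N (z - algebraMap k L p)) (N (z - algebraMap k L p')) with hM
  have hM0 : 0 ≤ M := (h.nonneg _).trans (le_max_left _ _)
  have h1 : (1 : ℝ) ≤ max 1 (nv v p) := le_max_left _ _
  have h2 : (1 : ℝ) ≤ max 1 (nv v (p - p')⁻¹) := le_max_left _ _
  set P := max 1 (nv v p) with hP
  set D := max 1 (nv v (p - p')⁻¹) with hD
  have e1 : Real.exp (2 * Real.log (ka73 v) + lm73 p v + lm73 (p - p')⁻¹ v) = ka73 v * ka73 v * P * D := by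
    rw [Real.exp_add, Real.exp_add, exp_lm73, exp_lm73, two_mul, Real.exp_add, Real.exp_log hk0]
  rw [e1]
  have hpp : p - p' ≠ 0 := sub_ne_zero.2 hp
  have h3 : 1 ≤ ka73 v * D * M := by
    have h4 : nv v (p - p') ≤ ka73 v * M := by
      have h5 : algebraMap k L (p - p') = (z - algebraMap k L p') - (z - algebraMap k L p) := by
        rw [map_sub]
        ring
      rw [← h.ext, h5]
      refine (h.sub _ _).trans (mul_le_mul_of_nonneg_left ?_ hk0.le)
      rw [max_comm]
    have h5 : (1 : ℝ) = nv v (p - p')⁻¹ * nv v (p - p') := by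
      rw [← nv_mul, inv_mul_cancel₀ hpp, nv_one]
    rw [h5]
    calc nv v (p - p')⁻¹ * nv v (p - p') ≤ D * (ka73 v * M) :=
          mul_le_mul (le_max_right _ _) h4 (nv_nonneg _ _) (by linarith)
      _ = ka73 v * D * M := by ring
  have hkPD : (1 : ℝ) ≤ ka73 v * P := one_le_mul_of_one_le_of_one_le hk h1
  refine max_le ?_ ?_
  · calc (1 : ℝ) ≤ ka73 v * D * M := h3
      _ ≤ (ka73 v * P) * (ka73 v * D * M) := le_mul_of_one_le_left (by linarith) hkPD
      _ = _ := by ring
  · have h4 : N z ≤ ka73 v * max (N (z - algebraMap k L p)) (nv v p) := by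
      have h5 := h.add (z - algebraMap k L p) (algebraMap k L p)
      rw [sub_add_cancel, h.ext] at h5
      exact h5
    refine h4.trans ?_
    have h5 : max (N (z - algebraMap k L p)) (nv v p) ≤ P * (ka73 v * D * M) := by
      refine max_le ?_ ?_
      · have h6 : (1 : ℝ) ≤ P * (ka73 v * D) :=
          one_le_mul_of_one_le_of_one_le h1 (one_le_mul_of_one_le_of_one_le hk h2)
        calc N (z - algebraMap k L p) ≤ M := le_max_left _ _
          _ ≤ (P * (ka73 v * D)) * M := le_mul_of_one_le_left hM0 h6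
          _ = _ := by ring
      · calc nv v p ≤ P := le_max_right _ _
          _ ≤ P * (ka73 v * D * M) := le_mul_of_one_le_right (by linarith) h3
    calc ka73 v * max (N (z - algebraMap k L p)) (nv v p) ≤ ka73 v * (P * (ka73 v * D * M)) :=
          mul_le_mul_of_nonneg_left h5 hk0.le
      _ = _ := by ring

end AV73

/-- the constant for `r + 1` points -/
noncomputable def LE73 {r : ℕ} (p : Fin (r + 1) → k) (v : Pl k) : ℝ :=
  2 * Real.log (ka73 v) + ∑ j, lm73 (p j) v + ∑ j, ∑ j', lm73 (p j - p j')⁻¹ v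

theorem finS_LE73 {r : ℕ} (p : Fin (r + 1) → k) : FinS (LE73 p) := by
  unfold LE73
  exact ((finS_ka73.const_mul 2).add (FinS.sum _ fun j _ => finS_lm73 _)).add
    (FinS.sum _ fun j _ => FinS.sum _ fun j' _ => finS_lm73 _)

theorem LE_ge73 {r : ℕ} (p : Fin (r + 1) → k) (v : Pl k) (j j' : Fin (r + 1)) :
    2 * Real.log (ka73 v) + lm73 (p j) v + lm73 (p j - p j')⁻¹ v ≤ LE73 p v := by
  unfold LE73
  have h1 := Finset.single_le_sum (f := fun j => lm73 (p j) v) (fun j _ => lm_nonneg73 _ _) (Finset.mem_univ j)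
  have h2 := Finset.single_le_sum (f := fun j' => lm73 (p j - p j')⁻¹ v) (fun j' _ => lm_nonneg73 _ _) (Finset.mem_univ j')
  have h3 := Finset.single_le_sum (f := fun j => ∑ j', lm73 (p j - p j')⁻¹ v)
    (fun j _ => Finset.sum_nonneg fun j' _ => lm_nonneg73 _ _) (Finset.mem_univ j)
  linarith

/-- One of the `r + 1` points is far from `r` given elements. -/
theorem far73 (h : AV73 v N) {r : ℕ} (p : Fin (r + 1) → k) (hp : Function.Injective p) (z : Fin r → L) :
    ∃ j, ∀ i, max 1 (N (z i)) ≤ Real.exp (LE73 p v) * N (z i - algebraMap k L (p j)) := by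
  classical
  by_contra hcon
  push Not at hcon
  choose f hf using hcon
  obtain ⟨j, j', hne, heq⟩ := Fintype.exists_ne_map_eq_of_card_lt f (by simp)
  have h1 := hf j
  have h2 := hf j'
  rw [← heq] at h2
  have h3 := h.two_pt (hp.ne hne) (z (f j))
  have h4 : Real.exp (2 * Real.log (ka73 v) + lm73 (p j) v + lm73 (p j - p j')⁻¹ v) ≤ Real.exp (LE73 p v) :=
    Real.exp_le_exp.2 (LE_ge73 p v j j')
  have h5 : 0 ≤ max (N (z (f j) - algebraMap k L (p j))) (N (z (f j) - algebraMap k L (p j'))) :=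
    (h.nonneg _).trans (le_max_left _ _)
  have h6 := h3.trans (mul_le_mul_of_nonneg_right h4 h5)
  rcases max_choice (N (z (f j) - algebraMap k L (p j))) (N (z (f j) - algebraMap k L (p j'))) with h7 | h7
  · rw [h7] at h6
    linarith
  · rw [h7] at h6
    linarith

/-- `∏ (c - a)` -/
def ev73 (W : Finset k) (c : k) : k := ∏ a ∈ W, (c - a)

/-- the relation between `u` and the roots -/
def Rt73 (WA WB : Finset k) (u : k) {r : ℕ} (z : Fin r → L) : Prop :=
  ∀ c : k, algebraMap k L (ev73 WA c + u * ev73 WB c) = algebraMap k L u * ∏ i, (algebraMap k L c - z i)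

theorem ev_eq73 (W : Finset k) (c : k) (hc : c ∈ W) : ev73 W c = 0 := Finset.prod_eq_zero hc (sub_self c)

theorem ev_ne73 (W : Finset k) (c : k) (hc : c ∉ W) : ev73 W c ≠ 0 :=
  Finset.prod_ne_zero_iff.2 fun a ha h0 => hc (by rw [sub_eq_zero.1 h0]; exact ha)

/-- the constant for the upper bound -/
noncomputable def Kup73 (WA WB : Finset k) {r : ℕ} (p : Fin (r + 1) → k) (v : Pl k) : ℝ :=
  r * LE73 p v + Real.log (ka73 v) + ∑ j, (lm73 (ev73 WA (p j)) v + lm73 (ev73 WB (p j)) v)

theorem finS_Kup73 (WA WB : Finset k) {r : ℕ} (p : Fin (r + 1) → k) : FinS (Kup73 WA WB p) := by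
  unfold Kup73
  exact (((finS_LE73 p).const_mul r).add finS_ka73).add (FinS.sum _ fun j _ => (finS_lm73 _).add (finS_lm73 _))

theorem up73 (h : AV73 v N) (WA WB : Finset k) {r : ℕ} (p : Fin (r + 1) → k) (hp : Function.Injective p) {u : k} (hu : u ≠ 0)
    (z : Fin r → L) (hR : Rt73 WA WB u z) :
    ∑ i, Real.log (max 1 (N (z i))) + Real.log (nv v u) ≤ lm73 u v + Kup73 WA WB p v := by
  obtain ⟨j, hj⟩ := far73 h p hp z
  have hm : ∀ i, (0 : ℝ) < max 1 (N (z i)) := fun i => lt_max_of_lt_left one_pos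
  have hE := Real.exp_pos (LE73 p v)
  have hpos : ∀ i, 0 < N (z i - algebraMap k L (p j)) := by
    intro i
    by_contra h0
    rw [not_lt] at h0
    have h1 := hj i
    have h2 := hm i
    nlinarith
  have h1 : ∑ i, Real.log (max 1 (N (z i))) ≤ ∑ i, (LE73 p v + Real.log (N (z i - algebraMap k L (p j)))) := by
    refine Finset.sum_le_sum fun i _ => ?_
    have h2 := Real.log_le_log (hm i) (hj i)
    rwa [Real.log_mul hE.ne' (hpos i).ne', Real.log_exp] at h2
  rw [Finset.sum_add_distrib, Finset.sum_const, Finset.card_univ, Fintype.card_fin, nsmul_eq_mul] at h1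
  have h2 : nv v u * ∏ i, N (z i - algebraMap k L (p j)) = nv v (ev73 WA (p j) + u * ev73 WB (p j)) := by
    rw [← h.ext (ev73 WA (p j) + u * ev73 WB (p j)), hR (p j), h.mul, h.ext, h.prod]
    congr 1
    exact Finset.prod_congr rfl fun i _ => h.sub_comm _ _
  have hu0 := nv_pos v hu
  have h3 : nv v (ev73 WA (p j) + u * ev73 WB (p j)) ≤
      Real.exp (Real.log (ka73 v) + (lm73 (ev73 WA (p j)) v + lm73 (ev73 WB (p j)) v)) * Real.exp (lm73 u v) := by
    have hk := ka_one73 v
    have hk0 : 0 < ka73 v := by linarith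
    rw [Real.exp_add, Real.exp_add, Real.exp_log hk0, exp_lm73, exp_lm73, exp_lm73, mul_assoc]
    have h4 := h.add (algebraMap k L (ev73 WA (p j))) (algebraMap k L (u * ev73 WB (p j)))
    rw [← map_add, h.ext, h.ext, h.ext, nv_mul] at h4
    refine h4.trans (mul_le_mul_of_nonneg_left ?_ hk0.le)
    have a1 : (1 : ℝ) ≤ max 1 (nv v (ev73 WA (p j))) := le_max_left _ _
    have a2 : (1 : ℝ) ≤ max 1 (nv v (ev73 WB (p j))) := le_max_left _ _
    have a3 : (1 : ℝ) ≤ max 1 (nv v u) := le_max_left _ _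
    refine max_le ?_ ?_
    · rw [mul_assoc]
      exact (le_max_right 1 _).trans (le_mul_of_one_le_right (by linarith) (one_le_mul_of_one_le_of_one_le a2 a3))
    · calc nv v u * nv v (ev73 WB (p j)) ≤ max 1 (nv v u) * max 1 (nv v (ev73 WB (p j))) :=
            mul_le_mul (le_max_right _ _) (le_max_right _ _) (nv_nonneg _ _) (by linarith)
        _ = 1 * (max 1 (nv v (ev73 WB (p j))) * max 1 (nv v u)) := by ring
        _ ≤ max 1 (nv v (ev73 WA (p j))) * (max 1 (nv v (ev73 WB (p j))) * max 1 (nv v u)) :=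
            mul_le_mul_of_nonneg_right a1 (by positivity)
        _ = _ := by ring
  have hprod : 0 < ∏ i, N (z i - algebraMap k L (p j)) := Finset.prod_pos fun i _ => hpos i
  have h4 : Real.log (nv v u) + ∑ i, Real.log (N (z i - algebraMap k L (p j))) ≤
      Real.log (ka73 v) + (lm73 (ev73 WA (p j)) v + lm73 (ev73 WB (p j)) v) + lm73 u v := by
    rw [← Real.log_prod fun i _ => (hpos i).ne', ← Real.log_mul hu0.ne' hprod.ne', h2]
    rw [← Real.exp_add] at h3
    refine (Real.log_le_iff_le_exp ?_).2 h3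
    rw [← h2]
    exact mul_pos hu0 hprod
  have h5 := Finset.single_le_sum (f := fun j => lm73 (ev73 WA (p j)) v + lm73 (ev73 WB (p j)) v)
    (fun j _ => add_nonneg (lm_nonneg73 _ _) (lm_nonneg73 _ _)) (Finset.mem_univ j)
  unfold Kup73
  linarith

/-- the constant for the lower bound -/
noncomputable def Klo73 (WA : Finset k) (b : k) (r : ℕ) (v : Pl k) : ℝ :=
  r * (Real.log (ka73 v) + lm73 b v) + |Real.log (nv v (ev73 WA b))|

theorem Rt73.at_WB {WA WB : Finset k} {u : k} {r : ℕ} {z : Fin r → L} (hR : Rt73 WA WB u z) (h : AV73 v N) (hu : u ≠ 0)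
    {b : k} (hb : b ∈ WB) (hb' : b ∉ WA) : (∀ i, z i - algebraMap k L b ≠ 0) ∧
      ∑ i, Real.log (N (z i - algebraMap k L b)) = Real.log (nv v (ev73 WA b)) - Real.log (nv v u) := by
  have h1 := hR b
  rw [ev_eq73 WB b hb, mul_zero, add_zero] at h1
  have h0 := ev_ne73 WA b hb'
  have h2 : ∏ i, (algebraMap k L b - z i) ≠ 0 := by
    intro h3
    rw [h3, mul_zero, map_eq_zero_iff _ (algebraMap k L).injective] at h1
    exact h0 h1
  have h3 : ∀ i, z i - algebraMap k L b ≠ 0 := by
    intro i h4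
    exact (Finset.prod_ne_zero_iff.1 h2 i (Finset.mem_univ i)) (by rw [← neg_sub, h4, neg_zero])
  refine ⟨h3, ?_⟩
  have h4 : nv v (ev73 WA b) = nv v u * ∏ i, N (z i - algebraMap k L b) := by
    rw [← h.ext (ev73 WA b), h1, h.mul, h.ext, h.prod]
    congr 1
    exact Finset.prod_congr rfl fun i _ => h.sub_comm _ _
  have hpos : ∀ i, 0 < N (z i - algebraMap k L b) := fun i => h.pos _ (h3 i)
  rw [h4, Real.log_mul (nv_pos v hu).ne' (Finset.prod_pos fun i _ => hpos i).ne', Real.log_prod fun i _ => (hpos i).ne']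
  ring

theorem Rt73.at_WA {WA WB : Finset k} {u : k} {r : ℕ} {z : Fin r → L} (hR : Rt73 WA WB u z) (h : AV73 v N) (hu : u ≠ 0)
    {a : k} (ha : a ∈ WA) (ha' : a ∉ WB) : (∀ i, z i - algebraMap k L a ≠ 0) ∧
      ∑ i, Real.log (N (z i - algebraMap k L a)) = Real.log (nv v (ev73 WB a)) := by
  have h1 := hR a
  rw [ev_eq73 WA a ha, zero_add] at h1
  have h0 := ev_ne73 WB a ha'
  have hu' : algebraMap k L u ≠ 0 := (map_ne_zero _).2 hu
  rw [map_mul] at h1
  have h1' := mul_left_cancel₀ hu' h1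
  have h2 : ∏ i, (algebraMap k L a - z i) ≠ 0 := by
    intro h3
    rw [h3, map_eq_zero_iff _ (algebraMap k L).injective] at h1'
    exact h0 h1'
  have h3 : ∀ i, z i - algebraMap k L a ≠ 0 := by
    intro i h4
    exact (Finset.prod_ne_zero_iff.1 h2 i (Finset.mem_univ i)) (by rw [← neg_sub, h4, neg_zero])
  refine ⟨h3, ?_⟩
  have h4 : nv v (ev73 WB a) = ∏ i, N (z i - algebraMap k L a) := by
    rw [← h.ext (ev73 WB a), h1', h.prod]
    exact Finset.prod_congr rfl fun i _ => h.sub_comm _ _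
  have hpos : ∀ i, 0 < N (z i - algebraMap k L a) := fun i => h.pos _ (h3 i)
  rw [h4, Real.log_prod fun i _ => (hpos i).ne']

theorem lo73 (h : AV73 v N) (WA WB : Finset k) {b : k} (hb : b ∈ WB) (hb' : b ∉ WA) {r : ℕ} {u : k} (hu : u ≠ 0)
    (z : Fin r → L) (hR : Rt73 WA WB u z) :
    lm73 u v ≤ ∑ i, Real.log (max 1 (N (z i))) + Real.log (nv v u) + Klo73 WA b r v := by
  have hm : ∀ i, (0 : ℝ) ≤ Real.log (max 1 (N (z i))) := fun i => Real.log_nonneg (le_max_left _ _)
  have hs : 0 ≤ ∑ i, Real.log (max 1 (N (z i))) := Finset.sum_nonneg fun i _ => hm i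
  obtain ⟨h1, h2⟩ := hR.at_WB h hu hb hb'
  have h3 : ∑ i, Real.log (N (z i - algebraMap k L b)) ≤
      ∑ i, (Real.log (max 1 (N (z i))) + (Real.log (ka73 v) + lm73 b v)) :=
    Finset.sum_le_sum fun i _ => h.log_one_pt b (z i) (h1 i)
  rw [Finset.sum_add_distrib, Finset.sum_const, Finset.card_univ, Fintype.card_fin, nsmul_eq_mul] at h3
  have h4 := neg_abs_le (Real.log (nv v (ev73 WA b)))
  have h5 : 0 ≤ |Real.log (nv v (ev73 WA b))| := abs_nonneg _
  have h6 : 0 ≤ (r : ℝ) * (Real.log (ka73 v) + lm73 b v) :=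
    mul_nonneg (Nat.cast_nonneg _) (add_nonneg (lka_nonneg73 v) (lm_nonneg73 b v))
  unfold Klo73
  rcases le_total 1 (nv v u) with h7 | h7
  · have h8 : lm73 u v = Real.log (nv v u) := by
      unfold lm73
      rw [max_eq_right h7]
    rw [h8]
    linarith
  · have h8 : lm73 u v = 0 := by
      unfold lm73
      rw [max_eq_left h7, Real.log_one]
    rw [h8]
    linarith

/-- one of the roots determines the height of `u` -/
theorem each73 (h : AV73 v N) (WA WB : Finset k) {r : ℕ} (hA : WA.card ≤ r) (hB : WB.card ≤ r) {u : k} (z : L)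
    (hz : ∏ a ∈ WA, (z - algebraMap k L a) + algebraMap k L u * ∏ b ∈ WB, (z - algebraMap k L b) = 0)
    (hne : ∏ b ∈ WB, (z - algebraMap k L b) ≠ 0) :
    lm73 u v ≤ r * Real.log (max 1 (N z)) - Real.log (N (∏ b ∈ WB, (z - algebraMap k L b))) +
      (∑ a ∈ WA, (Real.log (ka73 v) + lm73 a v) + ∑ b ∈ WB, (Real.log (ka73 v) + lm73 b v)) := by
  have hk := lka_nonneg73 v
  have hm : (0 : ℝ) ≤ Real.log (max 1 (N z)) := Real.log_nonneg (le_max_left _ _)
  have hW : ∀ W : Finset k, W.card ≤ r → ∏ b ∈ W, (z - algebraMap k L b) ≠ 0 →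
      Real.log (N (∏ b ∈ W, (z - algebraMap k L b))) ≤ r * Real.log (max 1 (N z)) + ∑ b ∈ W, (Real.log (ka73 v) + lm73 b v) := by
    intro W hWr hW
    have h0 : ∀ b ∈ W, z - algebraMap k L b ≠ 0 := Finset.prod_ne_zero_iff.1 hW
    rw [h.prod, Real.log_prod fun b hb => (h.pos _ (h0 b hb)).ne']
    have h1 : ∑ b ∈ W, Real.log (N (z - algebraMap k L b)) ≤
        ∑ b ∈ W, (Real.log (max 1 (N z)) + (Real.log (ka73 v) + lm73 b v)) :=
      Finset.sum_le_sum fun b hb => h.log_one_pt b z (h0 b hb)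
    rw [Finset.sum_add_distrib, Finset.sum_const, nsmul_eq_mul] at h1
    have h2 : (W.card : ℝ) * Real.log (max 1 (N z)) ≤ r * Real.log (max 1 (N z)) :=
      mul_le_mul_of_nonneg_right (by exact_mod_cast hWr) hm
    linarith
  have hs : ∀ W : Finset k, 0 ≤ ∑ b ∈ W, (Real.log (ka73 v) + lm73 b v) := fun W =>
    Finset.sum_nonneg fun b _ => add_nonneg hk (lm_nonneg73 b v)
  have h1 := hW WB hB hne
  have h2 := hs WA
  have h3 := hs WB
  rcases le_total (nv v u) 1 with h7 | h7
  · have h8 : lm73 u v = 0 := by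
      unfold lm73
      rw [max_eq_left h7, Real.log_one]
    rw [h8]
    linarith
  · have h8 : lm73 u v = Real.log (nv v u) := by
      unfold lm73
      rw [max_eq_right h7]
    have hu : u ≠ 0 := by
      rintro rfl
      rw [nv_zero] at h7
      linarith
    have h9 : ∏ a ∈ WA, (z - algebraMap k L a) = - (algebraMap k L u * ∏ b ∈ WB, (z - algebraMap k L b)) := by
      linear_combination hz
    have h10 : ∏ a ∈ WA, (z - algebraMap k L a) ≠ 0 := by
      rw [h9]
      exact neg_ne_zero.2 (mul_ne_zero ((map_ne_zero _).2 hu) hne)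
    have h11 := hW WA hA h10
    rw [h9, h.neg, h.mul, h.ext, Real.log_mul (nv_pos v hu).ne' (h.pos _ hne).ne'] at h11
    rw [h8]
    linarith

end

end Pool.Agent.SQ
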