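import Pool.Agent.Helper42.SQ.HTg
import Pool.Agent.Helper42.SQ.SHARP3B

/-!
# SQ, block SHARP3, part C: the points `t (z P₁ + P₂)`
-/

set_option autoImplicit false
set_option linter.unusedSectionVars false
set_option linter.unusedVariables false

namespace Pool.Agent.SQ

open NumberField Filter Module
open Pool.Agent.Helper64.Vojta (Pl nv nv_one nv_mul nv_pos nv_nonneg nv_zero nv_inv)
open Pool.Agent.V2

universe u

section

variable {k : Type u} [Field k] [NumberField k]

/-- the value of a form at a point over `k` -/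
def dp73 {n : ℕ} (m P : Fin (n + 1) → k) : k := ∑ j, m j * P j

/-- the constant for a form -/
noncomputable def cf73 {n : ℕ} (m : Fin (n + 1) → k) (v : Pl k) : ℝ :=
  ((n + 1 : ℕ) : ℝ) * Real.log (ka73 v) + ∑ j, lm73 (m j) v

theorem finS_cf73 {n : ℕ} (m : Fin (n + 1) → k) : FinS (cf73 m) := by
  unfold cf73
  exact (finS_ka73.const_mul _).add (FinS.sum _ fun j _ => finS_lm73 _)

theorem cf_nonneg73 {n : ℕ} (m : Fin (n + 1) → k) (v : Pl k) : 0 ≤ cf73 m v :=
  add_nonneg (mul_nonneg (Nat.cast_nonneg _) (lka_nonneg73 v)) (Finset.sum_nonneg fun j _ => lm_nonneg73 _ _)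

/-- the constant for the size of a point -/
noncomputable def cx73 {n : ℕ} (P₁ P₂ : Fin (n + 1) → k) (v : Pl k) : ℝ :=
  Real.log (ka73 v) + ∑ j, (lm73 (P₁ j) v + lm73 (P₂ j) v)

theorem finS_cx73 {n : ℕ} (P₁ P₂ : Fin (n + 1) → k) : FinS (cx73 P₁ P₂) := by
  unfold cx73
  exact finS_ka73.add (FinS.sum _ fun j _ => (finS_lm73 _).add (finS_lm73 _))

/-- the constant for the lower bound of the size of a point -/
noncomputable def cy73 {n : ℕ} (l₁ l₂ : Fin (n + 1) → k) (a b : k) (v : Pl k) : ℝ :=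
  cf73 l₁ v + cf73 l₂ v + (lm73 a⁻¹ v + lm73 b⁻¹ v)

theorem finS_cy73 {n : ℕ} (l₁ l₂ : Fin (n + 1) → k) (a b : k) : FinS (cy73 l₁ l₂ a b) := by
  unfold cy73
  exact ((finS_cf73 _).add (finS_cf73 _)).add ((finS_lm73 _).add (finS_lm73 _))

variable {v : Pl k} {L : Type u} [Field L] [Algebra k L] {N : L → ℝ}

theorem lvg_pt73 {n : ℕ} (m P₁ P₂ : Fin (n + 1) → k) (t z : L) (x : Fin (n + 1) → L)
    (hx : ∀ j, x j = t * (z * algebraMap k L (P₁ j) + algebraMap k L (P₂ j))) :
    lvg m x = t * (z * algebraMap k L (dp73 m P₁) + algebraMap k L (dp73 m P₂)) := by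
  unfold lvg dp73
  rw [map_sum, map_sum, Finset.mul_sum, ← Finset.sum_add_distrib, Finset.mul_sum]
  refine Finset.sum_congr rfl fun j _ => ?_
  rw [hx j, map_mul, map_mul]
  ring

theorem le_mx73 (N : L → ℝ) {n : ℕ} (x : Fin (n + 1) → L) (j : Fin (n + 1)) : N (x j) ≤ mxn N x :=
  le_ciSup (Set.finite_range fun j => N (x j)).bddAbove j

/-- the value of a form -/
theorem form73 (h : AV73 v N) {n : ℕ} (m : Fin (n + 1) → k) (x : Fin (n + 1) → L) :
    N (lvg m x) ≤ Real.exp (cf73 m v) * mxn N x := by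
  classical
  have hk := ka_one73 v
  have hk0 : 0 < ka73 v := by linarith
  have hM : 0 ≤ mxn N x := (h.nonneg _).trans (le_mx73 N x 0)
  have hS : ∀ j, lm73 (m j) v ≤ ∑ j, lm73 (m j) v := fun j =>
    Finset.single_le_sum (f := fun j => lm73 (m j) v) (fun j _ => lm_nonneg73 _ _) (Finset.mem_univ j)
  set B := Real.exp (∑ j, lm73 (m j) v) * mxn N x with hB
  have hB0 : 0 ≤ B := mul_nonneg (Real.exp_pos _).le hM
  have hterm : ∀ j, N (algebraMap k L (m j) * x j) ≤ B := by
    intro j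
    rw [h.mul, h.ext]
    refine mul_le_mul ?_ (le_mx73 N x j) (h.nonneg _) (Real.exp_pos _).le
    exact (le_max_right 1 _).trans ((exp_lm73 (m j) v).symm.le.trans (Real.exp_le_exp.2 (hS j)))
  have hsum : ∀ t : Finset (Fin (n + 1)), N (∑ j ∈ t, algebraMap k L (m j) * x j) ≤ ka73 v ^ t.card * B := by
    intro t
    induction t using Finset.induction_on with
    | empty =>
      rw [Finset.sum_empty, h.zero, Finset.card_empty, pow_zero, one_mul]
      exact hB0
    | insert a t ha ih =>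
      rw [Finset.sum_insert ha, Finset.card_insert_of_notMem ha, pow_succ]
      have h3 : B ≤ ka73 v ^ t.card * B := le_mul_of_one_le_left hB0 (one_le_pow₀ hk)
      refine (h.add _ _).trans ?_
      rw [mul_comm (ka73 v ^ t.card), mul_assoc]
      exact mul_le_mul_of_nonneg_left (max_le ((hterm a).trans h3) ih) hk0.le
  have h5 := hsum Finset.univ
  rw [Finset.card_univ, Fintype.card_fin] at h5
  have h6 : Real.exp (cf73 m v) * mxn N x = ka73 v ^ (n + 1) * B := by
    unfold cf73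
    rw [Real.exp_add, hB, ← mul_assoc, mul_comm ((n + 1 : ℕ) : ℝ) (Real.log (ka73 v)), Real.exp_mul, Real.exp_log hk0,
      Real.rpow_natCast]
  rw [h6]
  exact h5

/-- upper bound for the size of the point -/
theorem px_le73 (h : AV73 v N) {n : ℕ} (P₁ P₂ : Fin (n + 1) → k) {t : L} (ht : t ≠ 0) (z : L) (x : Fin (n + 1) → L)
    (hx : ∀ j, x j = t * (z * algebraMap k L (P₁ j) + algebraMap k L (P₂ j))) (hx1 : ∃ j, x j = 1) :
    Real.log (mxn N x) ≤ Real.log (max 1 (N z)) + Real.log (N t) + cx73 P₁ P₂ v := by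
  have hk := ka_one73 v
  have hk0 : 0 < ka73 v := by linarith
  have ht0 := h.pos t ht
  have hz1 : (1 : ℝ) ≤ max 1 (N z) := le_max_left _ _
  have hz0 : (0 : ℝ) < max 1 (N z) := by linarith
  have hp : ∀ a : k, (1 : ℝ) ≤ max 1 (nv v a) := fun a => le_max_left _ _
  have h1 : mxn N x ≤ Real.exp (Real.log (max 1 (N z)) + Real.log (N t) + cx73 P₁ P₂ v) := by
    refine ciSup_le fun j => ?_
    have hj := Finset.single_le_sum (f := fun j => lm73 (P₁ j) v + lm73 (P₂ j) v)
      (fun j _ => add_nonneg (lm_nonneg73 _ _) (lm_nonneg73 _ _)) (Finset.mem_univ j)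
    have h2 : Real.exp (Real.log (max 1 (N z)) + Real.log (N t) + (Real.log (ka73 v) + (lm73 (P₁ j) v + lm73 (P₂ j) v))) ≤
        Real.exp (Real.log (max 1 (N z)) + Real.log (N t) + cx73 P₁ P₂ v) := by
      refine Real.exp_le_exp.2 ?_
      unfold cx73
      linarith
    refine le_trans ?_ h2
    rw [Real.exp_add, Real.exp_add, Real.exp_add, Real.exp_add, Real.exp_log hz0, Real.exp_log ht0, Real.exp_log hk0, exp_lm73,
      exp_lm73, hx j, h.mul]
    have h3 : N (z * algebraMap k L (P₁ j) + algebraMap k L (P₂ j)) ≤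
        ka73 v * (max 1 (N z) * (max 1 (nv v (P₁ j)) * max 1 (nv v (P₂ j)))) := by
      refine (h.add _ _).trans (mul_le_mul_of_nonneg_left ?_ hk0.le)
      rw [h.mul, h.ext, h.ext]
      have a1 := hp (P₁ j)
      have a2 := hp (P₂ j)
      refine max_le ?_ ?_
      · refine mul_le_mul (le_max_right _ _) ?_ (nv_nonneg _ _) hz0.le
        exact (le_max_right 1 _).trans (le_mul_of_one_le_right (by linarith) a2)
      · exact (le_max_right 1 _).trans ((le_mul_of_one_le_left (by linarith) a1).trans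
          (le_mul_of_one_le_left (by positivity) hz1))
    calc N t * N (z * algebraMap k L (P₁ j) + algebraMap k L (P₂ j)) ≤
        N t * (ka73 v * (max 1 (N z) * (max 1 (nv v (P₁ j)) * max 1 (nv v (P₂ j))))) := mul_le_mul_of_nonneg_left h3 ht0.le
      _ = _ := by ring
  have h2 : 0 < mxn N x := by
    obtain ⟨j, hj⟩ := hx1
    have h3 := le_mx73 N x j
    rw [hj, h.one] at h3
    linarith
  exact (Real.log_le_iff_le_exp h2).2 h1

/-- lower bound for the size of the point -/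
theorem px_ge73 (h : AV73 v N) {n : ℕ} (P₁ P₂ : Fin (n + 1) → k) {t : L} (ht : t ≠ 0) (z : L) (x : Fin (n + 1) → L)
    (hx : ∀ j, x j = t * (z * algebraMap k L (P₁ j) + algebraMap k L (P₂ j))) (l₁ l₂ : Fin (n + 1) → k)
    (h12 : dp73 l₁ P₂ = 0) (h21 : dp73 l₂ P₁ = 0) (h11 : dp73 l₁ P₁ ≠ 0) (h22 : dp73 l₂ P₂ ≠ 0) :
    Real.log (max 1 (N z)) + Real.log (N t) ≤ Real.log (mxn N x) + cy73 l₁ l₂ (dp73 l₁ P₁) (dp73 l₂ P₂) v := by
  have ht0 := h.pos t ht
  have hz1 : (1 : ℝ) ≤ max 1 (N z) := le_max_left _ _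
  have hz0 : (0 : ℝ) < max 1 (N z) := by linarith
  set a := dp73 l₁ P₁ with ha
  set b := dp73 l₂ P₂ with hb
  have e1 := lvg_pt73 l₁ P₁ P₂ t z x hx
  have e2 := lvg_pt73 l₂ P₁ P₂ t z x hx
  rw [h12, map_zero, add_zero, ← ha] at e1
  rw [h21, map_zero, mul_zero, zero_add, ← hb] at e2
  have f1 := form73 h l₁ x
  have f2 := form73 h l₂ x
  rw [e1, h.mul, h.mul, h.ext] at f1
  rw [e2, h.mul, h.ext] at f2
  have hM : 0 ≤ mxn N x := (h.nonneg _).trans (le_mx73 N x 0)
  have ia : nv v a⁻¹ * nv v a = 1 := by rw [← nv_mul, inv_mul_cancel₀ h11, nv_one]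
  have ib : nv v b⁻¹ * nv v b = 1 := by rw [← nv_mul, inv_mul_cancel₀ h22, nv_one]
  have ca := cf_nonneg73 l₁ v
  have cb := cf_nonneg73 l₂ v
  have la := lm_nonneg73 a⁻¹ v
  have lb := lm_nonneg73 b⁻¹ v
  have g2 : N t ≤ Real.exp (cf73 l₂ v + lm73 b⁻¹ v) * mxn N x := by
    rw [Real.exp_add, exp_lm73]
    calc N t = nv v b⁻¹ * (N t * nv v b) := by linear_combination -(N t) * ib
      _ ≤ nv v b⁻¹ * (Real.exp (cf73 l₂ v) * mxn N x) := mul_le_mul_of_nonneg_left f2 (nv_nonneg _ _)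
      _ ≤ max 1 (nv v b⁻¹) * (Real.exp (cf73 l₂ v) * mxn N x) :=
          mul_le_mul_of_nonneg_right (le_max_right _ _) (mul_nonneg (Real.exp_pos _).le hM)
      _ = _ := by ring
  have g1 : N t * N z ≤ Real.exp (cf73 l₁ v + lm73 a⁻¹ v) * mxn N x := by
    rw [Real.exp_add, exp_lm73]
    calc N t * N z = nv v a⁻¹ * (N t * (N z * nv v a)) := by linear_combination -(N t * N z) * ia
      _ ≤ nv v a⁻¹ * (Real.exp (cf73 l₁ v) * mxn N x) := mul_le_mul_of_nonneg_left f1 (nv_nonneg _ _)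
      _ ≤ max 1 (nv v a⁻¹) * (Real.exp (cf73 l₁ v) * mxn N x) :=
          mul_le_mul_of_nonneg_right (le_max_right _ _) (mul_nonneg (Real.exp_pos _).le hM)
      _ = _ := by ring
  have g3 : N t * max 1 (N z) ≤ Real.exp (cy73 l₁ l₂ a b v) * mxn N x := by
    rw [mul_max_of_nonneg _ _ ht0.le, mul_one]
    refine max_le ?_ ?_
    · refine g2.trans (mul_le_mul_of_nonneg_right (Real.exp_le_exp.2 ?_) hM)
      unfold cy73
      linarith
    · refine g1.trans (mul_le_mul_of_nonneg_right (Real.exp_le_exp.2 ?_) hM)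
      unfold cy73
      linarith
  have hpos : 0 < N t * max 1 (N z) := mul_pos ht0 hz0
  have hM0 : 0 < mxn N x := by
    by_contra h0
    rw [not_lt] at h0
    have := Real.exp_pos (cy73 l₁ l₂ a b v)
    nlinarith
  have g4 := Real.log_le_log hpos g3
  rw [Real.log_mul ht0.ne' hz0.ne', Real.log_mul (Real.exp_pos _).ne' hM0.ne', Real.log_exp] at g4
  linarith

/-! ### the hyperplanes -/

open Classical in
/-- the main term of a hyperplane -/
noncomputable def th73 (WA WB : Finset k) (a b u : k) (v : Pl k) : ℝ :=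
  if a = 0 ∨ -b / a ∈ WA then lm73 u v - Real.log (nv v u) else if -b / a ∈ WB then lm73 u v else 0

theorem hyp73 (WA WB : Finset k) (hd : Disjoint WA WB) (hB : WB.Nonempty) (r : ℕ) (a b : k) (hab : a = 0 → b ≠ 0) (v : Pl k) :
    ∃ D : ℝ, ∀ (L : Type u) [Field L] [Algebra k L] (N : L → ℝ), AV73 v N → ∀ (u : k) (z : Fin r → L), u ≠ 0 →
      Rt73 WA WB u z → (∀ j, z j * algebraMap k L a + algebraMap k L b ≠ 0) →
      th73 WA WB a b u v - D ≤ ∑ j, (Real.log (max 1 (N (z j))) - Real.log (N (z j * algebraMap k L a + algebraMap k L b))) := by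
  classical
  obtain ⟨b₀, hb₀⟩ := hB
  have hb₀' : b₀ ∉ WA := fun h => Finset.disjoint_left.1 hd h hb₀
  by_cases ha : a = 0
  · refine ⟨Klo73 WA b₀ r v + r * Real.log (nv v b), fun L _ _ N h u z hu hR hne => ?_⟩
    have h1 : th73 WA WB a b u v = lm73 u v - Real.log (nv v u) := if_pos (Or.inl ha)
    have h2 := lo73 h WA WB hb₀ hb₀' hu z hR
    rw [h1]
    have h3 : ∀ j, Real.log (max 1 (N (z j))) - Real.log (N (z j * algebraMap k L a + algebraMap k L b)) =
        Real.log (max 1 (N (z j))) - Real.log (nv v b) := by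
      intro j
      rw [ha, map_zero, mul_zero, zero_add, h.ext]
    rw [Finset.sum_congr rfl fun j _ => h3 j, Finset.sum_sub_distrib, Finset.sum_const, Finset.card_univ, Fintype.card_fin,
      nsmul_eq_mul]
    linarith
  set c : k := -b / a with hc
  have hac : ∀ (L : Type u) [Field L] [Algebra k L] (z : L), z * algebraMap k L a + algebraMap k L b =
      algebraMap k L a * (z - algebraMap k L c) := by
    intro L _ _ z
    have ha' : algebraMap k L a ≠ 0 := (map_ne_zero _).2 ha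
    rw [hc, map_div₀, map_neg]
    field_simp
    ring
  have hsum : ∀ (L : Type u) [Field L] [Algebra k L] (N : L → ℝ), AV73 v N → ∀ (z : Fin r → L), 
      (∀ j, z j * algebraMap k L a + algebraMap k L b ≠ 0) →
      ∑ j, (Real.log (max 1 (N (z j))) - Real.log (N (z j * algebraMap k L a + algebraMap k L b))) =
        ∑ j, Real.log (max 1 (N (z j))) - ∑ j, Real.log (N (z j - algebraMap k L c)) - r * Real.log (nv v a) := by
    intro L _ _ N h z hne
    have h3 : ∀ j, Real.log (max 1 (N (z j))) - Real.log (N (z j * algebraMap k L a + algebraMap k L b)) =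
        Real.log (max 1 (N (z j))) - Real.log (N (z j - algebraMap k L c)) - Real.log (nv v a) := by
      intro j
      have h4 := hne j
      rw [hac] at h4 ⊢
      have h5 := right_ne_zero_of_mul h4
      rw [h.mul, h.ext, Real.log_mul (nv_pos v ha).ne' (h.pos _ h5).ne']
      ring
    rw [Finset.sum_congr rfl fun j _ => h3 j, Finset.sum_sub_distrib, Finset.sum_sub_distrib, Finset.sum_const, Finset.card_univ,
      Fintype.card_fin, nsmul_eq_mul]
  by_cases hA : c ∈ WA
  · have hB' : c ∉ WB := Finset.disjoint_left.1 hd hA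
    refine ⟨Klo73 WA b₀ r v + Real.log (nv v (ev73 WB c)) + r * Real.log (nv v a), fun L _ _ N h u z hu hR hne => ?_⟩
    have h1 : th73 WA WB a b u v = lm73 u v - Real.log (nv v u) := if_pos (Or.inr hA)
    have h2 := lo73 h WA WB hb₀ hb₀' hu z hR
    have h3 := (hR.at_WA h hu hA hB').2
    rw [h1, hsum L N h z hne, h3]
    linarith
  by_cases hB' : c ∈ WB
  · refine ⟨Klo73 WA b₀ r v + Real.log (nv v (ev73 WA c)) + r * Real.log (nv v a), fun L _ _ N h u z hu hR hne => ?_⟩
    have h1 : th73 WA WB a b u v = lm73 u v := by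
      unfold th73
      rw [if_neg (not_or.2 ⟨ha, hA⟩), if_pos hB']
    have h2 := lo73 h WA WB hb₀ hb₀' hu z hR
    have h3 := (hR.at_WB h hu hB' hA).2
    rw [h1, hsum L N h z hne, h3]
    linarith
  · refine ⟨r * (Real.log (ka73 v) + lm73 c v) + r * Real.log (nv v a), fun L _ _ N h u z hu hR hne => ?_⟩
    have h1 : th73 WA WB a b u v = 0 := by
      unfold th73
      rw [if_neg (not_or.2 ⟨ha, hA⟩), if_neg hB']
    rw [h1, hsum L N h z hne]
    have h2 : ∑ j, Real.log (N (z j - algebraMap k L c)) ≤ ∑ j, (Real.log (max 1 (N (z j))) + (Real.log (ka73 v) + lm73 c v)) := by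
      refine Finset.sum_le_sum fun j _ => h.log_one_pt c (z j) ?_
      have h4 := hne j
      rw [hac] at h4
      exact right_ne_zero_of_mul h4
    rw [Finset.sum_add_distrib, Finset.sum_const, Finset.card_univ, Fintype.card_fin, nsmul_eq_mul] at h2
    linarith

end

/-! ### all places -/

section

variable {k : Type u} [Field k] [NumberField k] {G : Type u} [Group G] [Fintype G] {L : Type u} [Field L] [Algebra k L]
  {s : G →* (L ≃ₐ[k] L)} {N : Pl k → L → ℝ}

theorem Rt73.map {WA WB : Finset k} {u : k} {r : ℕ} {z : Fin r → L} (hR : Rt73 WA WB u z) (e : L ≃ₐ[k] L) :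
    Rt73 WA WB u fun j => e (z j) := by
  intro c
  have h1 := congrArg e (hR c)
  rw [AlgEquiv.commutes, map_mul, AlgEquiv.commutes, map_prod] at h1
  rw [h1]
  congr 1
  refine Finset.prod_congr rfl fun j _ => ?_
  rw [map_sub, AlgEquiv.commutes]

/-- the sum of the heights -/
theorem heights73 (h : QSG s N) {n r : ℕ} (P₁ P₂ : Fin (n + 1) → k) (WA WB : Finset k) (p : Fin (r + 1) → k)
    (hp : Function.Injective p) {u : k} (hu : u ≠ 0) (z t : Fin r → L) (hR : Rt73 WA WB u z) (ht : ∀ j, t j ≠ 0)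
    (x : Fin r → Fin (n + 1) → L)
    (hx : ∀ j i, x j i = t j * (z j * algebraMap k L (P₁ i) + algebraMap k L (P₂ i))) (hx1 : ∀ j, ∃ i, x j i = 1) :
    ∑ j, Hg s N (x j) ≤ Fintype.card G * (gsum (lm73 u) + (gsum (Kup73 WA WB p) + r * gsum (cx73 P₁ P₂))) := by
  classical
  have F1 : ∀ j, FinS fun v => ∑ g, Real.log (mxn (N v) fun i => s g (x j i)) := fun j => Hg_finS h (x j) (hx1 j)
  have F2 : ∀ j, FinS fun v => ∑ g, Real.log (N v (s g (t j))) := fun j =>
    FinS.sum _ fun g _ => h.fin _ ((map_ne_zero (s g)).2 (ht j))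
  have h1 : ∀ v : Pl k, ∑ j, ∑ g, Real.log (mxn (N v) fun i => s g (x j i)) ≤
      ∑ j, ∑ g, Real.log (N v (s g (t j))) + Fintype.card G * (lm73 u v + (-1) * Real.log (nv v u) +
        (Kup73 WA WB p v + r * cx73 P₁ P₂ v)) := by
    intro v
    rw [Finset.sum_comm, Finset.sum_comm (f := fun j g => Real.log (N v (s g (t j)))), ← nsmul_eq_mul, ← Finset.card_univ,
      ← Finset.sum_const, ← Finset.sum_add_distrib]
    refine Finset.sum_le_sum fun g _ => ?_
    have h2 := h.av73 v g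
    have h3 := up73 h2 WA WB p hp hu z hR
    have h4 : ∑ j, Real.log (mxn (N v) fun i => s g (x j i)) ≤ ∑ j, (Real.log (max 1 (N v (s g (z j)))) +
        Real.log (N v (s g (t j))) + cx73 P₁ P₂ v) := by
      refine Finset.sum_le_sum fun j _ => ?_
      exact px_le73 h2 P₁ P₂ (ht j) (z j) (x j) (hx j) (hx1 j)
    rw [Finset.sum_add_distrib, Finset.sum_add_distrib, Finset.sum_const, Finset.card_univ, Fintype.card_fin, nsmul_eq_mul] at h4
    linarith
  have Fu := finS_lm73 u
  have Fn := finS_nv hu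
  have FK := finS_Kup73 WA WB p
  have Fx := finS_cx73 P₁ P₂
  have FR : FinS fun v => lm73 u v + (-1) * Real.log (nv v u) + (Kup73 WA WB p v + r * cx73 P₁ P₂ v) :=
    (Fu.add (Fn.const_mul (-1))).add (FK.add (Fx.const_mul r))
  have h2 := gsum_mono (FinS.sum Finset.univ fun j _ => F1 j) ((FinS.sum Finset.univ fun j _ => F2 j).add (FR.const_mul _)) h1
  rw [gsum_sum _ fun j _ => F1 j, gsum_add (FinS.sum Finset.univ fun j _ => F2 j) (FR.const_mul _), gsum_sum _ fun j _ => F2 j,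
    gsum_const_mul, gsum_add (Fu.add (Fn.const_mul (-1))) (FK.add (Fx.const_mul r)), gsum_add Fu (Fn.const_mul (-1)),
    gsum_const_mul, gsum_nv hu, gsum_add FK (Fx.const_mul r), gsum_const_mul, Finset.sum_eq_zero fun j _ => h.prod _ (ht j)] at h2
  unfold Hg
  linarith

/-- the height of each point -/
theorem height_ge73 (h : QSG s N) {n r : ℕ} (P₁ P₂ : Fin (n + 1) → k) (WA WB : Finset k) (hA : WA.card ≤ r) (hB : WB.card ≤ r)
    {u : k} (z t : L)
    (hz : ∏ a ∈ WA, (z - algebraMap k L a) + algebraMap k L u * ∏ b ∈ WB, (z - algebraMap k L b) = 0)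
    (hne : ∏ b ∈ WB, (z - algebraMap k L b) ≠ 0) (ht : t ≠ 0) (x : Fin (n + 1) → L)
    (hx : ∀ i, x i = t * (z * algebraMap k L (P₁ i) + algebraMap k L (P₂ i))) (hx1 : ∃ i, x i = 1)
    (l₁ l₂ : Fin (n + 1) → k)
    (h12 : dp73 l₁ P₂ = 0) (h21 : dp73 l₂ P₁ = 0) (h11 : dp73 l₁ P₁ ≠ 0) (h22 : dp73 l₂ P₂ ≠ 0) :
    Fintype.card G * gsum (lm73 u) ≤ r * Hg s N x + Fintype.card G * (r * gsum (cy73 l₁ l₂ (dp73 l₁ P₁) (dp73 l₂ P₂)) +
      gsum fun v => ∑ a ∈ WA, (Real.log (ka73 v) + lm73 a v) + ∑ b ∈ WB, (Real.log (ka73 v) + lm73 b v)) := by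
  classical
  have F1 : FinS fun v => ∑ g, Real.log (mxn (N v) fun i => s g (x i)) := Hg_finS h x hx1
  have F2 : FinS fun v => ∑ g, Real.log (N v (s g t)) :=
    FinS.sum _ fun g _ => h.fin _ ((map_ne_zero (s g)).2 ht)
  have F3 : FinS fun v => ∑ g, Real.log (N v (s g (∏ b ∈ WB, (z - algebraMap k L b)))) :=
    FinS.sum _ fun g _ => h.fin _ ((map_ne_zero (s g)).2 hne)
  have Fy := finS_cy73 l₁ l₂ (dp73 l₁ P₁) (dp73 l₂ P₂)
  have FW : FinS fun v : Pl k => ∑ a ∈ WA, (Real.log (ka73 v) + lm73 a v) + ∑ b ∈ WB, (Real.log (ka73 v) + lm73 b v) :=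
    (FinS.sum _ fun a _ => finS_ka73.add (finS_lm73 a)).add (FinS.sum _ fun a _ => finS_ka73.add (finS_lm73 a))
  have h1 : ∀ v : Pl k, Fintype.card G * lm73 u v ≤ r * ∑ g, Real.log (mxn (N v) fun i => s g (x i)) +
      ((-r) * ∑ g, Real.log (N v (s g t)) + ((-1) * ∑ g, Real.log (N v (s g (∏ b ∈ WB, (z - algebraMap k L b)))) +
        Fintype.card G * (r * cy73 l₁ l₂ (dp73 l₁ P₁) (dp73 l₂ P₂) v +
          (∑ a ∈ WA, (Real.log (ka73 v) + lm73 a v) + ∑ b ∈ WB, (Real.log (ka73 v) + lm73 b v))))) := by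
    intro v
    have h2 : ∀ g : G, lm73 u v ≤ r * Real.log (mxn (N v) fun i => s g (x i)) +
        ((-r) * Real.log (N v (s g t)) + ((-1) * Real.log (N v (s g (∏ b ∈ WB, (z - algebraMap k L b)))) +
          (r * cy73 l₁ l₂ (dp73 l₁ P₁) (dp73 l₂ P₂) v +
          (∑ a ∈ WA, (Real.log (ka73 v) + lm73 a v) + ∑ b ∈ WB, (Real.log (ka73 v) + lm73 b v))))) := by
      intro g
      have h3 := h.av73 v g
      have h4 := each73 h3 WA WB hA hB z hz hne
      have h5 := px_ge73 h3 P₁ P₂ ht z x hx l₁ l₂ h12 h21 h11 h22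
      have h6 : mxn (fun x => N v (s g x)) x = mxn (N v) fun i => s g (x i) := rfl
      rw [h6] at h5
      have h7 := mul_le_mul_of_nonneg_left h5 (Nat.cast_nonneg (α := ℝ) r)
      linarith
    have h3 := Finset.sum_le_sum fun g (_ : g ∈ (Finset.univ : Finset G)) => h2 g
    simp only [Finset.sum_add_distrib, ← Finset.mul_sum, Finset.sum_const, Finset.card_univ, nsmul_eq_mul] at h3
    simp only [Finset.sum_add_distrib, Finset.sum_const, nsmul_eq_mul]
    linarith
  have h2 := gsum_mono ((finS_lm73 u).const_mul _) ((F1.const_mul r).add ((F2.const_mul (-r)).add ((F3.const_mul (-1)).add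
    (((Fy.const_mul r).add FW).const_mul _)))) h1
  rw [gsum_const_mul, gsum_add (F1.const_mul r) ((F2.const_mul (-r)).add ((F3.const_mul (-1)).add
    (((Fy.const_mul r).add FW).const_mul _))), gsum_const_mul, gsum_add (F2.const_mul (-r)) ((F3.const_mul (-1)).add
    (((Fy.const_mul r).add FW).const_mul _)), gsum_const_mul, h.prod t ht, gsum_add (F3.const_mul (-1))
    (((Fy.const_mul r).add FW).const_mul _), gsum_const_mul, h.prod _ hne, gsum_const_mul, gsum_add (Fy.const_mul r) FW,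
    gsum_const_mul] at h2
  unfold Hg
  linarith

end

end Pool.Agent.SQ
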