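import Pool.Agent.Helper42.SQ.Defs

/-!
# SQ, block DER

A `k(X)`-subspace of `E ⊗ k(X)` which is stable under `d/dX` is defined over `k`.
The set of the polynomials which depend on `z` is a `k[X]`-module, stable under `d/dX`. The leading coefficient of a polynomial `u` of degree `n`
is its `n`-th derivative divided by `n!`, so by induction on the degree all the coefficients of `u` are in the module.
-/

set_option autoImplicit false

namespace Pool.Agent.SQ

open Module Polynomial

universe u

variable {k K : Type u} [Field k] [Field K] [Algebra k K]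

section

variable {α : Type*} [Fintype α] {z : α → K[X]}

private theorem der_zero : Dep k z (0 : K[X]) := ⟨1, fun _ => 0, one_ne_zero, by simp⟩

private theorem der_self (a : α) : Dep k z (z a) := by
  classical
  refine ⟨1, fun b => if b = a then 1 else 0, one_ne_zero, ?_⟩
  rw [Finset.sum_eq_single a]
  · simp
  · intro b _ hb
    simp [hb]
  · intro h
    exact absurd (Finset.mem_univ a) h

private theorem der_pmul {y : K[X]} (q : k[X]) (h : Dep k z y) : Dep k z (q.map (algebraMap k K) * y) := by
  obtain ⟨p, c, hp, e⟩ := h
  refine ⟨p, fun a => q * c a, hp, ?_⟩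
  rw [← mul_assoc, mul_comm (p.map _) (q.map _), mul_assoc, e, Finset.mul_sum]
  refine Finset.sum_congr rfl fun a _ => ?_
  rw [Polynomial.map_mul, mul_assoc]

private theorem der_cancel {y : K[X]} {q : k[X]} (hq : q ≠ 0) (h : Dep k z (q.map (algebraMap k K) * y)) :
    Dep k z y := by
  obtain ⟨p, c, hp, e⟩ := h
  refine ⟨p * q, c, mul_ne_zero hp hq, ?_⟩
  rw [Polynomial.map_mul, mul_assoc, e]

private theorem der_add {y y' : K[X]} (h : Dep k z y) (h' : Dep k z y') : Dep k z (y + y') := by
  obtain ⟨p, c, hp, e⟩ := h
  obtain ⟨p', c', hp', e'⟩ := h'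
  refine ⟨p * p', fun a => p' * c a + p * c' a, mul_ne_zero hp hp', ?_⟩
  have e2 : ((p * p').map (algebraMap k K)) * (y + y') =
      p'.map (algebraMap k K) * (p.map (algebraMap k K) * y) + p.map (algebraMap k K) * (p'.map (algebraMap k K) * y') := by
    rw [Polynomial.map_mul]; ring
  rw [e2, e, e', Finset.mul_sum, Finset.mul_sum, ← Finset.sum_add_distrib]
  refine Finset.sum_congr rfl fun a _ => ?_
  rw [Polynomial.map_add, Polynomial.map_mul, Polynomial.map_mul]
  ring

private theorem der_smul {y : K[X]} (c : k) (h : Dep k z y) : Dep k z (c • y) := by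
  have e : c • y = (C c).map (algebraMap k K) * y := by
    rw [Polynomial.map_C, ← smul_eq_C_mul, algebraMap_smul]
  rw [e]
  exact der_pmul _ h

/-- a family which is independent and depends on `z` has at most as many elements as `z` -/
private theorem der_card {n : ℕ} (y : Fin n → K[X]) (hy : PInd k y) (hd : ∀ b, Dep k z (y b)) :
    n ≤ Fintype.card α := by
  choose p c hp e using hd
  have hinj : Function.Injective (Matrix.vecMulLinear (Matrix.of c) : (Fin n → k[X]) →ₗ[k[X]] (α → k[X])) := by
    rw [injective_iff_map_eq_zero]
    intro r hr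
    have h1 : ∀ a, ∑ b, r b * c b a = 0 := fun a => congrFun hr a
    have h2 : (fun b => r b * p b) = 0 := by
      refine hy _ ?_
      have h3 : ∀ b, (r b * p b).map (algebraMap k K) * y b =
          ∑ a, (r b * c b a).map (algebraMap k K) * z a := by
        intro b
        rw [Polynomial.map_mul, mul_assoc, e, Finset.mul_sum]
        refine Finset.sum_congr rfl fun a _ => ?_
        rw [Polynomial.map_mul, mul_assoc]
      simp only [h3]
      rw [Finset.sum_comm]
      refine Finset.sum_eq_zero fun a _ => ?_
      rw [← Finset.sum_mul, ← Polynomial.map_sum, h1 a]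
      simp
    funext b
    have h4 : r b * p b = 0 := congrFun h2 b
    exact (mul_eq_zero.1 h4).resolve_right (hp b)
  simpa using card_le_of_injective (k[X]) _ hinj

private theorem der_sum {β : Type*} (s : Finset β) {y : β → K[X]} (h : ∀ b ∈ s, Dep k z (y b)) :
    Dep k z (∑ b ∈ s, y b) := by
  classical
  induction s using Finset.induction_on with
  | empty => simpa using der_zero
  | insert a s ha ih =>
    rw [Finset.sum_insert ha]
    exact der_add (h a (Finset.mem_insert_self a s)) (ih fun b hb => h b (Finset.mem_insert_of_mem hb))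

/-- the polynomials which depend on `z` are stable under the derivative -/
private theorem der_deriv (hd : ∀ a, Dep k z (derivative (z a))) {y : K[X]} (h : Dep k z y) : Dep k z (derivative y) := by
  have h0 := h
  obtain ⟨p, c, hp, e⟩ := h
  have e1 := congrArg (fun u => derivative u) e
  simp only [derivative_mul, derivative_sum, derivative_map] at e1
  have e2 : p.map (algebraMap k K) * derivative y =
      (∑ a, ((derivative (c a)).map (algebraMap k K) * z a + (c a).map (algebraMap k K) * derivative (z a))) +
        (-1 : k) • ((derivative p).map (algebraMap k K) * y) := by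
    rw [← e1, neg_one_smul]
    ring
  refine der_cancel hp ?_
  rw [e2]
  refine der_add (der_sum _ fun a _ => der_add (der_pmul _ (der_self a)) (der_pmul _ (hd a))) ?_
  exact der_smul _ (der_pmul _ h0)

private theorem der_top [CharZero k] (hd : ∀ a, Dep k z (derivative (z a))) {y : K[X]} (h : Dep k z y) :
    Dep k z (C (y.coeff y.natDegree)) := by
  have hit : ∀ n : ℕ, Dep k z (derivative^[n] y) := by
    intro n
    induction n with
    | zero => simpa using h
    | succ n ih =>
      rw [Function.iterate_succ_apply']
      exact der_deriv hd ih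
  have e := hit y.natDegree
  have e2 : derivative^[y.natDegree] y = C ((y.natDegree.factorial : K) * y.coeff y.natDegree) := by
    ext n
    rw [coeff_iterate_derivative, coeff_C]
    rcases Nat.eq_zero_or_pos n with rfl | hn
    · simp [Nat.descFactorial_self]
    · rw [if_neg hn.ne', coeff_eq_zero_of_natDegree_lt (by omega)]
      simp
  rw [e2] at e
  have e3 : C ((y.natDegree.factorial : K) * y.coeff y.natDegree) =
      (C (y.natDegree.factorial : k)).map (algebraMap k K) * C (y.coeff y.natDegree) := by
    rw [Polynomial.map_C, ← C_mul]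
    simp
  rw [e3] at e
  refine der_cancel ?_ e
  rw [Ne, C_eq_zero]
  exact_mod_cast (Nat.factorial_ne_zero _)

private theorem der_coeff [CharZero k] (hd : ∀ a, Dep k z (derivative (z a))) (N : ℕ) :
    ∀ y : K[X], y.natDegree ≤ N → Dep k z y → ∀ n, Dep k z (C (y.coeff n)) := by
  induction N with
  | zero =>
    intro y hy h n
    have hy0 : y.natDegree = 0 := Nat.le_zero.1 hy
    rcases Nat.eq_zero_or_pos n with rfl | hn
    · have := der_top hd h
      rwa [hy0] at this
    · rw [coeff_eq_zero_of_natDegree_lt (by omega)]
      simpa using der_zero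
  | succ N ih =>
    intro y hy h n
    have ht : Dep k z (C (y.coeff (N + 1))) := by
      rcases Nat.lt_or_ge y.natDegree (N + 1) with hlt | hge
      · rw [coeff_eq_zero_of_natDegree_lt hlt]
        simpa using der_zero
      · have := der_top hd h
        rwa [le_antisymm hy hge] at this
    set y' : K[X] := y + (-1 : k) • ((X ^ (N + 1) : k[X]).map (algebraMap k K) * C (y.coeff (N + 1))) with hy'
    have hD : Dep k z y' := der_add h (der_smul _ (der_pmul _ ht))
    have hc : ∀ m, y'.coeff m = if m = N + 1 then 0 else y.coeff m := by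
      intro m
      rw [hy', neg_one_smul, coeff_add, coeff_neg, Polynomial.map_pow, map_X, mul_comm, coeff_C_mul, coeff_X_pow]
      split_ifs with hm
      · subst hm; ring
      · ring
    have hdeg : y'.natDegree ≤ N := by
      rw [natDegree_le_iff_coeff_eq_zero]
      intro m hm
      rw [hc]
      split_ifs with h1
      · rfl
      · exact coeff_eq_zero_of_natDegree_lt (by omega)
    by_cases hn : n = N + 1
    · rw [hn]; exact ht
    · have := ih y' hdeg hD n
      rwa [hc, if_neg hn] at this

end

private theorem der_pindC {n : ℕ} (e : Fin n → K) (he : LinearIndependent k e) : PInd k fun a => C (e a) := by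
  intro p hp
  have h1 : ∀ m, ∑ a, (p a).coeff m • e a = 0 := by
    intro m
    have := congrArg (fun u => coeff u m) hp
    simpa [finsetSum_coeff, Algebra.smul_def] using this
  funext a
  ext m
  exact Fintype.linearIndependent_iff.1 he _ (h1 m) a

/-- a polynomial with coefficients in `E` depends on a basis of `E` -/
private theorem der_basis (E : Submodule k K) [FiniteDimensional k E] {y : K[X]} (hy : ∀ n, y.coeff n ∈ E) :
    Dep k (fun a : Fin (finrank k E) => (C ((finBasis k E a : E) : K) : K[X])) y := by
  have h1 : ∀ n, (y.coeff n) = ∑ a, ((finBasis k E).repr ⟨y.coeff n, hy n⟩ a) • ((finBasis k E a : E) : K) := by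
    intro n
    have := (finBasis k E).sum_repr ⟨y.coeff n, hy n⟩
    have h2 := congrArg (Subtype.val) this
    simp only [Submodule.coe_sum, Submodule.coe_smul] at h2
    exact h2.symm
  refine ⟨1, fun a => ∑ n ∈ Finset.range (y.natDegree + 1), monomial n ((finBasis k E).repr ⟨y.coeff n, hy n⟩ a),
    one_ne_zero, ?_⟩
  rw [Polynomial.map_one, one_mul]
  ext m
  rw [finsetSum_coeff]
  simp only [coeff_mul_C, coeff_map, finsetSum_coeff, coeff_monomial, Finset.sum_ite_eq', Finset.mem_range]
  by_cases hm : m < y.natDegree + 1
  · simp only [if_pos hm]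
    refine (h1 m).trans (Finset.sum_congr rfl fun a _ => ?_)
    rw [Algebra.smul_def]
  · simp only [if_neg hm]
    rw [coeff_eq_zero_of_natDegree_lt (by omega)]
    simp

private theorem der_le (E : Submodule k K) [FiniteDimensional k E] {n : ℕ} (z : Fin n → K[X]) (hz : PInd k z)
    (hE : ∀ a m, (z a).coeff m ∈ E) : n ≤ finrank k E := by
  have := der_card (z := fun a : Fin (finrank k E) => (C ((finBasis k E a : E) : K) : K[X])) z hz
    (fun b => der_basis E (hE b))
  simpa using this

/-! ### DER -/

theorem der [CharZero k] (E : Submodule k K) [FiniteDimensional k E] {ρ : ℕ} (z : Fin ρ → K[X]) (hz : PInd k z)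
    (hE : ∀ a n, (z a).coeff n ∈ E) (hd : ∀ a, Dep k z (derivative (z a))) :
    ∃ E' : Submodule k K, E' ≤ E ∧ finrank k E' = ρ ∧ ∀ a n, (z a).coeff n ∈ E' := by
  have hadd : ∀ x y : K, Dep k z (C x) → Dep k z (C y) → Dep k z (C (x + y)) := fun x y hx hy => by
    rw [C_add]; exact der_add hx hy
  have hsmul : ∀ (c : k) (x : K), Dep k z (C x) → Dep k z (C (c • x)) := fun c x hx => by
    rw [← smul_C]; exact der_smul c hx
  let E' : Submodule k K :=
    { carrier := {x | x ∈ E ∧ Dep k z (C x)}
      zero_mem' := ⟨E.zero_mem, by simpa using der_zero⟩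
      add_mem' := fun {x y} hx hy => ⟨E.add_mem hx.1 hy.1, hadd x y hx.2 hy.2⟩
      smul_mem' := fun c x hx => ⟨E.smul_mem c hx.1, hsmul c x hx.2⟩ }
  have hle : E' ≤ E := fun x hx => hx.1
  have : FiniteDimensional k E' := Submodule.finiteDimensional_of_le hle
  have hco : ∀ a n, (z a).coeff n ∈ E' := fun a n => ⟨hE a n, der_coeff hd _ (z a) le_rfl (der_self a) n⟩
  refine ⟨E', hle, le_antisymm ?_ (der_le E' z hz hco), hco⟩
  have := der_card (z := z) (fun a => C ((finBasis k E' a : E') : K))
    (der_pindC _ ((finBasis k E').linearIndependent.map' E'.subtype (Submodule.ker_subtype _)))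
    (fun b => (finBasis k E' b).2.2)
  simpa using this

end Pool.Agent.SQ
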