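import Pool.Agent.Helper42.SQ.Defs

/-!
# SQ, block HER: Hermite interpolation
-/

set_option autoImplicit false

namespace Pool.Agent.SQ

open Module Polynomial

universe u

section

variable {k K : Type u} [Field k] [Field K] [Algebra k K]

section

variable {ι : Type*} [Fintype ι] {t : ι → k} (ht : Function.Injective t) (F : ι → ℕ → Submodule k K) (M : ℕ)
  (E : Submodule k K) [FiniteDimensional k E]

omit [FiniteDimensional k E] in
private theorem inv_mem80 (e : ℕ) (f : Fin (e + 1) → E) : (∑ i : Fin (e + 1), monomial (i : ℕ) (f i : K)) ∈ PE E e := by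
  refine Submodule.sum_mem _ fun i _ => ⟨fun n => ?_, ?_⟩
  · rw [coeff_monomial]
    split_ifs
    · exact (f i).2
    · exact E.zero_mem
  · exact (natDegree_monomial_le _).trans (Nat.le_of_lt_succ i.2)

private noncomputable def eqv80 (e : ℕ) : PE E e ≃ₗ[k] (Fin (e + 1) → E) where
  toFun u i := ⟨u.1.coeff i, u.2.1 i⟩
  map_add' u v := by
    funext i
    apply Subtype.ext
    simp
  map_smul' c u := by
    funext i
    apply Subtype.ext
    simp
  invFun f := ⟨∑ i : Fin (e + 1), monomial (i : ℕ) (f i : K), inv_mem80 E e f⟩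
  left_inv u := by
    apply Subtype.ext
    show ∑ i : Fin (e + 1), monomial (i : ℕ) (u.1.coeff i) = u.1
    rw [Fin.sum_univ_eq_sum_range (fun i => monomial i (u.1.coeff i)) (e + 1)]
    exact (as_sum_range' u.1 (e + 1) (Nat.lt_succ_of_le u.2.2)).symm
  right_inv f := by
    funext i
    apply Subtype.ext
    show (∑ j : Fin (e + 1), monomial (j : ℕ) (f j : K)).coeff i = f i
    rw [finset_sum_coeff, Finset.sum_eq_single i]
    · simp
    · intro j _ hj
      rw [coeff_monomial, if_neg]
      exact fun h => hj (Fin.ext h)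
    · intro h; exact absurd (Finset.mem_univ i) h

theorem fd_PE (e : ℕ) : FiniteDimensional k (PE E e) :=
  (eqv80 E e).symm.finiteDimensional

theorem finrank_PE (e : ℕ) : finrank k (PE E e) = finrank k E * (e + 1) := by
  rw [(eqv80 E e).finrank_eq, Module.finrank_pi_fintype]
  simp [mul_comm]

omit [FiniteDimensional k E] in
private theorem tay_mem80 (u : K[X]) (hu : ∀ n, u.coeff n ∈ E) (r : k) (j : ℕ) :
    (taylor (algebraMap k K r) u).coeff j ∈ E := by
  rw [taylor_coeff, eval_eq_sum_range]
  refine Submodule.sum_mem _ fun n _ => ?_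
  rw [hasseDeriv_coeff]
  have : ((n + j).choose j : K) * u.coeff (n + j) * algebraMap k K r ^ n =
      (((n + j).choose j : k) * r ^ n) • u.coeff (n + j) := by
    rw [Algebra.smul_def]
    simp only [map_mul, map_natCast, map_pow]
    ring
  rw [this]
  exact E.smul_mem _ (hu _)

/-- the Taylor map -/
private noncomputable def tay80 (t : ι → k) (e : ℕ) : PE E e →ₗ[k] (ι × Fin M → E) where
  toFun u p := ⟨(taylor (algebraMap k K (t p.1)) u.1).coeff p.2, tay_mem80 E u.1 u.2.1 _ _⟩
  map_add' u v := by
    funext i
    apply Subtype.ext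
    simp
  map_smul' c u := by
    funext i
    apply Subtype.ext
    have he : ((c • u : PE E e) : K[X]) = algebraMap k K c • u.1 := by rw [algebraMap_smul]; rfl
    show (taylor (algebraMap k K (t i.1)) ((c • u : PE E e) : K[X])).coeff i.2 = c • (taylor (algebraMap k K (t i.1)) u.1).coeff i.2
    rw [he, map_smul, coeff_smul, algebraMap_smul]

/-- the quotients by the flags -/
private abbrev Q80 (p : ι × Fin M) := E ⧸ ((F p.1 (M - p.2)).comap E.subtype)

/-- the Taylor map modulo the flags -/
private noncomputable def qmap80 (t : ι → k) (e : ℕ) :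
    PE E e →ₗ[k] (∀ p : ι × Fin M, Q80 F M E p) :=
  (LinearMap.pi fun p => ((F p.1 (M - p.2)).comap E.subtype).mkQ ∘ₗ LinearMap.proj p) ∘ₗ tay80 M E t e

private theorem gen80 {P V : Type*} [Fintype P] [AddCommGroup V] [Module k V] [FiniteDimensional k V] (W : P → Type*)
    [∀ p, AddCommGroup (W p)] [∀ p, Module k (W p)] [∀ p, FiniteDimensional k (W p)] (f : V →ₗ[k] ∀ p, W p) :
    finrank k V ≤ ∑ p, finrank k (W p) + finrank k (LinearMap.ker f) ∧
      (Function.Surjective f → finrank k V = ∑ p, finrank k (W p) + finrank k (LinearMap.ker f)) := by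
  have h := LinearMap.finrank_range_add_finrank_ker f
  have h2 := Submodule.finrank_le (LinearMap.range f)
  rw [Module.finrank_pi_fintype] at h2
  refine ⟨by omega, fun hs => ?_⟩
  have h3 : finrank k (LinearMap.range f) = finrank k (∀ p, W p) := by rw [LinearMap.range_eq_top.2 hs, finrank_top]
  rw [Module.finrank_pi_fintype] at h3
  omega

private theorem ker80 (t : ι → k) (e : ℕ) :
    finrank k (LinearMap.ker (qmap80 F M E t e)) = finrank k ↥(Lat t F M E ⊓ PE E e) := by
  have h : LinearMap.ker (qmap80 F M E t e) = (Lat t F M E).comap (PE E e).subtype := by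
    ext u
    rw [LinearMap.mem_ker, Submodule.mem_comap]
    constructor
    · intro h
      refine ⟨u.2.1, fun i j hj => ?_⟩
      have h1 := congrFun h (i, ⟨j, hj⟩)
      have h2 : ((F i (M - j)).comap E.subtype).mkQ (tay80 M E t e u (i, ⟨j, hj⟩)) = 0 := h1
      rw [Submodule.mkQ_apply, Submodule.Quotient.mk_eq_zero] at h2
      exact h2
    · rintro ⟨h1, h2⟩
      funext p
      show ((F p.1 (M - p.2)).comap E.subtype).mkQ (tay80 M E t e u p) = 0
      rw [Submodule.mkQ_apply, Submodule.Quotient.mk_eq_zero]
      exact h2 p.1 p.2 p.2.2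
  rw [h, inf_comm, ← Submodule.map_comap_subtype, Submodule.finrank_map_subtype_eq]

omit [FiniteDimensional k E] in
private theorem comap80 (G : Submodule k K) : finrank k ↥(G.comap E.subtype) = finrank k ↥(E ⊓ G) := by
  rw [← Submodule.map_comap_subtype, Submodule.finrank_map_subtype_eq]

private theorem TT80 : TT F M E = ∑ p : ι × Fin M, finrank k ↥((F p.1 (M - p.2)).comap E.subtype) := by
  rw [Fintype.sum_prod_type, TT]
  refine Finset.sum_congr rfl fun i _ => ?_
  rw [Fin.sum_univ_eq_sum_range (fun j => finrank k ↥((F i (M - j)).comap E.subtype)) M]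
  refine Finset.sum_bij' (fun j _ => M - j) (fun j _ => M - j) ?_ ?_ ?_ ?_ ?_
  · intro j hj; rw [Finset.mem_Icc] at hj; rw [Finset.mem_range]; omega
  · intro j hj; rw [Finset.mem_range] at hj; rw [Finset.mem_Icc]; omega
  · intro j hj; rw [Finset.mem_Icc] at hj; omega
  · intro j hj; rw [Finset.mem_range] at hj; omega
  · intro j hj
    rw [Finset.mem_Icc] at hj
    rw [comap80, show M - (M - j) = j by omega]

private theorem quot80 : ∑ p : ι × Fin M, finrank k (Q80 F M E p) + TT F M E = Fintype.card ι * M * finrank k E := by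
  rw [TT80, ← Finset.sum_add_distrib]
  rw [Finset.sum_congr rfl fun p _ => Submodule.finrank_quotient_add_finrank ((F p.1 (M - p.2)).comap E.subtype)]
  simp

/-- the lower bound (conditions are linear conditions) -/
theorem low (t : ι → k) (e : ℕ) : finrank k E * (e + 1) + TT F M E ≤
    finrank k ↥(Lat t F M E ⊓ PE E e) + Fintype.card ι * M * finrank k E := by
  have := fd_PE E e
  rw [← ker80, ← finrank_PE, ← quot80 F M E]
  have h := (gen80 (V := PE E e) (Q80 F M E) (qmap80 F M E t e)).1
  omega

include ht in
omit [Fintype ι] [FiniteDimensional k E] in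
private theorem eq_zero80 [Fintype ι] (u : K[X]) (h : ∀ i, ∀ j < M, (taylor (algebraMap k K (t i)) u).coeff j = 0)
    (hd : u.natDegree < Fintype.card ι * M) : u = 0 := by
  by_contra hu
  have h1 : ∀ i, (X - C (algebraMap k K (t i))) ^ M ∣ u := by
    intro i
    rw [X_sub_C_pow_dvd_iff, X_pow_dvd_iff]
    intro d hd
    rw [← taylor_apply]
    exact h i d hd
  have h2 : (∏ i, (X - C (algebraMap k K (t i))) ^ M) ∣ u := by
    refine Fintype.prod_dvd_of_coprime ?_ h1
    intro i j hij
    exact (pairwise_coprime_X_sub_C ((algebraMap k K).injective.comp ht) hij).pow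
  have h3 := natDegree_le_of_dvd h2 hu
  rw [natDegree_prod_of_monic _ _ fun i _ => (monic_X_sub_C _).pow M] at h3
  simp only [natDegree_pow, natDegree_X_sub_C, Finset.sum_const, Finset.card_univ, smul_eq_mul, mul_one] at h3
  omega

include ht in
private theorem surj80 (e : ℕ) (he : Fintype.card ι * M ≤ e + 1) : Function.Surjective (tay80 M E t e) := by
  rcases Nat.eq_zero_or_pos (Fintype.card ι * M) with h0 | h0
  · have : IsEmpty (ι × Fin M) := by
      rw [← Fintype.card_eq_zero_iff, Fintype.card_prod, Fintype.card_fin]; exact h0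
    intro f
    exact ⟨0, Subsingleton.elim _ _⟩
  · have := fd_PE E (Fintype.card ι * M - 1)
    have hinj : Function.Injective (tay80 M E t (Fintype.card ι * M - 1)) := by
      rw [← LinearMap.ker_eq_bot, LinearMap.ker_eq_bot']
      intro u hu
      apply Subtype.ext
      refine eq_zero80 ht M u.1 (fun i j hj => ?_) ?_
      · exact congrArg Subtype.val (congrFun hu (i, ⟨j, hj⟩))
      · exact u.2.2.trans_lt (by omega)
    have hsurj : Function.Surjective (tay80 M E t (Fintype.card ι * M - 1)) := by
      rw [← LinearMap.injective_iff_surjective_of_finrank_eq_finrank]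
      · exact hinj
      · rw [finrank_PE, Module.finrank_pi_fintype, Nat.sub_add_cancel h0]
        simp [mul_comm]
    intro f
    obtain ⟨u, hu⟩ := hsurj f
    exact ⟨⟨u.1, u.2.1, u.2.2.trans (by omega)⟩, hu⟩

include ht in
/-- equality for `e` large (Hermite interpolation) -/
theorem herm (e : ℕ) (he : Fintype.card ι * M ≤ e + 1) : finrank k E * (e + 1) + TT F M E =
    finrank k ↥(Lat t F M E ⊓ PE E e) + Fintype.card ι * M * finrank k E := by
  have := fd_PE E e
  rw [← ker80, ← finrank_PE, ← quot80 F M E]
  have hs : Function.Surjective (qmap80 F M E t e) := by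
    intro f
    choose g hg using fun p => Submodule.mkQ_surjective _ (f p)
    obtain ⟨u, hu⟩ := surj80 ht M E e he g
    refine ⟨u, ?_⟩
    funext p
    show ((F p.1 (M - p.2)).comap E.subtype).mkQ (tay80 M E t e u p) = f p
    rw [hu, hg]
  have h := (gen80 (V := PE E e) (Q80 F M E) (qmap80 F M E t e)).2 hs
  omega

omit [FiniteDimensional k E] [Fintype ι] in
private theorem X_mul80 (t : ι → k) (hF : ∀ i, Antitone (F i)) (u : K[X]) (hu : u ∈ Lat t F M E) : X * u ∈ Lat t F M E := by
  refine ⟨fun n => ?_, fun i j hj => ?_⟩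
  · rcases n with _ | n
    · rw [mul_coeff_zero, coeff_X_zero, zero_mul]; exact E.zero_mem
    · rw [coeff_X_mul]; exact hu.1 n
  · rw [taylor_mul, taylor_X, add_mul, coeff_add, coeff_C_mul, ← Algebra.smul_def]
    refine (F i (M - j)).add_mem ?_ ((F i (M - j)).smul_mem _ (hu.2 i j hj))
    rcases j with _ | j
    · rw [mul_coeff_zero, coeff_X_zero, zero_mul]; exact (F i _).zero_mem
    · rw [coeff_X_mul]
      exact hF i (by omega) (hu.2 i j (by omega))

omit [FiniteDimensional k E] [Fintype ι] in
/-- the lattice is stable under multiplication by polynomials with coefficients in `k` -/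
theorem her_Lat_X (t : ι → k) (hF : ∀ i, Antitone (F i)) (u : K[X]) (hu : u ∈ Lat t F M E) (p : k[X]) :
    p.map (algebraMap k K) * u ∈ Lat t F M E := by
  induction p using Polynomial.induction_on' with
  | add p q hp hq => rw [Polynomial.map_add, add_mul]; exact (Lat t F M E).add_mem hp hq
  | monomial n a =>
    have h : ∀ n : ℕ, X ^ n * u ∈ Lat t F M E := by
      intro n
      induction n with
      | zero => simpa using hu
      | succ n ih => rw [pow_succ', mul_assoc]; exact X_mul80 F M E t hF _ ih
    have e : (monomial n a).map (algebraMap k K) * u = a • (X ^ n * u) := by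
      rw [map_monomial, ← C_mul_X_pow_eq_monomial, mul_assoc, ← smul_eq_C_mul, algebraMap_smul]
    rw [e]
    exact (Lat t F M E).smul_mem a (h n)

/-- the linear map of the families of polynomials -/
private noncomputable def fam80 {n : ℕ} (z : Fin n → K[X]) (m : Fin n → ℕ) : (∀ a, degreeLT k (m a)) →ₗ[k] K[X] where
  toFun p := ∑ a, (p a : k[X]).map (algebraMap k K) * z a
  map_add' p q := by
    simp only [Pi.add_apply, Submodule.coe_add, Polynomial.map_add, add_mul, Finset.sum_add_distrib]
  map_smul' c p := by
    simp only [Pi.smul_apply, Submodule.coe_smul, RingHom.id_apply, Finset.smul_sum]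
    refine Finset.sum_congr rfl fun a _ => ?_
    rw [smul_eq_C_mul, Polynomial.map_mul, map_C, mul_assoc, ← smul_eq_C_mul, algebraMap_smul]

include ht in
theorem her (hF : ∀ i, Antitone (F i)) {n : ℕ} (hn : n = finrank k E) (z : Fin n → K[X]) (hz : PInd k z)
    (hzL : ∀ a, z a ∈ Lat t F M E) :
    Fintype.card ι * M * finrank k E ≤ ∑ a, (z a).natDegree + TT F M E := by
  set e := Fintype.card ι * M + ∑ a, (z a).natDegree with he
  have hze : ∀ a, (z a).natDegree ≤ e := fun a =>
    (Finset.single_le_sum (f := fun a => (z a).natDegree) (fun _ _ => Nat.zero_le _) (Finset.mem_univ a)).trans (by omega)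
  have h1 := herm ht F M E e (by omega)
  have := fd_PE E e
  have : FiniteDimensional k ↥(Lat t F M E ⊓ PE E e) := Submodule.finiteDimensional_of_le inf_le_right
  have hmem : ∀ p : (∀ a, degreeLT k (e + 1 - (z a).natDegree)), fam80 z (fun a => e + 1 - (z a).natDegree) p ∈ Lat t F M E ⊓ PE E e := by
    intro p
    show ∑ a, (p a : k[X]).map (algebraMap k K) * z a ∈ Lat t F M E ⊓ PE E e
    refine (Lat t F M E ⊓ PE E e).sum_mem fun a _ => ?_
    have h2 := her_Lat_X F M E t hF (z a) (hzL a) (p a : k[X])
    refine ⟨h2, h2.1, ?_⟩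
    refine natDegree_mul_le.trans ?_
    have h3 := (p a).2
    rw [mem_degreeLT] at h3
    have h4 : ((p a : k[X]).map (algebraMap k K)).natDegree ≤ (p a : k[X]).natDegree := natDegree_map_le
    have h5 : (p a : k[X]).natDegree < e + 1 - (z a).natDegree := by
      rcases eq_or_ne (p a : k[X]) 0 with h0 | h0
      · rw [h0, natDegree_zero]
        have := hze a
        omega
      · exact (natDegree_lt_iff_degree_lt h0).2 h3
    have := hze a
    omega
  have hinj : Function.Injective ((fam80 z (fun a => e + 1 - (z a).natDegree)).codRestrict _ hmem) := by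
    rw [← LinearMap.ker_eq_bot, LinearMap.ker_eq_bot']
    intro p hp
    have h2 := congrArg Subtype.val hp
    have h3 := hz (fun a => (p a : k[X])) h2
    funext a
    apply Subtype.ext
    exact congrFun h3 a
  have h2 := LinearMap.finrank_le_finrank_of_injective hinj
  rw [Module.finrank_pi_fintype] at h2
  have h3 : ∀ a, finrank k (degreeLT k (e + 1 - (z a).natDegree)) = e + 1 - (z a).natDegree := by
    intro a
    rw [(degreeLTEquiv k _).finrank_eq]
    simp
  rw [Finset.sum_congr rfl fun a _ => h3 a] at h2
  have h4 : ∑ a, (e + 1 - (z a).natDegree) + ∑ a, (z a).natDegree = n * (e + 1) := by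
    rw [← Finset.sum_add_distrib, Finset.sum_congr rfl fun a _ => Nat.sub_add_cancel ((hze a).trans (Nat.le_succ e))]
    simp
  have h5 : finrank k E * (e + 1) = n * (e + 1) := by rw [hn]
  omega

end

end

end Pool.Agent.SQ
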