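import Pool.Agent.Helper42.SQ.Defs

/-!
# SQ block LC: successive minima of a space of polynomials (dimension count by leading coefficients)
-/

set_option autoImplicit false

namespace Pool.Agent.SQ

open Module Polynomial

universe u

section

variable {k K : Type u} [Field k] [Field K] [Algebra k K]

private noncomputable abbrev al63 : Algebra k[X] K[X] := (mapRingHom (algebraMap k K)).toAlgebra

attribute [local instance] al63

private theorem smul63 (p : k[X]) (u : K[X]) : p • u = p.map (algebraMap k K) * u := rfl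

private theorem faith63 : FaithfulSMul k[X] (FractionRing K[X]) := by
  rw [faithfulSMul_iff_algebraMap_injective]
  have h : (algebraMap k[X] (FractionRing K[X]) : k[X] → FractionRing K[X]) =
      (algebraMap K[X] (FractionRing K[X])) ∘ (mapRingHom (algebraMap k K)) := rfl
  rw [h]
  exact (IsFractionRing.injective K[X] (FractionRing K[X])).comp
    (Polynomial.map_injective _ (algebraMap k K).injective)

attribute [local instance] faith63
attribute [local instance] FractionRing.liftAlgebra

private theorem pind63 {α : Type*} [Fintype α] (z : α → K[X]) :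
    PInd k z ↔ LinearIndependent (FractionRing k[X]) fun a => algebraMap K[X] (FractionRing K[X]) (z a) := by
  have h1 : PInd k z ↔ LinearIndependent k[X] z := by
    rw [Fintype.linearIndependent_iff]
    constructor
    · intro h g hg i
      exact congrFun (h g (by simpa [smul63] using hg)) i
    · intro h p hp
      funext i
      exact h p (by simpa [smul63] using hp) i
  have h2 : LinearIndependent k[X] z ↔
      LinearIndependent k[X] fun a => algebraMap K[X] (FractionRing K[X]) (z a) := by
    have h3 := LinearMap.linearIndependent_iff (v := z)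
      ((Algebra.linearMap K[X] (FractionRing K[X])).restrictScalars k[X])
      (LinearMap.ker_eq_bot.2 (IsFractionRing.injective K[X] (FractionRing K[X])))
    exact h3.symm
  rw [h1, h2]
  exact LinearIndependent.iff_fractionRing k[X] (FractionRing k[X])

/-- an independent family shorter than another one can be extended by a member of the other one -/
private theorem ext63 {m n : ℕ} (hmn : m < n) (z : Fin m → K[X]) (y : Fin n → K[X]) (hz : PInd k z) (hy : PInd k y) :
    ∃ j, PInd k (Fin.snoc z (y j) : Fin (m + 1) → K[X]) := by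
  rw [pind63] at hz hy
  set f := algebraMap K[X] (FractionRing K[X]) with hf
  have h1 : ∃ j, f (y j) ∉ Submodule.span (FractionRing k[X]) (Set.range fun a => f (z a)) := by
    by_contra hno
    push Not at hno
    have h2 : Submodule.span (FractionRing k[X]) (Set.range fun a => f (y a)) ≤
        Submodule.span (FractionRing k[X]) (Set.range fun a => f (z a)) := by
      rw [Submodule.span_le]
      rintro _ ⟨j, rfl⟩
      exact hno j
    have hfin : Module.Finite (FractionRing k[X])
        (Submodule.span (FractionRing k[X]) (Set.range fun a => f (z a))) :=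
      FiniteDimensional.span_of_finite _ (Set.finite_range _)
    have h3 := Submodule.finrank_mono h2
    rw [finrank_span_eq_card hz, finrank_span_eq_card hy] at h3
    simp at h3
    omega
  obtain ⟨j, hj⟩ := h1
  refine ⟨j, ?_⟩
  rw [pind63]
  have h4 : (fun a => f ((Fin.snoc z (y j) : Fin (m + 1) → K[X]) a)) =
      (Fin.snoc (fun a => f (z a)) (f (y j)) : Fin (m + 1) → FractionRing K[X]) := by
    funext a
    refine Fin.lastCases ?_ (fun i => ?_) a
    · simp
    · simp
  rw [h4, linearIndependent_finSnoc]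
  exact ⟨hz, hj⟩

/-- polynomials with coefficients in `E` : at most `dim E` are independent -/
private theorem pind_le63 (E : Submodule k K) [FiniteDimensional k E] {n : ℕ} (z : Fin n → K[X]) (hz : PInd k z)
    (hE : ∀ a m, (z a).coeff m ∈ E) : n ≤ finrank k E := by
  rw [pind63] at hz
  set f := algebraMap K[X] (FractionRing K[X]) with hf
  let b := Module.finBasis k E
  have h1 : ∀ u : K[X], (∀ m, u.coeff m ∈ E) →
      f u ∈ Submodule.span (FractionRing k[X]) (Set.range fun i => f (C (b i : K))) := by
    intro u hu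
    rw [u.as_sum_range_C_mul_X_pow, map_sum]
    refine Submodule.sum_mem _ fun m _ => ?_
    have h2 : ((⟨u.coeff m, hu m⟩ : E) : K) = ∑ i, b.repr ⟨u.coeff m, hu m⟩ i • (b i : K) := by
      have h3 := congrArg (Subtype.val) (b.sum_repr ⟨u.coeff m, hu m⟩)
      rw [Submodule.coe_sum] at h3
      exact h3.symm
    have h4 : u.coeff m = ∑ i, b.repr ⟨u.coeff m, hu m⟩ i • (b i : K) := h2
    rw [h4, map_sum, Finset.sum_mul, map_sum]
    refine Submodule.sum_mem _ fun i _ => ?_
    have h5 : C (b.repr ⟨u.coeff m, hu m⟩ i • (b i : K)) * X ^ m =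
        (C (b.repr ⟨u.coeff m, hu m⟩ i) * X ^ m : k[X]) • C (b i : K) := by
      rw [smul63]
      simp only [Algebra.smul_def, Polynomial.map_mul, Polynomial.map_pow, Polynomial.map_C, Polynomial.map_X,
        map_mul]
      ring
    rw [h5]
    have h6 : f ((C (b.repr ⟨u.coeff m, hu m⟩ i) * X ^ m : k[X]) • C (b i : K)) =
        (algebraMap k[X] (FractionRing k[X]) (C (b.repr ⟨u.coeff m, hu m⟩ i) * X ^ m)) • f (C (b i : K)) := by
      rw [algebraMap_smul]
      rw [Algebra.smul_def, Algebra.smul_def, map_mul]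
      rfl
    rw [h6]
    exact Submodule.smul_mem _ _ (Submodule.subset_span ⟨i, rfl⟩)
  have h7 : Submodule.span (FractionRing k[X]) (Set.range fun a => f (z a)) ≤
      Submodule.span (FractionRing k[X]) (Set.range fun i => f (C (b i : K))) := by
    rw [Submodule.span_le]
    rintro _ ⟨a, rfl⟩
    exact h1 _ (hE a)
  have hfin : Module.Finite (FractionRing k[X])
      (Submodule.span (FractionRing k[X]) (Set.range fun i => f (C (b i : K)))) :=
    FiniteDimensional.span_of_finite _ (Set.finite_range _)
  have h8 := Submodule.finrank_mono h7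
  rw [finrank_span_eq_card hz] at h8
  have h9 := finrank_range_le_card (R := FractionRing k[X]) (fun i => f (C (b i : K)))
  rw [Set.finrank] at h9
  simp at h8 h9
  omega

private theorem bdd63 (E : Submodule k K) [FiniteDimensional k E] (S : Set K[X]) (hS : ∀ u ∈ S, ∀ m, u.coeff m ∈ E) :
    BddAbove {n | ∃ z : Fin n → K[X], (∀ a, z a ∈ S) ∧ PInd k z} := by
  refine ⟨finrank k E, ?_⟩
  rintro n ⟨z, hz, hp⟩
  exact pind_le63 E z hp fun a m => hS _ (hz a) m

private theorem le_rk63 (E : Submodule k K) [FiniteDimensional k E] (S : Set K[X]) (hS : ∀ u ∈ S, ∀ m, u.coeff m ∈ E)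
    {n : ℕ} (z : Fin n → K[X]) (hz : PInd k z) (h : ∀ a, z a ∈ S) : n ≤ rk k S :=
  le_csSup (bdd63 E S hS) ⟨z, h, hz⟩

private theorem exists_rk63 (E : Submodule k K) [FiniteDimensional k E] (S : Set K[X])
    (hS : ∀ u ∈ S, ∀ m, u.coeff m ∈ E) : ∃ z : Fin (rk k S) → K[X], (∀ a, z a ∈ S) ∧ PInd k z := by
  have h : rk k S ∈ {n | ∃ z : Fin n → K[X], (∀ a, z a ∈ S) ∧ PInd k z} := by
    refine Nat.sSup_mem ⟨0, Fin.elim0, fun a => a.elim0, fun p _ => ?_⟩ (bdd63 E S hS)
    funext a
    exact a.elim0
  exact h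

private theorem app_snoc63 {α : Type*} {m d : ℕ} (z : Fin m → α) (w : Fin d → α) (x : α) :
    (Fin.append z (Fin.snoc w x : Fin (d + 1) → α) : Fin (m + (d + 1)) → α) =
      (Fin.snoc (Fin.append z w) x : Fin (m + d + 1) → α) := by
  funext a
  refine Fin.addCases (fun i => ?_) (fun i => ?_) a
  · rw [Fin.append_left]
    have h : Fin.castAdd (d + 1) i = Fin.castSucc (Fin.castAdd d i) := rfl
    rw [h, Fin.snoc_castSucc, Fin.append_left]
  · rw [Fin.append_right]
    refine Fin.lastCases ?_ (fun i => ?_) i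
    · have h : Fin.natAdd m (Fin.last d) = Fin.last (m + d) := rfl
      rw [h, Fin.snoc_last, Fin.snoc_last]
    · have h : Fin.natAdd m (Fin.castSucc i) = Fin.castSucc (Fin.natAdd m i) := rfl
      rw [h, Fin.snoc_castSucc, Fin.snoc_castSucc, Fin.append_right]

/-- extension to a family of maximal size by members of a larger set -/
private theorem extend63 {m : ℕ} : ∀ (d : ℕ) (z : Fin m → K[X]) (y : Fin (m + d) → K[X]) (_ : PInd k z) (_ : PInd k y),
    ∃ w : Fin d → K[X], (∀ i, ∃ j, w i = y j) ∧ PInd k (Fin.append z w) := by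
  intro d
  induction d with
  | zero =>
    intro z y hz hy
    refine ⟨Fin.elim0, fun i => i.elim0, ?_⟩
    simpa using hz
  | succ d ih =>
    intro z y hz hy
    obtain ⟨w, hw, hzw⟩ := ih z (fun j => y (Fin.castSucc j)) hz (by
      rw [pind63] at hy ⊢
      exact hy.comp _ (Fin.castSucc_injective _))
    obtain ⟨j, hj⟩ := ext63 (m := m + d) (n := m + (d + 1)) (by omega) (Fin.append z w) y hzw hy
    refine ⟨Fin.snoc w (y j), fun i => ?_, ?_⟩
    · refine Fin.lastCases ?_ (fun i => ?_) i
      · exact ⟨j, by simp⟩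
      · obtain ⟨j', hj'⟩ := hw i
        exact ⟨_, by simpa using hj'⟩
    · rw [app_snoc63]
      exact hj

private theorem fd_PE63 (E : Submodule k K) [FiniteDimensional k E] (e : ℕ) : FiniteDimensional k (PE E e) := by
  let L : PE E e →ₗ[k] (Fin (e + 1) → E) :=
    { toFun := fun u i => ⟨(u : K[X]).coeff i, u.2.1 i⟩
      map_add' := by intro u v; funext i; ext; simp
      map_smul' := by intro c u; funext i; ext; simp }
  refine Module.Finite.of_injective L ?_
  intro u v h
  ext n
  by_cases hn : n ≤ e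
  · have h1 := congrArg Subtype.val (congrFun h ⟨n, by omega⟩)
    exact h1
  · push Not at hn
    rw [coeff_eq_zero_of_natDegree_lt (lt_of_le_of_lt u.2.2 hn), coeff_eq_zero_of_natDegree_lt (lt_of_le_of_lt v.2.2 hn)]

/-- independent leading coefficients -/
private theorem pind_lead63 {n e : ℕ} (u : Fin n → K[X]) (hu : ∀ i, (u i).natDegree ≤ e)
    (h : LinearIndependent k fun i => (u i).coeff e) : PInd k u := by
  intro p hp
  by_contra hne
  have hex : ∃ i, p i ≠ 0 := by
    by_contra hno
    push Not at hno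
    exact hne (funext hno)
  obtain ⟨i₀, hi₀⟩ := hex
  set D := Finset.univ.sup fun i => (p i).natDegree with hD
  have hle : ∀ i, (p i).natDegree ≤ D := fun i => Finset.le_sup (f := fun i => (p i).natDegree) (Finset.mem_univ i)
  have hcoef : ∀ D', (∀ i, (p i).natDegree ≤ D') → ∀ i, (p i).coeff D' = 0 := by
    intro D' hD' i
    have h1 := congrArg (fun q : K[X] => q.coeff (D' + e)) hp
    simp only [coeff_zero, finsetSum_coeff] at h1
    have h2 : ∀ j, ((p j).map (algebraMap k K) * u j).coeff (D' + e) = (p j).coeff D' • (u j).coeff e := by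
      intro j
      rw [coeff_mul_add_eq_of_natDegree_le ((natDegree_map_le).trans (hD' j)) (hu j), coeff_map, Algebra.smul_def]
    simp only [h2] at h1
    exact (Fintype.linearIndependent_iff.1 h) _ h1 i
  obtain ⟨i₁, _, hi₁⟩ : ∃ i ∈ Finset.univ, (p i).natDegree = D := by
    obtain ⟨i, hi, h⟩ := Finset.exists_mem_eq_sup Finset.univ ⟨i₀, Finset.mem_univ _⟩ fun i => (p i).natDegree
    exact ⟨i, hi, h.symm⟩
  have h3 : p i₁ = 0 := by
    have := hcoef D hle i₁
    rw [← hi₁] at this
    exact leadingCoeff_eq_zero.1 this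
  rw [h3, natDegree_zero] at hi₁
  have h4 : (p i₀).natDegree = 0 := Nat.le_zero.1 ((hle i₀).trans hi₁.symm.le)
  have h5 := hcoef D hle i₀
  rw [← hi₁, ← h4] at h5
  exact hi₀ (leadingCoeff_eq_zero.1 h5)

/-- the leading coefficients -/
private theorem lead63 (E : Submodule k K) [FiniteDimensional k E] (W : Submodule k K[X])
    (hE : ∀ u ∈ W, ∀ n, u.coeff n ∈ E) (e : ℕ) (W' : Submodule k K[X]) (hW' : ∀ u ∈ W ⊓ PE E e, u.coeff e = 0 → u ∈ W')
    (hfd : FiniteDimensional k W') :
    finrank k ↥(W ⊓ PE E e) ≤ rk k ((W ⊓ PE E e : Submodule k K[X]) : Set K[X]) + finrank k W' := by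
  have := fd_PE63 E e
  have : FiniteDimensional k ↥(W ⊓ PE E e) := Submodule.finiteDimensional_inf_right W (PE E e)
  let L : ↥(W ⊓ PE E e) →ₗ[k] K := (Polynomial.lcoeff K e).restrictScalars k ∘ₗ (W ⊓ PE E e).subtype
  have h1 := LinearMap.finrank_range_add_finrank_ker L
  have h2 : finrank k (LinearMap.ker L) ≤ finrank k W' := by
    let M : LinearMap.ker L →ₗ[k] W' :=
      { toFun := fun u => ⟨((u : ↥(W ⊓ PE E e)) : K[X]), hW' _ (u : ↥(W ⊓ PE E e)).2 u.2⟩
        map_add' := by intro u v; rfl
        map_smul' := by intro c u; rfl }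
    refine LinearMap.finrank_le_finrank_of_injective (f := M) ?_
    intro u v h
    apply Subtype.ext
    apply Subtype.ext
    exact congrArg (fun w : W' => (w : K[X])) h
  have h3 : finrank k (LinearMap.range L) ≤ rk k ((W ⊓ PE E e : Submodule k K[X]) : Set K[X]) := by
    let b := Module.finBasis k (LinearMap.range L)
    have hb : ∀ i, ∃ u : ↥(W ⊓ PE E e), L u = (b i : K) := fun i => (b i).2
    choose u hu using hb
    refine le_rk63 E _ (fun v hv => hE v hv.1) (fun i => (u i : K[X])) ?_ fun i => (u i).2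
    refine pind_lead63 _ (fun i => (u i).2.2.2) ?_
    have h4 : (fun i => ((u i : ↥(W ⊓ PE E e)) : K[X]).coeff e) = fun i => ((b i : LinearMap.range L) : K) := by
      funext i
      exact hu i
    rw [h4]
    exact b.linearIndependent.map' (LinearMap.range L).subtype (Submodule.ker_subtype _)
  omega

theorem lc (E : Submodule k K) [FiniteDimensional k E] (W : Submodule k K[X]) (hX : ∀ u ∈ W, X * u ∈ W)
    (hE : ∀ u ∈ W, ∀ n, u.coeff n ∈ E) (e : ℕ) :
    ∃ z : Fin (rk k ((W ⊓ PE E e : Submodule k K[X]) : Set K[X])) → K[X], (∀ a, z a ∈ W ∧ (z a).natDegree ≤ e) ∧ PInd k z ∧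
      finrank k ↥(W ⊓ PE E e) + ∑ a, (z a).natDegree ≤ rk k ((W ⊓ PE E e : Submodule k K[X]) : Set K[X]) * (e + 1) := by
  clear hX
  induction e with
  | zero =>
    obtain ⟨z, hz, hzp⟩ := exists_rk63 E ((W ⊓ PE E 0 : Submodule k K[X]) : Set K[X]) fun u hu => hE u hu.1
    refine ⟨z, fun a => ⟨(hz a).1, (hz a).2.2⟩, hzp, ?_⟩
    have h1 : ∑ a, (z a).natDegree = 0 := Finset.sum_eq_zero fun a _ => Nat.le_zero.1 (hz a).2.2
    have h2 := lead63 E W hE 0 ⊥ (by
      intro u hu h0
      rw [Submodule.mem_bot, eq_C_of_natDegree_le_zero hu.2.2, h0, C_0]) inferInstance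
    rw [finrank_bot] at h2
    omega
  | succ e ih =>
    obtain ⟨z, hz, hzp, hsum⟩ := ih
    obtain ⟨y, hy, hyp⟩ := exists_rk63 E ((W ⊓ PE E (e + 1) : Submodule k K[X]) : Set K[X]) fun u hu => hE u hu.1
    have := fd_PE63 E e
    have hfd : FiniteDimensional k ↥(W ⊓ PE E e) := Submodule.finiteDimensional_inf_right W (PE E e)
    have h2 := lead63 E W hE (e + 1) (W ⊓ PE E e) (by
      intro u hu h0
      refine ⟨hu.1, hu.2.1, ?_⟩
      by_contra hlt
      push Not at hlt
      have h3 : u.natDegree = e + 1 := le_antisymm hu.2.2 hlt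
      have h4 : u.leadingCoeff = 0 := by rw [leadingCoeff, h3]; exact h0
      rw [leadingCoeff_eq_zero] at h4
      rw [h4, natDegree_zero] at h3
      omega) hfd
    have h3 : rk k ((W ⊓ PE E e : Submodule k K[X]) : Set K[X]) ≤
        rk k ((W ⊓ PE E (e + 1) : Submodule k K[X]) : Set K[X]) :=
      le_rk63 E _ (fun u hu => hE u hu.1) z hzp fun a =>
        ⟨(hz a).1, fun n => hE _ (hz a).1 n, (hz a).2.trans (Nat.le_succ e)⟩
    obtain ⟨d, hd⟩ := Nat.exists_eq_add_of_le h3
    generalize rk k ((W ⊓ PE E e : Submodule k K[X]) : Set K[X]) = r at *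
    generalize rk k ((W ⊓ PE E (e + 1) : Submodule k K[X]) : Set K[X]) = r' at *
    subst hd
    obtain ⟨w, hw, hzw⟩ := extend63 d z y hzp hyp
    have hw1 : ∀ i, w i ∈ W ∧ (w i).natDegree ≤ e + 1 := by
      intro i
      obtain ⟨j, hj⟩ := hw i
      rw [hj]
      exact ⟨(hy j).1, (hy j).2.2⟩
    refine ⟨Fin.append z w, fun a => ?_, hzw, ?_⟩
    · refine Fin.addCases (fun i => ?_) (fun i => ?_) a
      · rw [Fin.append_left]
        exact ⟨(hz i).1, (hz i).2.trans (Nat.le_succ e)⟩
      · rw [Fin.append_right]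
        exact hw1 i
    · rw [Fin.sum_univ_add]
      simp only [Fin.append_left, Fin.append_right]
      have h5 : ∑ i, (w i).natDegree ≤ d * (e + 1) := by
        calc ∑ i, (w i).natDegree ≤ ∑ _i : Fin d, (e + 1) := Finset.sum_le_sum fun i _ => (hw1 i).2
          _ = d * (e + 1) := by simp
      nlinarith

end

end Pool.Agent.SQ
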