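import Pool.Agent.Helper42.SQ.EX
import Pool.Agent.Helper42.SQ.LC
import Pool.Agent.Helper42.SQ.DER
import Pool.Agent.Helper42.SQ.HER

/-!
# SQ, block BAL: a semistable family of weighted flags has a balanced basis
-/

set_option autoImplicit false

namespace Pool.Agent.SQ

open Module Polynomial

universe u

section

variable {k K : Type u} [Field k] [Field K] [Algebra k K]

/-! ### The lattice -/

private theorem taylor_map32 (t : k) (p : k[X]) :
    taylor (algebraMap k K t) (p.map (algebraMap k K)) = (taylor t p).map (algebraMap k K) := by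
  rw [taylor_apply, taylor_apply, Polynomial.map_comp]
  simp

/-- the coefficients of a product with a polynomial over `k` -/
private theorem coeff_mul32 (E : Submodule k K) (p : k[X]) (v : K[X]) (n : ℕ) (h : ∀ l ≤ n, v.coeff l ∈ E) :
    (p.map (algebraMap k K) * v).coeff n ∈ E := by
  rw [coeff_mul]
  refine E.sum_mem fun x hx => ?_
  rw [coeff_map, ← Algebra.smul_def]
  refine E.smul_mem _ (h _ ?_)
  have := Finset.HasAntidiagonal.mem_antidiagonal.1 hx
  omega

/-- the condition at one point is stable under the multiplication with polynomials over `k` -/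
private theorem pt_mul32 (t : k) (F : ℕ → Submodule k K) (hF : Antitone F) (M : ℕ) (u : K[X])
    (hu : ∀ j < M, (taylor (algebraMap k K t) u).coeff j ∈ F (M - j)) (p : k[X]) :
    ∀ j < M, (taylor (algebraMap k K t) (p.map (algebraMap k K) * u)).coeff j ∈ F (M - j) := by
  intro j hj
  rw [taylor_mul, taylor_map32]
  refine coeff_mul32 _ _ _ _ fun l hl => ?_
  exact hF (by omega) (hu l (by omega))

theorem Lat_X {ι : Type*} (t : ι → k) (F : ι → ℕ → Submodule k K) (hF : ∀ i, Antitone (F i)) (M : ℕ) (E : Submodule k K)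
    (u : K[X]) (hu : u ∈ Lat t F M E) (p : k[X]) : p.map (algebraMap k K) * u ∈ Lat t F M E :=
  ⟨fun n => coeff_mul32 E p u n fun l _ => hu.1 l, fun i => pt_mul32 (t i) (F i) (hF i) M u (hu.2 i) p⟩

private theorem der_coeff32 (E : Submodule k K) (u : K[X]) (n : ℕ) (h : u.coeff (n + 1) ∈ E) :
    (derivative u).coeff n ∈ E := by
  rw [coeff_derivative, show u.coeff (n + 1) * ((n : K) + 1) = ((n + 1 : ℕ) : k) • u.coeff (n + 1) by
    rw [Algebra.smul_def, map_natCast]
    push_cast
    ring]
  exact E.smul_mem _ h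

theorem Lat_der {ι : Type*} [Fintype ι] (t : ι → k) (F : ι → ℕ → Submodule k K) (hF : ∀ i, Antitone (F i)) (M : ℕ)
    (E : Submodule k K) (u : K[X]) (hu : u ∈ Lat t F M E) :
    (∏ i, (X - C (t i))).map (algebraMap k K) * derivative u ∈ Lat t F M E := by
  classical
  refine ⟨fun n => coeff_mul32 E _ _ n fun l _ => der_coeff32 E u l (hu.1 _), fun i => ?_⟩
  have e : (∏ i, (X - C (t i))).map (algebraMap k K) * derivative u =
      (∏ l ∈ Finset.univ.erase i, (X - C (t l))).map (algebraMap k K) *
        ((X - C (algebraMap k K (t i))) * derivative u) := by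
    rw [← Finset.mul_prod_erase Finset.univ _ (Finset.mem_univ i), Polynomial.map_mul]
    simp only [Polynomial.map_sub, map_X, map_C]
    ring
  rw [e]
  refine pt_mul32 (t i) (F i) (hF i) M _ ?_ _
  intro j hj
  have e2 : taylor (algebraMap k K (t i)) (derivative u) = derivative (taylor (algebraMap k K (t i)) u) := by
    rw [taylor_apply, taylor_apply, derivative_comp]
    simp
  have e1 : taylor (algebraMap k K (t i)) (X - C (algebraMap k K (t i))) = X := by
    rw [map_sub, taylor_X, taylor_C]
    ring
  rw [taylor_mul, e1, e2]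
  rcases j with _ | j
  · rw [mul_coeff_zero, coeff_X_zero, zero_mul]
    exact (F i _).zero_mem
  · rw [coeff_X_mul]
    exact der_coeff32 _ _ _ (hu.2 i (j + 1) hj)

/-! ### The balanced basis -/

private theorem map_X32 : (X : k[X]).map (algebraMap k K) = X := map_X _

/-- the total weight is at most `card * M * dim E` -/
private theorem TT_le32 {ι : Type*} [Fintype ι] (F : ι → ℕ → Submodule k K) (M : ℕ) (E : Submodule k K)
    [FiniteDimensional k E] : TT F M E ≤ Fintype.card ι * M * finrank k E := by
  unfold TT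
  calc ∑ i, ∑ j ∈ Finset.Icc 1 M, finrank k ↥(E ⊓ F i j) ≤ ∑ _i : ι, ∑ _j ∈ Finset.Icc 1 M, finrank k E :=
        Finset.sum_le_sum fun i _ => Finset.sum_le_sum fun j _ => Submodule.finrank_mono inf_le_left
    _ = Fintype.card ι * M * finrank k E := by
      rw [Finset.sum_const, Finset.sum_const, Finset.card_univ, Nat.card_Icc]
      simp [mul_assoc]

private theorem dep_div32 {α : Type*} [Fintype α] {z : α → K[X]} {q : k[X]} (hq : q ≠ 0) {y : K[X]}
    (h : Dep k z (q.map (algebraMap k K) * y)) : Dep k z y := by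
  obtain ⟨p, c, hp, e⟩ := h
  exact ⟨p * q, c, mul_ne_zero hp hq, by rw [Polynomial.map_mul, mul_assoc, e]⟩

section

variable {ι : Type*} [Fintype ι] {t : ι → k} (F : ι → ℕ → Submodule k K) (M : ℕ) (E : Submodule k K)

omit [Fintype ι] in
private theorem inf_coeff32 (e : ℕ) : ∀ u ∈ ((Lat t F M E ⊓ PE E e : Submodule k K[X]) : Set K[X]), ∀ m, u.coeff m ∈ E :=
  fun _ hu => hu.1.1

/-- two equal ranks: the rank is full -/
private theorem key32 [CharZero k] (ht : Function.Injective t) (hF : ∀ i, Antitone (F i)) [FiniteDimensional k E]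
    (hss : ∀ E' ≤ E, finrank k E * TT F M E' ≤ TT F M E * finrank k E') (e : ℕ)
    (he : Fintype.card ι * M * finrank k E < finrank k E * (e + 1) + TT F M E)
    (hr : rk k ((Lat t F M E ⊓ PE E (e + Fintype.card ι) : Submodule k K[X]) : Set K[X]) ≤
      rk k ((Lat t F M E ⊓ PE E e : Submodule k K[X]) : Set K[X])) :
    finrank k E ≤ rk k ((Lat t F M E ⊓ PE E e : Submodule k K[X]) : Set K[X]) := by
  classical
  obtain ⟨z, hz, hzi, hzf⟩ := lc E (Lat t F M E) (fun u hu => by
    have := Lat_X t F hF M E u hu X
    rwa [map_X] at this) (fun u hu => hu.1) e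
  have hlow := low F M E t e
  -- the derivatives depend on `z`
  have hprod : (∏ i, (X - C (t i)) : k[X]) ≠ 0 := Finset.prod_ne_zero_iff.2 fun i _ => X_sub_C_ne_zero _
  have hdeg : ((∏ i, (X - C (t i)) : k[X]).map (algebraMap k K)).natDegree = Fintype.card ι := by
    rw [natDegree_map, natDegree_prod _ _ fun i _ => X_sub_C_ne_zero _]
    simp
  have hd : ∀ a, Dep k z (derivative (z a)) := by
    intro a
    have h1 := Lat_der t F hF M E (z a) (hz a).1
    refine dep_div32 hprod (dep_of_rk E _ (inf_coeff32 F M E (e + Fintype.card ι)) hr z hzi (fun b => ?_) ?_)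
    · exact ⟨(hz b).1, (hz b).1.1, (hz b).2.trans (Nat.le_add_right _ _)⟩
    · refine ⟨h1, h1.1, natDegree_mul_le.trans ?_⟩
      rw [hdeg, add_comm]
      exact Nat.add_le_add_right ((natDegree_derivative_le _).trans ((Nat.sub_le _ _).trans (hz a).2)) _
  obtain ⟨E', hE', hfr, hco⟩ := der E z hzi (fun a => (hz a).1.1) hd
  have : FiniteDimensional k E' := Submodule.finiteDimensional_of_le hE'
  have hher := her ht F M E' hF hfr.symm z hzi fun a => ⟨hco a, (hz a).1.2⟩
  have hss' := hss E' hE'
  rw [hfr] at hher hss'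
  generalize rk k ((Lat t F M E ⊓ PE E e : Submodule k K[X]) : Set K[X]) = ρ at *
  generalize finrank k ↥(Lat t F M E ⊓ PE E e) = Dm at *
  generalize TT F M E' = T' at *
  generalize TT F M E = T at *
  generalize finrank k E = r at *
  generalize Fintype.card ι * M = cM at *
  generalize ∑ a, (z a).natDegree = S at *
  by_contra hlt
  push Not at hlt
  zify at hlow hzf hher hss' he hlt
  nlinarith [mul_pos (sub_pos.2 hlt) (sub_pos.2 he)]

omit [Fintype ι] in
/-- the ranks grow -/
private theorem grow32 [FiniteDimensional k E] {e e' : ℕ} (h : e ≤ e') :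
    rk k ((Lat t F M E ⊓ PE E e : Submodule k K[X]) : Set K[X]) ≤
      rk k ((Lat t F M E ⊓ PE E e' : Submodule k K[X]) : Set K[X]) := by
  obtain ⟨z, hz, hi⟩ := exists_rk E _ (inf_coeff32 (t := t) F M E e)
  exact le_rk E _ (inf_coeff32 F M E e') z hi fun a => ⟨(hz a).1, (hz a).2.1, (hz a).2.2.trans h⟩

end

theorem bal [CharZero k] {ι : Type*} [Fintype ι] {t : ι → k} (ht : Function.Injective t) (F : ι → ℕ → Submodule k K)
    (hF : ∀ i, Antitone (F i)) (M : ℕ) (E : Submodule k K) [FiniteDimensional k E] (hE : E ≠ ⊥)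
    (hss : ∀ E' ≤ E, finrank k E * TT F M E' ≤ TT F M E * finrank k E') :
    ∃ u : Fin (finrank k E) → K[X], PInd k u ∧ (∀ a, u a ∈ Lat t F M E) ∧
      ∀ a, finrank k E * (u a).natDegree + TT F M E ≤
        finrank k E * (Fintype.card ι * M + finrank k E * Fintype.card ι + 1) := by
  have hr0 : 0 < finrank k E := by
    rw [Nat.pos_iff_ne_zero]
    intro h0
    exact hE (Submodule.finrank_eq_zero.1 h0)
  have hT := TT_le32 F M E
  -- the least admissible degree
  obtain ⟨e0, he0, he1⟩ : ∃ e0 : ℕ, Fintype.card ι * M * finrank k E ≤ finrank k E * e0 + TT F M E ∧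
      finrank k E * e0 + TT F M E ≤ Fintype.card ι * M * finrank k E + finrank k E := by
    refine ⟨(Fintype.card ι * M * finrank k E - TT F M E + finrank k E - 1) / finrank k E, ?_, ?_⟩
    · have h1 := Nat.lt_mul_div_succ (Fintype.card ι * M * finrank k E - TT F M E + finrank k E - 1) hr0
      rw [mul_add, mul_one] at h1
      omega
    · have h1 := Nat.mul_div_le (Fintype.card ι * M * finrank k E - TT F M E + finrank k E - 1) (finrank k E)
      omega
  -- a degree with full rank
  obtain ⟨s, hs, hfull⟩ : ∃ s ≤ finrank k E, finrank k E ≤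
      rk k ((Lat t F M E ⊓ PE E (e0 + s * Fintype.card ι) : Submodule k K[X]) : Set K[X]) := by
    by_contra hcon
    push Not at hcon
    have key : ∀ s ≤ finrank k E,
        s ≤ rk k ((Lat t F M E ⊓ PE E (e0 + s * Fintype.card ι) : Submodule k K[X]) : Set K[X]) := by
      intro s
      induction s with
      | zero => exact fun _ => Nat.zero_le _
      | succ s ih =>
        intro hs
        have h1 := ih (by omega)
        have h2 := hcon s (by omega)
        by_contra hlt
        push Not at hlt
        refine absurd (key32 F M E ht hF hss (e0 + s * Fintype.card ι) ?_ ?_) (not_le.2 h2)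
        · have : finrank k E * e0 ≤ finrank k E * (e0 + s * Fintype.card ι) :=
            Nat.mul_le_mul_left _ (Nat.le_add_right _ _)
          rw [mul_add, mul_one]
          omega
        · rw [show e0 + s * Fintype.card ι + Fintype.card ι = e0 + (s + 1) * Fintype.card ι by ring]
          omega
    exact absurd (key _ le_rfl) (not_le.2 (hcon _ le_rfl))
  obtain ⟨z, hz, hi⟩ := exists_rk E _ (inf_coeff32 (t := t) F M E (e0 + s * Fintype.card ι))
  have hle := rk_le E _ (inf_coeff32 (t := t) F M E (e0 + s * Fintype.card ι))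
  have heq : rk k ((Lat t F M E ⊓ PE E (e0 + s * Fintype.card ι) : Submodule k K[X]) : Set K[X]) = finrank k E :=
    le_antisymm hle hfull
  rw [← heq]
  refine ⟨z, hi, fun a => (hz a).1, fun a => ?_⟩
  rw [heq]
  have h1 : (z a).natDegree ≤ e0 + s * Fintype.card ι := (hz a).2.2
  have h2 : finrank k E * (z a).natDegree ≤ finrank k E * e0 + finrank k E * (finrank k E * Fintype.card ι) := by
    rw [← mul_add]
    exact Nat.mul_le_mul_left _ (h1.trans (Nat.add_le_add_left (Nat.mul_le_mul_right _ hs) _))
  calc finrank k E * (z a).natDegree + TT F M E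
      ≤ (finrank k E * e0 + TT F M E) + finrank k E * (finrank k E * Fintype.card ι) := by omega
    _ ≤ (Fintype.card ι * M * finrank k E + finrank k E) + finrank k E * (finrank k E * Fintype.card ι) := by omega
    _ = finrank k E * (Fintype.card ι * M + finrank k E * Fintype.card ι + 1) := by ring

end

end Pool.Agent.SQ
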