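import Pool.Agent.Helper42.SQ.GR
import Pool.Agent.Helper42.SQ.BMG

/-!
# SQ, block BM: the inequality of Brunn and Minkowski (induction on the number of variables)
-/

set_option autoImplicit false

namespace Pool.Agent.SQ

open Module

universe u

/-- the start of the induction -/
theorem bm_zero89 {k K : Type*} [Field k] [Field K] [Algebra k K] [FiniteDimensional k K] (A B : Submodule k K) :
    BMAt 0 (⊤ : Submodule k K) A B := by
  unfold BMAt
  rw [pow_zero, one_mul]
  by_cases hA : A = ⊥
  · rw [hA, finrank_bot, Nat.cast_zero, zero_mul, Real.sqrt_zero]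
    exact Nat.cast_nonneg _
  by_cases hB : B = ⊥
  · rw [hB, finrank_bot, Nat.cast_zero, mul_zero, Real.sqrt_zero]
    exact Nat.cast_nonneg _
  obtain ⟨a, ha, ha0⟩ := Submodule.exists_mem_ne_zero_of_ne_bot hA
  obtain ⟨b, hb, hb0⟩ := Submodule.exists_mem_ne_zero_of_ne_bot hB
  have htop : A * B * (⊤ : Submodule k K) = ⊤ := by
    rw [eq_top_iff]
    intro z _
    have h2 : z = a * b * ((a * b)⁻¹ * z) := by
      rw [← mul_assoc, mul_inv_cancel₀ (mul_ne_zero ha0 hb0), one_mul]
    rw [h2]
    exact Submodule.mul_mem_mul (Submodule.mul_mem_mul ha hb) Submodule.mem_top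
  rw [htop, finrank_top]
  have h1 : (finrank k A : ℝ) * finrank k B ≤ (finrank k K : ℝ) * finrank k K := by
    have hA' : (finrank k A : ℝ) ≤ finrank k K := by exact_mod_cast Submodule.finrank_le A
    have hB' : (finrank k B : ℝ) ≤ finrank k K := by exact_mod_cast Submodule.finrank_le B
    exact mul_le_mul hA' hB' (Nat.cast_nonneg _) (Nat.cast_nonneg _)
  calc √((finrank k A : ℝ) * finrank k B) ≤ √((finrank k K : ℝ) * finrank k K) := Real.sqrt_le_sqrt h1
    _ = finrank k K := Real.sqrt_mul_self (Nat.cast_nonneg _)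

/-- **BLOCK BM** -/
theorem bm (w : ℕ) {k K : Type u} [Field k] [CharZero k] [Field K] [Algebra k K] (h : FinOver w k K) :
    ∃ Q : Submodule k K, FiniteDimensional k Q ∧
      ∀ A B : Submodule k K, FiniteDimensional k A → FiniteDimensional k B → BMAt w Q A B := by
  induction w generalizing K with
  | zero =>
    have := finite_of_finOver5 h
    exact ⟨⊤, inferInstance, fun A B _ _ => bm_zero89 A B⟩
  | succ w ih =>
    obtain ⟨κ, _, _, hκ, ⟨D⟩⟩ := exists_dv w h
    obtain ⟨Q', hQ', hbm⟩ := ih hκ
    exact bm_step w D Q' hbm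

end Pool.Agent.SQ
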