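import Pool.Agent.Helper42.SQ.Defs

/-!
# SQ block GRW: the growth of the powers of a finite dimensional subspace
-/

set_option autoImplicit false

namespace Pool.Agent.SQ

open Module

universe u

/-- the exponents with all entries at most `n` -/
private noncomputable def grwM (w n : ℕ) : Finset (Fin w →₀ ℕ) :=
  (Fintype.piFinset fun _ : Fin w => Finset.range (n + 1)).image Finsupp.equivFunOnFinite.symm

private theorem grw_card (w n : ℕ) : (grwM w n).card ≤ (n + 1) ^ w := by
  refine Finset.card_image_le.trans ?_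
  rw [Fintype.card_piFinset]
  simp

private theorem grw_mem {w n : ℕ} (s : Fin w →₀ ℕ) : s ∈ grwM w n ↔ ∀ i, s i ≤ n := by
  unfold grwM
  rw [Finset.mem_image]
  constructor
  · rintro ⟨f, hf, rfl⟩ i
    rw [Fintype.mem_piFinset] at hf
    have := Finset.mem_range.1 (hf i)
    simp only [Finsupp.equivFunOnFinite_symm_apply_apply]
    omega
  · intro h
    refine ⟨Finsupp.equivFunOnFinite s, ?_, by simp⟩
    rw [Fintype.mem_piFinset]
    intro i
    rw [Finset.mem_range]
    have := h i
    simp only [Finsupp.equivFunOnFinite_apply]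
    omega

section

variable {k K : Type u} [Field k] [Field K] [Algebra k K] {w : ℕ} (ψ : MvPolynomial (Fin w) k →ₐ[k] K)
  (B : Finset K)

/-- the combinations of the elements of `B` with coefficients of degree at most `n` in each variable -/
private noncomputable def grwT (n : ℕ) : Submodule k K := by
  classical
  exact Submodule.span k (((grwM w n ×ˢ B).image fun p => ψ (MvPolynomial.monomial p.1 1) * p.2 : Finset K) : Set K)

private theorem grwT_finrank (n : ℕ) : finrank k (grwT ψ B n) ≤ (n + 1) ^ w * B.card := by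
  classical
  unfold grwT
  refine (finrank_span_finset_le_card _).trans (Finset.card_image_le.trans ?_)
  rw [Finset.card_product]
  exact Nat.mul_le_mul_right _ (grw_card w n)

private theorem grwT_fd (n : ℕ) : FiniteDimensional k (grwT ψ B n) := by
  classical
  unfold grwT
  exact FiniteDimensional.span_finset k _

private theorem grwT_mem {n : ℕ} (g : MvPolynomial (Fin w) k) (hg : ∀ i, MvPolynomial.degreeOf i g ≤ n) {b : K}
    (hb : b ∈ B) : ψ g * b ∈ grwT ψ B n := by
  classical
  rw [MvPolynomial.as_sum g, map_sum, Finset.sum_mul]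
  refine Submodule.sum_mem _ fun s hs => ?_
  have h1 : MvPolynomial.monomial s (MvPolynomial.coeff s g) =
      MvPolynomial.coeff s g • (MvPolynomial.monomial s (1 : k)) := by
    rw [MvPolynomial.smul_monomial, smul_eq_mul, mul_one]
  rw [h1, map_smul, smul_mul_assoc]
  refine Submodule.smul_mem _ _ ?_
  unfold grwT
  refine Submodule.subset_span ?_
  rw [Finset.mem_coe, Finset.mem_image]
  refine ⟨(s, b), ?_, rfl⟩
  rw [Finset.mem_product]
  exact ⟨(grw_mem s).2 fun i => (MvPolynomial.monomial_le_degreeOf i hs).trans (hg i), hb⟩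

private theorem grwT_mul {n a : ℕ} (g : MvPolynomial (Fin w) k) (hg : ∀ i, MvPolynomial.degreeOf i g ≤ a) {t : K}
    (ht : t ∈ grwT ψ B n) : ψ g * t ∈ grwT ψ B (n + a) := by
  classical
  have ht' : t ∈ Submodule.span k
    (((grwM w n ×ˢ B).image fun p => ψ (MvPolynomial.monomial p.1 1) * p.2 : Finset K) : Set K) := ht
  induction ht' using Submodule.span_induction with
  | mem x hx =>
    rw [Finset.mem_coe, Finset.mem_image] at hx
    obtain ⟨⟨s, b⟩, hp, rfl⟩ := hx
    rw [Finset.mem_product] at hp
    dsimp only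
    rw [← mul_assoc, ← map_mul]
    refine grwT_mem ψ B _ (fun i => ?_) hp.2
    refine (MvPolynomial.degreeOf_mul_le i _ _).trans ?_
    rw [add_comm n a]
    refine add_le_add (hg i) ?_
    refine (MvPolynomial.degreeOf_le_iff).2 fun m hm => ?_
    rw [MvPolynomial.support_monomial] at hm
    split_ifs at hm
    · simp at hm
    · rw [Finset.mem_singleton] at hm
      rw [hm]
      exact (grw_mem s).1 hp.1 i
  | zero => rw [mul_zero]; exact Submodule.zero_mem _
  | add x y hx hy hx' hy' => rw [mul_add]; exact Submodule.add_mem _ (hx' hx) (hy' hy)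
  | smul c x hx hx' => rw [mul_smul_comm]; exact Submodule.smul_mem _ _ (hx' hx)

private theorem grwT_mono {n m : ℕ} (h : n ≤ m) : grwT ψ B n ≤ grwT ψ B m := by
  intro t ht
  have := grwT_mul ψ B (n := n) (a := m - n) 1 (fun i => by simp) ht
  rw [map_one, one_mul] at this
  rwa [show n + (m - n) = m by omega] at this

/-- a common denominator for a finite set -/
private theorem grw_common (H : ∀ x : K, ∃ (f : MvPolynomial (Fin w) k) (c : ℕ), f ≠ 0 ∧ ψ f * x ∈ grwT ψ B c)
    (S : Finset K) : ∃ (f : MvPolynomial (Fin w) k) (c : ℕ), f ≠ 0 ∧ ∀ x ∈ S, ψ f * x ∈ grwT ψ B c := by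
  classical
  induction S using Finset.induction_on with
  | empty => exact ⟨1, 0, one_ne_zero, by simp⟩
  | insert x S hx ih =>
    obtain ⟨f, c, hf, hc⟩ := ih
    obtain ⟨g, d, hg, hd⟩ := H x
    refine ⟨f * g, c + d + g.totalDegree + f.totalDegree, mul_ne_zero hf hg, fun y hy => ?_⟩
    rw [Finset.mem_insert] at hy
    rcases hy with rfl | hy
    · rw [map_mul, mul_assoc]
      have := grwT_mul ψ B f (fun i => MvPolynomial.degreeOf_le_totalDegree f i) hd
      exact grwT_mono ψ B (by omega) this
    · rw [map_mul, mul_comm (ψ f), mul_assoc]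
      have := grwT_mul ψ B g (fun i => MvPolynomial.degreeOf_le_totalDegree g i) (hc y hy)
      exact grwT_mono ψ B (by omega) this

end

theorem growth (w : ℕ) {k K : Type u} [Field k] [Field K] [Algebra k K] (h : FinOver w k K) (W : Submodule k K)
    [FiniteDimensional k W] : ∃ C : ℕ, ∀ m : ℕ, finrank k ↥(W ^ m) ≤ C * (m + 1) ^ w := by
  classical
  obtain ⟨φ, hφ⟩ := h
  let F := FractionRing (MvPolynomial (Fin w) k)
  let _ : Algebra F K := φ.toRingHom.toAlgebra
  have _ : Module.Finite F K := hφ
  let ψ : MvPolynomial (Fin w) k →ₐ[k] K := φ.comp (IsScalarTower.toAlgHom k (MvPolynomial (Fin w) k) F)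
  have hψ : ∀ g, ψ g = φ (algebraMap (MvPolynomial (Fin w) k) F g) := fun g => rfl
  have hψ0 : ∀ g, g ≠ 0 → ψ g ≠ 0 := by
    intro g hg
    rw [hψ]
    intro h0
    have h1 : algebraMap (MvPolynomial (Fin w) k) F g = 0 := by
      have : φ.toRingHom (algebraMap (MvPolynomial (Fin w) k) F g) = φ.toRingHom 0 := by
        rw [map_zero]
        exact h0
      exact φ.toRingHom.injective this
    exact hg ((IsFractionRing.injective (MvPolynomial (Fin w) k) F) (by rw [h1, map_zero]))
  obtain ⟨S, hS⟩ := Module.Finite.fg_top (R := F) (M := K)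
  let B : Finset K := insert 1 S
  have h1B : (1 : K) ∈ B := Finset.mem_insert_self _ _
  have hB : Submodule.span F (B : Set K) = ⊤ := by
    rw [eq_top_iff, ← hS]
    exact Submodule.span_mono (by intro x hx; exact Finset.mem_coe.2 (Finset.mem_insert_of_mem hx))
  have H : ∀ x : K, ∃ (f : MvPolynomial (Fin w) k) (c : ℕ), f ≠ 0 ∧ ψ f * x ∈ grwT ψ B c := by
    intro x
    have hx : x ∈ Submodule.span F (B : Set K) := by rw [hB]; trivial
    induction hx using Submodule.span_induction with
    | mem x hx =>
      exact ⟨1, 0, one_ne_zero, grwT_mem ψ B 1 (fun i => by simp) hx⟩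
    | zero => exact ⟨1, 0, one_ne_zero, by rw [mul_zero]; exact Submodule.zero_mem _⟩
    | add x y _ _ hx hy =>
      obtain ⟨f, c, hf, hc⟩ := hx
      obtain ⟨g, d, hg, hd⟩ := hy
      refine ⟨f * g, c + d + g.totalDegree + f.totalDegree, mul_ne_zero hf hg, ?_⟩
      rw [mul_add]
      refine Submodule.add_mem _ ?_ ?_
      · rw [map_mul, mul_comm (ψ f), mul_assoc]
        have := grwT_mul ψ B g (fun i => MvPolynomial.degreeOf_le_totalDegree g i) hc
        exact grwT_mono ψ B (by omega) this
      · rw [map_mul, mul_assoc]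
        have := grwT_mul ψ B f (fun i => MvPolynomial.degreeOf_le_totalDegree f i) hd
        exact grwT_mono ψ B (by omega) this
    | smul a x _ hx =>
      obtain ⟨f, c, hf, hc⟩ := hx
      obtain ⟨g, d, hd, hgd⟩ := IsFractionRing.div_surjective (A := MvPolynomial (Fin w) k) a
      have hd0 : d ≠ 0 := nonZeroDivisors.ne_zero hd
      refine ⟨d * f, c + g.totalDegree, mul_ne_zero hd0 hf, ?_⟩
      have e : ψ (d * f) * a • x = ψ g * (ψ f * x) := by
        have h2 : a • x = φ a * x := rfl
        rw [h2, ← hgd, map_mul, map_div₀, ← hψ, ← hψ]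
        field_simp [hψ0 d hd0]
      rw [e]
      exact grwT_mul ψ B g (fun i => MvPolynomial.degreeOf_le_totalDegree g i) hc
  obtain ⟨Y, hY⟩ := (Submodule.fg_iff_finiteDimensional W).2 inferInstance
  obtain ⟨f, c, hf, hc⟩ := grw_common ψ B H ((Y ×ˢ B).image fun p => p.1 * p.2)
  -- multiplication by f * y
  have step0 : ∀ y ∈ W, ∀ b ∈ B, ψ f * (y * b) ∈ grwT ψ B c := by
    intro y hy b hb
    rw [← hY] at hy
    induction hy using Submodule.span_induction with
    | mem y hy =>
      exact hc _ (Finset.mem_image.2 ⟨(y, b), Finset.mem_product.2 ⟨hy, hb⟩, rfl⟩)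
    | zero => rw [zero_mul, mul_zero]; exact Submodule.zero_mem _
    | add x y _ _ hx hy => rw [add_mul, mul_add]; exact Submodule.add_mem _ hx hy
    | smul a x _ hx => rw [smul_mul_assoc, mul_smul_comm]; exact Submodule.smul_mem _ _ hx
  have step : ∀ n, ∀ y ∈ W, ∀ t ∈ grwT ψ B n, ψ f * (y * t) ∈ grwT ψ B (n + c) := by
    intro n y hy t ht
    have ht' : t ∈ Submodule.span k
      (((grwM w n ×ˢ B).image fun p => ψ (MvPolynomial.monomial p.1 1) * p.2 : Finset K) : Set K) := ht
    induction ht' using Submodule.span_induction with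
    | mem x hx =>
      rw [Finset.mem_coe, Finset.mem_image] at hx
      obtain ⟨⟨s, b⟩, hp, rfl⟩ := hx
      rw [Finset.mem_product] at hp
      have h2 := grwT_mul ψ B (n := c) (a := n) (MvPolynomial.monomial s 1) (fun i => by
        refine (MvPolynomial.degreeOf_le_iff).2 fun m hm => ?_
        rw [MvPolynomial.support_monomial] at hm
        split_ifs at hm
        · simp at hm
        · rw [Finset.mem_singleton] at hm
          rw [hm]
          exact (grw_mem s).1 hp.1 i) (step0 y hy b hp.2)
      rw [add_comm n c]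
      have e : ψ f * (y * (ψ (MvPolynomial.monomial s 1) * b)) =
        ψ (MvPolynomial.monomial s 1) * (ψ f * (y * b)) := by ring
      dsimp only
      rw [e]
      exact h2
    | zero => rw [mul_zero, mul_zero]; exact Submodule.zero_mem _
    | add x y _ _ hx hy => rw [mul_add, mul_add]; exact Submodule.add_mem _ (hx ‹_›) (hy ‹_›)
    | smul a x _ hx => rw [mul_smul_comm, mul_smul_comm]; exact Submodule.smul_mem _ _ (hx ‹_›)
  have main : ∀ m : ℕ, W ^ m ≤ (grwT ψ B (c * m)).comap (LinearMap.mulLeft k (ψ f ^ m)) := by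
    intro m
    induction m with
    | zero =>
      rw [pow_zero, Submodule.one_eq_span, Submodule.span_le]
      intro x hx
      rw [Set.mem_singleton_iff] at hx
      subst hx
      simp only [pow_zero, Submodule.comap_coe, Set.mem_preimage, LinearMap.mulLeft_apply, SetLike.mem_coe, mul_one]
      have := grwT_mem ψ B (n := c * 0) 1 (fun i => by simp) h1B
      rwa [map_one, one_mul] at this
    | succ m ih =>
      rw [pow_succ, Submodule.mul_le]
      intro z hz y hy
      have h2 := ih hz
      rw [Submodule.mem_comap, LinearMap.mulLeft_apply] at h2 ⊢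
      have h3 := step (c * m) y hy _ h2
      have e : ψ f ^ (m + 1) * (z * y) = ψ f * (y * (ψ f ^ m * z)) := by ring
      rw [e, mul_add, mul_one]
      exact h3
  refine ⟨(c + 1) ^ w * B.card, fun m => ?_⟩
  have _ := grwT_fd ψ B (c * m)
  have hinj : Function.Injective (LinearMap.mulLeft k (ψ f ^ m)) := by
    intro x y hxy
    rw [LinearMap.mulLeft_apply, LinearMap.mulLeft_apply] at hxy
    exact mul_left_cancel₀ (pow_ne_zero m (hψ0 f hf)) hxy
  have h2 : finrank k ↥(W ^ m) = finrank k ↥((W ^ m).map (LinearMap.mulLeft k (ψ f ^ m))) :=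
    ((Submodule.equivMapOfInjective _ hinj (W ^ m)).finrank_eq)
  rw [h2]
  have h3 : (W ^ m).map (LinearMap.mulLeft k (ψ f ^ m)) ≤ grwT ψ B (c * m) := Submodule.map_le_iff_le_comap.2 (main m)
  refine (Submodule.finrank_mono h3).trans ((grwT_finrank ψ B (c * m)).trans ?_)
  have h4 : (c * m + 1) ^ w ≤ ((c + 1) * (m + 1)) ^ w := by
    refine Nat.pow_le_pow_left ?_ w
    nlinarith
  calc (c * m + 1) ^ w * B.card ≤ ((c + 1) * (m + 1)) ^ w * B.card := Nat.mul_le_mul_right _ h4
    _ = (c + 1) ^ w * B.card * (m + 1) ^ w := by rw [mul_pow]; ring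

end Pool.Agent.SQ
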