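import Pool.Agent.Helper42.SQ.Defs
import Pool.Agent.Helper42.SQ.GRW

/-!
# SQ block BM2: the inequality of Brunn and Minkowski for the powers of a subspace
-/

set_option autoImplicit false

namespace Pool.Agent.SQ

open Module

universe u

/-- a finitely generated field extension is finite over a field of rational functions -/
theorem bm2_finOver {k K : Type u} [Field k] [Field K] [Algebra k K] (T : Finset K) :
    ∃ w, FinOver w k (IntermediateField.adjoin k (T : Set K)) := by
  classical
  let R := Algebra.adjoin k (T : Set K)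
  have hR : Algebra.FiniteType k R := (Subalgebra.fg_iff_finiteType _).1 (Subalgebra.fg_adjoin_finset T)
  obtain ⟨w, g, hg, hgi⟩ := exists_integral_inj_algHom_of_fg k R
  let F := IntermediateField.adjoin k (T : Set K)
  have hRF : R ≤ F.toSubalgebra := IntermediateField.algebra_adjoin_le_adjoin k (T : Set K)
  let i : R →ₐ[k] F := Subalgebra.inclusion hRF
  have hi : Function.Injective i := Subalgebra.inclusion_injective hRF
  let ψ : MvPolynomial (Fin w) k →ₐ[k] F := i.comp g
  have hψ : Function.Injective ψ := hi.comp hg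
  let E := FractionRing (MvPolynomial (Fin w) k)
  let φ : E →ₐ[k] F := IsFractionRing.liftAlgHom (K := E) hψ
  have hφ : ∀ a, φ (algebraMap (MvPolynomial (Fin w) k) E a) = ψ a := fun a =>
    IsFractionRing.lift_algebraMap hψ a
  refine ⟨w, φ, ?_⟩
  let _ : Algebra E F := φ.toRingHom.toAlgebra
  have hEF : ∀ a, algebraMap E F a = φ a := fun a => rfl
  let T' : Set F := {x | (x : K) ∈ T}
  have hT' : T'.Finite := by
    refine Set.Finite.of_finite_image (f := fun x : F => (x : K)) (T.finite_toSet.subset ?_) (Subtype.val_injective.injOn)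
    rintro _ ⟨x, hx, rfl⟩
    exact hx
  have htop : IntermediateField.adjoin E T' = ⊤ := by
    rw [eq_top_iff]
    rintro ⟨x, hx⟩ -
    induction hx using IntermediateField.adjoin_induction with
    | mem x hx => exact IntermediateField.subset_adjoin _ _ hx
    | algebraMap x =>
      have h1 : (⟨algebraMap k K x, IntermediateField.algebraMap_mem _ _⟩ : F) = algebraMap E F (algebraMap k E x) := by
        rw [hEF, AlgHom.commutes]
        rfl
      have h2 := IntermediateField.algebraMap_mem (IntermediateField.adjoin E T') (algebraMap k E x)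
      rw [← h1] at h2
      exact h2
    | add x y hx hy ihx ihy => exact add_mem ihx ihy
    | inv x hx ih => exact inv_mem ih
    | mul x y hx hy ihx ihy => exact mul_mem ihx ihy
  have hint : ∀ x ∈ T', IsIntegral E x := by
    intro x hx
    have hx' : (x : K) ∈ R := Algebra.subset_adjoin hx
    obtain ⟨p, hp, hp0⟩ := hgi ⟨x, hx'⟩
    refine ⟨p.map (algebraMap (MvPolynomial (Fin w) k) E), hp.map _, ?_⟩
    rw [Polynomial.eval₂_map]
    have h1 : (algebraMap E F).comp (algebraMap (MvPolynomial (Fin w) k) E) =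
        (i : R →+* F).comp (g : MvPolynomial (Fin w) k →+* R) := by
      ext a
      · show ((φ (algebraMap (MvPolynomial (Fin w) k) E _) : F) : K) = _
        rw [hφ]; rfl
      · show ((φ (algebraMap (MvPolynomial (Fin w) k) E _) : F) : K) = _
        rw [hφ]; rfl
    have h2 : x = (i : R →+* F) ⟨x, hx'⟩ := rfl
    rw [h1]
    conv_lhs => rw [h2]
    rw [← Polynomial.hom_eval₂]
    exact (congrArg i hp0).trans (map_zero i)
  have _ : Finite T' := hT'
  have hfin : FiniteDimensional E (IntermediateField.adjoin E T') := IntermediateField.finiteDimensional_adjoin hint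
  rw [htop] at hfin
  show Module.Finite E F
  exact Module.Finite.equiv (IntermediateField.topEquiv (F := E) (E := F)).toLinearEquiv

section

variable {k K : Type u} [Field k] [Field K] [Algebra k K]

/-- the line spanned by an element -/
private noncomputable def bm2S (x : K) : Submodule k K := Submodule.span k {x}

private theorem bm2S_mul (x y : K) : bm2S (k := k) x * bm2S y = bm2S (x * y) := by
  unfold bm2S
  rw [Submodule.span_mul_span, Set.singleton_mul_singleton]

private theorem bm2S_one : bm2S (k := k) (1 : K) = 1 := by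
  unfold bm2S
  exact Submodule.one_eq_span.symm

private theorem bm2S_pow (x : K) (n : ℕ) : bm2S (k := k) x ^ n = bm2S (x ^ n) := by
  induction n with
  | zero => rw [pow_zero, pow_zero, bm2S_one]
  | succ n ih => rw [pow_succ, pow_succ, ih, bm2S_mul]

private theorem bm2S_eq (x : K) (A : Submodule k K) : bm2S x * A = A.map (LinearMap.mulLeft k x) := by
  apply le_antisymm
  · rw [Submodule.mul_le]
    intro a ha b hb
    unfold bm2S at ha
    obtain ⟨c, rfl⟩ := Submodule.mem_span_singleton.1 ha
    refine ⟨c • b, A.smul_mem c hb, ?_⟩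
    rw [LinearMap.mulLeft_apply, mul_smul_comm, smul_mul_assoc]
  · rintro _ ⟨a, ha, rfl⟩
    exact Submodule.mul_mem_mul (Submodule.mem_span_singleton_self x) ha

private theorem bm2S_finrank (x : K) (hx : x ≠ 0) (A : Submodule k K) :
    finrank k ↥(bm2S (k := k) x * A) = finrank k ↥A := by
  rw [bm2S_eq]
  have hinj : Function.Injective (LinearMap.mulLeft k x) := fun a b hab => by
    rw [LinearMap.mulLeft_apply, LinearMap.mulLeft_apply] at hab
    exact mul_left_cancel₀ hx hab
  exact ((Submodule.equivMapOfInjective _ hinj A).finrank_eq).symm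

/-- elements of the algebra generated by a subspace containing `1` lie in some power -/
private theorem bm2_adjoin (S : Submodule k K) (h1 : (1 : K) ∈ S) (T : Set K) (hT : T ⊆ S) {x : K}
    (hx : x ∈ Algebra.adjoin k T) : ∃ q : ℕ, x ∈ S ^ q := by
  have h1' : (1 : Submodule k K) ≤ S := Submodule.one_le.2 h1
  induction hx using Algebra.adjoin_induction with
  | mem x hx => exact ⟨1, by rw [pow_one]; exact hT hx⟩
  | algebraMap c => exact ⟨0, by rw [pow_zero]; exact Submodule.algebraMap_mem c⟩
  | add x y _ _ hx hy =>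
    obtain ⟨a, ha⟩ := hx
    obtain ⟨b, hb⟩ := hy
    exact ⟨max a b, add_mem (pow_le_pow_right' h1' (le_max_left a b) ha) (pow_le_pow_right' h1' (le_max_right a b) hb)⟩
  | mul x y _ _ hx hy =>
    obtain ⟨a, ha⟩ := hx
    obtain ⟨b, hb⟩ := hy
    exact ⟨a + b, by rw [pow_add]; exact Submodule.mul_mem_mul ha hb⟩

/-- a common denominator of a finite set of the field generated by `T` -/
private theorem bm2_den (S : Submodule k K) (h1 : (1 : K) ∈ S) (T : Set K) (hT : T ⊆ S) (Y : Finset K)
    (hY : ∀ y ∈ Y, y ∈ IntermediateField.adjoin k T) :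
    ∃ D ∈ Algebra.adjoin k T, D ≠ 0 ∧ ∃ q : ℕ, ∀ y ∈ Y, D * y ∈ S ^ q := by
  classical
  have h1' : (1 : Submodule k K) ≤ S := Submodule.one_le.2 h1
  induction Y using Finset.induction_on with
  | empty => exact ⟨1, one_mem _, one_ne_zero, 0, by simp⟩
  | insert y Y hy ih =>
    obtain ⟨D, hD, hD0, q, hq⟩ := ih fun z hz => hY z (Finset.mem_insert_of_mem hz)
    obtain ⟨a, ha, b, hb, hab⟩ := IntermediateField.mem_adjoin_iff_div.1 (hY y (Finset.mem_insert_self _ _))
    obtain ⟨r, hr⟩ := bm2_adjoin S h1 T hT hD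
    by_cases hb0 : b = 0
    · refine ⟨D, hD, hD0, q, fun z hz => ?_⟩
      rcases Finset.mem_insert.1 hz with rfl | hz
      · rw [hab, hb0, div_zero, mul_zero]; exact Submodule.zero_mem _
      · exact hq z hz
    · obtain ⟨s, hs⟩ := bm2_adjoin S h1 T hT ha
      obtain ⟨t, ht⟩ := bm2_adjoin S h1 T hT hb
      refine ⟨D * b, mul_mem hD hb, mul_ne_zero hD0 hb0, r + s + q + t, fun z hz => ?_⟩
      rcases Finset.mem_insert.1 hz with rfl | hz
      · have e : D * b * z = D * a := by
          rw [hab]; field_simp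
        rw [e]
        have h2 : D * a ∈ S ^ (r + s) := by rw [pow_add]; exact Submodule.mul_mem_mul hr hs
        exact pow_le_pow_right' h1' (by omega) h2
      · have e : D * b * z = (D * z) * b := by ring
        rw [e]
        have h2 : (D * z) * b ∈ S ^ (q + t) := by rw [pow_add]; exact Submodule.mul_mem_mul (hq z hz) ht
        exact pow_le_pow_right' h1' (by omega) h2

end

/-- block BM2 from block BM -/
theorem bm2_of {k K : Type u} [Field k] [Field K] [Algebra k K]
    (bm : ∀ (w : ℕ) (F : Type u) [Field F] [Algebra k F], FinOver w k F → ∃ Q : Submodule k F, FiniteDimensional k Q ∧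
      ∀ A B : Submodule k F, FiniteDimensional k A → FiniteDimensional k B → BMAt w Q A B)
    (W : Submodule k K) [FiniteDimensional k W] (hW : W ≠ ⊥) : ∃ (w q C : ℕ) (Q : Submodule k K), Q ≤ W ^ q ∧
      (∀ (m m' : ℕ) (A B : Submodule k K), A ≤ W ^ m → B ≤ W ^ m' → BMAt w Q A B) ∧
      ∀ m : ℕ, finrank k ↥(W ^ m) ≤ C * (m + 1) ^ w := by
  classical
  obtain ⟨z0, hz0W, hz0⟩ := (Submodule.ne_bot_iff W).1 hW
  have hzi : z0⁻¹ ≠ 0 := inv_ne_zero hz0
  let S : Submodule k K := bm2S z0⁻¹ * W
  have hS1 : (1 : K) ∈ S := by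
    have := Submodule.mul_mem_mul (Submodule.mem_span_singleton_self (R := k) z0⁻¹) hz0W
    rwa [inv_mul_cancel₀ hz0] at this
  have hWfg : W.FG := (Submodule.fg_iff_finiteDimensional W).2 inferInstance
  have hSfg : S.FG := (Submodule.fg_span_singleton _).mul hWfg
  obtain ⟨T, hT⟩ := hSfg
  have hTS : (T : Set K) ⊆ S := by rw [← hT]; exact Submodule.subset_span
  obtain ⟨w, hw⟩ := bm2_finOver (k := k) T
  set F := IntermediateField.adjoin k (T : Set K) with hF
  have hSF : ∀ x ∈ S, x ∈ F := by
    intro x hx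
    rw [← hT] at hx
    have h2 : Submodule.span k (T : Set K) ≤ F.toSubalgebra.toSubmodule := Submodule.span_le.2
      (IntermediateField.subset_adjoin k (T : Set K))
    exact h2 hx
  let ι : F →ₐ[k] K := F.val
  have hι : Function.Injective ι := Subtype.val_injective
  have hr : LinearMap.range ι.toLinearMap = F.toSubalgebra.toSubmodule := by
    ext x
    constructor
    · rintro ⟨y, rfl⟩; exact y.2
    · intro hx; exact ⟨⟨x, hx⟩, rfl⟩
  have hSr : S ≤ LinearMap.range ι.toLinearMap := by rw [hr]; exact hSF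
  have hSpow : ∀ m : ℕ, S ^ m ≤ LinearMap.range ι.toLinearMap := by
    intro m
    rw [hr]
    induction m with
    | zero =>
      rw [pow_zero, Submodule.one_le]
      exact F.one_mem
    | succ m ih =>
      rw [pow_succ, Submodule.mul_le]
      intro a ha b hb
      exact F.mul_mem (ih ha) (hSF b hb)
  have hcm : ∀ A : Submodule k K, A ≤ LinearMap.range ι.toLinearMap →
      (A.comap ι.toLinearMap).map ι.toLinearMap = A := fun A hA => Submodule.map_comap_eq_of_le hA
  have hmr : ∀ A : Submodule k F, finrank k ↥(A.map ι.toLinearMap) = finrank k A := fun A =>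
    ((Submodule.equivMapOfInjective ι.toLinearMap hι A).finrank_eq).symm
  have hmm : ∀ A B : Submodule k F, (A * B).map ι.toLinearMap = A.map ι.toLinearMap * B.map ι.toLinearMap :=
    fun A B => Submodule.map_mul A B ι
  obtain ⟨Q1, hQ1, hbm⟩ := bm w F hw
  have hfd : ∀ A : Submodule k K, FiniteDimensional k A → A ≤ LinearMap.range ι.toLinearMap →
      FiniteDimensional k ↥(A.comap ι.toLinearMap) := by
    intro A hA hle
    have h1 : FiniteDimensional k ↥((A.comap ι.toLinearMap).map ι.toLinearMap) := by rw [hcm A hle]; exact hA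
    exact Module.Finite.equiv (Submodule.equivMapOfInjective ι.toLinearMap hι (A.comap ι.toLinearMap)).symm
  have hSd : FiniteDimensional k S := by rw [← hT]; exact FiniteDimensional.span_finset k T
  have _ := hfd S hSd hSr
  obtain ⟨C, hC⟩ := growth w hw (S.comap ι.toLinearMap)
  obtain ⟨Y1, hY1⟩ := (Submodule.fg_iff_finiteDimensional Q1).2 hQ1
  obtain ⟨D, hD, hD0, q, hq⟩ := bm2_den S hS1 (T : Set K) hTS (Y1.image ι) (by
    intro y hy
    rw [Finset.mem_image] at hy
    obtain ⟨x, _, rfl⟩ := hy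
    exact x.2)
  have hQq : bm2S D * Q1.map ι.toLinearMap ≤ S ^ q := by
    rw [← hY1, Submodule.map_span, bm2S, Submodule.span_mul_span, Submodule.span_le]
    rintro _ ⟨a, ha, b, hb, rfl⟩
    rw [Set.mem_singleton_iff] at ha
    subst ha
    obtain ⟨c, hc, rfl⟩ := hb
    exact hq _ (Finset.mem_image_of_mem ι hc)
  have hSm : ∀ m : ℕ, S ^ m = bm2S (z0⁻¹ ^ m) * W ^ m := by
    intro m
    rw [← bm2S_pow, ← mul_pow]
  have hSW : ∀ m : ℕ, bm2S (z0 ^ m) * S ^ m = W ^ m := by
    intro m
    rw [hSm, ← mul_assoc, bm2S_mul, ← mul_pow, mul_inv_cancel₀ hz0, one_pow, bm2S_one, one_mul]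
  have hrecov : ∀ (m : ℕ) (A : Submodule k K), bm2S (z0 ^ m) * (bm2S (z0⁻¹ ^ m) * A) = A := by
    intro m A
    rw [← mul_assoc, bm2S_mul, ← mul_pow, mul_inv_cancel₀ hz0, one_pow, bm2S_one, one_mul]
  have hle : ∀ (m : ℕ) (A : Submodule k K), A ≤ W ^ m → bm2S (z0⁻¹ ^ m) * A ≤ LinearMap.range ι.toLinearMap := by
    intro m A hA
    refine le_trans ?_ (hSpow m)
    rw [hSm]
    exact mul_le_mul' le_rfl hA
  have hWd : ∀ m : ℕ, FiniteDimensional k ↥(W ^ m) := fun m =>
    (Submodule.fg_iff_finiteDimensional _).1 (hWfg.pow m)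
  have hAd : ∀ (m : ℕ) (A : Submodule k K), A ≤ W ^ m → FiniteDimensional k ↥(bm2S (k := k) (z0⁻¹ ^ m) * A) := by
    intro m A hA
    have _ := hWd m
    have hA' : FiniteDimensional k A := Submodule.finiteDimensional_of_le hA
    rw [bm2S_eq]
    infer_instance
  refine ⟨w, q, C, bm2S (z0 ^ q * D) * Q1.map ι.toLinearMap, ?_, ?_, ?_⟩
  · rw [← bm2S_mul, mul_assoc, ← hSW q]
    exact mul_le_mul' le_rfl hQq
  · intro m m' A B hA hB
    have hA1 := hcm _ (hle m A hA)
    have hB1 := hcm _ (hle m' B hB)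
    have h := hbm _ _ (hfd _ (hAd m A hA) (hle m A hA)) (hfd _ (hAd m' B hB) (hle m' B hB))
    unfold BMAt at h ⊢
    have e1 : finrank k ↥((bm2S (k := k) (z0⁻¹ ^ m) * A).comap ι.toLinearMap) = finrank k ↥A := by
      rw [← hmr, hA1, bm2S_finrank _ (pow_ne_zero _ hzi)]
    have e2 : finrank k ↥((bm2S (k := k) (z0⁻¹ ^ m') * B).comap ι.toLinearMap) = finrank k ↥B := by
      rw [← hmr, hB1, bm2S_finrank _ (pow_ne_zero _ hzi)]
    have e3 : A * B * (bm2S (z0 ^ q * D) * Q1.map ι.toLinearMap) = bm2S (z0 ^ m * z0 ^ m' * (z0 ^ q * D)) *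
        ((bm2S (z0⁻¹ ^ m) * A) * (bm2S (z0⁻¹ ^ m') * B) * Q1.map ι.toLinearMap) := by
      conv_lhs => rw [← hrecov m A, ← hrecov m' B]
      rw [← bm2S_mul (z0 ^ m * z0 ^ m') (z0 ^ q * D), ← bm2S_mul (z0 ^ m) (z0 ^ m')]
      generalize bm2S (k := k) (z0⁻¹ ^ m) * A = A'
      generalize bm2S (k := k) (z0⁻¹ ^ m') * B = B'
      ring
    have e4 : finrank k ↥(A * B * (bm2S (k := k) (z0 ^ q * D) * Q1.map ι.toLinearMap)) =
        finrank k ↥((bm2S (k := k) (z0⁻¹ ^ m) * A).comap ι.toLinearMap * (bm2S (k := k) (z0⁻¹ ^ m') * B).comap ι.toLinearMap * Q1) := by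
      rw [e3, bm2S_finrank _ (mul_ne_zero (mul_ne_zero (pow_ne_zero _ hz0) (pow_ne_zero _ hz0))
        (mul_ne_zero (pow_ne_zero _ hz0) hD0)), ← hmr, hmm, hmm, hA1, hB1]
    rw [e4, ← e1, ← e2]
    exact h
  · intro m
    have e : ((S.comap ι.toLinearMap) ^ m).map ι.toLinearMap = S ^ m := by
      induction m with
      | zero =>
        rw [pow_zero, pow_zero]
        exact Submodule.map_one ι
      | succ m ih => rw [pow_succ, pow_succ, hmm, ih, hcm S hSr]
    have := hC m
    rw [← hmr, e] at this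
    rw [← hSW m, bm2S_finrank _ (pow_ne_zero _ hz0)]
    exact this

end Pool.Agent.SQ
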