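import Pool.Agent.Helper42.SQ.BM
import Pool.Agent.Helper42.SQ.BM2A

/-!
# SQ block BM2
-/

set_option autoImplicit false

namespace Pool.Agent.SQ

open Module

universe u

theorem bm2 {k K : Type u} [Field k] [CharZero k] [Field K] [Algebra k K] (W : Submodule k K) [FiniteDimensional k W]
    (hW : W ≠ ⊥) : ∃ (w q C : ℕ) (Q : Submodule k K), Q ≤ W ^ q ∧
      (∀ (m m' : ℕ) (A B : Submodule k K), A ≤ W ^ m → B ≤ W ^ m' → BMAt w Q A B) ∧
      ∀ m : ℕ, finrank k ↥(W ^ m) ≤ C * (m + 1) ^ w :=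
  bm2_of (fun w F _ _ h => bm w h) W hW

end Pool.Agent.SQ
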