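import Pool.Agent.Helper42.SQ.Defs2
import Pool.Agent.Helper42.SQ.BMG

/-!
# SQ, stage 2, block BMg: the inequality of Brunn and Minkowski for `g` factors
-/

set_option autoImplicit false

namespace Pool.Agent.SQ

open Module

universe u

/-- the two forms of the inequality -/
theorem bmg_iff5 {g : ℕ} (hg : 0 < g) (w : ℕ) {k K : Type*} [Field k] [Field K] [Algebra k K]
    (Q : Submodule k K) (A : Fin g → Submodule k K) : BMAtG w (Fin g) Q A ↔ BMg g w Q A := by
  unfold BMAtG BMg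
  rw [Fintype.card_fin]
  have hg0 : (0 : ℝ) < g := by exact_mod_cast hg
  obtain ⟨P, hP⟩ : ∃ P : ℝ, P = ∏ i, (finrank k (A i) : ℝ) := ⟨_, rfl⟩
  have hP0 : 0 ≤ P := by
    rw [hP]
    exact Finset.prod_nonneg fun i _ => Nat.cast_nonneg _
  have h1 : ((g : ℝ) ^ w * P ^ (1 / (g : ℝ))) ^ g = (g : ℝ) ^ (g * w) * P := by
    rw [mul_pow, ← pow_mul, mul_comm w g, ← Real.rpow_natCast (P ^ (1 / (g : ℝ))),
      ← Real.rpow_mul hP0, one_div_mul_cancel hg0.ne', Real.rpow_one]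
  rw [← hP, ← pow_le_pow_iff_left₀ (by positivity) (Nat.cast_nonneg _) hg.ne', h1, hP]
  constructor
  · intro h
    exact_mod_cast h
  · intro h
    exact_mod_cast h

/-- **BLOCK BMg** -/
theorem bm_g {g : ℕ} (hg : 0 < g) (w : ℕ) {k K : Type u} [Field k] [CharZero k] [Field K] [Algebra k K] (h : FinOver w k K) :
    ∃ Q : Submodule k K, FiniteDimensional k Q ∧
      ∀ A : Fin g → Submodule k K, (∀ i, FiniteDimensional k (A i)) → BMg g w Q A := by
  have : Nonempty (Fin g) := ⟨⟨0, hg⟩⟩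
  obtain ⟨Q, hQ, hb⟩ := bmG w h (Fin g)
  exact ⟨Q, hQ, fun A hA => (bmg_iff5 hg w Q A).1 (hb A hA)⟩

end Pool.Agent.SQ
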