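import Pool.Agent.Helper67.SQ4.Defs5

/-!
# SQ, stage 4: the constant `1 / cnr n r` (helper21)
-/

set_option autoImplicit false

namespace Pool.Agent.SQ

private theorem bon21 {x : ℝ} (hx : 0 ≤ x) (hx1 : x ≤ 1) (m : ℕ) :
    (1 - x) ^ (m + 2) ≤ 1 - (m + 2) * x + (m + 2) * (m + 1) / 2 * x ^ 2 := by
  induction m with
  | zero => simp; nlinarith
  | succ m ih =>
    have h1 : (1 - x) ^ (m + 1 + 2) = (1 - x) * (1 - x) ^ (m + 2) := by rw [← pow_succ']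
    have h2 := mul_le_mul_of_nonneg_left ih (sub_nonneg.2 hx1)
    have h3 : 0 ≤ ((m : ℝ) + 2) * (m + 1) / 2 * x ^ 3 := by positivity
    rw [h1]
    push_cast
    nlinarith

private theorem bon21' {x : ℝ} (hx : 0 < x) (hx1 : x ≤ 1) (m : ℕ) :
    (1 - x) ^ (m + 3) < 1 - (m + 3) * x + (m + 3) * (m + 2) / 2 * x ^ 2 := by
  have h1 : (1 - x) ^ (m + 3) = (1 - x) * (1 - x) ^ (m + 2) := by rw [← pow_succ']
  have h2 := mul_le_mul_of_nonneg_left (bon21 hx.le hx1 m) (sub_nonneg.2 hx1)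
  have h3 : 0 < ((m : ℝ) + 2) * (m + 1) / 2 * x ^ 3 := by positivity
  rw [h1]
  nlinarith

/-- the root -/
private theorem root21 {n r : ℕ} (hn : 0 < n) (hr : 0 < r) :
    ∃ ρ : ℝ, ρ = (1 - 1 / (r : ℝ)) ^ (1 / (n : ℝ)) ∧ 0 ≤ ρ ∧ ρ ≤ 1 ∧ r * ρ ^ n = r - 1 := by
  have hrR : (1 : ℝ) ≤ r := by exact_mod_cast hr
  have h1 : 0 ≤ 1 - 1 / (r : ℝ) := by
    rw [sub_nonneg, div_le_one (by linarith)]
    exact hrR
  have h2 : 1 - 1 / (r : ℝ) ≤ 1 := by
    have : 0 ≤ 1 / (r : ℝ) := by positivity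
    linarith
  refine ⟨_, rfl, Real.rpow_nonneg h1 _, Real.rpow_le_one h1 h2 (by positivity), ?_⟩
  rw [← Real.rpow_natCast, ← Real.rpow_mul h1, one_div_mul_cancel (by positivity), Real.rpow_one]
  field_simp

private theorem val21 {n r : ℕ} {ρ : ℝ} (h : r * ρ ^ n = r - 1) :
    r * Eq n (1 - ρ) - (r - 1) * (1 - ρ) = (1 - n * (r - 1) * (1 - ρ)) / (n + 1) := by
  have h1 : (r : ℝ) * ρ ^ (n + 1) = (r - 1) * ρ := by rw [pow_succ, ← mul_assoc, h]
  have hn : (n : ℝ) + 1 ≠ 0 := by positivity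
  unfold Eq
  rw [sub_sub_cancel]
  have h2 : (r : ℝ) * ((1 - ρ ^ (n + 1)) / (n + 1)) = (r - (r - 1) * ρ) / (n + 1) := by
    rw [← h1]
    ring
  rw [h2]
  field_simp
  ring

private theorem max21 {n r : ℕ} {ρ : ℝ} (hρ : 0 ≤ ρ) (h : r * ρ ^ n = r - 1) {a : ℝ} (ha : 0 ≤ a) :
    r * Eq n (1 - a) - (r - 1) * (1 - a) ≤ r * Eq n (1 - ρ) - (r - 1) * (1 - ρ) := by
  have hn : (0 : ℝ) < (n : ℝ) + 1 := by positivity
  have h1 : ρ ^ (n + 1) + (n + 1) * ρ ^ n * (a - ρ) ≤ a ^ (n + 1) := by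
    rcases hρ.eq_or_lt with h0 | h0
    · subst h0
      rcases Nat.eq_zero_or_pos n with hn0 | hn0
      · subst hn0
        simp
      · rw [zero_pow hn0.ne', zero_pow (Nat.succ_ne_zero n)]
        simp
        positivity
    · have h2 := one_add_mul_sub_le_pow (a := a / ρ) (by
        have : 0 ≤ a / ρ := by positivity
        linarith) (n + 1)
      rw [div_pow, le_div_iff₀ (by positivity)] at h2
      refine le_trans (le_of_eq ?_) h2
      push_cast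
      field_simp
      ring
  unfold Eq
  rw [sub_sub_cancel, sub_sub_cancel]
  have h3 : (r : ℝ) * (ρ ^ (n + 1) + (n + 1) * ρ ^ n * (a - ρ)) ≤ r * a ^ (n + 1) :=
    mul_le_mul_of_nonneg_left h1 (Nat.cast_nonneg r)
  have h4 : (r : ℝ) * (ρ ^ (n + 1) + (n + 1) * ρ ^ n * (a - ρ)) = r * ρ ^ (n + 1) + (n + 1) * (r - 1) * (a - ρ) := by
    rw [← h]
    ring
  rw [h4] at h3
  have h5 : ((r : ℝ) * ((1 - ρ ^ (n + 1)) / (n + 1)) - (r - 1) * (1 - ρ)) -
      (r * ((1 - a ^ (n + 1)) / (n + 1)) - (r - 1) * (1 - a)) =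
      (r * a ^ (n + 1) - (r * ρ ^ (n + 1) + (n + 1) * (r - 1) * (a - ρ))) / (n + 1) := by
    field_simp
    ring
  have h6 : 0 ≤ (r * a ^ (n + 1) - (r * ρ ^ (n + 1) + (n + 1) * (r - 1) * (a - ρ))) / ((n : ℝ) + 1) :=
    div_nonneg (sub_nonneg.2 h3) hn.le
  rw [← h5] at h6
  linarith

/-- the constant: `θ = 1 - (1 - 1 / r) ^ (1 / n)` -/
theorem cnr_eq {n r : ℕ} (hn : 0 < n) (hr : 0 < r) : ∃ θ : ℝ, 0 ≤ θ ∧ θ ≤ 1 ∧ r * Eq n θ - (r - 1) * θ = cnr n r := by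
  obtain ⟨ρ, h0, h1, h2, h3⟩ := root21 hn hr
  refine ⟨1 - ρ, by linarith, by linarith, ?_⟩
  rw [val21 h3, cnr, ← h0]

private theorem low21 {n r : ℕ} (hn : 0 < n) (hr : 0 < r) : 1 / (2 * r * n) ≤ cnr n r ∧ (2 ≤ n → 1 / (2 * r * n) < cnr n r) := by
  obtain ⟨ρ, h0, h1, h2, h3⟩ := root21 hn hr
  have hrR : (1 : ℝ) ≤ r := by exact_mod_cast hr
  have hnR : (1 : ℝ) ≤ n := by exact_mod_cast hn
  obtain ⟨x, hx⟩ : ∃ x : ℝ, x = 1 / (r * n) := ⟨_, rfl⟩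
  have hx0 : 0 < x := by rw [hx]; positivity
  have hrn : (1 : ℝ) ≤ r * n := by nlinarith
  have hx1 : x ≤ 1 := by
    rw [hx, div_le_one (by positivity)]
    exact hrn
  have hxr : (r : ℝ) * n * x = 1 := by rw [hx]; field_simp
  have h4 := max21 h1 h3 (a := 1 - x) (by linarith)
  rw [val21 h3, sub_sub_cancel] at h4
  have h5 : cnr n r = (1 - n * (r - 1) * (1 - ρ)) / (n + 1) := by rw [cnr, ← h0]
  rw [← h5] at h4
  have hn1 : (0 : ℝ) < (n : ℝ) + 1 := by positivity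
  have h7 : 1 / (2 * (r : ℝ) * n) = r * (x - n / 2 * x ^ 2) - (r - 1) * x := by
    have : (r : ℝ) * (x - n / 2 * x ^ 2) - (r - 1) * x = x - (r * n * x) * x / 2 := by ring
    rw [this, hxr, hx]
    field_simp
    norm_num
  constructor
  · obtain ⟨m, rfl⟩ : ∃ m, n = m + 1 := ⟨n - 1, by omega⟩
    have h6 := bon21 hx0.le hx1 m
    refine le_trans ?_ h4
    rw [h7]
    have h8 : x - ((m + 1 : ℕ) : ℝ) / 2 * x ^ 2 ≤ Eq (m + 1) x := by
      unfold Eq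
      rw [le_div_iff₀ (by positivity)]
      push_cast
      push_cast at h6
      nlinarith
    have h9 := mul_le_mul_of_nonneg_left h8 (Nat.cast_nonneg (α := ℝ) r)
    linarith
  · intro h10
    obtain ⟨m, rfl⟩ : ∃ m, n = m + 2 := ⟨n - 2, by omega⟩
    have h6 := bon21' hx0 hx1 m
    refine lt_of_lt_of_le ?_ h4
    rw [h7]
    have h8 : x - ((m + 2 : ℕ) : ℝ) / 2 * x ^ 2 < Eq (m + 2) x := by
      unfold Eq
      rw [lt_div_iff₀ (by positivity)]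
      push_cast
      push_cast at h6
      nlinarith
    have h9 := mul_lt_mul_of_pos_left h8 (lt_of_lt_of_le one_pos hrR)
    linarith

theorem cnr_pos {n r : ℕ} (hn : 0 < n) (hr : 0 < r) : 0 < cnr n r := by
  have h := (low21 hn hr).1
  have : (0 : ℝ) < 1 / (2 * r * n) := by positivity
  linarith

/-- `1 / cnr n r` is less than Levin's constant -/
theorem cnr_levin {n r : ℕ} (hn : 2 ≤ n) (hr : 2 ≤ r) : 1 / cnr n r < 2 * r * n := by
  have h := (low21 (show 0 < n by omega) (show 0 < r by omega)).2 hn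
  have h1 : (0 : ℝ) < 2 * r * n := by positivity
  rw [one_div_lt (cnr_pos (by omega) (by omega)) h1]
  exact h

theorem cnr_one {n : ℕ} : cnr n 1 = 1 / (n + 1) := by
  unfold cnr
  norm_num

theorem cnr_curve {r : ℕ} (hr : 0 < r) : cnr 1 r = 1 / (2 * r) := by
  unfold cnr
  have : (0 : ℝ) < r := by exact_mod_cast hr
  norm_num
  field_simp
  ring

end Pool.Agent.SQ
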