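import Pool.Agent.Helper42.SQ.GDefs
import Pool.Agent.Helper64.QP.Conj
import Pool.Agent.Helper21.V2.AR5
import Pool.Agent.Helper21.V2.BA

/-!
# SQ, block DATA2: quadratic fields give `QS`
-/

set_option autoImplicit false

namespace Pool.Agent.SQ

open NumberField Finset Module
open Pool.Agent.Helper64.Vojta (Pl nv sn above mem_above nv_nonneg nv_mul nv_one nv_zero nv_pos sn_pos le_sn
  log_support fin_support_sn fin_support_nv above_unique mult_le_two)
open Pool.Agent.Helper52.Vojta (ldeg nv_above sum_ldeg nv_norm exists_below logHeight_eq_sum)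
open Pool.Agent.V2
open Pool.Agent.Chart (fld dg crd val hgt lam)

universe u

section

variable {k : Type u} {L : Type u} [Field k] [NumberField k] [Field L] [NumberField L] [Algebra k L]

private theorem above_ne6 (v : Pl k) : ∃ w : Pl L, w ∈ above L v := by
  have hfd : FiniteDimensional k L := FiniteDimensional.right ℚ k L
  by_contra h
  push Not at h
  have h1 := sum_ldeg (L' := L) v
  have h2 : above L v = ∅ := eq_empty_of_forall_notMem h
  rw [h2, sum_empty] at h1
  exact (finrank_pos (R := k) (M := L)).ne h1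

/-- a place above `v` -/
private noncomputable def pw6 (L : Type u) [Field L] [NumberField L] [Algebra k L] (v : Pl k) : Pl L :=
  Classical.choose (above_ne6 (L := L) v)

private theorem pw6_mem (v : Pl k) : pw6 L v ∈ above L v := Classical.choose_spec (above_ne6 (L := L) v)

/-- the absolute value -/
private noncomputable def NN6 (L : Type u) [Field L] [NumberField L] [Algebra k L] (v : Pl k) (z : L) : ℝ :=
  nv (pw6 L v) z ^ ((ldeg v (pw6 L v) : ℝ)⁻¹)

private theorem ldeg_pos6 (v : Pl k) : (0 : ℝ) < ldeg v (pw6 L v) := by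
  exact_mod_cast Nat.pos_of_ne_zero (Pool.Agent.QP.ldeg_ne_zero (pw6_mem (L := L) v))

private theorem inv_pos6 (v : Pl k) : (0 : ℝ) < (ldeg v (pw6 L v) : ℝ)⁻¹ := inv_pos.2 (ldeg_pos6 v)

private theorem inv_le6 (v : Pl k) : (ldeg v (pw6 L v) : ℝ)⁻¹ ≤ 1 := by
  refine inv_le_one_of_one_le₀ ?_
  exact_mod_cast Nat.one_le_iff_ne_zero.2 (Pool.Agent.QP.ldeg_ne_zero (pw6_mem (L := L) v))

private theorem log_NN6 (v : Pl k) {z : L} (hz : z ≠ 0) :
    Real.log (NN6 L v z) = (ldeg v (pw6 L v) : ℝ)⁻¹ * Real.log (nv (pw6 L v) z) := by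
  unfold NN6
  rw [Real.log_rpow (nv_pos _ hz)]

private theorem mxn_NN6 (v : Pl k) {m : ℕ} (X : Fin m → L) (hX : X ≠ 0) :
    Real.log (mxn (NN6 L v) X) = (ldeg v (pw6 L v) : ℝ)⁻¹ * Real.log (sn (pw6 L v) X) := by
  have hm : Nonempty (Fin m) := by
    obtain ⟨i, _⟩ := Function.ne_iff.mp hX
    exact ⟨i⟩
  have h1 : mxn (NN6 L v) X = sn (pw6 L v) X ^ ((ldeg v (pw6 L v) : ℝ)⁻¹) := by
    obtain ⟨a, ha⟩ := exists_eq_ciSup_of_finite (f := fun i => nv (pw6 L v) (X i))
    have ha' : nv (pw6 L v) (X a) = sn (pw6 L v) X := ha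
    unfold mxn
    refine le_antisymm ?_ ?_
    · refine ciSup_le fun i => ?_
      exact Real.rpow_le_rpow (nv_nonneg _ _) (le_sn _ X i) (inv_pos6 v).le
    · rw [← ha']
      exact le_ciSup (f := fun i => NN6 L v (X i)) (Set.finite_range _).bddAbove a
  rw [h1, Real.log_rpow (sn_pos _ hX)]

private theorem nv_add6 (w : Pl L) (x y : L) : nv w (x + y) ≤ 4 * max (nv w x) (nv w y) := by
  rcases w with w | w
  · have h1 : w (x + y) ≤ 2 * max (w x) (w y) := by
      have h2 : w (x + y) ≤ w x + w y := w.1.add_le _ _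
      have h3 := le_max_left (w x) (w y)
      have h4 := le_max_right (w x) (w y)
      linarith
    have h0 : 0 ≤ max (w x) (w y) := (apply_nonneg w x).trans (le_max_left _ _)
    have hmax : max (nv (.inl w) x) (nv (.inl w) y) = max (w x) (w y) ^ w.mult := by
      show max (w x ^ w.mult) (w y ^ w.mult) = _
      rcases le_total (w x) (w y) with h | h
      · rw [max_eq_right h, max_eq_right (pow_le_pow_left₀ (apply_nonneg w x) h _)]
      · rw [max_eq_left h, max_eq_left (pow_le_pow_left₀ (apply_nonneg w y) h _)]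
    rw [hmax]
    calc nv (.inl w) (x + y) = w (x + y) ^ w.mult := rfl
      _ ≤ (2 * max (w x) (w y)) ^ w.mult := pow_le_pow_left₀ (apply_nonneg w _) h1 _
      _ = 2 ^ w.mult * max (w x) (w y) ^ w.mult := mul_pow _ _ _
      _ ≤ 4 * max (w x) (w y) ^ w.mult := by
        refine mul_le_mul_of_nonneg_right ?_ (pow_nonneg h0 _)
        calc (2 : ℝ) ^ w.mult ≤ 2 ^ 2 := pow_le_pow_right₀ (by norm_num) (mult_le_two w)
          _ = 4 := by norm_num
  · have h1 : nv (.inr w) (x + y) ≤ max (nv (.inr w) x) (nv (.inr w) y) := FinitePlace.add_le w _ _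
    have h0 : 0 ≤ max (nv (.inr w) x) (nv (.inr w) y) := (nv_nonneg _ x).trans (le_max_left _ _)
    linarith

private theorem max_rpow6 {a b e : ℝ} (ha : 0 ≤ a) (hb : 0 ≤ b) (he : 0 ≤ e) : max a b ^ e = max (a ^ e) (b ^ e) := by
  rcases le_total a b with h | h
  · rw [max_eq_right h, max_eq_right (Real.rpow_le_rpow ha h he)]
  · rw [max_eq_left h, max_eq_left (Real.rpow_le_rpow hb h he)]

/-- places of `k` below a finite set of places -/
private theorem below6 (F : Finset (Pl L)) : ∃ T : Finset (Pl k), (∀ w ∈ F, ∃ v ∈ T, w ∈ above L v) ∧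
    ∀ v, v ∉ T → ∀ w ∈ above L v, w ∉ F := by
  classical
  refine ⟨F.image fun w => Classical.choose (exists_below (L := k) w), fun w hw => ?_, fun v hv w hw hwF => hv ?_⟩
  · exact ⟨_, mem_image_of_mem _ hw, Classical.choose_spec (exists_below (L := k) w)⟩
  · have h1 := Classical.choose_spec (exists_below (L := k) w)
    have h2 : v = Classical.choose (exists_below (L := k) w) := above_unique (mem_above.1 hw) (mem_above.1 h1)
    rw [h2]
    exact mem_image_of_mem _ hwF

/-- the sum over all places, grouped by the places below -/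
private theorem gsum_above6 {m : ℕ} {X : Fin m → L} (hX : X ≠ 0) :
    gsum (fun v : Pl k => ∑ w ∈ above L v, Real.log (sn w X)) = Height.logHeight X ∧
      FinS (fun v : Pl k => ∑ w ∈ above L v, Real.log (sn w X)) := by
  classical
  have hf : (Function.support fun w : FinitePlace L => Real.log (sn (.inr w) X)).Finite :=
    log_support _ (fin_support_sn hX)
  set F : Finset (Pl L) := univ.image Sum.inl ∪ hf.toFinset.image Sum.inr with hF
  obtain ⟨T, hT1, hT2⟩ := below6 (k := k) F
  have hFinl : ∀ w : InfinitePlace L, Sum.inl w ∈ F := fun w => by simp [hF]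
  have hFinr : ∀ w : FinitePlace L, Real.log (sn (.inr w) X) ≠ 0 → Sum.inr w ∈ F := fun w hw => by
    rw [hF, mem_union]
    exact Or.inr (mem_image_of_mem _ (by rw [Set.Finite.mem_toFinset]; exact hw))
  have hzero : ∀ v : Pl k, v ∉ T → ∑ w ∈ above L v, Real.log (sn w X) = 0 := by
    intro v hv
    refine sum_eq_zero fun w hw => ?_
    have h1 := hT2 v hv w hw
    rcases w with w | w
    · exact absurd (hFinl w) h1
    · by_contra h2
      exact h1 (hFinr w h2)
  refine ⟨?_, AR5.finS_supp T _ hzero⟩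
  rw [AR5.gsum_supp T _ hzero, logHeight_eq_sum hX (T.biUnion fun v => above L v) ?_ ?_, sum_biUnion]
  · intro v hv v' hv' hne
    rw [Function.onFun, disjoint_left]
    intro w hw hw'
    exact hne (above_unique (mem_above.1 hw) (mem_above.1 hw'))
  · intro w
    obtain ⟨v, hv, hw⟩ := hT1 _ (hFinl w)
    exact mem_biUnion.2 ⟨v, hv, hw⟩
  · intro w hw
    obtain ⟨v, hv, hw'⟩ := hT1 _ (hFinr w hw)
    exact mem_biUnion.2 ⟨v, hv, hw'⟩

variable {σ : L →ₐ[k] L}

/-- the sum over the places above `v` through one place -/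
private theorem sum_pl6 {v : Pl k} (h : Pool.Agent.QP.PlCj σ v (pw6 L v)) (f : Pl L → ℝ) (g : ℝ)
    (hg : ∀ w' : Pl L, (∀ z, nv w' z = nv (pw6 L v) (σ z)) → f w' = g)
    (hg' : (∀ z, nv (pw6 L v) (σ z) = nv (pw6 L v) z) → g = f (pw6 L v)) :
    (ldeg v (pw6 L v) : ℝ)⁻¹ * f (pw6 L v) + (ldeg v (pw6 L v) : ℝ)⁻¹ * g =
      2 * ((∑ w ∈ above L v, f w) / finrank k L) := by
  classical
  rcases h with ⟨h1, h2, h3⟩ | ⟨w', h1, h2, h3, h4, h5⟩
  · rw [h1, sum_singleton, h2, hg' h3]
    ring
  · have h6 : above L v = {pw6 L v, w'} := by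
      ext u
      rw [h2 u, mem_insert, mem_singleton]
    rw [h6, sum_pair h1.symm, h3, h4, hg w' h5]
    push_cast
    ring

private theorem logsn6 {m : ℕ} (w w' : Pl L) (X Y : Fin m → L) (h : ∀ i, nv w (X i) = nv w' (Y i)) :
    Real.log (sn w X) = Real.log (sn w' Y) := by
  have h1 : sn w X = sn w' Y := by
    unfold sn
    exact congrArg iSup (funext h)
  rw [h1]

private theorem qs6 (σ : L ≃ₐ[k] L) (hinv : ∀ z, σ (σ z) = z) (hfix : ∀ z, σ z = z → z ∈ (algebraMap k L).range)
    (hpl : ∀ (v : Pl k) (w : Pl L), w ∈ above L v → Pool.Agent.QP.PlCj (σ : L →ₐ[k] L) v w) : QS σ (NN6 (k := k) L) := by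
  have hfd : FiniteDimensional k L := FiniteDimensional.right ℚ k L
  have hkey : ∀ (v : Pl k) (x : L), x ≠ 0 → Real.log (NN6 L v x) + Real.log (NN6 L v (σ x)) =
      2 * ((∑ w ∈ above L v, Real.log (nv w x)) / finrank k L) := by
    intro v x hx
    have hx' : σ x ≠ 0 := (map_ne_zero σ).2 hx
    rw [log_NN6 v hx, log_NN6 v hx']
    refine sum_pl6 (σ := (σ : L →ₐ[k] L)) (hpl v _ (pw6_mem v)) (fun w => Real.log (nv w x))
      (Real.log (nv (pw6 L v) (σ x))) ?_ ?_
    · intro w' hw'
      show Real.log (nv w' x) = _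
      rw [hw' x]
      rfl
    · intro hw'
      have := hw' x
      show Real.log (nv (pw6 L v) (σ x)) = Real.log (nv (pw6 L v) x)
      rw [← this]
      rfl
  refine ⟨fun v => ?_, fun v x hx => ?_, fun v x y => ?_, fun v x y => ?_, fun v x y => ?_, fun v x => ?_, fun x hx => ?_,
    fun x hx => ?_, hinv, fun x hx => ?_⟩
  · unfold NN6
    rw [nv_zero, Real.zero_rpow (inv_pos6 v).ne']
  · exact Real.rpow_pos_of_pos (nv_pos _ hx) _
  · unfold NN6
    rw [nv_mul, Real.mul_rpow (nv_nonneg _ _) (nv_nonneg _ _)]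
  · unfold NN6
    rw [← max_rpow6 (nv_nonneg _ _) (nv_nonneg _ _) (inv_pos6 v).le]
    have h0 : 0 ≤ max (nv (pw6 L v) x) (nv (pw6 L v) y) := (nv_nonneg _ _).trans (le_max_left _ _)
    refine (Real.rpow_le_rpow (nv_nonneg _ _) (nv_add6 (pw6 L v) x y) (inv_pos6 v).le).trans ?_
    rw [Real.mul_rpow (by norm_num) h0]
    refine mul_le_mul_of_nonneg_right ?_ (Real.rpow_nonneg h0 _)
    calc (4 : ℝ) ^ ((ldeg v (pw6 L v) : ℝ)⁻¹) ≤ 4 ^ (1 : ℝ) :=
          Real.rpow_le_rpow_of_exponent_le (by norm_num) (inv_le6 v)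
      _ = 4 := Real.rpow_one 4
  · have hw := pw6_mem (L := L) (.inr v : Pl k)
    have h1 : nv (pw6 L (.inr v : Pl k)) (x + y) ≤ max (nv (pw6 L (.inr v : Pl k)) x) (nv (pw6 L (.inr v : Pl k)) y) := by
      rw [mem_above] at hw
      generalize pw6 L (.inr v : Pl k) = w at hw
      rcases w with w | w
      · exact absurd hw id
      · exact FinitePlace.add_le w _ _
    unfold NN6
    rw [← max_rpow6 (nv_nonneg _ _) (nv_nonneg _ _) (inv_pos6 (.inr v : Pl k)).le]
    exact Real.rpow_le_rpow (nv_nonneg _ _) h1 (inv_pos6 (.inr v : Pl k)).le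
  · unfold NN6
    rw [nv_above (pw6_mem v), ← Real.rpow_natCast, ← Real.rpow_mul (nv_nonneg _ _), mul_inv_cancel₀ (ldeg_pos6 v).ne',
      Real.rpow_one]
  · classical
    have hf : (Function.support fun w : FinitePlace L => Real.log (nv (.inr w) x)).Finite :=
      log_support _ (fin_support_nv hx)
    obtain ⟨T, _, hT2⟩ := below6 (k := k) (univ.image Sum.inl ∪ hf.toFinset.image Sum.inr)
    refine AR5.finS_supp T _ fun v hv => ?_
    rw [log_NN6 v hx]
    have h1 := hT2 v hv _ (pw6_mem v)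
    generalize pw6 L v = w at h1
    rcases w with w | w
    · exact absurd (by simp) h1
    · have h2 : Real.log (nv (.inr w) x) = 0 := by
        by_contra h2
        refine h1 ?_
        rw [mem_union]
        exact Or.inr (mem_image_of_mem _ (by rw [Set.Finite.mem_toFinset]; exact h2))
      rw [h2, mul_zero]
  · have h1 : (fun v : Pl k => Real.log (NN6 L v x) + Real.log (NN6 L v (σ x))) =
        fun v => (2 / finrank k L : ℝ) * Real.log (nv v (Algebra.norm k x)) := by
      funext v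
      rw [hkey v x hx, nv_norm, Real.log_prod (fun w _ => (nv_pos w hx).ne')]
      ring
    rw [h1, gsum_const_mul, gsum_nv ((Algebra.norm_ne_zero_iff).2 hx), mul_zero]
  · obtain ⟨c, hc⟩ := hfix x hx
    exact ⟨c, hc.symm⟩

private theorem main6 (h : finrank k L ≤ 2) : ∃ (σ : L ≃ₐ[k] L) (N : Pl k → L → ℝ), QS σ N ∧
    ∀ (m : ℕ) (X : Fin m → L), X ≠ 0 →
      2 * (Height.logHeight X / finrank k L) =
        gsum (fun v => Real.log (mxn (N v) X) + Real.log (mxn (N v) fun i => σ (X i))) ∧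
      ∀ (v : Pl k) (z : L), z ≠ 0 →
        2 * ((∑ w ∈ above L v, (Real.log (sn w X) - Real.log (nv w z))) / finrank k L) =
          (Real.log (mxn (N v) X) - Real.log (N v z)) +
            (Real.log (mxn (N v) fun i => σ (X i)) - Real.log (N v (σ z))) := by
  obtain ⟨σ0, hinv, hfix, _, hpl⟩ := Pool.Agent.QP.exists_sig (k := k) (L := L) h
  let σ : L ≃ₐ[k] L := AlgEquiv.ofAlgHom σ0 σ0 (AlgHom.ext hinv) (AlgHom.ext hinv)
  have hσ : (σ : L →ₐ[k] L) = σ0 := AlgHom.ext fun z => rfl
  refine ⟨σ, NN6 L, qs6 σ hinv hfix (by rw [hσ]; exact hpl), fun m X hX => ?_⟩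
  have hX' : (fun i => σ (X i)) ≠ 0 := by
    intro h0
    apply hX
    funext i
    have h1 := congrFun h0 i
    exact (map_eq_zero σ).1 h1
  have hsn : ∀ v : Pl k, Real.log (mxn (NN6 L v) X) + Real.log (mxn (NN6 L v) fun i => σ (X i)) =
      2 * ((∑ w ∈ above L v, Real.log (sn w X)) / finrank k L) := by
    intro v
    rw [mxn_NN6 v X hX, mxn_NN6 v _ hX']
    refine sum_pl6 (σ := σ0) (hpl v _ (pw6_mem v)) (fun w => Real.log (sn w X))
      (Real.log (sn (pw6 L v) fun i => σ (X i))) ?_ ?_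
    · intro w' hw'
      exact logsn6 _ _ _ _ fun i => hw' (X i)
    · intro hw'
      exact logsn6 _ _ _ _ fun i => hw' (X i)
  have hnv : ∀ (v : Pl k) (z : L), z ≠ 0 → Real.log (NN6 L v z) + Real.log (NN6 L v (σ z)) =
      2 * ((∑ w ∈ above L v, Real.log (nv w z)) / finrank k L) := by
    intro v z hz
    have hz' : σ z ≠ 0 := (map_ne_zero σ).2 hz
    rw [log_NN6 v hz, log_NN6 v hz']
    refine sum_pl6 (σ := σ0) (hpl v _ (pw6_mem v)) (fun w => Real.log (nv w z))
      (Real.log (nv (pw6 L v) (σ z))) ?_ ?_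
    · intro w' hw'
      exact congrArg Real.log (hw' z)
    · intro hw'
      exact congrArg Real.log (hw' z)
  constructor
  · have h1 : (fun v : Pl k => Real.log (mxn (NN6 L v) X) + Real.log (mxn (NN6 L v) fun i => σ (X i))) =
        fun v => (2 / finrank k L : ℝ) * ∑ w ∈ above L v, Real.log (sn w X) := by
      funext v
      rw [hsn v]
      ring
    rw [h1, gsum_const_mul, (gsum_above6 (k := k) hX).1]
    ring
  · intro v z hz
    have h1 := hsn v
    have h2 := hnv v z hz
    rw [sum_sub_distrib]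
    linear_combination -h1 + h2

end

theorem data2 {k : Type u} [Field k] [NumberField k] {d : ℕ} (x : Fin (d + 1) → AlgebraicClosure k) (h1 : ∃ j, x j = 1)
    (hd : dg x ≤ 2) : ∃ (σ : fld x ≃ₐ[k] fld x) (N : Pl k → fld x → ℝ), QS σ N ∧
      2 * hgt x = (gsum fun v => Real.log (mxn (N v) (crd x)) + Real.log (mxn (N v) fun i => σ (crd x i))) ∧
      ∀ (v : Pl k) (m : Fin (d + 1) → k), val m x ≠ 0 → 2 * lam m v x =
        (Real.log (mxn (N v) (crd x)) - Real.log (N v (val m x))) +
          (Real.log (mxn (N v) fun i => σ (crd x i)) - Real.log (N v (σ (val m x)))) := by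
  obtain ⟨σ, N, h2, h3⟩ := main6 (k := k) (L := fld x) hd
  have hX : crd x ≠ 0 := by
    obtain ⟨j, hj⟩ := h1
    intro h0
    have h4 : (crd x j : fld x) = 0 := congrFun h0 j
    have h5 : ((crd x j : fld x) : AlgebraicClosure k) = x j := rfl
    rw [h4, hj] at h5
    exact zero_ne_one h5
  obtain ⟨h4, h5⟩ := h3 _ (crd x) hX
  exact ⟨σ, N, h2, h4, fun v m hm => h5 v (val m x) hm⟩

end Pool.Agent.SQ
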