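import Pool.Agent.Helper42.SQ.Defs

/-!
# SQ, stage 2: definitions (algebra, several factors, a finite group)
-/

set_option autoImplicit false

namespace Pool.Agent.SQ

open Module Polynomial

/-- The inequality of Brunn and Minkowski for `g` factors. -/
def BMg (g w : ℕ) {k K : Type*} [Field k] [Field K] [Algebra k K] (Q : Submodule k K) (A : Fin g → Submodule k K) : Prop :=
  g ^ (g * w) * ∏ i, finrank k (A i) ≤ finrank k ↥((∏ i, A i) * Q) ^ g

/-- the elements of `E` fixed by the group -/
def fx {k K G : Type*} [Field k] [Field K] [Algebra k K] [Group G] (s : G →* (K ≃ₐ[k] K)) (E : Submodule k K) :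
    Submodule k K where
  carrier := {z | z ∈ E ∧ ∀ g, s g z = z}
  zero_mem' := ⟨E.zero_mem, fun g => map_zero _⟩
  add_mem' := by
    rintro x y ⟨h1, h2⟩ ⟨h3, h4⟩
    exact ⟨E.add_mem h1 h3, fun g => by rw [map_add, h2, h4]⟩
  smul_mem' := by
    rintro c x ⟨h1, h2⟩
    exact ⟨E.smul_mem c h1, fun g => by rw [map_smul, h2]⟩

end Pool.Agent.SQ
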