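import Mathlib

/-!
# SQ, stage 2, block EFX: families of products of forms in the coordinate ring of a projective variety
-/

set_option autoImplicit false

namespace Pool.Agent.SQ

open Module MvPolynomial Filter

universe u

section count

/-- the exponents of degree `e` -/
private noncomputable def T38 (n e : ℕ) : Finset (Fin (n + 1) →₀ ℕ) :=
  Finset.finsuppAntidiag (Finset.univ : Finset (Fin (n + 1))) e

private theorem mem_T38 {n e : ℕ} {α : Fin (n + 1) →₀ ℕ} : α ∈ T38 n e ↔ α.degree = e := by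
  rw [T38, Finset.mem_finsuppAntidiag, Finsupp.degree_eq_sum]
  exact ⟨fun h => h.1, fun h => ⟨h, Finset.subset_univ _⟩⟩

private theorem card_T38 (n e : ℕ) : (T38 n e).card = (n + e).choose e := by
  rw [T38, Finset.card_finsuppAntidiag_nat_eq_choose, Finset.card_univ, Fintype.card_fin]
  congr 1
  omega

private theorem pi_T38 (n e : ℕ) (g : (Fin (n + 1) → ℕ) → ℝ) :
    ∑ α ∈ T38 n e, g α = ∑ a ∈ (Finset.univ : Finset (Fin (n + 1))).piAntidiag e, g a := by
  have h1 : ∀ a : Fin (n + 1) → ℕ, a ∈ (Finset.univ : Finset (Fin (n + 1))).piAntidiag e ↔ ∑ i, a i = e := by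
    intro a
    rw [Finset.mem_piAntidiag]
    exact ⟨fun h => h.1, fun h => ⟨h, fun i _ => Finset.mem_univ i⟩⟩
  refine Finset.sum_nbij' (fun α => (α : Fin (n + 1) → ℕ)) (fun a => Finsupp.equivFunOnFinite.symm a) ?_ ?_ ?_ ?_ ?_
  · intro α hα
    rw [mem_T38, Finsupp.degree_eq_sum] at hα
    exact (h1 _).2 hα
  · intro a ha
    rw [mem_T38, Finsupp.degree_eq_sum]
    exact (h1 _).1 ha
  · intro α _
    ext i
    rfl
  · intro a _
    rfl
  · intro α _
    rfl

private theorem sum_T38 (n e : ℕ) (i : Fin (n + 1)) :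
    ((n : ℝ) + 1) * ∑ α ∈ T38 n e, (α i : ℝ) = e * (T38 n e).card := by
  have hsym : ∀ i', ∑ α ∈ T38 n e, (α i' : ℝ) = ∑ α ∈ T38 n e, (α i : ℝ) := by
    intro i'
    have hm : ∀ α ∈ T38 n e, Finsupp.equivMapDomain (Equiv.swap i i') α ∈ T38 n e := by
      intro α hα
      rw [mem_T38] at hα ⊢
      rw [← hα, Finsupp.degree_eq_sum, Finsupp.degree_eq_sum]
      simp only [Finsupp.equivMapDomain_apply]
      exact Equiv.sum_comp (Equiv.swap i i').symm α
    have hi : ∀ α : Fin (n + 1) →₀ ℕ,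
        Finsupp.equivMapDomain (Equiv.swap i i') (Finsupp.equivMapDomain (Equiv.swap i i') α) = α := by
      intro α
      ext j
      simp only [Finsupp.equivMapDomain_apply, Equiv.symm_swap, Equiv.swap_apply_self]
    refine Finset.sum_nbij' (fun α => Finsupp.equivMapDomain (Equiv.swap i i') α)
      (fun α => Finsupp.equivMapDomain (Equiv.swap i i') α) hm hm (fun α _ => hi α) (fun α _ => hi α) ?_
    intro α _
    simp only [Finsupp.equivMapDomain_apply, Equiv.symm_swap, Equiv.swap_apply_left]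
  have h1 : ∑ i', ∑ α ∈ T38 n e, (α i' : ℝ) = ((n : ℝ) + 1) * ∑ α ∈ T38 n e, (α i : ℝ) := by
    rw [Finset.sum_congr rfl fun i' _ => hsym i', Finset.sum_const, Finset.card_univ, Fintype.card_fin, nsmul_eq_mul]
    push_cast
    ring
  rw [← h1, Finset.sum_comm]
  have h2 : ∀ α ∈ T38 n e, ∑ i', (α i' : ℝ) = e := by
    intro α hα
    rw [mem_T38, Finsupp.degree_eq_sum] at hα
    exact_mod_cast hα
  rw [Finset.sum_congr rfl h2, Finset.sum_const, nsmul_eq_mul, mul_comm]

private theorem choose_pos38 (n e : ℕ) : (0 : ℝ) < ((n + e).choose e : ℝ) := by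
  exact_mod_cast Nat.choose_pos (by omega)

theorem efx_tend (n c : ℕ) :
    Tendsto (fun e : ℕ => ((n + (e + c)).choose (e + c) : ℝ) / ((n + e).choose e : ℝ)) atTop (nhds 1) := by
  induction c with
  | zero =>
    refine tendsto_const_nhds.congr fun e => ?_
    rw [add_zero, div_self (choose_pos38 n e).ne']
  | succ c ih =>
    have h1 : Tendsto (fun e : ℕ => 1 + (n : ℝ) / ((e : ℝ) + (c + 1))) atTop (nhds (1 + 0)) := by
      refine tendsto_const_nhds.add ?_
      exact tendsto_const_nhds.div_atTop (tendsto_natCast_atTop_atTop.atTop_add tendsto_const_nhds)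
    have h2 := ih.mul h1
    rw [add_zero, mul_one] at h2
    refine h2.congr fun e => ?_
    have h3 := Nat.add_one_mul_choose_eq (n + (e + c)) (e + c)
    have h4 : (((n + (e + c)).choose (e + c) : ℕ) : ℝ) * ((n : ℝ) + e + c + 1) =
        ((n + (e + (c + 1))).choose (e + (c + 1)) : ℝ) * ((e : ℝ) + c + 1) := by
      have e1 : n + (e + (c + 1)) = n + (e + c) + 1 := by ring
      have e2 : e + (c + 1) = e + c + 1 := by ring
      rw [e1, e2]
      have h5 : (((n + (e + c) + 1) * (n + (e + c)).choose (e + c) : ℕ) : ℝ) =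
        (((n + (e + c) + 1).choose (e + c + 1) * (e + c + 1) : ℕ) : ℝ) := by rw [h3]
      push_cast at h5
      linarith
    have h6 : (0 : ℝ) < (e : ℝ) + c + 1 := by positivity
    have h7 : 1 + (n : ℝ) / ((e : ℝ) + (c + 1)) = ((n : ℝ) + e + c + 1) / ((e : ℝ) + c + 1) := by
      field_simp
      ring
    rw [h7, div_mul_div_comm, h4, mul_div_mul_right _ _ h6.ne']

private theorem asym38 (n C c : ℕ) {ε : ℝ} (hε : 0 < ε) : ∃ e0 : ℕ, ∀ e ≥ e0,
    (1 - ε) * (C + e) * ((n + (e + c)).choose (e + c) : ℝ) ≤ e * ((n + e).choose e : ℝ) := by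
  have h1 : Tendsto (fun e : ℕ => 1 + (C : ℝ) / e) atTop (nhds (1 + 0)) :=
    tendsto_const_nhds.add (tendsto_const_nhds.div_atTop tendsto_natCast_atTop_atTop)
  have h2 := ((efx_tend n c).mul h1).const_mul (1 - ε)
  have h3 : (1 - ε) * (1 * (1 + 0)) < 1 := by linarith
  have h4 := h2.eventually (gt_mem_nhds h3)
  obtain ⟨e0, he0⟩ := eventually_atTop.1 (h4.and (eventually_gt_atTop 0))
  refine ⟨e0, fun e he => ?_⟩
  obtain ⟨h5, h6⟩ := he0 e he
  have h7 : (0 : ℝ) < e := by exact_mod_cast h6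
  have h8 := choose_pos38 n e
  have h9 : (1 - ε) * (((n + (e + c)).choose (e + c) : ℝ) / ((n + e).choose e : ℝ) * (1 + (C : ℝ) / e)) =
      (1 - ε) * (C + e) * ((n + (e + c)).choose (e + c) : ℝ) / (e * ((n + e).choose e : ℝ)) := by
    field_simp
    ring
  rw [h9] at h5
  exact ((div_lt_one (mul_pos h7 h8)).1 h5).le

private theorem fin38 {n D e c0 F r : ℕ} {ε : ℝ} (h4 : F ≤ r * (T38 n (e + c0)).card)
    (h5 : (1 - ε) * (D + e) * ((n + (e + c0)).choose (e + c0) : ℝ) ≤ e * ((n + e).choose e : ℝ)) (i : Fin (n + 1)) :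
    (1 - ε) * (((D + e : ℕ) : ℝ) / (n + 1)) * F ≤ r * ∑ α ∈ T38 n e, (α i : ℝ) := by
  have h2 := sum_T38 n e i
  have hn : (0 : ℝ) < (n : ℝ) + 1 := by positivity
  have h3 : ∑ α ∈ T38 n e, (α i : ℝ) = e * (T38 n e).card / ((n : ℝ) + 1) := by
    rw [eq_div_iff hn.ne', ← h2, mul_comm]
  rw [h3]
  have h4' : (F : ℝ) ≤ r * (T38 n (e + c0)).card := by exact_mod_cast h4
  rw [← card_T38, ← card_T38] at h5
  have h6 : (1 - ε) * (D + e) * F ≤ r * (e * (T38 n e).card) := by
    by_cases hε1 : 1 - ε ≤ 0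
    · have : (1 - ε) * (D + e) * F ≤ 0 :=
        mul_nonpos_of_nonpos_of_nonneg (mul_nonpos_of_nonpos_of_nonneg hε1 (by positivity)) (by positivity)
      exact this.trans (by positivity)
    · push Not at hε1
      calc (1 - ε) * (D + e) * F ≤ (1 - ε) * (D + e) * (r * (T38 n (e + c0)).card) :=
            mul_le_mul_of_nonneg_left h4' (mul_nonneg hε1.le (by positivity))
        _ = r * ((1 - ε) * (D + e) * (T38 n (e + c0)).card) := by ring
        _ ≤ _ := mul_le_mul_of_nonneg_left h5 (by positivity)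
  push_cast
  calc (1 - ε) * (((D : ℝ) + e) / (n + 1)) * F = ((1 - ε) * (D + e) * F) / (n + 1) := by ring
    _ ≤ (r * (e * (T38 n e).card)) / (n + 1) := div_le_div_of_nonneg_right h6 hn.le
    _ = _ := by ring

end count

section poly

variable {k : Type u} [Field k]

private theorem hc_mul38 {σ : Type*} {t : ℕ} (p q : MvPolynomial σ k) (hq : q.IsHomogeneous t) (e : ℕ) :
    homogeneousComponent (e + t) (p * q) = homogeneousComponent e p * q := by
  have h1 : ∀ i, homogeneousComponent (e + t) (homogeneousComponent i p * q) =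
      if e = i then homogeneousComponent i p * q else 0 := by
    intro i
    have h2 : (homogeneousComponent i p * q).IsHomogeneous (i + t) := (homogeneousComponent_isHomogeneous i p).mul hq
    rw [homogeneousComponent_of_mem h2]
    by_cases h : e = i
    · rw [if_pos (by omega), if_pos h]
    · rw [if_neg (by omega), if_neg h]
  conv_lhs => rw [← sum_homogeneousComponent p, Finset.sum_mul, map_sum]
  simp only [h1]
  rw [Finset.sum_ite_eq]
  split_ifs with h
  · rfl
  · rw [Finset.mem_range, not_lt] at h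
    rw [homogeneousComponent_eq_zero _ _ (by omega), zero_mul]

private theorem hc_aeval38 {σ τ : Type*} (f : τ → MvPolynomial σ k) {d : ℕ} (hd : 0 < d)
    (hf : ∀ i, (f i).IsHomogeneous d) (a : MvPolynomial τ k) (e : ℕ) :
    homogeneousComponent (d * e) (aeval f a) = aeval f (homogeneousComponent e a) := by
  have h1 : ∀ i, homogeneousComponent (d * e) (aeval f (homogeneousComponent i a)) =
      if e = i then aeval f (homogeneousComponent i a) else 0 := by
    intro i
    have h2 : (aeval f (homogeneousComponent i a)).IsHomogeneous (d * i) :=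
      (homogeneousComponent_isHomogeneous i a).aeval f hf
    rw [homogeneousComponent_of_mem h2]
    by_cases h : e = i
    · rw [if_pos (by rw [h]), if_pos h]
    · rw [if_neg (fun h3 => h (Nat.eq_of_mul_eq_mul_left hd h3)), if_neg h]
  conv_lhs => rw [← sum_homogeneousComponent a, map_sum, map_sum]
  simp only [h1]
  rw [Finset.sum_ite_eq]
  split_ifs with h
  · rfl
  · rw [Finset.mem_range, not_lt] at h
    rw [homogeneousComponent_eq_zero _ _ (by omega), map_zero]

private theorem mono_mem38 {N M : ℕ} {J : Ideal (MvPolynomial (Fin (N + 1)) k)} (hJ : ∀ j, (X j) ^ M ∈ J) {e : ℕ}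
    (he : (N + 1) * M ≤ e) {x : MvPolynomial (Fin (N + 1)) k} (hx : x.IsHomogeneous e) : x ∈ J := by
  rw [x.as_sum]
  refine J.sum_mem fun μ hμ => ?_
  have h1 : μ.degree = e := by
    have := hx (mem_support_iff.1 hμ)
    rwa [Finsupp.degree_eq_weight_one]
  obtain ⟨j, hj⟩ : ∃ j, M ≤ μ j := by
    by_contra hcon
    push Not at hcon
    rw [Finsupp.degree_eq_sum] at h1
    have h2 : ∑ j, μ j < ∑ _j : Fin (N + 1), M :=
      Finset.sum_lt_sum_of_nonempty Finset.univ_nonempty fun j _ => hcon j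
    rw [Finset.sum_const, Finset.card_univ, Fintype.card_fin, smul_eq_mul] at h2
    omega
  have h2 : μ = Finsupp.single j M + (μ - Finsupp.single j M) :=
    (add_tsub_cancel_of_le (Finsupp.single_le_iff.2 hj)).symm
  rw [h2, monomial_single_add]
  exact J.mul_mem_right _ (hJ j)

variable {N n d : ℕ} {I : Ideal (MvPolynomial (Fin (N + 1)) k)}
  {f : Fin (n + 1) → MvPolynomial (Fin (N + 1)) k}

private theorem key38 (hI : ∀ p ∈ I, ∀ m, MvPolynomial.homogeneousComponent m p ∈ I)
    (hf : ∀ i, (f i).IsHomogeneous d) (hfin : ∃ M, ∀ j, (MvPolynomial.X j) ^ M ∈ I ⊔ Ideal.span (Set.range f)) :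
    ∃ D, ∀ e, D ≤ e → ∀ x : MvPolynomial (Fin (N + 1)) k, x.IsHomogeneous (e + d) →
      ∃ h : Fin (n + 1) → MvPolynomial (Fin (N + 1)) k, (∀ l, (h l).IsHomogeneous e) ∧ x - ∑ l, h l * f l ∈ I := by
  obtain ⟨M, hM⟩ := hfin
  refine ⟨(N + 1) * M, fun e he x hx => ?_⟩
  have h1 := mono_mem38 hM (show (N + 1) * M ≤ e + d by omega) hx
  obtain ⟨i, hi, y, hy, hxy⟩ := Submodule.mem_sup.1 h1
  obtain ⟨c, hc⟩ := Ideal.mem_span_range_iff_exists_fun.1 hy
  refine ⟨fun l => homogeneousComponent e (c l), fun l => homogeneousComponent_isHomogeneous e (c l), ?_⟩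
  have h2 : homogeneousComponent (e + d) x = homogeneousComponent (e + d) i +
      ∑ l, homogeneousComponent e (c l) * f l := by
    rw [← hxy, map_add, ← hc, map_sum]
    congr 1
    exact Finset.sum_congr rfl fun l _ => hc_mul38 (c l) (f l) (hf l) e
  rw [homogeneousComponent_eq_self hx] at h2
  rw [h2, add_sub_cancel_right]
  exact hI i hi _

private theorem span38 {D : ℕ} (hD : ∀ e, D ≤ e → ∀ x : MvPolynomial (Fin (N + 1)) k, x.IsHomogeneous (e + d) →
      ∃ h : Fin (n + 1) → MvPolynomial (Fin (N + 1)) k, (∀ l, (h l).IsHomogeneous e) ∧ x - ∑ l, h l * f l ∈ I)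
    (T : AddSubgroup (MvPolynomial (Fin (N + 1)) k ⧸ I))
    (hT : ∀ l, ∀ x ∈ T, Ideal.Quotient.mk I (f l) * x ∈ T) {e0 : ℕ} (he0 : D ≤ e0)
    (h0 : ∀ x : MvPolynomial (Fin (N + 1)) k, x.IsHomogeneous e0 → Ideal.Quotient.mk I x ∈ T) :
    ∀ (m : ℕ) (x : MvPolynomial (Fin (N + 1)) k), x.IsHomogeneous (e0 + d * m) → Ideal.Quotient.mk I x ∈ T := by
  intro m
  induction m with
  | zero => exact h0
  | succ m ih =>
    intro x hx
    have e1 : e0 + d * (m + 1) = (e0 + d * m) + d := by ring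
    rw [e1] at hx
    obtain ⟨h, h1, h2⟩ := hD _ (by omega) x hx
    have h3 : Ideal.Quotient.mk I x = ∑ l, Ideal.Quotient.mk I (f l) * Ideal.Quotient.mk I (h l) := by
      rw [← sub_eq_zero, ← map_zero (Ideal.Quotient.mk I)]
      have h4 := Ideal.Quotient.eq_zero_iff_mem.2 h2
      rw [map_sub, map_sum] at h4
      simp only [map_mul] at h4
      rw [map_zero, ← h4]
      congr 1
      exact Finset.sum_congr rfl fun l _ => mul_comm _ _
    rw [h3]
    exact T.sum_mem fun l _ => hT l _ (ih _ (h1 l))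

/-- the image is integral over the subalgebra generated by the forms -/
private theorem alg38 (hd : 0 < d) (hI : ∀ p ∈ I, ∀ m, MvPolynomial.homogeneousComponent m p ∈ I)
    (hf : ∀ i, (f i).IsHomogeneous d) (hfin : ∃ M, ∀ j, (MvPolynomial.X j) ^ M ∈ I ⊔ Ideal.span (Set.range f)) :
    Module.Finite (Algebra.adjoin k (Set.range fun l => Ideal.Quotient.mk I (f l)))
      (MvPolynomial (Fin (N + 1)) k ⧸ I) := by
  obtain ⟨D, hD⟩ := key38 hI hf hfin
  obtain ⟨B, hB⟩ : ∃ B, B = Algebra.adjoin k (Set.range fun l => Ideal.Quotient.mk I (f l)) := ⟨_, rfl⟩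
  rw [← hB]
  have hfin : {μ : Fin (N + 1) →₀ ℕ | μ.degree ≤ D + d}.Finite := Finsupp.finite_of_degree_le _
  obtain ⟨W, hW⟩ : ∃ W : Submodule B (MvPolynomial (Fin (N + 1)) k ⧸ I), W = Submodule.span B
      ((fun μ : Fin (N + 1) →₀ ℕ => Ideal.Quotient.mk I (monomial μ (1 : k))) '' {μ | μ.degree ≤ D + d}) := ⟨_, rfl⟩
  have hsc : ∀ (c : k), ∀ x ∈ W, Ideal.Quotient.mk I (C c) * x ∈ W := by
    intro c x hx
    have h1 := W.smul_mem (algebraMap k B c) hx
    have h2 : (algebraMap k B c) • x = Ideal.Quotient.mk I (C c) * x := by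
      rw [Subalgebra.smul_def, smul_eq_mul]
      rfl
    rwa [h2] at h1
  have hfl : ∀ l, ∀ x ∈ W, Ideal.Quotient.mk I (f l) * x ∈ W := by
    intro l x hx
    have hm : Ideal.Quotient.mk I (f l) ∈ B := by
      rw [hB]
      exact Algebra.subset_adjoin ⟨l, rfl⟩
    exact W.smul_mem (⟨_, hm⟩ : B) hx
  have hlow : ∀ (e : ℕ) (x : MvPolynomial (Fin (N + 1)) k), e ≤ D + d → x.IsHomogeneous e →
      Ideal.Quotient.mk I x ∈ W := by
    intro e x he hx
    rw [x.as_sum, map_sum]
    refine W.sum_mem fun μ hμ => ?_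
    have h1 : μ.degree = e := by
      have := hx (mem_support_iff.1 hμ)
      rwa [Finsupp.degree_eq_weight_one]
    have h2 : (monomial μ (coeff μ x)) = C (coeff μ x) * monomial μ (1 : k) := by
      rw [C_mul_monomial, mul_one]
    rw [h2, map_mul]
    apply hsc
    rw [hW]
    exact Submodule.subset_span ⟨μ, by rw [Set.mem_ofPred_eq, h1]; exact he, rfl⟩
  have hall : ∀ (e : ℕ) (x : MvPolynomial (Fin (N + 1)) k), x.IsHomogeneous e → Ideal.Quotient.mk I x ∈ W := by
    intro e x hx
    by_cases he : e ≤ D + d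
    · exact hlow e x he hx
    · have h1 : e = (D + (e - D) % d) + d * ((e - D) / d) := by
        have := Nat.mod_add_div (e - D) d
        omega
      have h2 := Nat.mod_lt (e - D) hd
      rw [h1] at hx
      exact span38 hD W.toAddSubgroup hfl (by omega) (fun y hy => hlow _ y (by omega) hy) _ x hx
  have htop : W = ⊤ := by
    rw [eq_top_iff]
    intro y _
    obtain ⟨x, rfl⟩ := Ideal.Quotient.mk_surjective y
    rw [← sum_homogeneousComponent x, map_sum]
    exact W.sum_mem fun e _ => hall e _ (homogeneousComponent_isHomogeneous e x)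
  constructor
  rw [Submodule.fg_def]
  exact ⟨_, hfin.image _, by rw [← hW, htop]⟩

private theorem indep38 [I.IsPrime] (hd : 0 < d) (hI : ∀ p ∈ I, ∀ m, MvPolynomial.homogeneousComponent m p ∈ I)
    (hdim : Algebra.trdeg k (MvPolynomial (Fin (N + 1)) k ⧸ I) = n + 1)
    (hf : ∀ i, (f i).IsHomogeneous d) (hfin : ∃ M, ∀ j, (MvPolynomial.X j) ^ M ∈ I ⊔ Ideal.span (Set.range f)) :
    AlgebraicIndependent k fun l => Ideal.Quotient.mk I (f l) := by
  have h1 := alg38 hd hI hf hfin
  have h2 : Algebra.IsIntegral (Algebra.adjoin k (Set.range fun l => Ideal.Quotient.mk I (f l)))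
      (MvPolynomial (Fin (N + 1)) k ⧸ I) := inferInstance
  obtain ⟨t, ht, hb⟩ := exists_isTranscendenceBasis_subset (R := k)
    (Set.range fun l => Ideal.Quotient.mk I (f l))
  have h3 := hb.cardinalMk_eq_trdeg
  rw [hdim] at h3
  have hfr : (Set.range fun l => Ideal.Quotient.mk I (f l)).Finite := Set.finite_range _
  have htf : t.Finite := hfr.subset ht
  have h4 : t.ncard = n + 1 := by
    have h5 : (t.ncard : Cardinal.{u}) = ((n + 1 : ℕ) : Cardinal.{u}) := by
      rw [Set.cast_ncard htf, h3]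
      push_cast
      rfl
    exact_mod_cast h5
  have h5 : (Set.range fun l => Ideal.Quotient.mk I (f l)).ncard ≤ n + 1 := by
    rw [← Set.image_univ]
    refine (Set.ncard_image_le Set.finite_univ).trans ?_
    rw [Set.ncard_univ, Nat.card_eq_fintype_card, Fintype.card_fin]
  have h6 : t = Set.range fun l => Ideal.Quotient.mk I (f l) := Set.eq_of_subset_of_ncard_le ht (by omega) hfr
  have h7 : Function.Injective fun l => Ideal.Quotient.mk I (f l) := by
    have h8 : (Set.range fun l => Ideal.Quotient.mk I (f l)).ncard = n + 1 := by rw [← h6, h4]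
    rw [← Set.image_univ] at h8
    have h9 := (Set.ncard_image_iff (s := Set.univ) (f := fun l => Ideal.Quotient.mk I (f l)) Set.finite_univ).1 (by
      rw [h8, Set.ncard_univ, Nat.card_eq_fintype_card, Fintype.card_fin])
    exact Set.injOn_univ.1 h9
  have h8 : ∀ l, Ideal.Quotient.mk I (f l) ∈ t := fun l => by rw [h6]; exact ⟨l, rfl⟩
  exact hb.1.comp (fun l => (⟨Ideal.Quotient.mk I (f l), h8 l⟩ : t)) fun a b hab => h7 (congrArg Subtype.val hab)

end poly

private theorem prod_sum38 {α β : Type*} (A : Finset α) (s : Finset β) (g : α → ℝ) :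
    ∑ p : A × s, g p.1.1 = s.card * ∑ a ∈ A, g a := by
  rw [Fintype.sum_prod_type]
  simp only [Finset.sum_const, Finset.card_univ, Fintype.card_coe, nsmul_eq_mul]
  rw [← Finset.mul_sum, Finset.sum_coe_sort A g]

private theorem max38 {A R ι : Type*} [CommRing A] [IsDomain A] [AddCommGroup R] [Module A R] [Fintype ι]
    (v : ι → R) : ∃ (s : Finset ι) (c : A), c ≠ 0 ∧ LinearIndependent A (fun i : s => v i) ∧
      ∀ y ∈ Submodule.span A (Set.range v), ∃ g : ι → A, c • y = ∑ i ∈ s, g i • v i := by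
  classical
  obtain ⟨s, hs, hmax⟩ := exists_maximal_linearIndepOn A v
  have h1 : ∀ i, ∃ a : A, a ≠ 0 ∧ a • v i ∈ Submodule.span A (v '' s) := by
    intro i
    by_cases hi : i ∈ s
    · exact ⟨1, one_ne_zero, by rw [one_smul]; exact Submodule.subset_span ⟨i, hi, rfl⟩⟩
    · exact hmax i hi
  choose a ha0 ha using h1
  refine ⟨s.toFinite.toFinset, ∏ i, a i, Finset.prod_ne_zero_iff.2 fun i _ => ha0 i, ?_, fun y hy => ?_⟩
  · have e1 : ∀ i, i ∈ s.toFinite.toFinset ↔ i ∈ s := fun i => Set.Finite.mem_toFinset _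
    have h2 : LinearIndependent A (fun i : s => v i) := hs
    exact h2.comp (fun i : s.toFinite.toFinset => (⟨i.1, (e1 _).1 i.2⟩ : s)) fun i j hij => by
      have h3 := congrArg Subtype.val hij
      exact Subtype.ext h3
  · have h3 : (∏ i, a i) • y ∈ Submodule.span A (v '' s) := by
      induction hy using Submodule.span_induction with
      | mem x hx =>
        obtain ⟨i, rfl⟩ := hx
        rw [← Finset.prod_erase_mul _ _ (Finset.mem_univ i), mul_smul]
        exact Submodule.smul_mem _ _ (ha i)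
      | zero => rw [smul_zero]; exact Submodule.zero_mem _
      | add x y _ _ hx hy => rw [smul_add]; exact Submodule.add_mem _ hx hy
      | smul b x _ hx => rw [smul_comm]; exact Submodule.smul_mem _ _ hx
    have h4 : (v '' s) = v '' (s.toFinite.toFinset : Set ι) := by rw [Set.Finite.coe_toFinset]
    rw [h4, Submodule.mem_span_image_finset_iff_exists_fun'] at h3
    obtain ⟨g, hg⟩ := h3
    exact ⟨g, hg.symm⟩

/-! ### the structure of the coordinate ring -/

/-- The families `f ^ a * b_j`, `|a| = e`, `j < ρ`, are linearly independent, and almost generate the part of degree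
`d * (D + e)` of the coordinate ring. -/
theorem efx_core {k : Type u} [Field k] {N n d : ℕ} (hd : 0 < d) (I : Ideal (MvPolynomial (Fin (N + 1)) k)) [I.IsPrime]
    (hI : ∀ p ∈ I, ∀ m, MvPolynomial.homogeneousComponent m p ∈ I)
    (hdim : Algebra.trdeg k (MvPolynomial (Fin (N + 1)) k ⧸ I) = n + 1)
    (f : Fin (n + 1) → MvPolynomial (Fin (N + 1)) k) (hf : ∀ i, (f i).IsHomogeneous d)
    (hfin : ∃ M, ∀ j, (MvPolynomial.X j) ^ M ∈ I ⊔ Ideal.span (Set.range f)) :
    ∃ D c0 ρ : ℕ, ∀ e : ℕ, finrank k ((MvPolynomial.homogeneousSubmodule (Fin (N + 1)) k (d * (D + e))).map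
        (Ideal.Quotient.mkₐ k I).toLinearMap) ≤ ρ * (n + (e + c0)).choose (e + c0) ∧
      ∃ (r : ℕ) (α : Fin r → Fin (n + 1) → ℕ) (b : Fin r → MvPolynomial (Fin (N + 1)) k),
        (∀ t, ∑ i, α t i = e) ∧ (∀ t, (b t).IsHomogeneous (d * D)) ∧
        LinearIndependent k (fun t => Ideal.Quotient.mk I ((∏ i, f i ^ α t i) * b t)) ∧
        ∀ g : (Fin (n + 1) → ℕ) → ℝ,
          ∑ t, g (α t) = ρ * ∑ a ∈ (Finset.univ : Finset (Fin (n + 1))).piAntidiag e, g a := by
  classical
  have hind := indep38 hd hI hdim hf hfin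
  obtain ⟨D, hD⟩ := key38 hI hf hfin
  -- the algebra structure
  obtain ⟨φ, hφ⟩ : ∃ φ : MvPolynomial (Fin (n + 1)) k →ₐ[k] (MvPolynomial (Fin (N + 1)) k ⧸ I),
    φ = (Ideal.Quotient.mkₐ k I).comp (aeval f) := ⟨_, rfl⟩
  have hφa : ∀ a, φ a = Ideal.Quotient.mk I (aeval f a) := fun a => by rw [hφ]; rfl
  have hφi : Function.Injective φ := by
    have e1 : φ = aeval fun l => Ideal.Quotient.mk I (f l) := by
      apply MvPolynomial.algHom_ext
      intro l
      rw [hφa, aeval_X, aeval_X]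
    rw [e1]
    exact hind
  let _ : Algebra (MvPolynomial (Fin (n + 1)) k) (MvPolynomial (Fin (N + 1)) k ⧸ I) := φ.toRingHom.toAlgebra
  have hsmul : ∀ (a : MvPolynomial (Fin (n + 1)) k) (y : MvPolynomial (Fin (N + 1)) k ⧸ I), a • y = φ a * y :=
    fun a y => rfl
  have htow : IsScalarTower k (MvPolynomial (Fin (n + 1)) k) (MvPolynomial (Fin (N + 1)) k ⧸ I) := by
    refine ⟨fun c a y => ?_⟩
    rw [hsmul, hsmul, map_smul, smul_mul_assoc]
  -- the generators of degree `d * D`
  have hfinite : {μ : Fin (N + 1) →₀ ℕ | μ.degree = d * D}.Finite := Finsupp.finite_of_degree_eq _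
  obtain ⟨ι, hι⟩ : ∃ ι : Finset (Fin (N + 1) →₀ ℕ), ι = hfinite.toFinset := ⟨_, rfl⟩
  have memι : ∀ μ, μ ∈ ι ↔ μ.degree = d * D := by
    intro μ
    rw [hι, Set.Finite.mem_toFinset, Set.mem_ofPred_eq]
  obtain ⟨v, hv⟩ : ∃ v : ι → (MvPolynomial (Fin (N + 1)) k ⧸ I),
    v = fun μ => Ideal.Quotient.mk I (monomial μ.1 (1 : k)) := ⟨_, rfl⟩
  have hvhom : ∀ μ : ι, (monomial μ.1 (1 : k)).IsHomogeneous (d * D) := fun μ =>
    isHomogeneous_monomial _ ((memι _).1 μ.2)
  obtain ⟨s, c, hc0, hs, hspan⟩ := max38 (A := MvPolynomial (Fin (n + 1)) k) v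
  -- the homogeneous multiplier
  obtain ⟨c0, hc⟩ : ∃ c0, homogeneousComponent c0 c ≠ 0 := by
    by_contra hcon
    push Not at hcon
    apply hc0
    rw [← sum_homogeneousComponent c]
    exact Finset.sum_eq_zero fun i _ => hcon i
  obtain ⟨ct, hct⟩ : ∃ ct, ct = homogeneousComponent c0 c := ⟨_, rfl⟩
  rw [← hct] at hc
  have hφc : φ ct ≠ 0 := fun h => hc (hφi (by rw [h, map_zero]))
  -- membership in the span of the generators
  have hmem : ∀ (e : ℕ) (x : MvPolynomial (Fin (N + 1)) k), x.IsHomogeneous (d * D + d * e) →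
      Ideal.Quotient.mk I x ∈ Submodule.span (MvPolynomial (Fin (n + 1)) k) (Set.range v) := by
    intro e x hx
    refine span38 hD (Submodule.span (MvPolynomial (Fin (n + 1)) k) (Set.range v)).toAddSubgroup ?_
      (Nat.le_mul_of_pos_left D hd) ?_ e x hx
    · intro l y hy
      have h1 := (Submodule.span (MvPolynomial (Fin (n + 1)) k) (Set.range v)).smul_mem (X l) hy
      rw [hsmul, hφa, aeval_X] at h1
      exact h1
    · intro y hy
      rw [y.as_sum, map_sum]
      refine (Submodule.span (MvPolynomial (Fin (n + 1)) k) (Set.range v)).sum_mem fun μ hμ => ?_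
      have h1 : μ.degree = d * D := by
        have := hy (mem_support_iff.1 hμ)
        rwa [Finsupp.degree_eq_weight_one]
      have h2 : Ideal.Quotient.mk I (monomial μ (coeff μ y)) =
          (C (coeff μ y) : MvPolynomial (Fin (n + 1)) k) • v ⟨μ, (memι μ).2 h1⟩ := by
        rw [hsmul, hφa, aeval_C, hv, ← map_mul]
        congr 1
        rw [MvPolynomial.algebraMap_eq, C_mul_monomial, mul_one]
      rw [h2]
      exact Submodule.smul_mem _ _ (Submodule.subset_span ⟨_, rfl⟩)
  -- the family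
  have hfam : ∀ e : ℕ, LinearIndependent k fun p : (T38 n e) × s =>
      (monomial p.1.1 (1 : k) : MvPolynomial (Fin (n + 1)) k) • v p.2 := by
    intro e
    refine linearIndependent_smul (b := fun a : T38 n e => (monomial a.1 (1 : k) : MvPolynomial (Fin (n + 1)) k))
      (c := fun i : s => v i) ?_ hs
    exact (MvPolynomial.basisMonomials (Fin (n + 1)) k).linearIndependent.comp (fun a : T38 n e => a.1)
      Subtype.val_injective
  -- the upper bound for the dimension
  have hup : ∀ e : ℕ, finrank k ((MvPolynomial.homogeneousSubmodule (Fin (N + 1)) k (d * (D + e))).map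
      (Ideal.Quotient.mkₐ k I).toLinearMap) ≤ s.card * (T38 n (e + c0)).card := by
    intro e
    obtain ⟨U, hU⟩ : ∃ U : Submodule k (MvPolynomial (Fin (N + 1)) k ⧸ I), U = Submodule.span k
      (Set.range fun p : (T38 n (e + c0)) × s => (monomial p.1.1 (1 : k) : MvPolynomial (Fin (n + 1)) k) • v p.2) :=
        ⟨_, rfl⟩
    have hUf : FiniteDimensional k U := by
      rw [hU]
      exact FiniteDimensional.span_of_finite k (Set.finite_range _)
    have hUc : finrank k U ≤ s.card * (T38 n (e + c0)).card := by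
      rw [hU]
      refine (finrank_range_le_card _).trans ?_
      rw [Fintype.card_prod, Fintype.card_coe, Fintype.card_coe, mul_comm]
    obtain ⟨V, hV⟩ : ∃ V : Submodule k (MvPolynomial (Fin (N + 1)) k ⧸ I), V =
      (MvPolynomial.homogeneousSubmodule (Fin (N + 1)) k (d * (D + e))).map
      (Ideal.Quotient.mkₐ k I).toLinearMap := ⟨_, rfl⟩
    rw [← hV]
    have hinj : Function.Injective (LinearMap.mulLeft k (φ ct)) := fun x y hxy =>
      mul_left_cancel₀ hφc hxy
    have hle : V.map (LinearMap.mulLeft k (φ ct)) ≤ U := by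
      rintro _ ⟨_, hyV, rfl⟩
      rw [hV] at hyV
      obtain ⟨x, hx, rfl⟩ := hyV
      have hx' : x.IsHomogeneous (d * (D + e)) := hx
      have hx2 : x.IsHomogeneous (d * D + d * e) := by rwa [← mul_add]
      obtain ⟨g, hg⟩ := hspan _ (hmem e x hx2)
      -- lift to polynomials
      have h1 : aeval f c * x - ∑ i ∈ s, aeval f (g i) * monomial i.1 (1 : k) ∈ I := by
        rw [← Ideal.Quotient.eq_zero_iff_mem, map_sub, map_mul, map_sum, sub_eq_zero, ← hφa]
        refine (hg.trans (Finset.sum_congr rfl fun i _ => ?_))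
        rw [hsmul, hφa, map_mul, hv]
      have h2 := hI _ h1 (d * c0 + d * (D + e))
      rw [map_sub, map_sum, hc_mul38 _ _ hx', hc_aeval38 f hd hf, ← hct] at h2
      have h3 : ∀ i : ι, homogeneousComponent (d * c0 + d * (D + e)) (aeval f (g i) * monomial i.1 (1 : k)) =
          aeval f (homogeneousComponent (e + c0) (g i)) * monomial i.1 (1 : k) := by
        intro i
        have e1 : d * c0 + d * (D + e) = d * (e + c0) + d * D := by ring
        rw [e1, hc_mul38 _ _ (hvhom i), hc_aeval38 f hd hf]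
      simp only [h3] at h2
      rw [← Ideal.Quotient.eq_zero_iff_mem, map_sub, map_mul, map_sum, sub_eq_zero, ← hφa] at h2
      show φ ct * Ideal.Quotient.mk I x ∈ U
      rw [h2]
      refine U.sum_mem fun i hi => ?_
      rw [map_mul, ← hφa, (homogeneousComponent (e + c0) (g i)).as_sum, map_sum, Finset.sum_mul]
      refine U.sum_mem fun μ hμ => ?_
      have h4 : μ.degree = e + c0 := by
        have := homogeneousComponent_isHomogeneous (e + c0) (g i) (mem_support_iff.1 hμ)
        rwa [Finsupp.degree_eq_weight_one]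
      have h5 : φ (monomial μ (coeff μ (homogeneousComponent (e + c0) (g i)))) *
          Ideal.Quotient.mk I (monomial i.1 (1 : k)) =
          coeff μ (homogeneousComponent (e + c0) (g i)) • ((monomial μ (1 : k)) • v i) := by
        rw [hsmul, ← smul_mul_assoc, ← map_smul, MvPolynomial.smul_monomial, smul_eq_mul, mul_one, hv]
      rw [h5]
      apply U.smul_mem
      rw [hU]
      exact Submodule.subset_span ⟨(⟨μ, mem_T38.2 h4⟩, ⟨i, hi⟩), rfl⟩
    calc finrank k V = finrank k (V.map (LinearMap.mulLeft k (φ ct))) :=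
          (Submodule.equivMapOfInjective _ hinj V).finrank_eq
      _ ≤ finrank k U := Submodule.finrank_mono hle
      _ ≤ _ := hUc
  refine ⟨D, c0, s.card, fun e => ⟨by rw [← card_T38]; exact hup e, ?_⟩⟩
  let E := (Fintype.equivFin ((T38 n e) × s)).symm
  refine ⟨Fintype.card ((T38 n e) × s), fun t i => (E t).1.1 i, fun t => monomial (E t).2.1.1 (1 : k),
    fun t => ?_, fun t => hvhom _, ?_, fun g => ?_⟩
  · have h1 := mem_T38.1 (E t).1.2
    rwa [Finsupp.degree_eq_sum] at h1
  · have h1 := (hfam e).comp E E.injective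
    have e2 : (fun t => Ideal.Quotient.mk I ((∏ i, f i ^ (E t).1.1 i) * monomial (E t).2.1.1 (1 : k))) =
        (fun p : (T38 n e) × s => (monomial p.1.1 (1 : k) : MvPolynomial (Fin (n + 1)) k) • v p.2) ∘ E := by
      funext t
      rw [Function.comp_apply, hsmul, hφa, hv, ← map_mul, aeval_monomial, RingHom.map_one, one_mul, Finsupp.prod_fintype]
      intro i
      rw [pow_zero]
    rw [e2]
    exact h1
  · rw [← pi_T38]
    exact (Equiv.sum_comp E fun p : (T38 n e) × s => g p.1.1).trans (prod_sum38 (T38 n e) s fun α => g α)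

/-! ### EFX -/

/-- `n + 1` forms of degree `d` without common zero on the variety of `I`, of dimension `n`. -/
theorem efx {k : Type u} [Field k] {N n d : ℕ} (hd : 0 < d) (I : Ideal (MvPolynomial (Fin (N + 1)) k)) [I.IsPrime]
    (hI : ∀ p ∈ I, ∀ m, MvPolynomial.homogeneousComponent m p ∈ I)
    (hdim : Algebra.trdeg k (MvPolynomial (Fin (N + 1)) k ⧸ I) = n + 1)
    (f : Fin (n + 1) → MvPolynomial (Fin (N + 1)) k) (hf : ∀ i, (f i).IsHomogeneous d)
    (hfin : ∃ M, ∀ j, (MvPolynomial.X j) ^ M ∈ I ⊔ Ideal.span (Set.range f)) {ε : ℝ} (hε : 0 < ε) :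
    ∃ m0 : ℕ, ∀ m ≥ m0, ∃ (r : ℕ) (α : Fin r → Fin (n + 1) → ℕ) (β : Fin r → ℕ) (b : Fin r → MvPolynomial (Fin (N + 1)) k),
      (∀ t, ∑ i, α t i + β t = m) ∧ (∀ t, (b t).IsHomogeneous (d * β t)) ∧
      LinearIndependent k (fun t => Ideal.Quotient.mk I ((∏ i, f i ^ α t i) * b t)) ∧
      ∀ i, (1 - ε) * (m / (n + 1)) * finrank k ((MvPolynomial.homogeneousSubmodule (Fin (N + 1)) k (d * m)).map
        (Ideal.Quotient.mkₐ k I).toLinearMap) ≤ ∑ t, (α t i : ℝ) := by
  obtain ⟨D, c0, ρ, hcore⟩ := efx_core hd I hI hdim f hf hfin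
  obtain ⟨e0, he0⟩ := asym38 n D c0 hε
  refine ⟨D + e0, fun m hm => ?_⟩
  obtain ⟨e, rfl⟩ : ∃ e, m = D + e := ⟨m - D, by omega⟩
  have hee : e ≥ e0 := by omega
  obtain ⟨hF, r, α, b, h1, h2, h3, h4⟩ := hcore e
  refine ⟨r, α, fun _ => D, b, fun t => by rw [h1, add_comm], h2, h3, fun i => ?_⟩
  obtain ⟨F, hF'⟩ : ∃ F : ℕ, F = finrank k ((MvPolynomial.homogeneousSubmodule (Fin (N + 1)) k (d * (D + e))).map
        (Ideal.Quotient.mkₐ k I).toLinearMap) := ⟨_, rfl⟩
  rw [← hF', ← card_T38] at hF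
  have h5 := fin38 (D := D) hF (he0 e hee) i
  rw [← hF', h4 fun a => (a i : ℝ), ← pi_T38 n e fun a => (a i : ℝ)]
  exact_mod_cast h5

end Pool.Agent.SQ
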