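import Pool.Agent.Helper42.SQ.Defs

/-!
# SQ, block EX: linear algebra over `k(X)` for polynomials with coefficients in `K`
-/

set_option autoImplicit false

namespace Pool.Agent.SQ

open Module Polynomial

universe u

section

variable {k K : Type u} [Field k] [Field K] [Algebra k K]

private theorem ex_inj (k K : Type u) [Field k] [Field K] [Algebra k K] :
    Function.Injective (mapRingHom (algebraMap k K) : k[X] →+* K[X]) := by
  intro p q h
  exact Polynomial.map_injective _ (algebraMap k K).injective h

/-- the embedding `k(X) → K(X)` -/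
private noncomputable def ex_emb (k K : Type u) [Field k] [Field K] [Algebra k K] :
    FractionRing k[X] →+* FractionRing K[X] :=
  IsFractionRing.map (ex_inj k K)

private theorem ex_emb_alg (p : k[X]) :
    ex_emb k K (algebraMap k[X] (FractionRing k[X]) p) =
      algebraMap K[X] (FractionRing K[X]) (p.map (algebraMap k K)) := by
  unfold ex_emb IsFractionRing.map
  rw [IsLocalization.map_eq]
  rfl

/-- the structure of a vector space over `k(X)` on `K(X)` -/
private noncomputable abbrev ex_mod (k K : Type u) [Field k] [Field K] [Algebra k K] :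
    Module (FractionRing k[X]) (FractionRing K[X]) :=
  Module.compHom (FractionRing K[X]) (ex_emb k K)

private noncomputable abbrev ex_i (K : Type u) [Field K] : K[X] →+* FractionRing K[X] :=
  algebraMap K[X] (FractionRing K[X])

private theorem ex_i_inj (K : Type u) [Field K] : Function.Injective (ex_i K) :=
  IsFractionRing.injective K[X] (FractionRing K[X])

attribute [local instance] ex_mod

private theorem ex_smul (q : FractionRing k[X]) (x : FractionRing K[X]) : q • x = ex_emb k K q * x := rfl

private theorem ex_smul_alg (p : k[X]) (x : K[X]) :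
    algebraMap k[X] (FractionRing k[X]) p • ex_i K x = ex_i K (p.map (algebraMap k K) * x) := by
  rw [ex_smul, ex_emb_alg, map_mul]

private theorem ex_den {α : Type*} [Fintype α] (f : α → FractionRing k[X]) :
    ∃ (b : k[X]) (c : α → k[X]), b ≠ 0 ∧ ∀ a, algebraMap k[X] (FractionRing k[X]) (c a) =
      algebraMap k[X] (FractionRing k[X]) b * f a := by
  obtain ⟨b, hb⟩ := IsLocalization.exist_integer_multiples_of_finite (nonZeroDivisors k[X]) f
  choose c hc using hb
  refine ⟨b, c, nonZeroDivisors.coe_ne_zero b, fun a => ?_⟩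
  rw [hc a, Algebra.smul_def]

private theorem ex_lin {α : Type*} [Fintype α] (z : α → K[X]) :
    PInd k z ↔ LinearIndependent (FractionRing k[X]) (fun a => ex_i K (z a)) := by
  constructor
  · intro h
    rw [Fintype.linearIndependent_iff]
    intro g hg
    obtain ⟨b, c, hb, hc⟩ := ex_den g
    have h1 : ∑ a, (c a).map (algebraMap k K) * z a = 0 := by
      apply ex_i_inj K
      rw [map_sum, map_zero]
      calc ∑ a, ex_i K ((c a).map (algebraMap k K) * z a)
          = ∑ a, (algebraMap k[X] (FractionRing k[X]) b * g a) • ex_i K (z a) := by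
            refine Finset.sum_congr rfl fun a _ => ?_
            rw [← ex_smul_alg, hc a]
        _ = algebraMap k[X] (FractionRing k[X]) b • ∑ a, g a • ex_i K (z a) := by
            rw [Finset.smul_sum]
            refine Finset.sum_congr rfl fun a _ => ?_
            rw [mul_smul]
        _ = 0 := by rw [hg, smul_zero]
    have h2 := h c h1
    intro a
    have h3 := hc a
    rw [h2] at h3
    simp only [Pi.zero_apply, map_zero] at h3
    have h4 : algebraMap k[X] (FractionRing k[X]) b ≠ 0 := by
      simpa using hb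
    exact (mul_eq_zero.1 h3.symm).resolve_left h4
  · intro h p hp
    rw [Fintype.linearIndependent_iff] at h
    have h1 := h (fun a => algebraMap k[X] (FractionRing k[X]) (p a)) (by
      rw [← map_zero (ex_i K), ← hp, map_sum]
      refine Finset.sum_congr rfl fun a _ => ?_
      rw [ex_smul_alg])
    funext a
    have h2 := h1 a
    simpa using h2

private theorem ex_dep {α : Type*} [Fintype α] (z : α → K[X]) (y : K[X]) :
    Dep k z y ↔ ex_i K y ∈ Submodule.span (FractionRing k[X]) (Set.range fun a => ex_i K (z a)) := by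
  constructor
  · rintro ⟨p, c, hp, h⟩
    have hp' : algebraMap k[X] (FractionRing k[X]) p ≠ 0 := by simpa using hp
    have h1 : ex_i K y = ∑ a, ((algebraMap k[X] (FractionRing k[X]) p)⁻¹ *
        algebraMap k[X] (FractionRing k[X]) (c a)) • ex_i K (z a) := by
      have h2 : algebraMap k[X] (FractionRing k[X]) p • ex_i K y =
          ∑ a, algebraMap k[X] (FractionRing k[X]) (c a) • ex_i K (z a) := by
        rw [ex_smul_alg, h, map_sum]
        refine Finset.sum_congr rfl fun a _ => ?_
        rw [ex_smul_alg]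
      calc ex_i K y = (algebraMap k[X] (FractionRing k[X]) p)⁻¹ •
            (algebraMap k[X] (FractionRing k[X]) p • ex_i K y) := by
            rw [← mul_smul, inv_mul_cancel₀ hp', one_smul]
        _ = _ := by
            rw [h2, Finset.smul_sum]
            refine Finset.sum_congr rfl fun a _ => ?_
            rw [mul_smul]
    rw [h1]
    exact Submodule.sum_mem _ fun a _ => Submodule.smul_mem _ _ (Submodule.subset_span ⟨a, rfl⟩)
  · intro h
    rw [Submodule.mem_span_range_iff_exists_fun] at h
    obtain ⟨g, hg⟩ := h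
    obtain ⟨b, c, hb, hc⟩ := ex_den g
    refine ⟨b, c, hb, ?_⟩
    apply ex_i_inj K
    rw [map_sum, ← ex_smul_alg, ← hg, Finset.smul_sum]
    refine Finset.sum_congr rfl fun a _ => ?_
    rw [← mul_smul, ← hc a, ex_smul_alg]

theorem exchange {n : ℕ} {α : Type*} [Fintype α] (z : α → K[X]) (y : Fin n → K[X]) (hy : PInd k y)
    (hd : ∀ b, Dep k z (y b)) : ∃ g : Fin n → α, Function.Injective g ∧ PInd k (z ∘ g) := by
  classical
  rw [ex_lin] at hy
  obtain ⟨b, hbs, hbspan, hbi⟩ := exists_linearIndependent (FractionRing k[X])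
    (Set.range fun a => ex_i K (z a))
  have hfin : b.Finite := (Set.finite_range _).subset hbs
  haveI : Fintype b := hfin.fintype
  have hch : ∀ x : b, ∃ a, ex_i K (z a) = x := fun x => hbs x.2
  choose f hf using hch
  have hfinj : Function.Injective f := by
    intro x x' h
    apply Subtype.ext
    rw [← hf x, ← hf x', h]
  -- dimension
  have hcard : n ≤ Fintype.card b := by
    have hmem : ∀ j, ex_i K (y j) ∈ Submodule.span (FractionRing k[X]) b := by
      intro j
      rw [hbspan]
      exact (ex_dep z (y j)).1 (hd j)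
    haveI : FiniteDimensional (FractionRing k[X]) (Submodule.span (FractionRing k[X]) b) :=
      FiniteDimensional.span_of_finite _ hfin
    have hli : LinearIndependent (FractionRing k[X])
        (fun j => (⟨ex_i K (y j), hmem j⟩ : Submodule.span (FractionRing k[X]) b)) := by
      rw [← LinearMap.linearIndependent_iff (Submodule.subtype _) (Submodule.ker_subtype _)]
      exact hy
    have h1 := hli.fintype_card_le_finrank
    rw [Fintype.card_fin] at h1
    refine h1.trans ?_
    have h2 := finrank_span_le_card (R := FractionRing k[X]) b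
    rwa [Set.toFinset_card] at h2
  obtain ⟨e⟩ : Nonempty (Fin n ↪ b) := by
    apply Function.Embedding.nonempty_of_card_le
    rw [Fintype.card_fin]
    exact hcard
  refine ⟨f ∘ e, hfinj.comp e.injective, ?_⟩
  rw [ex_lin]
  have h3 := hbi.comp e e.injective
  have h4 : (fun a => ex_i K ((z ∘ f ∘ e) a)) = (Subtype.val : b → FractionRing K[X]) ∘ e := by
    funext j
    exact hf (e j)
  rw [h4]
  exact h3

theorem dep_mul {α β : Type*} [Fintype α] [Fintype β] {z : α → K[X]} {z' : β → K[X]} {y y' : K[X]} (h : Dep k z y)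
    (h' : Dep k z' y') : Dep k (fun p : α × β => z p.1 * z' p.2) (y * y') := by
  obtain ⟨p, c, hp, h⟩ := h
  obtain ⟨p', c', hp', h'⟩ := h'
  refine ⟨p * p', fun q => c q.1 * c' q.2, mul_ne_zero hp hp', ?_⟩
  rw [Polynomial.map_mul, mul_mul_mul_comm, h, h', Finset.sum_mul_sum, Fintype.sum_prod_type]
  refine Finset.sum_congr rfl fun a _ => Finset.sum_congr rfl fun b _ => ?_
  rw [Polynomial.map_mul]
  ring

theorem dep_add {α : Type*} [Fintype α] {z : α → K[X]} {y y' : K[X]} (h : Dep k z y) (h' : Dep k z y') :
    Dep k z (y + y') := by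
  rw [ex_dep] at h h' ⊢
  rw [map_add]
  exact Submodule.add_mem _ h h'

theorem dep_smul {α : Type*} [Fintype α] {z : α → K[X]} {y : K[X]} (c : k) (h : Dep k z y) : Dep k z (c • y) := by
  obtain ⟨p, d, hp, h⟩ := h
  refine ⟨p, fun a => C c * d a, hp, ?_⟩
  have h1 : c • y = C (algebraMap k K c) * y := by
    rw [← Polynomial.smul_eq_C_mul, algebraMap_smul]
  rw [h1, mul_left_comm, h, Finset.mul_sum]
  refine Finset.sum_congr rfl fun a _ => ?_
  rw [Polynomial.map_mul, Polynomial.map_C, mul_assoc]

theorem dep_trans {α β : Type*} [Fintype α] [Fintype β] {z : α → K[X]} {z' : β → K[X]} {y : K[X]} (h : ∀ b, Dep k z (z' b))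
    (h' : Dep k z' y) : Dep k z y := by
  rw [ex_dep] at h' ⊢
  refine (Submodule.span_le.2 ?_) h'
  rintro _ ⟨b, rfl⟩
  exact (ex_dep z (z' b)).1 (h b)

/-- linearly independent elements of `K` are independent over `k[X]` -/
theorem pind_C {n : ℕ} (e : Fin n → K) (he : LinearIndependent k e) : PInd k fun a => C (e a) := by
  intro p hp
  rw [Fintype.linearIndependent_iff] at he
  funext a
  ext m
  have h1 := congrArg (fun q : K[X] => q.coeff m) hp
  simp only [finset_sum_coeff, coeff_mul_C, coeff_map, coeff_zero] at h1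
  have h2 := he (fun a => (p a).coeff m) (by
    rw [← h1]
    refine Finset.sum_congr rfl fun a _ => ?_
    rw [Algebra.smul_def])
  simpa using h2 a

private theorem ex_basis (E : Submodule k K) [FiniteDimensional k E] (y : K[X]) (hy : ∀ m, y.coeff m ∈ E) :
    Dep k (fun j : Fin (finrank k E) => C ((finBasis k E j : E) : K)) y := by
  classical
  refine ⟨1, fun j => ∑ m ∈ y.support, C ((finBasis k E).repr ⟨y.coeff m, hy m⟩ j) * X ^ m, one_ne_zero, ?_⟩
  rw [Polynomial.map_one, one_mul]
  have hc : ∀ j m, (∑ m ∈ y.support, C ((finBasis k E).repr ⟨y.coeff m, hy m⟩ j) * X ^ m : k[X]).coeff m =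
      (finBasis k E).repr ⟨y.coeff m, hy m⟩ j := by
    intro j m
    rw [finset_sum_coeff]
    simp only [coeff_C_mul, coeff_X_pow]
    by_cases hm : m ∈ y.support
    · rw [Finset.sum_eq_single m]
      · simp
      · intro b _ hb
        rw [if_neg (Ne.symm hb), mul_zero]
      · intro h; exact absurd hm h
    · rw [Finset.sum_eq_zero]
      · have h0 : (⟨y.coeff m, hy m⟩ : E) = 0 := by
          apply Subtype.ext
          simpa using hm
        rw [h0]
        simp
      · intro b hb
        rw [if_neg, mul_zero]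
        rintro rfl
        exact hm hb
  ext m
  rw [finset_sum_coeff]
  simp only [coeff_mul_C, coeff_map]
  have h1 : ∑ j, (finBasis k E).repr ⟨y.coeff m, hy m⟩ j • finBasis k E j = (⟨y.coeff m, hy m⟩ : E) :=
    (finBasis k E).sum_repr _
  have h2 := congrArg (fun x : E => (x : K)) h1
  simp only [Submodule.coe_sum, Submodule.coe_smul] at h2
  rw [← h2]
  refine Finset.sum_congr rfl fun j _ => ?_
  rw [hc, Algebra.smul_def]

/-- polynomials with coefficients in `E` : at most `dim E` are independent -/
theorem pind_le (E : Submodule k K) [FiniteDimensional k E] {n : ℕ} (z : Fin n → K[X]) (hz : PInd k z)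
    (hE : ∀ a m, (z a).coeff m ∈ E) : n ≤ finrank k E := by
  obtain ⟨g, hg, _⟩ := exchange (fun j : Fin (finrank k E) => C ((finBasis k E j : E) : K)) z hz
    fun b => ex_basis E (z b) (hE b)
  have := Fintype.card_le_of_injective g hg
  simpa using this

private theorem ex_ne (k : Type u) {K : Type u} [Field k] [Field K] [Algebra k K] (S : Set K[X]) :
    ({n | ∃ z : Fin n → K[X], (∀ a, z a ∈ S) ∧ PInd k z} : Set ℕ).Nonempty :=
  ⟨0, fun a => a.elim0, fun a => a.elim0, fun _ _ => funext fun a => a.elim0⟩

theorem rk_le (E : Submodule k K) [FiniteDimensional k E] (S : Set K[X]) (hS : ∀ u ∈ S, ∀ m, u.coeff m ∈ E) :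
    rk k S ≤ finrank k E := by
  refine csSup_le (ex_ne k S) ?_
  rintro n ⟨z, hz, hi⟩
  exact pind_le E z hi fun a => hS _ (hz a)

theorem le_rk (E : Submodule k K) [FiniteDimensional k E] (S : Set K[X]) (hS : ∀ u ∈ S, ∀ m, u.coeff m ∈ E) {n : ℕ}
    (z : Fin n → K[X]) (hz : PInd k z) (h : ∀ a, z a ∈ S) : n ≤ rk k S := by
  refine le_csSup ⟨finrank k E, ?_⟩ ⟨z, h, hz⟩
  rintro n ⟨z, hz, hi⟩
  exact pind_le E z hi fun a => hS _ (hz a)

theorem exists_rk (E : Submodule k K) [FiniteDimensional k E] (S : Set K[X]) (hS : ∀ u ∈ S, ∀ m, u.coeff m ∈ E) :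
    ∃ z : Fin (rk k S) → K[X], (∀ a, z a ∈ S) ∧ PInd k z := by
  have h := Nat.sSup_mem (ex_ne k S) ⟨finrank k E, by
    rintro n ⟨z, hz, hi⟩
    exact pind_le E z hi fun a => hS _ (hz a)⟩
  exact h

/-- an independent family of maximal size generates -/
theorem dep_of_rk (E : Submodule k K) [FiniteDimensional k E] (S : Set K[X]) (hS : ∀ u ∈ S, ∀ m, u.coeff m ∈ E) {n : ℕ}
    (hn : rk k S ≤ n) (z : Fin n → K[X]) (hz : PInd k z) (h : ∀ a, z a ∈ S) {y : K[X]} (hy : y ∈ S) : Dep k z y := by
  by_contra hd
  have h1 : PInd k (Fin.cons y z : Fin (n + 1) → K[X]) := by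
    rw [ex_lin]
    rw [ex_dep] at hd
    rw [ex_lin] at hz
    have h2 : (fun a => ex_i K ((Fin.cons y z : Fin (n + 1) → K[X]) a)) =
        (Fin.cons (ex_i K y) (fun a => ex_i K (z a)) : Fin (n + 1) → FractionRing K[X]) := by
      funext a
      refine Fin.cases ?_ (fun i => ?_) a
      · rfl
      · rfl
    rw [h2]
    exact linearIndependent_finCons.2 ⟨hz, hd⟩
  have h3 := le_rk E S hS (Fin.cons y z : Fin (n + 1) → K[X]) h1 (fun a => by
    refine Fin.cases ?_ (fun i => ?_) a
    · exact hy
    · exact h i)
  omega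

theorem dep_full (E : Submodule k K) [FiniteDimensional k E] {n : ℕ} (hn : finrank k E ≤ n) (z : Fin n → K[X])
    (hz : PInd k z) (h : ∀ a m, (z a).coeff m ∈ E) {y : K[X]} (hy : ∀ m, y.coeff m ∈ E) : Dep k z y :=
  dep_of_rk E {u | ∀ m, u.coeff m ∈ E} (fun _ hu => hu) ((rk_le E _ fun _ hu => hu).trans hn) z hz (fun a => h a) hy

end

end Pool.Agent.SQ
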