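import Pool.Agent.Helper42.SQ.FINg
import Pool.Agent.Helper42.SQ.GERg
import Pool.Agent.Helper67.SQ4.SEQw
import Pool.Agent.Helper42.SQ.GABp
import Pool.Agent.Helper24.S7.MON
import Pool.Agent.Helper42.SQ.PHIs

/-!
# SQ, stage 7: all points of bounded degree on `P^n`, uniform in the divisor
-/

set_option autoImplicit false

namespace Pool.Agent.SQ

open NumberField Filter Module MvPolynomial
open Pool.Agent.Helper64.Vojta (Pl nv sn above)
open Pool.Agent.V2
open Pool.Agent.Chart (fld dg crd val hgt lam)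

universe u

section

variable {k : Type u} [Field k] [NumberField k] {G : Type*} [Group G] [Fintype G]

/-- the local constants -/
private noncomputable def lcu (k : Type u) [Field k] [NumberField k] (n : ℕ) (v : Pl k) : ℝ :=
  match v with
  | .inl _ => ((n + 1 : ℕ) : ℝ) * Real.log 4
  | .inr _ => 0

private theorem lcu_finS (n : ℕ) : FinS (lcu k n) := by
  unfold FinS lcu
  simp

private theorem lcu_nonneg (n : ℕ) (v : Pl k) : 0 ≤ lcu k n v := by
  rcases v with v | v
  · exact mul_nonneg (Nat.cast_nonneg _) (Real.log_nonneg (by norm_num))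
  · exact le_refl _

section

variable {L : Type u} [Field L] [Algebra k L] {s : G →* (L ≃ₐ[k] L)} {N : Pl k → L → ℝ} (h : QSG s N)

include h

private theorem N_nonneg_u (v : Pl k) (x : L) : 0 ≤ N v x := by
  by_cases hx : x = 0
  · rw [hx, h.zero v]
  · exact (h.pos v x hx).le

private theorem N_one_u (v : Pl k) : N v 1 = 1 := by
  have h1 := h.ext v 1
  rwa [map_one, Pool.Agent.Helper64.Vojta.nv_one] at h1

private theorem sum_le_inr_u {ι : Type*} (v : FinitePlace k) (t : Finset ι) (f : ι → L) (B : ℝ) (hB : 0 ≤ B)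
    (hf : ∀ i ∈ t, N (.inr v) (f i) ≤ B) : N (.inr v) (∑ i ∈ t, f i) ≤ B := by
  classical
  induction t using Finset.induction_on with
  | empty => rw [Finset.sum_empty, h.zero]; exact hB
  | insert a t ha ih =>
    rw [Finset.sum_insert ha]
    exact (h.ult v _ _).trans (max_le (hf a (Finset.mem_insert_self _ _))
      (ih fun i hi => hf i (Finset.mem_insert_of_mem hi)))

private theorem sum_le_u {ι : Type*} (v : Pl k) (t : Finset ι) (f : ι → L) (B : ℝ) (hB : 0 ≤ B)
    (hf : ∀ i ∈ t, N v (f i) ≤ B) : N v (∑ i ∈ t, f i) ≤ 4 ^ t.card * B := by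
  classical
  induction t using Finset.induction_on with
  | empty =>
    rw [Finset.sum_empty, h.zero, Finset.card_empty, pow_zero, one_mul]
    exact hB
  | insert a t ha ih =>
    rw [Finset.sum_insert ha, Finset.card_insert_of_notMem ha, pow_succ]
    have h1 := ih fun i hi => hf i (Finset.mem_insert_of_mem hi)
    have h2 := hf a (Finset.mem_insert_self _ _)
    have h3 : B ≤ 4 ^ t.card * B := le_mul_of_one_le_left hB (one_le_pow₀ (by norm_num))
    have h4 := h.add v (f a) (∑ i ∈ t, f i)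
    have h5 : max (N v (f a)) (N v (∑ i ∈ t, f i)) ≤ 4 ^ t.card * B := max_le (h2.trans h3) h1
    linarith

private theorem lvg_le_u {n : ℕ} (m : Fin (n + 1) → k) (x : Fin (n + 1) → L) (v : Pl k) (hz : lvg m x ≠ 0) :
    Real.log (N v (lvg m x)) ≤ Real.log (sn v m) + Real.log (mxn (N v) x) + lcu k n v := by
  have hm : m ≠ 0 := by
    rintro rfl
    apply hz
    simp [lvg]
  have hsn := Pool.Agent.Helper64.Vojta.sn_pos v hm
  have hmx : 0 ≤ mxn (N v) x := Real.iSup_nonneg fun a => N_nonneg_u h v (x a)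
  have hterm : ∀ j ∈ Finset.univ, N v (algebraMap k L (m j) * x j) ≤ sn v m * mxn (N v) x := by
    intro j _
    rw [h.mul, h.ext]
    exact mul_le_mul (Pool.Agent.Helper64.Vojta.le_sn v m j) (le_ciSup (Set.finite_range fun a => N v (x a)).bddAbove j)
      (N_nonneg_u h v _) hsn.le
  have hB := mul_nonneg hsn.le hmx
  have h1 : N v (lvg m x) ≤ Real.exp (lcu k n v) * (sn v m * mxn (N v) x) := by
    rcases v with v | v
    · have h1 := sum_le_u h (.inl v) Finset.univ _ _ hB hterm
      have h2 : Real.exp (lcu k n (.inl v)) = 4 ^ (n + 1) := by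
        show Real.exp (((n + 1 : ℕ) : ℝ) * Real.log 4) = _
        rw [← Real.log_pow, Real.exp_log (by positivity)]
      rw [Finset.card_univ, Fintype.card_fin] at h1
      rw [h2]
      exact h1
    · have h1 := sum_le_inr_u h v Finset.univ _ _ hB hterm
      have h2 : Real.exp (lcu k n (.inr v)) = 1 := Real.exp_zero
      rw [h2, one_mul]
      exact h1
  have h2 := h.pos v _ hz
  have h3 := Real.log_le_log h2 h1
  have h4 : mxn (N v) x ≠ 0 := by
    intro h5
    rw [h5, mul_zero, mul_zero] at h1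
    linarith
  rw [Real.log_mul (Real.exp_pos _).ne' (mul_ne_zero hsn.ne' h4), Real.log_exp, Real.log_mul hsn.ne' h4] at h3
  linarith

end

private theorem sn_one_le {n : ℕ} {m : Fin (n + 1) → k} (hm : ∃ j, m j = 1) (v : Pl k) : 1 ≤ sn v m := by
  obtain ⟨j, hj⟩ := hm
  have := Pool.Agent.Helper64.Vojta.le_sn v m j
  rwa [hj, Pool.Agent.Helper64.Vojta.nv_one] at this

private theorem finS_sn {n : ℕ} {m : Fin (n + 1) → k} (hm : m ≠ 0) : FinS fun v => Real.log (sn v m) :=
  Pool.Agent.Helper64.Vojta.log_support _ (Pool.Agent.Helper64.Vojta.fin_support_sn hm)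

private theorem logHeight_gsum {n : ℕ} {m : Fin (n + 1) → k} (hm : m ≠ 0) :
    Height.logHeight m = gsum fun v => Real.log (sn v m) :=
  Pool.Agent.Helper64.Vojta.logHeight_eq hm

private theorem ne_zero_of_one {n : ℕ} {m : Fin (n + 1) → k} (hm : ∃ j, m j = 1) : m ≠ 0 := by
  rintro rfl
  obtain ⟨j, hj⟩ := hm
  exact zero_ne_one hj

private theorem sum_sn_le {n : ℕ} {m : Fin (n + 1) → k} (hm : ∃ j, m j = 1) (P : Finset (Pl k)) :
    ∑ v ∈ P, Real.log (sn v m) ≤ Height.logHeight m := by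
  rw [logHeight_gsum (ne_zero_of_one hm)]
  exact sum_le_gsum (finS_sn (ne_zero_of_one hm)) (fun v => Real.log_nonneg (sn_one_le hm v)) P

section

variable {L : Type u} [Field L] [Algebra k L] {s : G →* (L ≃ₐ[k] L)} {N : Pl k → L → ℝ} (h : QSG s N)

include h

private theorem htg_le_u {n : ℕ} {m : Fin (n + 1) → k} (hm : ∃ j, m j = 1) (j : Fin (n + 1)) :
    htg s N (algebraMap k L (m j)) ≤ Fintype.card G * Height.logHeight m := by
  rw [logHeight_gsum (ne_zero_of_one hm), ← gsum_const_mul]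
  unfold htg
  refine gsum_mono (htg_finS h _) ((finS_sn (ne_zero_of_one hm)).const_mul _) fun v => ?_
  rw [← nsmul_eq_mul, ← Finset.card_univ, ← Finset.sum_const]
  refine Finset.sum_le_sum fun g _ => ?_
  rw [AlgEquiv.commutes, h.ext]
  refine Real.log_le_log (lt_max_of_lt_left one_pos) (max_le (sn_one_le hm v) ?_)
  exact Pool.Agent.Helper64.Vojta.le_sn v m j

private theorem finS_mxn_u {ι : Type} [Fintype ι] (X : ι → L) (a : ι) (ha : X a = 1) :
    FinS fun v => Real.log (mxn (N v) X) := by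
  classical
  have h1 : FinS fun v => ∑ a, Real.log (max 1 (N v (X a))) := by
    refine FinS.sum _ fun a _ => ?_
    by_cases hx : X a = 0
    · have h1 : (fun v => Real.log (max 1 (N v (X a)))) = fun _ => (0 : ℝ) := by
        funext v
        rw [hx, h.zero v, max_eq_left zero_le_one, Real.log_one]
      rw [h1]
      exact FinS.zero
    · refine Set.Finite.subset (h.fin _ hx) fun v hv => ?_
      rw [Function.mem_support] at hv ⊢
      intro h1
      apply hv
      have h2 : N (.inr v) (X a) = 1 := by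
        rcases Real.log_eq_zero.1 h1 with h3 | h3 | h3
        · exact absurd h3 (h.pos _ _ hx).ne'
        · exact h3
        · have := h.pos (.inr v) _ hx
          linarith
      show Real.log (max 1 (N (.inr v) (X a))) = 0
      rw [h2, max_self, Real.log_one]
  refine Set.Finite.subset h1 fun v hv => ?_
  rw [Function.mem_support] at hv ⊢
  intro h2
  apply hv
  have h3 : ∀ b, N (.inr v) (X b) ≤ 1 := by
    intro b
    have h4 := (Finset.sum_eq_zero_iff_of_nonneg fun a _ => Real.log_nonneg (le_max_left 1 (N (.inr v) (X a)))).1 h2 b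
      (Finset.mem_univ b)
    by_contra h5
    rw [not_le] at h5
    rw [max_eq_right h5.le] at h4
    exact absurd h4 (Real.log_pos h5).ne'
  have : Nonempty ι := ⟨a⟩
  have h6 : mxn (N (.inr v)) X = 1 := by
    refine le_antisymm (ciSup_le h3) ?_
    have h7 : N (.inr v) (X a) ≤ mxn (N (.inr v)) X := le_ciSup (Set.finite_range fun a => N (.inr v) (X a)).bddAbove a
    rwa [ha, N_one_u h] at h7
  show Real.log (mxn (N (.inr v)) X) = 0
  rw [h6, Real.log_one]

end

/-- Liouville's inequality, uniformly in the form -/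
private theorem liou_u (G : Type*) [Group G] [Fintype G] (k : Type u) [Field k] [NumberField k] (n : ℕ) : ∃ C : ℝ, 0 ≤ C ∧
    ∀ (L : Type u) [Field L] [Algebra k L] (s : G →* (L ≃ₐ[k] L)) (N : Pl k → L → ℝ), QSG s N →
      ∀ (m : Fin (n + 1) → k), (∃ j, m j = 1) → ∀ (x : Fin (n + 1) → L), (∃ j, x j = 1) → lvg m x ≠ 0 →
      ∀ P : Finset (Pl k), ∑ v ∈ P, ∑ g, (Real.log (sn v m) + Real.log (mxn (N v) fun j => s g (x j)) -
        Real.log (N v (s g (lvg m x)))) ≤ Hg s N x + Fintype.card G * Height.logHeight m + C := by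
  refine ⟨gsum fun v => (Fintype.card G : ℝ) * lcu k n v,
    gsum_nonneg fun v => mul_nonneg (Nat.cast_nonneg _) (lcu_nonneg n v), ?_⟩
  intro L _ _ s N h m hm x hx hz P
  obtain ⟨a, ha⟩ := hx
  have ha' : ∀ g, s g (x a) = 1 := fun g => by rw [ha, map_one]
  have hs : ∀ g, s g (lvg m x) = lvg m fun j => s g (x j) := by
    intro g
    unfold lvg
    rw [map_sum]
    refine Finset.sum_congr rfl fun m _ => ?_
    rw [map_mul, AlgEquiv.commutes]
  have hs0 : ∀ g, s g (lvg m x) ≠ 0 := fun g => by simpa using hz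
  have hm0 := ne_zero_of_one hm
  have f1 : FinS fun v => ∑ g, Real.log (mxn (N v) fun j => s g (x j)) :=
    FinS.sum _ fun g _ => finS_mxn_u h (fun j => s g (x j)) a (ha' g)
  have f2 : FinS fun v => ∑ g, Real.log (N v (s g (lvg m x))) := FinS.sum _ fun g _ => h.fin _ (hs0 g)
  have f3 := (lcu_finS (k := k) n).const_mul (Fintype.card G : ℝ)
  have f5 := (finS_sn hm0).const_mul (Fintype.card G : ℝ)
  have hg : ∀ g v, Real.log (N v (s g (lvg m x))) ≤
      Real.log (sn v m) + Real.log (mxn (N v) fun j => s g (x j)) + lcu k n v := by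
    intro g v
    have h1 := lvg_le_u h m (fun j => s g (x j)) v (by rw [← hs g]; exact hs0 g)
    rwa [← hs g] at h1
  have hid : ∀ v, (∑ g, (Real.log (sn v m) + Real.log (mxn (N v) fun j => s g (x j)) + lcu k n v -
      Real.log (N v (s g (lvg m x))))) =
      (((∑ g, Real.log (mxn (N v) fun j => s g (x j))) + (Fintype.card G : ℝ) * Real.log (sn v m)) +
        (Fintype.card G : ℝ) * lcu k n v) + -(∑ g, Real.log (N v (s g (lvg m x)))) := by
    intro v
    rw [Finset.sum_sub_distrib, Finset.sum_add_distrib, Finset.sum_add_distrib, Finset.sum_const, Finset.sum_const,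
      Finset.card_univ, nsmul_eq_mul, nsmul_eq_mul]
    ring
  have hnn : ∀ v, 0 ≤ (((∑ g, Real.log (mxn (N v) fun j => s g (x j))) + (Fintype.card G : ℝ) * Real.log (sn v m)) +
        (Fintype.card G : ℝ) * lcu k n v) + -(∑ g, Real.log (N v (s g (lvg m x)))) := by
    intro v
    rw [← hid v]
    refine Finset.sum_nonneg fun g _ => ?_
    have := hg g v
    linarith
  have h3 := sum_le_gsum (((f1.add f5).add f3).add f2.neg) hnn P
  rw [gsum_add ((f1.add f5).add f3) f2.neg, gsum_add (f1.add f5) f3, gsum_add f1 f5, gsum_neg, h.prod _ hz, neg_zero,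
    add_zero, gsum_const_mul (fun v => Real.log (sn v m)), ← logHeight_gsum hm0] at h3
  have e1 : Hg s N x = gsum fun v => ∑ g, Real.log (mxn (N v) fun j => s g (x j)) := rfl
  rw [e1]
  refine le_trans (Finset.sum_le_sum fun v _ => ?_) h3
  rw [← hid v]
  refine Finset.sum_le_sum fun g _ => ?_
  have := lcu_nonneg n v
  linarith

end

/-! ### values of polynomials at germs -/

section

variable {k : Type u} [Field k] [NumberField k] {G : Type} [Group G] [Fintype G] {D : SqG k G} (F : GFG D)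

private theorem rp_aeval_u {σ : Type*} [Finite σ] (lam : σ → F.K) (z : ∀ a, σ → D.L a)
    (hz : ∀ p, ∀ᶠ a in (D.U : Filter ℕ), F.rp (lam p) a = z a p) (P : MvPolynomial σ k) :
    ∀ᶠ a in (D.U : Filter ℕ), F.rp (aeval lam P) a = aeval (z a) P := by
  induction P using MvPolynomial.induction_on with
  | C c =>
    filter_upwards [F.rp_alg c] with a h1
    rw [aeval_C, aeval_C, h1]
  | add p q hp hq =>
    filter_upwards [hp, hq, F.rp_add (aeval lam p) (aeval lam q)] with a h1 h2 h3
    rw [map_add, map_add, h3, h1, h2]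
  | mul_X p j hp =>
    filter_upwards [hp, hz j, F.rp_mul (aeval lam p) (lam j)] with a h1 h2 h3
    rw [map_mul, map_mul, aeval_X, aeval_X, h3, h1, h2]

end

private theorem sn_mul_u {k : Type u} [Field k] [NumberField k] {n : ℕ} (v : Pl k) (c : k) (l : Fin (n + 1) → k) :
    sn v (fun j => c * l j) = nv v c * sn v l := by
  unfold sn
  rw [Real.mul_iSup_of_nonneg (Pool.Agent.Helper64.Vojta.nv_nonneg v c)]
  exact congrArg iSup (funext fun j => Pool.Agent.Helper64.Vojta.nv_mul v c (l j))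

private theorem exists_above_u {k : Type u} [Field k] [NumberField k] (L : Type u) [Field L] [NumberField L] [Algebra k L]
    (v : Pl k) : ∃ w, w ∈ above L v := by
  by_contra hcon
  push Not at hcon
  have h1 := Pool.Agent.Helper52.Vojta.sum_ldeg (L' := L) v
  rw [Finset.sum_eq_zero fun w hw => absurd hw (hcon w)] at h1
  have h2 : FiniteDimensional k L := FiniteDimensional.right ℚ k L
  have h3 : 0 < finrank k L := finrank_pos
  omega

private theorem exists_rep_u {G : Type} [Group G] [Fintype G] (Hs : Subgroup G) :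
    ∃ ρ : Fin Hs.index → G, ∀ g, ∃! j, (ρ j)⁻¹ * g ∈ Hs := by
  classical
  have hf : Finite (G ⧸ Hs) := inferInstance
  have e : (G ⧸ Hs) ≃ Fin Hs.index := Finite.equivFinOfCardEq (by rw [Subgroup.index_eq_card])
  refine ⟨fun j => (e.symm j).out, fun g => ⟨e (QuotientGroup.mk g), ?_, ?_⟩⟩
  · simp only [Equiv.symm_apply_apply]
    rw [← QuotientGroup.eq, QuotientGroup.out_eq']
  · intro j hj
    simp only at hj
    rw [← QuotientGroup.eq, QuotientGroup.out_eq'] at hj
    rw [← hj, Equiv.apply_symm_apply]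

theorem fin_unif_p (n q : ℕ) {r : ℕ} (hr : 2 ≤ r) : ∃ Φ : MvPolynomial (Fin q × Fin (n + 1)) ℚ, Φ ≠ 0 ∧
    ∀ (k : Type u) [Field k] [NumberField k] (S : Finset (Pl k)) (ε : ℝ), 0 < ε → ∃ C : ℝ,
      ∀ l : Fin q → Fin (n + 1) → k, aeval (fun p : Fin q × Fin (n + 1) => l p.1 p.2) Φ ≠ 0 →
      ∀ x : Fin (n + 1) → AlgebraicClosure k, (∃ j, x j = 1) → dg x ≤ r → (∀ i, val (l i) x ≠ 0) →
        ∑ ν ∈ S, ∑ i, (Real.log (sn ν (l i)) + lam (l i) ν x) ≤
          (1 / cnr n r + ε) * hgt x + C * (1 + ∑ i, Height.logHeight (l i)) := by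
  classical
  obtain ⟨Φ, hΦ0, hΦs, hΦ⟩ := phi_s.{u} n q
  refine ⟨Φ, hΦ0, ?_⟩
  intro k _ _ S ε hε
  by_contra hcon
  push Not at hcon
  have hcon' := fun m : ℕ => hcon m
  choose l0 hl0 x h1 hr' hv hbig using hcon'
  have hw0 : ∀ (a : ℕ) (v : Pl k), ∃ w, w ∈ above (fld (x a)) v := fun a v => exists_above_u (fld (x a)) v
  choose wp hwp using hw0
  obtain ⟨G, gG, fG, Hs, Cv, Dv, -, φ, hφ, -, hHd, -, y, M, s, hy, hQ, hH, hyH, -, -, hlam, -⟩ :=
    exists_seq_w (T := Unit) x h1 hr' wp hwp S (fun _ => ())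
  have hcnr : 0 < 1 / cnr n r := one_div_pos.2 (cnr_pos' (by omega))
  set c : ℝ := (Fintype.card G : ℝ) with hc
  have hc0 : 0 < c := by
    rw [hc]
    exact_mod_cast Fintype.card_pos
  have hφa : ∀ a, a ≤ φ a := fun a => hφ.le_apply
  have hlv : ∀ a m, lvg m (y a) = 0 ↔ val m (x (φ a)) = 0 := fun a m => val_eq_zero_iff _ _ (hy a) m
  have hy1 : ∀ a, ∃ j, y a j = 1 := by
    intro a
    obtain ⟨j, hj⟩ := h1 (φ a)
    refine ⟨j, Subtype.ext ?_⟩
    rw [hy a j, hj]
    rfl
  -- normalisation of the forms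
  have hne : ∀ a i, ∃ j, l0 (φ a) i j ≠ 0 := by
    intro a i
    have h2 := (hΦ k (l0 (φ a)) (hl0 (φ a))).1 {i} (by simp)
    have h3 := h2.ne_zero ⟨i, Finset.mem_singleton_self i⟩
    exact Function.ne_iff.1 h3
  choose jj hjj using hne
  set cc : ℕ → Fin q → k := fun a i => (l0 (φ a) i (jj a i))⁻¹ with hcc
  have hcc0 : ∀ a i, cc a i ≠ 0 := fun a i => inv_ne_zero (hjj a i)
  set lr : ℕ → Fin q → Fin (n + 1) → k := fun a i j => cc a i * l0 (φ a) i j with hlr
  have hlr1 : ∀ a i, ∃ j, lr a i j = 1 := fun a i => ⟨jj a i, inv_mul_cancel₀ (hjj a i)⟩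
  have hΦr : ∀ a, aeval (fun p : Fin q × Fin (n + 1) => lr a p.1 p.2) Φ ≠ 0 := fun a =>
    hΦs k (l0 (φ a)) (cc a) (hcc0 a) (hl0 (φ a))
  have hhr : ∀ a i, Height.logHeight (lr a i) = Height.logHeight (l0 (φ a) i) := by
    intro a i
    exact Height.logHeight_smul_eq_logHeight (l0 (φ a) i) (hcc0 a i)
  have hlvr : ∀ a i, lvg (lr a i) (y a) = algebraMap k _ (cc a i) * lvg (l0 (φ a) i) (y a) := by
    intro a i
    simp only [lvg, hlr, Finset.mul_sum, map_mul, mul_assoc]
  have hlv0 : ∀ a i, lvg (l0 (φ a) i) (y a) ≠ 0 := fun a i h => hv (φ a) i ((hlv a _).1 h)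
  have hlvr0 : ∀ a i, lvg (lr a i) (y a) ≠ 0 := by
    intro a i
    rw [hlvr a i]
    exact mul_ne_zero ((map_ne_zero _).2 (hcc0 a i)) (hlv0 a i)
  have hl00 : ∀ a i, l0 (φ a) i ≠ 0 := fun a i => Function.ne_iff.2 ⟨jj a i, hjj a i⟩
  -- the local contributions
  have hW : ∀ a i ν, c * (Real.log (sn ν (l0 (φ a) i)) + lam (l0 (φ a) i) ν (x (φ a))) =
      ∑ g, (Real.log (sn ν (lr a i)) + Real.log (mxn (M a ν) fun j => s a g (y a j)) -
        Real.log (M a ν (s a g (lvg (lr a i) (y a))))) := by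
    intro a i ν
    have h2 := hlam a ν 1 (fpol (l0 (φ a) i)) (by
      rw [aeval_fpol, ← val_eq_lvg]
      exact hv (φ a) i)
    rw [lamP_fpol, aeval_fpol] at h2
    have h3 : c * Real.log (sn ν (l0 (φ a) i)) = ∑ g : G, Real.log (sn ν (l0 (φ a) i)) := by
      rw [Finset.sum_const, Finset.card_univ, nsmul_eq_mul]
    rw [mul_add, h3, hc, h2, ← Finset.sum_add_distrib]
    refine Finset.sum_congr rfl fun g _ => ?_
    have h4 : Real.log (sn ν (lr a i)) = Real.log (nv ν (cc a i)) + Real.log (sn ν (l0 (φ a) i)) := by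
      have h5 : sn ν (lr a i) = nv ν (cc a i) * sn ν (l0 (φ a) i) := sn_mul_u ν (cc a i) (l0 (φ a) i)
      rw [h5, Real.log_mul (Pool.Agent.Helper64.Vojta.nv_pos ν (hcc0 a i)).ne'
        (Pool.Agent.Helper64.Vojta.sn_pos ν (hl00 a i)).ne']
    have h5 : Real.log (M a ν (s a g (lvg (lr a i) (y a)))) =
        Real.log (nv ν (cc a i)) + Real.log (M a ν (s a g (lvg (l0 (φ a) i) (y a)))) := by
      rw [hlvr a i, map_mul, AlgEquiv.commutes, (hQ a).mul, (hQ a).ext,
        Real.log_mul (Pool.Agent.Helper64.Vojta.nv_pos ν (hcc0 a i)).ne' ((hQ a).pos ν _ (by simpa using hlv0 a i)).ne']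
    rw [h4, h5, Nat.cast_one, one_mul]
    ring
  have hWs : ∀ a, c * ∑ ν ∈ S, ∑ i, (Real.log (sn ν (l0 (φ a) i)) + lam (l0 (φ a) i) ν (x (φ a))) =
      ∑ ν ∈ S, ∑ i, ∑ g, (Real.log (sn ν (lr a i)) + Real.log (mxn (M a ν) fun j => s a g (y a j)) -
        Real.log (M a ν (s a g (lvg (lr a i) (y a))))) := by
    intro a
    rw [Finset.mul_sum]
    refine Finset.sum_congr rfl fun ν _ => ?_
    rw [Finset.mul_sum]
    exact Finset.sum_congr rfl fun i _ => hW a i ν
  -- Liouville
  obtain ⟨C0, hC0, hLi⟩ := liou_u.{u} G k n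
  set T : ℕ → ℝ := fun a => ∑ i, Height.logHeight (lr a i) with hT
  have hT0 : ∀ a, 0 ≤ T a := fun a => Finset.sum_nonneg fun i _ => Height.logHeight_nonneg _
  have hTi : ∀ a i, Height.logHeight (lr a i) ≤ T a := fun a i =>
    Finset.single_le_sum (f := fun i => Height.logHeight (lr a i)) (fun i _ => Height.logHeight_nonneg _) (Finset.mem_univ i)
  set Ha : ℕ → ℝ := fun a => Hg (s a) (M a) (y a) with hHa
  have hH0 : ∀ a, 0 ≤ Ha a := by
    intro a
    show 0 ≤ Hg (s a) (M a) (y a)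
    rw [← hH a]
    exact mul_nonneg hc0.le (hgt_nonneg' _)
  have hup : ∀ a, ∑ ν ∈ S, ∑ i, ∑ g, (Real.log (sn ν (lr a i)) + Real.log (mxn (M a ν) fun j => s a g (y a j)) -
        Real.log (M a ν (s a g (lvg (lr a i) (y a))))) ≤ q * Ha a + c * T a + q * C0 := by
    intro a
    rw [Finset.sum_comm]
    refine (Finset.sum_le_sum fun i _ => hLi _ (s a) (M a) (hQ a) (lr a i) (hlr1 a i) (y a) (hy1 a) (hlvr0 a i) S).trans
      (le_of_eq ?_)
    rw [Finset.sum_add_distrib, Finset.sum_add_distrib, Finset.sum_const, Finset.sum_const, Finset.card_univ,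
      Fintype.card_fin, nsmul_eq_mul, nsmul_eq_mul, ← Finset.mul_sum]
  have hlow : ∀ a, (1 / cnr n r + ε) * Ha a + c * (φ a * (1 + T a)) <
      ∑ ν ∈ S, ∑ i, ∑ g, (Real.log (sn ν (lr a i)) + Real.log (mxn (M a ν) fun j => s a g (y a j)) -
        Real.log (M a ν (s a g (lvg (lr a i) (y a))))) := by
    intro a
    rw [← hWs a]
    have h2 := mul_lt_mul_of_pos_left (hbig (φ a)) hc0
    have h3 : ∑ i, Height.logHeight (l0 (φ a) i) = T a := Finset.sum_congr rfl fun i _ => (hhr a i).symm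
    rw [h3] at h2
    refine lt_of_eq_of_lt ?_ h2
    show (1 / cnr n r + ε) * Hg (s a) (M a) (y a) + c * (φ a * (1 + T a)) = _
    rw [← hH a]
    ring
  have hkey : ∀ a : ℕ, c * (((a : ℝ) - 1) * (1 + T a)) ≤ q * Ha a + q * C0 := by
    intro a
    have h2 := (hlow a).le.trans (hup a)
    have h3 : 0 ≤ (1 / cnr n r + ε) * Ha a := mul_nonneg (by positivity) (hH0 a)
    have h4 : (a : ℝ) ≤ φ a := by exact_mod_cast hφa a
    have h5 : c * ((a : ℝ) * (1 + T a)) ≤ c * (φ a * (1 + T a)) :=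
      mul_le_mul_of_nonneg_left (mul_le_mul_of_nonneg_right h4 (by linarith [hT0 a])) hc0.le
    have h6 : c * (((a : ℝ) - 1) * (1 + T a)) = c * ((a : ℝ) * (1 + T a)) - c - c * T a := by ring
    linarith
  have hH1 : Tendsto Ha atTop atTop := by
    have h2 : ∀ a : ℕ, (c * a - (c + q * C0)) / (q + 1) ≤ Ha a := by
      intro a
      have hq : (0 : ℝ) < q + 1 := by positivity
      rw [div_le_iff₀ hq]
      have h3 := hkey a
      have h8 := hH0 a
      rcases Nat.eq_zero_or_pos a with h9 | h9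
      · subst h9
        have h10 : 0 ≤ (q : ℝ) * C0 := mul_nonneg (Nat.cast_nonneg _) hC0
        have h11 : 0 ≤ Ha 0 * ((q : ℝ) + 1) := mul_nonneg h8 hq.le
        simp only [Nat.cast_zero, mul_zero]
        linarith
      · have h10 : (0 : ℝ) ≤ (a : ℝ) - 1 := by
          have : (1 : ℝ) ≤ a := by exact_mod_cast h9
          linarith
        have h11 : 0 ≤ c * (((a : ℝ) - 1) * T a) := mul_nonneg hc0.le (mul_nonneg h10 (hT0 a))
        have h12 : c * (((a : ℝ) - 1) * (1 + T a)) = c * a - c + c * (((a : ℝ) - 1) * T a) := by ring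
        linarith
    refine tendsto_atTop_mono h2 ?_
    refine Tendsto.atTop_div_const (by positivity) ?_
    exact tendsto_atTop_add_const_right _ _ (tendsto_natCast_atTop_atTop.const_mul_atTop hc0)
  have hTslow : ∀ η : ℝ, 0 < η → ∀ᶠ a in atTop, T a ≤ η * Ha a := by
    intro η hη
    have h2 : Tendsto (fun a : ℕ => c * η * ((a : ℝ) - 1)) atTop atTop :=
      (tendsto_atTop_add_const_right _ _ tendsto_natCast_atTop_atTop).const_mul_atTop (mul_pos hc0 hη)
    filter_upwards [h2.eventually_ge_atTop (2 * q), hH1.eventually_ge_atTop C0, eventually_gt_atTop 1] with a h3 h4 h5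
    have h6 : (0 : ℝ) < (a : ℝ) - 1 := by
      have : (1 : ℝ) < a := by exact_mod_cast h5
      linarith
    have h7 := hkey a
    have h8 : c * (((a : ℝ) - 1) * (1 + T a)) = c * ((a : ℝ) - 1) + c * ((a : ℝ) - 1) * T a := by ring
    have h9 : 0 < c * ((a : ℝ) - 1) := mul_pos hc0 h6
    have h10 : (q : ℝ) * C0 ≤ q * Ha a := mul_le_mul_of_nonneg_left h4 (Nat.cast_nonneg _)
    have h11 : 2 * q * Ha a ≤ c * η * ((a : ℝ) - 1) * Ha a := mul_le_mul_of_nonneg_right h3 (hH0 a)
    have h12 : c * ((a : ℝ) - 1) * T a ≤ c * ((a : ℝ) - 1) * (η * Ha a) := by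
      have h13 : c * η * ((a : ℝ) - 1) * Ha a = c * ((a : ℝ) - 1) * (η * Ha a) := by ring
      linarith
    exact le_of_mul_le_mul_left h12 h9
  -- the data
  let D : SqG k G :=
    { U := hyperfilter ℕ
      L := fun a => gal (x (φ a))
      fL := fun a => inferInstance
      aL := fun a => inferInstance
      s := s
      N := M
      qs := hQ
      H := Ha
      H1 := hH1.mono_left Nat.hyperfilter_le_atTop }
  let y' : ∀ a, Fin (n + 1) → D.L a := y
  have hPt : Ptg D y' := ⟨hy1, fun a => rfl⟩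
  have hltop : (D.U : Filter ℕ) ≤ atTop := Nat.hyperfilter_le_atTop
  obtain ⟨F⟩ := ger_g D
  obtain ⟨ξ, hξ⟩ := exists_xig F y' hPt
  -- the germs of the coefficients
  let z : Fin q → Fin (n + 1) → ∀ a, D.L a := fun i j a => algebraMap k (D.L a) (lr a i j)
  have hz : ∀ i j, SlowG D (z i j) := by
    intro i j η hη
    filter_upwards [hltop (hTslow (η / c) (div_pos hη hc0))] with a h2
    have h3 : htg (D.s a) (D.N a) (z i j a) ≤ c * Height.logHeight (lr a i) := htg_le_u (hQ a) (hlr1 a i) j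
    have h4 : c * Height.logHeight (lr a i) ≤ c * (η / c * Ha a) :=
      mul_le_mul_of_nonneg_left ((hTi a i).trans h2) hc0.le
    have h5 : c * (η / c * Ha a) = η * Ha a := by field_simp
    exact h3.trans (h4.trans h5.le)
  have hzs : ∀ i j, ∃ w : F.K, ∀ᶠ a in (D.U : Filter ℕ), F.rp w a = z i j a := fun i j =>
    F.rp_surj (z i j) ⟨1, hz i j 1 one_pos⟩
  choose w hw using hzs
  have hws : ∀ i j, w i j ∈ slk F := by
    intro i j
    refine mem_slk.2 ⟨fun g => ?_, (hz i j).congr (hw i j)⟩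
    apply F.rp_inj
    filter_upwards [F.rp_s g (w i j), hw i j] with a h2 h3
    rw [h2, h3]
    exact AlgEquiv.commutes _ _
  let lS : Fin q → Fin (n + 1) → slk F := fun i j => ⟨w i j, hws i j⟩
  have hlS : ∀ i j, ∀ᶠ a in (D.U : Filter ℕ), F.rp (lS i j : F.K) a = algebraMap k (D.L a) (lr a i j) := hw
  have hcK : CharZero F.K := charZero_of_injective_algebraMap (algebraMap k F.K).injective
  have hcS : CharZero (slk F) := charZero_of_injective_algebraMap (algebraMap k (slk F)).injective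
  have hΦS : aeval (fun p : Fin q × Fin (n + 1) => lS p.1 p.2) Φ ≠ 0 := by
    intro h0
    have h2 : aeval (fun p : Fin q × Fin (n + 1) => w p.1 p.2) (map (algebraMap ℚ k) Φ) = 0 := by
      rw [aeval_map_algebraMap]
      have h3 := aeval_algebraMap_apply (A := slk F) F.K (fun p : Fin q × Fin (n + 1) => lS p.1 p.2) Φ
      rw [h0, map_zero] at h3
      exact h3
    have h3 := rp_aeval_u F (fun p : Fin q × Fin (n + 1) => w p.1 p.2)
      (fun a p => algebraMap k (D.L a) (lr a p.1 p.2)) (fun p => hw p.1 p.2) (map (algebraMap ℚ k) Φ)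
    have h4 := rp_aeval_u F (fun p : Fin q × Fin (n + 1) => w p.1 p.2)
      (fun a p => algebraMap k (D.L a) (lr a p.1 p.2)) (fun p => hw p.1 p.2) 0
    obtain ⟨a, h5, h6⟩ := (h3.and h4).exists
    rw [h2] at h5
    rw [map_zero, map_zero] at h6
    rw [h6] at h5
    have h7 := aeval_algebraMap_apply (A := k) (D.L a) (fun p : Fin q × Fin (n + 1) => lr a p.1 p.2)
      (map (algebraMap ℚ k) Φ)
    have h8 : aeval (fun p : Fin q × Fin (n + 1) => algebraMap k (D.L a) (lr a p.1 p.2)) (map (algebraMap ℚ k) Φ) =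
        algebraMap k (D.L a) (aeval (fun p : Fin q × Fin (n + 1) => lr a p.1 p.2) (map (algebraMap ℚ k) Φ)) := h7
    rw [h8] at h5
    have h9 := (map_eq_zero _).1 h5.symm
    rw [aeval_map_algebraMap] at h9
    exact hΦr a h9
  obtain ⟨hgen, hnb⟩ := hΦ (slk F) lS hΦS
  have hker : ∀ i, lS i ∉ kerS F ξ := by
    intro i hi
    rw [mem_kerS] at hi
    have h3 := rp_aeval_u F (Sum.elim (w i) ξ) (fun a => Sum.elim (fun j => z i j a) (y' a))
      (by rintro (j | j); exacts [hw i j, hξ j]) (∑ j, X (Sum.inl j) * X (Sum.inr j))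
    have h4 := rp_aeval_u F (Sum.elim (w i) ξ) (fun a => Sum.elim (fun j => z i j a) (y' a))
      (by rintro (j | j); exacts [hw i j, hξ j]) 0
    obtain ⟨a, h5, h6⟩ := (h3.and h4).exists
    simp only [map_sum, map_mul, aeval_X, Sum.elim_inl, Sum.elim_inr] at h5
    have h7 : ∑ j, w i j * ξ j = 0 := hi
    rw [map_zero, map_zero] at h6
    rw [h7, h6] at h5
    exact hlvr0 a i h5.symm
  have hComb := comb_of_not_bad lS hgen (kerS F ξ) hker (hnb _)
  -- the index
  have hHs0 : 0 < Nat.card Hs := Nat.card_pos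
  have hHi : Nat.card Hs * Hs.index = Fintype.card G := by
    rw [Subgroup.card_mul_index, Nat.card_eq_fintype_card]
  have hr'r : Hs.index ≤ r := by
    have h2 : dg (x (φ 0)) = Hs.index := Nat.eq_of_mul_eq_mul_left hHs0 ((hHd 0).trans hHi.symm)
    rw [← h2]
    exact hr' _
  have hr'0 : 0 < Hs.index := by
    rcases Nat.eq_zero_or_pos Hs.index with h | h
    · rw [h, mul_zero] at hHi
      exact absurd hHi.symm Fintype.card_ne_zero
    · exact h
  obtain ⟨ρ, hρ⟩ := exists_rep_u Hs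
  -- the dimension
  set fq := finrank (slk F) ((Fin (n + 1) → slk F) ⧸ kerS F ξ) with hfq
  set fp := finrank (slk F) (kerS F ξ) with hfp
  have h6 : fq + fp = n + 1 := by
    rw [hfq, hfp, Submodule.finrank_quotient_add_finrank, Module.finrank_fin_fun]
  have hpn : fp ≤ n := by
    have h2 : ∀ᶠ a in (D.U : Filter ℕ), ∃ j, y' a j = 1 := Eventually.of_forall hy1
    obtain ⟨j, hj⟩ := Ultrafilter.eventually_exists_iff.1 h2
    have h3 : kerS F ξ ≠ ⊤ := by
      intro h
      have h4 : (Pi.single j 1 : Fin (n + 1) → slk F) ∈ kerS F ξ := by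
        rw [h]
        trivial
      rw [mem_kerS, Finset.sum_eq_single j] at h4
      · rw [Pi.single_eq_same, one_smul] at h4
        have h5 := hξ j
        rw [h4] at h5
        obtain ⟨a, h7, h8, h9⟩ := (h5.and (hj.and (F.rp_alg 0))).exists
        rw [map_zero, map_zero] at h9
        rw [h9, h8] at h7
        exact zero_ne_one h7
      · intro b _ hb
        rw [Pi.single_eq_of_ne hb, zero_smul]
      · intro hb
        exact absurd (Finset.mem_univ _) hb
    have h4 := Submodule.finrank_lt h3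
    rw [Module.finrank_fin_fun] at h4
    omega
  have hfq1 : fq = (n - fp) + 1 := by omega
  obtain ⟨a, ha, haT⟩ := ((germs_ps F y' hPt ξ hξ hyH lS lr hlS hker hComb hfq1 S hr'0 ρ hρ (half_pos hε)).and
    (hltop (hTslow (ε / (2 * c)) (by positivity)))).exists
  have h2 : ∑ ν ∈ S, ∑ i, ∑ g, (Real.log (sn ν (lr a i)) + Real.log (mxn (M a ν) fun j => s a g (y a j)) -
        Real.log (M a ν (s a g (lvg (lr a i) (y a))))) =
      c * (∑ i, ∑ ν ∈ S, Real.log (sn ν (lr a i))) + ∑ ν ∈ S, ∑ g, ∑ i, (Real.log (mxn (D.N a ν) fun j => D.s a g (y' a j)) -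
        Real.log (D.N a ν (D.s a g (lvg (lr a i) (y' a))))) := by
    rw [Finset.sum_comm (s := Finset.univ) (t := S), Finset.mul_sum, ← Finset.sum_add_distrib]
    refine Finset.sum_congr rfl fun ν _ => ?_
    rw [Finset.sum_comm (s := Finset.univ (α := G)), Finset.mul_sum, ← Finset.sum_add_distrib]
    refine Finset.sum_congr rfl fun i _ => ?_
    have h3 : c * Real.log (sn ν (lr a i)) = ∑ g : G, Real.log (sn ν (lr a i)) := by
      rw [Finset.sum_const, Finset.card_univ, nsmul_eq_mul]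
    rw [h3, ← Finset.sum_add_distrib]
    refine Finset.sum_congr rfl fun g _ => ?_
    show _ = Real.log (sn ν (lr a i)) + (Real.log (mxn (M a ν) fun j => s a g (y a j)) -
        Real.log (M a ν (s a g (lvg (lr a i) (y a)))))
    ring
  have h3 := hlow a
  rw [h2] at h3
  have h4 : ∑ i, ∑ ν ∈ S, Real.log (sn ν (lr a i)) ≤ T a := Finset.sum_le_sum fun i _ => sum_sn_le (hlr1 a i) S
  have h5 : c * ∑ i, ∑ ν ∈ S, Real.log (sn ν (lr a i)) ≤ ε / 2 * Ha a := by
    have h6 := mul_le_mul_of_nonneg_left (h4.trans haT) hc0.le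
    have h7 : c * (ε / (2 * c) * Ha a) = ε / 2 * Ha a := by field_simp
    linarith
  have h7 : 1 / cnr (n - fp) Hs.index + 2 * fp + ε / 2 ≤ 1 / cnr n r + ε / 2 := by
    have := cnr_shift hpn hr'0 hr hr'r
    linarith
  have h8 := mul_le_mul_of_nonneg_right h7 (hH0 a)
  have h9 : 0 ≤ c * (φ a * (1 + T a)) := mul_nonneg hc0.le (mul_nonneg (Nat.cast_nonneg _) (by linarith [hT0 a]))
  have h10 : (1 / cnr n r + ε) * Ha a = ε / 2 * Ha a + (1 / cnr n r + ε / 2) * Ha a := by ring
  have h11 : D.H a = Ha a := rfl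
  rw [h11] at ha
  linarith

end Pool.Agent.SQ
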