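import Pool.Agent.Helper42.SQ.OMs
import Pool.Agent.Helper42.SQ.SUBs
import Pool.Agent.Helper42.SQ.FBg
import Pool.Agent.Helper42.SQ.LIN
import Pool.Agent.Helper27.TOW.ALG

/-!
# SQ6, block GABs: the theorem for the germs, with forms which move with the point (tower form)
-/

set_option autoImplicit false

namespace Pool.Agent.SQ

open NumberField Filter Module MvPolynomial
open Pool.Agent.Helper64.Vojta (Pl nv sn above)
open Pool.Agent.V2
open Pool.Agent.Chart (fld dg crd val hgt lam)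

universe u

/-- `thmB_g` for a subnormal subgroup -/
private theorem thmB_t34 {k K : Type u} [Field k] [CharZero k] [Field K] [Algebra k K] {G : Type} [Group G] [Fintype G]
    {H : Subgroup G} [Fintype (G ⧸ H)] (hH : H.IsSubnormal)
    (s : G →* (K ≃ₐ[k] K)) {P : Type u} [Fintype P] (ω : P → K → ℝ) (hω : ∀ v, RV k (ω v)) (c : P → G → ℝ)
    (hc : ∀ v g, ∀ h ∈ H, c v (g * h) = c v g)
    (V : Submodule k K) [FiniteDimensional k V] (hV : ∀ x ∈ V, ∀ h ∈ H, s h x = x)
    (ha : ∀ v g, ∀ x ∈ V, x ≠ 0 → 0 ≤ ω v (s g x) + c v g)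
    (hS : ∀ (m : ℕ) (E : Submodule k K), E ≤ (∏ q : G ⧸ H, V.map (s q.out).toLinearMap) ^ m → (∀ z ∈ E, ∀ g, s g z = z) →
      ∀ (n : P → ℕ) (z : ∀ v, Fin (n v) → K), (∀ v, LinearIndependent k (z v)) → (∀ v i, z v i ∈ E) →
        ∑ v, ∑ i, (Nat.card H * ω v (z v i) + m * ∑ g, c v g) ≤ m * finrank k E)
    (h1 : ∀ v g, ∃ x ∈ V, x ≠ 0 ∧ ω v (s g x) + c v g = 0)
    (hpf : ∀ x ∈ V, x ≠ 0 → ∑ v, ∑ g, (ω v (s g x) + c v g) ≤ 1)
    {q p : ℕ} (L : Fin q → V) (hL : ∀ i, L i ≠ 0) (hC : Comb k L p) :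
    ∑ v, ∑ g, ∑ i, (ω v (s g (L i)) + c v g) ≤ H.index * finrank k V + 2 * p := by
  have hO : ∀ i : P × G, RV k ((fun (i : P × G) (x : K) => ω i.1 (s i.2 x)) i) := fun i => (hω i.1).comp (s i.2)
  have key : ∀ N : ℕ, 0 < N → ∑ v, ∑ g, ∑ i, (ω v (s g (L i)) + c v g) ≤
      H.index * finrank k V + 2 * p + (Fintype.card (P × G) * q) / N := by
    intro N hN0
    have hN' : (0 : ℝ) < N := by exact_mod_cast hN0
    have h3 := FB_comb_sum (fun (i : P × G) (x : K) => ω i.1 (s i.2 x)) hO (fun i => c i.1 i.2) V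
      (fun i x hx hx0 => ha i.1 i.2 x hx hx0) (fun i => h1 i.1 i.2)
      (by
        intro x hx hx0
        rw [Fintype.sum_prod_type]
        exact hpf x hx hx0) L hL hC hN0
    rw [Fintype.sum_prod_type, Fintype.sum_prod_type] at h3
    have h5 : (∑ v, ∑ g, (SN ((hω v).comp (s g)) N (c v g) V : ℝ)) ≤ H.index * N * finrank k V := by
      exact_mod_cast abs_t s hH ω hω c hc V hV ha hS hN0
    have h6 : (∑ v, ∑ g, (SN ((hω v).comp (s g)) N (c v g) V : ℝ)) / N ≤ H.index * finrank k V := by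
      rw [div_le_iff₀ hN']
      refine h5.trans (le_of_eq ?_)
      ring
    refine h3.trans ?_
    have h8 : (∑ v, ∑ g, (SN (hO (v, g)) N (c v g) V : ℝ)) / N ≤ H.index * finrank k V := h6
    linarith
  refine le_of_forall_pos_le_add fun ε hε => ?_
  obtain ⟨N, hN1⟩ := exists_nat_gt ((Fintype.card (P × G) * q : ℝ) / ε)
  have hN' : (0 : ℝ) < N := lt_of_le_of_lt (by positivity) hN1
  have h9 : (Fintype.card (P × G) * q : ℝ) / N ≤ ε := by
    rw [div_le_iff₀ hN']
    rw [div_lt_iff₀ hε] at hN1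
    linarith
  have := key N (by exact_mod_cast hN')
  linarith

private theorem sum_coset34 {G : Type} [Group G] [Fintype G] (H : Subgroup G) [Fintype (G ⧸ H)] [Fintype H] (f : G → ℝ) :
    ∑ g, f g = ∑ h : H, ∑ q : G ⧸ H, f (q.out * h) := by
  rw [Finset.sum_comm, ← Fintype.sum_prod_type']
  symm
  refine Fintype.sum_bijective (fun p : (G ⧸ H) × H => p.1.out * (p.2 : G)) ⟨?_, ?_⟩ _ _ fun p => rfl
  · rintro ⟨q, h⟩ ⟨q', h'⟩ e
    have e' : q.out * (h : G) = q'.out * (h' : G) := e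
    have e1 : ((q.out * (h : G) : G) : G ⧸ H) = ((q'.out * (h' : G) : G) : G ⧸ H) := by rw [e']
    rw [QuotientGroup.mk_mul_of_mem _ h.2, QuotientGroup.mk_mul_of_mem _ h'.2, QuotientGroup.out_eq',
      QuotientGroup.out_eq'] at e1
    subst e1
    rw [Prod.mk.injEq]
    exact ⟨rfl, Subtype.ext (mul_left_cancel e')⟩
  · intro g
    refine ⟨((g : G ⧸ H), ⟨((g : G ⧸ H).out)⁻¹ * g, ?_⟩), ?_⟩
    · rw [← QuotientGroup.eq, QuotientGroup.out_eq']
    · show (g : G ⧸ H).out * (((g : G ⧸ H).out)⁻¹ * g) = g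
      rw [mul_inv_cancel_left]

private theorem rv_prod34 {k K : Type*} [Field k] [Field K] [Algebra k K] {ω : K → ℝ} (h : RV k ω) {α : Type*}
    (S : Finset α) (z : α → K) (hz : ∀ a ∈ S, z a ≠ 0) : ω (∏ a ∈ S, z a) = ∑ a ∈ S, ω (z a) := by
  classical
  induction S using Finset.induction_on with
  | empty =>
    rw [Finset.prod_empty, Finset.sum_empty, ← map_one (algebraMap k K)]
    exact h.alg 1 one_ne_zero
  | insert a S ha ih =>
    rw [Finset.prod_insert ha, Finset.sum_insert ha, h.mul _ _ (hz a (Finset.mem_insert_self _ _))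
      (Finset.prod_ne_zero_iff.2 fun b hb => hz b (Finset.mem_insert_of_mem hb)),
      ih fun b hb => hz b (Finset.mem_insert_of_mem hb)]

private theorem mem_prod34 {k K : Type*} [Field k] [Field K] [Algebra k K] {α : Type*} (S : Finset α)
    (W : α → Submodule k K) (z : α → K) (hz : ∀ a ∈ S, z a ∈ W a) : ∏ a ∈ S, z a ∈ ∏ a ∈ S, W a := by
  classical
  induction S using Finset.induction_on with
  | empty =>
    rw [Finset.prod_empty, Finset.prod_empty]
    exact Submodule.one_le.1 le_rfl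
  | insert a S ha ih =>
    rw [Finset.prod_insert ha, Finset.prod_insert ha]
    exact Submodule.mul_mem_mul (hz a (Finset.mem_insert_self _ _)) (ih fun b hb => hz b (Finset.mem_insert_of_mem hb))

section

variable {k : Type u} [Field k] [NumberField k] {G : Type} [Group G] [Fintype G] {D : SqG k G} (F : GFG D)

private theorem rp_zero34 : ∀ᶠ a in (D.U : Filter ℕ), F.rp 0 a = 0 := by
  filter_upwards [F.rp_alg 0] with a ha
  rw [map_zero, map_zero] at ha
  exact ha

private theorem rp_sum34 {ι : Type} (s : Finset ι) (f : ι → F.K) :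
    ∀ᶠ a in (D.U : Filter ℕ), F.rp (∑ j ∈ s, f j) a = ∑ j ∈ s, F.rp (f j) a := by
  classical
  induction s using Finset.induction_on with
  | empty =>
    filter_upwards [rp_zero34 F] with a ha
    rw [Finset.sum_empty, Finset.sum_empty, ha]
  | insert i s hi ih =>
    filter_upwards [ih, F.rp_add (f i) (∑ j ∈ s, f j)] with a h1 h2
    rw [Finset.sum_insert hi, Finset.sum_insert hi, h2, h1]

variable {ι : Type} [Fintype ι] (x : ∀ n, ι → D.L n) (hx : Ptg D x)
  (ξ : ι → F.K) (hξ : ∀ j, ∀ᶠ n in (D.U : Filter ℕ), F.rp (ξ j) n = x n j)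

omit [Fintype ι] in
private theorem fix34 {H : Subgroup G} (hξ : ∀ j, ∀ᶠ n in (D.U : Filter ℕ), F.rp (ξ j) n = x n j)
    (hxH : ∀ n, ∀ h ∈ H, ∀ j, D.s n h (x n j) = x n j) :
    ∀ z ∈ Submodule.span (slk F) (Set.range ξ), ∀ h ∈ H, ss F h z = z := by
  intro z hz h hh
  induction hz using Submodule.span_induction with
  | mem z hz =>
    obtain ⟨j, rfl⟩ := hz
    refine F.rp_inj _ _ ?_
    filter_upwards [hξ j, F.rp_s h (ξ j)] with n h1 h2
    show F.rp (F.s h (ξ j)) n = F.rp (ξ j) n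
    rw [h2, h1, hxH n h hh j]
  | zero => exact map_zero _
  | add a b _ _ ha hb => rw [map_add, ha, hb]
  | smul r a _ ha => rw [map_smul, ha]

omit [Fintype ι] in
private theorem cgH34 {H : Subgroup G} (hxH : ∀ n, ∀ h ∈ H, ∀ j, D.s n h (x n j) = x n j) (v : Pl k) (g h : G)
    (hh : h ∈ H) : cg D x v (g * h) = cg D x v g := by
  have h1 : ∀ n, (fun j => D.s n (g * h) (x n j)) = fun j => D.s n g (x n j) := by
    intro n
    funext j
    rw [map_mul]
    show D.s n g (D.s n h (x n j)) = _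
    rw [hxH n h hh j]
  unfold cg
  simp only [h1]

include hx hξ

variable {H : Subgroup G} [Fintype (G ⧸ H)] (hxH : ∀ n, ∀ h ∈ H, ∀ j, D.s n h (x n j) = x n j)

include hxH

theorem omgs_prod (P : Finset (Pl k)) (z : F.K) (hz : z ∈ Submodule.span (slk F) (Set.range ξ)) (hz0 : z ≠ 0) :
    ∑ v ∈ P, ∑ g, (omg F v (ss F g z) + cg D x v g) ≤ 1 := by
  classical
  have : Fintype H := Fintype.ofFinite _
  have hfix := fix34 F x ξ hξ hxH
  have hcos : ∀ g g' : G, (g : G ⧸ H) = (g' : G ⧸ H) → ss F g z = ss F g' z := by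
    intro g g' hg
    have h1 : g⁻¹ * g' ∈ H := QuotientGroup.eq.1 hg
    have h2 : g' = g * (g⁻¹ * g') := by group
    rw [h2, map_mul]
    show ss F g z = ss F g (ss F (g⁻¹ * g') z)
    rw [hfix z hz _ h1]
  have hne : ∀ g, ss F g z ≠ 0 := fun g => (map_ne_zero (ss F g)).2 hz0
  obtain ⟨y, hy⟩ : ∃ y : F.K, y = ∏ q : G ⧸ H, ss F q.out z := ⟨_, rfl⟩
  have hy0 : y ≠ 0 := by
    rw [hy]
    exact Finset.prod_ne_zero_iff.2 fun q _ => hne _
  have hyG : ∀ g, ss F g y = y := by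
    intro g
    rw [hy, map_prod]
    refine Fintype.prod_equiv (MulAction.toPerm g) _ _ fun q => ?_
    show ss F g (ss F q.out z) = ss F (g • q).out z
    have h1 : ss F g (ss F q.out z) = ss F (g * q.out) z := by rw [map_mul]; rfl
    rw [h1]
    refine hcos _ _ ?_
    rw [QuotientGroup.out_eq']
    conv_rhs => rw [← QuotientGroup.out_eq' q]
    rfl
  have hmem : y ∈ (∏ q : G ⧸ H, (Submodule.span (slk F) (Set.range ξ)).map (ss F q.out).toLinearMap) := by
    rw [hy]
    exact mem_prod34 _ _ _ fun q _ => ⟨z, hz, rfl⟩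
  have h1 := sub_ts F x hx ξ hξ hxH P 1 (Submodule.span (slk F) {y})
    (by
      rw [pow_one, Submodule.span_le, Set.singleton_subset_iff]
      exact hmem)
    (by
      intro w hw g
      obtain ⟨r, rfl⟩ := Submodule.mem_span_singleton.1 hw
      rw [map_smul, hyG])
    (fun _ => 1) (fun _ _ => y) (fun _ => LinearIndependent.of_subsingleton (0 : Fin 1) hy0)
    (fun _ _ => Submodule.mem_span_singleton_self y)
  rw [finrank_span_singleton hy0] at h1
  have h2 : ∀ v : Pl k, ∑ g, (omg F v (ss F g z) + cg D x v g) = Nat.card H * omg F v y + ∑ g, cg D x v g := by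
    intro v
    rw [Finset.sum_add_distrib, sum_coset34 H (fun g => omg F v (ss F g z))]
    congr 1
    have h3 : ∀ h : H, ∑ q : G ⧸ H, omg F v (ss F (q.out * h) z) = omg F v y := by
      intro h
      rw [hy, rv_prod34 (omg_RVs F v) _ _ fun q _ => hne _]
      refine Finset.sum_congr rfl fun q _ => ?_
      rw [hcos (q.out * h) q.out (QuotientGroup.mk_mul_of_mem _ h.2)]
    rw [Finset.sum_congr rfl fun h _ => h3 h, Finset.sum_const, Finset.card_univ, nsmul_eq_mul, Nat.card_eq_fintype_card]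
  rw [Finset.sum_congr rfl fun v _ => h2 v, ← Finset.sum_coe_sort P]
  simpa using h1

theorem germs_ts (hH : H.IsSubnormal) {q : ℕ} (l : Fin q → ι → slk F) (lr : ℕ → Fin q → ι → k)
    (hlr : ∀ i j, ∀ᶠ a in (D.U : Filter ℕ), F.rp (l i j : F.K) a = algebraMap k (D.L a) (lr a i j))
    (hl : ∀ i, l i ∉ kerS F ξ) (hC : Comb (slk F) (fun i => (kerS F ξ).mkQ (l i)) (finrank (slk F) (kerS F ξ)))
    (P : Finset (Pl k)) {ε : ℝ} (hε : 0 < ε) :
    ∀ᶠ a in (D.U : Filter ℕ), ∑ v ∈ P, ∑ g, ∑ i, (Real.log (mxn (D.N a v) fun j => D.s a g (x a j)) -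
      Real.log (D.N a v (D.s a g (lvg (lr a i) (x a))))) ≤
      (H.index * finrank (slk F) ((ι → slk F) ⧸ kerS F ξ) + 2 * finrank (slk F) (kerS F ξ) + ε) * D.H a := by
  have hrange : LinearMap.range (Fintype.linearCombination (slk F) ξ) = Submodule.span (slk F) (Set.range ξ) :=
    Fintype.range_linearCombination (slk F) ξ
  have hfix := fix34 F x ξ hξ hxH
  have hprod := omgs_prod F x hx ξ hξ hxH P
  have hsub := sub_ts F x hx ξ hξ hxH P
  have hnn := omgs_nonneg F x hx ξ hξ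
  have hat := omgs_attained F x hx ξ hξ
  set V := Submodule.span (slk F) (Set.range ξ) with hV
  have hfd : FiniteDimensional (slk F) V := FiniteDimensional.span_of_finite (slk F) (Set.finite_range ξ)
  let e : ((ι → slk F) ⧸ kerS F ξ) ≃ₗ[slk F] V :=
    (Fintype.linearCombination (slk F) ξ).quotKerEquivRange ≪≫ₗ LinearEquiv.ofEq _ _ hrange
  have he : ∀ m, ((e ((kerS F ξ).mkQ m) : V) : F.K) = ∑ j, m j • ξ j := fun m =>
    Fintype.linearCombination_apply (slk F) ξ m
  have hL : ∀ i, e ((kerS F ξ).mkQ (l i)) ≠ 0 := by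
    intro i h
    rw [LinearEquiv.map_eq_zero_iff, Submodule.mkQ_apply, Submodule.Quotient.mk_eq_zero] at h
    exact hl i h
  have key := thmB_t34 hH (ss F) (P := P) (fun v => omg F v) (fun v => omg_RVs F v) (fun v g => cg D x v g)
    (fun v g h hh => cgH34 x hxH v g h hh) V hfix
    (fun v g z hz hz0 => hnn v g z hz hz0)
    (fun m E hE hEs N z hz hzE => hsub m E hE hEs N z hz hzE)
    (fun v g => by
      obtain ⟨z, h1, h2, h3⟩ := hat v g
      exact ⟨z, h1, h2, h3⟩)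
    (fun z hz hz0 => by
      have h1 := hprod z hz hz0
      rw [← Finset.sum_coe_sort P (fun v => ∑ g, (omg F v (ss F g z) + cg D x v g))] at h1
      exact h1)
    (fun i => e ((kerS F ξ).mkQ (l i))) hL (Comb.map e hC)
  have key' : ∑ v ∈ P, ∑ g, ∑ i, (omg F v (F.s g (e ((kerS F ξ).mkQ (l i)) : V)) + cg D x v g) ≤
      H.index * finrank (slk F) ((ι → slk F) ⧸ kerS F ξ) + 2 * finrank (slk F) (kerS F ξ) := by
    rw [e.finrank_eq, ← Finset.sum_coe_sort P
      (fun v => ∑ g, ∑ i, (omg F v (F.s g (e ((kerS F ξ).mkQ (l i)) : V)) + cg D x v g))]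
    exact key
  have hrp : ∀ i, ∀ᶠ a in (D.U : Filter ℕ), F.rp ((e ((kerS F ξ).mkQ (l i)) : V) : F.K) a = lvg (lr a i) (x a) := by
    intro i
    have h1 : ∀ᶠ a in (D.U : Filter ℕ), ∀ j, F.rp (l i j • ξ j) a = algebraMap k (D.L a) (lr a i j) * x a j := by
      rw [eventually_all]
      intro j
      filter_upwards [hlr i j, hξ j, F.rp_mul (l i j : F.K) (ξ j)] with a h2 h3 h4
      rw [← h2, ← h3, ← h4]
      rfl
    filter_upwards [h1, rp_sum34 F Finset.univ fun j => l i j • ξ j] with a h2 h3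
    rw [he, h3]
    unfold lvg
    exact Finset.sum_congr rfl fun j _ => h2 j
  have hlim : ∀ (v : Pl k) (g : G) (i : Fin q), Tendsto (fun a => (Real.log (mxn (D.N a v) fun j => D.s a g (x a j)) -
      Real.log (D.N a v (D.s a g (lvg (lr a i) (x a))))) / D.H a) (D.U : Filter ℕ)
      (nhds (omg F v (F.s g (e ((kerS F ξ).mkQ (l i)) : V)) + cg D x v g)) := by
    intro v g i
    have h0 : F.s g ((e ((kerS F ξ).mkQ (l i)) : V) : F.K) ≠ 0 := by
      rw [Ne, EmbeddingLike.map_eq_zero_iff, Submodule.coe_eq_zero]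
      exact hL i
    have h1 := (omg_tendsto F v _ h0).add (cg_tendsto x hx v g)
    refine h1.congr' ?_
    filter_upwards [hrp i, F.rp_s g ((e ((kerS F ξ).mkQ (l i)) : V) : F.K)] with a h3 h4
    rw [h4, h3]
    ring
  have hsum : Tendsto (fun a => ∑ v ∈ P, ∑ g, ∑ i, (Real.log (mxn (D.N a v) fun j => D.s a g (x a j)) -
      Real.log (D.N a v (D.s a g (lvg (lr a i) (x a))))) / D.H a) (D.U : Filter ℕ)
      (nhds (∑ v ∈ P, ∑ g, ∑ i, (omg F v (F.s g (e ((kerS F ξ).mkQ (l i)) : V)) + cg D x v g))) :=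
    tendsto_finsetSum _ fun v _ => tendsto_finsetSum _ fun g _ => tendsto_finsetSum _ fun i _ => hlim v g i
  have hlt : ∑ v ∈ P, ∑ g, ∑ i, (omg F v (F.s g (e ((kerS F ξ).mkQ (l i)) : V)) + cg D x v g) <
      H.index * finrank (slk F) ((ι → slk F) ⧸ kerS F ξ) + 2 * finrank (slk F) (kerS F ξ) + ε := by linarith
  filter_upwards [hsum.eventually (gt_mem_nhds hlt), D.H1.eventually (eventually_gt_atTop 0)] with a h1 h2
  have h3 : ∑ v ∈ P, ∑ g, ∑ i, (Real.log (mxn (D.N a v) fun j => D.s a g (x a j)) -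
      Real.log (D.N a v (D.s a g (lvg (lr a i) (x a))))) / D.H a = (∑ v ∈ P, ∑ g, ∑ i, (Real.log (mxn (D.N a v) fun j =>
      D.s a g (x a j)) - Real.log (D.N a v (D.s a g (lvg (lr a i) (x a)))))) / D.H a := by
    simp only [Finset.sum_div]
  rw [h3, div_lt_iff₀ h2] at h1
  exact h1.le

omit hxH [Fintype (G ⧸ H)] in
/-- `germs_ts` with `H = ⊥` -/
theorem germs_s {q : ℕ} (l : Fin q → ι → slk F) (lr : ℕ → Fin q → ι → k)
    (hlr : ∀ i j, ∀ᶠ a in (D.U : Filter ℕ), F.rp (l i j : F.K) a = algebraMap k (D.L a) (lr a i j))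
    (hl : ∀ i, l i ∉ kerS F ξ) (hC : Comb (slk F) (fun i => (kerS F ξ).mkQ (l i)) (finrank (slk F) (kerS F ξ)))
    (P : Finset (Pl k)) {ε : ℝ} (hε : 0 < ε) :
    ∀ᶠ a in (D.U : Filter ℕ), ∑ v ∈ P, ∑ g, ∑ i, (Real.log (mxn (D.N a v) fun j => D.s a g (x a j)) -
      Real.log (D.N a v (D.s a g (lvg (lr a i) (x a))))) ≤
      (Fintype.card G * finrank (slk F) ((ι → slk F) ⧸ kerS F ξ) + 2 * finrank (slk F) (kerS F ξ) + ε) * D.H a := by
  have : Fintype (G ⧸ (⊥ : Subgroup G)) := Fintype.ofFinite _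
  have h1 := germs_ts F x hx ξ hξ (H := (⊥ : Subgroup G)) (fun n h hh j => by
    rw [Subgroup.mem_bot.1 hh, map_one]
    rfl) Subgroup.IsSubnormal.bot l lr hlr hl hC P hε
  rwa [Subgroup.index_bot, Nat.card_eq_fintype_card] at h1

end

end Pool.Agent.SQ
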