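import Pool.Agent.Helper42.SQ.HT

/-!
# SQ, block GER: the field of germs of height `O(H)`
-/

set_option autoImplicit false

namespace Pool.Agent.SQ

open NumberField Filter Module
open Pool.Agent.Helper64.Vojta (Pl nv)
open Pool.Agent.V2

universe u

section

variable {k : Type u} [Field k] [NumberField k] (D : Sq k)

private theorem one_le_H68 : ∀ᶠ n in (D.U : Filter ℕ), 1 ≤ D.H n := D.H1.eventually_ge_atTop 1

private theorem bdd_alg68 (c : k) : Bdd D fun n => algebraMap k (D.L n) c := by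
  obtain ⟨C, hC⟩ := ht_alg c
  refine ⟨max C 0, ?_⟩
  filter_upwards [one_le_H68 D] with n hn
  have h1 := hC (D.L n) (D.σ n) (D.N n) (D.qs n)
  have h2 : max C 0 * 1 ≤ max C 0 * D.H n := mul_le_mul_of_nonneg_left hn (le_max_right _ _)
  have h3 := le_max_left C 0
  linarith

private theorem bdd_add68 {x y : ∀ n, D.L n} (hx : Bdd D x) (hy : Bdd D y) : Bdd D (x + y) := by
  obtain ⟨C, hC⟩ := ht_add k
  obtain ⟨A, hA⟩ := hx
  obtain ⟨B, hB⟩ := hy
  refine ⟨A + B + max C 0, ?_⟩
  filter_upwards [hA, hB, one_le_H68 D] with n h1 h2 h3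
  have h4 := hC (D.L n) (D.σ n) (D.N n) (D.qs n) (x n) (y n)
  have h5 : max C 0 * 1 ≤ max C 0 * D.H n := mul_le_mul_of_nonneg_left h3 (le_max_right _ _)
  have h6 := le_max_left C 0
  have h7 : (x + y) n = x n + y n := rfl
  rw [h7]
  nlinarith

private theorem bdd_mul68 {x y : ∀ n, D.L n} (hx : Bdd D x) (hy : Bdd D y) : Bdd D (x * y) := by
  obtain ⟨A, hA⟩ := hx
  obtain ⟨B, hB⟩ := hy
  refine ⟨A + B, ?_⟩
  filter_upwards [hA, hB] with n h1 h2
  have h4 := ht_mul (D.qs n) (x n) (y n)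
  have h7 : (x * y) n = x n * y n := rfl
  rw [h7]
  nlinarith

private theorem bdd_sig68 {x : ∀ n, D.L n} (hx : Bdd D x) : Bdd D fun n => D.σ n (x n) := by
  obtain ⟨A, hA⟩ := hx
  refine ⟨A, ?_⟩
  filter_upwards [hA] with n h1
  rw [ht_σ (D.qs n)]
  exact h1

private theorem bdd_inv68 {x : ∀ n, D.L n} (hx : Bdd D x) : Bdd D fun n => (x n)⁻¹ := by
  obtain ⟨A, hA⟩ := hx
  refine ⟨A, ?_⟩
  filter_upwards [hA] with n h1
  by_cases h : x n = 0
  · rw [h, inv_zero, ← h]
    exact h1
  · rw [ht_inv (D.qs n) _ h]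
    exact h1

/-- the bounded families -/
private def gA : Subalgebra k (∀ n, D.L n) where
  carrier := {x | Bdd D x}
  mul_mem' := fun hx hy => bdd_mul68 D hx hy
  add_mem' := fun hx hy => bdd_add68 D hx hy
  algebraMap_mem' := fun c => bdd_alg68 D c

private def gI : Ideal (gA D) where
  carrier := {x | ∀ᶠ n in (D.U : Filter ℕ), x.1 n = 0}
  zero_mem' := Eventually.of_forall fun n => rfl
  add_mem' := by
    intro x y hx hy
    filter_upwards [hx, hy] with n h1 h2
    show x.1 n + y.1 n = 0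
    rw [h1, h2, add_zero]
  smul_mem' := by
    intro c x hx
    filter_upwards [hx] with n h1
    show c.1 n * x.1 n = 0
    rw [h1, mul_zero]

private theorem mem_gI {x : gA D} : x ∈ gI D ↔ ∀ᶠ n in (D.U : Filter ℕ), x.1 n = 0 := Iff.rfl

private theorem gI_max : (gI D).IsMaximal := by
  rw [Ideal.isMaximal_iff]
  constructor
  · intro h
    have h1 : ∀ᶠ n in (D.U : Filter ℕ), ((1 : gA D) : ∀ n, D.L n) n = 0 := h
    obtain ⟨n, hn⟩ := h1.exists
    exact one_ne_zero (α := D.L n) hn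
  · intro J x hJ hx hxJ
    have hne : ∀ᶠ n in (D.U : Filter ℕ), x.1 n ≠ 0 := by
      rw [Ultrafilter.eventually_not]
      exact hx
    let y : gA D := ⟨fun n => (x.1 n)⁻¹, bdd_inv68 D x.2⟩
    have h1 : 1 - y * x ∈ J := by
      apply hJ
      rw [mem_gI]
      filter_upwards [hne] with n hn
      show 1 - (x.1 n)⁻¹ * x.1 n = 0
      rw [inv_mul_cancel₀ hn, sub_self]
    have h2 : y * x ∈ J := J.mul_mem_left y hxJ
    have h3 := J.add_mem h1 h2
    rwa [sub_add_cancel] at h3

private def gs : gA D →ₐ[k] gA D where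
  toFun x := ⟨fun n => D.σ n (x.1 n), bdd_sig68 D x.2⟩
  map_one' := Subtype.ext (funext fun n => map_one (D.σ n))
  map_mul' x y := Subtype.ext (funext fun n => map_mul (D.σ n) (x.1 n) (y.1 n))
  map_zero' := Subtype.ext (funext fun n => map_zero (D.σ n))
  map_add' x y := Subtype.ext (funext fun n => map_add (D.σ n) (x.1 n) (y.1 n))
  commutes' c := Subtype.ext (funext fun n => (D.σ n).commutes c)

private theorem gs_gs (x : gA D) : gs D (gs D x) = x :=
  Subtype.ext (funext fun n => (D.qs n).inv (x.1 n))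

private def gt : (gA D ⧸ gI D) →ₐ[k] (gA D ⧸ gI D) :=
  Ideal.quotientMapₐ (gI D) (gs D) (by
    intro x hx
    rw [Ideal.mem_comap, mem_gI]
    rw [mem_gI] at hx
    filter_upwards [hx] with n hn
    show D.σ n (x.1 n) = 0
    rw [hn, map_zero])

private theorem gt_mk (x : gA D) : gt D (Ideal.Quotient.mk (gI D) x) = Ideal.Quotient.mk (gI D) (gs D x) := rfl

private theorem gt_gt (x : gA D ⧸ gI D) : gt D (gt D x) = x := by
  obtain ⟨y, rfl⟩ := Ideal.Quotient.mk_surjective x
  rw [gt_mk, gt_mk, gs_gs]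

private noncomputable def gr (x : gA D ⧸ gI D) : gA D :=
  Function.surjInv (Ideal.Quotient.mk_surjective (I := gI D)) x

private theorem mk_gr (x : gA D ⧸ gI D) : Ideal.Quotient.mk (gI D) (gr D x) = x :=
  Function.surjInv_eq _ x

private theorem ev_of_mk {x y : gA D} (h : Ideal.Quotient.mk (gI D) x = Ideal.Quotient.mk (gI D) y) :
    ∀ᶠ n in (D.U : Filter ℕ), x.1 n = y.1 n := by
  have h1 := (mem_gI D).1 (Ideal.Quotient.eq.1 h)
  filter_upwards [h1] with n hn
  exact sub_eq_zero.1 hn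

private theorem mk_of_ev {x y : gA D} (h : ∀ᶠ n in (D.U : Filter ℕ), x.1 n = y.1 n) :
    Ideal.Quotient.mk (gI D) x = Ideal.Quotient.mk (gI D) y := by
  rw [Ideal.Quotient.eq, mem_gI]
  filter_upwards [h] with n hn
  exact sub_eq_zero.2 hn

theorem ger (D : Sq k) : Nonempty (GF D) := by
  have := gI_max D
  exact ⟨{
    K := gA D ⧸ gI D
    fK := Ideal.Quotient.field (gI D)
    aK := inferInstance
    τ := AlgEquiv.ofAlgHom (gt D) (gt D) (AlgHom.ext fun x => gt_gt D x) (AlgHom.ext fun x => gt_gt D x)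
    ττ := fun x => gt_gt D x
    rp := fun x => (gr D x).1
    rp_bdd := fun x => (gr D x).2
    rp_inj := fun x y h => by
      rw [← mk_gr D x, ← mk_gr D y]
      exact mk_of_ev D h
    rp_surj := fun z hz => ⟨Ideal.Quotient.mk (gI D) ⟨z, hz⟩, ev_of_mk D (mk_gr D _)⟩
    rp_add := fun x y => by
      have h : Ideal.Quotient.mk (gI D) (gr D (x + y)) = Ideal.Quotient.mk (gI D) (gr D x + gr D y) := by
        rw [mk_gr, map_add, mk_gr, mk_gr]
      exact ev_of_mk D h
    rp_mul := fun x y => by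
      have h : Ideal.Quotient.mk (gI D) (gr D (x * y)) = Ideal.Quotient.mk (gI D) (gr D x * gr D y) := by
        rw [mk_gr, map_mul, mk_gr, mk_gr]
      exact ev_of_mk D h
    rp_alg := fun c => by
      have h : Ideal.Quotient.mk (gI D) (gr D (algebraMap k _ c)) =
          Ideal.Quotient.mk (gI D) (algebraMap k (gA D) c) := by
        rw [mk_gr]
        rfl
      exact ev_of_mk D h
    rp_τ := fun x => by
      have h : Ideal.Quotient.mk (gI D) (gr D (gt D x)) = Ideal.Quotient.mk (gI D) (gs D (gr D x)) := by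
        rw [mk_gr, ← gt_mk, mk_gr]
      exact ev_of_mk D h }⟩

end

end Pool.Agent.SQ
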