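import Pool.Agent.Helper42.SQ.HT

/-!
# SQ, block OM: limits along the ultrafilter
-/

set_option autoImplicit false
set_option linter.unusedSectionVars false

namespace Pool.Agent.SQ

open NumberField Filter Module
open Pool.Agent.Helper64.Vojta (Pl nv)
open Pool.Agent.V2

universe u

private theorem om_lim (U : Ultrafilter ℕ) (f : ℕ → ℝ) (C : ℝ) (h : ∀ᶠ n in (U : Filter ℕ), |f n| ≤ C) :
    Tendsto f (U : Filter ℕ) (nhds (limUnder (U : Filter ℕ) f)) := by
  have h1 : ∃ a, Tendsto f (U : Filter ℕ) (nhds a) := by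
    have hc : IsCompact (Set.Icc (-C) C) := isCompact_Icc
    have h2 : (Ultrafilter.map f U : Filter ℝ) ≤ Filter.principal (Set.Icc (-C) C) := by
      rw [Filter.le_principal_iff, Ultrafilter.coe_map, Filter.mem_map]
      filter_upwards [h] with n hn using abs_le.1 hn
    obtain ⟨a, _, ha⟩ := isCompact_iff_ultrafilter_le_nhds.1 hc (Ultrafilter.map f U) h2
    exact ⟨a, ha⟩
  exact tendsto_nhds_limUnder h1

private theorem om_mxn {L : Type*} {d : ℕ} (N : L → ℝ) (X : Fin (d + 1) → L) :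
    ∃ j, mxn N X = N (X j) ∧ ∀ i, N (X i) ≤ N (X j) := by
  obtain ⟨j, hj⟩ := Finite.exists_max fun i => N (X i)
  exact ⟨j, le_antisymm (ciSup_le hj) (le_ciSup (f := fun i => N (X i)) (Set.finite_range _).bddAbove j), hj⟩

variable {k : Type u} [Field k] [NumberField k]

private theorem om_one {L : Type u} [Field L] [Algebra k L] {σ : L ≃ₐ[k] L} {N : Pl k → L → ℝ} (h : QS σ N) (v : Pl k) :
    N v 1 = 1 := by
  have h1 := h.mul v 1 1
  rw [mul_one] at h1
  have h2 := h.pos v 1 one_ne_zero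
  have h3 : N v 1 * (N v 1 - 1) = 0 := by linarith
  rcases mul_eq_zero.1 h3 with h4 | h4
  · exact absurd h4 h2.ne'
  · linarith

omit [NumberField k] in
private theorem om_lvσ {L : Type u} [Field L] [Algebra k L] (σ : L ≃ₐ[k] L) {d : ℕ} (m : Fin (d + 1) → k)
    (x : Fin (d + 1) → L) : lv m (fun i => σ (x i)) = σ (lv m x) := by
  simp only [lv, map_sum, map_mul, AlgEquiv.commutes]

section

variable {D : Sq k}

private theorem om_H (D : Sq k) : ∀ᶠ n in (D.U : Filter ℕ), 0 < D.H n := D.H1.eventually_gt_atTop 0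

private theorem om_c (D : Sq k) (c : ℝ) : Tendsto (fun n => c / D.H n) (D.U : Filter ℕ) (nhds 0) :=
  tendsto_const_nhds.div_atTop D.H1

variable (G : GF D)

private theorem om_zero : ∀ᶠ n in (D.U : Filter ℕ), G.rp 0 n = 0 := by
  have h := G.rp_alg 0
  rw [map_zero] at h
  filter_upwards [h] with n hn
  rw [hn, map_zero]

private theorem om_ne (x : G.K) (hx : x ≠ 0) : ∀ᶠ n in (D.U : Filter ℕ), G.rp x n ≠ 0 := by
  rw [Ultrafilter.eventually_not]
  intro h
  apply hx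
  apply G.rp_inj
  filter_upwards [h, om_zero G] with n h1 h2
  rw [h1, h2]

theorem om_tendsto (v : Pl k) (x : G.K) (hx : x ≠ 0) :
    Tendsto (fun n => -Real.log (D.N n v (G.rp x n)) / D.H n) (D.U : Filter ℕ) (nhds (om G v x)) := by
  obtain ⟨C, hC⟩ := G.rp_bdd x
  apply om_lim D.U _ C
  filter_upwards [hC, om_ne G x hx, om_H D] with n h1 h2 h3
  rw [abs_div, abs_neg, abs_of_pos h3, div_le_iff₀ h3]
  exact (abs_log_le (D.qs n) v _ h2).trans h1

private theorem om_unique (v : Pl k) (x : G.K) (hx : x ≠ 0) (f : ℕ → ℝ) (a : ℝ)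
    (h : ∀ᶠ n in (D.U : Filter ℕ), -Real.log (D.N n v (G.rp x n)) / D.H n = f n)
    (hf : Tendsto f (D.U : Filter ℕ) (nhds a)) : om G v x = a :=
  tendsto_nhds_unique ((om_tendsto G v x hx).congr' h) hf

theorem om_RV (v : Pl k) : RV k (om G v) where
  mul := by
    intro x y hx hy
    refine om_unique G v (x * y) (mul_ne_zero hx hy) _ _ ?_ ((om_tendsto G v x hx).add (om_tendsto G v y hy))
    filter_upwards [G.rp_mul x y, om_ne G x hx, om_ne G y hy] with n h1 h2 h3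
    rw [h1, (D.qs n).mul, Real.log_mul ((D.qs n).pos v _ h2).ne' ((D.qs n).pos v _ h3).ne']
    ring
  add := by
    intro x y hx hy hxy
    have h1 := ((om_tendsto G v x hx).min (om_tendsto G v y hy)).sub (om_c D (Real.log 4))
    rw [sub_zero] at h1
    refine le_of_tendsto_of_tendsto h1 (om_tendsto G v (x + y) hxy) ?_
    filter_upwards [G.rp_add x y, om_ne G x hx, om_ne G y hy, om_ne G (x + y) hxy, om_H D] with n h2 h3 h4 h5 h6
    have hX := (D.qs n).pos v _ h3
    have hY := (D.qs n).pos v _ h4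
    have hZ := (D.qs n).pos v _ h5
    have h7 := (D.qs n).add v (G.rp x n) (G.rp y n)
    rw [← h2] at h7
    rcases le_total (D.N n v (G.rp x n)) (D.N n v (G.rp y n)) with h8 | h8
    · rw [max_eq_right h8] at h7
      have h9 : Real.log (D.N n v (G.rp (x + y) n)) ≤ Real.log 4 + Real.log (D.N n v (G.rp y n)) := by
        rw [← Real.log_mul (by norm_num) hY.ne']
        exact Real.log_le_log hZ h7
      have h10 : -Real.log (D.N n v (G.rp y n)) / D.H n - Real.log 4 / D.H n ≤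
          -Real.log (D.N n v (G.rp (x + y) n)) / D.H n := by
        rw [← sub_div]
        exact div_le_div_of_nonneg_right (by linarith) h6.le
      exact (sub_le_sub_right (min_le_right _ _) _).trans h10
    · rw [max_eq_left h8] at h7
      have h9 : Real.log (D.N n v (G.rp (x + y) n)) ≤ Real.log 4 + Real.log (D.N n v (G.rp x n)) := by
        rw [← Real.log_mul (by norm_num) hX.ne']
        exact Real.log_le_log hZ h7
      have h10 : -Real.log (D.N n v (G.rp x n)) / D.H n - Real.log 4 / D.H n ≤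
          -Real.log (D.N n v (G.rp (x + y) n)) / D.H n := by
        rw [← sub_div]
        exact div_le_div_of_nonneg_right (by linarith) h6.le
      exact (sub_le_sub_right (min_le_left _ _) _).trans h10
  alg := by
    intro c hc
    refine om_unique G v _ ((map_ne_zero _).2 hc) _ _ ?_ (om_c D (-Real.log (nv v c)))
    filter_upwards [G.rp_alg c] with n h1
    rw [h1, (D.qs n).ext]

section

variable {d : ℕ} (x : ∀ n, Fin (d + 1) → D.L n) (hx : Pt D x)

include hx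

omit hx in
private theorem om_ge (n : ℕ) (hn : ∃ j, x n j = 1) (v : Pl k) : 1 ≤ mxn (D.N n v) (x n) := by
  obtain ⟨j, hj⟩ := hn
  obtain ⟨i, hi, hi'⟩ := om_mxn (D.N n v) (x n)
  rw [hi, ← om_one (D.qs n) v, ← hj]
  exact hi' j

omit hx in
private theorem om_ge' (n : ℕ) (hn : ∃ j, x n j = 1) (v : Pl k) : 1 ≤ mxn (D.N n v) (fun i => D.σ n (x n i)) := by
  obtain ⟨j, hj⟩ := hn
  obtain ⟨i, hi, hi'⟩ := om_mxn (D.N n v) (fun i => D.σ n (x n i))
  rw [hi, ← om_one (D.qs n) v]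
  have h1 := hi' j
  rwa [hj, map_one] at h1

omit hx in
private theorem om_nz (n : ℕ) (v : Pl k) (z : D.L n) (h : 1 ≤ D.N n v z) : z ≠ 0 := by
  rintro rfl
  rw [(D.qs n).zero] at h
  linarith

theorem cv_tendsto (v : Pl k) :
    Tendsto (fun n => Real.log (mxn (D.N n v) (x n)) / D.H n) (D.U : Filter ℕ) (nhds (cv D x v)) := by
  apply om_lim D.U _ 1
  filter_upwards [om_H D] with n h3
  rw [abs_div, abs_of_pos h3, div_le_iff₀ h3, one_mul]
  obtain ⟨i, hi, hi'⟩ := om_mxn (D.N n v) (x n)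
  have h4 := om_ge x n (hx.1 n) v
  rw [hi] at h4 ⊢
  refine (abs_log_le (D.qs n) v _ (om_nz n v _ h4)).trans ?_
  rw [hx.2 n]
  exact ht_crd (D.qs n) (x n) (hx.1 n) i

theorem dv_tendsto (v : Pl k) :
    Tendsto (fun n => Real.log (mxn (D.N n v) fun i => D.σ n (x n i)) / D.H n) (D.U : Filter ℕ) (nhds (dv D x v)) := by
  apply om_lim D.U _ 1
  filter_upwards [om_H D] with n h3
  rw [abs_div, abs_of_pos h3, div_le_iff₀ h3, one_mul]
  obtain ⟨i, hi, hi'⟩ := om_mxn (D.N n v) (fun i => D.σ n (x n i))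
  have h4 := om_ge' x n (hx.1 n) v
  rw [hi] at h4 ⊢
  refine (abs_log_le (D.qs n) v _ (om_nz n v _ h4)).trans ?_
  rw [hx.2 n, ht_σ (D.qs n)]
  exact ht_crd (D.qs n) (x n) (hx.1 n) i

theorem exists_xi : ∃ ξ : Fin (d + 1) → G.K, ∀ j, ∀ᶠ n in (D.U : Filter ℕ), G.rp (ξ j) n = x n j := by
  have h1 : ∀ j : Fin (d + 1), ∃ z : G.K, ∀ᶠ n in (D.U : Filter ℕ), G.rp z n = x n j := by
    intro j
    apply G.rp_surj fun n => x n j
    refine ⟨1, Eventually.of_forall fun n => ?_⟩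
    rw [one_mul, hx.2 n]
    exact ht_crd (D.qs n) (x n) (hx.1 n) j
  choose ξ hξ using h1
  exact ⟨ξ, hξ⟩

variable (ξ : Fin (d + 1) → G.K) (hξ : ∀ j, ∀ᶠ n in (D.U : Filter ℕ), G.rp (ξ j) n = x n j)

include hξ

omit hx hξ in
private theorem om_sum {ι : Type*} (s : Finset ι) (z : ι → G.K) :
    ∀ᶠ n in (D.U : Filter ℕ), G.rp (∑ j ∈ s, z j) n = ∑ j ∈ s, G.rp (z j) n := by
  classical
  induction s using Finset.induction_on with
  | empty => simpa using om_zero G
  | insert a s ha ih =>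
    rw [Finset.sum_insert ha]
    filter_upwards [ih, G.rp_add (z a) (∑ j ∈ s, z j)] with n h1 h2
    rw [Finset.sum_insert ha, h2, h1]

theorem rp_lv (m : Fin (d + 1) → k) : ∀ᶠ n in (D.U : Filter ℕ), G.rp (∑ j, m j • ξ j) n = lv m (x n) := by
  have h1 : ∀ᶠ n in (D.U : Filter ℕ), ∀ j, G.rp (m j • ξ j) n = algebraMap k (D.L n) (m j) * x n j := by
    rw [eventually_all]
    intro j
    filter_upwards [hξ j, G.rp_alg (m j), G.rp_mul (algebraMap k G.K (m j)) (ξ j)] with n h2 h3 h4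
    rw [Algebra.smul_def, h4, h3, h2]
  filter_upwards [h1, om_sum G Finset.univ fun j => m j • ξ j] with n h2 h3
  rw [h3, lv]
  exact Finset.sum_congr rfl fun j _ => h2 j

theorem om_nonneg (v : Pl k) (z : G.K) (hz : z ∈ Submodule.span k (Set.range ξ)) (hz0 : z ≠ 0) :
    0 ≤ om G v z + cv D x v := by
  obtain ⟨m, rfl⟩ := (Submodule.mem_span_range_iff_exists_fun k).1 hz
  obtain ⟨C, _, _, hC⟩ := lv_le m
  refine le_of_tendsto_of_tendsto (om_c D (-C v)) ((om_tendsto G v _ hz0).add (cv_tendsto x hx v)) ?_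
  filter_upwards [rp_lv G x hx ξ hξ m, om_ne G _ hz0, om_H D] with n h1 h2 h3
  rw [h1] at h2 ⊢
  have h4 := hC (D.L n) (D.σ n) (D.N n) (D.qs n) (x n) v h2
  rw [← add_div]
  exact div_le_div_of_nonneg_right (by linarith) h3.le

theorem om_nonneg' (v : Pl k) (z : G.K) (hz : z ∈ Submodule.span k (Set.range ξ)) (hz0 : z ≠ 0) :
    0 ≤ om G v (G.τ z) + dv D x v := by
  obtain ⟨m, rfl⟩ := (Submodule.mem_span_range_iff_exists_fun k).1 hz
  obtain ⟨C, _, _, hC⟩ := lv_le m
  have hτ : G.τ (∑ j, m j • ξ j) ≠ 0 := (map_ne_zero G.τ).2 hz0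
  refine le_of_tendsto_of_tendsto (om_c D (-C v)) ((om_tendsto G v _ hτ).add (dv_tendsto x hx v)) ?_
  filter_upwards [rp_lv G x hx ξ hξ m, om_ne G _ hτ, om_H D, G.rp_τ (∑ j, m j • ξ j)] with n h1 h2 h3 h4
  rw [h4, h1] at h2 ⊢
  rw [← om_lvσ] at h2 ⊢
  have h5 := hC (D.L n) (D.σ n) (D.N n) (D.qs n) _ v h2
  rw [← add_div]
  exact div_le_div_of_nonneg_right (by linarith) h3.le

omit hx hξ in
private theorem om_pig (p : Fin (d + 1) → ℕ → Prop) (h : ∀ n, ∃ j, p j n) : ∃ j, ∀ᶠ n in (D.U : Filter ℕ), p j n := by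
  by_contra h1
  rw [not_exists] at h1
  have h2 : ∀ᶠ n in (D.U : Filter ℕ), ∀ j, ¬ p j n := by
    rw [eventually_all]
    intro j
    exact Ultrafilter.eventually_not.2 (h1 j)
  obtain ⟨n, hn⟩ := h2.exists
  obtain ⟨j, hj⟩ := h n
  exact hn j hj

theorem om_attained (v : Pl k) : ∃ z ∈ Submodule.span k (Set.range ξ), z ≠ 0 ∧ om G v z + cv D x v = 0 := by
  obtain ⟨j, hj⟩ := om_pig (D := D) (fun j n => mxn (D.N n v) (x n) = D.N n v (x n j)) fun n => by
    obtain ⟨i, hi, _⟩ := om_mxn (D.N n v) (x n)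
    exact ⟨i, hi⟩
  have h0 : ξ j ≠ 0 := by
    intro h
    have h1 := hξ j
    rw [h] at h1
    obtain ⟨n, h2, h3, h4⟩ := (h1.and ((om_zero G).and hj)).exists
    have h5 := om_ge x n (hx.1 n) v
    rw [h4] at h5
    exact om_nz n v _ h5 (by rw [← h2, h3])
  refine ⟨ξ j, Submodule.subset_span ⟨j, rfl⟩, h0, ?_⟩
  refine tendsto_nhds_unique ((om_tendsto G v _ h0).add (cv_tendsto x hx v)) ?_
  refine Tendsto.congr' ?_ tendsto_const_nhds
  filter_upwards [hξ j, hj] with n h1 h2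
  rw [h1, h2]
  ring

theorem om_attained' (v : Pl k) : ∃ z ∈ Submodule.span k (Set.range ξ), z ≠ 0 ∧ om G v (G.τ z) + dv D x v = 0 := by
  obtain ⟨j, hj⟩ := om_pig (D := D) (fun j n => mxn (D.N n v) (fun i => D.σ n (x n i)) = D.N n v (D.σ n (x n j))) fun n => by
    obtain ⟨i, hi, _⟩ := om_mxn (D.N n v) (fun i => D.σ n (x n i))
    exact ⟨i, hi⟩
  have h0 : ξ j ≠ 0 := by
    intro h
    have h1 := hξ j
    rw [h] at h1
    obtain ⟨n, h2, h3, h4⟩ := (h1.and ((om_zero G).and hj)).exists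
    have h5 := om_ge' x n (hx.1 n) v
    rw [h4] at h5
    exact om_nz n v _ h5 (by rw [← h2, h3, map_zero])
  refine ⟨ξ j, Submodule.subset_span ⟨j, rfl⟩, h0, ?_⟩
  refine tendsto_nhds_unique ((om_tendsto G v _ ((map_ne_zero G.τ).2 h0)).add (dv_tendsto x hx v)) ?_
  refine Tendsto.congr' ?_ tendsto_const_nhds
  filter_upwards [hξ j, hj, G.rp_τ (ξ j)] with n h1 h2 h3
  rw [h3, h1, h2]
  ring

theorem om_prod (P : Finset (Pl k)) (z : G.K) (hz : z ∈ Submodule.span k (Set.range ξ)) (hz0 : z ≠ 0) :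
    ∑ v ∈ P, ((om G v z + cv D x v) + (om G v (G.τ z) + dv D x v)) ≤ 1 := by
  obtain ⟨m, rfl⟩ := (Submodule.mem_span_range_iff_exists_fun k).1 hz
  obtain ⟨C, hC⟩ := liouville m P
  have hτ : G.τ (∑ j, m j • ξ j) ≠ 0 := (map_ne_zero G.τ).2 hz0
  have h1 := tendsto_finsetSum P fun v _ => ((om_tendsto G v _ hz0).add (cv_tendsto x hx v)).add
    ((om_tendsto G v _ hτ).add (dv_tendsto x hx v))
  have h2 := (om_c D C).const_add 1
  rw [add_zero] at h2
  refine le_of_tendsto_of_tendsto h1 h2 ?_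
  filter_upwards [rp_lv G x hx ξ hξ m, om_ne G _ hz0, om_H D, G.rp_τ (∑ j, m j • ξ j)] with n h3 h4 h5 h6
  rw [h3] at h4
  have h7 := hC (D.L n) (D.σ n) (D.N n) (D.qs n) (x n) (hx.1 n) h4
  rw [← hx.2 n] at h7
  have h8 : ∀ v ∈ P, (-Real.log (D.N n v (G.rp (∑ j, m j • ξ j) n)) / D.H n + Real.log (mxn (D.N n v) (x n)) / D.H n) +
      (-Real.log (D.N n v (G.rp (G.τ (∑ j, m j • ξ j)) n)) / D.H n +
        Real.log (mxn (D.N n v) fun i => D.σ n (x n i)) / D.H n) =
      ((Real.log (mxn (D.N n v) (x n)) - Real.log (D.N n v (lv m (x n)))) +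
        (Real.log (mxn (D.N n v) fun i => D.σ n (x n i)) - Real.log (D.N n v (D.σ n (lv m (x n)))))) / D.H n := by
    intro v _
    rw [h6, h3]
    ring
  rw [Finset.sum_congr rfl h8, ← Finset.sum_div, div_le_iff₀ h5, add_mul, one_mul, div_mul_cancel₀ _ h5.ne']
  exact h7

end

end

end Pool.Agent.SQ
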