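import Pool.Agent.Helper42.SQ.OM
import Pool.Agent.Helper42.SQ.LIN
import Pool.Agent.Helper42.SQ.FB
import Pool.Agent.Helper42.SQ.GER
import Pool.Agent.Helper42.SQ.SUB

/-!
# SQ, block GA: the germs of a sequence of points (assembly of `thmB`, `ger`, OM and `sub`)
-/

set_option autoImplicit false

namespace Pool.Agent.SQ

open NumberField Filter Module
open Pool.Agent.Helper64.Vojta (Pl nv)
open Pool.Agent.V2

universe u

variable {k : Type u} [Field k] [NumberField k] {D : Sq k}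

/-- the value of a linear form at the point of the germs -/
private noncomputable def gaφ (G : GF D) {d : ℕ} (ξ : Fin (d + 1) → G.K) : (Fin (d + 1) → k) →ₗ[k] G.K :=
  Fintype.linearCombination k ξ

private theorem gaφ_apply (G : GF D) {d : ℕ} (ξ : Fin (d + 1) → G.K) (m : Fin (d + 1) → k) :
    gaφ G ξ m = ∑ j, m j • ξ j := rfl

private theorem ga_range (G : GF D) {d : ℕ} (ξ : Fin (d + 1) → G.K) :
    LinearMap.range (gaφ G ξ) = Submodule.span k (Set.range ξ) := by
  ext z
  rw [LinearMap.mem_range, Submodule.mem_span_range_iff_exists_fun]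
  rfl

private theorem ga_zero (G : GF D) : ∀ᶠ n in (D.U : Filter ℕ), G.rp 0 n = 0 := by
  have h := G.rp_alg 0
  rw [map_zero] at h
  filter_upwards [h] with n hn
  rw [hn, map_zero]

private theorem ga_ker (G : GF D) {d : ℕ} (x : ∀ n, Fin (d + 1) → D.L n) (hx : Pt D x) (ξ : Fin (d + 1) → G.K)
    (hξ : ∀ j, ∀ᶠ n in (D.U : Filter ℕ), G.rp (ξ j) n = x n j) : LinearMap.ker (gaφ G ξ) = vanx D x := by
  ext m
  rw [LinearMap.mem_ker, gaφ_apply]
  constructor
  · intro h
    show ∀ᶠ n in (D.U : Filter ℕ), lv m (x n) = 0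
    have h1 := rp_lv G x hx ξ hξ m
    rw [h] at h1
    filter_upwards [h1, ga_zero G] with n h2 h3
    rw [← h2, h3]
  · intro h
    have h' : ∀ᶠ n in (D.U : Filter ℕ), lv m (x n) = 0 := h
    apply G.rp_inj
    filter_upwards [rp_lv G x hx ξ hξ m, ga_zero G, h'] with n h1 h2 h3
    rw [h1, h2, h3]

theorem germs {d : ℕ} (x : ∀ n, Fin (d + 1) → D.L n) (hx : Pt D x) {q : ℕ} (l : Fin q → Fin (d + 1) → k)
    (hl : ∀ i, l i ∉ vanx D x) (hC : Comb k (fun i => (vanx D x).mkQ (l i)) (finrank k (vanx D x)))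
    (P : Finset (Pl k)) {ε : ℝ} (hε : 0 < ε) :
    ∀ᶠ n in (D.U : Filter ℕ), ∑ v ∈ P, ∑ i, ((Real.log (mxn (D.N n v) (x n)) - Real.log (D.N n v (lv (l i) (x n)))) +
      (Real.log (mxn (D.N n v) fun j => D.σ n (x n j)) - Real.log (D.N n v (D.σ n (lv (l i) (x n)))))) ≤
      (2 * (d + 1) + ε) * D.H n := by
  obtain ⟨G⟩ := ger D
  obtain ⟨ξ, hξ⟩ := exists_xi G x hx
  have hker := ga_ker G x hx ξ hξ
  have hran := ga_range G ξ
  -- the quotient by the vanishing forms is the span of the coordinates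
  let e : ((Fin (d + 1) → k) ⧸ vanx D x) ≃ₗ[k] ↥(Submodule.span k (Set.range ξ)) :=
    (Submodule.quotEquivOfEq _ _ hker.symm).trans ((gaφ G ξ).quotKerEquivRange.trans (LinearEquiv.ofEq _ _ hran))
  have he : ∀ m, (e ((vanx D x).mkQ m) : G.K) = ∑ j, m j • ξ j := by
    intro m
    rfl
  have hne : ∀ i, ∑ j, l i j • ξ j ≠ 0 := by
    intro i h
    apply hl i
    rw [← hker, LinearMap.mem_ker, gaφ_apply]
    exact h
  have hL : ∀ i, e ((vanx D x).mkQ (l i)) ≠ 0 := by
    intro i h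
    apply hne i
    rw [← he, h]
    rfl
  have hmem : ∀ i, ∑ j, l i j • ξ j ∈ Submodule.span k (Set.range ξ) := fun i => by
    rw [← he]; exact (e ((vanx D x).mkQ (l i))).2
  have : FiniteDimensional k ↥(Submodule.span k (Set.range ξ)) := FiniteDimensional.span_of_finite k (Set.finite_range ξ)
  have hdim : finrank k ↥(Submodule.span k (Set.range ξ)) + finrank k (vanx D x) = d + 1 := by
    have h1 := LinearMap.finrank_range_add_finrank_ker (gaφ G ξ)
    rw [hran, hker, Module.finrank_fin_fun] at h1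
    exact h1
  have hB := thmB G.τ G.ττ (P := P) (fun v => om G v) (fun v => om_RV G v) (fun v => cv D x v) (fun v => dv D x v)
    (Submodule.span k (Set.range ξ))
    (fun v z hz hz0 => om_nonneg G x hx ξ hξ v z hz hz0)
    (fun v z hz hz0 => om_nonneg' G x hx ξ hξ v z hz hz0)
    (fun m s hs E hE hEs n z hz hzE => sub G x hx ξ hξ P m s hs E hE hEs n z hz hzE)
    (fun v => om_attained G x hx ξ hξ v)
    (fun v => om_attained' G x hx ξ hξ v)
    (fun z hz hz0 => by
      have h := om_prod G x hx ξ hξ P z hz hz0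
      rw [← Finset.sum_coe_sort] at h
      exact h)
    (fun i => e ((vanx D x).mkQ (l i))) hL (Comb.map e hC)
  have hB' : ∑ v ∈ P, ∑ i, ((om G v (∑ j, l i j • ξ j) + cv D x v) + (om G v (G.τ (∑ j, l i j • ξ j)) + dv D x v)) ≤
      2 * ((d : ℝ) + 1) := by
    rw [← Finset.sum_coe_sort]
    refine hB.trans (le_of_eq ?_)
    have : ((finrank k ↥(Submodule.span k (Set.range ξ)) : ℝ) + finrank k (vanx D x)) = d + 1 := by
      exact_mod_cast hdim
    rw [this]
  -- the limit
  have hlim := tendsto_finsetSum P fun v _ => tendsto_finsetSum (Finset.univ : Finset (Fin q)) fun i _ =>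
    ((om_tendsto G v _ (hne i)).add (cv_tendsto x hx v)).add
      ((om_tendsto G v _ ((map_ne_zero G.τ).2 (hne i))).add (dv_tendsto x hx v))
  have hlt : ∑ v ∈ P, ∑ i, ((om G v (∑ j, l i j • ξ j) + cv D x v) + (om G v (G.τ (∑ j, l i j • ξ j)) + dv D x v)) <
      2 * ((d : ℝ) + 1) + ε := by linarith
  have hr : ∀ᶠ n in (D.U : Filter ℕ), ∀ i, G.rp (∑ j, l i j • ξ j) n = lv (l i) (x n) ∧
      G.rp (G.τ (∑ j, l i j • ξ j)) n = D.σ n (lv (l i) (x n)) := by
    rw [eventually_all]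
    intro i
    filter_upwards [rp_lv G x hx ξ hξ (l i), G.rp_τ (∑ j, l i j • ξ j)] with n h1 h2
    exact ⟨h1, by rw [h2, h1]⟩
  filter_upwards [hlim.eventually_lt_const hlt, hr, D.H1.eventually_gt_atTop 0] with n h1 h2 h3
  have h4 : ∑ v ∈ P, ∑ i, ((-Real.log (D.N n v (G.rp (∑ j, l i j • ξ j) n)) / D.H n +
      Real.log (mxn (D.N n v) (x n)) / D.H n) +
      (-Real.log (D.N n v (G.rp (G.τ (∑ j, l i j • ξ j)) n)) / D.H n +
        Real.log (mxn (D.N n v) fun i => D.σ n (x n i)) / D.H n)) =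
      (∑ v ∈ P, ∑ i, ((Real.log (mxn (D.N n v) (x n)) - Real.log (D.N n v (lv (l i) (x n)))) +
      (Real.log (mxn (D.N n v) fun j => D.σ n (x n j)) - Real.log (D.N n v (D.σ n (lv (l i) (x n))))))) / D.H n := by
    rw [Finset.sum_div]
    refine Finset.sum_congr rfl fun v _ => ?_
    rw [Finset.sum_div]
    refine Finset.sum_congr rfl fun i _ => ?_
    rw [(h2 i).1, (h2 i).2]
    ring
  rw [h4, div_lt_iff₀ h3] at h1
  exact h1.le

end Pool.Agent.SQ
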