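import Pool.Agent.Helper42.SQ.GDefs2

/-!
# SQ, stage 3, block GAL2: quadratic extensions are normal
-/

set_option autoImplicit false

namespace Pool.Agent.SQ

open NumberField Filter Module
open Pool.Agent.Helper64.Vojta (Pl nv sn above)
open Pool.Agent.V2
open Pool.Agent.Chart (fld dg crd val hgt lam)

universe u

/-- quadratic extensions are normal -/
theorem gal_le_two {k : Type u} [Field k] [NumberField k] {N : ℕ} (x : Fin N → AlgebraicClosure k) (h : dg x ≤ 2) :
    finrank k (gal x) ≤ 2 := by
  have hfd : FiniteDimensional k (fld x) :=
    IntermediateField.finiteDimensional_adjoin fun x _ => Algebra.IsIntegral.isIntegral x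
  have hn : Normal k (fld x) := by
    have hpos : 0 < dg x := Module.finrank_pos
    rcases (by omega : dg x = 1 ∨ dg x = 2) with h1 | h2
    · have hbot : fld x = ⊥ := IntermediateField.finrank_eq_one_iff.1 h1
      rw [hbot]
      infer_instance
    · have h3 : Algebra.IsQuadraticExtension k (fld x) := ⟨h2⟩
      infer_instance
  have e : gal x = fld x := by
    unfold gal
    exact IntermediateField.normalClosure_of_normal (fld x)
  rw [e]
  exact h

end Pool.Agent.SQ
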