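import Pool.Agent.Helper42.SQ.ABSg
import Pool.Agent.Helper42.SQ.GERg
import Pool.Agent.Helper42.SQ.SUBg

/-!
# SQ, stage 2, block GAg: from the abstract theorem to sequences of points
-/

set_option autoImplicit false

namespace Pool.Agent.SQ

open NumberField Filter Module MvPolynomial
open Pool.Agent.Helper64.Vojta (Pl nv sn above)
open Pool.Agent.V2
open Pool.Agent.Chart (fld dg crd hgt)

universe u

section

variable {k : Type u} [Field k] [NumberField k] {G : Type} [Group G] [Fintype G] {D : SqG k G}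

/-- the germ of the value of a linear form -/
private noncomputable def phi80 (F : GFG D) {ι : Type} [Fintype ι] (ξ : ι → F.K) : (ι → k) →ₗ[k] F.K where
  toFun m := ∑ j, m j • ξ j
  map_add' m m' := by simp [add_smul, Finset.sum_add_distrib]
  map_smul' c m := by simp [Finset.smul_sum, mul_smul]

private theorem ker80 (F : GFG D) {ι : Type} [Fintype ι] (x : ∀ n, ι → D.L n) (hx : Ptg D x) (ξ : ι → F.K)
    (hξ : ∀ j, ∀ᶠ n in (D.U : Filter ℕ), F.rp (ξ j) n = x n j) : LinearMap.ker (phi80 F ξ) = vang D x := by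
  have h0 : ∀ᶠ n in (D.U : Filter ℕ), F.rp 0 n = 0 := by
    have h := F.rp_alg 0
    rw [map_zero] at h
    filter_upwards [h] with n hn
    rw [hn, map_zero]
  ext m
  rw [LinearMap.mem_ker]
  have h1 := rp_lvg F x hx ξ hξ m
  constructor
  · intro h
    have h' : ∑ j, m j • ξ j = 0 := h
    rw [h'] at h1
    show ∀ᶠ n in (D.U : Filter ℕ), lvg m (x n) = 0
    filter_upwards [h0, h1] with n h2 h3
    rw [← h3, h2]
  · intro h
    have h' : ∀ᶠ n in (D.U : Filter ℕ), lvg m (x n) = 0 := h
    show ∑ j, m j • ξ j = 0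
    refine F.rp_inj _ _ ?_
    filter_upwards [h0, h1, h'] with n h2 h3 h4
    rw [h3, h4, h2]

private theorem range80 (F : GFG D) {ι : Type} [Fintype ι] (ξ : ι → F.K) :
    LinearMap.range (phi80 F ξ) = Submodule.span k (Set.range ξ) := by
  ext z
  rw [LinearMap.mem_range, Submodule.mem_span_range_iff_exists_fun]
  rfl

/-- uses `thm_g` of Stmt2 -/
theorem germs_g {ι : Type} [Fintype ι] (x : ∀ n, ι → D.L n) (hx : Ptg D x) (P : Finset (Pl k)) (n : Pl k → G → ℕ)
    (e : ∀ v g, Fin (n v g) → ι → k)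
    (he : ∀ v ∈ P, ∀ g, LinearIndependent k fun i => (vang D x).mkQ (e v g i)) {ε : ℝ} (hε : 0 < ε) :
    ∀ᶠ a in (D.U : Filter ℕ), ∑ v ∈ P, ∑ g, ∑ i, (Real.log (mxn (D.N a v) fun j => D.s a g (x a j)) -
      Real.log (D.N a v (D.s a g (lvg (e v g i) (x a))))) ≤
      (Fintype.card G * finrank k ((ι → k) ⧸ vang D x) + ε) * D.H a := by
  obtain ⟨F⟩ := ger_g D
  obtain ⟨ξ, hξ⟩ := exists_xig F x hx
  have hker := ker80 F x hx ξ hξ
  have hran := range80 F ξ
  have hfr : finrank k ((ι → k) ⧸ vang D x) = finrank k (Submodule.span k (Set.range ξ)) := by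
    rw [← hker, ← hran]
    exact (LinearMap.quotKerEquivRange (phi80 F ξ)).finrank_eq
  have hfd : FiniteDimensional k (Submodule.span k (Set.range ξ)) := FiniteDimensional.span_of_finite k (Set.finite_range ξ)
  have hli : ∀ v ∈ P, ∀ g, LinearIndependent k fun i => phi80 F ξ (e v g i) := by
    intro v hv g
    have h := he v hv g
    rw [Fintype.linearIndependent_iff] at h ⊢
    intro c hc
    refine h c ?_
    have h2 : phi80 F ξ (∑ i, c i • e v g i) = 0 := by
      rw [map_sum]
      simp only [map_smul]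
      exact hc
    have h3 : ∑ i, c i • e v g i ∈ vang D x := by rw [← hker]; exact h2
    have h4 : (vang D x).mkQ (∑ i, c i • e v g i) = 0 := by
      rw [Submodule.mkQ_apply, Submodule.Quotient.mk_eq_zero]; exact h3
    rw [map_sum] at h4
    simpa only [map_smul] using h4
  have hmain := thm_g F.s (P := P) (fun v => omg F v) (fun v => omg_RV F v) (fun v g => cg D x v g)
    (Submodule.span k (Set.range ξ)) (fun v g z hz hz0 => omg_nonneg F x hx ξ hξ v g z hz hz0)
    (fun m E hE hEs n' z hz hzE => sub_g F x hx ξ hξ P m E hE hEs n' z hz hzE)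
    (fun v g => n v g) (fun v g i => phi80 F ξ (e v g i)) (fun v g => hli v v.2 g)
    (fun v g i => by rw [← hran]; exact LinearMap.mem_range_self _ _)
  rw [← hfr] at hmain
  have hterm : ∀ (v : P) (g : G) (i : Fin (n v g)), Tendsto (fun a => (Real.log (mxn (D.N a v) fun j => D.s a g (x a j)) -
      Real.log (D.N a v (D.s a g (lvg (e v g i) (x a))))) / D.H a) (D.U : Filter ℕ)
      (nhds (omg F v (F.s g (phi80 F ξ (e v g i))) + cg D x v g)) := by
    intro v g i
    have hne : F.s g (phi80 F ξ (e v g i)) ≠ 0 := by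
      rw [Ne, EmbeddingLike.map_eq_zero_iff]
      exact (hli v v.2 g).ne_zero i
    have h1 := omg_tendsto F v _ hne
    have h2 := cg_tendsto x hx v g
    refine (h1.add h2).congr' ?_
    filter_upwards [F.rp_s g (phi80 F ξ (e v g i)), rp_lvg F x hx ξ hξ (e v g i)] with a h3 h4
    have h5 : F.rp (phi80 F ξ (e v g i)) a = lvg (e v g i) (x a) := h4
    rw [h3, h5]
    ring
  have hsum : Tendsto (fun a => (∑ v : P, ∑ g, ∑ i, (Real.log (mxn (D.N a v) fun j => D.s a g (x a j)) -
      Real.log (D.N a v (D.s a g (lvg (e v g i) (x a)))))) / D.H a) (D.U : Filter ℕ)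
      (nhds (∑ v : P, ∑ g, ∑ i, (omg F v (F.s g (phi80 F ξ (e v g i))) + cg D x v g))) := by
    simp only [Finset.sum_div]
    exact tendsto_finset_sum _ fun v _ => tendsto_finset_sum _ fun g _ => tendsto_finset_sum _ fun i _ => hterm v g i
  have hlt := hsum.eventually_lt_const (hmain.trans_lt (lt_add_of_pos_right _ hε))
  filter_upwards [hlt, D.H1.eventually_gt_atTop 0] with a h1 h2
  rw [div_lt_iff₀ h2] at h1
  rw [← Finset.sum_coe_sort P (fun v => ∑ g, ∑ i, (Real.log (mxn (D.N a v) fun j => D.s a g (x a j)) -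
      Real.log (D.N a v (D.s a g (lvg (e v g i) (x a))))))]
  exact h1.le

end

end Pool.Agent.SQ
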