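import Pool.Agent.Helper42.SQ.OMg

/-!
# SQ, stage 6 (forms which move with the point): definitions

`slk F`: the field of the germs of `k` of height `o(H)`; `ss F`: the action of `G`, linear over this field.
-/

set_option autoImplicit false

namespace Pool.Agent.SQ

open NumberField Filter Module
open Pool.Agent.Helper64.Vojta (Pl nv sn above)
open Pool.Agent.V2

universe u

variable {k : Type u} [Field k] [NumberField k] {G : Type} [Group G] [Fintype G]

/-- The family `z` has height `o(H)`. -/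
def SlowG (D : SqG k G) (z : ∀ n, D.L n) : Prop :=
  ∀ ε : ℝ, 0 < ε → ∀ᶠ n in (D.U : Filter ℕ), htg (D.s n) (D.N n) (z n) ≤ ε * D.H n

theorem SlowG.congr {D : SqG k G} {z z' : ∀ n, D.L n} (h : SlowG D z) (e : ∀ᶠ n in (D.U : Filter ℕ), z' n = z n) :
    SlowG D z' := by
  intro ε hε
  filter_upwards [h ε hε, e] with n h1 h2
  rw [h2]
  exact h1

theorem SlowG.cst (D : SqG k G) (C : ℝ) (z : ∀ n, D.L n) (h : ∀ᶠ n in (D.U : Filter ℕ), htg (D.s n) (D.N n) (z n) ≤ C) :
    SlowG D z := by
  intro ε hε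
  filter_upwards [h, D.H1.eventually_ge_atTop (C / ε)] with n h1 h2
  rw [div_le_iff₀ hε] at h2
  linarith

theorem SlowG.mul {D : SqG k G} {z z' : ∀ n, D.L n} (h : SlowG D z) (h' : SlowG D z') : SlowG D fun n => z n * z' n := by
  intro ε hε
  filter_upwards [h (ε / 2) (half_pos hε), h' (ε / 2) (half_pos hε)] with n h1 h2
  have := htg_mul (D.qs n) (z n) (z' n)
  linarith

theorem SlowG.add {D : SqG k G} {z z' : ∀ n, D.L n} (h : SlowG D z) (h' : SlowG D z') : SlowG D fun n => z n + z' n := by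
  intro ε hε
  obtain ⟨C, hC⟩ := htg_add.{u} k G
  filter_upwards [h (ε / 3) (by positivity), h' (ε / 3) (by positivity),
    D.H1.eventually_ge_atTop (C / (ε / 3))] with n h1 h2 h3
  rw [div_le_iff₀ (by positivity)] at h3
  have := hC (D.L n) (D.s n) (D.N n) (D.qs n) (z n) (z' n)
  linarith

/-- the germs of `k` of height `o(H)` -/
def slk {D : SqG k G} (F : GFG D) : IntermediateField k F.K where
  carrier := {z | (∀ g, F.s g z = z) ∧ SlowG D (F.rp z)}
  mul_mem' := by
    rintro x y ⟨h1, h2⟩ ⟨h3, h4⟩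
    refine ⟨fun g => by rw [map_mul, h1, h3], (h2.mul h4).congr (F.rp_mul x y)⟩
  one_mem' := by
    refine ⟨fun g => map_one _, ?_⟩
    obtain ⟨C, hC⟩ := htg_alg.{u} G (1 : k)
    refine SlowG.cst D C _ ?_
    filter_upwards [F.rp_alg 1] with n hn
    rw [map_one, map_one] at hn
    rw [hn]
    simpa using hC (D.L n) (D.s n) (D.N n) (D.qs n)
  add_mem' := by
    rintro x y ⟨h1, h2⟩ ⟨h3, h4⟩
    refine ⟨fun g => by rw [map_add, h1, h3], (h2.add h4).congr (F.rp_add x y)⟩
  zero_mem' := by
    refine ⟨fun g => map_zero _, ?_⟩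
    obtain ⟨C, hC⟩ := htg_alg.{u} G (0 : k)
    refine SlowG.cst D C _ ?_
    filter_upwards [F.rp_alg 0] with n hn
    rw [map_zero, map_zero] at hn
    rw [hn]
    simpa using hC (D.L n) (D.s n) (D.N n) (D.qs n)
  algebraMap_mem' := by
    intro c
    refine ⟨fun g => by rw [AlgEquiv.commutes], ?_⟩
    obtain ⟨C, hC⟩ := htg_alg.{u} G c
    refine SlowG.cst D C _ ?_
    filter_upwards [F.rp_alg c] with n hn
    rw [hn]
    exact hC (D.L n) (D.s n) (D.N n) (D.qs n)
  inv_mem' := by
    rintro x ⟨h1, h2⟩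
    refine ⟨fun g => by rw [map_inv₀, h1], ?_⟩
    by_cases hx : x = 0
    · subst hx
      rw [inv_zero]
      exact h2
    have hx0 : ∀ᶠ n in (D.U : Filter ℕ), F.rp x n ≠ 0 := by
      rw [Ultrafilter.eventually_not]
      intro h
      apply hx
      apply F.rp_inj
      have h3 := F.rp_alg 0
      simp only [map_zero] at h3
      filter_upwards [h, h3] with n h4 h5
      rw [h4, h5]
    have h3 : ∀ᶠ n in (D.U : Filter ℕ), F.rp x⁻¹ n = (F.rp x n)⁻¹ := by
      have h4 := F.rp_mul x x⁻¹
      rw [mul_inv_cancel₀ hx] at h4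
      have h5 := F.rp_alg 1
      simp only [map_one] at h5
      filter_upwards [h4, h5, hx0] with n h6 h7 h8
      rw [h7] at h6
      exact eq_inv_of_mul_eq_one_right h6.symm
    intro ε hε
    filter_upwards [h2 ε hε, h3, hx0] with n h4 h5 h6
    rw [h5, htg_inv (D.qs n) _ h6]
    exact h4

theorem mem_slk {D : SqG k G} {F : GFG D} {z : F.K} : z ∈ slk F ↔ (∀ g, F.s g z = z) ∧ SlowG D (F.rp z) := Iff.rfl

/-- the action of `G`, linear over the slow germs -/
noncomputable def ss {D : SqG k G} (F : GFG D) : G →* (F.K ≃ₐ[slk F] F.K) where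
  toFun g := { (F.s g).toRingEquiv with commutes' := fun c => c.2.1 g }
  map_one' := by
    ext x
    show F.s 1 x = x
    rw [map_one]
    rfl
  map_mul' := by
    intro g h
    ext x
    show F.s (g * h) x = F.s g (F.s h x)
    rw [map_mul]
    rfl

@[simp] theorem ss_apply {D : SqG k G} (F : GFG D) (g : G) (x : F.K) : ss F g x = F.s g x := rfl

/-- the linear forms over the slow germs which vanish at the point `ξ` -/
noncomputable def kerS {D : SqG k G} (F : GFG D) {ι : Type} [Fintype ι] (ξ : ι → F.K) : Submodule (slk F) (ι → slk F) :=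
  LinearMap.ker (Fintype.linearCombination (slk F) ξ)

theorem mem_kerS {D : SqG k G} (F : GFG D) {ι : Type} [Fintype ι] (ξ : ι → F.K) (m : ι → slk F) :
    m ∈ kerS F ξ ↔ ∑ j, m j • ξ j = 0 := by
  rw [kerS, LinearMap.mem_ker, Fintype.linearCombination_apply]

end Pool.Agent.SQ
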