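import Pool.Agent.Helper42.SQ.Defs
import Pool.Agent.Helper41.SQ.Gr

/-!
# SQ, block GR: the Brunn-Minkowski step for a field with a discrete valuation
-/

set_option autoImplicit false

namespace Pool.Agent.SQ

open Module

universe u

section lead5

variable {k K κ : Type*} [Field k] [Field K] [Field κ] [Algebra k K] [Algebra k κ]

private theorem v_one5 (D : DV k K κ) : D.v 1 = 0 := by
  have h := D.mul 1 1 one_ne_zero one_ne_zero
  rw [mul_one] at h
  omega

private theorem v_pow5 (D : DV k K κ) (n : ℕ) : D.v (D.π ^ n) = n := by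
  induction n with
  | zero => rw [pow_zero, v_one5]; rfl
  | succ n ih =>
    rw [pow_succ, D.mul _ _ (pow_ne_zero _ D.π0) D.π0, ih, D.vπ]
    push_cast
    rfl

private theorem v_zpow5 (D : DV k K κ) (n : ℤ) : D.v (D.π ^ n) = n := by
  obtain ⟨m, rfl | rfl⟩ := n.eq_nat_or_neg
  · rw [zpow_natCast, v_pow5]
  · have h := D.mul (D.π ^ m) (D.π ^ (-(m : ℤ))) (pow_ne_zero _ D.π0) (zpow_ne_zero _ D.π0)
    rw [← zpow_natCast, ← zpow_add₀ D.π0, add_neg_cancel, zpow_zero, v_one5, zpow_natCast,
      v_pow5] at h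
    omega

private theorem shift5 (D : DV k K κ) {n m : ℤ} {x : K} (hx : x = 0 ∨ n ≤ D.v x) :
    x * D.π ^ m = 0 ∨ n + m ≤ D.v (x * D.π ^ m) := by
  by_cases h0 : x = 0
  · exact Or.inl (by rw [h0, zero_mul])
  · right
    rw [D.mul _ _ h0 (zpow_ne_zero _ D.π0), v_zpow5]
    have := hx.resolve_left h0
    omega

private theorem shift_iff5 (D : DV k K κ) {n : ℤ} {x : K} :
    (x * D.π ^ (-n) = 0 ∨ 0 < D.v (x * D.π ^ (-n))) ↔ (x = 0 ∨ n + 1 ≤ D.v x) := by
  by_cases h0 : x = 0
  · simp [h0]
  · have h1 : x * D.π ^ (-n) ≠ 0 := mul_ne_zero h0 (zpow_ne_zero _ D.π0)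
    rw [D.mul _ _ h0 (zpow_ne_zero _ D.π0), v_zpow5]
    constructor
    · intro h
      have := h.resolve_left h1
      exact Or.inr (by omega)
    · intro h
      have := h.resolve_left h0
      exact Or.inr (by omega)

/-- the filtration -/
def M5 (D : DV k K κ) (n : ℤ) : Submodule k K where
  carrier := {x | x = 0 ∨ n ≤ D.v x}
  zero_mem' := Or.inl rfl
  add_mem' := by
    intro x y hx hy
    rcases hx with rfl | hx
    · simpa using hy
    rcases hy with rfl | hy
    · rw [add_zero]; exact Or.inr hx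
    by_cases hxy : x + y = 0
    · exact Or.inl hxy
    by_cases hx0 : x = 0
    · subst hx0; rw [zero_add]; exact Or.inr hy
    by_cases hy0 : y = 0
    · subst hy0; rw [add_zero]; exact Or.inr hx
    exact Or.inr ((le_min hx hy).trans (D.add x y hx0 hy0 hxy))
  smul_mem' := by
    intro c x hx
    rcases hx with rfl | hx
    · simp
    by_cases hc : c = 0
    · left; simp [hc]
    by_cases hx0 : x = 0
    · left; simp [hx0]
    right
    rw [Algebra.smul_def, D.mul _ _ (by simpa using hc) hx0, D.alg c hc, zero_add]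
    exact hx

private theorem mem_M5 (D : DV k K κ) (n : ℤ) (x : K) : x ∈ M5 D n ↔ (x = 0 ∨ n ≤ D.v x) := Iff.rfl

private theorem mem_ring5 (D : DV k K κ) {n : ℤ} {x : K} (hx : x ∈ M5 D n) :
    x * D.π ^ (-n) = 0 ∨ 0 ≤ D.v (x * D.π ^ (-n)) := by
  have := shift5 D (m := -n) hx
  rwa [add_neg_cancel] at this

/-- the valuation with its leading coefficients -/
def lead5 (D : DV k K κ) : Helper41.SQ.Lead k K κ where
  M := M5 D
  ld := fun n x => D.res (x * D.π ^ (-n))
  anti := by
    intro n x hx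
    rw [mem_M5] at hx ⊢
    rcases hx with h | h
    · exact Or.inl h
    · exact Or.inr (by omega)
  add := by
    intro n x hx y hy
    show D.res ((x + y) * D.π ^ (-n)) = _
    rw [add_mul, D.res_add _ _ (mem_ring5 D hx) (mem_ring5 D hy)]
  smul := by
    intro n c x hx
    show D.res ((c • x) * D.π ^ (-n)) = _
    rw [Algebra.smul_def, mul_assoc, D.res_mul _ _ ?_ (mem_ring5 D hx), D.res_alg,
      ← Algebra.smul_def]
    by_cases hc : c = 0
    · left
      rw [hc, map_zero]
    · right
      rw [D.alg c hc]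
  ker := by
    intro n x hx
    show D.res (x * D.π ^ (-n)) = 0 ↔ _
    rw [D.res_zero _ (mem_ring5 D hx), shift_iff5, mem_M5]
  mul_mem := by
    intro i j x hx y hy
    rw [mem_M5] at hx hy ⊢
    by_cases hx0 : x = 0
    · exact Or.inl (by rw [hx0, zero_mul])
    by_cases hy0 : y = 0
    · exact Or.inl (by rw [hy0, mul_zero])
    right
    have h1 := hx.resolve_left hx0
    have h2 := hy.resolve_left hy0
    rw [D.mul _ _ hx0 hy0]
    omega
  mul := by
    intro i j x hx y hy
    show D.res (x * y * D.π ^ (-(i + j))) = _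
    rw [← D.res_mul _ _ (mem_ring5 D hx) (mem_ring5 D hy)]
    congr 1
    rw [neg_add, zpow_add₀ D.π0]
    ring
  exh := fun x => ⟨D.v x, Or.inr le_rfl⟩
  sep := by
    intro x hx
    by_contra h0
    have := (hx (D.v x + 1)).resolve_left h0
    omega
  surj := by
    intro n c
    obtain ⟨x, hx, hxc⟩ := D.res_surj c
    refine ⟨x * D.π ^ n, ?_, ?_⟩
    · have := shift5 D (m := n) hx
      rwa [zero_add] at this
    · show D.res (x * D.π ^ n * D.π ^ (-n)) = c
      rw [mul_assoc, ← zpow_add₀ D.π0, add_neg_cancel, zpow_zero, mul_one, hxc]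

end lead5

/-- **BLOCK GR** -/
theorem bm_step (w : ℕ) {k K κ : Type u} [Field k] [Field K] [Field κ] [Algebra k K] [Algebra k κ] (D : DV k K κ)
    (Q' : Submodule k κ) [FiniteDimensional k Q']
    (hQ' : ∀ A B : Submodule k κ, FiniteDimensional k A → FiniteDimensional k B → BMAt w Q' A B) :
    ∃ Q : Submodule k K, FiniteDimensional k Q ∧
      ∀ A B : Submodule k K, FiniteDimensional k A → FiniteDimensional k B → BMAt (w + 1) Q A B := by
  have h1 : Helper41.SQ.BM (2 ^ w) k κ := ⟨Q', inferInstance, fun A B hA hB _ _ => hQ' A B hA hB⟩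
  obtain ⟨Q, hQ, h⟩ := Helper41.SQ.bm_step (lead5 D) (by positivity) h1
  refine ⟨Q, hQ, fun A B hA hB => ?_⟩
  unfold BMAt
  by_cases hA0 : A = ⊥
  · subst hA0
    rw [finrank_bot]
    simp
  by_cases hB0 : B = ⊥
  · subst hB0
    rw [finrank_bot]
    simp
  have h2 := h A B hA hB hA0 hB0
  rw [pow_succ']
  exact h2

end Pool.Agent.SQ
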