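import Mathlib

/-!
# SQ, block PLG: the discrete inequality of Prekopa and Leindler on the integers, for finitely many functions
-/

set_option autoImplicit false

namespace Pool.Agent.SQ

open MeasureTheory
open scoped Pointwise

private noncomputable def J27 (x t : ℝ) : ℝ := if t ≤ x then 1 else 0

private theorem J27_int (x : ℝ) : Integrable (J27 x) (volume.restrict (Set.Ioc (0 : ℝ) 1)) := by
  have h1 : J27 x = (Set.Iic x).indicator fun _ => (1 : ℝ) := by
    funext t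
    simp only [J27, Set.indicator_apply, Set.mem_Iic]
  rw [h1]
  exact (integrable_const (1 : ℝ)).indicator measurableSet_Iic

private theorem J27_eq {x : ℝ} (hx : 0 ≤ x) : ∫ t in Set.Ioc (0 : ℝ) 1, J27 x t = min x 1 := by
  have h1 : J27 x = (Set.Iic x).indicator fun _ => (1 : ℝ) := by
    funext t
    simp only [J27, Set.indicator_apply, Set.mem_Iic]
  rw [h1, integral_indicator measurableSet_Iic, Measure.restrict_restrict measurableSet_Iic]
  have h2 : Set.Iic x ∩ Set.Ioc (0 : ℝ) 1 = Set.Ioc 0 (min x 1) := by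
    ext t
    simp only [Set.mem_inter_iff, Set.mem_Iic, Set.mem_Ioc, le_min_iff]
    tauto
  rw [h2]
  have h3 : 0 ≤ min x 1 := le_min hx zero_le_one
  rw [integral_const, smul_eq_mul, mul_one, measureReal_restrict_apply_univ, Real.volume_real_Ioc_of_le h3, sub_zero]

private theorem card27 (s : Finset ℤ) (u : ℤ → ℝ) (t : ℝ) :
    ∑ i ∈ s, J27 (u i) t = ((s.filter fun i => t ≤ u i).card : ℝ) := by
  simp only [J27]
  rw [Finset.sum_boole]

private theorem sum27a {G : Type*} (A : G → Finset ℤ) (hA : ∀ g, (A g).Nonempty) (s : Finset G) :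
    (∑ g ∈ s, A g).Nonempty ∧ ∑ g ∈ s, (A g).card + 1 ≤ (∑ g ∈ s, A g).card + s.card := by
  classical
  induction s using Finset.induction_on with
  | empty => simp
  | insert g s hg ih =>
    rw [Finset.sum_insert hg, Finset.sum_insert hg, Finset.card_insert_of_notMem hg]
    refine ⟨(hA g).add ih.1, ?_⟩
    have h1 := cauchy_davenport_add_of_linearOrder_isCancelAdd (hA g) ih.1
    have h2 := (hA g).card_pos
    have h3 := ih.1.card_pos
    omega

private theorem mem27 {G : Type*} (A : G → Finset ℤ) (s : Finset G) (y : ℤ) (hy : y ∈ ∑ g ∈ s, A g) :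
    ∃ i : G → ℤ, (∀ g ∈ s, i g ∈ A g) ∧ ∑ g ∈ s, i g = y := by
  classical
  induction s using Finset.induction_on generalizing y with
  | empty =>
    rw [Finset.sum_empty, Finset.mem_zero] at hy
    exact ⟨fun _ => 0, by simp, by simp [hy]⟩
  | insert g s hg ih =>
    rw [Finset.sum_insert hg] at hy
    obtain ⟨a, ha, b, hb, rfl⟩ := Finset.mem_add.1 hy
    obtain ⟨i, hi, rfl⟩ := ih b hb
    refine ⟨Function.update i g a, ?_, ?_⟩
    · intro g' hg'
      rcases Finset.mem_insert.1 hg' with rfl | h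
      · rwa [Function.update_self]
      · rw [Function.update_of_ne (by rintro rfl; exact hg h)]
        exact hi g' h
    · rw [Finset.sum_insert hg, Function.update_self]
      congr 1
      exact Finset.sum_congr rfl fun g' h => Function.update_of_ne (by rintro rfl; exact hg h) _ _

private theorem sums27 {G : Type*} [Fintype G] [Nonempty G] {A : G → Finset ℤ} {C : Finset ℤ} (hA : ∀ g, (A g).Nonempty)
    (h : ∀ i : G → ℤ, (∀ g, i g ∈ A g) → ∀ e : ℕ, e < Fintype.card G → ∑ g, i g + e ∈ C) :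
    ∑ g, (A g).card ≤ C.card := by
  classical
  obtain ⟨h1, h2⟩ := sum27a A hA Finset.univ
  have hr : 0 < Fintype.card G := Fintype.card_pos
  have h3 := cauchy_davenport_add_of_linearOrder_isCancelAdd h1
    (show ((Finset.range (Fintype.card G)).image fun n : ℕ => (n : ℤ)).Nonempty from
      ⟨0, Finset.mem_image.2 ⟨0, Finset.mem_range.2 hr, rfl⟩⟩)
  have h4 : (∑ g, A g) + ((Finset.range (Fintype.card G)).image fun n : ℕ => (n : ℤ)) ⊆ C := by
    intro x hx
    obtain ⟨y, hy, z, hz, rfl⟩ := Finset.mem_add.1 hx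
    obtain ⟨e, he, rfl⟩ := Finset.mem_image.1 hz
    obtain ⟨i, hi, rfl⟩ : ∃ i : G → ℤ, (∀ g, i g ∈ A g) ∧ ∑ g, i g = y := by
      obtain ⟨i, hi, hy⟩ := mem27 A Finset.univ y hy
      exact ⟨i, fun g => hi g (Finset.mem_univ g), hy⟩
    exact h i hi e (Finset.mem_range.1 he)
  have h5 := Finset.card_le_card h4
  have h6 : ((Finset.range (Fintype.card G)).image fun n : ℕ => (n : ℤ)).card = Fintype.card G := by
    rw [Finset.card_image_of_injective _ Nat.cast_injective, Finset.card_range]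
  rw [h6] at h3
  have h7 := h1.card_pos
  rw [Finset.card_univ] at h2
  omega

theorem prekopaG {G : Type*} [Fintype G] [Nonempty G] (f : G → ℤ → ℝ) (h : ℤ → ℝ) (hf : ∀ g i, 0 ≤ f g i)
    (hh : ∀ i, 0 ≤ h i) (Ff : ∀ g, (f g).support.Finite) (Fh : h.support.Finite)
    (H : ∀ (i : G → ℤ) (e : ℕ), e < Fintype.card G →
      (∏ g, f g (i g)) ^ (1 / (Fintype.card G : ℝ)) ≤ h (∑ g, i g + e)) :
    Fintype.card G * (∏ g, ∑ᶠ i, f g i) ^ (1 / (Fintype.card G : ℝ)) ≤ ∑ᶠ i, h i := by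
  classical
  obtain ⟨r, hr⟩ : ∃ r, r = Fintype.card G := ⟨_, rfl⟩
  have r0 : 0 < r := by rw [hr]; exact Fintype.card_pos
  have r0' : (0 : ℝ) < r := by exact_mod_cast r0
  have rinv : (1 / (r : ℝ)) ≠ 0 := one_div_ne_zero r0'.ne'
  rw [← hr] at H ⊢
  obtain ⟨A, hA⟩ : ∃ A : G → Finset ℤ, ∀ g, A g = (Ff g).toFinset := ⟨_, fun _ => rfl⟩
  obtain ⟨C, hC⟩ : ∃ C, C = Fh.toFinset := ⟨_, rfl⟩
  have eA : ∀ g, ∑ᶠ i, f g i = ∑ i ∈ A g, f g i := fun g => by rw [hA g, finsum_eq_sum (f g) (Ff g)]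
  have eA' : ∏ g, ∑ᶠ i, f g i = ∏ g, ∑ i ∈ A g, f g i := Finset.prod_congr rfl fun g _ => eA g
  rw [eA', finsum_eq_sum h Fh, ← hC]
  have h0 : 0 ≤ ∑ i ∈ C, h i := Finset.sum_nonneg fun i _ => hh i
  by_cases hAn : ∀ g, (A g).Nonempty
  swap
  · push Not at hAn
    obtain ⟨g, hg⟩ := hAn
    have e1 : ∏ g, ∑ i ∈ A g, f g i = 0 := by
      apply Finset.prod_eq_zero (Finset.mem_univ g)
      rw [hg, Finset.sum_empty]
    rw [e1, Real.zero_rpow rinv, mul_zero]
    exact h0
  have hmx : ∀ g, ∃ i0 ∈ A g, ∀ i ∈ A g, f g i ≤ f g i0 := fun g => (A g).exists_max_image (f g) (hAn g)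
  choose i0 hi0 hmax using hmx
  obtain ⟨a, ha⟩ : ∃ a : G → ℝ, ∀ g, a g = f g (i0 g) := ⟨_, fun _ => rfl⟩
  have memA : ∀ g i, i ∈ A g ↔ f g i ≠ 0 := fun g i => by rw [hA, Set.Finite.mem_toFinset, Function.mem_support]
  have memC : ∀ i, i ∈ C ↔ h i ≠ 0 := fun i => by rw [hC, Set.Finite.mem_toFinset, Function.mem_support]
  have a0 : ∀ g, 0 < a g := fun g => by
    rw [ha]
    exact lt_of_le_of_ne (hf _ _) (Ne.symm ((memA _ _).1 (hi0 g)))
  obtain ⟨c, hc⟩ : ∃ c, c = (∏ g, a g) ^ (1 / (r : ℝ)) := ⟨_, rfl⟩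
  have P0 : 0 < ∏ g, a g := Finset.prod_pos fun g _ => a0 g
  have c0 : 0 < c := by
    rw [hc]
    exact Real.rpow_pos_of_pos P0 _
  have key : ∀ t ∈ Set.Ioc (0 : ℝ) 1, ∑ g, ∑ i ∈ A g, J27 (f g i / a g) t ≤ ∑ i ∈ C, J27 (h i / c) t := by
    intro t ht
    rw [card27 C (fun i => h i / c)]
    have e0 : ∑ g, ∑ i ∈ A g, J27 (f g i / a g) t = ∑ g, (((A g).filter fun i => t ≤ f g i / a g).card : ℝ) :=
      Finset.sum_congr rfl fun g _ => card27 (A g) (fun i => f g i / a g) t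
    rw [e0]
    have h1 := sums27 (A := fun g => (A g).filter fun i => t ≤ f g i / a g) (C := C.filter fun i => t ≤ h i / c)
      (fun g => ⟨i0 g, by
        rw [Finset.mem_filter, ← ha, div_self (a0 g).ne']
        exact ⟨hi0 g, ht.2⟩⟩) (by
      intro i hi e he
      rw [← hr] at he
      have e1 : ∀ g, t * a g ≤ f g (i g) := fun g => (le_div_iff₀ (a0 g)).1 (Finset.mem_filter.1 (hi g)).2
      have e3 : t * c ≤ (∏ g, f g (i g)) ^ (1 / (r : ℝ)) := by
        have e4 : t * c = (∏ g, (t * a g)) ^ (1 / (r : ℝ)) := by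
          rw [Finset.prod_mul_distrib, Finset.prod_const, Finset.card_univ, ← hr,
            Real.mul_rpow (pow_nonneg ht.1.le _) P0.le, ← hc, one_div, Real.pow_rpow_inv_natCast ht.1.le r0.ne']
        rw [e4]
        apply Real.rpow_le_rpow (Finset.prod_nonneg fun g _ => (mul_pos ht.1 (a0 g)).le) _ (one_div_pos.2 r0').le
        exact Finset.prod_le_prod (fun g _ => (mul_pos ht.1 (a0 g)).le) fun g _ => e1 g
      have e4 : 0 < t * c := mul_pos ht.1 c0
      rw [Finset.mem_filter]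
      have e5 := e3.trans (H i e he)
      exact ⟨(memC _).2 (lt_of_lt_of_le e4 e5).ne', (le_div_iff₀ c0).2 e5⟩)
    exact_mod_cast h1
  have hint : ∀ (s : Finset ℤ) (u : ℤ → ℝ),
      Integrable (fun t => ∑ i ∈ s, J27 (u i) t) (volume.restrict (Set.Ioc (0 : ℝ) 1)) :=
    fun s u => integrable_finsetSum _ fun i _ => J27_int (u i)
  have hval : ∀ (s : Finset ℤ) (u : ℤ → ℝ), (∀ i, 0 ≤ u i) →
      ∫ t in Set.Ioc (0 : ℝ) 1, ∑ i ∈ s, J27 (u i) t = ∑ i ∈ s, min (u i) 1 := by
    intro s u hu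
    rw [integral_finsetSum _ fun i _ => J27_int (u i)]
    exact Finset.sum_congr rfl fun i _ => J27_eq (hu i)
  have hm := setIntegral_mono_on (integrable_finsetSum Finset.univ fun g _ => hint (A g) fun i => f g i / a g)
    (hint C fun i => h i / c) measurableSet_Ioc key
  have hm2 : ∑ g, ∑ i ∈ A g, min (f g i / a g) 1 ≤ ∑ i ∈ C, min (h i / c) 1 := by
    rw [← hval C (fun i => h i / c) fun i => div_nonneg (hh i) c0.le]
    rw [integral_finsetSum _ fun g _ => hint (A g) fun i => f g i / a g] at hm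
    refine le_of_eq_of_le ?_ hm
    exact Finset.sum_congr rfl fun g _ => (hval (A g) (fun i => f g i / a g) fun i => div_nonneg (hf g i) (a0 g).le).symm
  have s1 : ∀ g, ∑ i ∈ A g, min (f g i / a g) 1 = (∑ i ∈ A g, f g i) / a g := by
    intro g
    rw [Finset.sum_div]
    exact Finset.sum_congr rfl fun i hi => min_eq_left ((div_le_one (a0 g)).2 (by rw [ha]; exact hmax g i hi))
  have s3 : ∑ i ∈ C, min (h i / c) 1 ≤ (∑ i ∈ C, h i) / c := by
    rw [Finset.sum_div]
    exact Finset.sum_le_sum fun i _ => min_le_left _ _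
  rw [Finset.sum_congr rfl fun g _ => s1 g] at hm2
  have hm3 := hm2.trans s3
  obtain ⟨X, hX⟩ : ∃ X : G → ℝ, ∀ g, X g = ∑ i ∈ A g, f g i := ⟨_, fun _ => rfl⟩
  have X0 : ∀ g, 0 ≤ X g := fun g => by rw [hX]; exact Finset.sum_nonneg fun i _ => hf g i
  have am : r * (∏ g, X g) ^ (1 / (r : ℝ)) / c ≤ ∑ g, X g / a g := by
    have e1 : (∏ g, X g) ^ (1 / (r : ℝ)) / c = ∏ g, (X g / a g) ^ (1 / (r : ℝ)) := by
      rw [hc, ← Real.div_rpow (Finset.prod_nonneg fun g _ => X0 g) P0.le, ← Finset.prod_div_distrib,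
        Real.finsetProd_rpow _ _ fun g _ => div_nonneg (X0 g) (a0 g).le]
    have e2 := Real.geom_mean_le_arith_mean_weighted (Finset.univ : Finset G) (fun _ => 1 / (r : ℝ))
      (fun g => X g / a g) (fun _ _ => (one_div_pos.2 r0').le)
      (by rw [Finset.sum_const, Finset.card_univ, ← hr, nsmul_eq_mul, mul_one_div_cancel r0'.ne'])
      (fun g _ => div_nonneg (X0 g) (a0 g).le)
    rw [mul_div_assoc, e1]
    rw [← Finset.mul_sum] at e2
    calc (r : ℝ) * ∏ g, (X g / a g) ^ (1 / (r : ℝ)) ≤ r * (1 / (r : ℝ) * ∑ g, X g / a g) :=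
          mul_le_mul_of_nonneg_left e2 r0'.le
      _ = ∑ g, X g / a g := by rw [← mul_assoc, mul_one_div_cancel r0'.ne', one_mul]
  have hm4 : ∑ g, X g / a g ≤ (∑ i ∈ C, h i) / c := by
    refine le_of_eq_of_le ?_ hm3
    exact Finset.sum_congr rfl fun g _ => by rw [hX]
  have fin := am.trans hm4
  have fin2 := (div_le_div_iff_of_pos_right c0).1 fin
  refine le_of_eq_of_le ?_ fin2
  rw [Finset.prod_congr rfl fun g _ => (hX g).symm]

end Pool.Agent.SQ
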