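import Pool.Agent.Helper42.SQ.GR
import Pool.Agent.Helper42.SQ.PLG

/-!
# SQ, block GRG: the Brunn-Minkowski step for several subspaces
-/

set_option autoImplicit false

namespace Pool.Agent.SQ

open Module

/-- The inequality of Brunn and Minkowski for several subspaces. -/
def BMAtG (w : ℕ) {k K : Type*} [Field k] [Field K] [Algebra k K] (G : Type*) [Fintype G]
    (Q : Submodule k K) (A : G → Submodule k K) : Prop :=
  (Fintype.card G : ℝ) ^ w * (∏ g, (finrank k (A g) : ℝ)) ^ (1 / (Fintype.card G : ℝ)) ≤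
    finrank k ((∏ g, A g) * Q : Submodule k K)

section

variable {k K κ : Type*} [Field k] [Field K] [Field κ] [Algebra k K] [Algebra k κ]

/-- the graded pieces of a finite dimensional space -/
theorem finsum_gr5 (D : Helper41.SQ.Lead k K κ) (A : Submodule k K) [FiniteDimensional k A] :
    (Function.support fun i : ℤ => (finrank k (D.gr i A) : ℝ)).Finite ∧
      ∑ᶠ i : ℤ, (finrank k (D.gr i A) : ℝ) = finrank k A := by
  obtain ⟨n0, h⟩ := D.sum_gr A
  have h0 : ∀ i : ℤ, i ∉ Finset.Ico (-(n0 : ℤ)) n0 → finrank k (D.gr i A) = 0 := by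
    intro i hi
    have h1 := h n0 le_rfl
    have h2 := h (max n0 (i.natAbs + 1)) (le_max_left _ _)
    obtain ⟨m, hm⟩ : ∃ m, m = max n0 (i.natAbs + 1) := ⟨_, rfl⟩
    rw [← hm] at h2
    have hm1 : n0 ≤ m := by omega
    have hm2 : i.natAbs + 1 ≤ m := by omega
    have hsub : Finset.Ico (-(n0 : ℤ)) n0 ⊆ Finset.Ico (-(m : ℤ)) m := by
      intro x hx
      rw [Finset.mem_Ico] at hx ⊢
      omega
    have h3 := Finset.sum_sdiff hsub (f := fun i => finrank k (D.gr i A))
    have h4 : ∑ i ∈ Finset.Ico (-(m : ℤ)) m \ Finset.Ico (-(n0 : ℤ)) n0,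
        finrank k (D.gr i A) = 0 := by omega
    have h5 := Finset.sum_eq_zero_iff.1 h4
    apply h5
    rw [Finset.mem_sdiff]
    refine ⟨?_, hi⟩
    rw [Finset.mem_Ico]
    omega
  have hs : (Function.support fun i : ℤ => (finrank k (D.gr i A) : ℝ)) ⊆
      (Finset.Ico (-(n0 : ℤ)) n0 : Finset ℤ) := by
    intro i hi
    by_contra h1
    exact hi (by
      show (finrank k (D.gr i A) : ℝ) = 0
      rw [h0 i h1, Nat.cast_zero])
  refine ⟨(Finset.finite_toSet _).subset hs, ?_⟩
  rw [finsum_eq_sum_of_support_subset _ hs, h n0 le_rfl]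
  push_cast
  rfl

theorem one_gr5 (D : DV k K κ) : (1 : Submodule k κ) ≤ (lead5 D).gr 0 1 := by
  rw [Submodule.one_le]
  refine (lead5 D).mem_gr.2 ⟨1, Submodule.one_le.1 le_rfl, ?_, ?_⟩
  · show (1 : K) = 0 ∨ (0 : ℤ) ≤ D.v 1
    right
    have h := D.mul 1 1 one_ne_zero one_ne_zero
    rw [mul_one] at h
    omega
  · show D.res (1 * D.π ^ (-(0 : ℤ))) = 1
    rw [neg_zero, zpow_zero, mul_one]
    have h := D.res_alg 1
    rwa [map_one, map_one] at h

theorem prod_gr5 (D : DV k K κ) {G : Type*} (s : Finset G) (i : G → ℤ) (A : G → Submodule k K) :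
    ∏ g ∈ s, (lead5 D).gr (i g) (A g) ≤ (lead5 D).gr (∑ g ∈ s, i g) (∏ g ∈ s, A g) := by
  classical
  induction s using Finset.induction_on with
  | empty =>
    rw [Finset.prod_empty, Finset.prod_empty, Finset.sum_empty]
    exact one_gr5 D
  | insert a s ha ih =>
    rw [Finset.prod_insert ha, Finset.prod_insert ha, Finset.sum_insert ha]
    exact (mul_le_mul_right ih _).trans ((lead5 D).gr_mul _ _ _ _)

theorem bm_stepG (w : ℕ) {G : Type*} [Fintype G] [Nonempty G] (D : DV k K κ)
    (Q' : Submodule k κ) [FiniteDimensional k Q']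
    (hQ' : ∀ A : G → Submodule k κ, (∀ g, FiniteDimensional k (A g)) → BMAtG w G Q' A) :
    ∃ Q : Submodule k K, FiniteDimensional k Q ∧
      ∀ A : G → Submodule k K, (∀ g, FiniteDimensional k (A g)) → BMAtG (w + 1) G Q A := by
  classical
  obtain ⟨s, hs⟩ := (Submodule.fg_iff_finiteDimensional Q').2 inferInstance
  choose x hx hx' using fun (e : ℕ) (a : κ) => (lead5 D).surj (e : ℤ) a
  obtain ⟨Q, hQ⟩ : ∃ Q : Submodule k K, Q = Submodule.span k
      (((Finset.range (Fintype.card G)).biUnion fun e => s.image (x e) : Finset K) : Set K) :=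
    ⟨_, rfl⟩
  have hQfd : FiniteDimensional k Q := by
    rw [hQ]
    exact FiniteDimensional.span_finset k _
  have hQe : ∀ e : ℕ, e < Fintype.card G → Q' ≤ (lead5 D).gr (e : ℤ) Q := by
    intro e he
    rw [← hs, Submodule.span_le]
    intro a ha
    refine (lead5 D).mem_gr.2 ⟨x e a, ?_, hx e a, hx' e a⟩
    rw [hQ]
    apply Submodule.subset_span
    rw [Finset.mem_coe, Finset.mem_biUnion]
    exact ⟨e, Finset.mem_range.2 he, Finset.mem_image_of_mem _ ha⟩
  refine ⟨Q, hQfd, fun A hA => ?_⟩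
  have hr : (0 : ℝ) < (Fintype.card G : ℝ) ^ w := by
    have : 0 < Fintype.card G := Fintype.card_pos
    positivity
  have hfg : ∀ t : Finset G, (∏ g ∈ t, A g).FG := by
    intro t
    induction t using Finset.induction_on with
    | empty =>
      rw [Finset.prod_empty]
      rw [Submodule.one_eq_span]
      exact Submodule.fg_span_singleton _
    | insert a t ha ih =>
      rw [Finset.prod_insert ha]
      exact ((Submodule.fg_iff_finiteDimensional _).2 (hA a)).mul ih
  have hABQ : FiniteDimensional k ((∏ g, A g) * Q : Submodule k K) :=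
    (Submodule.fg_iff_finiteDimensional _).1
      ((hfg _).mul ((Submodule.fg_iff_finiteDimensional _).2 hQfd))
  obtain ⟨f1, f2⟩ := finsum_gr5 (lead5 D) ((∏ g, A g) * Q)
  have key := prekopaG (fun g i => (finrank k ((lead5 D).gr i (A g)) : ℝ))
    (fun i => (finrank k ((lead5 D).gr i ((∏ g, A g) * Q)) : ℝ) / (Fintype.card G : ℝ) ^ w)
    (fun g i => Nat.cast_nonneg _) (fun i => by positivity)
    (fun g => by
      have := hA g
      exact (finsum_gr5 (lead5 D) (A g)).1)
    (f1.subset fun i hi h0 => hi (by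
      have h1 : (finrank k ((lead5 D).gr i ((∏ g, A g) * Q)) : ℝ) = 0 := h0
      show (finrank k ((lead5 D).gr i ((∏ g, A g) * Q)) : ℝ) / (Fintype.card G : ℝ) ^ w = 0
      rw [h1, zero_div]))
    (fun i e he => by
      rw [le_div_iff₀ hr, mul_comm]
      have hfA : ∀ g, FiniteDimensional k ((lead5 D).gr (i g) (A g)) := fun g => by
        have := hA g
        exact (lead5 D).finite_gr _ _
      have hfC := (lead5 D).finite_gr (∑ g, i g + e) ((∏ g, A g) * Q)
      refine (hQ' (fun g => (lead5 D).gr (i g) (A g)) hfA).trans ?_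
      have hle : (∏ g, (lead5 D).gr (i g) (A g)) * Q' ≤
          (lead5 D).gr (∑ g, i g + e) ((∏ g, A g) * Q) :=
        (mul_le_mul' (prod_gr5 D Finset.univ i A) (hQe e he)).trans ((lead5 D).gr_mul _ _ _ _)
      exact_mod_cast Submodule.finrank_mono hle)
  have e1 : ∀ g, ∑ᶠ i : ℤ, (finrank k ((lead5 D).gr i (A g)) : ℝ) = finrank k (A g) := fun g => by
    have := hA g
    exact (finsum_gr5 (lead5 D) (A g)).2
  have e2 : ∑ᶠ i : ℤ, (finrank k ((lead5 D).gr i ((∏ g, A g) * Q)) : ℝ) / (Fintype.card G : ℝ) ^ w =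
      (finrank k ((∏ g, A g) * Q : Submodule k K) : ℝ) / (Fintype.card G : ℝ) ^ w := by
    rw [← f2, div_eq_mul_inv, finsum_mul]
    simp only [div_eq_mul_inv]
  rw [e2, Finset.prod_congr rfl fun g _ => e1 g, le_div_iff₀ hr] at key
  unfold BMAtG
  rw [pow_succ]
  linarith

end

end Pool.Agent.SQ
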