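import Pool.Agent.Helper42.SQ.GDefs

/-!
# SQ: statements of the arithmetic and combinatorial blocks (do not import; copy your statement into
`Pool/Agent/Helper42/SQ/<BLOCK>.lean`)
-/

set_option autoImplicit false

namespace Pool.Agent.SQ

open NumberField Filter Module
open Pool.Agent.Helper64.Vojta (Pl nv)
open Pool.Agent.V2
open Pool.Agent.Chart (fld dg crd val hgt lam)

universe u

/-! ### FB (algebra; uses `absN` of Stmt.lean) -/

theorem thmB {k K : Type u} [Field k] [CharZero k] [Field K] [Algebra k K] (τ : K ≃ₐ[k] K) (hτ : ∀ x, τ (τ x) = x)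
    {P : Type*} [Fintype P] (ω : P → K → ℝ)
    (hω : ∀ v, RV k (ω v)) (c d : P → ℝ) (V : Submodule k K) [FiniteDimensional k V]
    (ha : ∀ v, ∀ x ∈ V, x ≠ 0 → 0 ≤ ω v x + c v) (hb : ∀ v, ∀ x ∈ V, x ≠ 0 → 0 ≤ ω v (τ x) + d v)
    (hS : ∀ (m : ℕ) (s : k), (s = 1 ∨ s = -1) → ∀ E ≤ (V * V.map τ.toLinearMap) ^ m, (∀ z ∈ E, τ z = s • z) →
      ∀ (n : P → ℕ) (z : ∀ v, Fin (n v) → K), (∀ v, LinearIndependent k (z v)) → (∀ v i, z v i ∈ E) →
        ∑ v, ∑ i, (ω v (z v i) + m * (c v + d v)) ≤ m * finrank k E)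
    (h1 : ∀ v, ∃ x ∈ V, x ≠ 0 ∧ ω v x + c v = 0) (h2 : ∀ v, ∃ x ∈ V, x ≠ 0 ∧ ω v (τ x) + d v = 0)
    (hpf : ∀ x ∈ V, x ≠ 0 → ∑ v, ((ω v x + c v) + (ω v (τ x) + d v)) ≤ 1)
    {q p : ℕ} (L : Fin q → V) (hL : ∀ i, L i ≠ 0) (hC : Comb k L p) :
    ∑ v, ∑ i, ((ω v (L i) + c v) + (ω v (τ (L i)) + d v)) ≤ 2 * (finrank k V + p) := sorry

/-! ### LK (Lemma K; in progress: helper67, helper81) -/

open Classical in
theorem lemmaK {N : ℕ} (κ : Fin N → ℕ) (s p : ℕ) (h1 : ∀ i, 1 ≤ κ i) (hs : ∀ i, κ i ≤ s) (hK : ∑ i, κ i ≤ p * (s + 1))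
    (w : Finset (Fin N) → ℝ) (hw : ∀ X, 0 ≤ w X) (hp : ∀ X, p < X.card → w X = 0)
    (hh : ∀ Z : Finset (Fin N), ∑ i ∈ Z, κ i ≤ s → ∑ X with ¬ Disjoint X Z, w X ≤ 1) :
    ∑ X, w X * X.card ≤ 2 * p := sorry

/-! ### LIN -/

theorem comb_of_not_bad {k : Type*} [Field k] {n q : ℕ} (l : Fin q → Fin (n + 1) → k) (hl : GenPos l)
    (N : Submodule k (Fin (n + 1) → k)) (hN : ∀ i, l i ∉ N) (hb : ¬ Bad l N) :
    Comb k (fun i => N.mkQ (l i)) (finrank k N) := sorry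

/-- invariance -/
theorem Comb.map {k : Type*} [Field k] {Q Q' : Type*} [AddCommGroup Q] [Module k Q] [AddCommGroup Q'] [Module k Q']
    (e : Q ≃ₗ[k] Q') {q p : ℕ} {L : Fin q → Q} (h : Comb k L p) : Comb k (fun i => e (L i)) p := sorry

/-! ### PHI -/

theorem phi (n q : ℕ) : ∃ Φ : MvPolynomial (Fin q × Fin (n + 1)) ℚ, Φ ≠ 0 ∧ ∀ (k : Type u) [Field k] [Algebra ℚ k]
    (l : Fin q → Fin (n + 1) → k), MvPolynomial.aeval (fun p : Fin q × Fin (n + 1) => l p.1 p.2) Φ ≠ 0 →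
      GenPos l ∧ ∀ N : Submodule k (Fin (n + 1) → k), ¬ Bad l N := sorry

/-! ### HT -/

section

variable {k : Type u} [Field k] [NumberField k]

section

variable {L : Type u} [Field L] [Algebra k L] {σ : L ≃ₐ[k] L} {N : Pl k → L → ℝ} (h : QS σ N)

include h

theorem ht_finS (x : L) : FinS fun v => Real.log (max 1 (N v x)) + Real.log (max 1 (N v (σ x))) := sorry

theorem ht_nonneg (x : L) : 0 ≤ ht σ N x := sorry

theorem ht_mul (x y : L) : ht σ N (x * y) ≤ ht σ N x + ht σ N y := sorry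

theorem ht_inv (x : L) (hx : x ≠ 0) : ht σ N x⁻¹ = ht σ N x := sorry

theorem ht_neg (x : L) : ht σ N (-x) = ht σ N x := sorry

theorem ht_σ (x : L) : ht σ N (σ x) = ht σ N x := sorry

theorem abs_log_le (v : Pl k) (x : L) (hx : x ≠ 0) : |Real.log (N v x)| ≤ ht σ N x := sorry

end

variable (k) in
theorem ht_add : ∃ C : ℝ, ∀ (L : Type u) [Field L] [Algebra k L] (σ : L ≃ₐ[k] L) (N : Pl k → L → ℝ), QS σ N →
    ∀ x y : L, ht σ N (x + y) ≤ ht σ N x + ht σ N y + C := sorry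

theorem ht_alg (c : k) : ∃ C : ℝ, ∀ (L : Type u) [Field L] [Algebra k L] (σ : L ≃ₐ[k] L) (N : Pl k → L → ℝ), QS σ N →
    ht σ N (algebraMap k L c) ≤ C := sorry

/-- the height of the coordinates -/
theorem ht_crd {L : Type u} [Field L] [Algebra k L] {σ : L ≃ₐ[k] L} {N : Pl k → L → ℝ} (h : QS σ N) {d : ℕ}
    (x : Fin (d + 1) → L) (hx : ∃ j, x j = 1) (j : Fin (d + 1)) :
    ht σ N (x j) ≤ gsum fun v => Real.log (mxn (N v) x) + Real.log (mxn (N v) fun i => σ (x i)) := sorry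

/-- Local inequality: a linear form is at most the norm, up to a constant which is one at almost all places. -/
theorem lv_le {d : ℕ} (m : Fin (d + 1) → k) : ∃ C : Pl k → ℝ, FinS C ∧ (∀ v, 0 ≤ C v) ∧ ∀ (L : Type u) [Field L] [Algebra k L]
    (σ : L ≃ₐ[k] L) (N : Pl k → L → ℝ), QS σ N → ∀ (x : Fin (d + 1) → L) (v : Pl k), lv m x ≠ 0 →
      Real.log (N v (lv m x)) ≤ Real.log (mxn (N v) x) + C v := sorry

/-- Liouville's inequality -/
theorem liouville {d : ℕ} (m : Fin (d + 1) → k) (P : Finset (Pl k)) : ∃ C : ℝ, ∀ (L : Type u) [Field L] [Algebra k L]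
    (σ : L ≃ₐ[k] L) (N : Pl k → L → ℝ), QS σ N → ∀ (x : Fin (d + 1) → L), (∃ j, x j = 1) → lv m x ≠ 0 →
      ∑ v ∈ P, ((Real.log (mxn (N v) x) - Real.log (N v (lv m x))) +
        (Real.log (mxn (N v) fun i => σ (x i)) - Real.log (N v (σ (lv m x))))) ≤
      (gsum fun v => Real.log (mxn (N v) x) + Real.log (mxn (N v) fun i => σ (x i))) + C := sorry

/-! ### GER -/

theorem ger (D : Sq k) : Nonempty (GF D) := sorry

/-! ### OM -/

variable {D : Sq k} (G : GF D)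

theorem om_tendsto (v : Pl k) (x : G.K) (hx : x ≠ 0) :
    Tendsto (fun n => -Real.log (D.N n v (G.rp x n)) / D.H n) (D.U : Filter ℕ) (nhds (om G v x)) := sorry

theorem om_RV (v : Pl k) : RV k (om G v) := sorry

section

variable {d : ℕ} (x : ∀ n, Fin (d + 1) → D.L n) (hx : Pt D x)

include hx

theorem cv_tendsto (v : Pl k) :
    Tendsto (fun n => Real.log (mxn (D.N n v) (x n)) / D.H n) (D.U : Filter ℕ) (nhds (cv D x v)) := sorry

theorem dv_tendsto (v : Pl k) :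
    Tendsto (fun n => Real.log (mxn (D.N n v) fun i => D.σ n (x n i)) / D.H n) (D.U : Filter ℕ) (nhds (dv D x v)) := sorry

theorem exists_xi : ∃ ξ : Fin (d + 1) → G.K, ∀ j, ∀ᶠ n in (D.U : Filter ℕ), G.rp (ξ j) n = x n j := sorry

variable (ξ : Fin (d + 1) → G.K) (hξ : ∀ j, ∀ᶠ n in (D.U : Filter ℕ), G.rp (ξ j) n = x n j)

include hξ

theorem rp_lv (m : Fin (d + 1) → k) : ∀ᶠ n in (D.U : Filter ℕ), G.rp (∑ j, m j • ξ j) n = lv m (x n) := sorry

theorem om_nonneg (v : Pl k) (z : G.K) (hz : z ∈ Submodule.span k (Set.range ξ)) (hz0 : z ≠ 0) :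
    0 ≤ om G v z + cv D x v := sorry

theorem om_nonneg' (v : Pl k) (z : G.K) (hz : z ∈ Submodule.span k (Set.range ξ)) (hz0 : z ≠ 0) :
    0 ≤ om G v (G.τ z) + dv D x v := sorry

theorem om_attained (v : Pl k) : ∃ z ∈ Submodule.span k (Set.range ξ), z ≠ 0 ∧ om G v z + cv D x v = 0 := sorry

theorem om_attained' (v : Pl k) : ∃ z ∈ Submodule.span k (Set.range ξ), z ≠ 0 ∧ om G v (G.τ z) + dv D x v = 0 := sorry

theorem om_prod (P : Finset (Pl k)) (z : G.K) (hz : z ∈ Submodule.span k (Set.range ξ)) (hz0 : z ≠ 0) :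
    ∑ v ∈ P, ((om G v z + cv D x v) + (om G v (G.τ z) + dv D x v)) ≤ 1 := sorry

/-! ### SUB -/

theorem sub (P : Finset (Pl k)) (m : ℕ) (s : k) (hs : s = 1 ∨ s = -1) (E : Submodule k G.K)
    (hE : E ≤ (Submodule.span k (Set.range ξ) * (Submodule.span k (Set.range ξ)).map G.τ.toLinearMap) ^ m)
    (hEs : ∀ z ∈ E, G.τ z = s • z) (n : P → ℕ) (z : ∀ v : P, Fin (n v) → G.K) (hz : ∀ v, LinearIndependent k (z v))
    (hzE : ∀ v i, z v i ∈ E) :
    ∑ v : P, ∑ i, (om G v (z v i) + m * (cv D x v + dv D x v)) ≤ m * finrank k E := sorry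

end

/-! ### GA -/

omit G in
theorem germs {d : ℕ} (x : ∀ n, Fin (d + 1) → D.L n) (hx : Pt D x) {q : ℕ} (l : Fin q → Fin (d + 1) → k)
    (hl : ∀ i, l i ∉ vanx D x) (hC : Comb k (fun i => (vanx D x).mkQ (l i)) (finrank k (vanx D x)))
    (P : Finset (Pl k)) {ε : ℝ} (hε : 0 < ε) :
    ∀ᶠ n in (D.U : Filter ℕ), ∑ v ∈ P, ∑ i, ((Real.log (mxn (D.N n v) (x n)) - Real.log (D.N n v (lv (l i) (x n)))) +
      (Real.log (mxn (D.N n v) fun j => D.σ n (x n j)) - Real.log (D.N n v (D.σ n (lv (l i) (x n)))))) ≤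
      (2 * (d + 1) + ε) * D.H n := sorry

end

/-! ### DATA2 -/

theorem data2 {k : Type u} [Field k] [NumberField k] {d : ℕ} (x : Fin (d + 1) → AlgebraicClosure k) (h1 : ∃ j, x j = 1)
    (hd : dg x ≤ 2) : ∃ (σ : fld x ≃ₐ[k] fld x) (N : Pl k → fld x → ℝ), QS σ N ∧
      2 * hgt x = (gsum fun v => Real.log (mxn (N v) (crd x)) + Real.log (mxn (N v) fun i => σ (crd x i))) ∧
      ∀ (v : Pl k) (m : Fin (d + 1) → k), val m x ≠ 0 → 2 * lam m v x =
        (Real.log (mxn (N v) (crd x)) - Real.log (N v (val m x))) +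
          (Real.log (mxn (N v) fun i => σ (crd x i)) - Real.log (N v (σ (val m x)))) := sorry

/-! ### FIN -/

theorem fin_main {k : Type u} [Field k] [NumberField k] {n q : ℕ} (l : Fin q → Fin (n + 1) → k) (hl : GenPos l)
    (S : Finset (Pl k)) {ε : ℝ} (hε : 0 < ε) :
    ∃ (A : Finset (Submodule k (Fin (n + 1) → k))) (C : ℝ), (∀ N ∈ A, Bad l N) ∧
      ∀ x : Fin (n + 1) → AlgebraicClosure k, (∃ j, x j = 1) → dg x ≤ 2 → (∀ i, val (l i) x ≠ 0) →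
        (∀ N ∈ A, ∃ m ∈ N, val m x ≠ 0) → ∑ ν ∈ S, ∑ i, lam (l i) ν x ≤ (2 * n + 2 + ε) * hgt x + C := sorry

/-! ### SHARP: the constant `2 n + 2` is best possible -/

/-- `P₁`, `P₂` : zeros of `l 0, …, l (n-1)` and of `l n, …, l (2n-1)`; `x = s P₁ + t P₂` with `u s t + l_{2n}(x) l_{2n+1}(x) = 0`, `u = p ^ m`,
`S` : the archimedean places and those above `p`. -/
theorem sharp {k : Type u} [Field k] [NumberField k] {n q : ℕ} (hn : 1 ≤ n) (hq : 2 * n + 2 ≤ q)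
    (l : Fin q → Fin (n + 1) → k) (hl : GenPos l) :
    ∃ (S : Finset (Pl k)) (C : ℝ), ∀ B : ℝ, ∃ x : Fin (n + 1) → AlgebraicClosure k, (∃ j, x j = 1) ∧ dg x ≤ 2 ∧
      (∀ i, val (l i) x ≠ 0) ∧ B ≤ hgt x ∧ (2 * n + 2) * hgt x - C ≤ ∑ ν ∈ S, ∑ i, lam (l i) ν x := sorry

end Pool.Agent.SQ
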