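import Pool.Agent.Helper42.SQ.GDefs2

/-!
# SQ, stage 2: statements of the arithmetic blocks (do not import; copy your statement)
-/

set_option autoImplicit false

namespace Pool.Agent.SQ

open NumberField Filter Module MvPolynomial
open Pool.Agent.Helper64.Vojta (Pl nv sn above)
open Pool.Agent.V2
open Pool.Agent.Chart (fld dg crd hgt)

universe u

/-! ### HTg -/

section

variable {k : Type u} [Field k] [NumberField k] {G : Type*} [Group G] [Fintype G]

section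

variable {L : Type u} [Field L] [Algebra k L] {s : G →* (L ≃ₐ[k] L)} {N : Pl k → L → ℝ} (h : QSG s N)

include h

theorem htg_finS (x : L) : FinS fun v => ∑ g, Real.log (max 1 (N v (s g x))) := sorry

theorem htg_nonneg (x : L) : 0 ≤ htg s N x := sorry

theorem htg_mul (x y : L) : htg s N (x * y) ≤ htg s N x + htg s N y := sorry

theorem htg_inv (x : L) (hx : x ≠ 0) : htg s N x⁻¹ = htg s N x := sorry

theorem htg_neg (x : L) : htg s N (-x) = htg s N x := sorry

theorem htg_s (g : G) (x : L) : htg s N (s g x) = htg s N x := sorry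

theorem abs_logg_le (v : Pl k) (x : L) (hx : x ≠ 0) : |Real.log (N v x)| ≤ htg s N x := sorry

theorem Hg_finS {ι : Type} [Fintype ι] (x : ι → L) (hx : ∃ j, x j = 1) :
    FinS fun v => ∑ g, Real.log (mxn (N v) fun j => s g (x j)) := sorry

/-- the height of the coordinates -/
theorem htg_crd {ι : Type} [Fintype ι] (x : ι → L) (hx : ∃ j, x j = 1) (j : ι) : htg s N (x j) ≤ Hg s N x := sorry

end

variable (k G) in
theorem htg_add : ∃ C : ℝ, ∀ (L : Type u) [Field L] [Algebra k L] (s : G →* (L ≃ₐ[k] L)) (N : Pl k → L → ℝ), QSG s N →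
    ∀ x y : L, htg s N (x + y) ≤ htg s N x + htg s N y + C := sorry

variable (G) in
theorem htg_alg (c : k) : ∃ C : ℝ, ∀ (L : Type u) [Field L] [Algebra k L] (s : G →* (L ≃ₐ[k] L)) (N : Pl k → L → ℝ), QSG s N →
    htg s N (algebraMap k L c) ≤ C := sorry

variable (G) in
/-- Local inequality: a form of degree `e` is at most the norm to the power `e`, up to a constant which is one at almost all
places. -/
theorem ev_le {N' e : ℕ} (f : MvPolynomial (Fin (N' + 1)) k) (hf : f.IsHomogeneous e) :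
    ∃ C : Pl k → ℝ, FinS C ∧ (∀ v, 0 ≤ C v) ∧ ∀ (L : Type u) [Field L] [Algebra k L]
    (s : G →* (L ≃ₐ[k] L)) (N : Pl k → L → ℝ), QSG s N → ∀ (x : Fin (N' + 1) → L) (v : Pl k), aeval x f ≠ 0 →
      Real.log (N v (aeval x f)) ≤ e * Real.log (mxn (N v) x) + C v := sorry

variable (G) in
/-- the same for linear forms in a family of coordinates -/
theorem lvg_le {ι : Type} [Fintype ι] (m : ι → k) :
    ∃ C : Pl k → ℝ, FinS C ∧ (∀ v, 0 ≤ C v) ∧ ∀ (L : Type u) [Field L] [Algebra k L]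
    (s : G →* (L ≃ₐ[k] L)) (N : Pl k → L → ℝ), QSG s N → ∀ (x : ι → L) (v : Pl k), lvg m x ≠ 0 →
      Real.log (N v (lvg m x)) ≤ Real.log (mxn (N v) x) + C v := sorry

variable (G) in
/-- Liouville's inequality -/
theorem liouville_g {N' e : ℕ} (f : MvPolynomial (Fin (N' + 1)) k) (hf : f.IsHomogeneous e) (P : Finset (Pl k)) :
    ∃ C : ℝ, ∀ (L : Type u) [Field L] [Algebra k L] (s : G →* (L ≃ₐ[k] L)) (N : Pl k → L → ℝ), QSG s N →
      ∀ (x : Fin (N' + 1) → L), (∃ j, x j = 1) → aeval x f ≠ 0 →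
      ∑ v ∈ P, ∑ g, (e * Real.log (mxn (N v) fun j => s g (x j)) - Real.log (N v (s g (aeval x f)))) ≤
      e * Hg s N x + C := sorry

variable (G) in
/-- Nullstellensatz: forms without common zero are not all small. -/
theorem nul {N' n d : ℕ} (I : Ideal (MvPolynomial (Fin (N' + 1)) k)) (hI : ∀ p ∈ I, ∀ m, homogeneousComponent m p ∈ I)
    (f : Fin (n + 1) → MvPolynomial (Fin (N' + 1)) k)
    (hf : ∀ i, (f i).IsHomogeneous d) (hfin : ∃ M, ∀ j, (X j) ^ M ∈ I ⊔ Ideal.span (Set.range f)) (v : Pl k) :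
    ∃ C : ℝ, ∀ (L : Type u) [Field L] [Algebra k L] (s : G →* (L ≃ₐ[k] L)) (N : Pl k → L → ℝ), QSG s N →
      ∀ (x : Fin (N' + 1) → L), (∃ j, x j = 1) → (∀ p ∈ I, aeval x p = 0) → (∀ i, aeval x (f i) ≠ 0) →
      ∃ i, d * Real.log (mxn (N v) x) - Real.log (N v (aeval x (f i))) ≤ C := sorry

/-- no common zero over the algebraic closure (Hilbert) -/
theorem nul_alg {N' n d : ℕ} (hd : 0 < d) (I : Ideal (MvPolynomial (Fin (N' + 1)) k))
    (hI : ∀ p ∈ I, ∀ m, homogeneousComponent m p ∈ I)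
    (f : Fin (n + 1) → MvPolynomial (Fin (N' + 1)) k)
    (hf : ∀ i, (f i).IsHomogeneous d) (h : ∀ x : Fin (N' + 1) → AlgebraicClosure k, (∀ p ∈ I, aeval x p = 0) →
      (∀ i, aeval x (f i) = 0) → x = 0) :
    ∃ M, ∀ j, (X j) ^ M ∈ I ⊔ Ideal.span (Set.range f) := sorry

end

/-! ### GERg, OMg -/

section

variable {k : Type u} [Field k] [NumberField k] {G : Type} [Group G] [Fintype G] {D : SqG k G}

variable (D) in
theorem ger_g : Nonempty (GFG D) := sorry

variable (F : GFG D)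

theorem omg_tendsto (v : Pl k) (x : F.K) (hx : x ≠ 0) :
    Tendsto (fun n => -Real.log (D.N n v (F.rp x n)) / D.H n) (D.U : Filter ℕ) (nhds (omg F v x)) := sorry

theorem omg_RV (v : Pl k) : RV k (omg F v) := sorry

section

variable {ι : Type} [Fintype ι] (x : ∀ n, ι → D.L n) (hx : Ptg D x)

include hx

theorem cg_tendsto (v : Pl k) (g : G) :
    Tendsto (fun n => Real.log (mxn (D.N n v) fun j => D.s n g (x n j)) / D.H n) (D.U : Filter ℕ) (nhds (cg D x v g)) := sorry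

theorem exists_xig : ∃ ξ : ι → F.K, ∀ j, ∀ᶠ n in (D.U : Filter ℕ), F.rp (ξ j) n = x n j := sorry

variable (ξ : ι → F.K) (hξ : ∀ j, ∀ᶠ n in (D.U : Filter ℕ), F.rp (ξ j) n = x n j)

include hξ

theorem rp_lvg (m : ι → k) : ∀ᶠ n in (D.U : Filter ℕ), F.rp (∑ j, m j • ξ j) n = lvg m (x n) := sorry

theorem omg_nonneg (v : Pl k) (g : G) (z : F.K) (hz : z ∈ Submodule.span k (Set.range ξ)) (hz0 : z ≠ 0) :
    0 ≤ omg F v (F.s g z) + cg D x v g := sorry

theorem omg_attained (v : Pl k) (g : G) :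
    ∃ z ∈ Submodule.span k (Set.range ξ), z ≠ 0 ∧ omg F v (F.s g z) + cg D x v g = 0 := sorry

theorem omg_prod (P : Finset (Pl k)) (z : F.K) (hz : z ∈ Submodule.span k (Set.range ξ)) (hz0 : z ≠ 0) :
    ∑ v ∈ P, ∑ g, (omg F v (F.s g z) + cg D x v g) ≤ 1 := sorry

/-! ### SUBg -/

/-- The subspace theorem for the invariants. -/
theorem sub_g (P : Finset (Pl k)) (m : ℕ) (E : Submodule k F.K)
    (hE : E ≤ (∏ g, (Submodule.span k (Set.range ξ)).map (F.s g).toLinearMap) ^ m)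
    (hEs : ∀ z ∈ E, ∀ g, F.s g z = z) (n : P → ℕ) (z : ∀ v : P, Fin (n v) → F.K) (hz : ∀ v, LinearIndependent k (z v))
    (hzE : ∀ v i, z v i ∈ E) :
    ∑ v : P, ∑ i, (omg F v (z v i) + m * ∑ g, cg D x v g) ≤ m * finrank k E := sorry

end

/-! ### GAg -/

/-- uses `thm_g` of Stmt2 -/
theorem germs_g {ι : Type} [Fintype ι] (x : ∀ n, ι → D.L n) (hx : Ptg D x) (P : Finset (Pl k)) (n : Pl k → G → ℕ)
    (e : ∀ v g, Fin (n v g) → ι → k)
    (he : ∀ v ∈ P, ∀ g, LinearIndependent k fun i => (vang D x).mkQ (e v g i)) {ε : ℝ} (hε : 0 < ε) :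
    ∀ᶠ a in (D.U : Filter ℕ), ∑ v ∈ P, ∑ g, ∑ i, (Real.log (mxn (D.N a v) fun j => D.s a g (x a j)) -
      Real.log (D.N a v (D.s a g (lvg (e v g i) (x a))))) ≤
      (Fintype.card G * finrank k ((ι → k) ⧸ vang D x) + ε) * D.H a := sorry

/-! ### VER -/

/-- `germs_g` for the monomials of degree `δ` -/
theorem ver {N δ : ℕ} (hδ : 0 < δ) (x : ∀ n, Fin (N + 1) → D.L n) (hx : Ptg D x) (P : Finset (Pl k)) (n : Pl k → G → ℕ)
    (e : ∀ v g, Fin (n v g) → MvPolynomial (Fin (N + 1)) k) (hh : ∀ v g i, (e v g i).IsHomogeneous δ)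
    (he : ∀ v ∈ P, ∀ g, LinearIndependent k fun i => Ideal.Quotient.mk (vanI D x) (e v g i)) {ε : ℝ} (hε : 0 < ε) :
    ∀ᶠ a in (D.U : Filter ℕ), ∑ v ∈ P, ∑ g, ∑ i, (δ * Real.log (mxn (D.N a v) fun j => D.s a g (x a j)) -
      Real.log (D.N a v (D.s a g (aeval (x a) (e v g i))))) ≤
      (Fintype.card G * hilb (vanI D x) δ * δ + ε) * D.H a := sorry

end

/-! ### DATAg -/

theorem data_g {k : Type u} [Field k] [NumberField k] {N : ℕ} (x : Fin (N + 1) → AlgebraicClosure k) (h1 : ∃ j, x j = 1) :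
    ∃ (y : Fin (N + 1) → gal x) (M : Pl k → gal x → ℝ) (_ : Fintype (gal x ≃ₐ[k] gal x)), (∀ j, (y j : AlgebraicClosure k) = x j) ∧
      QSG (MonoidHom.id (gal x ≃ₐ[k] gal x)) M ∧
      finrank k (gal x) * hgt x = Hg (MonoidHom.id (gal x ≃ₐ[k] gal x)) M y ∧
      ∀ (v : Pl k) (d : ℕ) (f : MvPolynomial (Fin (N + 1)) k), aeval (crd x) f ≠ 0 → finrank k (gal x) * lamP d f v x =
        ∑ g : gal x ≃ₐ[k] gal x, (d * Real.log (mxn (M v) fun j => g (y j)) - Real.log (M v (g (aeval y f)))) := sorry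

/-! ### FINX -/

/-- `X` of dimension `n` in `P^N`, `q` sections of degree `d`, any `n + 1` of them without common zero on `X`; points of `X` whose residue
field has a Galois closure of degree at most `r`. -/
theorem fin_x {k : Type u} [Field k] [NumberField k] {N n d q r : ℕ} (hd : 0 < d) (I : Ideal (MvPolynomial (Fin (N + 1)) k))
    [I.IsPrime] (hI : ∀ p ∈ I, ∀ m, homogeneousComponent m p ∈ I)
    (hdim : Algebra.trdeg k (MvPolynomial (Fin (N + 1)) k ⧸ I) = n + 1)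
    (f : Fin q → MvPolynomial (Fin (N + 1)) k) (hf : ∀ i, (f i).IsHomogeneous d)
    (hgp : ∀ J : Finset (Fin q), J.card = n + 1 → ∀ x : Fin (N + 1) → AlgebraicClosure k, (∀ p ∈ I, aeval x p = 0) →
      (∀ i ∈ J, aeval x (f i) = 0) → x = 0) (S : Finset (Pl k)) {ε : ℝ} (hε : 0 < ε) :
    ∃ (Q : MvPolynomial (Fin (N + 1)) k) (C : ℝ), Q ∉ I ∧ (∃ e, Q.IsHomogeneous e) ∧
      ∀ x : Fin (N + 1) → AlgebraicClosure k, (∃ j, x j = 1) → (∀ p ∈ I, aeval x p = 0) → finrank k (gal x) ≤ r →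
        (∀ i, aeval (crd x) (f i) ≠ 0) → aeval x Q ≠ 0 →
        ∑ ν ∈ S, ∑ i, lamP d (f i) ν x ≤ (r * (n + 1) * d + ε) * hgt x + C := sorry

end Pool.Agent.SQ
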