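import Pool.Agent.Helper42.SQ.GDefs
import Pool.Agent.Helper21.V2.AR1

/-!
# SQ, block HT: heights in an abstract quadratic field
-/

set_option autoImplicit false
set_option linter.unusedSectionVars false
set_option linter.unusedVariables false

namespace Pool.Agent.SQ

open NumberField Filter Module
open Pool.Agent.Helper64.Vojta (Pl nv)
open Pool.Agent.V2

universe u

section

variable {k : Type u} [Field k] [NumberField k]

section

variable {L : Type u} [Field L] [Algebra k L] {σ : L ≃ₐ[k] L} {N : Pl k → L → ℝ} (h : QS σ N)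

include h

private theorem N_one52 (v : Pl k) : N v 1 = 1 := by
  have h1 := h.ext v 1
  rwa [map_one, Pool.Agent.Helper64.Vojta.nv_one] at h1

private theorem N_nonneg52 (v : Pl k) (x : L) : 0 ≤ N v x := by
  by_cases hx : x = 0
  · rw [hx, h.zero v]
  · exact (h.pos v x hx).le

private theorem N_neg52 (v : Pl k) (x : L) : N v (-x) = N v x := by
  have h1 : N v (-1) * N v (-1) = 1 := by
    rw [← h.mul v, neg_one_mul, neg_neg, N_one52 h v]
  have h2 : N v (-1) = 1 := by
    have h3 := N_nonneg52 h v (-1)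
    nlinarith
  rw [← neg_one_mul, h.mul v, h2, one_mul]

private theorem N_inv52 (v : Pl k) (x : L) (hx : x ≠ 0) : N v x⁻¹ = (N v x)⁻¹ := by
  have h1 : N v x⁻¹ * N v x = 1 := by
    rw [← h.mul v, inv_mul_cancel₀ hx, N_one52 h v]
  exact eq_inv_of_mul_eq_one_left h1

private theorem finS_max52 (x : L) : FinS fun v => Real.log (max 1 (N v x)) := by
  by_cases hx : x = 0
  · have h1 : (fun v => Real.log (max 1 (N v x))) = fun _ => (0 : ℝ) := by
      funext v
      rw [hx, h.zero v, max_eq_left zero_le_one, Real.log_one]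
    rw [h1]
    exact FinS.zero
  · refine Set.Finite.subset (h.fin x hx) fun v hv => ?_
    rw [Function.mem_support] at hv ⊢
    intro h1
    apply hv
    have h2 : N (.inr v) x = 1 := by
      rcases Real.log_eq_zero.1 h1 with h3 | h3 | h3
      · exact absurd h3 (h.pos _ x hx).ne'
      · exact h3
      · have := h.pos (.inr v) x hx
        linarith
    show Real.log (max 1 (N (.inr v) x)) = 0
    rw [h2, max_self, Real.log_one]

theorem ht_finS (x : L) : FinS fun v => Real.log (max 1 (N v x)) + Real.log (max 1 (N v (σ x))) :=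
  (finS_max52 h x).add (finS_max52 h (σ x))

theorem ht_nonneg (x : L) : 0 ≤ ht σ N x :=
  gsum_nonneg fun v => add_nonneg (Real.log_nonneg (le_max_left _ _)) (Real.log_nonneg (le_max_left _ _))

private theorem log_max_mul52 (a b : ℝ) (ha : 0 ≤ a) (hb : 0 ≤ b) :
    Real.log (max 1 (a * b)) ≤ Real.log (max 1 a) + Real.log (max 1 b) := by
  have h1 : (0 : ℝ) < max 1 a := lt_max_of_lt_left one_pos
  have h2 : (0 : ℝ) < max 1 b := lt_max_of_lt_left one_pos
  rw [← Real.log_mul h1.ne' h2.ne']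
  refine Real.log_le_log (lt_max_of_lt_left one_pos) (max_le ?_ ?_)
  · nlinarith [le_max_left 1 a, le_max_left 1 b]
  · exact mul_le_mul (le_max_right _ _) (le_max_right _ _) hb h1.le

theorem ht_mul (x y : L) : ht σ N (x * y) ≤ ht σ N x + ht σ N y := by
  have h0 : ht σ N x + ht σ N y = gsum fun v => (Real.log (max 1 (N v x)) + Real.log (max 1 (N v (σ x)))) +
      (Real.log (max 1 (N v y)) + Real.log (max 1 (N v (σ y)))) := by
    rw [gsum_add (ht_finS h x) (ht_finS h y)]
    rfl
  rw [h0]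
  refine gsum_mono (ht_finS h (x * y)) ((ht_finS h x).add (ht_finS h y)) fun v => ?_
  have h1 := log_max_mul52 h (N v x) (N v y) (N_nonneg52 h v x) (N_nonneg52 h v y)
  have h2 := log_max_mul52 h (N v (σ x)) (N v (σ y)) (N_nonneg52 h v _) (N_nonneg52 h v _)
  rw [map_mul, h.mul, h.mul]
  linarith

private theorem log_max_inv52 (a : ℝ) (ha : 0 < a) :
    Real.log (max 1 a⁻¹) = Real.log (max 1 a) + - Real.log a := by
  rcases le_total 1 a with h1 | h1
  · rw [max_eq_left (inv_le_one_of_one_le₀ h1), max_eq_right h1, Real.log_one]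
    ring
  · rw [max_eq_right ((one_le_inv₀ ha).2 h1), max_eq_left h1, Real.log_one, Real.log_inv]
    ring

private theorem σ_ne52 (x : L) (hx : x ≠ 0) : σ x ≠ 0 := by
  simpa using hx

theorem ht_inv (x : L) (hx : x ≠ 0) : ht σ N x⁻¹ = ht σ N x := by
  have hσ : σ x ≠ 0 := σ_ne52 h x hx
  have h1 : (fun v => Real.log (max 1 (N v x⁻¹)) + Real.log (max 1 (N v (σ x⁻¹)))) = fun v =>
      (Real.log (max 1 (N v x)) + Real.log (max 1 (N v (σ x)))) + -(Real.log (N v x) + Real.log (N v (σ x))) := by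
    funext v
    rw [map_inv₀, N_inv52 h v x hx, N_inv52 h v _ hσ, log_max_inv52 h _ (h.pos v x hx),
      log_max_inv52 h _ (h.pos v _ hσ)]
    ring
  unfold ht
  rw [h1, gsum_add (ht_finS h x) ((h.fin x hx).add (h.fin _ hσ)).neg, gsum_neg, h.prod x hx, neg_zero, add_zero]

theorem ht_neg (x : L) : ht σ N (-x) = ht σ N x := by
  unfold ht
  congr 1
  funext v
  rw [map_neg, N_neg52 h, N_neg52 h]

theorem ht_σ (x : L) : ht σ N (σ x) = ht σ N x := by
  unfold ht
  congr 1
  funext v
  rw [h.inv, add_comm]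

private theorem log_le52 (v : Pl k) (x : L) (hx : x ≠ 0) : Real.log (N v x) ≤ ht σ N x := by
  have h1 := sum_le_gsum (ht_finS h x) (fun v => add_nonneg (Real.log_nonneg (le_max_left _ _))
    (Real.log_nonneg (le_max_left _ _))) {v}
  rw [Finset.sum_singleton] at h1
  have h2 : Real.log (N v x) ≤ Real.log (max 1 (N v x)) := Real.log_le_log (h.pos v x hx) (le_max_right _ _)
  have h3 : 0 ≤ Real.log (max 1 (N v (σ x))) := Real.log_nonneg (le_max_left _ _)
  unfold ht
  linarith

theorem abs_log_le (v : Pl k) (x : L) (hx : x ≠ 0) : |Real.log (N v x)| ≤ ht σ N x := by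
  rw [abs_le]
  refine ⟨?_, log_le52 h v x hx⟩
  have h1 := log_le52 h v x⁻¹ (inv_ne_zero hx)
  rw [ht_inv h x hx, N_inv52 h v x hx, Real.log_inv] at h1
  linarith

private theorem le_mxn52 {ι : Type*} [Finite ι] (v : Pl k) (X : ι → L) (a : ι) : N v (X a) ≤ mxn (N v) X :=
  le_ciSup (Set.finite_range fun a => N v (X a)).bddAbove a

private theorem mxn_nonneg52 {ι : Type*} (v : Pl k) (X : ι → L) : 0 ≤ mxn (N v) X :=
  Real.iSup_nonneg fun a => N_nonneg52 h v (X a)

private theorem mxn_one52 {ι : Type*} [Finite ι] (v : Pl k) (X : ι → L) (a : ι) (ha : X a = 1) : 1 ≤ mxn (N v) X := by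
  have h1 := le_mxn52 h v X a
  rwa [ha, N_one52 h v] at h1

private theorem finS_mxn52 {ι : Type*} [Finite ι] (X : ι → L) (a : ι) (ha : X a = 1) :
    FinS fun v => Real.log (mxn (N v) X) := by
  classical
  have : Fintype ι := Fintype.ofFinite ι
  have h1 : FinS fun v => ∑ a, Real.log (max 1 (N v (X a))) := FinS.sum _ fun a _ => finS_max52 h (X a)
  refine Set.Finite.subset h1 fun v hv => ?_
  rw [Function.mem_support] at hv ⊢
  intro h2
  apply hv
  have h3 : ∀ b, N (.inr v) (X b) ≤ 1 := by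
    intro b
    have h4 := (Finset.sum_eq_zero_iff_of_nonneg fun a _ => Real.log_nonneg (le_max_left 1 (N (.inr v) (X a)))).1 h2 b
      (Finset.mem_univ b)
    by_contra h5
    rw [not_le] at h5
    rw [max_eq_right h5.le] at h4
    exact absurd h4 (Real.log_pos h5).ne'
  have : Nonempty ι := ⟨a⟩
  have h6 : mxn (N (.inr v)) X = 1 := le_antisymm (ciSup_le h3) (mxn_one52 h _ X a ha)
  show Real.log (mxn (N (.inr v)) X) = 0
  rw [h6, Real.log_one]

private theorem sum_le_inr52 {ι : Type*} (v : FinitePlace k) (s : Finset ι) (f : ι → L) (B : ℝ) (hB : 0 ≤ B)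
    (hf : ∀ i ∈ s, N (.inr v) (f i) ≤ B) : N (.inr v) (∑ i ∈ s, f i) ≤ B := by
  classical
  induction s using Finset.induction_on with
  | empty => rw [Finset.sum_empty, h.zero]; exact hB
  | insert a s ha ih =>
    rw [Finset.sum_insert ha]
    exact (h.ult v _ _).trans (max_le (hf a (Finset.mem_insert_self _ _))
      (ih fun i hi => hf i (Finset.mem_insert_of_mem hi)))

private theorem sum_le52 {ι : Type*} (v : Pl k) (s : Finset ι) (f : ι → L) (B : ℝ) (hB : 0 ≤ B)
    (hf : ∀ i ∈ s, N v (f i) ≤ B) : N v (∑ i ∈ s, f i) ≤ 4 ^ s.card * B := by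
  classical
  induction s using Finset.induction_on with
  | empty =>
    rw [Finset.sum_empty, h.zero, Finset.card_empty, pow_zero, one_mul]
    exact hB
  | insert a s ha ih =>
    rw [Finset.sum_insert ha, Finset.card_insert_of_notMem ha, pow_succ]
    have h1 := ih fun i hi => hf i (Finset.mem_insert_of_mem hi)
    have h2 := hf a (Finset.mem_insert_self _ _)
    have h3 : B ≤ 4 ^ s.card * B := le_mul_of_one_le_left hB (one_le_pow₀ (by norm_num))
    have h4 := h.add v (f a) (∑ i ∈ s, f i)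
    have h5 : max (N v (f a)) (N v (∑ i ∈ s, f i)) ≤ 4 ^ s.card * B := max_le (h2.trans h3) h1
    linarith

end

variable (k) in
theorem ht_add : ∃ C : ℝ, ∀ (L : Type u) [Field L] [Algebra k L] (σ : L ≃ₐ[k] L) (N : Pl k → L → ℝ), QS σ N →
    ∀ x y : L, ht σ N (x + y) ≤ ht σ N x + ht σ N y + C := by
  refine ⟨gsum (K := k) fun v => match v with
    | .inl _ => 2 * Real.log 4
    | .inr _ => 0, ?_⟩
  intro L _ _ σ N h x y
  have hC : FinS (K := k) fun v => match v with
    | .inl _ => 2 * Real.log 4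
    | .inr _ => 0 := by
    unfold FinS
    simp
  have h0 := gsum_add ((ht_finS h x).add (ht_finS h y)) hC
  rw [gsum_add (ht_finS h x) (ht_finS h y)] at h0
  unfold ht
  rw [← h0]
  refine gsum_mono (ht_finS h (x + y)) (((ht_finS h x).add (ht_finS h y)).add hC) fun v => ?_
  have e4 : (0 : ℝ) < 4 := by norm_num
  have key : ∀ a b c : ℝ, 0 ≤ a → 0 ≤ b → c ≤ 4 * max a b →
      Real.log (max 1 c) ≤ Real.log (max 1 a) + Real.log (max 1 b) + Real.log 4 := by
    intro a b c ha hb hc
    have h1 : (0 : ℝ) < max 1 a := lt_max_of_lt_left one_pos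
    have h2 : (0 : ℝ) < max 1 b := lt_max_of_lt_left one_pos
    have i1 : (1 : ℝ) ≤ max 1 a := le_max_left _ _
    have i2 : (1 : ℝ) ≤ max 1 b := le_max_left _ _
    have i3 : a ≤ max 1 a := le_max_right _ _
    have i4 : b ≤ max 1 b := le_max_right _ _
    rw [← Real.log_mul h1.ne' h2.ne', ← Real.log_mul (mul_pos h1 h2).ne' e4.ne']
    refine Real.log_le_log (lt_max_of_lt_left one_pos) (max_le ?_ ?_)
    · nlinarith
    · have i5 : max a b ≤ max 1 a * max 1 b := max_le (by nlinarith) (by nlinarith)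
      linarith
  have key2 : ∀ a b c : ℝ, 0 ≤ a → 0 ≤ b → c ≤ max a b →
      Real.log (max 1 c) ≤ Real.log (max 1 a) + Real.log (max 1 b) := by
    intro a b c ha hb hc
    have h1 : (0 : ℝ) < max 1 a := lt_max_of_lt_left one_pos
    have h2 : (0 : ℝ) < max 1 b := lt_max_of_lt_left one_pos
    have i1 : (1 : ℝ) ≤ max 1 a := le_max_left _ _
    have i2 : (1 : ℝ) ≤ max 1 b := le_max_left _ _
    have i3 : a ≤ max 1 a := le_max_right _ _
    have i4 : b ≤ max 1 b := le_max_right _ _
    rw [← Real.log_mul h1.ne' h2.ne']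
    refine Real.log_le_log (lt_max_of_lt_left one_pos) (max_le ?_ ?_)
    · nlinarith
    · have i5 : max a b ≤ max 1 a * max 1 b := max_le (by nlinarith) (by nlinarith)
      linarith
  rcases v with v | v
  · have j1 := key _ _ _ (N_nonneg52 h (.inl v) x) (N_nonneg52 h (.inl v) y) (h.add (.inl v) x y)
    have j2 := key _ _ _ (N_nonneg52 h (.inl v) (σ x)) (N_nonneg52 h (.inl v) (σ y)) (h.add (.inl v) (σ x) (σ y))
    rw [map_add]
    show _ ≤ _ + 2 * Real.log 4
    linarith
  · have j1 := key2 _ _ _ (N_nonneg52 h (.inr v) x) (N_nonneg52 h (.inr v) y) (h.ult v x y)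
    have j2 := key2 _ _ _ (N_nonneg52 h (.inr v) (σ x)) (N_nonneg52 h (.inr v) (σ y)) (h.ult v (σ x) (σ y))
    rw [map_add]
    show _ ≤ _ + (0 : ℝ)
    linarith

theorem ht_alg (c : k) : ∃ C : ℝ, ∀ (L : Type u) [Field L] [Algebra k L] (σ : L ≃ₐ[k] L) (N : Pl k → L → ℝ), QS σ N →
    ht σ N (algebraMap k L c) ≤ C := by
  refine ⟨gsum fun v => Real.log (max 1 (nv v c)) + Real.log (max 1 (nv v c)), ?_⟩
  intro L _ _ σ N h
  unfold ht
  apply le_of_eq
  congr 1
  funext v
  rw [AlgEquiv.commutes, h.ext]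

/-- the height of the coordinates -/
theorem ht_crd {L : Type u} [Field L] [Algebra k L] {σ : L ≃ₐ[k] L} {N : Pl k → L → ℝ} (h : QS σ N) {d : ℕ}
    (x : Fin (d + 1) → L) (hx : ∃ j, x j = 1) (j : Fin (d + 1)) :
    ht σ N (x j) ≤ gsum fun v => Real.log (mxn (N v) x) + Real.log (mxn (N v) fun i => σ (x i)) := by
  obtain ⟨a, ha⟩ := hx
  have ha' : σ (x a) = 1 := by rw [ha, map_one]
  refine gsum_mono (ht_finS h (x j)) ((finS_mxn52 h x a ha).add (finS_mxn52 h (fun i => σ (x i)) a ha')) fun v => ?_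
  refine add_le_add ?_ ?_
  · exact Real.log_le_log (lt_max_of_lt_left one_pos) (max_le (mxn_one52 h v x a ha) (le_mxn52 h v x j))
  · exact Real.log_le_log (lt_max_of_lt_left one_pos)
      (max_le (mxn_one52 h v (fun i => σ (x i)) a ha') (le_mxn52 h v (fun i => σ (x i)) j))

/-- the local constant of a linear form -/
private noncomputable def lc52 {d : ℕ} (m : Fin (d + 1) → k) (v : Pl k) : ℝ :=
  (∑ j, Real.log (max 1 (nv v (m j)))) + match v with
    | .inl _ => (d + 1 : ℕ) * Real.log 4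
    | .inr _ => 0

private theorem nonneg_sum52 {d : ℕ} (m : Fin (d + 1) → k) (v : Pl k) : 0 ≤ ∑ j, Real.log (max 1 (nv v (m j))) :=
  Finset.sum_nonneg fun j _ => Real.log_nonneg (le_max_left _ _)

private theorem lc_finS52 {d : ℕ} (m : Fin (d + 1) → k) : FinS (lc52 m) := by
  have hC : FinS (K := k) fun v => match v with
    | .inl _ => (d + 1 : ℕ) * Real.log 4
    | .inr _ => 0 := by
    unfold FinS
    simp
  refine FinS.add (FinS.sum _ fun j _ => ?_) hC
  by_cases hj : m j = 0
  · have h1 : (fun v : Pl k => Real.log (max 1 (nv v (m j)))) = fun _ => (0 : ℝ) := by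
      funext v
      rw [hj, Pool.Agent.Helper64.Vojta.nv_zero, max_eq_left zero_le_one, Real.log_one]
    rw [h1]
    exact FinS.zero
  · refine Set.Finite.subset (finS_nv hj) fun v hv => ?_
    rw [Function.mem_support] at hv ⊢
    intro h1
    apply hv
    have h0 : 0 < nv (.inr v : Pl k) (m j) := Pool.Agent.Helper64.Vojta.nv_pos _ hj
    have h2 : nv (.inr v : Pl k) (m j) = 1 := by
      rcases Real.log_eq_zero.1 h1 with h3 | h3 | h3
      · exact absurd h3 h0.ne'
      · exact h3
      · linarith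
    show Real.log (max 1 (nv (.inr v) (m j))) = 0
    rw [h2, max_self, Real.log_one]

private theorem lc_nonneg52 {d : ℕ} (m : Fin (d + 1) → k) (v : Pl k) : 0 ≤ lc52 m v := by
  unfold lc52
  refine add_nonneg (nonneg_sum52 m v) ?_
  rcases v with v | v
  · exact mul_nonneg (Nat.cast_nonneg _) (Real.log_nonneg (by norm_num))
  · exact le_refl _

private theorem mxn_pos52 {L : Type u} [Field L] [Algebra k L] {σ : L ≃ₐ[k] L} {N : Pl k → L → ℝ} (h : QS σ N) {d : ℕ}
    (m : Fin (d + 1) → k) (x : Fin (d + 1) → L) (v : Pl k) (hz : lv m x ≠ 0) : 0 < mxn (N v) x := by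
  have h1 : ∃ j, x j ≠ 0 := by
    by_contra h2
    push Not at h2
    apply hz
    unfold lv
    exact Finset.sum_eq_zero fun j _ => by rw [h2 j, mul_zero]
  obtain ⟨j, hj⟩ := h1
  exact (h.pos v _ hj).trans_le (le_mxn52 h v x j)

private theorem lv_le52 {d : ℕ} (m : Fin (d + 1) → k) (L : Type u) [Field L] [Algebra k L]
    (σ : L ≃ₐ[k] L) (N : Pl k → L → ℝ) (h : QS σ N) (x : Fin (d + 1) → L) (v : Pl k) (hz : lv m x ≠ 0) :
      Real.log (N v (lv m x)) ≤ Real.log (mxn (N v) x) + lc52 m v := by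
  have hp := mxn_pos52 h m x v hz
  have hzp := h.pos v _ hz
  set A : ℝ := ∏ j, max 1 (nv v (m j)) with hA
  have hA1 : 0 < A := Finset.prod_pos fun j _ => lt_max_of_lt_left one_pos
  have hlogA : Real.log A = ∑ j, Real.log (max 1 (nv v (m j))) :=
    Real.log_prod fun j _ => (lt_max_of_lt_left one_pos).ne'
  have hterm : ∀ j ∈ (Finset.univ : Finset (Fin (d + 1))), N v (algebraMap k L (m j) * x j) ≤ A * mxn (N v) x := by
    intro j _
    rw [h.mul, h.ext]
    refine mul_le_mul ?_ (le_mxn52 h v x j) (N_nonneg52 h v _) hA1.le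
    calc nv v (m j) ≤ max 1 (nv v (m j)) := le_max_right _ _
      _ ≤ A := by
        rw [hA, ← Finset.mul_prod_erase _ _ (Finset.mem_univ j)]
        exact le_mul_of_one_le_right (zero_le_one.trans (le_max_left _ _))
          (Finset.prod_induction _ (fun t : ℝ => 1 ≤ t) (fun a b ha hb => one_le_mul_of_one_le_of_one_le ha hb)
            (le_refl _) fun i _ => le_max_left _ _)
  rcases v with v | v
  · have h1 := sum_le52 h (.inl v) Finset.univ _ _ (mul_pos hA1 hp).le hterm
    have h2 : Real.log (N (.inl v) (lv m x)) ≤ Real.log (4 ^ (d + 1) * (A * mxn (N (.inl v)) x)) := by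
      refine Real.log_le_log hzp ?_
      rw [Finset.card_univ, Fintype.card_fin] at h1
      exact h1
    rw [Real.log_mul (by positivity) (mul_pos hA1 hp).ne', Real.log_mul hA1.ne' hp.ne', hlogA, Real.log_pow] at h2
    show _ ≤ _ + (_ + ((d + 1 : ℕ) : ℝ) * Real.log 4)
    linarith
  · have h1 := sum_le_inr52 h v Finset.univ _ _ (mul_pos hA1 hp).le hterm
    have h2 : Real.log (N (.inr v) (lv m x)) ≤ Real.log (A * mxn (N (.inr v)) x) := Real.log_le_log hzp h1
    rw [Real.log_mul hA1.ne' hp.ne', hlogA] at h2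
    show _ ≤ _ + (_ + (0 : ℝ))
    linarith

/-- Local inequality: a linear form is at most the norm, up to a constant which is one at almost all places. -/
theorem lv_le {d : ℕ} (m : Fin (d + 1) → k) : ∃ C : Pl k → ℝ, FinS C ∧ (∀ v, 0 ≤ C v) ∧ ∀ (L : Type u) [Field L] [Algebra k L]
    (σ : L ≃ₐ[k] L) (N : Pl k → L → ℝ), QS σ N → ∀ (x : Fin (d + 1) → L) (v : Pl k), lv m x ≠ 0 →
      Real.log (N v (lv m x)) ≤ Real.log (mxn (N v) x) + C v :=
  ⟨lc52 m, lc_finS52 m, lc_nonneg52 m, fun L _ _ σ N h x v hz => lv_le52 m L σ N h x v hz⟩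

/-- Liouville's inequality -/
theorem liouville {d : ℕ} (m : Fin (d + 1) → k) (P : Finset (Pl k)) : ∃ C : ℝ, ∀ (L : Type u) [Field L] [Algebra k L]
    (σ : L ≃ₐ[k] L) (N : Pl k → L → ℝ), QS σ N → ∀ (x : Fin (d + 1) → L), (∃ j, x j = 1) → lv m x ≠ 0 →
      ∑ v ∈ P, ((Real.log (mxn (N v) x) - Real.log (N v (lv m x))) +
        (Real.log (mxn (N v) fun i => σ (x i)) - Real.log (N v (σ (lv m x))))) ≤
      (gsum fun v => Real.log (mxn (N v) x) + Real.log (mxn (N v) fun i => σ (x i))) + C := by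
  obtain ⟨C, hC, hC0, hle⟩ := lv_le m
  refine ⟨gsum fun v => 2 * C v, ?_⟩
  intro L _ _ σ N h x hx hz
  obtain ⟨a, ha⟩ := hx
  have ha' : σ (x a) = 1 := by rw [ha, map_one]
  have hσ : σ (lv m x) = lv m fun i => σ (x i) := by
    unfold lv
    rw [map_sum]
    exact Finset.sum_congr rfl fun j _ => by rw [map_mul, AlgEquiv.commutes]
  have hσ0 : σ (lv m x) ≠ 0 := σ_ne52 h _ hz
  have hz' : lv m (fun i => σ (x i)) ≠ 0 := by rwa [← hσ]
  have f1 := (finS_mxn52 h x a ha).add (finS_mxn52 h (fun i => σ (x i)) a ha')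
  have f2 := (h.fin _ hz).add (h.fin _ hσ0)
  have f3 := hC.const_mul 2
  have hnn : ∀ v, 0 ≤ ((Real.log (mxn (N v) x) + Real.log (mxn (N v) fun i => σ (x i))) + 2 * C v) +
      -(Real.log (N v (lv m x)) + Real.log (N v (σ (lv m x)))) := by
    intro v
    have h1 := hle L σ N h x v hz
    have h2 := hle L σ N h (fun i => σ (x i)) v hz'
    rw [← hσ] at h2
    linarith
  have h3 := sum_le_gsum ((f1.add f3).add f2.neg) hnn P
  rw [gsum_add (f1.add f3) f2.neg, gsum_add f1 f3, gsum_neg, h.prod _ hz, neg_zero, add_zero] at h3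
  refine le_trans (Finset.sum_le_sum fun v _ => ?_) h3
  have := hC0 v
  linarith

end

end Pool.Agent.SQ
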