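import Pool.Agent.Helper42.SQ.LIN2R

/-!
# SQ, block LIN2R: the line through two double points
-/

set_option autoImplicit false

namespace Pool.Agent.SQ

open NumberField Filter Module
open Pool.Agent.Helper64.Vojta (Pl nv)
open Pool.Agent.Chart (fld dg crd val hgt lam)

universe u

variable {k : Type u} [Field k] [NumberField k]

/-- `q ≤ 2 r + 2`; `P₁` is a common zero of `l i`, `l j`, but not of the other forms; `P₂` the same for `l m`, `l o`. The line through
`P₁` and `P₂` carries points of degree at most `r` outside the hyperplanes, of unbounded height, with `∑_S λ ≥ q h - C`; `S` is any finite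
set containing the archimedean places and those above `2`. -/
theorem nodes2r {n q r : ℕ} (hr : 1 ≤ r) (hq : q ≤ 2 * r + 2) (l : Fin q → Fin (n + 1) → k) (i j m o : Fin q) (hij : i ≠ j)
    (hmo : m ≠ o) (him : i ≠ m) (hio : i ≠ o) (hjm : j ≠ m) (hjo : j ≠ o) (P₁ P₂ : Fin (n + 1) → k)
    (h1 : ∀ s, ∑ a, l s a * P₁ a = 0 ↔ s = i ∨ s = j) (h2 : ∀ s, ∑ a, l s a * P₂ a = 0 ↔ s = m ∨ s = o)
    (S : Finset (Pl k)) (hS : ∀ v, v ∉ S → nv v (2 : k) = 1) :
    ∃ C : ℝ, ∀ B : ℝ, ∃ x : Fin (n + 1) → AlgebraicClosure k, (∃ j, x j = 1) ∧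
      (∃ s t : AlgebraicClosure k, ∀ j, x j = s * algebraMap k _ (P₁ j) + t * algebraMap k _ (P₂ j)) ∧ dg x ≤ r ∧
      (∀ i, val (l i) x ≠ 0) ∧ B ≤ hgt x ∧ q * hgt x - C ≤ ∑ ν ∈ S, ∑ i, lam (l i) ν x := by
  classical
  have a1 : ∑ a, l i a * P₁ a = 0 := (h1 i).2 (Or.inl rfl)
  have a2 : ∑ a, l j a * P₁ a = 0 := (h1 j).2 (Or.inr rfl)
  have a3 : ∑ a, l m a * P₂ a = 0 := (h2 m).2 (Or.inl rfl)
  have a4 : ∑ a, l o a * P₂ a = 0 := (h2 o).2 (Or.inr rfl)
  have a5 : ∑ a, l i a * P₂ a ≠ 0 := fun h => by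
    rcases (h2 i).1 h with h | h
    · exact him h
    · exact hio h
  have a6 : ∑ a, l m a * P₁ a ≠ 0 := fun h => by
    rcases (h1 m).1 h with h | h
    · exact him h.symm
    · exact hjm h.symm
  have hlin : ∀ (s t : k) (u : Fin q), s • P₁ + t • P₂ = 0 → s * ∑ a, l u a * P₁ a + t * ∑ a, l u a * P₂ a = 0 := by
    intro s t u h
    rw [Finset.mul_sum, Finset.mul_sum, ← Finset.sum_add_distrib]
    refine Finset.sum_eq_zero fun a _ => ?_
    have h3 := congrFun h a
    rw [Pi.add_apply, Pi.smul_apply, Pi.smul_apply, smul_eq_mul, smul_eq_mul, Pi.zero_apply] at h3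
    linear_combination (l u a) * h3
  refine line2r_S hr l P₁ P₂ ?_ ?_ ((Finset.univ.erase j).erase o) ?_ ?_ S hS
  · rw [LinearIndependent.pair_iff]
    intro s t h
    have e1 := hlin s t i h
    have e2 := hlin s t m h
    rw [a1, mul_zero, zero_add] at e1
    rw [a3, mul_zero, add_zero] at e2
    exact ⟨(mul_eq_zero.1 e2).resolve_right a6, (mul_eq_zero.1 e1).resolve_right a5⟩
  · intro s
    by_cases h3 : ∑ a, l s a * P₁ a = 0
    · right
      intro h4
      rcases (h1 s).1 h3 with rfl | rfl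
      · exact a5 h4
      · rcases (h2 s).1 h4 with h5 | h5
        · exact hjm h5
        · exact hjo h5
    · exact Or.inl h3
  · rw [Finset.card_erase_of_mem (Finset.mem_erase.2 ⟨hjo.symm, Finset.mem_univ o⟩), Finset.card_erase_of_mem (Finset.mem_univ j),
      Finset.card_univ, Fintype.card_fin]
    omega
  · intro s
    by_cases h3 : s = j
    · subst h3
      refine ⟨i, Finset.mem_erase.2 ⟨hio, Finset.mem_erase.2 ⟨hij, Finset.mem_univ i⟩⟩, ?_⟩
      rw [a1, a2, zero_mul, zero_mul]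
    · by_cases h4 : s = o
      · subst h4
        refine ⟨m, Finset.mem_erase.2 ⟨hmo, Finset.mem_erase.2 ⟨hjm.symm, Finset.mem_univ m⟩⟩, ?_⟩
        rw [a3, a4, mul_zero, mul_zero]
      · exact ⟨s, Finset.mem_erase.2 ⟨h4, Finset.mem_erase.2 ⟨h3, Finset.mem_univ s⟩⟩, by ring⟩

end Pool.Agent.SQ
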