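import Pool.Agent.Helper42.SQ.SHARP3A
import Pool.Agent.Helper42.SQ.SHARP3C

/-!
# SQ, block LIN2R: a line which meets the divisor in at most `2 r` points

It carries points of degree at most `r` outside the divisor, of unbounded height, which are integral for the archimedean places and those
above `2` (up to a bounded error).
-/

set_option autoImplicit false
set_option linter.unusedSectionVars false
set_option linter.unusedVariables false

namespace Pool.Agent.SQ

open NumberField Filter Module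
open Pool.Agent.Helper64.Vojta (Pl nv nv_one nv_mul nv_pos nv_nonneg nv_zero nv_inv)
open Pool.Agent.V2
open Pool.Agent.Chart (fld dg crd val hgt lam)

universe u

section

variable {k : Type u} [Field k] [NumberField k]

private noncomputable def T73 (k : Type u) [Field k] [NumberField k] : ℝ :=
  ∑ v : InfinitePlace k, Real.log (nv (.inl v : Pl k) (2 : k))

private theorem nv_two73 (v : InfinitePlace k) : 2 ≤ nv (.inl v : Pl k) (2 : k) := by
  show (2 : ℝ) ≤ v 2 ^ v.mult
  have h1 : v (2 : k) = 2 := by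
    rw [← InfinitePlace.norm_embedding_eq, map_ofNat]
    simp
  rw [h1]
  exact le_self_pow₀ (by norm_num) v.mult_ne_zero

private theorem T_pos73 : 0 < T73 k := by
  unfold T73
  refine Finset.sum_pos (fun v _ => Real.log_pos (by have := nv_two73 v; linarith)) ?_
  exact Finset.univ_nonempty

private theorem nv_pow73 (v : Pl k) (c : k) (m : ℕ) : nv v (c ^ m) = nv v c ^ m := by
  induction m with
  | zero => rw [pow_zero, pow_zero, nv_one]
  | succ m ih => rw [pow_succ, pow_succ, nv_mul, ih]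

private theorem nv_fin_two73 (v : FinitePlace k) : nv (.inr v : Pl k) (2 : k) ≤ 1 := by
  have h1 := Pool.Agent.Helper64.Vojta.nv_int_le_one v (2 : 𝓞 k)
  have h2 : ((2 : 𝓞 k) : k) = 2 := map_ofNat (algebraMap (𝓞 k) k) 2
  rwa [h2] at h1

private theorem lm_inr73 (m : ℕ) (v : FinitePlace k) : lm73 ((2 : k) ^ m) (.inr v) = 0 := by
  unfold lm73
  rw [nv_pow73, max_eq_left (pow_le_one₀ (nv_nonneg _ _) (nv_fin_two73 v)), Real.log_one]

private theorem lm_inl73 (m : ℕ) (v : InfinitePlace k) : lm73 ((2 : k) ^ m) (.inl v) = m * Real.log (nv (.inl v : Pl k) (2 : k)) := by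
  unfold lm73
  rw [nv_pow73, max_eq_right (one_le_pow₀ (by have := nv_two73 v; linarith)), Real.log_pow]

private theorem gsum_lm73 (m : ℕ) : gsum (lm73 ((2 : k) ^ m)) = m * T73 k := by
  unfold gsum T73
  simp only [lm_inr73, lm_inl73, finsum_zero, add_zero, Finset.mul_sum]

private theorem exists_S73 (k : Type u) [Field k] [NumberField k] : ∃ S : Finset (Pl k), ∀ m : ℕ,
    ∑ v ∈ S, lm73 ((2 : k) ^ m) v = m * T73 k ∧ ∑ v ∈ S, Real.log (nv v ((2 : k) ^ m)) = 0 := by
  classical
  have hf : FinS fun v => Real.log (nv v (2 : k)) := finS_nv two_ne_zero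
  have hf' : (Function.support fun v : FinitePlace k => Real.log (nv (.inr v) (2 : k))).Finite := hf
  refine ⟨Finset.univ.disjSum hf'.toFinset, fun m => ?_⟩
  rw [Finset.sum_disjSum, Finset.sum_disjSum]
  refine ⟨?_, ?_⟩
  · simp only [lm_inr73, lm_inl73, Finset.sum_const_zero, add_zero]
    rw [← Finset.mul_sum]
    rfl
  · have h3 := gsum_nv (K := k) (y := (2 : k)) two_ne_zero
    unfold gsum at h3
    rw [finsum_eq_sum_of_support_subset _ (s := hf'.toFinset) (by rw [Set.Finite.coe_toFinset])] at h3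
    simp only [nv_pow73, Real.log_pow]
    rw [← Finset.mul_sum, ← Finset.mul_sum, ← mul_add, h3, mul_zero]

private theorem exists_pow73 (A : Finset k) : ∃ m₀ : ℕ, ∀ m, m₀ ≤ m → (2 : k) ^ m ∉ A := by
  classical
  have hinj : Function.Injective fun m : ℕ => (2 : k) ^ m := by
    intro a b hab
    have h1 : ((2 ^ a : ℕ) : k) = ((2 ^ b : ℕ) : k) := by
      push_cast
      exact hab
    exact Nat.pow_right_injective (le_refl 2) (Nat.cast_injective h1)
  have hf : {m : ℕ | (2 : k) ^ m ∈ A}.Finite := A.finite_toSet.preimage hinj.injOn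
  obtain ⟨M, hM⟩ := hf.bddAbove
  refine ⟨M + 1, fun m hm h => ?_⟩
  have := hM h
  omega


/-- the main term vanishes outside of the set of places -/
private theorem th_zero73 (WA WB : Finset k) (a b u : k) (v : Pl k) (h1 : lm73 u v = 0) (h2 : Real.log (nv v u) = 0) :
    th73 WA WB a b u v = 0 := by
  unfold th73
  rw [h1, h2]
  simp

private theorem gsum_le_S73 {f K : Pl k → ℝ} (hf : FinS f) (hK : FinS K) (hK0 : ∀ v, 0 ≤ K v) (S : Finset (Pl k))
    (h : ∀ v, v ∉ S → f v ≤ K v) : gsum f ≤ ∑ v ∈ S, f v + gsum K := by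
  classical
  have F1 : FinS fun v => ∑ a ∈ S, if v = a then f a else 0 := FinS.sum S fun a _ => finS_single a (f a)
  have h1 : 0 ≤ gsum fun v => (K v + (-1) * f v) + ∑ a ∈ S, if v = a then f a else 0 := by
    refine gsum_nonneg fun v => ?_
    by_cases hv : v ∈ S
    · rw [Finset.sum_ite_eq, if_pos hv]
      have := hK0 v
      linarith
    · rw [Finset.sum_ite_eq, if_neg hv]
      have := h v hv
      linarith
  rw [gsum_add (hK.add (hf.const_mul (-1))) F1, gsum_add hK (hf.const_mul (-1)), gsum_const_mul,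
    gsum_sum S (fun a _ => finS_single a (f a))] at h1
  have h2 : ∑ a ∈ S, gsum (fun v => if v = a then f a else 0) = ∑ a ∈ S, f a :=
    Finset.sum_congr rfl fun a _ => gsum_single a (f a)
  rw [h2] at h1
  linarith

private theorem finS_abs73 {c : k} (hc : c ≠ 0) : FinS fun v => |Real.log (nv v c)| := by
  refine Set.Finite.subset (finS_nv hc) fun v hv => ?_
  rw [Function.mem_support] at hv ⊢
  intro h0
  apply hv
  have h1 : Real.log (nv (.inr v) c) = 0 := h0
  show |Real.log (nv (.inr v) c)| = 0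
  rw [h1, abs_zero]

/-- upper bound for the local function of each root -/
private theorem hyp_le73 (WA WB : Finset k) (hd : Disjoint WA WB) {r : ℕ} (p : Fin (r + 1) → k) (hp : Function.Injective p)
    (a b : k) (hab : (a = 0 ∧ b ≠ 0) ∨ (a ≠ 0 ∧ (-b / a ∈ WA ∨ -b / a ∈ WB))) :
    ∃ K : Pl k → ℝ, FinS K ∧ (∀ v, 0 ≤ K v) ∧ ∀ (v : Pl k) (L : Type u) [Field L] [Algebra k L] (N : L → ℝ), AV73 v N →
      ∀ (u : k) (z : Fin r → L), u ≠ 0 →
      Rt73 WA WB u z → (∀ j, z j * algebraMap k L a + algebraMap k L b ≠ 0) → ∀ j,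
      Real.log (max 1 (N (z j))) - Real.log (N (z j * algebraMap k L a + algebraMap k L b)) ≤ th73 WA WB a b u v + K v := by
  classical
  have hK0 : ∀ v, 0 ≤ Kup73 WA WB p v := by
    intro v
    unfold Kup73 LE73
    have h1 := lka_nonneg73 v
    have h2 : 0 ≤ ∑ j, lm73 (p j) v := Finset.sum_nonneg fun j _ => lm_nonneg73 _ _
    have h3 : 0 ≤ ∑ j, ∑ j', lm73 (p j - p j')⁻¹ v := Finset.sum_nonneg fun j _ => Finset.sum_nonneg fun j' _ => lm_nonneg73 _ _
    have h4 : 0 ≤ ∑ j, (lm73 (ev73 WA (p j)) v + lm73 (ev73 WB (p j)) v) :=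
      Finset.sum_nonneg fun j _ => add_nonneg (lm_nonneg73 _ _) (lm_nonneg73 _ _)
    have h5 : (0 : ℝ) ≤ r := Nat.cast_nonneg _
    positivity
  -- the general principle
  have key : ∀ (v : Pl k) (θ E K' : ℝ) (f : Fin r → ℝ), 0 ≤ K' → (∀ j, - K' ≤ f j) → ∑ j, f j ≤ θ + E → ∀ j, f j ≤ θ + (E + r * K') := by
    intro v θ E K' f hK' hf hs j
    rw [← Finset.add_sum_erase _ _ (Finset.mem_univ j)] at hs
    have h1 : ∑ i ∈ Finset.univ.erase j, (- K') ≤ ∑ i ∈ Finset.univ.erase j, f i := Finset.sum_le_sum fun i _ => hf i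
    rw [Finset.sum_const, nsmul_eq_mul] at h1
    have h2 : ((Finset.univ.erase j).card : ℝ) ≤ r := by
      have h3 := Finset.card_le_univ (Finset.univ.erase j)
      rw [Fintype.card_fin] at h3
      exact_mod_cast h3
    have h3 : ((Finset.univ.erase j).card : ℝ) * K' ≤ r * K' := mul_le_mul_of_nonneg_right h2 hK'
    linarith
  by_cases ha : a = 0
  · have hb : b ≠ 0 := by
      rcases hab with h | h
      · exact h.2
      · exact absurd ha h.1
    refine ⟨fun v => (Kup73 WA WB p v + r * |Real.log (nv v b)|) + r * |Real.log (nv v b)|,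
      ((finS_Kup73 WA WB p).add ((finS_abs73 hb).const_mul r)).add ((finS_abs73 hb).const_mul r),
      fun v => by have := hK0 v; positivity, fun v L _ _ N h u z hu hR hne => ?_⟩
    have h1 : th73 WA WB a b u v = lm73 u v - Real.log (nv v u) := if_pos (Or.inl ha)
    have h2 := up73 h WA WB p hp hu z hR
    have h3 : ∀ j, Real.log (N (z j * algebraMap k L a + algebraMap k L b)) = Real.log (nv v b) := by
      intro j
      rw [ha, map_zero, mul_zero, zero_add, h.ext]
    have h5 := le_abs_self (Real.log (nv v b))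
    have h6 := neg_abs_le (Real.log (nv v b))
    refine key v _ _ _ _ (abs_nonneg _) (fun j => ?_) ?_
    · have h4 : 0 ≤ Real.log (max 1 (N (z j))) := Real.log_nonneg (le_max_left _ _)
      rw [h3]
      linarith
    · simp only [h3]
      rw [Finset.sum_sub_distrib, Finset.sum_const, Finset.card_univ, Fintype.card_fin, nsmul_eq_mul, h1]
      have h7 : (0 : ℝ) ≤ r := Nat.cast_nonneg _
      nlinarith
  have hab' : -b / a ∈ WA ∨ -b / a ∈ WB := by
    rcases hab with h | h
    · exact absurd h.1 ha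
    · exact h.2
  set c : k := -b / a with hc
  have hac : ∀ (L : Type u) [Field L] [Algebra k L] (z : L), z * algebraMap k L a + algebraMap k L b =
      algebraMap k L a * (z - algebraMap k L c) := by
    intro L _ _ z
    have ha' : algebraMap k L a ≠ 0 := (map_ne_zero _).2 ha
    rw [hc, map_div₀, map_neg]
    field_simp
    ring
  have hlog : ∀ (v : Pl k) (L : Type u) [Field L] [Algebra k L] (N : L → ℝ), AV73 v N → ∀ (z : L),
      z * algebraMap k L a + algebraMap k L b ≠ 0 →
      Real.log (N (z * algebraMap k L a + algebraMap k L b)) = Real.log (nv v a) + Real.log (N (z - algebraMap k L c)) := by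
    intro v L _ _ N h z hz
    rw [hac] at hz ⊢
    rw [h.mul, h.ext, Real.log_mul (nv_pos v ha).ne' (h.pos _ (right_ne_zero_of_mul hz)).ne']
  have hlow : ∀ (v : Pl k) (L : Type u) [Field L] [Algebra k L] (N : L → ℝ), AV73 v N → ∀ (z : L),
      z * algebraMap k L a + algebraMap k L b ≠ 0 → - ((Real.log (ka73 v) + lm73 c v) + |Real.log (nv v a)|) ≤
      Real.log (max 1 (N z)) - Real.log (N (z * algebraMap k L a + algebraMap k L b)) := by
    intro v L _ _ N h z hz
    have h1 := hlog v L N h z hz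
    rw [hac] at hz
    have h2 := h.log_one_pt c z (right_ne_zero_of_mul hz)
    have h3 := le_abs_self (Real.log (nv v a))
    rw [h1]
    linarith
  by_cases hA : c ∈ WA
  · have hB' : c ∉ WB := Finset.disjoint_left.1 hd hA
    have hev := ev_ne73 WB c hB'
    refine ⟨fun v => (Kup73 WA WB p v + (|Real.log (nv v (ev73 WB c))| + r * |Real.log (nv v a)|)) +
        r * ((Real.log (ka73 v) + lm73 c v) + |Real.log (nv v a)|),
      ((finS_Kup73 WA WB p).add ((finS_abs73 hev).add ((finS_abs73 ha).const_mul r))).add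
        (((finS_ka73.add (finS_lm73 c)).add (finS_abs73 ha)).const_mul r),
      fun v => by
        have h1 := hK0 v
        have h2 := lka_nonneg73 v
        have h3 := lm_nonneg73 c v
        positivity, fun v L _ _ N h u z hu hR hne => ?_⟩
    have h1 : th73 WA WB a b u v = lm73 u v - Real.log (nv v u) := if_pos (Or.inr hA)
    have h2 := up73 h WA WB p hp hu z hR
    have h3 := (hR.at_WA h hu hA hB').2
    have h5 := neg_abs_le (Real.log (nv v (ev73 WB c)))
    have h6 := neg_abs_le (Real.log (nv v a))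
    have hk := lka_nonneg73 v
    have hl := lm_nonneg73 c v
    refine key v _ _ _ _ (by positivity) (fun j => hlow v L N h (z j) (hne j)) ?_
    simp only [fun j => hlog v L N h (z j) (hne j)]
    rw [Finset.sum_sub_distrib, Finset.sum_add_distrib, Finset.sum_const, Finset.card_univ, Fintype.card_fin, nsmul_eq_mul, h1, h3]
    have h7 : (0 : ℝ) ≤ r := Nat.cast_nonneg _
    nlinarith
  · have hB : c ∈ WB := by
      rcases hab' with h | h
      · exact absurd h hA
      · exact h
    have hev := ev_ne73 WA c hA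
    refine ⟨fun v => (Kup73 WA WB p v + (|Real.log (nv v (ev73 WA c))| + r * |Real.log (nv v a)|)) +
        r * ((Real.log (ka73 v) + lm73 c v) + |Real.log (nv v a)|),
      ((finS_Kup73 WA WB p).add ((finS_abs73 hev).add ((finS_abs73 ha).const_mul r))).add
        (((finS_ka73.add (finS_lm73 c)).add (finS_abs73 ha)).const_mul r),
      fun v => by
        have h1 := hK0 v
        have h2 := lka_nonneg73 v
        have h3 := lm_nonneg73 c v
        positivity, fun v L _ _ N h u z hu hR hne => ?_⟩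
    have h1 : th73 WA WB a b u v = lm73 u v := by
      unfold th73
      rw [if_neg (not_or.2 ⟨ha, hA⟩), if_pos hB]
    have h2 := up73 h WA WB p hp hu z hR
    have h3 := (hR.at_WB h hu hB hA).2
    have h5 := neg_abs_le (Real.log (nv v (ev73 WA c)))
    have h6 := neg_abs_le (Real.log (nv v a))
    have hk := lka_nonneg73 v
    have hl := lm_nonneg73 c v
    refine key v _ _ _ _ (by positivity) (fun j => hlow v L N h (z j) (hne j)) ?_
    simp only [fun j => hlog v L N h (z j) (hne j)]
    rw [Finset.sum_sub_distrib, Finset.sum_add_distrib, Finset.sum_const, Finset.card_univ, Fintype.card_fin, nsmul_eq_mul, h1, h3]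
    have h7 : (0 : ℝ) ≤ r := Nat.cast_nonneg _
    nlinarith

/-- `∏ (X - a)` -/
private noncomputable def pw73 (W : Finset k) : Polynomial k := ∏ a ∈ W, (Polynomial.X - Polynomial.C a)

private theorem pw_monic73 (W : Finset k) : (pw73 W).Monic :=
  Polynomial.monic_prod_of_monic _ _ fun a _ => Polynomial.monic_X_sub_C a

private theorem pw_deg73 (W : Finset k) : (pw73 W).natDegree = W.card := by
  unfold pw73
  rw [Polynomial.natDegree_prod_of_monic _ _ fun a _ => Polynomial.monic_X_sub_C a]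
  simp

private theorem pw_aeval73 {L : Type*} [Field L] [Algebra k L] (W : Finset k) (z : L) :
    Polynomial.aeval z (pw73 W) = ∏ a ∈ W, (z - algebraMap k L a) := by
  unfold pw73
  rw [map_prod]
  exact Finset.prod_congr rfl fun a _ => by rw [map_sub, Polynomial.aeval_X, Polynomial.aeval_C]

private theorem pw_eval73 (W : Finset k) (c : k) : (pw73 W).eval c = ev73 W c := by
  unfold pw73 ev73
  rw [Polynomial.eval_prod]
  exact Finset.prod_congr rfl fun a _ => by rw [Polynomial.eval_sub, Polynomial.eval_X, Polynomial.eval_C]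

private theorem pF73 (WA WB : Finset k) {r : ℕ} (hA : WA.card < WB.card) (hB : WB.card = r) {u : k} (hu : u ≠ 0) :
    (pw73 WA + Polynomial.C u * pw73 WB).natDegree = r ∧ (pw73 WA + Polynomial.C u * pw73 WB).leadingCoeff = u := by
  have h1 : (Polynomial.C u * pw73 WB).degree = r := by
    rw [Polynomial.degree_C_mul hu, Polynomial.degree_eq_natDegree (pw_monic73 WB).ne_zero, pw_deg73, hB]
  have h2 : (pw73 WA).degree < (Polynomial.C u * pw73 WB).degree := by
    rw [h1, Polynomial.degree_eq_natDegree (pw_monic73 WA).ne_zero, pw_deg73]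
    rw [hB] at hA
    exact_mod_cast hA
  refine ⟨?_, ?_⟩
  · refine Polynomial.natDegree_eq_of_degree_eq_some ?_
    rw [Polynomial.degree_add_eq_right_of_degree_lt h2, h1]
  · rw [Polynomial.leadingCoeff_add_of_degree_lt h2, Polynomial.leadingCoeff_mul, Polynomial.leadingCoeff_C,
      (pw_monic73 WB).leadingCoeff, mul_one]

/-- the roots as a family -/
private theorem roots73 {K : Type*} [Field K] [IsAlgClosed K] (F : Polynomial K) {r : ℕ} (hF : F.natDegree = r) :
    ∃ z : Fin r → K, F = Polynomial.C F.leadingCoeff * ∏ i, (Polynomial.X - Polynomial.C (z i)) := by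
  have h1 : F.roots.toList.length = r := by
    rw [Multiset.length_toList, IsAlgClosed.card_roots_eq_natDegree, hF]
  subst h1
  refine ⟨fun i => F.roots.toList.get i, ?_⟩
  have h2 := Polynomial.C_leadingCoeff_mul_prod_multiset_X_sub_C (p := F) IsAlgClosed.card_roots_eq_natDegree
  conv_lhs => rw [← h2]
  congr 1
  conv_lhs => rw [← Multiset.coe_toList F.roots]
  rw [Multiset.map_coe, Multiset.prod_coe, ← List.prod_ofFn]
  congr 1
  have h3 : List.ofFn (fun i => F.roots.toList.get i) = F.roots.toList := List.ofFn_get _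
  conv_lhs => rw [← h3]
  rw [List.map_ofFn]
  rfl

/-- the degree of a point in the field generated by a root of a polynomial -/
private theorem dg_le73 {n r : ℕ} (x : Fin (n + 1) → AlgebraicClosure k) (z : AlgebraicClosure k) (F : Polynomial k) (hF : F ≠ 0)
    (hr : F.natDegree = r) (hz : Polynomial.aeval z F = 0)
    (hx : ∀ j, x j ∈ IntermediateField.adjoin k {z}) : dg x ≤ r := by
  have hint : IsIntegral k z := (Algebra.IsAlgebraic.isAlgebraic z).isIntegral
  have hfd : FiniteDimensional k (IntermediateField.adjoin k {z}) := IntermediateField.adjoin.finiteDimensional hint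
  have h1 : fld x ≤ IntermediateField.adjoin k {z} := by
    unfold fld
    rw [IntermediateField.adjoin_le_iff]
    rintro _ ⟨j, rfl⟩
    exact hx j
  have h2 : dg x ≤ finrank k (IntermediateField.adjoin k {z}) := by
    unfold dg
    exact LinearMap.finrank_le_finrank_of_injective (f := (IntermediateField.inclusion h1).toLinearMap)
      (IntermediateField.inclusion_injective h1)
  rw [IntermediateField.adjoin.finrank hint] at h2
  rw [← hr]
  exact h2.trans (Polynomial.natDegree_le_of_dvd (minpoly.dvd k z hz) hF)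


/-- the case where the point at infinity is one of the points -/
private theorem line_aux73 {S : Finset (Pl k)} (hS : ∀ v, v ∉ S → ∀ m : ℕ, lm73 ((2 : k) ^ m) v = 0 ∧
      Real.log (nv v ((2 : k) ^ m)) = 0) {n q r : ℕ} (l : Fin q → Fin (n + 1) → k) (P₁ P₂ : Fin (n + 1) → k)
    (l₁ l₂ : Fin (n + 1) → k)
    (h12 : dp73 l₁ P₂ = 0) (h21 : dp73 l₂ P₁ = 0) (h11 : dp73 l₁ P₁ ≠ 0) (h22 : dp73 l₂ P₂ ≠ 0)
    (WA WB : Finset k) (hd : Disjoint WA WB) (hA : WA.card < WB.card) (hB : WB.card = r)
    (hab : ∀ i, (dp73 (l i) P₁ = 0 ∧ dp73 (l i) P₂ ≠ 0) ∨ (dp73 (l i) P₁ ≠ 0 ∧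
      (-dp73 (l i) P₂ / dp73 (l i) P₁ ∈ WA ∨ -dp73 (l i) P₂ / dp73 (l i) P₁ ∈ WB))) :
    ∃ C : ℝ, ∀ B : ℝ, ∃ x : Fin (n + 1) → AlgebraicClosure k, (∃ j, x j = 1) ∧
      (∃ s t : AlgebraicClosure k, ∀ j, x j = s * algebraMap k _ (P₁ j) + t * algebraMap k _ (P₂ j)) ∧ dg x ≤ r ∧
      (∀ i, val (l i) x ≠ 0) ∧ B ≤ hgt x ∧ q * hgt x - C ≤ ∑ ν ∈ S, ∑ i, lam (l i) ν x := by
  classical
  let a : Fin q → k := fun i => dp73 (l i) P₁
  let b : Fin q → k := fun i => dp73 (l i) P₂
  let p : Fin (r + 1) → k := fun j => ((j : ℕ) : k)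
  have hp : Function.Injective p := by
    intro i j hij
    exact Fin.ext (Nat.cast_injective (R := k) hij)
  choose K hK hK0 hKle using fun i : Fin q => hyp_le73 WA WB hd p hp (a i) (b i) (hab i)
  set cy := cy73 l₁ l₂ (dp73 l₁ P₁) (dp73 l₂ P₂) with hcy
  set C₂ : ℝ := ∑ i, gsum (fun v => K i v + cx73 P₁ P₂ v) with hC₂
  set C₅ : ℝ := r * gsum cy + gsum fun v : Pl k => ∑ a ∈ WA, (Real.log (ka73 v) + lm73 a v) + ∑ b ∈ WB, (Real.log (ka73 v) + lm73 b v)
    with hC₅
  have hT := T_pos73 (k := k)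
  have hr0 : 0 < r := by omega
  refine ⟨C₂, fun B => ?_⟩
  let bad : Fin q → k := fun i => -ev73 WA (-b i / a i) / ev73 WB (-b i / a i)
  obtain ⟨m₀, hm₀⟩ := exists_pow73 (Finset.univ.image bad)
  obtain ⟨m₁, hm₁⟩ := exists_nat_ge ((r * |B| + |C₅|) / T73 k)
  set m := m₀ + m₁ with hm
  set u : k := (2 : k) ^ m with hu
  have hu0 : u ≠ 0 := pow_ne_zero _ two_ne_zero
  have hubad := hm₀ m (Nat.le_add_right _ _)
  have hinjk := (algebraMap k (AlgebraicClosure k)).injective
  -- the roots
  set F : Polynomial k := pw73 WA + Polynomial.C u * pw73 WB with hF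
  obtain ⟨hF1, hF2⟩ := pF73 WA WB hA hB hu0
  have hF0 : F ≠ 0 := by
    intro h0
    rw [← hF, h0, Polynomial.natDegree_zero] at hF1
    omega
  obtain ⟨z, hz⟩ := roots73 (F.map (algebraMap k (AlgebraicClosure k))) (r := r) (by
    rw [Polynomial.natDegree_map_eq_of_injective hinjk]
    exact hF1)
  rw [Polynomial.leadingCoeff_map_of_injective hinjk, hF2] at hz
  have hzr : ∀ j, Polynomial.aeval (z j) F = 0 := by
    intro j
    rw [Polynomial.aeval_def, ← Polynomial.eval_map, hz, Polynomial.eval_mul, Polynomial.eval_prod,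
      Finset.prod_eq_zero (Finset.mem_univ j), mul_zero]
    simp
  have hzR : ∀ c : k, algebraMap k (AlgebraicClosure k) (ev73 WA c + u * ev73 WB c) =
      algebraMap k _ u * ∏ i, (algebraMap k _ c - z i) := by
    intro c
    have h1 : Polynomial.eval (algebraMap k (AlgebraicClosure k) c) (F.map (algebraMap k (AlgebraicClosure k))) =
        algebraMap k _ (ev73 WA c + u * ev73 WB c) := by
      rw [Polynomial.eval_map, Polynomial.eval₂_hom]
      congr 1
      rw [hF, Polynomial.eval_add, Polynomial.eval_mul, Polynomial.eval_C, pw_eval73, pw_eval73]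
    rw [← h1, hz, Polynomial.eval_mul, Polynomial.eval_C, Polynomial.eval_prod]
    congr 1
    exact Finset.prod_congr rfl fun i _ => by rw [Polynomial.eval_sub, Polynomial.eval_X, Polynomial.eval_C]
  -- the field
  have hfd0 : FiniteDimensional k (fld z) := FiniteDimensional.right ℚ k (fld z)
  have hfd : FiniteDimensional k (gal z) := by
    unfold gal
    infer_instance
  have hgal : IsGalois k (gal z) := by
    unfold gal
    infer_instance
  have hmem : ∀ j, z j ∈ gal z := by
    intro j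
    have h1 : fld z ≤ gal z := IntermediateField.le_normalClosure _
    exact h1 (IntermediateField.subset_adjoin k _ (Set.mem_range_self j))
  obtain ⟨M, inst, hQS, hdat⟩ := data_L73 (gal z)
  have hcard : (Fintype.card (gal z ≃ₐ[k] gal z) : ℝ) = finrank k (gal z) := by
    rw [← Nat.card_eq_fintype_card, IsGalois.card_aut_eq_finrank]
  have hpos : (0 : ℝ) < finrank k (gal z) := by exact_mod_cast (finrank_pos (R := k) (M := gal z))
  let Z : Fin r → gal z := fun j => ⟨z j, hmem j⟩
  have hZR : Rt73 WA WB u Z := by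
    intro c
    apply Subtype.ext
    have h1 := hzR c
    rw [IntermediateField.coe_mul, IntermediateField.coe_prod]
    exact h1
  have hinjg := (algebraMap k (gal z)).injective
  have hne : ∀ i j, Z j * algebraMap k (gal z) (a i) + algebraMap k (gal z) (b i) ≠ 0 := by
    intro i j h0
    rcases hab i with ⟨hai, hbi⟩ | ⟨hai, -⟩
    · have hai1 : a i = 0 := hai
      rw [hai1, map_zero, mul_zero, zero_add, map_eq_zero_iff _ hinjg] at h0
      exact hbi h0
    · have hai' : algebraMap k (gal z) (a i) ≠ 0 := (map_ne_zero _).2 hai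
      have h1 : Z j = algebraMap k (gal z) (-b i / a i) := by
        rw [map_div₀, map_neg]
        field_simp
        linear_combination h0
      have h2 := hZR (-b i / a i)
      rw [Finset.prod_eq_zero (Finset.mem_univ j) (by rw [h1, sub_self]), mul_zero, map_eq_zero_iff _ hinjg] at h2
      by_cases h3 : -b i / a i ∈ WB
      · rw [ev_eq73 WB _ h3, mul_zero, add_zero] at h2
        exact ev_ne73 WA _ (fun h => Finset.disjoint_left.1 hd h h3) h2
      · have h4 := ev_ne73 WB _ h3
        apply hubad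
        rw [Finset.mem_image]
        refine ⟨i, Finset.mem_univ i, ?_⟩
        show -ev73 WA (-b i / a i) / ev73 WB (-b i / a i) = u
        rw [div_eq_iff h4]
        linear_combination -h2
  -- the point
  let j : Fin r := ⟨0, hr0⟩
  obtain ⟨i₀, hi₀⟩ : ∃ i₀, Z j * algebraMap k (gal z) (P₁ i₀) + algebraMap k (gal z) (P₂ i₀) ≠ 0 := by
    by_contra hcon
    push Not at hcon
    have h1 : Z j * algebraMap k (gal z) (dp73 l₂ P₁) + algebraMap k (gal z) (dp73 l₂ P₂) = 0 := by
      unfold dp73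
      rw [map_sum, map_sum, Finset.mul_sum, ← Finset.sum_add_distrib]
      refine Finset.sum_eq_zero fun i _ => ?_
      rw [map_mul, map_mul]
      linear_combination (algebraMap k (gal z) (l₂ i)) * hcon i
    rw [h21, map_zero, mul_zero, zero_add, map_eq_zero_iff _ hinjg] at h1
    exact h22 h1
  let t : gal z := (Z j * algebraMap k (gal z) (P₁ i₀) + algebraMap k (gal z) (P₂ i₀))⁻¹
  have ht : t ≠ 0 := inv_ne_zero hi₀
  let y : Fin (n + 1) → gal z := fun i => t * (Z j * algebraMap k (gal z) (P₁ i) + algebraMap k (gal z) (P₂ i))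
  have hy : ∀ i, y i = t * (Z j * algebraMap k (gal z) (P₁ i) + algebraMap k (gal z) (P₂ i)) := fun i => rfl
  have hy1 : ∃ i, y i = 1 := ⟨i₀, inv_mul_cancel₀ hi₀⟩
  let x : Fin (n + 1) → AlgebraicClosure k := fun i => (y i : AlgebraicClosure k)
  have hx1 : ∃ i, x i = 1 := by
    obtain ⟨i, hi⟩ := hy1
    refine ⟨i, ?_⟩
    show (y i : AlgebraicClosure k) = 1
    rw [hi]
    rfl
  have hxf : ∀ i, x i = (z j * algebraMap k _ (P₁ i₀) + algebraMap k _ (P₂ i₀))⁻¹ *
      (z j * algebraMap k _ (P₁ i) + algebraMap k _ (P₂ i)) := fun i => rfl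
  have hdeg : dg x ≤ r := by
    refine dg_le73 x (z j) F hF0 hF1 (hzr j) fun i => ?_
    have hzm : z j ∈ IntermediateField.adjoin k {z j} := IntermediateField.mem_adjoin_simple_self k (z j)
    rw [hxf]
    exact mul_mem (inv_mem (add_mem (mul_mem hzm (algebraMap_mem _ _)) (algebraMap_mem _ _)))
      (add_mem (mul_mem hzm (algebraMap_mem _ _)) (algebraMap_mem _ _))
  have hlv : ∀ i, lvg (l i) y = t * (Z j * algebraMap k (gal z) (a i) + algebraMap k (gal z) (b i)) := fun i =>
    lvg_pt73 (l i) P₁ P₂ t (Z j) y hy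
  have hlv0 : ∀ i, lvg (l i) y ≠ 0 := by
    intro i
    rw [hlv]
    exact mul_ne_zero ht (hne i j)
  have hval : ∀ i, val (l i) x ≠ 0 := by
    intro i h0
    have h1 : ((val (l i) x : fld x) : AlgebraicClosure k) = ((lvg (l i) y : gal z) : AlgebraicClosure k) := by
      unfold val lvg
      rw [← IntermediateField.algebraMap_apply, ← IntermediateField.algebraMap_apply, map_sum, map_sum]
      refine Finset.sum_congr rfl fun i' _ => ?_
      rw [map_mul, map_mul, ← IsScalarTower.algebraMap_apply, ← IsScalarTower.algebraMap_apply]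
      rfl
    rw [h0] at h1
    exact hlv0 i (Subtype.ext h1.symm)
  obtain ⟨hd1, hd2⟩ := hdat n x y hx1 fun i => rfl
  refine ⟨x, hx1, ⟨(z j * algebraMap k _ (P₁ i₀) + algebraMap k _ (P₂ i₀))⁻¹ * z j,
    (z j * algebraMap k _ (P₁ i₀) + algebraMap k _ (P₂ i₀))⁻¹, fun i => by rw [hxf]; ring⟩, hdeg, hval, ?_, ?_⟩
  · have e2 := height_ge73 hQS P₁ P₂ WA WB (r := r) (by omega) hB.le (u := u) (Z j) t (by
      have h1 := hzr j
      rw [hF, map_add, map_mul, Polynomial.aeval_C, pw_aeval73, pw_aeval73] at h1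
      have h2 : (gal z).val (∏ a ∈ WA, (Z j - algebraMap k (gal z) a) + algebraMap k (gal z) u *
          ∏ b ∈ WB, (Z j - algebraMap k (gal z) b)) = 0 := by
        rw [map_add, map_mul, map_prod, map_prod]
        exact h1
      exact Subtype.ext h2) (by
      intro h0
      obtain ⟨b', hb', h1⟩ := Finset.prod_eq_zero_iff.1 h0
      have h2 := hZR b'
      rw [ev_eq73 WB b' hb', mul_zero, add_zero, Finset.prod_eq_zero (Finset.mem_univ j) (by rw [← neg_sub, h1, neg_zero]),
        mul_zero, map_eq_zero_iff _ hinjg] at h2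
      exact ev_ne73 WA b' (fun h => Finset.disjoint_left.1 hd h hb') h2) ht y hy hy1 l₁ l₂ h12 h21 h11 h22
    have hgs : gsum (lm73 u) = m * T73 k := gsum_lm73 m
    rw [hcard, hgs, ← hd1] at e2
    have f2 : m * T73 k ≤ r * hgt x + C₅ := by
      refine le_of_mul_le_mul_left (e2.trans (le_of_eq ?_)) hpos
      rw [hC₅, hcy]
      ring
    have h1 : (r * |B| + |C₅|) / T73 k ≤ m := hm₁.trans (by rw [hm]; push_cast; have : (0 : ℝ) ≤ m₀ := Nat.cast_nonneg _; linarith)
    rw [div_le_iff₀ hT] at h1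
    have h3 := le_abs_self C₅
    have h4 : (r : ℝ) * |B| ≤ r * hgt x := by linarith
    have h5 : (0 : ℝ) < r := by exact_mod_cast hr0
    exact (le_abs_self B).trans (le_of_mul_le_mul_left h4 h5)
  · have hcx0 : ∀ v, 0 ≤ cx73 P₁ P₂ v := fun v => add_nonneg (lka_nonneg73 v)
      (Finset.sum_nonneg fun j _ => add_nonneg (lm_nonneg73 _ _) (lm_nonneg73 _ _))
    have h1 : ∀ i, hgt x ≤ ∑ v ∈ S, lam (l i) v x + gsum (fun v => K i v + cx73 P₁ P₂ v) := by
      intro i
      have F1 : FinS fun v => ∑ g : gal z ≃ₐ[k] gal z, Real.log (mxn (M v) fun a => g (y a)) := Hg_finS hQS y hy1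
      have F2 : FinS fun v => ∑ g : gal z ≃ₐ[k] gal z, Real.log (M v (g (lvg (l i) y))) :=
        FinS.sum _ fun g _ => hQS.fin _ ((map_ne_zero g).2 (hlv0 i))
      have FK : FinS fun v => K i v + cx73 P₁ P₂ v := (hK i).add (finS_cx73 P₁ P₂)
      have h2 := gsum_le_S73 (F1.add F2.neg) (FK.const_mul (finrank k (gal z) : ℝ))
        (fun v => mul_nonneg hpos.le (add_nonneg (hK0 i v) (hcx0 v))) S (fun v hv => by
          have h3 : ∀ g : gal z ≃ₐ[k] gal z, Real.log (mxn (M v) fun a => g (y a)) + - Real.log (M v (g (lvg (l i) y))) ≤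
              K i v + cx73 P₁ P₂ v := by
            intro g
            have h4 := hQS.av73 v g
            have h5 := hKle i v (gal z) _ h4 u Z hu0 hZR (hne i) j
            have h6 := px_le73 h4 P₁ P₂ ht (Z j) y hy hy1
            rw [th_zero73 WA WB (a i) (b i) u v (hS v hv m).1 (hS v hv m).2, zero_add] at h5
            have h7 := h4.mul t (Z j * algebraMap k (gal z) (a i) + algebraMap k (gal z) (b i))
            have h8 : Real.log (M v (g (lvg (l i) y))) = Real.log (M v (g t)) +
                Real.log (M v (g (Z j * algebraMap k (gal z) (a i) + algebraMap k (gal z) (b i)))) := by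
              rw [hlv]
              refine (congrArg Real.log h7).trans ?_
              exact Real.log_mul (h4.pos _ ht).ne' (h4.pos _ (hne i j)).ne'
            rw [h8]
            have h9 : Real.log (mxn (M v) fun a => g (y a)) ≤ Real.log (max 1 (M v (g (Z j)))) + Real.log (M v (g t)) +
              cx73 P₁ P₂ v := h6
            have h10 : Real.log (max 1 (M v (g (Z j)))) - Real.log (M v (g (Z j * algebraMap k (gal z) (a i) +
              algebraMap k (gal z) (b i)))) ≤ K i v := h5
            linarith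
          have h4 := Finset.sum_le_sum fun g (_ : g ∈ (Finset.univ : Finset (gal z ≃ₐ[k] gal z))) => h3 g
          rw [Finset.sum_add_distrib, Finset.sum_neg_distrib, Finset.sum_const, Finset.card_univ, nsmul_eq_mul, hcard] at h4
          exact h4)
      rw [gsum_add F1 F2.neg, gsum_neg, gsum_const_mul] at h2
      have h3 : gsum (fun v => ∑ g : gal z ≃ₐ[k] gal z, Real.log (M v (g (lvg (l i) y)))) = 0 := hQS.prod _ (hlv0 i)
      rw [h3, neg_zero, add_zero] at h2
      have h4 : (finrank k (gal z) : ℝ) * hgt x = gsum fun v => ∑ g : gal z ≃ₐ[k] gal z, Real.log (mxn (M v) fun a => g (y a)) := hd1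
      rw [← h4] at h2
      have h5 : ∑ v ∈ S, (∑ g : gal z ≃ₐ[k] gal z, Real.log (mxn (M v) fun a => g (y a)) +
          -∑ g : gal z ≃ₐ[k] gal z, Real.log (M v (g (lvg (l i) y)))) = finrank k (gal z) * ∑ v ∈ S, lam (l i) v x := by
        rw [Finset.mul_sum]
        refine Finset.sum_congr rfl fun v _ => ?_
        rw [hd2 v (l i) (hval i), Finset.sum_sub_distrib]
        ring
      rw [h5, ← mul_add] at h2
      exact le_of_mul_le_mul_left h2 hpos
    have h2 := Finset.sum_le_sum fun i (_ : i ∈ (Finset.univ : Finset (Fin q))) => h1 i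
    rw [Finset.sum_const, Finset.card_univ, Fintype.card_fin, nsmul_eq_mul, Finset.sum_add_distrib, ← hC₂, Finset.sum_comm] at h2
    linarith

private theorem dp_single73 {n : ℕ} (i : Fin (n + 1)) (c : k) (P : Fin (n + 1) → k) : dp73 (Pi.single i c) P = c * P i := by
  classical
  unfold dp73
  rw [Finset.sum_eq_single i]
  · rw [Pi.single_eq_same]
  · intro b _ hb
    rw [Pi.single_eq_of_ne hb, zero_mul]
  · intro h
    exact absurd (Finset.mem_univ i) h

private theorem dp_sub73 {n : ℕ} (m m' P : Fin (n + 1) → k) : dp73 (m - m') P = dp73 m P - dp73 m' P := by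
  unfold dp73
  rw [← Finset.sum_sub_distrib]
  exact Finset.sum_congr rfl fun j _ => by rw [Pi.sub_apply, sub_mul]

private theorem dp_comb73 {n : ℕ} (m P₁ P₂ : Fin (n + 1) → k) (c d : k) :
    dp73 m (fun j => c * P₁ j + d * P₂ j) = c * dp73 m P₁ + d * dp73 m P₂ := by
  unfold dp73
  rw [Finset.mul_sum, Finset.mul_sum, ← Finset.sum_add_distrib]
  exact Finset.sum_congr rfl fun j _ => by ring

/-- A line which meets the hyperplanes in at most `2 r` points (which are then `k`-rational) carries points of degree at most `r` outside the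
hyperplanes, of unbounded height, with `∑_S λ ≥ q h - C`; `S` is any finite set containing the archimedean places and those above `2`. -/
theorem line2r_S {n q r : ℕ} (hr : 1 ≤ r) (l : Fin q → Fin (n + 1) → k) (P₁ P₂ : Fin (n + 1) → k)
    (hP : LinearIndependent k ![P₁, P₂]) (h0 : ∀ i, ∑ j, l i j * P₁ j ≠ 0 ∨ ∑ j, l i j * P₂ j ≠ 0)
    (W : Finset (Fin q)) (hW : W.card ≤ 2 * r)
    (hWD : ∀ i, ∃ j ∈ W, (∑ a, l i a * P₁ a) * (∑ a, l j a * P₂ a) = (∑ a, l j a * P₁ a) * (∑ a, l i a * P₂ a))
    (S : Finset (Pl k)) (hS : ∀ v, v ∉ S → nv v (2 : k) = 1) :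
    ∃ C : ℝ, ∀ B : ℝ, ∃ x : Fin (n + 1) → AlgebraicClosure k, (∃ j, x j = 1) ∧
      (∃ s t : AlgebraicClosure k, ∀ j, x j = s * algebraMap k _ (P₁ j) + t * algebraMap k _ (P₂ j)) ∧ dg x ≤ r ∧
      (∀ i, val (l i) x ≠ 0) ∧ B ≤ hgt x ∧ q * hgt x - C ≤ ∑ ν ∈ S, ∑ i, lam (l i) ν x := by
  classical
  have h0' : ∀ i, dp73 (l i) P₁ ≠ 0 ∨ dp73 (l i) P₂ ≠ 0 := h0
  have hWD' : ∀ i, ∃ j ∈ W, dp73 (l i) P₁ * dp73 (l j) P₂ = dp73 (l j) P₁ * dp73 (l i) P₂ := hWD
  -- a minor
  obtain ⟨i', j', hij⟩ : ∃ i' j', P₁ i' * P₂ j' - P₁ j' * P₂ i' ≠ 0 := by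
    by_contra hcon
    push Not at hcon
    rw [LinearIndependent.pair_iff] at hP
    have h1 : ∀ j, P₂ j = 0 := by
      intro j
      refine (hP (P₂ j) (-P₁ j) ?_).1
      funext i
      rw [Pi.add_apply, Pi.smul_apply, Pi.smul_apply, smul_eq_mul, smul_eq_mul, Pi.zero_apply]
      linear_combination hcon i j
    have h2 := (hP 0 1 (by
      funext i
      rw [Pi.add_apply, Pi.smul_apply, Pi.smul_apply, smul_eq_mul, smul_eq_mul, Pi.zero_apply, h1]
      ring)).2
    exact one_ne_zero h2
  -- coordinates with the point at infinity in the divisor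
  obtain ⟨α, β, γ, δ, hdet, hcard⟩ : ∃ α β γ δ : k, α * δ - β * γ ≠ 0 ∧
      (W.filter fun j => α * dp73 (l j) P₁ + β * dp73 (l j) P₂ ≠ 0).card ≤ 2 * r - 1 := by
    by_cases hq : ∃ i₀ : Fin q, True
    · obtain ⟨i₀, -⟩ := hq
      obtain ⟨j₀, hj₀, hj⟩ := hWD' i₀
      have hlt : (W.filter fun j => dp73 (l i₀) P₂ * dp73 (l j) P₁ + (-dp73 (l i₀) P₁) * dp73 (l j) P₂ ≠ 0).card ≤ 2 * r - 1 := by
        have h1 : (W.filter fun j => dp73 (l i₀) P₂ * dp73 (l j) P₁ + (-dp73 (l i₀) P₁) * dp73 (l j) P₂ ≠ 0) ⊆ W.erase j₀ := by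
          intro j hj'
          obtain ⟨h2, h3⟩ := Finset.mem_filter.1 hj'
          refine Finset.mem_erase.2 ⟨?_, h2⟩
          rintro rfl
          apply h3
          linear_combination -hj
        have h2 := Finset.card_le_card h1
        rw [Finset.card_erase_of_mem hj₀] at h2
        omega
      rcases h0' i₀ with h | h
      · exact ⟨dp73 (l i₀) P₂, -dp73 (l i₀) P₁, 1, 0, by simpa using h, hlt⟩
      · exact ⟨dp73 (l i₀) P₂, -dp73 (l i₀) P₁, 0, 1, by simpa using h, hlt⟩
    · refine ⟨1, 0, 0, 1, by simp, ?_⟩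
      have h1 : W = ∅ := by
        rw [Finset.eq_empty_iff_forall_notMem]
        intro j _
        exact hq ⟨j, trivial⟩
      rw [h1]
      simp
  set Q₁ : Fin (n + 1) → k := fun j => α * P₁ j + β * P₂ j with hQ₁
  set Q₂ : Fin (n + 1) → k := fun j => γ * P₁ j + δ * P₂ j with hQ₂
  have d1 : ∀ i, dp73 (l i) Q₁ = α * dp73 (l i) P₁ + β * dp73 (l i) P₂ := fun i => dp_comb73 _ _ _ _ _
  have d2 : ∀ i, dp73 (l i) Q₂ = γ * dp73 (l i) P₁ + δ * dp73 (l i) P₂ := fun i => dp_comb73 _ _ _ _ _
  have hminor : Q₁ i' * Q₂ j' - Q₁ j' * Q₂ i' ≠ 0 := by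
    have h1 : Q₁ i' * Q₂ j' - Q₁ j' * Q₂ i' = (α * δ - β * γ) * (P₁ i' * P₂ j' - P₁ j' * P₂ i') := by
      show (α * P₁ i' + β * P₂ i') * (γ * P₁ j' + δ * P₂ j') - (α * P₁ j' + β * P₂ j') * (γ * P₁ i' + δ * P₂ i') = _
      ring
    rw [h1]
    exact mul_ne_zero hdet hij
  have hQ0 : ∀ i, dp73 (l i) Q₁ = 0 → dp73 (l i) Q₂ ≠ 0 := by
    intro i h1 h2
    rw [d1] at h1
    rw [d2] at h2
    have h3 : (α * δ - β * γ) * dp73 (l i) P₁ = 0 := by linear_combination δ * h1 - β * h2
    have h4 : (α * δ - β * γ) * dp73 (l i) P₂ = 0 := by linear_combination α * h2 - γ * h1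
    rcases h0' i with h | h
    · exact h ((mul_eq_zero.1 h3).resolve_left hdet)
    · exact h ((mul_eq_zero.1 h4).resolve_left hdet)
  have hQW : ∀ i, ∃ j ∈ W, dp73 (l i) Q₁ * dp73 (l j) Q₂ = dp73 (l j) Q₁ * dp73 (l i) Q₂ := by
    intro i
    obtain ⟨j, hj, h1⟩ := hWD' i
    refine ⟨j, hj, ?_⟩
    rw [d1, d2, d1, d2]
    linear_combination (α * δ - β * γ) * h1
  -- the points
  let V₀ : Finset k := (W.filter fun j => α * dp73 (l j) P₁ + β * dp73 (l j) P₂ ≠ 0).image fun j => -dp73 (l j) Q₂ / dp73 (l j) Q₁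
  have hV₀ : ∀ i, dp73 (l i) Q₁ ≠ 0 → -dp73 (l i) Q₂ / dp73 (l i) Q₁ ∈ V₀ := by
    intro i hi
    obtain ⟨j, hj, h1⟩ := hQW i
    have hj0 : dp73 (l j) Q₁ ≠ 0 := by
      intro h2
      rw [h2, zero_mul] at h1
      exact hQ0 j h2 ((mul_eq_zero.1 h1).resolve_left hi)
    refine Finset.mem_image.2 ⟨j, Finset.mem_filter.2 ⟨hj, ?_⟩, ?_⟩
    · rw [← d1]
      exact hj0
    · rw [div_eq_div_iff hj0 hi]
      linear_combination -h1
  have hinf : Infinite k := by
    have : CharZero k := inferInstance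
    infer_instance
  obtain ⟨V, hV, hVc⟩ := Infinite.exists_superset_card_eq V₀ (2 * r - 1) (Finset.card_image_le.trans hcard)
  obtain ⟨WA, hWA, hWAc⟩ := Finset.exists_subset_card_eq (s := V) (n := r - 1) (by omega)
  have hWBc : (V \ WA).card = r := by
    rw [Finset.card_sdiff_of_subset hWA, hVc, hWAc]
    omega
  obtain ⟨C, hC⟩ := line_aux73 (S := S) (by
    intro v hv m
    have h1 := hS v hv
    have h2 : nv v ((2 : k) ^ m) = 1 := by rw [nv_pow73, h1, one_pow]
    unfold lm73
    rw [h2, max_self, Real.log_one]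
    exact ⟨rfl, rfl⟩) l Q₁ Q₂ (Pi.single i' (Q₂ j') - Pi.single j' (Q₂ i')) (Pi.single i' (Q₁ j') - Pi.single j' (Q₁ i'))
    (by rw [dp_sub73, dp_single73, dp_single73]; ring)
    (by rw [dp_sub73, dp_single73, dp_single73]; ring)
    (by
      rw [dp_sub73, dp_single73, dp_single73]
      intro h
      apply hminor
      linear_combination h)
    (by
      rw [dp_sub73, dp_single73, dp_single73]
      intro h
      apply hminor
      linear_combination -h)
    WA (V \ WA) Finset.disjoint_sdiff (by omega) hWBc (by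
      intro i
      by_cases h1 : dp73 (l i) Q₁ = 0
      · exact Or.inl ⟨h1, hQ0 i h1⟩
      · refine Or.inr ⟨h1, ?_⟩
        by_cases h2 : -dp73 (l i) Q₂ / dp73 (l i) Q₁ ∈ WA
        · exact Or.inl h2
        · exact Or.inr (Finset.mem_sdiff.2 ⟨hV (hV₀ i h1), h2⟩))
  refine ⟨C, fun B => ?_⟩
  obtain ⟨x, hx1, ⟨s, t, hst⟩, hrest⟩ := hC B
  refine ⟨x, hx1, ⟨s * algebraMap k _ α + t * algebraMap k _ γ, s * algebraMap k _ β + t * algebraMap k _ δ, fun j => ?_⟩, hrest⟩
  rw [hst j]
  show s * algebraMap k _ (α * P₁ j + β * P₂ j) + t * algebraMap k _ (γ * P₁ j + δ * P₂ j) = _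
  simp only [map_add, map_mul]
  ring

/-- a line which meets the hyperplanes in at most `2 r` points -/
theorem line2r {n q r : ℕ} (hr : 1 ≤ r) (l : Fin q → Fin (n + 1) → k) (P₁ P₂ : Fin (n + 1) → k)
    (hP : LinearIndependent k ![P₁, P₂]) (h0 : ∀ i, ∑ j, l i j * P₁ j ≠ 0 ∨ ∑ j, l i j * P₂ j ≠ 0)
    (W : Finset (Fin q)) (hW : W.card ≤ 2 * r)
    (hWD : ∀ i, ∃ j ∈ W, (∑ a, l i a * P₁ a) * (∑ a, l j a * P₂ a) = (∑ a, l j a * P₁ a) * (∑ a, l i a * P₂ a)) :
    ∃ (S : Finset (Pl k)) (C : ℝ), ∀ B : ℝ, ∃ x : Fin (n + 1) → AlgebraicClosure k, (∃ j, x j = 1) ∧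
      (∃ s t : AlgebraicClosure k, ∀ j, x j = s * algebraMap k _ (P₁ j) + t * algebraMap k _ (P₂ j)) ∧ dg x ≤ r ∧
      (∀ i, val (l i) x ≠ 0) ∧ B ≤ hgt x ∧ q * hgt x - C ≤ ∑ ν ∈ S, ∑ i, lam (l i) ν x := by
  classical
  have hf : FinS fun v => Real.log (nv v (2 : k)) := finS_nv two_ne_zero
  have hf' : (Function.support fun v : FinitePlace k => Real.log (nv (.inr v) (2 : k))).Finite := hf
  refine ⟨Finset.univ.disjSum hf'.toFinset, line2r_S hr l P₁ P₂ hP h0 W hW hWD _ fun v hv => ?_⟩
  rcases v with v | v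
  · exact absurd (Finset.inl_mem_disjSum.2 (Finset.mem_univ v)) hv
  · have h1 : Real.log (nv (.inr v : Pl k) (2 : k)) = 0 := by
      by_contra h2
      exact hv (Finset.inr_mem_disjSum.2 ((Set.Finite.mem_toFinset _).2 h2))
    have h3 : 0 < nv (.inr v : Pl k) (2 : k) := nv_pos _ two_ne_zero
    rcases Real.log_eq_zero.1 h1 with h4 | h4 | h4
    · linarith
    · exact h4
    · linarith

end

end Pool.Agent.SQ
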