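import Pool.Agent.Helper42.SQ.GDefs
import Pool.Agent.Helper17.FIN.Three

/-!
# SQ, block PHI: generic forms have no `Bad` subspaces

`phi_generic`: for algebraically independent `l` the sum of the costs is at most the dimension of the Grassmannian: `N` has an echelon basis
with `p (n + 1 - p)` parameters, the space `Ut l N i` is the set of zeros of `cost l N i` independent forms over the field generated by the
parameters and the `l j`, `j < i`, so `cost l N i` coordinates of `l i` depend on the others. Elimination gives the polynomial.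
-/

set_option autoImplicit false

namespace Pool.Agent.SQ

open Module MvPolynomial

universe u

/-- Vectors orthogonal to all vectors over `F` which are orthogonal to `S` are in the span of `S`, if `S` has coordinates in `F`. -/
private theorem phi_dual {K : Type*} [Field K] (F : Subfield K) {m : ℕ} (S : Set (Fin m → K)) (hS : ∀ s ∈ S, ∀ j, s j ∈ F)
    (x : Fin m → K) (hx : ∀ y : Fin m → K, (∀ j, y j ∈ F) → (∀ s ∈ S, ∑ j, y j * s j = 0) → ∑ j, y j * x j = 0) :
    x ∈ Submodule.span K S := by
  classical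
  let T : Set (Fin m → F) := {t | (fun j => (t j : K)) ∈ S}
  obtain ⟨W, hW⟩ := Submodule.exists_isCompl (Submodule.span F T)
  let P : (Fin m → F) →ₗ[F] (Fin m → F) :=
    (Submodule.subtype _).comp (Submodule.projectionOnto _ _ hW)
  have hP1 : ∀ t ∈ T, P t = t := by
    intro t ht
    have h1 := Submodule.projectionOnto_apply_left hW (⟨t, Submodule.subset_span ht⟩ : Submodule.span F T)
    exact congrArg (fun z : Submodule.span F T => (z : Fin m → F)) h1
  have hP2 : ∀ t, P t ∈ Submodule.span F T := fun t => (Submodule.projectionOnto _ _ hW t).2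
  have hcoe : ∀ t ∈ Submodule.span F T, (fun j => (t j : K)) ∈ Submodule.span K S := by
    intro t ht
    induction ht using Submodule.span_induction with
    | mem t ht => exact Submodule.subset_span ht
    | zero =>
      have : (fun j => (((0 : Fin m → F) j : F) : K)) = 0 := by
        funext j
        simp
      rw [this]
      exact Submodule.zero_mem _
    | add a b _ _ ha hb =>
      have : (fun j => (((a + b) j : F) : K)) = (fun j => (a j : K)) + fun j => (b j : K) := by
        funext j
        simp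
      rw [this]
      exact Submodule.add_mem _ ha hb
    | smul c a _ ha =>
      have : (fun j => (((c • a) j : F) : K)) = (c : K) • fun j => (a j : K) := by
        funext j
        simp
      rw [this]
      exact Submodule.smul_mem _ _ ha
  -- the rows of `1 - P`
  have hrow : ∀ t : Fin m → F, ∀ i, P t i = ∑ j, t j * P (Pi.single j 1) i := by
    intro t i
    have h1 : t = ∑ j, t j • (Pi.single j (1 : F) : Fin m → F) := by
      funext a
      simp [Finset.sum_apply, Pi.single_apply]
    conv_lhs => rw [h1]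
    rw [map_sum, Finset.sum_apply]
    refine Finset.sum_congr rfl fun j _ => ?_
    rw [map_smul]
    rfl
  have hxi : ∀ i, x i = ∑ j, x j * ((P (Pi.single j 1) i : F) : K) := by
    intro i
    have h1 := hx (fun j => (if j = i then 1 else 0) - ((P (Pi.single j 1) i : F) : K))
      (fun j => F.sub_mem (by split_ifs; exacts [F.one_mem, F.zero_mem]) (P (Pi.single j 1) i).2) (by
        intro s hs
        have h2 : (fun j => (⟨s j, hS s hs j⟩ : F)) ∈ T := hs
        have h3 := hrow (fun j => (⟨s j, hS s hs j⟩ : F)) i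
        rw [hP1 _ h2] at h3
        have h4 := congrArg (F.subtype) h3
        rw [map_sum] at h4
        simp only [map_mul] at h4
        simp only [sub_mul, Finset.sum_sub_distrib, ite_mul, one_mul, zero_mul, Finset.sum_ite_eq', Finset.mem_univ,
          if_true]
        rw [sub_eq_zero]
        refine h4.trans (Finset.sum_congr rfl fun j _ => mul_comm _ _))
    simp only [sub_mul, Finset.sum_sub_distrib, ite_mul, one_mul, zero_mul, Finset.sum_ite_eq', Finset.mem_univ,
      if_true] at h1
    rw [sub_eq_zero] at h1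
    exact h1.trans (Finset.sum_congr rfl fun j _ => mul_comm _ _)
  have hx' : x = ∑ j, x j • fun i => ((P (Pi.single j 1) i : F) : K) := by
    funext i
    rw [Finset.sum_apply]
    exact hxi i
  rw [hx']
  exact Submodule.sum_mem _ fun j _ => Submodule.smul_mem _ _ (hcoe _ (hP2 _))

/-- the values at the vectors `y c` -/
private noncomputable def phiEv {K : Type*} [Field K] {m : ℕ} {ι : Type*} (y : ι → Fin m → K) : (Fin m → K) →ₗ[K] (ι → K) where
  toFun x := fun c => ∑ j, y c j * x j
  map_add' a b := by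
    funext c
    simp [mul_add, Finset.sum_add_distrib]
  map_smul' r a := by
    funext c
    simp only [Pi.smul_apply, smul_eq_mul, RingHom.id_apply, Finset.mul_sum]
    exact Finset.sum_congr rfl fun j _ => by ring

private theorem phi_ut_le {K : Type*} [Field K] {n q : ℕ} (l : Fin q → Fin (n + 1) → K) (N : Submodule K (Fin (n + 1) → K))
    (i : Fin q) (J : Finset (Fin q)) (h : (∀ j ∈ J, j < i) ∧ l i ∈ spJ l N J) : Ut l N i ≤ spJ l N J := by
  unfold Ut
  exact iInf₂_le J h

/-- `cost l N i` independent forms over `F`, each of them zero on one of the spaces which define `Ut l N i` -/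
private theorem phi_fam {K : Type*} [Field K] {n q : ℕ} (l : Fin q → Fin (n + 1) → K) (N : Submodule K (Fin (n + 1) → K))
    (F : Subfield K) (S : Set (Fin (n + 1) → K)) (hS : ∀ s ∈ S, ∀ j, s j ∈ F) (hN : N = Submodule.span K S) (i : Fin q)
    (hl : ∀ j < i, ∀ c, l j c ∈ F) :
    ∃ (y : Fin (cost l N i) → Fin (n + 1) → K) (J : Fin (cost l N i) → Finset (Fin q)), LinearIndependent K y ∧
      (∀ c j, y c j ∈ F) ∧ ∀ c, (∀ j ∈ J c, j < i) ∧ l i ∈ spJ l N (J c) ∧ ∀ s ∈ spJ l N (J c), ∑ j, y c j * s j = 0 := by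
  classical
  let Y : Set (Fin (n + 1) → K) := {y | (∀ j, y j ∈ F) ∧ ∃ J : Finset (Fin q), (∀ j ∈ J, j < i) ∧ l i ∈ spJ l N J ∧
    ∀ s ∈ spJ l N J, ∑ j, y j * s j = 0}
  have h4 := Submodule.exists_fun_fin_finrank_span_eq K Y
  generalize finrank K (Submodule.span K Y) = r at h4
  obtain ⟨y, hy1, hspan, hy3⟩ := h4
  have hle : LinearMap.ker (phiEv y) ≤ Ut l N i := by
    intro x hx
    rw [LinearMap.mem_ker] at hx
    have hx1 : ∀ c, ∑ j, y c j * x j = 0 := fun c => congrFun hx c
    have hx2 : ∀ z ∈ Y, ∑ j, z j * x j = 0 := by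
      intro z hz
      have hz' : z ∈ Submodule.span K (Set.range y) := by
        rw [hspan]
        exact Submodule.subset_span hz
      rw [Submodule.mem_span_range_iff_exists_fun] at hz'
      obtain ⟨c, rfl⟩ := hz'
      have : ∀ j, (∑ a, c a • y a) j * x j = ∑ a, c a * (y a j * x j) := by
        intro j
        rw [Finset.sum_apply, Finset.sum_mul]
        exact Finset.sum_congr rfl fun a _ => by simp [mul_assoc]
      rw [Finset.sum_congr rfl fun j _ => this j, Finset.sum_comm]
      refine Finset.sum_eq_zero fun a _ => ?_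
      rw [← Finset.mul_sum, hx1, mul_zero]
    unfold Ut
    rw [Submodule.mem_iInf]
    intro J
    rw [Submodule.mem_iInf]
    intro hJ
    have h5 : spJ l N J = Submodule.span K (S ∪ l '' (J : Set (Fin q))) := by
      unfold spJ
      rw [hN, ← Submodule.span_union]
    rw [h5]
    refine phi_dual F _ ?_ x fun z hz hz' => hx2 z ⟨hz, J, hJ.1, hJ.2, ?_⟩
    · rintro s (hs | ⟨j, hj, rfl⟩)
      · exact hS s hs
      · exact hl j (hJ.1 j hj)
    · intro s hs
      rw [h5] at hs
      induction hs using Submodule.span_induction with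
      | mem s hs => exact hz' s hs
      | zero => simp
      | add a b _ _ ha hb =>
        have : ∑ j, z j * (a + b) j = ∑ j, z j * a j + ∑ j, z j * b j := by
          rw [← Finset.sum_add_distrib]
          exact Finset.sum_congr rfl fun j _ => by rw [Pi.add_apply, mul_add]
        rw [this, ha, hb, add_zero]
      | smul c a _ ha =>
        have : ∑ j, z j * (c • a) j = c * ∑ j, z j * a j := by
          rw [Finset.mul_sum]
          exact Finset.sum_congr rfl fun j _ => by rw [Pi.smul_apply, smul_eq_mul]; ring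
        rw [this, ha, mul_zero]
  have hcost : cost l N i ≤ r := by
    have h5 := LinearMap.finrank_range_add_finrank_ker (phiEv y)
    have h6 : finrank K (LinearMap.range (phiEv y)) ≤ r := by
      have := Submodule.finrank_le (LinearMap.range (phiEv y))
      rwa [finrank_fin_fun] at this
    have h7 := Submodule.finrank_mono hle
    rw [finrank_fin_fun] at h5
    unfold cost
    omega
  choose J hJ using fun c => (hy1 c).2
  exact ⟨y ∘ Fin.castLE hcost, J ∘ Fin.castLE hcost, hy3.comp _ (Fin.castLE_injective hcost), fun c => (hy1 _).1,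
    fun c => hJ _⟩

/-- an echelon basis -/
private theorem phi_echelon {K : Type*} [Field K] {n p : ℕ} (b : Fin p → Fin (n + 1) → K) (hb : LinearIndependent K b) :
    ∃ (C : Fin p → Fin (n + 1) → K) (s : Finset (Fin p × Fin (n + 1))), s.card = p * (n + 1 - p) ∧
      Submodule.span K (Set.range C) = Submodule.span K (Set.range b) ∧ ∀ a j, (a, j) ∉ s → C a j = 0 ∨ C a j = 1 := by
  classical
  obtain ⟨e, he⟩ := Pool.Agent.FIN.minor17 b hb
  have hinj : Function.Injective e := by
    intro a a' haa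
    by_contra hne
    exact he (Matrix.det_zero_of_column_eq hne fun i => by
      simp only [Matrix.of_apply]
      rw [haa])
  set M : Matrix (Fin p) (Fin p) K := Matrix.of fun a a' => b a (e a') with hM
  have hu : IsUnit M.det := isUnit_iff_ne_zero.2 he
  set C : Matrix (Fin p) (Fin (n + 1)) K := M⁻¹ * Matrix.of b with hC
  have hC1 : ∀ a a', C a (e a') = (1 : Matrix (Fin p) (Fin p) K) a a' := by
    intro a a'
    rw [← Matrix.nonsing_inv_mul M hu]
    rfl
  have hC2 : M * C = Matrix.of b := by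
    rw [hC, Matrix.mul_nonsing_inv_cancel_left _ _ hu]
  refine ⟨fun a => C a, Finset.univ ×ˢ (Finset.univ.image e)ᶜ, ?_, le_antisymm ?_ ?_, ?_⟩
  · rw [Finset.card_product, Finset.card_univ, Fintype.card_fin, Finset.card_compl, Finset.card_image_of_injective _ hinj,
      Finset.card_univ, Fintype.card_fin, Fintype.card_fin]
  · rw [Submodule.span_le]
    rintro _ ⟨a, rfl⟩
    have h1 : (fun j => C a j) = ∑ c, M⁻¹ a c • b c := by
      funext j
      rw [Finset.sum_apply]
      rfl
    show (fun j => C a j) ∈ Submodule.span K (Set.range b)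
    rw [h1]
    exact Submodule.sum_mem _ fun c _ => Submodule.smul_mem _ _ (Submodule.subset_span ⟨c, rfl⟩)
  · rw [Submodule.span_le]
    rintro _ ⟨a, rfl⟩
    have h1 : b a = ∑ c, M a c • C c := by
      funext j
      rw [Finset.sum_apply]
      exact (congrFun (congrFun hC2 a) j).symm
    rw [SetLike.mem_coe, h1]
    exact Submodule.sum_mem _ fun c _ => Submodule.smul_mem _ _ (Submodule.subset_span ⟨c, rfl⟩)
  · intro a j haj
    rw [Finset.mem_product, not_and, Finset.mem_compl, not_not] at haj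
    obtain ⟨a', _, rfl⟩ := Finset.mem_image.1 (haj (Finset.mem_univ _))
    show C a (e a') = 0 ∨ C a (e a') = 1
    rw [hC1, Matrix.one_apply]
    split_ifs
    · exact Or.inr rfl
    · exact Or.inl rfl

/-- Generic forms: the costs are at most the dimension of the Grassmannian. -/
private theorem phi_generic {K : Type} [Field K] [Algebra ℚ K] {n q : ℕ} (l : Fin q → Fin (n + 1) → K)
    (hl : AlgebraicIndependent ℚ fun p : Fin q × Fin (n + 1) => l p.1 p.2) (N : Submodule K (Fin (n + 1) → K)) :
    ∑ i, cost l N i ≤ finrank K N * (n + 1 - finrank K N) := by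
  classical
  obtain ⟨C, s, hs, hspan, hC⟩ := phi_echelon (fun a : Fin (finrank K N) => ((finBasis K N a : N) : Fin (n + 1) → K))
    ((finBasis K N).linearIndependent.map' N.subtype (Submodule.ker_subtype N))
  have hN : N = Submodule.span K (Set.range C) := by
    rw [hspan]
    have h1 : (Set.range fun a : Fin (finrank K N) => ((finBasis K N a : N) : Fin (n + 1) → K)) =
        N.subtype '' Set.range (finBasis K N) := by
      rw [← Set.range_comp]
      rfl
    rw [h1, Submodule.span_image, (finBasis K N).span_eq, Submodule.map_top, Submodule.range_subtype]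
  set A : Set K := (fun aj : Fin (finrank K N) × Fin (n + 1) => C aj.1 aj.2) '' (s : Set _) with hA
  have hCF : ∀ F : Subfield K, A ⊆ F → ∀ a j, C a j ∈ F := by
    intro F hF a j
    by_cases h : (a, j) ∈ s
    · exact hF ⟨(a, j), h, rfl⟩
    · rcases hC a j h with h | h
      · rw [h]
        exact F.zero_mem
      · rw [h]
        exact F.one_mem
  let G : Fin q → Subfield K := fun i => Subfield.closure (A ∪ {z | ∃ j < i, ∃ c, z = l j c})
  have hfam : ∀ i, ∃ (y : Fin (cost l N i) → Fin (n + 1) → K) (J : Fin (cost l N i) → Finset (Fin q)),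
      LinearIndependent K y ∧ (∀ c j, y c j ∈ G i) ∧
      ∀ c, (∀ j ∈ J c, j < i) ∧ l i ∈ spJ l N (J c) ∧ ∀ s ∈ spJ l N (J c), ∑ j, y c j * s j = 0 := by
    intro i
    refine phi_fam l N (G i) (Set.range C) ?_ hN i ?_
    · rintro _ ⟨a, rfl⟩ j
      exact hCF _ (fun z hz => Subfield.subset_closure (Or.inl hz)) a j
    · intro j hj c
      exact Subfield.subset_closure (Or.inr ⟨j, hj, c, rfl⟩)
  choose y J hy hyG hyJ using hfam
  have hm : ∀ i (a : Fin (cost l N i)), ∃ m, y i a m ≠ 0 := fun i a => Function.ne_iff.1 ((hy i).ne_zero a)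
  choose m hm using hm
  have hsol := fun i => Pool.Agent.FIN.solve17 (y i) (hy i) (m i) (hm i)
  choose I hI hI' using hsol
  let D : Finset (Fin q × Fin (n + 1)) := Finset.univ.filter fun p => p.2 ∈ I p.1
  have hDc : D.card = ∑ i, cost l N i := by
    have h1 : D.card = ∑ i, (I i).card := by
      rw [Finset.card_filter, Fintype.sum_prod_type]
      refine Finset.sum_congr rfl fun i _ => ?_
      rw [← Finset.card_filter]
      congr 1
      ext j
      simp
    rw [h1]
    exact Finset.sum_congr rfl fun i _ => by rw [hI i, Fintype.card_fin]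
  obtain ⟨F, hF⟩ := Pool.Agent.FIN.clF17 (k := ℚ) ((fun p : Fin q × Fin (n + 1) => l p.1 p.2) '' ((Dᶜ : Finset _) : Set _) ∪ A)
  have hall : ∀ i, ∀ j, l i j ∈ F := by
    intro i
    induction i using WellFoundedLT.induction with
    | _ i ih =>
      have hG : ∀ z ∈ G i, z ∈ F := by
        have h1 : G i ≤ F := by
          rw [Subfield.closure_le]
          rintro z (hz | ⟨j, hj, c, rfl⟩)
          · exact (hF _).2 (Pool.Agent.GS.subset_cl _ (Or.inr hz))
          · exact ih j hj c
        exact fun z hz => h1 hz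
      refine hI' i F (l i) (fun a j => F.div_mem (hG _ (hyG i a j)) (hG _ (hyG i a _))) (fun a => ?_) (fun j hj => ?_)
      · have h1 : Pool.Agent.GS.dt (l i) (y i a) = 0 := by
          rw [← (hyJ i a).2.2 (l i) (hyJ i a).2.1]
          exact Finset.sum_congr rfl fun j _ => mul_comm _ _
        rw [h1, zero_div]
        exact F.zero_mem
      · refine (hF _).2 (Pool.Agent.GS.subset_cl _ (Or.inl ⟨(i, j), ?_, rfl⟩))
        simp only [D, Finset.coe_compl, Set.mem_compl_iff, Finset.mem_coe, Finset.mem_filter, Finset.mem_univ, true_and]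
        exact hj
  rw [← hDc, ← hs]
  refine Pool.Agent.GS.count97 (k := ℚ) (fun p : Fin q × Fin (n + 1) => l p.1 p.2) hl D A _
    (Pool.Agent.GS.rk_image_le _ _) fun p _ => (hF _).1 (hall p.1 p.2)

universe v

private theorem phi_elim {k : Type v} [Field k] {σ τ : Type} (E : Set (MvPolynomial (σ ⊕ τ) k))
    (h : ∀ (L : Type v) [Field L] [Algebra k L] (s : σ → L) (t : τ → L), AlgebraicIndependent k s →
      ¬ ∀ f ∈ E, aeval (Sum.elim s t) f = 0) :
    ∃ Φ : MvPolynomial σ k, Φ ≠ 0 ∧ ∀ (K : Type u) [Field K] [Algebra k K] (s : σ → K) (t : τ → K),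
      (∀ f ∈ E, aeval (Sum.elim s t) f = 0) → aeval s Φ = 0 := by
  classical
  set j : MvPolynomial σ k →ₐ[k] MvPolynomial (σ ⊕ τ) k := rename Sum.inl with hj
  have hjinj : Function.Injective j := rename_injective _ Sum.inl_injective
  obtain ⟨S, hS⟩ : ∃ S : Submonoid (MvPolynomial (σ ⊕ τ) k), S = (nonZeroDivisors (MvPolynomial σ k)).map j := ⟨_, rfl⟩
  have hdis : ¬ Disjoint ((Ideal.span E : Ideal (MvPolynomial (σ ⊕ τ) k)) : Set (MvPolynomial (σ ⊕ τ) k)) S := by
    intro hd
    obtain ⟨P, hP, hEP, hPS⟩ := Ideal.exists_le_prime_disjoint (Ideal.span E) S hd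
    set R := MvPolynomial (σ ⊕ τ) k ⧸ P with hR
    set L := FractionRing R with hL
    set φ : MvPolynomial (σ ⊕ τ) k →ₐ[k] L := (IsScalarTower.toAlgHom k R L).comp (Ideal.Quotient.mkₐ k P) with hφ
    have hφ0 : ∀ f, φ f = 0 ↔ f ∈ P := by
      intro f
      rw [← Ideal.Quotient.eq_zero_iff_mem]
      constructor
      · intro h0
        exact (IsFractionRing.injective R L) (by rw [map_zero]; exact h0)
      · intro h0
        show algebraMap R L (Ideal.Quotient.mk P f) = 0
        rw [h0, map_zero]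
    have hae : ∀ f, aeval (Sum.elim (fun a => φ (X (Sum.inl a))) fun b => φ (X (Sum.inr b))) f = φ f := by
      intro f
      have h1 : φ = aeval (Sum.elim (fun a => φ (X (Sum.inl a))) fun b => φ (X (Sum.inr b))) := by
        refine algHom_ext fun i => ?_
        rw [aeval_X]
        rcases i with a | b <;> rfl
      rw [← h1]
    refine h L (fun a => φ (X (Sum.inl a))) (fun b => φ (X (Sum.inr b))) ?_ fun f hf => ?_
    · rw [algebraicIndependent_iff_injective_aeval, injective_iff_map_eq_zero]
      intro p hp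
      by_contra hp0
      have h1 : φ (j p) = 0 := by
        rw [← hae, hj, aeval_rename]
        exact hp
      rw [hφ0] at h1
      have h2 : j p ∈ S := by
        rw [hS]
        exact Submonoid.mem_map_of_mem _ (mem_nonZeroDivisors_of_ne_zero hp0)
      exact Set.disjoint_left.1 hPS h1 h2
    · rw [hae, hφ0]
      exact hEP (Ideal.subset_span hf)
  rw [Set.not_disjoint_iff] at hdis
  obtain ⟨f, hfE, hfS⟩ := hdis
  rw [hS] at hfS
  obtain ⟨Φ, hΦ, rfl⟩ := hfS
  refine ⟨Φ, nonZeroDivisors.ne_zero hΦ, fun K _ _ s t hst => ?_⟩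
  have h1 : Ideal.span E ≤ RingHom.ker (aeval (R := k) (Sum.elim s t)) := by
    rw [Ideal.span_le]
    exact fun f hf => hst f hf
  have h2 := h1 hfE
  rw [RingHom.mem_ker] at h2
  have h3 : aeval (Sum.elim s t) (j Φ) = 0 := h2
  rw [hj, aeval_rename] at h3
  exact h3

/-- the unknowns -/
private inductive PhiUn (n q p : ℕ) (κ : Fin q → ℕ) : Type
  | nu (a : Fin p) (j : Fin (n + 1))
  | nd (a : Fin p) (j : Fin (n + 1))
  | g (i : Fin q) (c : Fin (κ i)) (j : Fin (n + 1))
  | gd (i : Fin q) (c : Fin (κ i)) (j : Fin (n + 1))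
  | x (i : Fin q) (c : Fin (κ i)) (a : Fin p)
  | y (i : Fin q) (c : Fin (κ i)) (j : Fin q)

/-- the solutions -/
private structure PhiSol {K : Type*} [Field K] {n q p : ℕ} (κ : Fin q → ℕ) (J : ∀ i, Fin (κ i) → Finset (Fin q))
    (l : Fin q → Fin (n + 1) → K) (t : PhiUn n q p κ → K) : Prop where
  nu : ∀ a b, ∑ j, t (.nd b j) * t (.nu a j) = if a = b then 1 else 0
  gg : ∀ i c d, ∑ j, t (.gd i d j) * t (.g i c j) = if c = d then 1 else 0
  gn : ∀ i c a, ∑ j, t (.g i c j) * t (.nu a j) = 0
  gl : ∀ i c, ∀ j' ∈ J i c, ∑ j, t (.g i c j) * l j' j = 0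
  li : ∀ i c j, l i j = ∑ a, t (.x i c a) * t (.nu a j) + ∑ j' ∈ J i c, t (.y i c j') * l j' j

private theorem phi_sys {n q p : ℕ} (κ : Fin q → ℕ) (J : ∀ i, Fin (κ i) → Finset (Fin q))
    (h : ∀ (L : Type) [Field L] [Algebra ℚ L] (l : Fin q → Fin (n + 1) → L) (t : PhiUn n q p κ → L),
      (AlgebraicIndependent ℚ fun p : Fin q × Fin (n + 1) => l p.1 p.2) → ¬ PhiSol κ J l t) :
    ∃ Φ : MvPolynomial (Fin q × Fin (n + 1)) ℚ, Φ ≠ 0 ∧ ∀ (K : Type u) [Field K] [Algebra ℚ K]
      (l : Fin q → Fin (n + 1) → K) (t : PhiUn n q p κ → K), PhiSol κ J l t →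
        aeval (fun p : Fin q × Fin (n + 1) => l p.1 p.2) Φ = 0 := by
  classical
  obtain ⟨Φ, hΦ, hΦ'⟩ := phi_elim.{u} (k := ℚ) (σ := Fin q × Fin (n + 1)) (τ := PhiUn n q p κ)
    ({f | ∃ a b, f = ∑ j, X (Sum.inr (.nd b j)) * X (Sum.inr (.nu a j)) - if a = b then 1 else 0} ∪
      {f | ∃ i c d, f = ∑ j, X (Sum.inr (.gd i d j)) * X (Sum.inr (.g i c j)) - if c = d then 1 else 0} ∪
      {f | ∃ i c a, f = ∑ j, X (Sum.inr (.g i c j)) * X (Sum.inr (.nu a j))} ∪
      {f | ∃ i c, ∃ j' ∈ J i c, f = ∑ j, X (Sum.inr (.g i c j)) * X (Sum.inl (j', j))} ∪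
      {f | ∃ i c j, f = X (Sum.inl (i, j)) - (∑ a, X (Sum.inr (.x i c a)) * X (Sum.inr (.nu a j)) +
        ∑ j' ∈ J i c, X (Sum.inr (.y i c j')) * X (Sum.inl (j', j)))})
    (by
      intro L _ _ s t hs hall
      refine h L (fun i j => s (i, j)) t hs ⟨?_, ?_, ?_, ?_, ?_⟩
      · intro a b
        have h1 := hall _ (Or.inl (Or.inl (Or.inl (Or.inl ⟨a, b, rfl⟩))))
        rw [map_sub, map_sum, sub_eq_zero] at h1
        simp only [map_mul, aeval_X, Sum.elim_inr] at h1
        rw [h1]
        split_ifs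
        · exact map_one _
        · exact map_zero _
      · intro i c d
        have h1 := hall _ (Or.inl (Or.inl (Or.inl (Or.inr ⟨i, c, d, rfl⟩))))
        rw [map_sub, map_sum, sub_eq_zero] at h1
        simp only [map_mul, aeval_X, Sum.elim_inr] at h1
        rw [h1]
        split_ifs
        · exact map_one _
        · exact map_zero _
      · intro i c a
        have h1 := hall _ (Or.inl (Or.inl (Or.inr ⟨i, c, a, rfl⟩)))
        rw [map_sum] at h1
        simp only [map_mul, aeval_X, Sum.elim_inr] at h1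
        exact h1
      · intro i c j' hj'
        have h1 := hall _ (Or.inl (Or.inr ⟨i, c, j', hj', rfl⟩))
        rw [map_sum] at h1
        simp only [map_mul, aeval_X, Sum.elim_inr, Sum.elim_inl] at h1
        exact h1
      · intro i c j
        have h1 := hall _ (Or.inr ⟨i, c, j, rfl⟩)
        rw [map_sub, map_add, map_sum, map_sum, sub_eq_zero] at h1
        simp only [map_mul, aeval_X, Sum.elim_inr, Sum.elim_inl] at h1
        exact h1)
  refine ⟨Φ, hΦ, fun K _ _ l t ht => hΦ' K (fun p => l p.1 p.2) t ?_⟩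
  rintro f ((((⟨a, b, rfl⟩ | ⟨i, c, d, rfl⟩) | ⟨i, c, a, rfl⟩) | ⟨i, c, j', hj', rfl⟩) | ⟨i, c, j, rfl⟩)
  · rw [map_sub, map_sum, sub_eq_zero]
    simp only [map_mul, aeval_X, Sum.elim_inr]
    rw [ht.nu]
    split_ifs
    · exact (map_one _).symm
    · exact (map_zero _).symm
  · rw [map_sub, map_sum, sub_eq_zero]
    simp only [map_mul, aeval_X, Sum.elim_inr]
    rw [ht.gg]
    split_ifs
    · exact (map_one _).symm
    · exact (map_zero _).symm
  · rw [map_sum]
    simp only [map_mul, aeval_X, Sum.elim_inr]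
    exact ht.gn i c a
  · rw [map_sum]
    simp only [map_mul, aeval_X, Sum.elim_inr, Sum.elim_inl]
    exact ht.gl i c j' hj'
  · rw [map_sub, map_add, map_sum, map_sum, sub_eq_zero]
    simp only [map_mul, aeval_X, Sum.elim_inr, Sum.elim_inl]
    exact ht.li i c j

private theorem phi_li {K : Type*} [Field K] {m : ℕ} {ι : Type*} [Fintype ι] [DecidableEq ι] (v w : ι → Fin m → K)
    (h : ∀ a b, ∑ j, w b j * v a j = if a = b then 1 else 0) : LinearIndependent K v := by
  rw [Fintype.linearIndependent_iff]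
  intro c hc b
  have h1 : ∑ j, w b j * (∑ a, c a • v a) j = c b := by
    have h2 : ∀ j, w b j * (∑ a, c a • v a) j = ∑ a, c a * (w b j * v a j) := by
      intro j
      rw [Finset.sum_apply, Finset.mul_sum]
      exact Finset.sum_congr rfl fun a _ => by rw [Pi.smul_apply, smul_eq_mul]; ring
    rw [Finset.sum_congr rfl fun j _ => h2 j, Finset.sum_comm]
    rw [Finset.sum_congr rfl fun a _ => by rw [← Finset.mul_sum, h a b]]
    simp
  rw [← h1, hc]
  simp

private theorem phi_dual_exists {K : Type*} [Field K] {m : ℕ} {ι : Type*} [Fintype ι] [DecidableEq ι] (v : ι → Fin m → K)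
    (hv : LinearIndependent K v) : ∃ w : ι → Fin m → K, ∀ a b, ∑ j, w b j * v a j = if a = b then 1 else 0 := by
  have h1 := linearIndependent_iff_injective_fintypeLinearCombination.1 hv
  obtain ⟨g, hg⟩ := LinearMap.exists_leftInverse_of_injective _ (LinearMap.ker_eq_bot.2 h1)
  refine ⟨fun b j => g (Pi.single j 1) b, fun a b => ?_⟩
  have h2 : g (v a) = Pi.single a 1 := by
    have h3 := congrArg (fun f : (ι → K) →ₗ[K] (ι → K) => f (Pi.single a 1)) hg
    have h4 : Fintype.linearCombination K v (Pi.single a 1) = v a := by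
      simp [Fintype.linearCombination_apply_single]
    rw [← h4]
    exact h3
  have h5 : v a = ∑ j, v a j • (Pi.single j (1 : K) : Fin m → K) := by
    funext j
    simp [Finset.sum_apply, Pi.single_apply]
  have h6 : g (v a) b = ∑ j, g (Pi.single j 1) b * v a j := by
    conv_lhs => rw [h5]
    rw [map_sum, Finset.sum_apply]
    refine Finset.sum_congr rfl fun j _ => ?_
    rw [map_smul, Pi.smul_apply, smul_eq_mul, mul_comm]
  rw [← h6, h2, Pi.single_apply]
  simp only [eq_comm]

private theorem phi_ker {K : Type*} [Field K] {m r : ℕ} (g w : Fin r → Fin m → K)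
    (h : ∀ c d, ∑ j, w d j * g c j = if c = d then 1 else 0) : r + finrank K (LinearMap.ker (phiEv g)) = m := by
  have h1 : LinearMap.range (phiEv g) = ⊤ := by
    rw [LinearMap.range_eq_top]
    intro u
    refine ⟨∑ d, u d • w d, ?_⟩
    funext c
    show ∑ j, g c j * (∑ d, u d • w d) j = u c
    have h2 : ∀ j, g c j * (∑ d, u d • w d) j = ∑ d, u d * (w d j * g c j) := by
      intro j
      rw [Finset.sum_apply, Finset.mul_sum]
      exact Finset.sum_congr rfl fun a _ => by rw [Pi.smul_apply, smul_eq_mul]; ring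
    rw [Finset.sum_congr rfl fun j _ => h2 j, Finset.sum_comm]
    rw [Finset.sum_congr rfl fun d _ => by rw [← Finset.mul_sum, h c d]]
    simp
  have h2 := LinearMap.finrank_range_add_finrank_ker (phiEv g)
  rw [h1, finrank_top, finrank_fin_fun, finrank_fin_fun] at h2
  exact h2

private theorem phi_not_sol {n q p : ℕ} (κ : Fin q → ℕ) (J : ∀ i, Fin (κ i) → Finset (Fin q))
    (hJ : ∀ i c, ∀ j ∈ J i c, j < i) (hp : p * (n + 1 - p) < ∑ i, κ i) {L : Type} [Field L] [Algebra ℚ L]
    (l : Fin q → Fin (n + 1) → L) (t : PhiUn n q p κ → L)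
    (hl : AlgebraicIndependent ℚ fun p : Fin q × Fin (n + 1) => l p.1 p.2) : ¬ PhiSol κ J l t := by
  classical
  intro ht
  let ν : Fin p → Fin (n + 1) → L := fun a j => t (.nu a j)
  have hν : LinearIndependent L ν := phi_li ν (fun a j => t (.nd a j)) ht.nu
  let N : Submodule L (Fin (n + 1) → L) := Submodule.span L (Set.range ν)
  have hN : finrank L N = p := by
    rw [finrank_span_eq_card hν, Fintype.card_fin]
  have h1 := phi_generic l hl N
  rw [hN] at h1
  have h2 : ∀ i, κ i ≤ cost l N i := by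
    intro i
    have h3 := phi_ker (fun c j => t (.g i c j)) (fun c j => t (.gd i c j)) (ht.gg i)
    have h4 : Ut l N i ≤ LinearMap.ker (phiEv fun c j => t (.g i c j)) := by
      intro x hx
      rw [LinearMap.mem_ker]
      funext c
      show ∑ j, t (.g i c j) * x j = 0
      have h5 : l i ∈ spJ l N (J i c) := by
        have h6 : l i = ∑ a, t (.x i c a) • ν a + ∑ j' ∈ J i c, t (.y i c j') • l j' := by
          funext j
          rw [Pi.add_apply, Finset.sum_apply, Finset.sum_apply]
          exact ht.li i c j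
        rw [h6]
        refine Submodule.add_mem_sup ?_ ?_
        · exact Submodule.sum_mem _ fun a _ => Submodule.smul_mem _ _ (Submodule.subset_span ⟨a, rfl⟩)
        · exact Submodule.sum_mem _ fun j' hj' => Submodule.smul_mem _ _ (Submodule.subset_span ⟨j', hj', rfl⟩)
      have h7 := phi_ut_le l N i (J i c) ⟨hJ i c, h5⟩ hx
      have h8 : spJ l N (J i c) ≤ LinearMap.ker (phiEv fun (_ : Unit) j => t (.g i c j)) := by
        unfold spJ
        rw [sup_le_iff, Submodule.span_le, Submodule.span_le]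
        constructor
        · rintro _ ⟨a, rfl⟩
          rw [SetLike.mem_coe, LinearMap.mem_ker]
          funext _
          exact ht.gn i c a
        · rintro _ ⟨j', hj', rfl⟩
          rw [SetLike.mem_coe, LinearMap.mem_ker]
          funext _
          exact ht.gl i c j' hj'
      have h9 := h8 h7
      rw [LinearMap.mem_ker] at h9
      exact congrFun h9 ()
    have h5 := Submodule.finrank_mono h4
    unfold cost
    omega
  have h3 := Finset.sum_le_sum fun i (_ : i ∈ Finset.univ) => h2 i
  omega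

private theorem phi_sol {K : Type*} [Field K] {n q : ℕ} (l : Fin q → Fin (n + 1) → K) (N : Submodule K (Fin (n + 1) → K)) :
    ∃ (J : ∀ i, Fin (cost l N i) → Finset (Fin q)) (t : PhiUn n q (finrank K N) (cost l N) → K),
      (∀ i c, ∀ j ∈ J i c, j < i) ∧ PhiSol (cost l N) J l t := by
  classical
  have hfam := fun i => phi_fam l N ⊤ (N : Set _) (fun _ _ _ => trivial) (Submodule.span_eq N).symm i fun _ _ _ => trivial
  choose y J hy _ hyJ using hfam
  let ν : Fin (finrank K N) → Fin (n + 1) → K := fun a => ((finBasis K N a : N) : Fin (n + 1) → K)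
  have hν : LinearIndependent K ν := (finBasis K N).linearIndependent.map' N.subtype (Submodule.ker_subtype N)
  have hN : N = Submodule.span K (Set.range ν) := by
    have h1 : Set.range ν = N.subtype '' Set.range (finBasis K N) := by
      rw [← Set.range_comp]
      rfl
    rw [h1, Submodule.span_image, (finBasis K N).span_eq, Submodule.map_top, Submodule.range_subtype]
  obtain ⟨ν', hν'⟩ := phi_dual_exists ν hν
  choose y' hy' using fun i => phi_dual_exists (y i) (hy i)
  have hco : ∀ i c, ∃ (a : Fin (finrank K N) → K) (b : Fin q → K),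
      l i = ∑ d, a d • ν d + ∑ j' ∈ J i c, b j' • l j' := by
    intro i c
    have h1 := (hyJ i c).2.1
    unfold spJ at h1
    rw [hN] at h1
    obtain ⟨u, hu, v, hv, huv⟩ := Submodule.mem_sup.1 h1
    rw [Submodule.mem_span_range_iff_exists_fun] at hu
    obtain ⟨a, ha⟩ := hu
    rw [Submodule.mem_span_image_finset_iff_exists_fun'] at hv
    obtain ⟨b, hb⟩ := hv
    refine ⟨a, b, ?_⟩
    rw [ha, hb, huv]
  choose a b hab using hco
  refine ⟨J, fun z => match z with
    | .nu a j => ν a j
    | .nd a j => ν' a j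
    | .g i c j => y i c j
    | .gd i c j => y' i c j
    | .x i c d => a i c d
    | .y i c j => b i c j, fun i c => (hyJ i c).1, ?_, ?_, ?_, ?_, ?_⟩
  · exact hν'
  · exact fun i => hy' i
  · intro i c d
    refine (hyJ i c).2.2 _ (Submodule.mem_sup_left ?_)
    exact (finBasis K N d).2
  · intro i c j' hj'
    exact (hyJ i c).2.2 _ (Submodule.mem_sup_right (Submodule.subset_span ⟨j', hj', rfl⟩))
  · intro i c j
    have h1 := congrFun (hab i c) j
    rw [Pi.add_apply, Finset.sum_apply, Finset.sum_apply] at h1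
    exact h1

private theorem phi_prod {n q : ℕ} {T : Type} [Finite T]
    (P : T → ∀ (K : Type u) [Field K] [Algebra ℚ K], (Fin q → Fin (n + 1) → K) → Prop)
    (h : ∀ t, ∃ Φ : MvPolynomial (Fin q × Fin (n + 1)) ℚ, Φ ≠ 0 ∧ ∀ (K : Type u) [Field K] [Algebra ℚ K]
      (l : Fin q → Fin (n + 1) → K), P t K l → aeval (fun p : Fin q × Fin (n + 1) => l p.1 p.2) Φ = 0) :
    ∃ Φ : MvPolynomial (Fin q × Fin (n + 1)) ℚ, Φ ≠ 0 ∧ ∀ (K : Type u) [Field K] [Algebra ℚ K]
      (l : Fin q → Fin (n + 1) → K), (∃ t, P t K l) → aeval (fun p : Fin q × Fin (n + 1) => l p.1 p.2) Φ = 0 := by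
  classical
  have := Fintype.ofFinite T
  choose Φ hΦ hΦ' using h
  refine ⟨∏ t, Φ t, Finset.prod_ne_zero_iff.2 fun t _ => hΦ t, ?_⟩
  rintro K _ _ l ⟨t, ht⟩
  rw [map_prod]
  exact Finset.prod_eq_zero (Finset.mem_univ t) (hΦ' t K l ht)

private theorem phi_gen_one {n q : ℕ} (I : Finset (Fin q)) (hI : I.card ≤ n + 1) :
    ∃ Φ : MvPolynomial (Fin q × Fin (n + 1)) ℚ, Φ ≠ 0 ∧ ∀ (K : Type u) [Field K] [Algebra ℚ K]
      (l : Fin q → Fin (n + 1) → K), ¬ LinearIndependent K (fun i : I => l i) →
        aeval (fun p : Fin q × Fin (n + 1) => l p.1 p.2) Φ = 0 := by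
  classical
  obtain ⟨e⟩ : Nonempty (I ↪ Fin (n + 1)) := Function.Embedding.nonempty_of_card_le (by
    rw [Fintype.card_coe, Fintype.card_fin]
    exact hI)
  have hae : ∀ (K : Type u) [Field K] [Algebra ℚ K] (l : Fin q → Fin (n + 1) → K),
      aeval (fun p : Fin q × Fin (n + 1) => l p.1 p.2)
        (Matrix.of fun (a b : I) => (X ((a : Fin q), e b) : MvPolynomial (Fin q × Fin (n + 1)) ℚ)).det =
      (Matrix.of fun (a b : I) => l a (e b)).det := by
    intro K _ _ l
    rw [AlgHom.map_det]
    congr 1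
    ext a b
    simp [AlgHom.mapMatrix_apply]
  refine ⟨(Matrix.of fun (a b : I) => (X ((a : Fin q), e b) : MvPolynomial (Fin q × Fin (n + 1)) ℚ)).det, ?_, ?_⟩
  · intro h0
    have h1 : aeval (fun p : Fin q × Fin (n + 1) => if ∃ b : I, (b : Fin q) = p.1 ∧ e b = p.2 then (1 : ℚ) else 0)
        (Matrix.of fun (a b : I) => (X ((a : Fin q), e b) : MvPolynomial (Fin q × Fin (n + 1)) ℚ)).det = 0 := by
      rw [h0, map_zero]
    rw [AlgHom.map_det] at h1
    have h2 : (aeval (fun p : Fin q × Fin (n + 1) => if ∃ b : I, (b : Fin q) = p.1 ∧ e b = p.2 then (1 : ℚ) else 0)).mapMatrix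
        (Matrix.of fun (a b : I) => (X ((a : Fin q), e b) : MvPolynomial (Fin q × Fin (n + 1)) ℚ)) = 1 := by
      ext a b
      rw [AlgHom.mapMatrix_apply, Matrix.map_apply, Matrix.of_apply, aeval_X, Matrix.one_apply]
      by_cases hab : a = b
      · rw [if_pos ⟨a, rfl, by rw [hab]⟩, if_pos hab]
      · rw [if_neg, if_neg hab]
        rintro ⟨b', hb1, hb2⟩
        exact hab ((Subtype.ext hb1).symm.trans (e.injective hb2))
    rw [h2, Matrix.det_one] at h1
    exact one_ne_zero h1
  · intro K _ _ l hl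
    rw [hae]
    by_contra hne
    apply hl
    have h3 : LinearIndependent K (Matrix.of fun (a b : I) => l a (e b)).row :=
      Matrix.linearIndependent_rows_iff_isUnit.mpr
        ((Matrix.isUnit_iff_isUnit_det _).mpr (isUnit_iff_ne_zero.mpr hne))
    exact LinearIndependent.of_comp (LinearMap.funLeft K K e) h3

theorem phi (n q : ℕ) : ∃ Φ : MvPolynomial (Fin q × Fin (n + 1)) ℚ, Φ ≠ 0 ∧ ∀ (k : Type u) [Field k] [Algebra ℚ k]
    (l : Fin q → Fin (n + 1) → k), MvPolynomial.aeval (fun p : Fin q × Fin (n + 1) => l p.1 p.2) Φ ≠ 0 →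
      GenPos l ∧ ∀ N : Submodule k (Fin (n + 1) → k), ¬ Bad l N := by
  classical
  obtain ⟨Φ₁, h1, h1'⟩ := phi_prod.{u} (n := n) (q := q) (T := Finset (Fin q))
    (fun I K _ _ l => I.card ≤ n + 1 ∧ ¬ LinearIndependent K (fun i : I => l i)) (by
      intro I
      by_cases hI : I.card ≤ n + 1
      · obtain ⟨Φ, hΦ, hΦ'⟩ := phi_gen_one.{u} (n := n) I hI
        exact ⟨Φ, hΦ, fun K _ _ l hl => hΦ' K l hl.2⟩
      · exact ⟨1, one_ne_zero, fun K _ _ l hl => absurd hl.1 hI⟩)
  obtain ⟨Φ₂, h2, h2'⟩ := phi_prod.{u} (n := n) (q := q)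
    (T := Σ (_ : Fin (n + 2)) (κ : Fin q → Fin (n + 2)), ∀ i, Fin (κ i) → Finset (Fin q))
    (fun T K _ _ l => ((∀ i c, ∀ j ∈ T.2.2 i c, j < i) ∧ (T.1 : ℕ) * (n + 1 - T.1) < ∑ i, (T.2.1 i : ℕ)) ∧
      ∃ t : PhiUn n q T.1 (fun i => T.2.1 i) → K, PhiSol (fun i => (T.2.1 i : ℕ)) T.2.2 l t) (by
      rintro ⟨p, κ, J⟩
      by_cases hT : (∀ i c, ∀ j ∈ J i c, j < i) ∧ (p : ℕ) * (n + 1 - p) < ∑ i, (κ i : ℕ)
      · obtain ⟨Φ, hΦ, hΦ'⟩ := phi_sys.{u} (n := n) (q := q) (p := p) (fun i => (κ i : ℕ)) J
          (fun L _ _ l t hl => phi_not_sol _ J hT.1 hT.2 l t hl)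
        refine ⟨Φ, hΦ, ?_⟩
        rintro K _ _ l ⟨_, t, ht⟩
        exact hΦ' K l t ht
      · exact ⟨1, one_ne_zero, fun K _ _ l hl => absurd hl.1 hT⟩)
  refine ⟨Φ₁ * Φ₂, mul_ne_zero h1 h2, fun k _ _ l hl => ⟨?_, ?_⟩⟩
  · intro I hI
    by_contra hne
    apply hl
    rw [map_mul, h1' k l ⟨I, hI, hne⟩, zero_mul]
  · rintro N ⟨_, hN⟩
    apply hl
    obtain ⟨J, t, hJ, ht⟩ := phi_sol l N
    have hp : finrank k N < n + 2 := by
      have := Submodule.finrank_le N
      rw [finrank_fin_fun] at this
      omega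
    have hc : ∀ i, cost l N i < n + 2 := by
      intro i
      unfold cost
      omega
    rw [map_mul, h2' k l ⟨⟨⟨finrank k N, hp⟩, fun i => ⟨cost l N i, hc i⟩, J⟩, ⟨hJ, hN⟩, t, ht⟩, mul_zero]

end Pool.Agent.SQ
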