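import Mathlib

/-!
# SQ, block PL: the discrete inequality of Prekopa and Leindler on the integers
-/

set_option autoImplicit false

namespace Pool.Agent.SQ

open MeasureTheory
open scoped Pointwise

private noncomputable def J38 (x t : ℝ) : ℝ := if t ≤ x then 1 else 0

private theorem J38_int (x : ℝ) : Integrable (J38 x) (volume.restrict (Set.Ioc (0 : ℝ) 1)) := by
  have h1 : J38 x = (Set.Iic x).indicator fun _ => (1 : ℝ) := by
    funext t
    simp only [J38, Set.indicator_apply, Set.mem_Iic]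
  rw [h1]
  exact (integrable_const (1 : ℝ)).indicator measurableSet_Iic

private theorem J38_eq {x : ℝ} (hx : 0 ≤ x) : ∫ t in Set.Ioc (0 : ℝ) 1, J38 x t = min x 1 := by
  have h1 : J38 x = (Set.Iic x).indicator fun _ => (1 : ℝ) := by
    funext t
    simp only [J38, Set.indicator_apply, Set.mem_Iic]
  rw [h1, integral_indicator measurableSet_Iic, Measure.restrict_restrict measurableSet_Iic]
  have h2 : Set.Iic x ∩ Set.Ioc (0 : ℝ) 1 = Set.Ioc 0 (min x 1) := by
    ext t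
    simp only [Set.mem_inter_iff, Set.mem_Iic, Set.mem_Ioc, le_min_iff]
    tauto
  rw [h2]
  have h3 : 0 ≤ min x 1 := le_min hx zero_le_one
  rw [integral_const, smul_eq_mul, mul_one, measureReal_restrict_apply_univ, Real.volume_real_Ioc_of_le h3, sub_zero]

private theorem card38 (s : Finset ℤ) (u : ℤ → ℝ) (t : ℝ) :
    ∑ i ∈ s, J38 (u i) t = ((s.filter fun i => t ≤ u i).card : ℝ) := by
  simp only [J38]
  rw [Finset.sum_boole]

private theorem sums38 {A B C : Finset ℤ} (hA : A.Nonempty) (hB : B.Nonempty)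
    (h : ∀ a ∈ A, ∀ b ∈ B, a + b ∈ C ∧ a + b + 1 ∈ C) : A.card + B.card ≤ C.card := by
  have h1 := cauchy_davenport_add_of_linearOrder_isCancelAdd hA hB
  have h2 := cauchy_davenport_add_of_linearOrder_isCancelAdd (hA.add hB) (show ({0, 1} : Finset ℤ).Nonempty by simp)
  have h3 : ((A + B) + ({0, 1} : Finset ℤ)) ⊆ C := by
    intro x hx
    obtain ⟨y, hy, z, hz, rfl⟩ := Finset.mem_add.1 hx
    obtain ⟨a, ha, b, hb, rfl⟩ := Finset.mem_add.1 hy
    rw [Finset.mem_insert, Finset.mem_singleton] at hz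
    rcases hz with rfl | rfl
    · rw [add_zero]
      exact (h a ha b hb).1
    · exact (h a ha b hb).2
  have h4 := Finset.card_le_card h3
  have h5 : ({0, 1} : Finset ℤ).card = 2 := by decide
  rw [h5] at h2
  have h6 := hA.card_pos
  omega

theorem prekopa (f g h : ℤ → ℝ) (hf : ∀ i, 0 ≤ f i) (hg : ∀ i, 0 ≤ g i) (hh : ∀ i, 0 ≤ h i)
    (Ff : f.support.Finite) (Fg : g.support.Finite) (Fh : h.support.Finite)
    (H : ∀ i j, √(f i * g j) ≤ h (i + j)) (H' : ∀ i j, √(f i * g j) ≤ h (i + j + 1)) :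
    2 * √((∑ᶠ i, f i) * ∑ᶠ i, g i) ≤ ∑ᶠ i, h i := by
  classical
  rw [finsum_eq_sum f Ff, finsum_eq_sum g Fg, finsum_eq_sum h Fh]
  obtain ⟨A, hA⟩ : ∃ A, A = Ff.toFinset := ⟨_, rfl⟩
  obtain ⟨B, hB⟩ : ∃ B, B = Fg.toFinset := ⟨_, rfl⟩
  obtain ⟨C, hC⟩ : ∃ C, C = Fh.toFinset := ⟨_, rfl⟩
  rw [← hA, ← hB, ← hC]
  have h0 : 0 ≤ ∑ i ∈ C, h i := Finset.sum_nonneg fun i _ => hh i
  rcases A.eq_empty_or_nonempty with hAe | hAn
  · rw [hAe, Finset.sum_empty, zero_mul, Real.sqrt_zero, mul_zero]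
    exact h0
  rcases B.eq_empty_or_nonempty with hBe | hBn
  · rw [hBe, Finset.sum_empty, mul_zero, Real.sqrt_zero, mul_zero]
    exact h0
  obtain ⟨i0, hi0, hmax⟩ := A.exists_max_image f hAn
  obtain ⟨j0, hj0, hmax'⟩ := B.exists_max_image g hBn
  obtain ⟨a, ha⟩ : ∃ a, a = f i0 := ⟨_, rfl⟩
  obtain ⟨b, hb⟩ : ∃ b, b = g j0 := ⟨_, rfl⟩
  rw [← ha] at hmax
  rw [← hb] at hmax'
  have memA : ∀ i, i ∈ A ↔ f i ≠ 0 := fun i => by rw [hA, Set.Finite.mem_toFinset, Function.mem_support]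
  have memB : ∀ i, i ∈ B ↔ g i ≠ 0 := fun i => by rw [hB, Set.Finite.mem_toFinset, Function.mem_support]
  have memC : ∀ i, i ∈ C ↔ h i ≠ 0 := fun i => by rw [hC, Set.Finite.mem_toFinset, Function.mem_support]
  have a0 : 0 < a := by
    rw [ha]
    exact lt_of_le_of_ne (hf _) (Ne.symm ((memA _).1 hi0))
  have b0 : 0 < b := by
    rw [hb]
    exact lt_of_le_of_ne (hg _) (Ne.symm ((memB _).1 hj0))
  obtain ⟨c, hc⟩ : ∃ c, c = √(a * b) := ⟨_, rfl⟩
  have c0 : 0 < c := by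
    rw [hc]
    exact Real.sqrt_pos.2 (mul_pos a0 b0)
  have key : ∀ t ∈ Set.Ioc (0 : ℝ) 1, ∑ i ∈ A, J38 (f i / a) t + ∑ i ∈ B, J38 (g i / b) t ≤
      ∑ i ∈ C, J38 (h i / c) t := by
    intro t ht
    rw [card38 A (fun i => f i / a), card38 B (fun i => g i / b), card38 C (fun i => h i / c)]
    have h1 := sums38 (A := A.filter fun i => t ≤ f i / a) (B := B.filter fun i => t ≤ g i / b)
      (C := C.filter fun i => t ≤ h i / c) ⟨i0, by
        rw [Finset.mem_filter, ← ha, div_self a0.ne']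
        exact ⟨hi0, ht.2⟩⟩ ⟨j0, by
        rw [Finset.mem_filter, ← hb, div_self b0.ne']
        exact ⟨hj0, ht.2⟩⟩ (by
      intro i hi j hj
      rw [Finset.mem_filter] at hi hj
      have e1 : t * a ≤ f i := (le_div_iff₀ a0).1 hi.2
      have e2 : t * b ≤ g j := (le_div_iff₀ b0).1 hj.2
      have e3 : t * c ≤ √(f i * g j) := by
        apply Real.le_sqrt_of_sq_le
        rw [mul_pow, hc, Real.sq_sqrt (mul_pos a0 b0).le]
        calc t ^ 2 * (a * b) = (t * a) * (t * b) := by ring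
          _ ≤ f i * g j := mul_le_mul e1 e2 (mul_pos ht.1 b0).le (hf i)
      have e4 : 0 < t * c := mul_pos ht.1 c0
      constructor
      · rw [Finset.mem_filter]
        have e5 := e3.trans (H i j)
        exact ⟨(memC _).2 (lt_of_lt_of_le e4 e5).ne', (le_div_iff₀ c0).2 e5⟩
      · rw [Finset.mem_filter]
        have e5 := e3.trans (H' i j)
        exact ⟨(memC _).2 (lt_of_lt_of_le e4 e5).ne', (le_div_iff₀ c0).2 e5⟩)
    exact_mod_cast h1
  have hint : ∀ (s : Finset ℤ) (u : ℤ → ℝ),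
      Integrable (fun t => ∑ i ∈ s, J38 (u i) t) (volume.restrict (Set.Ioc (0 : ℝ) 1)) :=
    fun s u => integrable_finsetSum _ fun i _ => J38_int (u i)
  have hval : ∀ (s : Finset ℤ) (u : ℤ → ℝ), (∀ i, 0 ≤ u i) →
      ∫ t in Set.Ioc (0 : ℝ) 1, ∑ i ∈ s, J38 (u i) t = ∑ i ∈ s, min (u i) 1 := by
    intro s u hu
    rw [integral_finsetSum _ fun i _ => J38_int (u i)]
    exact Finset.sum_congr rfl fun i _ => J38_eq (hu i)
  have hm := setIntegral_mono_on ((hint A fun i => f i / a).add (hint B fun i => g i / b)) (hint C fun i => h i / c)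
    measurableSet_Ioc key
  have hm2 : ∑ i ∈ A, min (f i / a) 1 + ∑ i ∈ B, min (g i / b) 1 ≤ ∑ i ∈ C, min (h i / c) 1 := by
    rw [← hval A (fun i => f i / a) fun i => div_nonneg (hf i) a0.le,
      ← hval B (fun i => g i / b) fun i => div_nonneg (hg i) b0.le,
      ← hval C (fun i => h i / c) fun i => div_nonneg (hh i) c0.le,
      ← integral_add (hint A fun i => f i / a) (hint B fun i => g i / b)]
    exact hm
  have s1 : ∑ i ∈ A, min (f i / a) 1 = (∑ i ∈ A, f i) / a := by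
    rw [Finset.sum_div]
    exact Finset.sum_congr rfl fun i hi => min_eq_left ((div_le_one a0).2 (hmax i hi))
  have s2 : ∑ i ∈ B, min (g i / b) 1 = (∑ i ∈ B, g i) / b := by
    rw [Finset.sum_div]
    exact Finset.sum_congr rfl fun i hi => min_eq_left ((div_le_one b0).2 (hmax' i hi))
  have s3 : ∑ i ∈ C, min (h i / c) 1 ≤ (∑ i ∈ C, h i) / c := by
    rw [Finset.sum_div]
    exact Finset.sum_le_sum fun i _ => min_le_left _ _
  rw [s1, s2] at hm2
  have hm3 := hm2.trans s3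
  obtain ⟨X, hX⟩ : ∃ X, X = ∑ i ∈ A, f i := ⟨_, rfl⟩
  obtain ⟨Y, hY⟩ : ∃ Y, Y = ∑ i ∈ B, g i := ⟨_, rfl⟩
  obtain ⟨Z, hZ⟩ : ∃ Z, Z = ∑ i ∈ C, h i := ⟨_, rfl⟩
  have X0 : 0 ≤ X := by rw [hX]; exact Finset.sum_nonneg fun i _ => hf i
  have Y0 : 0 ≤ Y := by rw [hY]; exact Finset.sum_nonneg fun i _ => hg i
  rw [← hX, ← hY, ← hZ] at hm3
  rw [← hX, ← hY, ← hZ]
  -- AM-GM
  have am : 2 * √(X * Y) / c ≤ X / a + Y / b := by
    have e1 : √(X * Y) / c = √(X / a) * √(Y / b) := by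
      rw [hc, ← Real.sqrt_div' _ (mul_pos a0 b0).le, ← Real.sqrt_mul (div_nonneg X0 a0.le)]
      congr 1
      field_simp
    rw [mul_div_assoc, e1]
    have e2 := Real.sq_sqrt (div_nonneg X0 a0.le)
    have e3 := Real.sq_sqrt (div_nonneg Y0 b0.le)
    nlinarith [sq_nonneg (√(X / a) - √(Y / b))]
  have fin := am.trans hm3
  exact (div_le_div_iff_of_pos_right c0).1 fin

end Pool.Agent.SQ
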