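import Pool.Agent.Helper42.SQ.PLG

/-!
# SQ2, block PLg: the discrete inequality of Prekopa and Leindler with `g` functions (from `prekopaG`, helper27)
-/

set_option autoImplicit false

namespace Pool.Agent.SQ

theorem prekopa_g {g : ℕ} (hg : 0 < g) (f : Fin g → ℤ → ℝ) (h : ℤ → ℝ) (hf : ∀ a i, 0 ≤ f a i) (hh : ∀ i, 0 ≤ h i)
    (Ff : ∀ a, (f a).support.Finite) (Fh : h.support.Finite)
    (H : ∀ (i : Fin g → ℤ) (e : ℕ), e < g → ∏ a, f a (i a) ≤ h (∑ a, i a + e) ^ g) :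
    (g : ℝ) ^ g * ∏ a, ∑ᶠ i, f a i ≤ (∑ᶠ i, h i) ^ g := by
  haveI : Nonempty (Fin g) := ⟨⟨0, hg⟩⟩
  have hg0 : g ≠ 0 := hg.ne'
  have hp : ∀ a, 0 ≤ ∑ᶠ i, f a i := fun a => finsum_nonneg fun i => hf a i
  have key := prekopaG f h hf hh Ff Fh (by
    intro i e he
    rw [Fintype.card_fin] at he
    rw [Fintype.card_fin, one_div]
    calc (∏ a, f a (i a)) ^ ((g : ℝ)⁻¹) ≤ (h (∑ a, i a + e) ^ g) ^ ((g : ℝ)⁻¹) :=
          Real.rpow_le_rpow (Finset.prod_nonneg fun a _ => hf a _) (H i e he) (by positivity)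
      _ = h (∑ a, i a + e) := Real.pow_rpow_inv_natCast (hh _) hg0)
  rw [Fintype.card_fin, one_div] at key
  have h1 : (0 : ℝ) ≤ ∏ a, ∑ᶠ i, f a i := Finset.prod_nonneg fun a _ => hp a
  calc (g : ℝ) ^ g * ∏ a, ∑ᶠ i, f a i = (g * (∏ a, ∑ᶠ i, f a i) ^ ((g : ℝ)⁻¹)) ^ g := by
        rw [mul_pow, Real.rpow_inv_natCast_pow h1 hg0]
    _ ≤ (∑ᶠ i, h i) ^ g := pow_le_pow_left₀ (by positivity) key g

end Pool.Agent.SQ
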