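import Pool.Agent.Helper42.SQ.HT
import Pool.Agent.Helper42.SQ.DATA2

/-!
# SQ, block SHARP: the constant `2 n + 2` is best possible
-/

set_option autoImplicit false
set_option linter.unusedSectionVars false
set_option linter.unusedVariables false

namespace Pool.Agent.SQ

open NumberField Filter Module
open Pool.Agent.Helper64.Vojta (Pl nv)
open Pool.Agent.V2
open Pool.Agent.Chart (fld dg crd val hgt lam)

universe u

/-! ### one absolute value -/

/-- the constant in the triangle inequality -/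
private noncomputable def ka64 {k : Type u} [Field k] [NumberField k] : Pl k → ℝ
  | .inl _ => 4
  | .inr _ => 1

section

variable {k : Type u} [Field k] [NumberField k]

private theorem ka_one64 (v : Pl k) : 1 ≤ ka64 v := by
  rcases v with v | v <;> simp [ka64]

private theorem finS_ka64 : FinS (K := k) fun v => Real.log (ka64 v) := by
  unfold FinS
  simp [ka64]

/-- `log max 1 |c|` -/
private noncomputable def lm64 (c : k) (v : Pl k) : ℝ := Real.log (max 1 (nv v c))

private theorem lm_nonneg64 (c : k) (v : Pl k) : 0 ≤ lm64 c v := Real.log_nonneg (le_max_left _ _)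

private theorem finS_lm64 (c : k) : FinS (lm64 c) := by
  by_cases hj : c = 0
  · have h1 : lm64 c = fun _ => (0 : ℝ) := by
      funext v
      unfold lm64
      rw [hj, Pool.Agent.Helper64.Vojta.nv_zero, max_eq_left zero_le_one, Real.log_one]
    rw [h1]
    exact FinS.zero
  · refine Set.Finite.subset (finS_nv hj) fun v hv => ?_
    rw [Function.mem_support] at hv ⊢
    intro h1
    apply hv
    have h0 : 0 < nv (.inr v : Pl k) c := Pool.Agent.Helper64.Vojta.nv_pos _ hj
    have h2 : nv (.inr v : Pl k) c = 1 := by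
      rcases Real.log_eq_zero.1 h1 with h3 | h3 | h3
      · exact absurd h3 h0.ne'
      · exact h3
      · linarith
    show Real.log (max 1 (nv (.inr v) c)) = 0
    rw [h2, max_self, Real.log_one]

private theorem QS.conj64 {L : Type u} [Field L] [Algebra k L] {σ : L ≃ₐ[k] L} {N : Pl k → L → ℝ} (h : QS σ N) :
    QS σ fun v x => N v (σ x) where
  zero v := by rw [map_zero]; exact h.zero v
  pos v x hx := h.pos v _ (by simpa using hx)
  mul v x y := by rw [map_mul]; exact h.mul v _ _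
  add v x y := by rw [map_add]; exact h.add v _ _
  ult v x y := by rw [map_add]; exact h.ult v _ _
  ext v x := by rw [AlgEquiv.commutes]; exact h.ext v x
  fin x hx := h.fin _ (by simpa using hx)
  prod x hx := h.prod _ (by simpa using hx)
  inv := h.inv
  fix := h.fix

section

variable {L : Type u} [Field L] [Algebra k L] {σ : L ≃ₐ[k] L} {N : Pl k → L → ℝ} (h : QS σ N)

include h

private theorem add64 (v : Pl k) (x y : L) : N v (x + y) ≤ ka64 v * max (N v x) (N v y) := by
  rcases v with v | v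
  · exact h.add _ x y
  · have h1 := h.ult v x y
    simpa [ka64] using h1

private theorem nonneg64 (v : Pl k) (x : L) : 0 ≤ N v x := by
  by_cases hx : x = 0
  · rw [hx, h.zero v]
  · exact (h.pos v x hx).le

private theorem one64 (v : Pl k) : N v 1 = 1 := by
  have h1 := h.ext v 1
  rwa [map_one, Pool.Agent.Helper64.Vojta.nv_one] at h1

private theorem neg64 (v : Pl k) (x : L) : N v (-x) = N v x := by
  have h1 : N v (-1) * N v (-1) = 1 := by
    rw [← h.mul v, neg_one_mul, neg_neg, one64 h v]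
  have h2 : N v (-1) = 1 := by
    have h3 := nonneg64 h v (-1)
    nlinarith
  rw [← neg_one_mul, h.mul v, h2, one_mul]

/-- If `A s ^ 2 + U s t + B t ^ 2 = 0` and `|t| ≤ |s|`, then `|s| / |t|` is at most `max 1 |U|` up to a constant. -/
private theorem ratio64 (v : Pl k) {A B e u : k} (hA : A ≠ 0) {s t : L} (hs : s ≠ 0) (ht : t ≠ 0)
    (hrel : algebraMap k L A * s ^ 2 + algebraMap k L (u + e) * s * t + algebraMap k L B * t ^ 2 = 0)
    (hst : N v t ≤ N v s) :
    Real.log (N v s) ≤ Real.log (N v t) + Real.log (max 1 (nv v u)) +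
      (2 * Real.log (ka64 v) + lm64 A⁻¹ v + lm64 B v + lm64 e v) := by
  have hNs := h.pos v s hs
  have hNt := h.pos v t ht
  have hka : 0 < ka64 v := zero_lt_one.trans_le (ka_one64 v)
  have hu1 : (0 : ℝ) < max 1 (nv v u) := lt_max_of_lt_left one_pos
  have he1 : (0 : ℝ) < max 1 (nv v e) := lt_max_of_lt_left one_pos
  have hB1 : (0 : ℝ) < max 1 (nv v B) := lt_max_of_lt_left one_pos
  have hA1 : (0 : ℝ) < max 1 (nv v A⁻¹) := lt_max_of_lt_left one_pos
  -- `|u + e|`
  have hue : N v (algebraMap k L (u + e)) ≤ ka64 v * (max 1 (nv v u) * max 1 (nv v e)) := by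
    rw [map_add]
    refine (add64 h v _ _).trans (mul_le_mul_of_nonneg_left ?_ hka.le)
    rw [h.ext, h.ext]
    refine max_le ?_ ?_
    · exact (le_max_right 1 _).trans (le_mul_of_one_le_right hu1.le (le_max_left _ _))
    · exact (le_max_right 1 _).trans (le_mul_of_one_le_left he1.le (le_max_left _ _))
  -- `s ^ 2`
  have hs2 : s * s = algebraMap k L A⁻¹ * -(algebraMap k L (u + e) * s * t + algebraMap k L B * t ^ 2) := by
    have hA' : algebraMap k L A ≠ 0 := by simpa using hA
    rw [map_inv₀]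
    field_simp
    linear_combination hrel
  have h1 : N v s * N v s ≤ max 1 (nv v A⁻¹) * (ka64 v * (ka64 v * (max 1 (nv v u) * max 1 (nv v e)) * max 1 (nv v B) *
      N v s * N v t)) := by
    rw [← h.mul, hs2, h.mul, h.ext, neg64 h]
    refine mul_le_mul (le_max_right _ _) ?_ (nonneg64 h _ _) hA1.le
    refine (add64 h v _ _).trans (mul_le_mul_of_nonneg_left (max_le ?_ ?_) hka.le)
    · rw [h.mul, h.mul]
      refine mul_le_mul_of_nonneg_right (mul_le_mul_of_nonneg_right ?_ hNs.le) hNt.le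
      exact hue.trans (le_mul_of_one_le_right (by positivity) (le_max_left _ _))
    · rw [h.mul, h.ext, pow_two, h.mul]
      have h2 : nv v B ≤ ka64 v * (max 1 (nv v u) * max 1 (nv v e)) * max 1 (nv v B) := by
        refine (le_max_right 1 _).trans (le_mul_of_one_le_left hB1.le ?_)
        have h3 := one_le_mul_of_one_le_of_one_le (le_max_left 1 (nv v u)) (le_max_left 1 (nv v e))
        exact one_le_mul_of_one_le_of_one_le (ka_one64 v) h3
      calc nv v B * (N v t * N v t) ≤ (ka64 v * (max 1 (nv v u) * max 1 (nv v e)) * max 1 (nv v B)) * (N v s * N v t) := by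
            refine mul_le_mul h2 (mul_le_mul_of_nonneg_right hst hNt.le) (by positivity) (by positivity)
        _ = _ := by ring
  have h4 : N v s ≤ max 1 (nv v A⁻¹) * (ka64 v * (ka64 v * (max 1 (nv v u) * max 1 (nv v e)) * max 1 (nv v B) *
      N v t)) := by
    refine le_of_mul_le_mul_right (le_trans h1 (le_of_eq ?_)) hNs
    ring
  have h5 := Real.log_le_log hNs h4
  rw [Real.log_mul hA1.ne' (by positivity), Real.log_mul hka.ne' (by positivity), Real.log_mul (by positivity) hNt.ne',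
    Real.log_mul (by positivity) hB1.ne', Real.log_mul hka.ne' (by positivity), Real.log_mul hu1.ne' he1.ne'] at h5
  unfold lm64
  linarith

/-- the size of `s P₁ + t P₂` -/
private theorem mx_le64 {n : ℕ} (v : Pl k) (P₁ P₂ : Fin (n + 1) → k) {s t : L} (hs : s ≠ 0) (ht : t ≠ 0)
    (x : Fin (n + 1) → L) (hx : ∀ j, x j = s * algebraMap k L (P₁ j) + t * algebraMap k L (P₂ j))
    (hx0 : 0 < mxn (N v) x) (c : ℝ) (h1 : Real.log (N v s) ≤ c) (h2 : Real.log (N v t) ≤ c) :
    Real.log (mxn (N v) x) ≤ c + (Real.log (ka64 v) + ∑ j, (lm64 (P₁ j) v + lm64 (P₂ j) v)) := by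
  have hNs := h.pos v s hs
  have hNt := h.pos v t ht
  have hka : 0 < ka64 v := zero_lt_one.trans_le (ka_one64 v)
  have hp : ∀ a : k, (0 : ℝ) < max 1 (nv v a) := fun a => lt_max_of_lt_left one_pos
  have hp' : ∀ j, (0 : ℝ) < max 1 (nv v (P₁ j)) * max 1 (nv v (P₂ j)) := fun j => mul_pos (hp _) (hp _)
  have h1' : N v s ≤ Real.exp c := (Real.log_le_iff_le_exp hNs).1 h1
  have h2' : N v t ≤ Real.exp c := (Real.log_le_iff_le_exp hNt).1 h2
  set A : ℝ := ∏ j, (max 1 (nv v (P₁ j)) * max 1 (nv v (P₂ j))) with hA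
  have hA1 : 0 < A := Finset.prod_pos fun j _ => hp' j
  have hlogA : Real.log A = ∑ j, (lm64 (P₁ j) v + lm64 (P₂ j) v) := by
    rw [hA, Real.log_prod fun j _ => (hp' j).ne']
    exact Finset.sum_congr rfl fun j _ => Real.log_mul (hp _).ne' (hp _).ne'
  have h3 : mxn (N v) x ≤ ka64 v * (Real.exp c * A) := by
    refine ciSup_le fun j => ?_
    rw [hx j]
    have hj : max 1 (nv v (P₁ j)) * max 1 (nv v (P₂ j)) ≤ A := by
      rw [hA, ← Finset.mul_prod_erase _ _ (Finset.mem_univ j)]
      refine le_mul_of_one_le_right (hp' j).le ?_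
      exact Finset.prod_induction _ (fun t : ℝ => 1 ≤ t) (fun a b ha hb => one_le_mul_of_one_le_of_one_le ha hb)
        (le_refl _) fun i _ => one_le_mul_of_one_le_of_one_le (le_max_left _ _) (le_max_left _ _)
    refine (add64 h v _ _).trans (mul_le_mul_of_nonneg_left (max_le ?_ ?_) hka.le)
    · rw [h.mul, h.ext]
      refine mul_le_mul h1' (le_trans ((le_max_right 1 _).trans (le_mul_of_one_le_right (hp _).le (le_max_left _ _))) hj)
        (Pool.Agent.Helper64.Vojta.nv_nonneg _ _) (Real.exp_pos _).le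
    · rw [h.mul, h.ext]
      refine mul_le_mul h2' (le_trans ((le_max_right 1 _).trans (le_mul_of_one_le_left (hp _).le (le_max_left _ _))) hj)
        (Pool.Agent.Helper64.Vojta.nv_nonneg _ _) (Real.exp_pos _).le
  have h5 := Real.log_le_log hx0 h3
  rw [Real.log_mul hka.ne' (by positivity), Real.log_mul (Real.exp_pos _).ne' hA1.ne', Real.log_exp, hlogA] at h5
  linarith


private theorem le_mxn64 {ι : Type*} [Finite ι] (v : Pl k) (X : ι → L) (a : ι) : N v (X a) ≤ mxn (N v) X :=
  le_ciSup (Set.finite_range fun a => N v (X a)).bddAbove a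

private theorem mxn_one64 {ι : Type*} [Finite ι] (v : Pl k) (X : ι → L) (hX : ∃ a, X a = 1) : 1 ≤ mxn (N v) X := by
  obtain ⟨a, ha⟩ := hX
  have h1 := le_mxn64 h v X a
  rwa [ha, one64 h v] at h1

private theorem finS_max64 (x : L) : FinS fun v => Real.log (max 1 (N v x)) := by
  by_cases hx : x = 0
  · have h1 : (fun v => Real.log (max 1 (N v x))) = fun _ => (0 : ℝ) := by
      funext v
      rw [hx, h.zero v, max_eq_left zero_le_one, Real.log_one]
    rw [h1]
    exact FinS.zero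
  · refine Set.Finite.subset (h.fin x hx) fun v hv => ?_
    rw [Function.mem_support] at hv ⊢
    intro h1
    apply hv
    have h2 : N (.inr v) x = 1 := by
      rcases Real.log_eq_zero.1 h1 with h3 | h3 | h3
      · exact absurd h3 (h.pos _ x hx).ne'
      · exact h3
      · have := h.pos (.inr v) x hx
        linarith
    show Real.log (max 1 (N (.inr v) x)) = 0
    rw [h2, max_self, Real.log_one]

private theorem finS_mxn64 {ι : Type*} [Finite ι] (X : ι → L) (hX : ∃ a, X a = 1) :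
    FinS fun v => Real.log (mxn (N v) X) := by
  classical
  have : Fintype ι := Fintype.ofFinite ι
  have h1 : FinS fun v => ∑ a, Real.log (max 1 (N v (X a))) := FinS.sum _ fun a _ => finS_max64 h (X a)
  refine Set.Finite.subset h1 fun v hv => ?_
  rw [Function.mem_support] at hv ⊢
  intro h2
  apply hv
  have h3 : ∀ b, N (.inr v) (X b) ≤ 1 := by
    intro b
    have h4 := (Finset.sum_eq_zero_iff_of_nonneg fun a _ => Real.log_nonneg (le_max_left 1 (N (.inr v) (X a)))).1 h2 b
      (Finset.mem_univ b)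
    by_contra h5
    rw [not_le] at h5
    rw [max_eq_right h5.le] at h4
    exact absurd h4 (Real.log_pos h5).ne'
  have : Nonempty ι := ⟨hX.choose⟩
  have h6 : mxn (N (.inr v)) X = 1 := le_antisymm (ciSup_le h3) (mxn_one64 h _ X hX)
  show Real.log (mxn (N (.inr v)) X) = 0
  rw [h6, Real.log_one]

end

/-- the constant in the bound of the height -/
private noncomputable def ch64 {n : ℕ} (P₁ P₂ : Fin (n + 1) → k) (A B e : k) (v : Pl k) : ℝ :=
  (2 * Real.log (ka64 v) + lm64 A⁻¹ v + lm64 B v + lm64 e v) + (2 * Real.log (ka64 v) + lm64 B⁻¹ v + lm64 A v + lm64 e v) +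
    2 * (Real.log (ka64 v) + ∑ j, (lm64 (P₁ j) v + lm64 (P₂ j) v))

private theorem finS_ch64 {n : ℕ} (P₁ P₂ : Fin (n + 1) → k) (A B e : k) : FinS (ch64 P₁ P₂ A B e) := by
  unfold ch64
  refine FinS.add (FinS.add ?_ ?_) (FinS.const_mul (FinS.add finS_ka64 (FinS.sum _ fun j _ => (finS_lm64 _).add (finS_lm64 _))) 2)
  · exact (((finS_ka64.const_mul 2).add (finS_lm64 _)).add (finS_lm64 _)).add (finS_lm64 _)
  · exact (((finS_ka64.const_mul 2).add (finS_lm64 _)).add (finS_lm64 _)).add (finS_lm64 _)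

private theorem loc_height64 {L : Type u} [Field L] [Algebra k L] {σ : L ≃ₐ[k] L} {N : Pl k → L → ℝ} (h : QS σ N)
    {n : ℕ} (v : Pl k) (P₁ P₂ : Fin (n + 1) → k) {A B e u : k} (hA : A ≠ 0) (hB : B ≠ 0) {s t : L} (hs : s ≠ 0)
    (ht : t ≠ 0) (hrel : algebraMap k L A * s ^ 2 + algebraMap k L (u + e) * s * t + algebraMap k L B * t ^ 2 = 0)
    (x : Fin (n + 1) → L) (hx1 : ∃ j, x j = 1) (hx : ∀ j, x j = s * algebraMap k L (P₁ j) + t * algebraMap k L (P₂ j)) :
    2 * Real.log (mxn (N v) x) ≤ Real.log (N v s) + Real.log (N v t) + lm64 u v + ch64 P₁ P₂ A B e v := by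
  have hx0 : 0 < mxn (N v) x := zero_lt_one.trans_le (mxn_one64 h v x hx1)
  have hka : 0 ≤ Real.log (ka64 v) := Real.log_nonneg (ka_one64 v)
  have g1 := lm_nonneg64 A⁻¹ v
  have g2 := lm_nonneg64 B⁻¹ v
  have g3 := lm_nonneg64 A v
  have g4 := lm_nonneg64 B v
  have g5 := lm_nonneg64 e v
  have hu : Real.log (max 1 (nv v u)) = lm64 u v := rfl
  rcases le_total (N v t) (N v s) with h1 | h1
  · have h2 := ratio64 h v hA hs ht hrel h1
    have h3 := mx_le64 h v P₁ P₂ hs ht x hx hx0 _ (le_refl _) (Real.log_le_log (h.pos v t ht) h1)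
    unfold ch64
    rw [hu] at h2
    linarith
  · have hrel' : algebraMap k L B * t ^ 2 + algebraMap k L (u + e) * t * s + algebraMap k L A * s ^ 2 = 0 := by
      linear_combination hrel
    have h2 := ratio64 h v hB ht hs hrel' h1
    have h3 := mx_le64 h v P₁ P₂ hs ht x hx hx0 _ (Real.log_le_log (h.pos v s hs) h1) (le_refl _)
    unfold ch64
    rw [hu] at h2
    linarith

private theorem height64 {L : Type u} [Field L] [Algebra k L] {σ : L ≃ₐ[k] L} {N : Pl k → L → ℝ} (h : QS σ N)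
    {n : ℕ} (P₁ P₂ : Fin (n + 1) → k) {A B e u : k} (hA : A ≠ 0) (hB : B ≠ 0) {s t : L} (hs : s ≠ 0)
    (ht : t ≠ 0) (hrel : algebraMap k L A * s ^ 2 + algebraMap k L (u + e) * s * t + algebraMap k L B * t ^ 2 = 0)
    (x : Fin (n + 1) → L) (hx1 : ∃ j, x j = 1) (hx : ∀ j, x j = s * algebraMap k L (P₁ j) + t * algebraMap k L (P₂ j)) :
    (gsum fun v => Real.log (mxn (N v) x) + Real.log (mxn (N v) fun i => σ (x i))) ≤
      gsum (lm64 u) + gsum (ch64 P₁ P₂ A B e) := by
  have hx1' : ∃ j, (fun i => σ (x i)) j = 1 := by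
    obtain ⟨j, hj⟩ := hx1
    exact ⟨j, by show σ (x j) = 1; rw [hj, map_one]⟩
  have hσs : σ s ≠ 0 := by simpa using hs
  have hσt : σ t ≠ 0 := by simpa using ht
  have f1 := (finS_mxn64 h x hx1).add (finS_mxn64 h _ hx1')
  have fu := finS_lm64 u
  have fc := finS_ch64 P₁ P₂ A B e
  have fs := (h.fin s hs).add (h.fin _ hσs)
  have ft := (h.fin t ht).add (h.fin _ hσt)
  have h1 : gsum (fun v => 2 * (Real.log (mxn (N v) x) + Real.log (mxn (N v) fun i => σ (x i)))) ≤
      gsum fun v => ((Real.log (N v s) + Real.log (N v (σ s))) + (Real.log (N v t) + Real.log (N v (σ t)))) +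
        (2 * lm64 u v + 2 * ch64 P₁ P₂ A B e v) := by
    refine gsum_mono (f1.const_mul 2) ((fs.add ft).add ((fu.const_mul 2).add (fc.const_mul 2))) fun v => ?_
    have h2 := loc_height64 h v P₁ P₂ hA hB hs ht hrel x hx1 hx
    have h3 := loc_height64 h.conj64 v P₁ P₂ hA hB hs ht hrel x hx1 hx
    have h4 : mxn ((fun v x => N v (σ x)) v) x = mxn (N v) fun i => σ (x i) := rfl
    rw [h4] at h3
    have h5 : 2 * Real.log (mxn (N v) fun i => σ (x i)) ≤ Real.log (N v (σ s)) + Real.log (N v (σ t)) + lm64 u v +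
      ch64 P₁ P₂ A B e v := h3
    linarith
  rw [gsum_const_mul, gsum_add (fs.add ft) ((fu.const_mul 2).add (fc.const_mul 2)), gsum_add fs ft, h.prod s hs,
    h.prod t ht, gsum_add (fu.const_mul 2) (fc.const_mul 2), gsum_const_mul, gsum_const_mul] at h1
  linarith

/-! ### the lower bound -/

private theorem sum_ge64 {ι κ : Type*} [Fintype ι] [Fintype κ] (e : κ → ι) (he : Function.Injective e) (f c : ι → ℝ)
    (hc : ∀ i, 0 ≤ c i) (hf : ∀ i, - c i ≤ f i) : ∑ j, f (e j) - ∑ i, c i ≤ ∑ i, f i := by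
  classical
  have h1 : ∑ j, (f (e j) + c (e j)) ≤ ∑ i, (f i + c i) := by
    rw [← Finset.sum_image (f := fun i => f i + c i) (s := Finset.univ) (g := e) (fun a _ b _ hab => he hab)]
    exact Finset.sum_le_sum_of_subset_of_nonneg (Finset.subset_univ _) fun i _ _ => by
      have := hf i
      linarith
  have h2 : ∑ j, f (e j) ≤ ∑ j, (f (e j) + c (e j)) := Finset.sum_le_sum fun j _ => by
    have := hc (e j)
    linarith
  have h3 : ∑ i, (f i + c i) = ∑ i, f i + ∑ i, c i := Finset.sum_add_distrib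
  linarith

/-- the contribution of a place -/
private noncomputable def ee64 (n : ℕ) (u : k) : Pl k → ℝ
  | .inl v => n * Real.log (nv (.inl v) u)
  | .inr v => - Real.log (nv (.inr v) u)

private theorem loc_lower64 {n q : ℕ} (hn : 0 < n) (l : Fin q → Fin (n + 1) → k) (α β : Fin n → Fin q) (i₁ i₂ : Fin q)
    (hinj : Function.Injective (Sum.elim α β)) (h12 : i₁ ≠ i₂) (a b : Fin n → k) (ha : ∀ i, a i ≠ 0) (hb : ∀ i, b i ≠ 0)
    (v : Pl k) : ∃ D : ℝ, ∀ (u : k), u ≠ 0 → ∀ (L : Type u) [Field L] [Algebra k L] (σ : L ≃ₐ[k] L) (N : Pl k → L → ℝ),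
      QS σ N → ∀ x : Fin (n + 1) → L, (∃ j, x j = 1) → ∀ s t : L, s ≠ 0 → t ≠ 0 → (∀ i, lv (l i) x ≠ 0) →
      (∀ i, lv (l (α i)) x = t * algebraMap k L (b i)) → (∀ i, lv (l (β i)) x = s * algebraMap k L (a i)) →
      algebraMap k L u * s * t = - (lv (l i₁) x * lv (l i₂) x) →
      ee64 n u v - D ≤ ∑ i, (Real.log (mxn (N v) x) - Real.log (N v (lv (l i) x))) := by
  choose C hC1 hC2 hC3 using fun i => lv_le (k := k) (l i)
  refine ⟨(n * (C i₁ v + C i₂ v) + ∑ i, (|Real.log (nv v (b i))| + |Real.log (nv v (a i))|)) +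
    (C (α ⟨0, hn⟩) v + C (β ⟨0, hn⟩) v + |Real.log (nv v (b ⟨0, hn⟩))| + |Real.log (nv v (a ⟨0, hn⟩))|) + ∑ i, C i v, ?_⟩
  intro u hu L _ _ σ N h x hx1 s t hs ht hne hα hβ hrel
  have hle := fun i => hC3 i L σ N h x v (hne i)
  have hlog : Real.log (nv v u) + Real.log (N v s) + Real.log (N v t) =
      Real.log (N v (lv (l i₁) x)) + Real.log (N v (lv (l i₂) x)) := by
    have h1 := congrArg (N v) hrel
    rw [neg64 h, h.mul, h.mul, h.mul, h.ext] at h1
    have h2 := congrArg Real.log h1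
    rw [Real.log_mul (mul_pos (Pool.Agent.Helper64.Vojta.nv_pos v hu) (h.pos v s hs)).ne' (h.pos v t ht).ne',
      Real.log_mul (Pool.Agent.Helper64.Vojta.nv_pos v hu).ne' (h.pos v s hs).ne',
      Real.log_mul (h.pos v _ (hne _)).ne' (h.pos v _ (hne _)).ne'] at h2
    exact h2
  have hla : ∀ i, Real.log (N v (lv (l (α i)) x)) = Real.log (N v t) + Real.log (nv v (b i)) := by
    intro i
    rw [hα i, h.mul, h.ext, Real.log_mul (h.pos v t ht).ne' (Pool.Agent.Helper64.Vojta.nv_pos v (hb i)).ne']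
  have hlb : ∀ i, Real.log (N v (lv (l (β i)) x)) = Real.log (N v s) + Real.log (nv v (a i)) := by
    intro i
    rw [hβ i, h.mul, h.ext, Real.log_mul (h.pos v s hs).ne' (Pool.Agent.Helper64.Vojta.nv_pos v (ha i)).ne']
  have hn0 : (0 : ℝ) ≤ n := Nat.cast_nonneg _
  have hSC : 0 ≤ ∑ i, (|Real.log (nv v (b i))| + |Real.log (nv v (a i))|) :=
    Finset.sum_nonneg fun i _ => add_nonneg (abs_nonneg _) (abs_nonneg _)
  have hD2 : 0 ≤ C (α ⟨0, hn⟩) v + C (β ⟨0, hn⟩) v + |Real.log (nv v (b ⟨0, hn⟩))| + |Real.log (nv v (a ⟨0, hn⟩))| := by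
    have := hC2 (α ⟨0, hn⟩) v
    have := hC2 (β ⟨0, hn⟩) v
    positivity
  have hD1 : 0 ≤ n * (C i₁ v + C i₂ v) := mul_nonneg hn0 (add_nonneg (hC2 _ _) (hC2 _ _))
  rcases v with v | v
  · -- infinite place
    have h1 := sum_ge64 (Sum.elim α β) hinj (fun i => Real.log (mxn (N (.inl v)) x) - Real.log (N (.inl v) (lv (l i) x)))
      (fun i => C i (.inl v)) (fun i => hC2 i _) (fun i => by have := hle i; show - (C i _) ≤ _ - _; linarith)
    rw [Fintype.sum_sum_type] at h1
    simp only [Sum.elim_inl, Sum.elim_inr, hla, hlb] at h1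
    rw [← Finset.sum_add_distrib] at h1
    have h2 : ∑ i : Fin n, ((Real.log (mxn (N (.inl v)) x) - (Real.log (N (.inl v) t) + Real.log (nv (.inl v) (b i)))) +
        (Real.log (mxn (N (.inl v)) x) - (Real.log (N (.inl v) s) + Real.log (nv (.inl v) (a i))))) =
        n * (2 * Real.log (mxn (N (.inl v)) x) - Real.log (N (.inl v) s) - Real.log (N (.inl v) t)) -
          ∑ i, (Real.log (nv (.inl v) (b i)) + Real.log (nv (.inl v) (a i))) := by
      have e1 : ∀ i : Fin n, ((Real.log (mxn (N (.inl v)) x) - (Real.log (N (.inl v) t) + Real.log (nv (.inl v) (b i)))) +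
        (Real.log (mxn (N (.inl v)) x) - (Real.log (N (.inl v) s) + Real.log (nv (.inl v) (a i))))) =
        (2 * Real.log (mxn (N (.inl v)) x) - Real.log (N (.inl v) s) - Real.log (N (.inl v) t)) -
          (Real.log (nv (.inl v) (b i)) + Real.log (nv (.inl v) (a i))) := fun i => by ring
      rw [Finset.sum_congr rfl fun i _ => e1 i, Finset.sum_sub_distrib, Finset.sum_const, Finset.card_univ,
        Fintype.card_fin, nsmul_eq_mul]
    rw [h2] at h1
    have h3 : ∑ i, (Real.log (nv (.inl v) (b i)) + Real.log (nv (.inl v) (a i))) ≤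
        ∑ i, (|Real.log (nv (.inl v) (b i))| + |Real.log (nv (.inl v) (a i))|) :=
      Finset.sum_le_sum fun i _ => add_le_add (le_abs_self _) (le_abs_self _)
    have h4 : (n : ℝ) * (Real.log (nv (.inl v) u) - (C i₁ (.inl v) + C i₂ (.inl v))) ≤
        n * (2 * Real.log (mxn (N (.inl v)) x) - Real.log (N (.inl v) s) - Real.log (N (.inl v) t)) := by
      refine mul_le_mul_of_nonneg_left ?_ hn0
      have h5 := hle i₁
      have h6 := hle i₂
      linarith
    show n * Real.log (nv (.inl v) u) - _ ≤ _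
    linarith
  · -- finite place
    have hj : Function.Injective (![i₁, i₂] : Fin 2 → Fin q) := by
      intro c d hcd
      fin_cases c <;> fin_cases d <;> simp_all [Ne.symm h12]
    have h1 := sum_ge64 (![i₁, i₂] : Fin 2 → Fin q) hj
      (fun i => Real.log (mxn (N (.inr v)) x) - Real.log (N (.inr v) (lv (l i) x)))
      (fun i => C i (.inr v)) (fun i => hC2 i _) (fun i => by have := hle i; show - (C i _) ≤ _ - _; linarith)
    rw [Fin.sum_univ_two] at h1
    simp only [Matrix.cons_val_zero, Matrix.cons_val_one] at h1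
    have h2 := hle (α ⟨0, hn⟩)
    have h3 := hle (β ⟨0, hn⟩)
    rw [hla] at h2
    rw [hlb] at h3
    have h4 := neg_abs_le (Real.log (nv (.inr v) (b ⟨0, hn⟩)))
    have h5 := neg_abs_le (Real.log (nv (.inr v) (a ⟨0, hn⟩)))
    show - Real.log (nv (.inr v) u) - _ ≤ _
    linarith

/-! ### all places -/

private theorem core64 {n q : ℕ} (hn : 0 < n) (l : Fin q → Fin (n + 1) → k) (α β : Fin n → Fin q) (i₁ i₂ : Fin q)
    (hinj : Function.Injective (Sum.elim α β)) (h12 : i₁ ≠ i₂) (P₁ P₂ : Fin (n + 1) → k) (a b : Fin n → k)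
    (ha : ∀ i, a i ≠ 0) (hb : ∀ i, b i ≠ 0) (A B e : k) (hA : A ≠ 0) (hB : B ≠ 0) (S : Finset (Pl k)) :
    ∃ C : ℝ, 0 ≤ C ∧ ∀ (u : k), u ≠ 0 → ∀ (L : Type u) [Field L] [Algebra k L] (σ : L ≃ₐ[k] L) (N : Pl k → L → ℝ),
      QS σ N → ∀ x : Fin (n + 1) → L, (∃ j, x j = 1) → ∀ s t : L, s ≠ 0 → t ≠ 0 →
      (∀ j, x j = s * algebraMap k L (P₁ j) + t * algebraMap k L (P₂ j)) → (∀ i, lv (l i) x ≠ 0) →
      (∀ i, lv (l (α i)) x = t * algebraMap k L (b i)) → (∀ i, lv (l (β i)) x = s * algebraMap k L (a i)) →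
      algebraMap k L u * s * t = - (lv (l i₁) x * lv (l i₂) x) →
      algebraMap k L A * s ^ 2 + algebraMap k L (u + e) * s * t + algebraMap k L B * t ^ 2 = 0 →
      (gsum fun v => Real.log (mxn (N v) x) + Real.log (mxn (N v) fun i => σ (x i))) ≤ gsum (lm64 u) + C ∧
      2 * ∑ v ∈ S, ee64 n u v - C ≤ ∑ v ∈ S, ∑ i, ((Real.log (mxn (N v) x) - Real.log (N v (lv (l i) x))) +
        (Real.log (mxn (N v) fun j => σ (x j)) - Real.log (N v (σ (lv (l i) x))))) ∧
      ∑ v ∈ S, ∑ i, ((Real.log (mxn (N v) x) - Real.log (N v (lv (l i) x))) +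
        (Real.log (mxn (N v) fun j => σ (x j)) - Real.log (N v (σ (lv (l i) x))))) ≤
      q * (gsum fun v => Real.log (mxn (N v) x) + Real.log (mxn (N v) fun i => σ (x i))) + C := by
  choose D hD using fun v => loc_lower64 (k := k) hn l α β i₁ i₂ hinj h12 a b ha hb v
  choose E hE using fun i => liouville (k := k) (l i) S
  refine ⟨|gsum (ch64 P₁ P₂ A B e)| + |∑ v ∈ S, 2 * D v| + |∑ i, E i|, by positivity, ?_⟩
  intro u hu L _ _ σ N h x hx1 s t hs ht hx hne hα hβ hrel hrel2
  have e1 := le_abs_self (gsum (ch64 P₁ P₂ A B e))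
  have e2 := le_abs_self (∑ v ∈ S, 2 * D v)
  have e3 := le_abs_self (∑ i, E i)
  have e1' := abs_nonneg (gsum (ch64 P₁ P₂ A B e))
  have e2' := abs_nonneg (∑ v ∈ S, 2 * D v)
  have e3' := abs_nonneg (∑ i, E i)
  refine ⟨?_, ?_, ?_⟩
  · have h1 := height64 h P₁ P₂ hA hB hs ht hrel2 x hx1 hx
    linarith
  · have hσ : ∀ m : Fin (n + 1) → k, lv m (fun j => σ (x j)) = σ (lv m x) := by
      intro m
      unfold lv
      rw [map_sum]
      exact Finset.sum_congr rfl fun j _ => by rw [map_mul, AlgEquiv.commutes]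
    have h1 : ∑ v ∈ S, (2 * ee64 n u v - 2 * D v) ≤ ∑ v ∈ S, ∑ i, ((Real.log (mxn (N v) x) - Real.log (N v (lv (l i) x))) +
        (Real.log (mxn (N v) fun j => σ (x j)) - Real.log (N v (σ (lv (l i) x))))) := by
      refine Finset.sum_le_sum fun v _ => ?_
      have h2 := hD v u hu L σ N h x hx1 s t hs ht hne hα hβ hrel
      have h3 := hD v u hu L σ _ h.conj64 x hx1 s t hs ht hne hα hβ hrel
      have h4 : ∑ i, (Real.log (mxn ((fun v x => N v (σ x)) v) x) - Real.log ((fun v x => N v (σ x)) v (lv (l i) x))) =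
          ∑ i, (Real.log (mxn (N v) fun j => σ (x j)) - Real.log (N v (σ (lv (l i) x)))) := rfl
      rw [h4] at h3
      rw [Finset.sum_add_distrib]
      linarith
    rw [Finset.sum_sub_distrib, ← Finset.mul_sum] at h1
    linarith
  · rw [Finset.sum_comm]
    have h1 := Finset.sum_le_sum fun i (_ : i ∈ (Finset.univ : Finset (Fin q))) => hE i L σ N h x hx1 (hne i)
    rw [Finset.sum_add_distrib, Finset.sum_const, Finset.card_univ, Fintype.card_fin, nsmul_eq_mul] at h1
    linarith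

/-! ### powers of two -/

private theorem two_ne64 : (2 : k) ≠ 0 := two_ne_zero

private noncomputable def T64 (k : Type u) [Field k] [NumberField k] : ℝ :=
  ∑ v : InfinitePlace k, Real.log (nv (.inl v : Pl k) (2 : k))

private theorem nv_two64 (v : InfinitePlace k) : 2 ≤ nv (.inl v : Pl k) (2 : k) := by
  show (2 : ℝ) ≤ v 2 ^ v.mult
  have h1 : v (2 : k) = 2 := by
    have := map_ofNat (algebraMap k k) 2
    rw [← InfinitePlace.norm_embedding_eq, map_ofNat]
    simp
  rw [h1]
  exact le_self_pow₀ (by norm_num) v.mult_ne_zero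

private theorem T_pos64 : 0 < T64 k := by
  unfold T64
  refine Finset.sum_pos (fun v _ => Real.log_pos (by have := nv_two64 v; linarith)) ?_
  exact Finset.univ_nonempty

private theorem nv_pow64 (v : Pl k) (c : k) (m : ℕ) : nv v (c ^ m) = nv v c ^ m := by
  induction m with
  | zero => rw [pow_zero, pow_zero, Pool.Agent.Helper64.Vojta.nv_one]
  | succ m ih => rw [pow_succ, pow_succ, Pool.Agent.Helper64.Vojta.nv_mul, ih]

private theorem nv_fin_two64 (v : FinitePlace k) : nv (.inr v : Pl k) (2 : k) ≤ 1 := by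
  have h1 := Pool.Agent.Helper64.Vojta.nv_int_le_one v (2 : 𝓞 k)
  have h2 : ((2 : 𝓞 k) : k) = 2 := map_ofNat (algebraMap (𝓞 k) k) 2
  rwa [h2] at h1

private theorem gsum_lm64 (m : ℕ) : gsum (lm64 ((2 : k) ^ m)) = m * T64 k := by
  unfold gsum T64
  have h1 : ∀ v : FinitePlace k, lm64 ((2 : k) ^ m) (.inr v) = 0 := by
    intro v
    unfold lm64
    rw [nv_pow64, max_eq_left (pow_le_one₀ (Pool.Agent.Helper64.Vojta.nv_nonneg _ _) (nv_fin_two64 v)), Real.log_one]
  have h2 : ∀ v : InfinitePlace k, lm64 ((2 : k) ^ m) (.inl v) = m * Real.log (nv (.inl v : Pl k) (2 : k)) := by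
    intro v
    unfold lm64
    rw [nv_pow64, max_eq_right (one_le_pow₀ (by have := nv_two64 v; linarith)), Real.log_pow]
  simp only [h1, h2, finsum_zero, add_zero, Finset.mul_sum]

private theorem exists_S64 (k : Type u) [Field k] [NumberField k] : ∃ S : Finset (Pl k), ∀ (n m : ℕ),
    ∑ v ∈ S, ee64 n ((2 : k) ^ m) v = (n + 1) * (m * T64 k) := by
  classical
  have hf : FinS fun v => Real.log (nv v (2 : k)) := finS_nv two_ne64
  have hf' : (Function.support fun v : FinitePlace k => Real.log (nv (.inr v) (2 : k))).Finite := hf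
  refine ⟨Finset.univ.disjSum hf'.toFinset, fun n m => ?_⟩
  rw [Finset.sum_disjSum]
  have h1 : ∀ v : InfinitePlace k, ee64 n ((2 : k) ^ m) (.inl v) = n * m * Real.log (nv (.inl v : Pl k) (2 : k)) := by
    intro v
    show (n : ℝ) * Real.log (nv (.inl v) ((2 : k) ^ m)) = _
    rw [nv_pow64, Real.log_pow]
    ring
  have h2 : ∀ v : FinitePlace k, ee64 n ((2 : k) ^ m) (.inr v) = - (m * Real.log (nv (.inr v : Pl k) (2 : k))) := by
    intro v
    show - Real.log (nv (.inr v) ((2 : k) ^ m)) = _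
    rw [nv_pow64, Real.log_pow]
  have h3 := gsum_nv (K := k) two_ne64
  unfold gsum at h3
  rw [finsum_eq_sum_of_support_subset _ (s := hf'.toFinset) (by rw [Set.Finite.coe_toFinset])] at h3
  simp only [h1, h2]
  rw [← Finset.mul_sum, Finset.sum_neg_distrib, ← Finset.mul_sum]
  change n * m * T64 k + _ = _
  change T64 k + _ = 0 at h3
  have h4 : ∑ v ∈ hf'.toFinset, Real.log (nv (.inr v : Pl k) (2 : k)) = - T64 k := by linarith
  rw [h4]
  ring

/-! ### the points -/

/-- the value of a form at a point over `k` -/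
private def dp64 {n : ℕ} (m P : Fin (n + 1) → k) : k := ∑ j, m j * P j

private theorem vertex64 {n q : ℕ} (l : Fin q → Fin (n + 1) → k) (hl : GenPos l) (I : Finset (Fin q)) (hI : I.card = n) :
    ∃ P : Fin (n + 1) → k, (∀ i ∈ I, dp64 (l i) P = 0) ∧ ∀ i, i ∉ I → dp64 (l i) P ≠ 0 := by
  classical
  let F : (Fin (n + 1) → k) →ₗ[k] (I → k) := LinearMap.pi fun i => ∑ j, (l i j) • LinearMap.proj j
  have hF : ∀ P i, F P i = dp64 (l i) P := by
    intro P i
    simp [F, dp64]
  have h1 : finrank k (I → k) < finrank k (Fin (n + 1) → k) := by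
    rw [Module.finrank_fintype_fun_eq_card, Module.finrank_fintype_fun_eq_card, Fintype.card_coe, hI, Fintype.card_fin]
    exact Nat.lt_succ_self n
  obtain ⟨P, hP, hP0⟩ := (Submodule.ne_bot_iff _).1 (LinearMap.ker_ne_bot_of_finrank_lt (f := F) h1)
  refine ⟨P, fun i hi => ?_, fun i hi h0 => hP0 ?_⟩
  · rw [← hF P ⟨i, hi⟩, LinearMap.mem_ker.1 hP]
    rfl
  · have hc : (insert i I).card = n + 1 := by rw [Finset.card_insert_of_notMem hi, hI]
    have h2 := hl (insert i I) hc.le
    have h3 : Submodule.span k (Set.range fun j : (insert i I : Finset (Fin q)) => l j) = ⊤ := by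
      refine h2.span_eq_top_of_card_eq_finrank' ?_
      rw [Fintype.card_coe, hc, Module.finrank_fintype_fun_eq_card, Fintype.card_fin]
    have h4 : ∀ m : Fin (n + 1) → k, dp64 m P = 0 := by
      intro m
      have hm : m ∈ Submodule.span k (Set.range fun j : (insert i I : Finset (Fin q)) => l j) := by
        rw [h3]
        exact Submodule.mem_top
      induction hm using Submodule.span_induction with
      | mem x hx =>
        obtain ⟨⟨j, hj⟩, rfl⟩ := hx
        rcases Finset.mem_insert.1 hj with rfl | hj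
        · exact h0
        · show dp64 (l j) P = 0
          rw [← hF P ⟨j, hj⟩, LinearMap.mem_ker.1 hP]
          rfl
      | zero => simp [dp64]
      | add x y _ _ hx hy =>
        unfold dp64 at *
        simp only [Pi.add_apply, add_mul, Finset.sum_add_distrib]
        rw [hx, hy, add_zero]
      | smul c x _ hx =>
        unfold dp64 at *
        simp only [Pi.smul_apply, smul_eq_mul, mul_assoc]
        rw [← Finset.mul_sum, hx, mul_zero]
    funext j
    have h5 := h4 (Pi.single j 1)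
    unfold dp64 at h5
    rw [Finset.sum_eq_single j] at h5
    · simpa using h5
    · intro b _ hb
      rw [Pi.single_eq_of_ne hb, zero_mul]
    · intro hj
      exact absurd (Finset.mem_univ j) hj

/-- the degree of a point in the field generated by a quadratic element -/
private theorem dg_le64 {n : ℕ} (x : Fin (n + 1) → AlgebraicClosure k) (z : AlgebraicClosure k) (a b c : k) (ha : a ≠ 0)
    (hz : algebraMap k _ a * z ^ 2 + algebraMap k _ b * z + algebraMap k _ c = 0)
    (hx : ∀ j, x j ∈ IntermediateField.adjoin k {z}) : dg x ≤ 2 := by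
  have hint : IsIntegral k z := (Algebra.IsAlgebraic.isAlgebraic z).isIntegral
  have hfd : FiniteDimensional k (IntermediateField.adjoin k {z}) := IntermediateField.adjoin.finiteDimensional hint
  have h1 : fld x ≤ IntermediateField.adjoin k {z} := by
    unfold fld
    rw [IntermediateField.adjoin_le_iff]
    rintro _ ⟨j, rfl⟩
    exact hx j
  have h2 : dg x ≤ finrank k (IntermediateField.adjoin k {z}) := by
    unfold dg
    exact LinearMap.finrank_le_finrank_of_injective (f := (IntermediateField.inclusion h1).toLinearMap)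
      (IntermediateField.inclusion_injective h1)
  rw [IntermediateField.adjoin.finrank hint] at h2
  refine h2.trans ?_
  let p : Polynomial k := Polynomial.C a * Polynomial.X ^ 2 + Polynomial.C b * Polynomial.X + Polynomial.C c
  have hp : p.natDegree = 2 := Polynomial.natDegree_quadratic ha
  have hp0 : p ≠ 0 := by
    intro h0
    rw [h0, Polynomial.natDegree_zero] at hp
    omega
  have hpz : Polynomial.aeval z p = 0 := by
    simp only [p, map_add, map_mul, map_pow, Polynomial.aeval_C, Polynomial.aeval_X]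
    exact hz
  rw [← hp]
  exact Polynomial.natDegree_le_of_dvd (minpoly.dvd k z hpz) hp0

private theorem dp_add64 {n : ℕ} (m P₁ P₂ : Fin (n + 1) → k) (z g : AlgebraicClosure k) (x : Fin (n + 1) → AlgebraicClosure k)
    (hx : ∀ j, x j = (z * algebraMap k _ (P₁ j) + algebraMap k _ (P₂ j)) / g) :
    ((val m x : fld x) : AlgebraicClosure k) =
      (z * algebraMap k _ (dp64 m P₁) + algebraMap k _ (dp64 m P₂)) / g := by
  have h1 : ((val m x : fld x) : AlgebraicClosure k) = ∑ j, algebraMap k _ (m j) * x j := by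
    unfold val
    rw [← IntermediateField.algebraMap_apply, map_sum]
    refine Finset.sum_congr rfl fun j _ => ?_
    rw [map_mul]
    rfl
  rw [h1]
  unfold dp64
  rw [map_sum, map_sum, Finset.mul_sum, ← Finset.sum_add_distrib, Finset.sum_div]
  refine Finset.sum_congr rfl fun j _ => ?_
  rw [hx j, map_mul, map_mul]
  ring

private theorem exists_pow64 (A : Finset k) : ∃ m₀ : ℕ, ∀ m, m₀ ≤ m → (2 : k) ^ m ∉ A := by
  classical
  have hinj : Function.Injective fun m : ℕ => (2 : k) ^ m := by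
    intro a b hab
    have h1 : ((2 ^ a : ℕ) : k) = ((2 ^ b : ℕ) : k) := by
      push_cast
      exact hab
    exact Nat.pow_right_injective (le_refl 2) (Nat.cast_injective h1)
  have hf : {m : ℕ | (2 : k) ^ m ∈ A}.Finite := A.finite_toSet.preimage hinj.injOn
  obtain ⟨M, hM⟩ := hf.bddAbove
  refine ⟨M + 1, fun m hm h => ?_⟩
  have := hM h
  omega

/-- `sharp` from the statement of `data2` in dimension `n` -/
theorem sharp_of {n q : ℕ} (hn : 1 ≤ n) (hq : 2 * n + 2 ≤ q) (l : Fin q → Fin (n + 1) → k) (hl : GenPos l)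
    (hdat : ∀ x : Fin (n + 1) → AlgebraicClosure k, (∃ j, x j = 1) → dg x ≤ 2 →
      ∃ (σ : fld x ≃ₐ[k] fld x) (N : Pl k → fld x → ℝ), QS σ N ∧
      2 * hgt x = (gsum fun v => Real.log (mxn (N v) (crd x)) + Real.log (mxn (N v) fun i => σ (crd x i))) ∧
      ∀ (v : Pl k) (m : Fin (n + 1) → k), val m x ≠ 0 → 2 * lam m v x =
        (Real.log (mxn (N v) (crd x)) - Real.log (N v (val m x))) +
          (Real.log (mxn (N v) fun i => σ (crd x i)) - Real.log (N v (σ (val m x))))) :
    ∃ (S : Finset (Pl k)) (C : ℝ), ∀ B : ℝ, ∃ x : Fin (n + 1) → AlgebraicClosure k, (∃ j, x j = 1) ∧ dg x ≤ 2 ∧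
      (∀ i, val (l i) x ≠ 0) ∧ B ≤ hgt x ∧ (2 * n + 2) * hgt x - C ≤ ∑ ν ∈ S, ∑ i, lam (l i) ν x := by
  classical
  let α : Fin n → Fin q := fun i => ⟨i, by omega⟩
  let β : Fin n → Fin q := fun i => ⟨n + i, by omega⟩
  let i₁ : Fin q := ⟨2 * n, by omega⟩
  let i₂ : Fin q := ⟨2 * n + 1, by omega⟩
  have hαinj : Function.Injective α := by
    intro i j hij
    have := congrArg Fin.val hij
    exact Fin.ext this
  have hβinj : Function.Injective β := by
    intro i j hij
    have : n + (i : ℕ) = n + j := congrArg Fin.val hij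
    exact Fin.ext (by omega)
  have hαβ : ∀ i j, α i ≠ β j := by
    intro i j hij
    have : (i : ℕ) = n + j := congrArg Fin.val hij
    omega
  have hinj : Function.Injective (Sum.elim α β) := hαinj.sumElim hβinj hαβ
  have h12 : i₁ ≠ i₂ := by
    intro h
    have : 2 * n = 2 * n + 1 := congrArg Fin.val h
    omega
  have hc1 : (Finset.univ.image α).card = n := by
    rw [Finset.card_image_of_injective _ hαinj, Finset.card_univ, Fintype.card_fin]
  have hc2 : (Finset.univ.image β).card = n := by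
    rw [Finset.card_image_of_injective _ hβinj, Finset.card_univ, Fintype.card_fin]
  have hmα : ∀ j : Fin q, n ≤ (j : ℕ) → j ∉ Finset.univ.image α := by
    intro j hj hj'
    obtain ⟨i, _, hi⟩ := Finset.mem_image.1 hj'
    have : (i : ℕ) = j := congrArg Fin.val hi
    omega
  have hmβ : ∀ j : Fin q, ((j : ℕ) < n ∨ 2 * n ≤ j) → j ∉ Finset.univ.image β := by
    intro j hj hj'
    obtain ⟨i, _, hi⟩ := Finset.mem_image.1 hj'
    have : n + (i : ℕ) = j := congrArg Fin.val hi
    omega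
  obtain ⟨P₁, hP1, hP1'⟩ := vertex64 l hl _ hc1
  obtain ⟨P₂, hP2, hP2'⟩ := vertex64 l hl _ hc2
  have z1 : ∀ i, dp64 (l (α i)) P₁ = 0 := fun i => hP1 _ (Finset.mem_image_of_mem α (Finset.mem_univ i))
  have z2 : ∀ i, dp64 (l (β i)) P₂ = 0 := fun i => hP2 _ (Finset.mem_image_of_mem β (Finset.mem_univ i))
  have ha : ∀ i, dp64 (l (β i)) P₁ ≠ 0 := fun i => hP1' _ (hmα _ (Nat.le_add_right n i))
  have hb : ∀ i, dp64 (l (α i)) P₂ ≠ 0 := fun i => hP2' _ (hmβ _ (Or.inl i.2))
  have ha1 : dp64 (l i₁) P₁ ≠ 0 := hP1' _ (hmα _ (by show n ≤ 2 * n; omega))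
  have hb1 : dp64 (l i₁) P₂ ≠ 0 := hP2' _ (hmβ _ (Or.inr (le_refl _)))
  have ha2 : dp64 (l i₂) P₁ ≠ 0 := hP1' _ (hmα _ (by show n ≤ 2 * n + 1; omega))
  have hb2 : dp64 (l i₂) P₂ ≠ 0 := hP2' _ (hmβ _ (Or.inr (by show 2 * n ≤ 2 * n + 1; omega)))
  set a₁ := dp64 (l i₁) P₁ with ea1
  set b₁ := dp64 (l i₁) P₂ with eb1
  set a₂ := dp64 (l i₂) P₁ with ea2
  set b₂ := dp64 (l i₂) P₂ with eb2
  obtain ⟨S, hS⟩ := exists_S64 k
  obtain ⟨C, hC0, hC⟩ := core64 (Nat.lt_of_lt_of_le Nat.zero_lt_one hn) l α β i₁ i₂ hinj h12 P₁ P₂ (fun i => dp64 (l (β i)) P₁)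
    (fun i => dp64 (l (α i)) P₂) ha hb (a₁ * a₂) (b₁ * b₂) (a₁ * b₂ + a₂ * b₁) (mul_ne_zero ha1 ha2)
    (mul_ne_zero hb1 hb2) S
  -- the bad values of `u`
  let bad : Fin q → k := fun i => (a₁ * (-(dp64 (l i) P₂ / dp64 (l i) P₁)) + b₁) *
    (a₂ * (-(dp64 (l i) P₂ / dp64 (l i) P₁)) + b₂) * (dp64 (l i) P₁ / dp64 (l i) P₂)
  obtain ⟨m₀, hm₀⟩ := exists_pow64 (Finset.univ.image bad)
  refine ⟨S, (n + 1) * C + C, fun Bd => ?_⟩
  have hT := T_pos64 (k := k)
  obtain ⟨m₁, hm₁⟩ := exists_nat_gt ((q * Bd + C) / ((n + 1) * T64 k))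
  set m := max m₀ m₁ with hm
  have hm0 : m₀ ≤ m := le_max_left _ _
  have hm1 : (m₁ : ℝ) ≤ m := by exact_mod_cast le_max_right m₀ m₁
  set u : k := (2 : k) ^ m with hu
  have hu0 : u ≠ 0 := pow_ne_zero _ two_ne64
  have hubad := hm₀ m hm0
  -- the point
  obtain ⟨z, hz⟩ : ∃ z : AlgebraicClosure k, algebraMap k _ (a₁ * a₂) * z ^ 2 +
      algebraMap k _ (u + (a₁ * b₂ + a₂ * b₁)) * z + algebraMap k _ (b₁ * b₂) = 0 := by
    let p : Polynomial k := Polynomial.C (a₁ * a₂) * Polynomial.X ^ 2 +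
      Polynomial.C (u + (a₁ * b₂ + a₂ * b₁)) * Polynomial.X + Polynomial.C (b₁ * b₂)
    have hp : p.degree = 2 := Polynomial.degree_quadratic (mul_ne_zero ha1 ha2)
    obtain ⟨z, hz⟩ := IsAlgClosed.exists_aeval_eq_zero (AlgebraicClosure k) p (by rw [hp]; decide)
    refine ⟨z, ?_⟩
    simp only [p, map_add, map_mul, map_pow, Polynomial.aeval_C, Polynomial.aeval_X] at hz
    simp only [map_add, map_mul]
    exact hz
  have hinjk := (algebraMap k (AlgebraicClosure k)).injective
  have hne0 : ∀ c : k, c ≠ 0 → algebraMap k (AlgebraicClosure k) c ≠ 0 := fun c hc => by simpa using hc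
  have hz0 : z ≠ 0 := by
    rintro rfl
    apply hne0 _ (mul_ne_zero hb1 hb2)
    linear_combination hz
  have hn0 : 0 < n := hn
  obtain ⟨j₀, hg⟩ : ∃ j, z * algebraMap k _ (P₁ j) + algebraMap k _ (P₂ j) ≠ 0 := by
    by_contra hcon
    push Not at hcon
    have h1 : z * algebraMap k _ (dp64 (l (α ⟨0, hn0⟩)) P₁) + algebraMap k _ (dp64 (l (α ⟨0, hn0⟩)) P₂) = 0 := by
      unfold dp64
      rw [map_sum, map_sum, Finset.mul_sum, ← Finset.sum_add_distrib]
      refine Finset.sum_eq_zero fun j _ => ?_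
      rw [map_mul, map_mul]
      linear_combination (algebraMap k (AlgebraicClosure k) (l (α ⟨0, hn0⟩) j)) * hcon j
    rw [z1, map_zero, mul_zero, zero_add] at h1
    exact hne0 _ (hb ⟨0, hn0⟩) h1
  set g := z * algebraMap k _ (P₁ j₀) + algebraMap k _ (P₂ j₀) with eg
  let x : Fin (n + 1) → AlgebraicClosure k := fun j => (z * algebraMap k _ (P₁ j) + algebraMap k _ (P₂ j)) / g
  have hx1 : ∃ j, x j = 1 := ⟨j₀, div_self hg⟩
  have hzm : z ∈ IntermediateField.adjoin k {z} := IntermediateField.mem_adjoin_simple_self k z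
  have hxm : ∀ j, x j ∈ IntermediateField.adjoin k {z} := by
    intro j
    refine div_mem (add_mem (mul_mem hzm (algebraMap_mem _ _)) (algebraMap_mem _ _)) ?_
    exact add_mem (mul_mem hzm (algebraMap_mem _ _)) (algebraMap_mem _ _)
  have hdg : dg x ≤ 2 := dg_le64 x z _ _ _ (mul_ne_zero ha1 ha2) hz hxm
  have hval : ∀ i, ((val (l i) x : fld x) : AlgebraicClosure k) =
      (z * algebraMap k _ (dp64 (l i) P₁) + algebraMap k _ (dp64 (l i) P₂)) / g :=
    fun i => dp_add64 (l i) P₁ P₂ z g x fun j => rfl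
  have hcoe : ∀ c : k, ((algebraMap k (fld x) c : fld x) : AlgebraicClosure k) = algebraMap k _ c := fun c => rfl
  -- nonvanishing
  have hne : ∀ i, val (l i) x ≠ 0 := by
    intro i h0
    have h1 := hval i
    rw [h0] at h1
    have h2 : z * algebraMap k _ (dp64 (l i) P₁) + algebraMap k _ (dp64 (l i) P₂) = 0 := by
      have h3 : (z * algebraMap k _ (dp64 (l i) P₁) + algebraMap k _ (dp64 (l i) P₂)) / g = 0 := by
        rw [← h1]
        rfl
      exact (div_eq_zero_iff.1 h3).resolve_right hg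
    by_cases c1 : (i : ℕ) < n
    · have e : i = α ⟨i, c1⟩ := rfl
      rw [e, z1, map_zero, mul_zero, zero_add] at h2
      exact hne0 _ (hb _) h2
    by_cases c2 : (i : ℕ) < 2 * n
    · have e : i = β ⟨i - n, by omega⟩ := Fin.ext (by show (i : ℕ) = n + (i - n); omega)
      rw [e, z2, map_zero, add_zero] at h2
      exact mul_ne_zero hz0 (hne0 _ (ha _)) h2
    · have c3 : dp64 (l i) P₁ ≠ 0 := hP1' _ (hmα _ (by omega))
      have c4 : dp64 (l i) P₂ ≠ 0 := hP2' _ (hmβ _ (Or.inr (by omega)))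
      have c3' := hne0 _ c3
      have c4' := hne0 _ c4
      have hzv : z = algebraMap k _ (-(dp64 (l i) P₂ / dp64 (l i) P₁)) := by
        rw [map_neg, map_div₀]
        field_simp
        linear_combination h2
      apply hubad
      rw [Finset.mem_image]
      refine ⟨i, Finset.mem_univ i, ?_⟩
      rw [hzv] at hz
      rw [← map_pow, ← map_mul, ← map_mul, ← map_add, ← map_add, ← map_zero (algebraMap k (AlgebraicClosure k))] at hz
      have h5 := hinjk hz
      show (a₁ * (-(dp64 (l i) P₂ / dp64 (l i) P₁)) + b₁) *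
        (a₂ * (-(dp64 (l i) P₂ / dp64 (l i) P₁)) + b₂) * (dp64 (l i) P₁ / dp64 (l i) P₂) = u
      field_simp at h5 ⊢
      linear_combination h5
  -- the equations in the field
  set s : fld x := val (l (β ⟨0, hn0⟩)) x * algebraMap k _ (dp64 (l (β ⟨0, hn0⟩)) P₁)⁻¹ with es
  set t : fld x := val (l (α ⟨0, hn0⟩)) x * algebraMap k _ (dp64 (l (α ⟨0, hn0⟩)) P₂)⁻¹ with et
  have hsv : (s : AlgebraicClosure k) = z / g := by
    have h1 : (s : AlgebraicClosure k) = (val (l (β ⟨0, hn0⟩)) x : AlgebraicClosure k) *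
      algebraMap k _ (dp64 (l (β ⟨0, hn0⟩)) P₁)⁻¹ := rfl
    have h2 := hne0 _ (ha ⟨0, hn0⟩)
    rw [h1, hval, z2, map_zero, add_zero, map_inv₀]
    field_simp
  have htv : (t : AlgebraicClosure k) = 1 / g := by
    have h1 : (t : AlgebraicClosure k) = (val (l (α ⟨0, hn0⟩)) x : AlgebraicClosure k) *
      algebraMap k _ (dp64 (l (α ⟨0, hn0⟩)) P₂)⁻¹ := rfl
    have h2 := hne0 _ (hb ⟨0, hn0⟩)
    rw [h1, hval, z1, map_zero, mul_zero, zero_add, map_inv₀]
    field_simp
  have hs0 : s ≠ 0 := by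
    intro h0
    rw [h0] at hsv
    exact div_ne_zero hz0 hg hsv.symm
  have ht0 : t ≠ 0 := by
    intro h0
    rw [h0] at htv
    exact div_ne_zero one_ne_zero hg htv.symm
  have hxs : ∀ j, crd x j = s * algebraMap k _ (P₁ j) + t * algebraMap k _ (P₂ j) := by
    intro j
    apply Subtype.ext
    show x j = (s : AlgebraicClosure k) * algebraMap k _ (P₁ j) + (t : AlgebraicClosure k) * algebraMap k _ (P₂ j)
    rw [hsv, htv]
    show (z * algebraMap k _ (P₁ j) + algebraMap k _ (P₂ j)) / g = _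
    field_simp
  have hva : ∀ i, lv (l (α i)) (crd x) = t * algebraMap k _ (dp64 (l (α i)) P₂) := by
    intro i
    apply Subtype.ext
    show ((val (l (α i)) x : fld x) : AlgebraicClosure k) = (t : AlgebraicClosure k) * algebraMap k _ (dp64 (l (α i)) P₂)
    rw [hval, htv, z1, map_zero]
    field_simp
    ring
  have hvb : ∀ i, lv (l (β i)) (crd x) = s * algebraMap k _ (dp64 (l (β i)) P₁) := by
    intro i
    apply Subtype.ext
    show ((val (l (β i)) x : fld x) : AlgebraicClosure k) = (s : AlgebraicClosure k) * algebraMap k _ (dp64 (l (β i)) P₁)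
    rw [hval, hsv, z2, map_zero]
    field_simp
    ring
  have hz' : algebraMap k (AlgebraicClosure k) a₁ * algebraMap k _ a₂ * z ^ 2 +
      (algebraMap k _ u + (algebraMap k _ a₁ * algebraMap k _ b₂ + algebraMap k _ a₂ * algebraMap k _ b₁)) * z +
      algebraMap k _ b₁ * algebraMap k _ b₂ = 0 := by
    simpa only [map_add, map_mul] using hz
  have hr1 : algebraMap k (fld x) u * s * t = - (lv (l i₁) (crd x) * lv (l i₂) (crd x)) := by
    apply Subtype.ext
    show algebraMap k _ u * (s : AlgebraicClosure k) * (t : AlgebraicClosure k) =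
      - (((val (l i₁) x : fld x) : AlgebraicClosure k) * ((val (l i₂) x : fld x) : AlgebraicClosure k))
    rw [hval, hval, hsv, htv, ← ea1, ← eb1, ← ea2, ← eb2]
    field_simp
    linear_combination hz'
  have hr2 : algebraMap k (fld x) (a₁ * a₂) * s ^ 2 + algebraMap k (fld x) (u + (a₁ * b₂ + a₂ * b₁)) * s * t +
      algebraMap k (fld x) (b₁ * b₂) * t ^ 2 = 0 := by
    apply Subtype.ext
    show algebraMap k _ (a₁ * a₂) * (s : AlgebraicClosure k) ^ 2 +
      algebraMap k _ (u + (a₁ * b₂ + a₂ * b₁)) * (s : AlgebraicClosure k) * (t : AlgebraicClosure k) +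
      algebraMap k _ (b₁ * b₂) * (t : AlgebraicClosure k) ^ 2 = 0
    rw [hsv, htv]
    simp only [map_add, map_mul]
    field_simp
    linear_combination hz'
  have hcx : ∃ j, crd x j = 1 := by
    obtain ⟨j, hj⟩ := hx1
    exact ⟨j, Subtype.ext hj⟩
  obtain ⟨σ, N, hN, hh, hlam⟩ := hdat x hx1 hdg
  obtain ⟨k1, k2, k3⟩ := hC u hu0 (fld x) σ N hN (crd x) hcx s t hs0 ht0 hxs hne hva hvb hr1 hr2
  rw [hS n m] at k2
  rw [gsum_lm64, ← hh] at k1
  rw [← hh] at k3
  have k4 : ∑ v ∈ S, ∑ i, ((Real.log (mxn (N v) (crd x)) - Real.log (N v (lv (l i) (crd x)))) +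
        (Real.log (mxn (N v) fun j => σ (crd x j)) - Real.log (N v (σ (lv (l i) (crd x)))))) =
      2 * ∑ ν ∈ S, ∑ i, lam (l i) ν x := by
    rw [Finset.mul_sum]
    refine Finset.sum_congr rfl fun v _ => ?_
    rw [Finset.mul_sum]
    refine Finset.sum_congr rfl fun i _ => ?_
    rw [hlam v (l i) (hne i)]
    rfl
  rw [k4] at k2 k3
  have hn1 : (0 : ℝ) < n + 1 := by positivity
  have hq0 : (0 : ℝ) < q := by
    have : 0 < q := by omega
    exact_mod_cast this
  refine ⟨x, hx1, hdg, hne, ?_, ?_⟩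
  · have h1 := hm₁
    rw [div_lt_iff₀ (mul_pos hn1 hT)] at h1
    have h2 : (m₁ : ℝ) * ((n + 1) * T64 k) ≤ m * ((n + 1) * T64 k) :=
      mul_le_mul_of_nonneg_right hm1 (mul_pos hn1 hT).le
    have h3 : (q : ℝ) * Bd ≤ q * hgt x := by nlinarith
    exact le_of_mul_le_mul_left h3 hq0
  · have h1 : (n + 1 : ℝ) * (2 * hgt x) ≤ (n + 1) * (m * T64 k + C) := mul_le_mul_of_nonneg_left k1 hn1.le
    nlinarith

end

/-- `P₁`, `P₂` : zeros of `l 0, …, l (n-1)` and of `l n, …, l (2n-1)`; `x = s P₁ + t P₂` with `u s t + l_{2n}(x) l_{2n+1}(x) = 0`, `u = 2 ^ m`,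
`S` : the archimedean places and those above `2`. -/
theorem sharp {k : Type u} [Field k] [NumberField k] {n q : ℕ} (hn : 1 ≤ n) (hq : 2 * n + 2 ≤ q)
    (l : Fin q → Fin (n + 1) → k) (hl : GenPos l) :
    ∃ (S : Finset (Pl k)) (C : ℝ), ∀ B : ℝ, ∃ x : Fin (n + 1) → AlgebraicClosure k, (∃ j, x j = 1) ∧ dg x ≤ 2 ∧
      (∀ i, val (l i) x ≠ 0) ∧ B ≤ hgt x ∧ (2 * n + 2) * hgt x - C ≤ ∑ ν ∈ S, ∑ i, lam (l i) ν x :=
  sharp_of hn hq l hl fun x h1 h2 => data2 x h1 h2

end Pool.Agent.SQ
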