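import Mathlib.NumberTheory.NumberField.Cyclotomic.Basic
import Pool.Agent.Helper42.SQ.DATAg
import Pool.Agent.Helper71.SH.GP

/-!
# SQ, block SHARP2: the constant `r (n + 1)` is best possible for all `n ≥ 1`, `r ≥ 2`

`x = (1 : t : ... : t ^ n)`, `t ^ r = (2 ^ (m + r) - 1) / (2 ^ m - 1)`, `S` : the archimedean places and those above `2`; the forms vanish to order
`1, ..., n` at the `2 r` points `t = ζ ^ j` and `t = 2 ζ ^ j` of the rational normal curve.
-/

set_option autoImplicit false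
set_option linter.unusedSectionVars false

namespace Pool.Agent.SQ

open NumberField Filter Module
open Pool.Agent.Helper64.Vojta (Pl nv sn above)
open Pool.Agent.V2
open Pool.Agent.Chart (fld dg crd val hgt lam)

universe u

section

variable {k : Type u} [Field k] [NumberField k]

section

variable {G : Type*} [Group G] [Fintype G] {L : Type u} [Field L] [Algebra k L] {s : G →* (L ≃ₐ[k] L)} {N : Pl k → L → ℝ}
  (h : QSG s N)

include h

private theorem one71 (v : Pl k) : N v 1 = 1 := by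
  have h1 := h.ext v 1
  rwa [map_one, Pool.Agent.Helper64.Vojta.nv_one] at h1

private theorem nonneg71 (v : Pl k) (x : L) : 0 ≤ N v x := by
  by_cases hx : x = 0
  · rw [hx, h.zero v]
  · exact (h.pos v x hx).le

private theorem pow71 (v : Pl k) (x : L) (n : ℕ) : N v (x ^ n) = N v x ^ n := by
  induction n with
  | zero => rw [pow_zero, pow_zero, one71 h]
  | succ n ih => rw [pow_succ, pow_succ, h.mul, ih]

private theorem prod71 {ι : Type*} (v : Pl k) (t : Finset ι) (x : ι → L) : N v (∏ i ∈ t, x i) = ∏ i ∈ t, N v (x i) := by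
  classical
  induction t using Finset.induction_on with
  | empty => rw [Finset.prod_empty, Finset.prod_empty, one71 h]
  | insert a t ha ih => rw [Finset.prod_insert ha, Finset.prod_insert ha, h.mul, ih]

private theorem neg71 (v : Pl k) (x : L) : N v (-x) = N v x := by
  have h1 : N v (-1) * N v (-1) = 1 := by
    rw [← h.mul v, neg_one_mul, neg_neg, one71 h v]
  have h2 : N v (-1) = 1 := by
    have h3 := nonneg71 h v (-1)
    nlinarith
  rw [← neg_one_mul, h.mul v, h2, one_mul]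

/-- the size of `(1 : z : ... : z ^ n)` -/
private theorem mxn71 (v : Pl k) (n : ℕ) (z : L) :
    mxn (N v) (fun j : Fin (n + 1) => z ^ (j : ℕ)) = max 1 (N v z) ^ n := by
  have h0 := nonneg71 h v z
  have h1 : (1 : ℝ) ≤ max 1 (N v z) := le_max_left _ _
  have hle : ∀ j : Fin (n + 1), N v (z ^ (j : ℕ)) ≤ mxn (N v) (fun j : Fin (n + 1) => z ^ (j : ℕ)) := fun j =>
    le_ciSup (Set.finite_range fun j : Fin (n + 1) => N v (z ^ (j : ℕ))).bddAbove j
  apply le_antisymm
  · refine ciSup_le fun j => ?_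
    rw [pow71 h]
    refine (pow_le_pow_left₀ h0 (le_max_right 1 _) _).trans (pow_le_pow_right₀ h1 ?_)
    have := j.2
    omega
  · rcases le_total (N v z) 1 with h2 | h2
    · rw [max_eq_left h2, one_pow]
      have h3 := hle 0
      rwa [Fin.val_zero, pow_zero, one71 h] at h3
    · rw [max_eq_right h2, ← pow71 h]
      have h3 := hle (Fin.last n)
      rwa [Fin.val_last] at h3

/-- the size if `z ^ r` is in `k` -/
private theorem log_mxn71 (v : Pl k) (n : ℕ) {r : ℕ} (hr : 0 < r) (z : L) (c : k) (hz : z ^ r = algebraMap k L c) :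
    (r : ℝ) * Real.log (mxn (N v) (fun j : Fin (n + 1) => z ^ (j : ℕ))) = n * Real.log (max 1 (nv v c)) := by
  have h0 := nonneg71 h v z
  have h1 : (1 : ℝ) ≤ max 1 (N v z) := le_max_left _ _
  have h2 : max 1 (nv v c) = max 1 (N v z) ^ r := by
    have h3 : N v z ^ r = nv v c := by rw [← pow71 h, hz, h.ext]
    rcases le_total (N v z) 1 with h4 | h4
    · rw [max_eq_left h4, one_pow, max_eq_left]
      rw [← h3]
      exact pow_le_one₀ h0 h4
    · rw [max_eq_right h4, max_eq_right, h3]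
      rw [← h3]
      exact one_le_pow₀ h4
  rw [mxn71 h, h2, Real.log_pow, Real.log_pow]
  ring

end

/-! ### one place -/

/-- One of the points is near. -/
private theorem near71 {ι : Type*} [Fintype ι] [Nonempty ι] (v : Pl k) (p : ι → k) (hp : Function.Injective p) :
    ∃ K : ℝ, ∀ (G : Type u) [Group G] [Fintype G] (L : Type u) [Field L] [Algebra k L] (s : G →* (L ≃ₐ[k] L))
      (N : Pl k → L → ℝ), QSG s N →
      ∀ z : L, (∀ j, z - algebraMap k L (p j) ≠ 0) → ∃ j₀, Real.log (N v (z - algebraMap k L (p j₀))) ≤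
        Real.log (N v (∏ j, (z - algebraMap k L (p j)))) + K := by
  classical
  let K₁ : ℝ := Real.log 4 + ∑ i, ∑ j, |Real.log (nv v (p i - p j))|
  have hK₁ : ∀ i j, |Real.log (nv v (p i - p j))| + Real.log 4 ≤ K₁ := by
    intro i j
    have h1 : |Real.log (nv v (p i - p j))| ≤ ∑ j, |Real.log (nv v (p i - p j))| :=
      Finset.single_le_sum (f := fun j => |Real.log (nv v (p i - p j))|) (fun j _ => abs_nonneg _) (Finset.mem_univ j)
    have h2 : ∑ j, |Real.log (nv v (p i - p j))| ≤ ∑ i, ∑ j, |Real.log (nv v (p i - p j))| :=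
      Finset.single_le_sum (f := fun i => ∑ j, |Real.log (nv v (p i - p j))|)
        (fun i _ => Finset.sum_nonneg fun j _ => abs_nonneg _) (Finset.mem_univ i)
    show _ ≤ Real.log 4 + _
    linarith
  refine ⟨Fintype.card ι * K₁, fun G _ _ L _ _ s N h z hz => ?_⟩
  obtain ⟨j₀, -, hj₀⟩ := Finset.exists_min_image Finset.univ (fun j => N v (z - algebraMap k L (p j))) Finset.univ_nonempty
  refine ⟨j₀, ?_⟩
  have hpos : ∀ j, 0 < N v (z - algebraMap k L (p j)) := fun j => h.pos v _ (hz j)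
  have h1 : ∀ j, j ≠ j₀ → - K₁ ≤ Real.log (N v (z - algebraMap k L (p j))) := by
    intro j hj
    have h2 : nv v (p j₀ - p j) ≤ 4 * N v (z - algebraMap k L (p j)) := by
      have h3 : algebraMap k L (p j₀ - p j) = (z - algebraMap k L (p j)) + -(z - algebraMap k L (p j₀)) := by
        rw [map_sub]
        ring
      rw [← h.ext, h3]
      refine (h.add v _ _).trans (mul_le_mul_of_nonneg_left ?_ (by norm_num))
      rw [neg71 h]
      exact max_le (le_refl _) (hj₀ j (Finset.mem_univ j))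
    have h4 : p j₀ - p j ≠ 0 := sub_ne_zero.2 fun hh => hj (hp hh).symm
    have h5 := Real.log_le_log (Pool.Agent.Helper64.Vojta.nv_pos v h4) h2
    rw [Real.log_mul (by norm_num) (hpos j).ne'] at h5
    have h6 := hK₁ j₀ j
    have h7 := neg_abs_le (Real.log (nv v (p j₀ - p j)))
    linarith
  rw [prod71 h, Real.log_prod fun j _ => (hpos j).ne', ← Finset.add_sum_erase _ _ (Finset.mem_univ j₀)]
  have h2 : - ((Fintype.card ι : ℝ) * K₁) ≤ ∑ j ∈ Finset.univ.erase j₀, Real.log (N v (z - algebraMap k L (p j))) := by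
    have h3 : ∑ j ∈ Finset.univ.erase j₀, (- K₁) ≤ ∑ j ∈ Finset.univ.erase j₀, Real.log (N v (z - algebraMap k L (p j))) :=
      Finset.sum_le_sum fun j hj => h1 j (Finset.ne_of_mem_erase hj)
    rw [Finset.sum_const, nsmul_eq_mul] at h3
    refine le_trans ?_ h3
    have h4 : ((Finset.univ.erase j₀).card : ℝ) ≤ Fintype.card ι := by
      exact_mod_cast Finset.card_le_univ _
    have h5 : 0 ≤ K₁ := by
      have h6 := hK₁ j₀ j₀
      have h7 := abs_nonneg (Real.log (nv v (p j₀ - p j₀)))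
      have h8 : 0 ≤ Real.log 4 := Real.log_nonneg (by norm_num)
      linarith
    nlinarith
  linarith

/-- the value of a form of degree `n` -/
private theorem comb71 (n : ℕ) (c : Fin (n + 1) → k) : ∃ C : Pl k → ℝ, (∀ v, 0 ≤ C v) ∧
      ∀ (G : Type u) [Group G] [Fintype G] (L : Type u) [Field L] [Algebra k L] (s : G →* (L ≃ₐ[k] L)) (N : Pl k → L → ℝ),
      QSG s N → ∀ (z : L) (v : Pl k), lvg c (fun j : Fin (n + 1) => z ^ (j : ℕ)) ≠ 0 →
        Real.log (N v (lvg c fun j : Fin (n + 1) => z ^ (j : ℕ))) ≤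
          Real.log (mxn (N v) fun j : Fin (n + 1) => z ^ (j : ℕ)) + C v := by
  classical
  have hnn : ∀ v, 0 ≤ ∑ j, nv v (c j) := fun v => Finset.sum_nonneg fun j _ => Pool.Agent.Helper64.Vojta.nv_nonneg _ _
  have h4 : ∀ v, (1 : ℝ) ≤ 4 ^ (n + 1) * (∑ j, nv v (c j) + 1) := by
    intro v
    have h1 : (1 : ℝ) ≤ 4 ^ (n + 1) := one_le_pow₀ (by norm_num)
    have h2 := hnn v
    nlinarith
  refine ⟨fun v => Real.log (4 ^ (n + 1) * (∑ j, nv v (c j) + 1)), fun v => Real.log_nonneg (h4 v),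
    fun G _ _ L _ _ s N h z v hz => ?_⟩
  set M := mxn (N v) fun j : Fin (n + 1) => z ^ (j : ℕ) with hM
  have hle : ∀ j : Fin (n + 1), N v (z ^ (j : ℕ)) ≤ M := fun j =>
    le_ciSup (Set.finite_range fun j : Fin (n + 1) => N v (z ^ (j : ℕ))).bddAbove j
  have hM1 : 1 ≤ M := by
    have h3 := hle 0
    rwa [Fin.val_zero, pow_zero, one71 h] at h3
  have hB : 0 ≤ (∑ j, nv v (c j) + 1) * M := mul_nonneg (add_nonneg (hnn v) zero_le_one) (zero_le_one.trans hM1)
  have hterm : ∀ j : Fin (n + 1), N v (algebraMap k L (c j) * z ^ (j : ℕ)) ≤ (∑ j, nv v (c j) + 1) * M := by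
    intro j
    rw [h.mul, h.ext]
    refine mul_le_mul ?_ (hle j) (nonneg71 h v _) (add_nonneg (hnn v) zero_le_one)
    have h5 := Finset.single_le_sum (f := fun j => nv v (c j)) (fun j _ => Pool.Agent.Helper64.Vojta.nv_nonneg _ _)
      (Finset.mem_univ j)
    linarith
  have hsum : ∀ t : Finset (Fin (n + 1)), N v (∑ j ∈ t, algebraMap k L (c j) * z ^ (j : ℕ)) ≤
      4 ^ t.card * ((∑ j, nv v (c j) + 1) * M) := by
    intro t
    induction t using Finset.induction_on with
    | empty =>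
      rw [Finset.sum_empty, h.zero, Finset.card_empty, pow_zero, one_mul]
      exact hB
    | insert a t ha ih =>
      rw [Finset.sum_insert ha, Finset.card_insert_of_notMem ha, pow_succ]
      have h3 : (∑ j, nv v (c j) + 1) * M ≤ 4 ^ t.card * ((∑ j, nv v (c j) + 1) * M) :=
        le_mul_of_one_le_left hB (one_le_pow₀ (by norm_num))
      have h5 := h.add v (algebraMap k L (c a) * z ^ (a : ℕ)) (∑ j ∈ t, algebraMap k L (c j) * z ^ (j : ℕ))
      have h6 : max (N v (algebraMap k L (c a) * z ^ (a : ℕ))) (N v (∑ j ∈ t, algebraMap k L (c j) * z ^ (j : ℕ))) ≤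
          4 ^ t.card * ((∑ j, nv v (c j) + 1) * M) := max_le ((hterm a).trans h3) ih
      linarith
  have h5 := hsum Finset.univ
  rw [Finset.card_univ, Fintype.card_fin] at h5
  have h6 : N v (lvg c fun j : Fin (n + 1) => z ^ (j : ℕ)) ≤ M * (4 ^ (n + 1) * (∑ j, nv v (c j) + 1)) := by
    have h7 : M * (4 ^ (n + 1) * (∑ j, nv v (c j) + 1)) = 4 ^ (n + 1) * ((∑ j, nv v (c j) + 1) * M) := by ring
    rw [h7]
    exact h5
  have h7 := Real.log_le_log (h.pos v _ hz) h6
  rwa [Real.log_mul (zero_lt_one.trans_le hM1).ne' (zero_lt_one.trans_le (h4 v)).ne'] at h7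

/-- a form of degree `n` with a zero of order `e` at `p` -/
private theorem form71 (n : ℕ) (F : Polynomial k) (hF : F.natDegree ≤ n) (p : k) (e : ℕ)
    (hd : (Polynomial.X - Polynomial.C p) ^ e ∣ F) : ∃ C : Pl k → ℝ, (∀ v, 0 ≤ C v) ∧
      ∀ (G : Type u) [Group G] [Fintype G] (L : Type u) [Field L] [Algebra k L] (s : G →* (L ≃ₐ[k] L)) (N : Pl k → L → ℝ),
      QSG s N → ∀ (z : L) (v : Pl k), Polynomial.aeval z F ≠ 0 → Real.log (N v (Polynomial.aeval z F)) ≤
        e * Real.log (N v (z - algebraMap k L p)) + Real.log (mxn (N v) fun j : Fin (n + 1) => z ^ (j : ℕ)) + C v := by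
  obtain ⟨R, rfl⟩ := hd
  obtain ⟨C, hC0, hC⟩ := comb71 (k := k) n (fun j : Fin (n + 1) => R.coeff j)
  refine ⟨C, hC0, fun G _ _ L _ _ s N h z v hz => ?_⟩
  have hR0 : (Polynomial.X - Polynomial.C p) ^ e * R ≠ 0 := by
    intro h0
    rw [h0, map_zero] at hz
    exact hz rfl
  have hR : R.natDegree ≤ n := (Polynomial.natDegree_le_of_dvd (Dvd.intro_left _ rfl) hR0).trans hF
  rw [map_mul, map_pow, map_sub, Polynomial.aeval_X, Polynomial.aeval_C] at hz ⊢
  have h1 : Polynomial.aeval z R = lvg (fun j : Fin (n + 1) => R.coeff j) (fun j : Fin (n + 1) => z ^ (j : ℕ)) := by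
    rw [Polynomial.aeval_eq_sum_range' (Nat.lt_succ_of_le hR), ← Fin.sum_univ_eq_sum_range (fun i => R.coeff i • z ^ i)]
    unfold lvg
    exact Finset.sum_congr rfl fun j _ => by rw [Algebra.smul_def]
  have h2 : Polynomial.aeval z R ≠ 0 := right_ne_zero_of_mul hz
  have h3 := hC G L s N h z v (by rw [← h1]; exact h2)
  rw [← h1] at h3
  have h4 := left_ne_zero_of_mul hz
  rw [h.mul, pow71 h, Real.log_mul ?_ (h.pos v _ h2).ne', Real.log_pow]
  · linarith
  · rw [← pow71 h]
    exact (h.pos v _ h4).ne'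

private theorem sum_orders71 (n : ℕ) : ∑ s : Fin n, ((n - (s : ℕ) : ℕ) : ℝ) = n * (n + 1) / 2 := by
  rw [Fin.sum_univ_eq_sum_range (fun s => ((n - s : ℕ) : ℝ)) n]
  have h1 : ∑ s ∈ Finset.range n, ((n - s : ℕ) : ℝ) = ∑ s ∈ Finset.range n, ((s : ℝ) + 1) := by
    rw [← Finset.sum_range_reflect (fun s : ℕ => (s : ℝ) + 1) n]
    refine Finset.sum_congr rfl fun s hs => ?_
    have h2 := Finset.mem_range.1 hs
    have h3 : n - s = n - 1 - s + 1 := by omega
    rw [h3]
    push_cast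
    ring
  rw [h1]
  clear h1
  induction n with
  | zero => simp
  | succ n ih =>
    rw [Finset.sum_range_succ, ih]
    push_cast
    ring

/-- The sum of the local functions of all forms at one place. -/
private theorem local71 {J : Type*} [Fintype J] {n : ℕ} (F : J × Fin n → Polynomial k) (P : J → k)
    (hF : ∀ a, (F a).natDegree ≤ n) (hd : ∀ a, (Polynomial.X - Polynomial.C (P a.1)) ^ (n - (a.2 : ℕ)) ∣ F a)
    {ι : Type*} [Fintype ι] [Nonempty ι] (e : ι → J) (hp : Function.Injective fun j => P (e j)) (v : Pl k) :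
    ∃ D : ℝ, ∀ (G : Type u) [Group G] [Fintype G] (L : Type u) [Field L] [Algebra k L] (s : G →* (L ≃ₐ[k] L))
      (N : Pl k → L → ℝ), QSG s N →
      ∀ z : L, (∀ a, Polynomial.aeval z (F a) ≠ 0) → (∀ j, z - algebraMap k L (P (e j)) ≠ 0) →
      (n * (n + 1) / 2 : ℝ) * (- Real.log (N v (∏ j, (z - algebraMap k L (P (e j)))))) - D ≤
        ∑ a, (Real.log (mxn (N v) fun j : Fin (n + 1) => z ^ (j : ℕ)) - Real.log (N v (Polynomial.aeval z (F a)))) := by
  classical
  obtain ⟨K, hK⟩ := near71 (k := k) v (fun j => P (e j)) hp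
  choose C hC0 hC using fun a => form71 (k := k) n (F a) (hF a) (P a.1) (n - (a.2 : ℕ)) (hd a)
  choose C' hC0' hC' using fun a => form71 (k := k) n (F a) (hF a) (P a.1) 0 (by rw [pow_zero]; exact one_dvd _)
  refine ⟨(n * (n + 1) / 2 : ℝ) * K + ∑ a, (C a v + C' a v), fun G _ _ L _ _ s N h z hz hz' => ?_⟩
  obtain ⟨j₀, hj₀⟩ := hK G L s N h z hz'
  set A := Real.log (N v (z - algebraMap k L (P (e j₀)))) with hA
  have hn0 : (0 : ℝ) ≤ n * (n + 1) / 2 := by positivity
  have h1 : ∀ a : J × Fin n, (if a.1 = e j₀ then ((n - (a.2 : ℕ) : ℕ) : ℝ) * (- A) else 0) - (C a v + C' a v) ≤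
      Real.log (mxn (N v) fun j : Fin (n + 1) => z ^ (j : ℕ)) - Real.log (N v (Polynomial.aeval z (F a))) := by
    intro a
    have h2 := hC a G L s N h z v (hz a)
    have h3 := hC' a G L s N h z v (hz a)
    have h4 := hC0 a v
    have h5 := hC0' a v
    rw [Nat.cast_zero, zero_mul, zero_add] at h3
    by_cases h6 : a.1 = e j₀
    · rw [if_pos h6]
      rw [h6, ← hA] at h2
      linarith
    · rw [if_neg h6]
      linarith
  have h2 := Finset.sum_le_sum fun a (_ : a ∈ (Finset.univ : Finset (J × Fin n))) => h1 a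
  rw [Finset.sum_sub_distrib, Fintype.sum_prod_type] at h2
  have h3 : ∑ x : J, ∑ y : Fin n, (if x = e j₀ then ((n - (y : ℕ) : ℕ) : ℝ) * (- A) else 0) =
      (n * (n + 1) / 2 : ℝ) * (- A) := by
    rw [Finset.sum_eq_single (e j₀)]
    · rw [← sum_orders71 n, Finset.sum_mul]
      exact Finset.sum_congr rfl fun y _ => by rw [if_pos rfl]
    · intro x _ hx
      exact Finset.sum_eq_zero fun y _ => by rw [if_neg hx]
    · intro h4
      exact absurd (Finset.mem_univ _) h4
  rw [h3] at h2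
  have h4 : (n * (n + 1) / 2 : ℝ) * (- Real.log (N v (∏ j, (z - algebraMap k L (P (e j)))))) ≤
      (n * (n + 1) / 2 : ℝ) * (- A) + (n * (n + 1) / 2 : ℝ) * K := by
    rw [← mul_add]
    exact mul_le_mul_of_nonneg_left (by linarith) hn0
  linarith

end

/-! ### powers of two -/

section

variable {k : Type u} [Field k] [NumberField k]

private noncomputable def T71 (k : Type u) [Field k] [NumberField k] : ℝ :=
  ∑ v : InfinitePlace k, Real.log (nv (.inl v : Pl k) (2 : k))

private theorem nv_two71 (v : InfinitePlace k) : 2 ≤ nv (.inl v : Pl k) (2 : k) := by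
  show (2 : ℝ) ≤ v 2 ^ v.mult
  have h1 : v (2 : k) = 2 := by
    rw [← InfinitePlace.norm_embedding_eq, map_ofNat]
    simp
  rw [h1]
  exact le_self_pow₀ (by norm_num) v.mult_ne_zero

private theorem T_pos71 : 0 < T71 k := by
  unfold T71
  refine Finset.sum_pos (fun v _ => Real.log_pos (by have := nv_two71 v; linarith)) ?_
  exact Finset.univ_nonempty

private theorem nv_pow71 (v : Pl k) (c : k) (m : ℕ) : nv v (c ^ m) = nv v c ^ m := by
  induction m with
  | zero => rw [pow_zero, pow_zero, Pool.Agent.Helper64.Vojta.nv_one]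
  | succ m ih => rw [pow_succ, pow_succ, Pool.Agent.Helper64.Vojta.nv_mul, ih]

private theorem nv_nat_fin71 (v : FinitePlace k) (a : ℕ) : nv (.inr v : Pl k) (a : k) ≤ 1 := by
  have h1 := Pool.Agent.Helper64.Vojta.nv_int_le_one v (a : 𝓞 k)
  have h2 : ((a : 𝓞 k) : k) = a := map_natCast (algebraMap (𝓞 k) k) a
  rwa [h2] at h1

private theorem nv_nat_inf71 (v : InfinitePlace k) (a : ℕ) : nv (.inl v : Pl k) (a : k) = (a : ℝ) ^ v.mult := by
  show v (a : k) ^ v.mult = _
  have h1 : v (a : k) = a := by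
    rw [← InfinitePlace.norm_embedding_eq, map_natCast]
    simp
  rw [h1]

/-- the numbers `c - 1`, `c - 2 ^ r` -/
private noncomputable def cc71 (k : Type u) [Field k] (r m : ℕ) : k := (2 ^ (m + r) - 1) / (2 ^ m - 1)

private theorem den71 {m : ℕ} (hm : 1 ≤ m) : (2 ^ m - 1 : k) ≠ 0 ∧ ((2 ^ m - 1 : ℕ) : k) = 2 ^ m - 1 := by
  have h1 : 1 ≤ 2 ^ m := Nat.one_le_two_pow
  have h2 : ((2 ^ m - 1 : ℕ) : k) = 2 ^ m - 1 := by
    push_cast [Nat.cast_sub h1]
    ring
  refine ⟨?_, h2⟩
  rw [← h2]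
  have h3 : 2 ^ 1 ≤ 2 ^ m := Nat.pow_le_pow_right (by norm_num) hm
  exact_mod_cast (by omega : 2 ^ m - 1 ≠ 0)

private theorem cc_one71 (r : ℕ) {m : ℕ} (hm : 1 ≤ m) : cc71 k r m - 1 = 2 ^ m * (2 ^ r - 1) / (2 ^ m - 1) := by
  have h1 := (den71 (k := k) hm).1
  unfold cc71
  field_simp
  ring

private theorem cc_two71 (r : ℕ) {m : ℕ} (hm : 1 ≤ m) : cc71 k r m - 2 ^ r = (2 ^ r - 1) / (2 ^ m - 1) := by
  have h1 := (den71 (k := k) hm).1
  unfold cc71
  field_simp
  ring

private theorem cc_inj71 {r : ℕ} (hr : 1 ≤ r) {m m' : ℕ} (hm : 1 ≤ m) (hm' : 1 ≤ m') (h : cc71 k r m = cc71 k r m') :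
    m = m' := by
  have h1 := cc_two71 (k := k) r hm
  rw [h, cc_two71 r hm'] at h1
  have h2 := (den71 (k := k) hm).1
  have h3 := (den71 (k := k) hm').1
  have h4 := (den71 (k := k) hr).1
  rw [div_eq_div_iff h3 h2] at h1
  have h5 : (2 : k) ^ m = 2 ^ m' := by
    have := mul_left_cancel₀ h4 h1
    linear_combination this
  have h6 : ((2 ^ m : ℕ) : k) = ((2 ^ m' : ℕ) : k) := by
    push_cast
    exact h5
  exact Nat.pow_right_injective (le_refl 2) (Nat.cast_injective h6)

private theorem cc_ne71 (r : ℕ) {m : ℕ} (hm : 1 ≤ m) : cc71 k r m ≠ 0 := by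
  have h1 := (den71 (k := k) hm).1
  have h2 := (den71 (k := k) (m := m + r) (by omega)).1
  unfold cc71
  exact div_ne_zero h2 h1

private theorem finS_lm71 {c : k} (hc : c ≠ 0) : FinS fun v => Real.log (max 1 (nv v c)) := by
  refine Set.Finite.subset (finS_nv hc) fun v hv => ?_
  rw [Function.mem_support] at hv ⊢
  intro h1
  apply hv
  have h0 : 0 < nv (.inr v : Pl k) c := Pool.Agent.Helper64.Vojta.nv_pos _ hc
  have h2 : nv (.inr v : Pl k) c = 1 := by
    rcases Real.log_eq_zero.1 h1 with h3 | h3 | h3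
    · exact absurd h3 h0.ne'
    · exact h3
    · linarith
  show Real.log (max 1 (nv (.inr v) c)) = 0
  rw [h2, max_self, Real.log_one]

/-- `m + r` at the archimedean places -/
private noncomputable def gg71 (k : Type u) [Field k] [NumberField k] (m : ℕ) : Pl k → ℝ
  | .inl v => m * Real.log (nv (.inl v : Pl k) (2 : k))
  | .inr _ => 0

private theorem gsum_gg71 (m : ℕ) : gsum (gg71 k m) = m * T71 k := by
  unfold gsum T71
  have h1 : ∀ v : FinitePlace k, gg71 k m (.inr v) = 0 := fun v => rfl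
  have h2 : ∀ v : InfinitePlace k, gg71 k m (.inl v) = m * Real.log (nv (.inl v : Pl k) (2 : k)) := fun v => rfl
  simp only [h1, h2, finsum_zero, add_zero, Finset.mul_sum]

private theorem nv_le_gg71 {a m : ℕ} (ha : 0 < a) (hm : a ≤ 2 ^ m) (v : Pl k) :
    Real.log (nv v (a : k)) ≤ gg71 k m v := by
  have hp : 0 < nv v (a : k) := Pool.Agent.Helper64.Vojta.nv_pos v (by exact_mod_cast ha.ne')
  rcases v with v | v
  · show _ ≤ m * Real.log (nv (.inl v : Pl k) (2 : k))
    rw [← Real.log_pow]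
    refine Real.log_le_log hp ?_
    rw [← nv_pow71]
    have h1 : ((2 : k) ^ m) = ((2 ^ m : ℕ) : k) := by push_cast; ring
    rw [h1, nv_nat_inf71, nv_nat_inf71]
    refine pow_le_pow_left₀ (Nat.cast_nonneg _) ?_ _
    exact_mod_cast hm
  · exact Real.log_nonpos hp.le (nv_nat_fin71 v a)

private theorem gsum_lm71 (r : ℕ) {m : ℕ} (hm : 1 ≤ m) :
    gsum (fun v => Real.log (max 1 (nv v (cc71 k r m)))) ≤ (m + r) * T71 k := by
  obtain ⟨b0, b1⟩ := den71 (k := k) hm
  obtain ⟨a0, a1⟩ := den71 (k := k) (m := m + r) (by omega)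
  have hb : 0 < 2 ^ m - 1 := by
    have h3 : 2 ^ 1 ≤ 2 ^ m := Nat.pow_le_pow_right (by norm_num) hm
    omega
  have ha : 0 < 2 ^ (m + r) - 1 := by
    have h3 : 2 ^ 1 ≤ 2 ^ (m + r) := Nat.pow_le_pow_right (by norm_num) (by omega)
    omega
  have hab : 2 ^ m ≤ 2 ^ (m + r) := Nat.pow_le_pow_right (by norm_num) (by omega)
  have hle : ∀ v : Pl k, Real.log (max 1 (nv v (cc71 k r m))) ≤ gg71 k (m + r) v + (-1) * Real.log (nv v (2 ^ m - 1 : k)) := by
    intro v
    have hbp : 0 < nv v (2 ^ m - 1 : k) := Pool.Agent.Helper64.Vojta.nv_pos v b0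
    have hap : 0 < nv v (2 ^ (m + r) - 1 : k) := Pool.Agent.Helper64.Vojta.nv_pos v a0
    have h1 : max 1 (nv v (cc71 k r m)) = max (nv v (2 ^ m - 1 : k)) (nv v (2 ^ (m + r) - 1 : k)) / nv v (2 ^ m - 1 : k) := by
      rw [← max_div_div_right hbp.le, div_self hbp.ne']
      congr 1
      unfold cc71
      rw [div_eq_mul_inv, Pool.Agent.Helper64.Vojta.nv_mul, Pool.Agent.Helper64.Vojta.nv_inv, div_eq_mul_inv]
    rw [h1, Real.log_div (lt_max_of_lt_left hbp).ne' hbp.ne']
    have h2 : Real.log (max (nv v (2 ^ m - 1 : k)) (nv v (2 ^ (m + r) - 1 : k))) ≤ gg71 k (m + r) v := by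
      rcases le_total (nv v (2 ^ m - 1 : k)) (nv v (2 ^ (m + r) - 1 : k)) with h3 | h3
      · rw [max_eq_right h3, ← a1]
        exact nv_le_gg71 ha (by omega) v
      · rw [max_eq_left h3, ← b1]
        exact nv_le_gg71 hb (by omega) v
    linarith
  have hF : FinS (gg71 k (m + r)) := by
    unfold FinS
    have h1 : (Function.support fun v : FinitePlace k => gg71 k (m + r) (.inr v)) = ∅ := by
      rw [Function.support_eq_empty_iff]
      rfl
    rw [h1]
    exact Set.finite_empty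
  have h1 := gsum_mono (finS_lm71 (cc_ne71 r hm)) (hF.add ((finS_nv b0).const_mul (-1))) hle
  rw [gsum_add hF ((finS_nv b0).const_mul (-1)), gsum_const_mul, gsum_nv b0, gsum_gg71] at h1
  push_cast at h1
  linarith

/-- the set of places -/
private theorem exists_S71 (r : ℕ) (hr : 1 ≤ r) : ∃ (S : Finset (Pl k)) (b : Pl k → ℕ) (E : ℝ), (∀ v, b v = 1 ∨ b v = 2) ∧
    ∀ m, 1 ≤ m → 2 * m * T71 k - E ≤ ∑ v ∈ S, (- Real.log (nv v (cc71 k r m - (b v : k) ^ r))) := by
  classical
  have hf : FinS fun v => Real.log (nv v (2 : k)) := finS_nv two_ne_zero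
  have hf' : (Function.support fun v : FinitePlace k => Real.log (nv (.inr v) (2 : k))).Finite := hf
  obtain ⟨r0, r1⟩ := den71 (k := k) hr
  have hrN : 0 < 2 ^ r - 1 := by
    have h3 : 2 ^ 1 ≤ 2 ^ r := Nat.pow_le_pow_right (by norm_num) hr
    omega
  refine ⟨Finset.univ.disjSum hf'.toFinset, Sum.elim (fun _ => 2) (fun _ => 1),
    T71 k + ∑ v : InfinitePlace k, Real.log (nv (.inl v : Pl k) (2 ^ r - 1 : k)), ?_, fun m hm => ?_⟩
  · rintro (v | v)
    · exact Or.inr rfl
    · exact Or.inl rfl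
  obtain ⟨b0, b1⟩ := den71 (k := k) hm
  have hb : 0 < 2 ^ m - 1 := by
    have h3 : 2 ^ 1 ≤ 2 ^ m := Nat.pow_le_pow_right (by norm_num) hm
    omega
  rw [Finset.sum_disjSum]
  have h1 : ∀ v : InfinitePlace k, (m - 1) * Real.log (nv (.inl v : Pl k) (2 : k)) -
      Real.log (nv (.inl v : Pl k) (2 ^ r - 1 : k)) ≤
      - Real.log (nv (.inl v : Pl k) (cc71 k r m - ((Sum.elim (fun _ => 2) (fun _ => 1) (.inl v : Pl k) : ℕ) : k) ^ r)) := by
    intro v
    have e1 : ((Sum.elim (fun _ => 2) (fun _ => 1) (.inl v : Pl k) : ℕ) : k) = 2 := by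
      show ((2 : ℕ) : k) = 2
      norm_num
    rw [e1, cc_two71 r hm, div_eq_mul_inv, Pool.Agent.Helper64.Vojta.nv_mul, Pool.Agent.Helper64.Vojta.nv_inv,
      Real.log_mul (Pool.Agent.Helper64.Vojta.nv_pos _ r0).ne' (inv_ne_zero (Pool.Agent.Helper64.Vojta.nv_pos _ b0).ne'),
      Real.log_inv]
    have h2 : (m - 1) * Real.log (nv (.inl v : Pl k) (2 : k)) ≤ Real.log (nv (.inl v : Pl k) (2 ^ m - 1 : k)) := by
      have h3 : ((m - 1 : ℕ) : ℝ) = m - 1 := by
        rw [Nat.cast_sub hm]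
        norm_num
      rw [← h3, ← Real.log_pow, ← nv_pow71]
      have h4 : (2 : k) ^ (m - 1) = ((2 ^ (m - 1) : ℕ) : k) := by
        push_cast
        ring
      refine Real.log_le_log (Pool.Agent.Helper64.Vojta.nv_pos _ (pow_ne_zero _ two_ne_zero)) ?_
      rw [h4, ← b1, nv_nat_inf71, nv_nat_inf71]
      refine pow_le_pow_left₀ (Nat.cast_nonneg _) ?_ _
      have h5 : 2 ^ (m - 1) ≤ 2 ^ m - 1 := by
        have h6 : 2 ^ m = 2 ^ (m - 1) * 2 := by
          rw [← pow_succ]
          congr 1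
          omega
        have h7 : 0 < 2 ^ (m - 1) := by positivity
        omega
      exact_mod_cast h5
    linarith
  have h2 : ∀ v ∈ hf'.toFinset, - (m * Real.log (nv (.inr v : Pl k) (2 : k))) ≤
      - Real.log (nv (.inr v : Pl k) (cc71 k r m - ((Sum.elim (fun _ => 2) (fun _ => 1) (.inr v : Pl k) : ℕ) : k) ^ r)) := by
    intro v hv
    have hv' : Real.log (nv (.inr v : Pl k) (2 : k)) ≠ 0 := by
      rw [Set.Finite.mem_toFinset, Function.mem_support] at hv
      exact hv
    have e1 : ((Sum.elim (fun _ => 2) (fun _ => 1) (.inr v : Pl k) : ℕ) : k) = 1 := by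
      show ((1 : ℕ) : k) = 1
      norm_num
    have h20 : 0 < nv (.inr v : Pl k) (2 : k) := Pool.Agent.Helper64.Vojta.nv_pos _ two_ne_zero
    have h21 : nv (.inr v : Pl k) (2 : k) < 1 := by
      have h3 := nv_nat_fin71 v 2
      rw [Nat.cast_ofNat] at h3
      rcases lt_or_eq_of_le h3 with h4 | h4
      · exact h4
      · rw [h4, Real.log_one] at hv'
        exact absurd rfl hv'
    rw [e1, one_pow, cc_one71 r hm, div_eq_mul_inv, Pool.Agent.Helper64.Vojta.nv_mul, Pool.Agent.Helper64.Vojta.nv_mul,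
      Pool.Agent.Helper64.Vojta.nv_inv, nv_pow71]
    have hrp := Pool.Agent.Helper64.Vojta.nv_pos (.inr v : Pl k) r0
    have hbp := Pool.Agent.Helper64.Vojta.nv_pos (.inr v : Pl k) b0
    rw [Real.log_mul (mul_pos (pow_pos h20 _) hrp).ne' (inv_ne_zero hbp.ne'), Real.log_mul (pow_pos h20 _).ne' hrp.ne',
      Real.log_inv, Real.log_pow]
    have h3 : Real.log (nv (.inr v : Pl k) (2 ^ r - 1 : k)) ≤ 0 := by
      refine Real.log_nonpos hrp.le ?_
      rw [← r1]
      exact nv_nat_fin71 v _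
    have h4 : 0 ≤ Real.log (nv (.inr v : Pl k) (2 ^ m - 1 : k)) := by
      refine Real.log_nonneg ?_
      have h5 := Pool.Agent.Helper64.Vojta.nv_sum_le_inr v (Finset.univ : Finset (Fin 2)) ![(2 : k) ^ m, -(2 ^ m - 1)]
        (max (nv (.inr v : Pl k) (2 ^ m)) (nv (.inr v : Pl k) (2 ^ m - 1))) (le_max_of_le_left (Pool.Agent.Helper64.Vojta.nv_nonneg _ _))
        (by
          intro i _
          fin_cases i
          · exact le_max_left _ _
          · refine le_of_eq_of_le ?_ (le_max_right _ _)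
            show v (-(2 ^ m - 1)) = v (2 ^ m - 1)
            exact map_neg_eq_map v _)
      rw [Fin.sum_univ_two] at h5
      have h6 : (![(2 : k) ^ m, -(2 ^ m - 1)] 0 + ![(2 : k) ^ m, -(2 ^ m - 1)] 1) = 1 := by
        simp
      rw [h6, Pool.Agent.Helper64.Vojta.nv_one, nv_pow71] at h5
      rcases le_max_iff.1 h5 with h7 | h7
      · exfalso
        have h8 : nv (.inr v : Pl k) (2 : k) ^ m < 1 := pow_lt_one₀ h20.le h21 (by omega)
        linarith
      · exact h7
    linarith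
  have h3 := Finset.sum_le_sum fun v (_ : v ∈ (Finset.univ : Finset (InfinitePlace k))) => h1 v
  have h4 := Finset.sum_le_sum h2
  rw [Finset.sum_sub_distrib, ← Finset.mul_sum] at h3
  rw [Finset.sum_neg_distrib, ← Finset.mul_sum] at h4
  have h5 := gsum_nv (K := k) (y := (2 : k)) two_ne_zero
  unfold gsum at h5
  rw [finsum_eq_sum_of_support_subset _ (s := hf'.toFinset) (by rw [Set.Finite.coe_toFinset])] at h5
  change T71 k + _ = 0 at h5
  change (m - 1) * T71 k - _ ≤ _ at h3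
  have h6 : ∑ v ∈ hf'.toFinset, Real.log (nv (.inr v : Pl k) (2 : k)) = - T71 k := by linarith
  rw [h6] at h4
  linarith

/-! ### the height of `cc` -/

private theorem gsum_lm_ge71 (r : ℕ) (hr : 1 ≤ r) : ∃ E : ℝ, ∀ m, 1 ≤ m →
    m * T71 k - E ≤ gsum (fun v => Real.log (max 1 (nv v (cc71 k r m)))) := by
  classical
  obtain ⟨r0, r1⟩ := den71 (k := k) hr
  refine ⟨T71 k + ∑ v : InfinitePlace k, Real.log (nv (.inl v : Pl k) (2 ^ r - 1 : k)), fun m hm => ?_⟩
  obtain ⟨b0, b1⟩ := den71 (k := k) hm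
  have hb : 0 < 2 ^ m - 1 := by
    have h3 : 2 ^ 1 ≤ 2 ^ m := Nat.pow_le_pow_right (by norm_num) hm
    omega
  have hd : cc71 k r m - 2 ^ r ≠ 0 := by
    rw [cc_two71 r hm]
    exact div_ne_zero r0 b0
  have h1 : ∀ v : InfinitePlace k, (m - 1) * Real.log (nv (.inl v : Pl k) (2 : k)) -
      Real.log (nv (.inl v : Pl k) (2 ^ r - 1 : k)) ≤ - Real.log (nv (.inl v : Pl k) (cc71 k r m - 2 ^ r)) := by
    intro v
    rw [cc_two71 r hm, div_eq_mul_inv, Pool.Agent.Helper64.Vojta.nv_mul, Pool.Agent.Helper64.Vojta.nv_inv,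
      Real.log_mul (Pool.Agent.Helper64.Vojta.nv_pos _ r0).ne' (inv_ne_zero (Pool.Agent.Helper64.Vojta.nv_pos _ b0).ne'),
      Real.log_inv]
    have h2 : (m - 1) * Real.log (nv (.inl v : Pl k) (2 : k)) ≤ Real.log (nv (.inl v : Pl k) (2 ^ m - 1 : k)) := by
      have h3 : ((m - 1 : ℕ) : ℝ) = m - 1 := by
        rw [Nat.cast_sub hm]
        norm_num
      rw [← h3, ← Real.log_pow, ← nv_pow71]
      have h4 : (2 : k) ^ (m - 1) = ((2 ^ (m - 1) : ℕ) : k) := by
        push_cast
        ring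
      refine Real.log_le_log (Pool.Agent.Helper64.Vojta.nv_pos _ (pow_ne_zero _ two_ne_zero)) ?_
      rw [h4, ← b1, nv_nat_inf71, nv_nat_inf71]
      refine pow_le_pow_left₀ (Nat.cast_nonneg _) ?_ _
      have h5 : 2 ^ (m - 1) ≤ 2 ^ m - 1 := by
        have h6 : 2 ^ m = 2 ^ (m - 1) * 2 := by
          rw [← pow_succ]
          congr 1
          omega
        have h7 : 0 < 2 ^ (m - 1) := by positivity
        omega
      exact_mod_cast h5
    linarith
  have h2 := Finset.sum_le_sum fun v (_ : v ∈ (Finset.univ : Finset (InfinitePlace k))) => h1 v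
  rw [Finset.sum_sub_distrib, ← Finset.mul_sum] at h2
  change (m - 1) * T71 k - _ ≤ _ at h2
  -- the sum over the finite places
  have h3 : ∑ v : InfinitePlace k, (- Real.log (nv (.inl v : Pl k) (cc71 k r m - 2 ^ r))) =
      ∑ᶠ v : FinitePlace k, Real.log (nv (.inr v : Pl k) (cc71 k r m - 2 ^ r)) := by
    have h4 := gsum_nv hd
    unfold gsum at h4
    rw [Finset.sum_neg_distrib]
    linarith
  let g : Pl k → ℝ := fun v => match v with
    | .inl _ => 0
    | .inr v => Real.log (nv (.inr v : Pl k) (cc71 k r m - 2 ^ r))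
  have hg : FinS g := finS_nv hd
  have hg1 : gsum g = ∑ᶠ v : FinitePlace k, Real.log (nv (.inr v : Pl k) (cc71 k r m - 2 ^ r)) := by
    unfold gsum
    have h5 : ∑ v : InfinitePlace k, g (.inl v) = 0 := Finset.sum_eq_zero fun v _ => rfl
    rw [h5, zero_add]
  have hg2 : ∀ v, g v ≤ Real.log (max 1 (nv v (cc71 k r m))) := by
    rintro (v | v)
    · exact Real.log_nonneg (le_max_left _ _)
    · show Real.log (nv (.inr v : Pl k) (cc71 k r m - 2 ^ r)) ≤ _
      refine Real.log_le_log (Pool.Agent.Helper64.Vojta.nv_pos _ hd) ?_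
      have h5 : nv (.inr v : Pl k) (cc71 k r m - 2 ^ r) ≤
          max (nv (.inr v : Pl k) (cc71 k r m)) (nv (.inr v : Pl k) (2 ^ r)) := by
        have h6 : cc71 k r m - 2 ^ r = cc71 k r m + -(2 ^ r) := by ring
        have h7 : nv (.inr v : Pl k) (2 ^ r) = nv (.inr v : Pl k) (-(2 ^ r)) := by
          show v (2 ^ r) = v (-(2 ^ r))
          exact (map_neg_eq_map v _).symm
        rw [h6, h7]
        exact FinitePlace.add_le v _ _
      refine h5.trans (max_le (le_max_right _ _) (le_max_of_le_left ?_))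
      have h8 := nv_nat_fin71 v (2 ^ r)
      push_cast at h8
      exact h8
  have h6 := gsum_mono hg (finS_lm71 (cc_ne71 r hm)) hg2
  rw [hg1, ← h3] at h6
  linarith

end

/-! ### the points -/

section

variable {k : Type u} [Field k] [NumberField k]

/-- `adjoin k {t}` is normal if `t ^ r` is in `k`. -/
private theorem normal71 {r : ℕ} (hr : 0 < r) {ζ : k} (hζ : IsPrimitiveRoot ζ r) {t : AlgebraicClosure k} {c : k} (hc : c ≠ 0)
    (ht : t ^ r = algebraMap k (AlgebraicClosure k) c) : Normal k (IntermediateField.adjoin k {t}) := by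
  rw [IntermediateField.normal_iff_forall_map_le]
  intro σ
  rw [IntermediateField.adjoin_map, IntermediateField.adjoin_le_iff, Set.image_singleton, Set.singleton_subset_iff]
  have ht0 : t ≠ 0 := by
    rintro rfl
    rw [zero_pow hr.ne', eq_comm, map_eq_zero_iff _ (algebraMap k (AlgebraicClosure k)).injective] at ht
    exact hc ht
  have h1 : (σ t / t) ^ r = 1 := by
    rw [div_pow, ← map_pow, ht, AlgHom.commutes]
    rw [ht] at *
    exact div_self ((map_ne_zero_iff _ (algebraMap k (AlgebraicClosure k)).injective).2 hc)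
  have hζ' : IsPrimitiveRoot (algebraMap k (AlgebraicClosure k) ζ) r :=
    hζ.map_of_injective (algebraMap k (AlgebraicClosure k)).injective
  have hr' : NeZero r := ⟨hr.ne'⟩
  obtain ⟨i, -, hi⟩ := hζ'.eq_pow_of_pow_eq_one h1
  have h2 : σ t = algebraMap k _ (ζ ^ i) * t := by
    rw [map_pow, hi, div_mul_cancel₀ _ ht0]
  rw [h2]
  exact mul_mem (IntermediateField.algebraMap_mem _ _) (IntermediateField.mem_adjoin_simple_self k t)

private theorem finrank71 {r : ℕ} (hr : 0 < r) {t : AlgebraicClosure k} {c : k}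
    (ht : t ^ r = algebraMap k (AlgebraicClosure k) c) : finrank k (IntermediateField.adjoin k {t}) ≤ r := by
  rw [IntermediateField.adjoin.finrank (Algebra.IsIntegral.isIntegral t)]
  have h1 : minpoly k t ∣ Polynomial.X ^ r - Polynomial.C c := by
    refine minpoly.dvd k t ?_
    rw [map_sub, map_pow, Polynomial.aeval_X, Polynomial.aeval_C, ht, sub_self]
  have h2 := Polynomial.natDegree_le_of_dvd h1 (Polynomial.X_pow_sub_C_ne_zero hr c)
  rwa [Polynomial.natDegree_X_pow_sub_C] at h2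

private theorem gal_le71 {r : ℕ} (hr : 0 < r) {ζ : k} (hζ : IsPrimitiveRoot ζ r) {t : AlgebraicClosure k} {c : k} (hc : c ≠ 0)
    (ht : t ^ r = algebraMap k (AlgebraicClosure k) c) {n : ℕ} :
    finrank k (gal fun j : Fin (n + 1) => t ^ (j : ℕ)) ≤ r := by
  have h0 := normal71 hr hζ hc ht
  have h1 : gal (fun j : Fin (n + 1) => t ^ (j : ℕ)) ≤ IntermediateField.adjoin k {t} := by
    unfold gal
    rw [IntermediateField.normalClosure_le_iff_of_normal]
    unfold fld
    rw [IntermediateField.adjoin_le_iff]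
    rintro _ ⟨j, rfl⟩
    exact pow_mem (IntermediateField.mem_adjoin_simple_self k t) _
  have hfd : FiniteDimensional k (IntermediateField.adjoin k {t}) :=
    IntermediateField.adjoin.finiteDimensional (Algebra.IsIntegral.isIntegral t)
  exact (LinearMap.finrank_le_finrank_of_injective (f := (IntermediateField.inclusion h1).toLinearMap)
      (IntermediateField.inclusion_injective h1)).trans (finrank71 hr ht)

/-- the product over the roots of unity -/
private theorem prod_roots71 {L : Type*} [Field L] {r : ℕ} (hr : 0 < r) {ζ : L} (hζ : IsPrimitiveRoot ζ r) (z b : L) :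
    ∏ j : Fin r, (z - b * ζ ^ (j : ℕ)) = z ^ r - b ^ r := by
  classical
  rw [hζ.pow_sub_pow_eq_prod_sub_mul z b hr]
  have hinj : Function.Injective fun j : Fin r => ζ ^ (j : ℕ) := fun i j hij => Fin.ext (hζ.pow_inj i.2 j.2 hij)
  have h1 : Polynomial.nthRootsFinset r (1 : L) = Finset.univ.image fun j : Fin r => ζ ^ (j : ℕ) := by
    symm
    refine Finset.eq_of_subset_of_card_le ?_ ?_
    · intro a ha
      obtain ⟨j, -, rfl⟩ := Finset.mem_image.1 ha
      rw [Polynomial.mem_nthRootsFinset hr]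
      show (ζ ^ (j : ℕ)) ^ r = 1
      rw [← pow_mul, mul_comm, pow_mul, hζ.pow_eq_one, one_pow]
    · rw [hζ.card_nthRootsFinset, Finset.card_image_of_injective _ hinj, Finset.card_univ, Fintype.card_fin]
  rw [h1, Finset.prod_image fun i _ j _ hij => hinj hij]
  exact Finset.prod_congr rfl fun j _ => by rw [mul_comm b]

/-- The points `ζ ^ j` and `2 ζ ^ j`. -/
private noncomputable def pt71 {r : ℕ} (ζ : k) (a : Fin 2 × Fin r) : k := ((a.1 : ℕ) + 1 : ℕ) * ζ ^ (a.2 : ℕ)

private theorem pt_inj71 {r : ℕ} (hr : 0 < r) {ζ : k} (hζ : IsPrimitiveRoot ζ r) : Function.Injective (pt71 (r := r) ζ) := by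
  rintro ⟨a, j⟩ ⟨a', j'⟩ h
  have h0 : (((a : ℕ) + 1 : ℕ) : k) * ζ ^ (j : ℕ) = (((a' : ℕ) + 1 : ℕ) : k) * ζ ^ (j' : ℕ) := h
  have h1 : (((a : ℕ) + 1 : ℕ) : k) ^ r = (((a' : ℕ) + 1 : ℕ) : k) ^ r := by
    have h2 := congrArg (fun x => x ^ r) h0
    have h3 : ∀ j : ℕ, (ζ ^ j) ^ r = 1 := fun j => by rw [← pow_mul, mul_comm, pow_mul, hζ.pow_eq_one, one_pow]
    simpa only [mul_pow, h3, mul_one] using h2
  have h2 : ((a : ℕ) + 1) ^ r = ((a' : ℕ) + 1) ^ r := by exact_mod_cast h1
  have h3 : (a : ℕ) + 1 = (a' : ℕ) + 1 := Nat.pow_left_injective hr.ne' h2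
  have h4 : a = a' := Fin.ext (by omega)
  subst h4
  have h5 : (((a : ℕ) + 1 : ℕ) : k) ≠ 0 := Nat.cast_ne_zero.2 (Nat.succ_ne_zero _)
  have h6 := hζ.pow_inj j.2 j'.2 (mul_left_cancel₀ h5 h0)
  rw [Fin.ext h6]

/-- The points `t` with given `t ^ r` avoid the zeros of finitely many forms. -/
private theorem avoid71 {n r : ℕ} (hr : 0 < r) (A : Finset (Fin (n + 1) → k)) (hA : ∀ a ∈ A, a ≠ 0) : ∃ m₀ : ℕ, ∀ m, 1 ≤ m → m₀ ≤ m →
    ∀ t : AlgebraicClosure k, t ^ r = algebraMap k _ (cc71 k r m) → ∀ a ∈ A, ∑ j, algebraMap k _ (a j) * t ^ (j : ℕ) ≠ 0 := by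
  classical
  let Q : (Fin (n + 1) → k) → Polynomial (AlgebraicClosure k) := fun a =>
    ∑ j, Polynomial.C (algebraMap k _ (a j)) * Polynomial.X ^ (j : ℕ)
  have hQ : ∀ a ∈ A, Q a ≠ 0 := by
    intro a ha h0
    apply hA a ha
    funext j
    have h1 : (Q a).coeff j = algebraMap k _ (a j) := by
      show (∑ j, Polynomial.C (algebraMap k _ (a j)) * Polynomial.X ^ (j : ℕ)).coeff j = _
      rw [Polynomial.finsetSum_coeff, Finset.sum_eq_single j]
      · rw [Polynomial.coeff_C_mul_X_pow, if_pos rfl]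
      · intro i _ hi
        rw [Polynomial.coeff_C_mul_X_pow, if_neg fun hh => hi (Fin.ext hh).symm]
      · intro h
        exact absurd (Finset.mem_univ _) h
    rw [h0, Polynomial.coeff_zero] at h1
    have h2 := h1.symm
    rwa [map_eq_zero_iff _ (algebraMap k (AlgebraicClosure k)).injective] at h2
  let Z : Finset (AlgebraicClosure k) := (A.biUnion fun a => (Q a).roots.toFinset).image fun t => t ^ r
  have hinj : Set.InjOn (fun m : ℕ => algebraMap k (AlgebraicClosure k) (cc71 k r m)) {m | 1 ≤ m} := by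
    intro m hm m' hm' h
    exact cc_inj71 hr hm hm' ((algebraMap k (AlgebraicClosure k)).injective h)
  have hfin : ({m | 1 ≤ m} ∩ (fun m : ℕ => algebraMap k (AlgebraicClosure k) (cc71 k r m)) ⁻¹' (Z : Set _)).Finite := by
    refine Set.Finite.of_finite_image (f := fun m : ℕ => algebraMap k (AlgebraicClosure k) (cc71 k r m)) ?_
      (hinj.mono Set.inter_subset_left)
    refine Z.finite_toSet.subset ?_
    rintro _ ⟨m, hm, rfl⟩
    exact hm.2
  obtain ⟨M, hM⟩ := hfin.bddAbove
  refine ⟨M + 1, fun m hm1 hm t ht a ha h0 => ?_⟩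
  have h1 : m ∈ {m | 1 ≤ m} ∩ (fun m : ℕ => algebraMap k (AlgebraicClosure k) (cc71 k r m)) ⁻¹' (Z : Set _) := by
    refine ⟨hm1, ?_⟩
    rw [Set.mem_preimage, Finset.mem_coe]
    refine Finset.mem_image.2 ⟨t, Finset.mem_biUnion.2 ⟨a, ha, ?_⟩, ht⟩
    rw [Multiset.mem_toFinset, Polynomial.mem_roots (hQ a ha)]
    show Polynomial.eval t (∑ j, Polynomial.C (algebraMap k _ (a j)) * Polynomial.X ^ (j : ℕ)) = 0
    rw [Polynomial.eval_finsetSum]
    simpa only [Polynomial.eval_mul, Polynomial.eval_C, Polynomial.eval_pow, Polynomial.eval_X] using h0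
  have := hM h1
  omega

/-- The estimate at one place. -/
private theorem place71 {n r : ℕ} (hn : 1 ≤ n) (hr : 0 < r) {ζ : k} (hζ : IsPrimitiveRoot ζ r)
    (F : (Fin 2 × Fin r) × Fin n → Polynomial k) (hF : ∀ a, (F a).natDegree ≤ n)
    (hd : ∀ a, (Polynomial.X - Polynomial.C (pt71 ζ a.1)) ^ (n - (a.2 : ℕ)) ∣ F a) (v : Pl k) (b : ℕ) (hb : b = 1 ∨ b = 2) :
    ∃ D : ℝ, ∀ (c : k) (t : AlgebraicClosure k), t ^ r = algebraMap k _ c → c - (b : k) ^ r ≠ 0 → 
      (∀ a, val (fun j : Fin (n + 1) => (F a).coeff j) (fun j : Fin (n + 1) => t ^ (j : ℕ)) ≠ 0) →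
      (n * (n + 1) / 2 : ℝ) * (- Real.log (nv v (c - (b : k) ^ r))) - D ≤
        ∑ a, lam (fun j : Fin (n + 1) => (F a).coeff j) v (fun j : Fin (n + 1) => t ^ (j : ℕ)) := by
  classical
  obtain ⟨β, hβ⟩ : ∃ β : Fin 2, (β : ℕ) + 1 = b := by
    rcases hb with rfl | rfl
    · exact ⟨0, rfl⟩
    · exact ⟨1, rfl⟩
  have hr' : Nonempty (Fin r) := ⟨⟨0, hr⟩⟩
  have hp : Function.Injective fun j : Fin r => pt71 ζ ((β, j) : Fin 2 × Fin r) := fun i j hij =>
    (Prod.mk.inj (pt_inj71 hr hζ hij)).2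
  obtain ⟨D, hD⟩ := local71 F (pt71 ζ) hF hd (fun j : Fin r => (β, j)) hp v
  refine ⟨D, fun c t ht hc hval => ?_⟩
  set x : Fin (n + 1) → AlgebraicClosure k := fun j => t ^ (j : ℕ) with hx
  have hx1 : ∃ j, x j = 1 := ⟨0, by rw [hx]; simp⟩
  obtain ⟨y, M, inst, hy, hQS, -, hL⟩ := data_g x hx1
  have hfd0 : FiniteDimensional k (fld x) := FiniteDimensional.right ℚ k (fld x)
  have hfd : FiniteDimensional k (gal x) := by
    unfold gal
    infer_instance
  have hgal : IsGalois k (gal x) := by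
    unfold gal
    infer_instance
  have hcard : (Fintype.card (gal x ≃ₐ[k] gal x) : ℝ) = finrank k (gal x) := by
    rw [← Nat.card_eq_fintype_card, IsGalois.card_aut_eq_finrank]
  have hpos : (0 : ℝ) < finrank k (gal x) := by exact_mod_cast (finrank_pos (R := k) (M := gal x))
  set τ : gal x := y ⟨1, by omega⟩ with hτ
  have hτt : (τ : AlgebraicClosure k) = t := by
    rw [hτ, hy, hx]
    simp
  have hyτ : y = fun j : Fin (n + 1) => τ ^ (j : ℕ) := by
    funext j
    apply Subtype.ext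
    rw [hy, SubmonoidClass.coe_pow, hτt]
  have hτr : τ ^ r = algebraMap k (gal x) c := by
    apply Subtype.ext
    rw [SubmonoidClass.coe_pow, hτt, ht]
    rfl
  -- the values of the forms
  have hev : ∀ a (z : gal x), Polynomial.aeval z (F a) = lvg (fun j : Fin (n + 1) => (F a).coeff j) (fun j : Fin (n + 1) => z ^ (j : ℕ)) := by
    intro a z
    rw [Polynomial.aeval_eq_sum_range' (Nat.lt_succ_of_le (hF a)), ← Fin.sum_univ_eq_sum_range (fun i => (F a).coeff i • z ^ i)]
    unfold lvg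
    exact Finset.sum_congr rfl fun j _ => by rw [Algebra.smul_def]
  let f : (Fin 2 × Fin r) × Fin n → MvPolynomial (Fin (n + 1)) k := fun a => ∑ j : Fin (n + 1), MvPolynomial.C ((F a).coeff j) * MvPolynomial.X j
  have hfv : ∀ a, MvPolynomial.aeval (crd x) (f a) = val (fun j : Fin (n + 1) => (F a).coeff j) x := by
    intro a
    show MvPolynomial.aeval (crd x) (∑ j : Fin (n + 1), MvPolynomial.C ((F a).coeff j) * MvPolynomial.X j) = _
    unfold val
    rw [map_sum]
    refine Finset.sum_congr rfl fun j _ => ?_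
    rw [map_mul, MvPolynomial.aeval_C, MvPolynomial.aeval_X]
  have hfy : ∀ a, MvPolynomial.aeval y (f a) = Polynomial.aeval τ (F a) := by
    intro a
    show MvPolynomial.aeval y (∑ j : Fin (n + 1), MvPolynomial.C ((F a).coeff j) * MvPolynomial.X j) = _
    rw [map_sum, hev]
    unfold lvg
    refine Finset.sum_congr rfl fun j _ => ?_
    rw [map_mul, MvPolynomial.aeval_C, MvPolynomial.aeval_X, hyτ]
  have hlam : ∀ a, lam (fun j : Fin (n + 1) => (F a).coeff j) v x = lamP 1 (f a) v x := by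
    intro a
    unfold lam lamP
    rw [hfv]
    simp only [Nat.cast_one, one_mul]
  have hne : ∀ a, Polynomial.aeval τ (F a) ≠ 0 := by
    intro a h0
    apply hval a
    have h1 : ((val (fun j : Fin (n + 1) => (F a).coeff j) x : fld x) : AlgebraicClosure k) =
        ((Polynomial.aeval τ (F a) : gal x) : AlgebraicClosure k) := by
      rw [hev]
      unfold val lvg
      rw [← IntermediateField.algebraMap_apply, ← IntermediateField.algebraMap_apply, map_sum, map_sum]
      refine Finset.sum_congr rfl fun j _ => ?_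
      rw [map_mul, map_mul, ← IsScalarTower.algebraMap_apply, ← IsScalarTower.algebraMap_apply]
      congr 1
      show x j = ((τ ^ (j : ℕ) : gal x) : AlgebraicClosure k)
      rw [SubmonoidClass.coe_pow, hτt]
    apply Subtype.ext
    rw [h1, h0]
    rfl
  have hg : ∀ g : gal x ≃ₐ[k] gal x, (n * (n + 1) / 2 : ℝ) * (- Real.log (nv v (c - (b : k) ^ r))) - D ≤
      ∑ a, (Real.log (mxn (M v) fun j => g (y j)) - Real.log (M v (g (Polynomial.aeval τ (F a))))) := by
    intro g
    have h1 : ∀ a, Polynomial.aeval (g τ) (F a) = g (Polynomial.aeval τ (F a)) := fun a =>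
      Polynomial.aeval_algHom_apply (g : gal x →ₐ[k] gal x) τ (F a)
    have hgr : (g τ) ^ r = algebraMap k (gal x) c := by
      rw [← map_pow, hτr, AlgEquiv.commutes]
    have hprod : ∏ j : Fin r, (g τ - algebraMap k (gal x) (pt71 ζ ((β, j) : Fin 2 × Fin r))) = algebraMap k (gal x) (c - (b : k) ^ r) := by
      have h2 := prod_roots71 hr (hζ.map_of_injective (algebraMap k (gal x)).injective) (g τ) (algebraMap k (gal x) b)
      rw [map_sub, ← hgr, map_pow, ← h2]
      refine Finset.prod_congr rfl fun j _ => ?_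
      unfold pt71
      rw [map_mul, map_pow, ← hβ]
    have h3 : ∀ j : Fin r, g τ - algebraMap k (gal x) (pt71 ζ ((β, j) : Fin 2 × Fin r)) ≠ 0 := by
      intro j h0
      have h4 := Finset.prod_eq_zero (f := fun j : Fin r => g τ - algebraMap k (gal x) (pt71 ζ ((β, j) : Fin 2 × Fin r)))
        (Finset.mem_univ j) h0
      rw [hprod, map_eq_zero_iff _ (algebraMap k (gal x)).injective] at h4
      exact hc h4
    have h5 := hD (gal x ≃ₐ[k] gal x) (gal x) _ M hQS (g τ) (fun a => by rw [h1]; exact (map_ne_zero g).2 (hne a)) h3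
    rw [hprod, hQS.ext] at h5
    refine h5.trans (le_of_eq (Finset.sum_congr rfl fun a _ => ?_))
    rw [h1, hyτ]
    simp only [map_pow]
  have hsum : (finrank k (gal x) : ℝ) * ∑ a, lam (fun j : Fin (n + 1) => (F a).coeff j) v x =
      ∑ g : gal x ≃ₐ[k] gal x, ∑ a, (Real.log (mxn (M v) fun j => g (y j)) - Real.log (M v (g (Polynomial.aeval τ (F a))))) := by
    rw [Finset.mul_sum, Finset.sum_comm]
    refine Finset.sum_congr rfl fun a _ => ?_
    rw [hlam a, hL v 1 (f a) (by rw [hfv]; exact hval a)]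
    refine Finset.sum_congr rfl fun g _ => ?_
    rw [hfy, Nat.cast_one, one_mul]
  have h6 := Finset.sum_le_sum fun g (_ : g ∈ (Finset.univ : Finset (gal x ≃ₐ[k] gal x))) => hg g
  rw [Finset.sum_const, Finset.card_univ, nsmul_eq_mul, hcard, ← hsum] at h6
  exact le_of_mul_le_mul_left h6 hpos

/-- the height -/
private theorem hgt71 {n r : ℕ} (hn : 1 ≤ n) (hr : 0 < r) (c : k) (t : AlgebraicClosure k) (ht : t ^ r = algebraMap k _ c) :
    (r : ℝ) * hgt (fun j : Fin (n + 1) => t ^ (j : ℕ)) = n * gsum (fun v => Real.log (max 1 (nv v c))) := by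
  classical
  set x : Fin (n + 1) → AlgebraicClosure k := fun j => t ^ (j : ℕ) with hx
  have hx1 : ∃ j, x j = 1 := ⟨0, by rw [hx]; simp⟩
  obtain ⟨y, M, inst, hy, hQS, hH, -⟩ := data_g x hx1
  have hfd0 : FiniteDimensional k (fld x) := FiniteDimensional.right ℚ k (fld x)
  have hfd : FiniteDimensional k (gal x) := by
    unfold gal
    infer_instance
  have hgal : IsGalois k (gal x) := by
    unfold gal
    infer_instance
  have hcard : (Fintype.card (gal x ≃ₐ[k] gal x) : ℝ) = finrank k (gal x) := by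
    rw [← Nat.card_eq_fintype_card, IsGalois.card_aut_eq_finrank]
  have hpos : (0 : ℝ) < finrank k (gal x) := by exact_mod_cast (finrank_pos (R := k) (M := gal x))
  set τ : gal x := y ⟨1, by omega⟩ with hτ
  have hτt : (τ : AlgebraicClosure k) = t := by
    rw [hτ, hy, hx]
    simp
  have hyτ : y = fun j : Fin (n + 1) => τ ^ (j : ℕ) := by
    funext j
    apply Subtype.ext
    rw [hy, SubmonoidClass.coe_pow, hτt]
  have hτr : τ ^ r = algebraMap k (gal x) c := by
    apply Subtype.ext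
    rw [SubmonoidClass.coe_pow, hτt, ht]
    rfl
  have h1 : (r : ℝ) * Hg (MonoidHom.id (gal x ≃ₐ[k] gal x)) M y =
      (finrank k (gal x) : ℝ) * (n * gsum (fun v => Real.log (max 1 (nv v c)))) := by
    unfold Hg
    rw [← gsum_const_mul, ← gsum_const_mul, ← gsum_const_mul]
    congr 1
    funext v
    rw [Finset.mul_sum]
    have h2 : ∀ g : gal x ≃ₐ[k] gal x, (r : ℝ) * Real.log (mxn (M v) fun j => (MonoidHom.id (gal x ≃ₐ[k] gal x)) g (y j)) =
        n * Real.log (max 1 (nv v c)) := by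
      intro g
      have h3 : (fun j : Fin (n + 1) => (MonoidHom.id (gal x ≃ₐ[k] gal x)) g (y j)) = fun j : Fin (n + 1) => (g τ) ^ (j : ℕ) := by
        funext j
        rw [hyτ]
        show g (τ ^ (j : ℕ)) = _
        rw [map_pow]
      rw [h3]
      refine log_mxn71 hQS v n hr (g τ) c ?_
      rw [← map_pow, hτr, AlgEquiv.commutes]
    rw [Finset.sum_congr rfl fun g _ => h2 g, Finset.sum_const, Finset.card_univ, nsmul_eq_mul, hcard]
  rw [← hH] at h1
  have h2 : (finrank k (gal x) : ℝ) * ((r : ℝ) * hgt x) = (finrank k (gal x) : ℝ) * (n * gsum (fun v => Real.log (max 1 (nv v c)))) := by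
    rw [← h1]
    ring
  exact mul_left_cancel₀ hpos.ne' h2

/-- The constant `r (n + 1)` is best possible. -/
theorem sharp2 {n r : ℕ} (hn : 1 ≤ n) (hr : 2 ≤ r) {ζ : k} (hζ : IsPrimitiveRoot ζ r) :
    ∃ (l : Fin (2 * r * n) → Fin (n + 1) → k) (S : Finset (Pl k)) (C : ℝ), GenPos l ∧
      ∀ (A : Finset (Fin (n + 1) → k)) (B : ℝ), (∀ m ∈ A, m ≠ 0) → ∃ x : Fin (n + 1) → AlgebraicClosure k,
        (∃ j, x j = 1) ∧ finrank k (gal x) ≤ r ∧ (∀ i, val (l i) x ≠ 0) ∧ (∀ m ∈ A, val m x ≠ 0) ∧ B ≤ hgt x ∧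
          (r * (n + 1) : ℝ) * hgt x - C ≤ ∑ ν ∈ S, ∑ i, lam (l i) ν x := by
  classical
  have hr0 : 0 < r := by omega
  obtain ⟨F, hF, hd, hgp⟩ := Pool.Agent.Helper71.SH.exists_gp (pt71 (r := r) ζ) (pt_inj71 hr0 hζ) n (by
    rw [Fintype.card_prod, Fintype.card_fin, Fintype.card_fin]
    nlinarith)
  let e : Fin (2 * r * n) ≃ (Fin 2 × Fin r) × Fin n :=
    finProdFinEquiv.symm.trans (Equiv.prodCongr finProdFinEquiv.symm (Equiv.refl _))
  let l : Fin (2 * r * n) → Fin (n + 1) → k := fun i j => (F (e i)).coeff j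
  obtain ⟨S, b, E, hb, hS⟩ := exists_S71 (k := k) r (by omega)
  choose D hD using fun v => place71 hn hr0 hζ F hF hd v (b v) (hb v)
  have hl : GenPos l := by
    intro I hI
    have h1 := hgp (I.map e.toEmbedding) (by rw [Finset.card_map]; exact hI)
    let φ : I → I.map e.toEmbedding := fun i => ⟨e i.1, Finset.mem_map_of_mem _ i.2⟩
    have hφ : Function.Injective φ := by
      intro i j hij
      have h2 : e i.1 = e j.1 := congrArg Subtype.val hij
      exact Subtype.ext (e.injective h2)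
    exact h1.comp φ hφ
  have hl0 : ∀ i, l i ≠ 0 := by
    intro i
    have h1 := hl {i} (by rw [Finset.card_singleton]; omega)
    exact h1.ne_zero ⟨i, Finset.mem_singleton_self i⟩
  refine ⟨l, S, (n * (n + 1) * r * T71 k) + (n * (n + 1) / 2 : ℝ) * E + ∑ v ∈ S, D v, hl, fun A B hA => ?_⟩
  obtain ⟨E', hE'⟩ := gsum_lm_ge71 (k := k) r (by omega)
  obtain ⟨m₀, hm₀⟩ := avoid71 hr0 (A ∪ Finset.univ.image l) (by
    intro a ha
    rcases Finset.mem_union.1 ha with h1 | h1
    · exact hA a h1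
    · obtain ⟨i, -, rfl⟩ := Finset.mem_image.1 h1
      exact hl0 i)
  have hT : 0 < T71 k := T_pos71
  obtain ⟨m₁, hm₁⟩ := exists_nat_ge ((r * |B| + |E'|) / T71 k)
  set m := m₀ + m₁ + 1 with hm
  have hm1 : 1 ≤ m := by omega
  obtain ⟨t, ht⟩ := IsAlgClosed.exists_pow_nat_eq (algebraMap k (AlgebraicClosure k) (cc71 k r m)) hr0
  have hav := hm₀ m hm1 (by omega) t ht
  have hcoe : ∀ a : Fin (n + 1) → k, ((val a (fun j : Fin (n + 1) => t ^ (j : ℕ)) : fld (fun j : Fin (n + 1) => t ^ (j : ℕ))) :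
      AlgebraicClosure k) = ∑ j, algebraMap k _ (a j) * t ^ (j : ℕ) := by
    intro a
    unfold val
    rw [← IntermediateField.algebraMap_apply, map_sum]
    refine Finset.sum_congr rfl fun j _ => ?_
    rw [map_mul]
    rfl
  have hval : ∀ a ∈ A ∪ Finset.univ.image l, val a (fun j : Fin (n + 1) => t ^ (j : ℕ)) ≠ 0 := by
    intro a ha h0
    apply hav a ha
    rw [← hcoe, h0]
    rfl
  have hH := hgt71 hn hr0 (cc71 k r m) t ht
  have hup := gsum_lm71 (k := k) r hm1
  have hlo := hE' m hm1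
  refine ⟨fun j => t ^ (j : ℕ), ⟨0, by simp⟩, gal_le71 hr0 hζ (cc_ne71 r hm1) ht, fun i => hval _ (Finset.mem_union_right _
    (Finset.mem_image_of_mem _ (Finset.mem_univ i))), fun a ha => hval a (Finset.mem_union_left _ ha), ?_, ?_⟩
  · have h1 : (r * |B| + |E'|) / T71 k ≤ m := hm₁.trans (by rw [hm]; push_cast; have : (0 : ℝ) ≤ m₀ := Nat.cast_nonneg _; linarith)
    rw [div_le_iff₀ hT] at h1
    have h2 : (r : ℝ) * |B| ≤ gsum (fun v => Real.log (max 1 (nv v (cc71 k r m)))) := by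
      have := le_abs_self E'
      linarith
    have h3 : (r : ℝ) * |B| ≤ n * gsum (fun v => Real.log (max 1 (nv v (cc71 k r m)))) := by
      have h4 : (1 : ℝ) ≤ n := by exact_mod_cast hn
      have h5 : (0 : ℝ) ≤ (r : ℝ) * |B| := mul_nonneg (Nat.cast_nonneg _) (abs_nonneg _)
      nlinarith
    rw [← hH] at h3
    have h4 : (0 : ℝ) < r := by exact_mod_cast hr0
    exact (le_abs_self B).trans (le_of_mul_le_mul_left h3 h4)
  · have h1 : ∀ v ∈ S, (n * (n + 1) / 2 : ℝ) * (- Real.log (nv v (cc71 k r m - (b v : k) ^ r))) - D v ≤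
        ∑ i, lam (l i) v (fun j : Fin (n + 1) => t ^ (j : ℕ)) := by
      intro v _
      have h2 : cc71 k r m - (b v : k) ^ r ≠ 0 := by
        have r0 := (den71 (k := k) (m := r) (by omega)).1
        have m0 := (den71 (k := k) hm1).1
        rcases hb v with h3 | h3
        · rw [h3, Nat.cast_one, one_pow, cc_one71 r hm1]
          exact div_ne_zero (mul_ne_zero (pow_ne_zero _ two_ne_zero) r0) m0
        · rw [h3, Nat.cast_ofNat, cc_two71 r hm1]
          exact div_ne_zero r0 m0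
      have h3 := hD v (cc71 k r m) t ht h2 fun a => by
        have h4 := hval (l (e.symm a)) (Finset.mem_union_right _ (Finset.mem_image_of_mem _ (Finset.mem_univ _)))
        have h5 : l (e.symm a) = fun j : Fin (n + 1) => (F a).coeff j := by
          funext j
          show (F (e (e.symm a))).coeff j = _
          rw [Equiv.apply_symm_apply]
        rwa [h5] at h4
      refine h3.trans (le_of_eq ?_)
      rw [← Equiv.sum_comp e]
    have h2 := Finset.sum_le_sum h1
    rw [Finset.sum_sub_distrib, ← Finset.mul_sum] at h2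
    have h3 := hS m hm1
    have h4 : (0 : ℝ) ≤ n * (n + 1) / 2 := by positivity
    have h5 := mul_le_mul_of_nonneg_left h3 h4
    have h6 : (r * (n + 1) : ℝ) * hgt (fun j : Fin (n + 1) => t ^ (j : ℕ)) ≤ (n * (n + 1)) * ((m + r) * T71 k) := by
      have h7 : (r * (n + 1) : ℝ) * hgt (fun j : Fin (n + 1) => t ^ (j : ℕ)) =
          (n * (n + 1)) * gsum (fun v => Real.log (max 1 (nv v (cc71 k r m)))) := by
        have h8 : (r * (n + 1) : ℝ) * hgt (fun j : Fin (n + 1) => t ^ (j : ℕ)) = (n + 1) * (r * hgt (fun j : Fin (n + 1) => t ^ (j : ℕ))) := by ring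
        rw [h8, hH]
        ring
      rw [h7]
      exact mul_le_mul_of_nonneg_left hup (by positivity)
    have h7 : (n * (n + 1) / 2 : ℝ) * (2 * m * T71 k - E) = (n * (n + 1)) * (m * T71 k) - (n * (n + 1) / 2 : ℝ) * E := by ring
    have h8 : ((n : ℝ) * (n + 1)) * ((m + r) * T71 k) = (n * (n + 1)) * (m * T71 k) + n * (n + 1) * r * T71 k := by ring
    linarith

end

/-- For all `n ≥ 1`, `r ≥ 2` there are such `k` and `l`. -/
theorem sharp2' {n r : ℕ} (hn : 1 ≤ n) (hr : 2 ≤ r) :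
    ∃ (k : Type) (_ : Field k) (_ : NumberField k) (q : ℕ) (l : Fin q → Fin (n + 1) → k) (S : Finset (Pl k)) (C : ℝ), GenPos l ∧
      ∀ (A : Finset (Fin (n + 1) → k)) (B : ℝ), (∀ m ∈ A, m ≠ 0) → ∃ x : Fin (n + 1) → AlgebraicClosure k,
        (∃ j, x j = 1) ∧ finrank k (gal x) ≤ r ∧ (∀ i, val (l i) x ≠ 0) ∧ (∀ m ∈ A, val m x ≠ 0) ∧ B ≤ hgt x ∧
          (r * (n + 1) : ℝ) * hgt x - C ≤ ∑ ν ∈ S, ∑ i, lam (l i) ν x := by
  have hr' : NeZero r := ⟨by omega⟩
  have hr'' : NeZero ((r : ℕ) : ℚ) := ⟨by exact_mod_cast hr'.out⟩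
  have h0 : IsCyclotomicExtension {r} ℚ (CyclotomicField r ℚ) := CyclotomicField.isCyclotomicExtension r ℚ
  have h1 : NumberField (CyclotomicField r ℚ) := IsCyclotomicExtension.numberField {r} ℚ (CyclotomicField r ℚ)
  exact ⟨CyclotomicField r ℚ, inferInstance, h1, 2 * r * n,
    sharp2 hn hr (IsCyclotomicExtension.zeta_spec r ℚ (CyclotomicField r ℚ))⟩

end Pool.Agent.SQ
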