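import Pool.Agent.Helper42.SQ.SHARP3A
import Pool.Agent.Helper42.SQ.SHARP3C

/-!
# SQ, block SHARP3: `2 n + 2 r - 2` for all `2 n + 2 r - 2` or more hyperplanes in general position

`P₁`, `P₂` : zeros of `l 0, ..., l (n-1)` and of `l n, ..., l (2n-1)`; points `z P₁ + P₂`, where `z` is a root of
`∏_{a ∈ WA} (X - a) + u ∏_{b ∈ WB} (X - b)`, `u = 2 ^ m`; `S` : the archimedean places and those above `2`.
-/

set_option autoImplicit false
set_option linter.unusedSectionVars false
set_option linter.unusedVariables false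

namespace Pool.Agent.SQ

open NumberField Filter Module
open Pool.Agent.Helper64.Vojta (Pl nv nv_one nv_mul nv_pos nv_nonneg nv_zero nv_inv)
open Pool.Agent.V2
open Pool.Agent.Chart (fld dg crd val hgt lam)

universe u

/-! ### powers of two -/

section

variable {k : Type u} [Field k] [NumberField k]

private noncomputable def T73 (k : Type u) [Field k] [NumberField k] : ℝ :=
  ∑ v : InfinitePlace k, Real.log (nv (.inl v : Pl k) (2 : k))

private theorem nv_two73 (v : InfinitePlace k) : 2 ≤ nv (.inl v : Pl k) (2 : k) := by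
  show (2 : ℝ) ≤ v 2 ^ v.mult
  have h1 : v (2 : k) = 2 := by
    rw [← InfinitePlace.norm_embedding_eq, map_ofNat]
    simp
  rw [h1]
  exact le_self_pow₀ (by norm_num) v.mult_ne_zero

private theorem T_pos73 : 0 < T73 k := by
  unfold T73
  refine Finset.sum_pos (fun v _ => Real.log_pos (by have := nv_two73 v; linarith)) ?_
  exact Finset.univ_nonempty

private theorem nv_pow73 (v : Pl k) (c : k) (m : ℕ) : nv v (c ^ m) = nv v c ^ m := by
  induction m with
  | zero => rw [pow_zero, pow_zero, nv_one]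
  | succ m ih => rw [pow_succ, pow_succ, nv_mul, ih]

private theorem nv_fin_two73 (v : FinitePlace k) : nv (.inr v : Pl k) (2 : k) ≤ 1 := by
  have h1 := Pool.Agent.Helper64.Vojta.nv_int_le_one v (2 : 𝓞 k)
  have h2 : ((2 : 𝓞 k) : k) = 2 := map_ofNat (algebraMap (𝓞 k) k) 2
  rwa [h2] at h1

private theorem lm_inr73 (m : ℕ) (v : FinitePlace k) : lm73 ((2 : k) ^ m) (.inr v) = 0 := by
  unfold lm73
  rw [nv_pow73, max_eq_left (pow_le_one₀ (nv_nonneg _ _) (nv_fin_two73 v)), Real.log_one]

private theorem lm_inl73 (m : ℕ) (v : InfinitePlace k) : lm73 ((2 : k) ^ m) (.inl v) = m * Real.log (nv (.inl v : Pl k) (2 : k)) := by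
  unfold lm73
  rw [nv_pow73, max_eq_right (one_le_pow₀ (by have := nv_two73 v; linarith)), Real.log_pow]

private theorem gsum_lm73 (m : ℕ) : gsum (lm73 ((2 : k) ^ m)) = m * T73 k := by
  unfold gsum T73
  simp only [lm_inr73, lm_inl73, finsum_zero, add_zero, Finset.mul_sum]

private theorem exists_S73 (k : Type u) [Field k] [NumberField k] : ∃ S : Finset (Pl k), ∀ m : ℕ,
    ∑ v ∈ S, lm73 ((2 : k) ^ m) v = m * T73 k ∧ ∑ v ∈ S, Real.log (nv v ((2 : k) ^ m)) = 0 := by
  classical
  have hf : FinS fun v => Real.log (nv v (2 : k)) := finS_nv two_ne_zero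
  have hf' : (Function.support fun v : FinitePlace k => Real.log (nv (.inr v) (2 : k))).Finite := hf
  refine ⟨Finset.univ.disjSum hf'.toFinset, fun m => ?_⟩
  rw [Finset.sum_disjSum, Finset.sum_disjSum]
  refine ⟨?_, ?_⟩
  · simp only [lm_inr73, lm_inl73, Finset.sum_const_zero, add_zero]
    rw [← Finset.mul_sum]
    rfl
  · have h3 := gsum_nv (K := k) (y := (2 : k)) two_ne_zero
    unfold gsum at h3
    rw [finsum_eq_sum_of_support_subset _ (s := hf'.toFinset) (by rw [Set.Finite.coe_toFinset])] at h3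
    simp only [nv_pow73, Real.log_pow]
    rw [← Finset.mul_sum, ← Finset.mul_sum, ← mul_add, h3, mul_zero]

private theorem exists_pow73 (A : Finset k) : ∃ m₀ : ℕ, ∀ m, m₀ ≤ m → (2 : k) ^ m ∉ A := by
  classical
  have hinj : Function.Injective fun m : ℕ => (2 : k) ^ m := by
    intro a b hab
    have h1 : ((2 ^ a : ℕ) : k) = ((2 ^ b : ℕ) : k) := by
      push_cast
      exact hab
    exact Nat.pow_right_injective (le_refl 2) (Nat.cast_injective h1)
  have hf : {m : ℕ | (2 : k) ^ m ∈ A}.Finite := A.finite_toSet.preimage hinj.injOn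
  obtain ⟨M, hM⟩ := hf.bddAbove
  refine ⟨M + 1, fun m hm h => ?_⟩
  have := hM h
  omega

/-- the sum of the main terms over the places -/
private theorem sum_th73 {S : Finset (Pl k)} (hS : ∀ m : ℕ, ∑ v ∈ S, lm73 ((2 : k) ^ m) v = m * T73 k ∧
    ∑ v ∈ S, Real.log (nv v ((2 : k) ^ m)) = 0) (WA WB : Finset k) (a b : k) (m : ℕ) (hab : a = 0 ∨ -b / a ∈ WA ∨ -b / a ∈ WB) :
    ∑ v ∈ S, th73 WA WB a b ((2 : k) ^ m) v = m * T73 k := by
  obtain ⟨h1, h2⟩ := hS m
  by_cases h3 : a = 0 ∨ -b / a ∈ WA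
  · have h4 : ∀ v, th73 WA WB a b ((2 : k) ^ m) v = lm73 ((2 : k) ^ m) v - Real.log (nv v ((2 : k) ^ m)) := fun v => if_pos h3
    simp only [h4]
    rw [Finset.sum_sub_distrib, h1, h2, sub_zero]
  · have h5 : -b / a ∈ WB := by
      rcases hab with h5 | h5 | h5
      · exact absurd (Or.inl h5) h3
      · exact absurd (Or.inr h5) h3
      · exact h5
    have h4 : ∀ v, th73 WA WB a b ((2 : k) ^ m) v = lm73 ((2 : k) ^ m) v := by
      intro v
      unfold th73
      rw [if_neg h3, if_pos h5]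
    simp only [h4]
    exact h1

private theorem sum_th_nonneg73 {S : Finset (Pl k)} (hS : ∀ m : ℕ, ∑ v ∈ S, lm73 ((2 : k) ^ m) v = m * T73 k ∧
    ∑ v ∈ S, Real.log (nv v ((2 : k) ^ m)) = 0) (WA WB : Finset k) (a b : k) (m : ℕ) :
    0 ≤ ∑ v ∈ S, th73 WA WB a b ((2 : k) ^ m) v := by
  by_cases h : a = 0 ∨ -b / a ∈ WA ∨ -b / a ∈ WB
  · rw [sum_th73 hS WA WB a b m h]
    exact mul_nonneg (Nat.cast_nonneg _) T_pos73.le
  · push Not at h
    refine Finset.sum_nonneg fun v _ => ?_
    unfold th73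
    rw [if_neg (by rintro (h1 | h1); exacts [h.1 h1, h.2.1 h1]), if_neg h.2.2]

/-! ### the choice of the points -/

/-- `2 r - 1` values which occur for many indices -/
private theorem exists_W73 {ι : Type*} [DecidableEq ι] (T T₀ : Finset ι) (hT : T₀ ⊆ T) (c : ι → k) (hc : ∀ i ∈ T₀, c i = 0)
    {n r : ℕ} (hn : 1 ≤ n) (hr : 1 ≤ r) (h0 : n ≤ T₀.card) (h1 : n + (2 * r - 2) ≤ T.card) :
    ∃ W : Finset k, W.card = 2 * r - 1 ∧ ∀ W' : Finset ι, (∀ i ∈ T, c i ∈ W → i ∈ W') → n + (2 * r - 2) ≤ W'.card := by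
  classical
  by_cases h2 : (T.image c).card ≤ 2 * r - 1
  · have : CharZero k := inferInstance
    have hinf : Infinite k := inferInstance
    obtain ⟨W, hW, hWc⟩ := Infinite.exists_superset_card_eq (T.image c) (2 * r - 1) h2
    refine ⟨W, hWc, fun W' hW' => h1.trans (Finset.card_le_card fun i hi => hW' i hi (hW (Finset.mem_image_of_mem c hi)))⟩
  · obtain ⟨i₀, hi₀⟩ : T₀.Nonempty := Finset.card_pos.1 (by omega)
    have h3 : ({0} : Finset k) ⊆ T.image c := by
      rw [Finset.singleton_subset_iff, ← hc i₀ hi₀]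
      exact Finset.mem_image_of_mem c (hT hi₀)
    obtain ⟨W, hW1, hW2, hWc⟩ := Finset.exists_subsuperset_card_eq h3 (n := 2 * r - 1) (by rw [Finset.card_singleton]; omega) (by omega)
    refine ⟨W, hWc, fun W' hW' => ?_⟩
    have h4 : (T.filter fun i => c i ∈ W) ⊆ W' := by
      intro i hi
      obtain ⟨hi1, hi2⟩ := Finset.mem_filter.1 hi
      exact hW' i hi1 hi2
    refine le_trans ?_ (Finset.card_le_card h4)
    rw [Finset.card_eq_sum_card_fiberwise (f := c) (t := W) (by
      intro i hi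
      exact (Finset.mem_filter.1 hi).2)]
    have h0W : (0 : k) ∈ W := hW1 (Finset.mem_singleton_self 0)
    rw [← Finset.add_sum_erase _ _ h0W]
    refine add_le_add ?_ ?_
    · refine h0.trans (Finset.card_le_card fun i hi => ?_)
      rw [Finset.mem_filter, Finset.mem_filter, hc i hi]
      exact ⟨⟨hT hi, h0W⟩, rfl⟩
    · have h5 : ∀ w ∈ W.erase 0, 1 ≤ ((T.filter fun i => c i ∈ W).filter fun i => c i = w).card := by
        intro w hw
        have hw' := Finset.mem_of_mem_erase hw
        obtain ⟨i, hi, rfl⟩ := Finset.mem_image.1 (hW2 hw')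
        exact Finset.card_pos.2 ⟨i, Finset.mem_filter.2 ⟨Finset.mem_filter.2 ⟨hi, hw'⟩, rfl⟩⟩
      have h6 := Finset.sum_le_sum h5
      rw [Finset.sum_const, smul_eq_mul, mul_one, Finset.card_erase_of_mem h0W, hWc] at h6
      omega

private theorem vertex73 {n q : ℕ} (l : Fin q → Fin (n + 1) → k) (hl : GenPos l) (I : Finset (Fin q)) (hI : I.card = n) :
    ∃ P : Fin (n + 1) → k, (∀ i ∈ I, dp73 (l i) P = 0) ∧ ∀ i, i ∉ I → dp73 (l i) P ≠ 0 := by
  classical
  let F : (Fin (n + 1) → k) →ₗ[k] (I → k) := LinearMap.pi fun i => ∑ j, (l i j) • LinearMap.proj j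
  have hF : ∀ P i, F P i = dp73 (l i) P := by
    intro P i
    simp [F, dp73]
  have h1 : finrank k (I → k) < finrank k (Fin (n + 1) → k) := by
    rw [Module.finrank_fintype_fun_eq_card, Module.finrank_fintype_fun_eq_card, Fintype.card_coe, hI, Fintype.card_fin]
    exact Nat.lt_succ_self n
  obtain ⟨P, hP, hP0⟩ := (Submodule.ne_bot_iff _).1 (LinearMap.ker_ne_bot_of_finrank_lt (f := F) h1)
  refine ⟨P, fun i hi => ?_, fun i hi h0 => hP0 ?_⟩
  · rw [← hF P ⟨i, hi⟩, LinearMap.mem_ker.1 hP]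
    rfl
  · have hc : (insert i I).card = n + 1 := by rw [Finset.card_insert_of_notMem hi, hI]
    have h2 := hl (insert i I) hc.le
    have h3 : Submodule.span k (Set.range fun j : (insert i I : Finset (Fin q)) => l j) = ⊤ := by
      refine h2.span_eq_top_of_card_eq_finrank' ?_
      rw [Fintype.card_coe, hc, Module.finrank_fintype_fun_eq_card, Fintype.card_fin]
    have h4 : ∀ m : Fin (n + 1) → k, dp73 m P = 0 := by
      intro m
      have hm : m ∈ Submodule.span k (Set.range fun j : (insert i I : Finset (Fin q)) => l j) := by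
        rw [h3]
        exact Submodule.mem_top
      induction hm using Submodule.span_induction with
      | mem x hx =>
        obtain ⟨⟨j, hj⟩, rfl⟩ := hx
        rcases Finset.mem_insert.1 hj with rfl | hj
        · exact h0
        · show dp73 (l j) P = 0
          rw [← hF P ⟨j, hj⟩, LinearMap.mem_ker.1 hP]
          rfl
      | zero => simp [dp73]
      | add x y _ _ hx hy =>
        unfold dp73 at *
        simp only [Pi.add_apply, add_mul, Finset.sum_add_distrib]
        rw [hx, hy, add_zero]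
      | smul c x _ hx =>
        unfold dp73 at *
        simp only [Pi.smul_apply, smul_eq_mul, mul_assoc]
        rw [← Finset.mul_sum, hx, mul_zero]
    funext j
    have h5 := h4 (Pi.single j 1)
    unfold dp73 at h5
    rw [Finset.sum_eq_single j] at h5
    · simpa using h5
    · intro b _ hb
      rw [Pi.single_eq_of_ne hb, zero_mul]
    · intro hj
      exact absurd (Finset.mem_univ j) hj


/-! ### the polynomial -/

/-- `∏ (X - a)` -/
private noncomputable def pw73 (W : Finset k) : Polynomial k := ∏ a ∈ W, (Polynomial.X - Polynomial.C a)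

private theorem pw_monic73 (W : Finset k) : (pw73 W).Monic :=
  Polynomial.monic_prod_of_monic _ _ fun a _ => Polynomial.monic_X_sub_C a

private theorem pw_deg73 (W : Finset k) : (pw73 W).natDegree = W.card := by
  unfold pw73
  rw [Polynomial.natDegree_prod_of_monic _ _ fun a _ => Polynomial.monic_X_sub_C a]
  simp

private theorem pw_aeval73 {L : Type*} [Field L] [Algebra k L] (W : Finset k) (z : L) :
    Polynomial.aeval z (pw73 W) = ∏ a ∈ W, (z - algebraMap k L a) := by
  unfold pw73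
  rw [map_prod]
  exact Finset.prod_congr rfl fun a _ => by rw [map_sub, Polynomial.aeval_X, Polynomial.aeval_C]

private theorem pw_eval73 (W : Finset k) (c : k) : (pw73 W).eval c = ev73 W c := by
  unfold pw73 ev73
  rw [Polynomial.eval_prod]
  exact Finset.prod_congr rfl fun a _ => by rw [Polynomial.eval_sub, Polynomial.eval_X, Polynomial.eval_C]

private theorem pF73 (WA WB : Finset k) {r : ℕ} (hA : WA.card < WB.card) (hB : WB.card = r) {u : k} (hu : u ≠ 0) :
    (pw73 WA + Polynomial.C u * pw73 WB).natDegree = r ∧ (pw73 WA + Polynomial.C u * pw73 WB).leadingCoeff = u := by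
  have h1 : (Polynomial.C u * pw73 WB).degree = r := by
    rw [Polynomial.degree_C_mul hu, Polynomial.degree_eq_natDegree (pw_monic73 WB).ne_zero, pw_deg73, hB]
  have h2 : (pw73 WA).degree < (Polynomial.C u * pw73 WB).degree := by
    rw [h1, Polynomial.degree_eq_natDegree (pw_monic73 WA).ne_zero, pw_deg73]
    rw [hB] at hA
    exact_mod_cast hA
  refine ⟨?_, ?_⟩
  · refine Polynomial.natDegree_eq_of_degree_eq_some ?_
    rw [Polynomial.degree_add_eq_right_of_degree_lt h2, h1]
  · rw [Polynomial.leadingCoeff_add_of_degree_lt h2, Polynomial.leadingCoeff_mul, Polynomial.leadingCoeff_C,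
      (pw_monic73 WB).leadingCoeff, mul_one]

/-- the roots as a family -/
private theorem roots73 {K : Type*} [Field K] [IsAlgClosed K] (F : Polynomial K) {r : ℕ} (hF : F.natDegree = r) :
    ∃ z : Fin r → K, F = Polynomial.C F.leadingCoeff * ∏ i, (Polynomial.X - Polynomial.C (z i)) := by
  have h1 : F.roots.toList.length = r := by
    rw [Multiset.length_toList, IsAlgClosed.card_roots_eq_natDegree, hF]
  subst h1
  refine ⟨fun i => F.roots.toList.get i, ?_⟩
  have h2 := Polynomial.C_leadingCoeff_mul_prod_multiset_X_sub_C (p := F) IsAlgClosed.card_roots_eq_natDegree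
  conv_lhs => rw [← h2]
  congr 1
  conv_lhs => rw [← Multiset.coe_toList F.roots]
  rw [Multiset.map_coe, Multiset.prod_coe, ← List.prod_ofFn]
  congr 1
  have h3 : List.ofFn (fun i => F.roots.toList.get i) = F.roots.toList := List.ofFn_get _
  conv_lhs => rw [← h3]
  rw [List.map_ofFn]
  rfl

end

/-! ### the sum of the local functions -/

section

variable {k : Type u} [Field k] [NumberField k] {G : Type u} [Group G] [Fintype G] {L : Type u} [Field L] [Algebra k L]
  {s : G →* (L ≃ₐ[k] L)} {N : Pl k → L → ℝ}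

private theorem lams73 (h : QSG s N) {n q r : ℕ} (l : Fin q → Fin (n + 1) → k) (P₁ P₂ : Fin (n + 1) → k) (WA WB : Finset k)
    (S : Finset (Pl k)) (D : Fin q → Pl k → ℝ)
    (hD : ∀ i (v : Pl k) (L : Type u) [Field L] [Algebra k L] (N : L → ℝ), AV73 v N → ∀ (u : k) (z : Fin r → L), u ≠ 0 →
      Rt73 WA WB u z → (∀ j, z j * algebraMap k L (dp73 (l i) P₁) + algebraMap k L (dp73 (l i) P₂) ≠ 0) →
      th73 WA WB (dp73 (l i) P₁) (dp73 (l i) P₂) u v - D i v ≤ ∑ j, (Real.log (max 1 (N (z j))) -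
        Real.log (N (z j * algebraMap k L (dp73 (l i) P₁) + algebraMap k L (dp73 (l i) P₂)))))
    {u : k} (hu : u ≠ 0) (z t : Fin r → L) (hR : Rt73 WA WB u z) (ht : ∀ j, t j ≠ 0)
    (x : Fin r → Fin (n + 1) → L)
    (hx : ∀ j i, x j i = t j * (z j * algebraMap k L (P₁ i) + algebraMap k L (P₂ i)))
    (hne : ∀ i j, z j * algebraMap k L (dp73 (l i) P₁) + algebraMap k L (dp73 (l i) P₂) ≠ 0)
    (l₁ l₂ : Fin (n + 1) → k)
    (h12 : dp73 l₁ P₂ = 0) (h21 : dp73 l₂ P₁ = 0) (h11 : dp73 l₁ P₁ ≠ 0) (h22 : dp73 l₂ P₂ ≠ 0) :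
    Fintype.card G * (∑ v ∈ S, ∑ i, (th73 WA WB (dp73 (l i) P₁) (dp73 (l i) P₂) u v - (D i v +
      r * cy73 l₁ l₂ (dp73 l₁ P₁) (dp73 l₂ P₂) v))) ≤
      ∑ j, ∑ v ∈ S, ∑ i, ∑ g, (Real.log (mxn (N v) fun a => s g (x j a)) - Real.log (N v (s g (lvg (l i) (x j))))) := by
  classical
  have h1 : ∀ (v : Pl k) (i : Fin q) (g : G), th73 WA WB (dp73 (l i) P₁) (dp73 (l i) P₂) u v - (D i v +
      r * cy73 l₁ l₂ (dp73 l₁ P₁) (dp73 l₂ P₂) v) ≤
      ∑ j, (Real.log (mxn (N v) fun a => s g (x j a)) - Real.log (N v (s g (lvg (l i) (x j))))) := by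
    intro v i g
    have h2 := h.av73 v g
    have h3 := hD i v L _ h2 u z hu hR (hne i)
    have h4 : ∀ j, Real.log (max 1 (N v (s g (z j)))) - Real.log (N v (s g (z j * algebraMap k L (dp73 (l i) P₁) +
        algebraMap k L (dp73 (l i) P₂)))) - cy73 l₁ l₂ (dp73 l₁ P₁) (dp73 l₂ P₂) v ≤
        Real.log (mxn (N v) fun a => s g (x j a)) - Real.log (N v (s g (lvg (l i) (x j)))) := by
      intro j
      have h5 := px_ge73 h2 P₁ P₂ (ht j) (z j) (x j) (hx j) l₁ l₂ h12 h21 h11 h22
      have h6 : mxn (fun x => N v (s g x)) (x j) = mxn (N v) fun i => s g (x j i) := rfl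
      rw [h6] at h5
      have h7 := h2.mul (t j) (z j * algebraMap k L (dp73 (l i) P₁) + algebraMap k L (dp73 (l i) P₂))
      rw [lvg_pt73 (l i) P₁ P₂ (t j) (z j) (x j) (hx j), h7, Real.log_mul (h2.pos _ (ht j)).ne' (h2.pos _ (hne i j)).ne']
      linarith
    have h5 := Finset.sum_le_sum fun j (_ : j ∈ (Finset.univ : Finset (Fin r))) => h4 j
    rw [Finset.sum_sub_distrib, Finset.sum_const, Finset.card_univ, Fintype.card_fin, nsmul_eq_mul] at h5
    linarith
  have e : ∑ j, ∑ v ∈ S, ∑ i, ∑ g, (Real.log (mxn (N v) fun a => s g (x j a)) - Real.log (N v (s g (lvg (l i) (x j))))) =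
      ∑ v ∈ S, ∑ i, ∑ g, ∑ j, (Real.log (mxn (N v) fun a => s g (x j a)) - Real.log (N v (s g (lvg (l i) (x j))))) := by
    rw [Finset.sum_comm]
    refine Finset.sum_congr rfl fun v _ => ?_
    rw [Finset.sum_comm]
    refine Finset.sum_congr rfl fun i _ => ?_
    rw [Finset.sum_comm]
  rw [e, Finset.mul_sum]
  refine Finset.sum_le_sum fun v _ => ?_
  rw [Finset.mul_sum]
  refine Finset.sum_le_sum fun i _ => ?_
  rw [← nsmul_eq_mul, ← Finset.card_univ, ← Finset.sum_const]
  exact Finset.sum_le_sum fun g _ => h1 v i g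

end

/-! ### the points -/

section

variable {k : Type u} [Field k] [NumberField k]

/-- the degree of a point in the field generated by a root of a polynomial -/
private theorem dg_le73 {n r : ℕ} (x : Fin (n + 1) → AlgebraicClosure k) (z : AlgebraicClosure k) (F : Polynomial k) (hF : F ≠ 0)
    (hr : F.natDegree = r) (hz : Polynomial.aeval z F = 0)
    (hx : ∀ j, x j ∈ IntermediateField.adjoin k {z}) : dg x ≤ r := by
  have hint : IsIntegral k z := (Algebra.IsAlgebraic.isAlgebraic z).isIntegral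
  have hfd : FiniteDimensional k (IntermediateField.adjoin k {z}) := IntermediateField.adjoin.finiteDimensional hint
  have h1 : fld x ≤ IntermediateField.adjoin k {z} := by
    unfold fld
    rw [IntermediateField.adjoin_le_iff]
    rintro _ ⟨j, rfl⟩
    exact hx j
  have h2 : dg x ≤ finrank k (IntermediateField.adjoin k {z}) := by
    unfold dg
    exact LinearMap.finrank_le_finrank_of_injective (f := (IntermediateField.inclusion h1).toLinearMap)
      (IntermediateField.inclusion_injective h1)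
  rw [IntermediateField.adjoin.finrank hint] at h2
  rw [← hr]
  exact h2.trans (Polynomial.natDegree_le_of_dvd (minpoly.dvd k z hz) hF)

/-- One of the terms is large. -/
private theorem pigeon73 {r : ℕ} (hr : 0 < r) (f : Fin r → ℝ) (C : ℝ) (hC : 0 ≤ C) (h : - C ≤ ∑ j, f j) : ∃ j, - C ≤ f j := by
  by_contra hcon
  push Not at hcon
  have : Nonempty (Fin r) := ⟨⟨0, hr⟩⟩
  have h1 : ∑ j, f j < ∑ j : Fin r, (- C) := Finset.sum_lt_sum_of_nonempty Finset.univ_nonempty fun j _ => hcon j
  rw [Finset.sum_const, Finset.card_univ, Fintype.card_fin, nsmul_eq_mul] at h1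
  have h2 : (1 : ℝ) ≤ r := by exact_mod_cast hr
  nlinarith

/-- `2 n + 2 r - 2` for every system of hyperplanes in general position. -/
theorem sharp3 {n q r : ℕ} (hn : 1 ≤ n) (hr : 2 ≤ r) (hq : 2 * n + 2 * r - 2 ≤ q) (l : Fin q → Fin (n + 1) → k) (hl : GenPos l) :
    ∃ (S : Finset (Pl k)) (C : ℝ), ∀ B : ℝ, ∃ x : Fin (n + 1) → AlgebraicClosure k, (∃ j, x j = 1) ∧ dg x ≤ r ∧
      (∀ i, val (l i) x ≠ 0) ∧ B ≤ hgt x ∧ (2 * n + 2 * r - 2) * hgt x - C ≤ ∑ ν ∈ S, ∑ i, lam (l i) ν x := by
  classical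
  let α : Fin n → Fin q := fun i => ⟨i, by omega⟩
  let β : Fin n → Fin q := fun i => ⟨n + i, by omega⟩
  have hαinj : Function.Injective α := by
    intro i j hij
    have := congrArg Fin.val hij
    exact Fin.ext this
  have hβinj : Function.Injective β := by
    intro i j hij
    have : n + (i : ℕ) = n + j := congrArg Fin.val hij
    exact Fin.ext (by omega)
  have hc1 : (Finset.univ.image α).card = n := by
    rw [Finset.card_image_of_injective _ hαinj, Finset.card_univ, Fintype.card_fin]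
  have hc2 : (Finset.univ.image β).card = n := by
    rw [Finset.card_image_of_injective _ hβinj, Finset.card_univ, Fintype.card_fin]
  have hmα : ∀ j : Fin q, n ≤ (j : ℕ) → j ∉ Finset.univ.image α := by
    intro j hj hj'
    obtain ⟨i, _, hi⟩ := Finset.mem_image.1 hj'
    have : (i : ℕ) = j := congrArg Fin.val hi
    omega
  have hmβ : ∀ j : Fin q, ((j : ℕ) < n ∨ 2 * n ≤ j) → j ∉ Finset.univ.image β := by
    intro j hj hj'
    obtain ⟨i, _, hi⟩ := Finset.mem_image.1 hj'
    have : n + (i : ℕ) = j := congrArg Fin.val hi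
    omega
  obtain ⟨P₁, hP1, hP1'⟩ := vertex73 l hl _ hc1
  obtain ⟨P₂, hP2, hP2'⟩ := vertex73 l hl _ hc2
  have hn0 : 0 < n := hn
  let i₁ : Fin q := β ⟨0, hn0⟩
  let i₂ : Fin q := α ⟨0, hn0⟩
  have h12 : dp73 (l i₁) P₂ = 0 := hP2 _ (Finset.mem_image_of_mem β (Finset.mem_univ _))
  have h21 : dp73 (l i₂) P₁ = 0 := hP1 _ (Finset.mem_image_of_mem α (Finset.mem_univ _))
  have h11 : dp73 (l i₁) P₁ ≠ 0 := hP1' _ (hmα _ (Nat.le_add_right n _))
  have h22 : dp73 (l i₂) P₂ ≠ 0 := hP2' _ (hmβ _ (Or.inl hn0))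
  let a : Fin q → k := fun i => dp73 (l i) P₁
  let b : Fin q → k := fun i => dp73 (l i) P₂
  have hab : ∀ i, a i = 0 → b i ≠ 0 := by
    intro i hi
    have h1 : i ∈ Finset.univ.image α := by
      by_contra h
      exact hP1' i h hi
    obtain ⟨i', -, rfl⟩ := Finset.mem_image.1 h1
    exact hP2' _ (hmβ _ (Or.inl i'.2))
  -- the values
  let T : Finset (Fin q) := Finset.univ.filter fun i => a i ≠ 0
  have hTc : n + (2 * r - 2) ≤ T.card := by
    have h1 : (Finset.univ.filter fun i : Fin q => ¬ a i ≠ 0) ⊆ Finset.univ.image α := by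
      intro i hi
      have h2 : a i = 0 := by simpa using (Finset.mem_filter.1 hi).2
      by_contra h
      exact hP1' i h h2
    have h2 := Finset.card_le_card h1
    have h3 := Finset.card_filter_add_card_filter_not (s := (Finset.univ : Finset (Fin q))) fun i => a i ≠ 0
    rw [Finset.card_univ, Fintype.card_fin] at h3
    rw [hc1] at h2
    show n + (2 * r - 2) ≤ (Finset.univ.filter fun i : Fin q => a i ≠ 0).card
    omega
  obtain ⟨W, hWc, hW⟩ := exists_W73 T (Finset.univ.image β) (by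
    intro i hi
    obtain ⟨i', -, rfl⟩ := Finset.mem_image.1 hi
    exact Finset.mem_filter.2 ⟨Finset.mem_univ _, hP1' _ (hmα _ (Nat.le_add_right n _))⟩) (fun i => -b i / a i) (by
    intro i hi
    have h1 : b i = 0 := hP2 i hi
    rw [h1, neg_zero, zero_div]) hn (by omega : 1 ≤ r) hc2.ge hTc
  obtain ⟨WA, hWA, hWAc⟩ := Finset.exists_subset_card_eq (s := W) (n := r - 1) (by omega)
  set WB := W \ WA with hWB
  have hWBc : WB.card = r := by
    rw [hWB, Finset.card_sdiff_of_subset hWA, hWc, hWAc]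
    omega
  have hd : Disjoint WA WB := Finset.disjoint_sdiff
  have hBne : WB.Nonempty := Finset.card_pos.1 (by omega)
  obtain ⟨S, hS⟩ := exists_S73 k
  choose D hD using fun (i : Fin q) (v : Pl k) => hyp73 WA WB hd hBne r (a i) (b i) (hab i) v
  -- the constants
  let p : Fin (r + 1) → k := fun j => ((j : ℕ) : k)
  have hp : Function.Injective p := by
    intro i j hij
    exact Fin.ext (Nat.cast_injective (R := k) hij)
  set cy := cy73 (l i₁) (l i₂) (dp73 (l i₁) P₁) (dp73 (l i₂) P₂) with hcy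
  set C₁ : ℝ := gsum (Kup73 WA WB p) + r * gsum (cx73 P₁ P₂) with hC₁
  set C₂ : ℝ := ∑ v ∈ S, ∑ i, (D i v + r * cy v) with hC₂
  set C₅ : ℝ := r * gsum cy + gsum fun v : Pl k => ∑ a ∈ WA, (Real.log (ka73 v) + lm73 a v) + ∑ b ∈ WB, (Real.log (ka73 v) + lm73 b v)
    with hC₅
  have hT := T_pos73 (k := k)
  have hr0 : 0 < r := by omega
  refine ⟨S, (2 * n + 2 * r) * |C₁| + |C₂|, fun B => ?_⟩
  let bad : Fin q → k := fun i => -ev73 WA (-b i / a i) / ev73 WB (-b i / a i)
  obtain ⟨m₀, hm₀⟩ := exists_pow73 (Finset.univ.image bad)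
  obtain ⟨m₁, hm₁⟩ := exists_nat_ge ((r * |B| + |C₅|) / T73 k)
  set m := m₀ + m₁ with hm
  set u : k := (2 : k) ^ m with hu
  have hu0 : u ≠ 0 := pow_ne_zero _ two_ne_zero
  have hubad := hm₀ m (Nat.le_add_right _ _)
  have hinjk := (algebraMap k (AlgebraicClosure k)).injective
  -- the roots
  set F : Polynomial k := pw73 WA + Polynomial.C u * pw73 WB with hF
  obtain ⟨hF1, hF2⟩ := pF73 WA WB (by omega) hWBc hu0
  have hF0 : F ≠ 0 := by
    intro h0
    rw [← hF, h0, Polynomial.natDegree_zero] at hF1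
    omega
  obtain ⟨z, hz⟩ := roots73 (F.map (algebraMap k (AlgebraicClosure k))) (r := r) (by
    rw [Polynomial.natDegree_map_eq_of_injective hinjk]
    exact hF1)
  rw [Polynomial.leadingCoeff_map_of_injective hinjk, hF2] at hz
  have hzr : ∀ j, Polynomial.aeval (z j) F = 0 := by
    intro j
    rw [Polynomial.aeval_def, ← Polynomial.eval_map, hz, Polynomial.eval_mul, Polynomial.eval_prod,
      Finset.prod_eq_zero (Finset.mem_univ j), mul_zero]
    simp
  have hzR : ∀ c : k, algebraMap k (AlgebraicClosure k) (ev73 WA c + u * ev73 WB c) =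
      algebraMap k _ u * ∏ i, (algebraMap k _ c - z i) := by
    intro c
    have h1 : Polynomial.eval (algebraMap k (AlgebraicClosure k) c) (F.map (algebraMap k (AlgebraicClosure k))) =
        algebraMap k _ (ev73 WA c + u * ev73 WB c) := by
      rw [Polynomial.eval_map, Polynomial.eval₂_hom]
      congr 1
      rw [hF, Polynomial.eval_add, Polynomial.eval_mul, Polynomial.eval_C, pw_eval73, pw_eval73]
    rw [← h1, hz, Polynomial.eval_mul, Polynomial.eval_C, Polynomial.eval_prod]
    congr 1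
    exact Finset.prod_congr rfl fun i _ => by rw [Polynomial.eval_sub, Polynomial.eval_X, Polynomial.eval_C]
  -- the field
  have hfd0 : FiniteDimensional k (fld z) := FiniteDimensional.right ℚ k (fld z)
  have hfd : FiniteDimensional k (gal z) := by
    unfold gal
    infer_instance
  have hgal : IsGalois k (gal z) := by
    unfold gal
    infer_instance
  have hmem : ∀ j, z j ∈ gal z := by
    intro j
    have h1 : fld z ≤ gal z := IntermediateField.le_normalClosure _
    exact h1 (IntermediateField.subset_adjoin k _ (Set.mem_range_self j))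
  obtain ⟨M, inst, hQS, hdat⟩ := data_L73 (gal z)
  have hcard : (Fintype.card (gal z ≃ₐ[k] gal z) : ℝ) = finrank k (gal z) := by
    rw [← Nat.card_eq_fintype_card, IsGalois.card_aut_eq_finrank]
  have hpos : (0 : ℝ) < finrank k (gal z) := by exact_mod_cast (finrank_pos (R := k) (M := gal z))
  let Z : Fin r → gal z := fun j => ⟨z j, hmem j⟩
  have hZR : Rt73 WA WB u Z := by
    intro c
    apply Subtype.ext
    have h1 := hzR c
    rw [IntermediateField.coe_mul, IntermediateField.coe_prod]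
    exact h1
  have hinjg := (algebraMap k (gal z)).injective
  have hne : ∀ i j, Z j * algebraMap k (gal z) (a i) + algebraMap k (gal z) (b i) ≠ 0 := by
    intro i j h0
    by_cases hai : a i = 0
    · rw [hai, map_zero, mul_zero, zero_add, map_eq_zero_iff _ hinjg] at h0
      exact hab i hai h0
    · have hai' : algebraMap k (gal z) (a i) ≠ 0 := (map_ne_zero _).2 hai
      have h1 : Z j = algebraMap k (gal z) (-b i / a i) := by
        rw [map_div₀, map_neg]
        field_simp
        linear_combination h0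
      have h2 := hZR (-b i / a i)
      rw [Finset.prod_eq_zero (Finset.mem_univ j) (by rw [h1, sub_self]), mul_zero, map_eq_zero_iff _ hinjg] at h2
      by_cases h3 : -b i / a i ∈ WB
      · rw [ev_eq73 WB _ h3, mul_zero, add_zero] at h2
        exact ev_ne73 WA _ (fun h => Finset.disjoint_left.1 hd h h3) h2
      · have h4 := ev_ne73 WB _ h3
        apply hubad
        rw [Finset.mem_image]
        refine ⟨i, Finset.mem_univ i, ?_⟩
        show -ev73 WA (-b i / a i) / ev73 WB (-b i / a i) = u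
        rw [div_eq_iff h4]
        linear_combination -h2
  have hg : ∀ j, ∃ i₀, Z j * algebraMap k (gal z) (P₁ i₀) + algebraMap k (gal z) (P₂ i₀) ≠ 0 := by
    intro j
    by_contra hcon
    push Not at hcon
    apply hne i₂ j
    show Z j * algebraMap k (gal z) (dp73 (l i₂) P₁) + algebraMap k (gal z) (dp73 (l i₂) P₂) = 0
    unfold dp73
    rw [map_sum, map_sum, Finset.mul_sum, ← Finset.sum_add_distrib]
    refine Finset.sum_eq_zero fun i _ => ?_
    rw [map_mul, map_mul]
    linear_combination (algebraMap k (gal z) (l i₂ i)) * hcon i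
  choose i₀ hi₀ using hg
  let t : Fin r → gal z := fun j => (Z j * algebraMap k (gal z) (P₁ (i₀ j)) + algebraMap k (gal z) (P₂ (i₀ j)))⁻¹
  have ht : ∀ j, t j ≠ 0 := fun j => inv_ne_zero (hi₀ j)
  let y : Fin r → Fin (n + 1) → gal z := fun j i => t j * (Z j * algebraMap k (gal z) (P₁ i) + algebraMap k (gal z) (P₂ i))
  have hy : ∀ j i, y j i = t j * (Z j * algebraMap k (gal z) (P₁ i) + algebraMap k (gal z) (P₂ i)) := fun j i => rfl
  have hy1 : ∀ j, ∃ i, y j i = 1 := fun j => ⟨i₀ j, inv_mul_cancel₀ (hi₀ j)⟩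
  let x : Fin r → Fin (n + 1) → AlgebraicClosure k := fun j i => (y j i : AlgebraicClosure k)
  have hx1 : ∀ j, ∃ i, x j i = 1 := by
    intro j
    obtain ⟨i, hi⟩ := hy1 j
    refine ⟨i, ?_⟩
    show (y j i : AlgebraicClosure k) = 1
    rw [hi]
    rfl
  have hdeg : ∀ j, dg (x j) ≤ r := by
    intro j
    refine dg_le73 (x j) (z j) F hF0 hF1 (hzr j) fun i => ?_
    have hzm : z j ∈ IntermediateField.adjoin k {z j} := IntermediateField.mem_adjoin_simple_self k (z j)
    have h1 : x j i = (z j * algebraMap k _ (P₁ (i₀ j)) + algebraMap k _ (P₂ (i₀ j)))⁻¹ *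
        (z j * algebraMap k _ (P₁ i) + algebraMap k _ (P₂ i)) := rfl
    rw [h1]
    exact mul_mem (inv_mem (add_mem (mul_mem hzm (algebraMap_mem _ _)) (algebraMap_mem _ _)))
      (add_mem (mul_mem hzm (algebraMap_mem _ _)) (algebraMap_mem _ _))
  have hval : ∀ i j, val (l i) (x j) ≠ 0 := by
    intro i j h0
    have h1 : ((val (l i) (x j) : fld (x j)) : AlgebraicClosure k) = ((lvg (l i) (y j) : gal z) : AlgebraicClosure k) := by
      unfold val lvg
      rw [← IntermediateField.algebraMap_apply, ← IntermediateField.algebraMap_apply, map_sum, map_sum]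
      refine Finset.sum_congr rfl fun i' _ => ?_
      rw [map_mul, map_mul, ← IsScalarTower.algebraMap_apply, ← IsScalarTower.algebraMap_apply]
      rfl
    rw [h0, lvg_pt73 (l i) P₁ P₂ (t j) (Z j) (y j) (hy j)] at h1
    have h2 : t j * (Z j * algebraMap k (gal z) (dp73 (l i) P₁) + algebraMap k (gal z) (dp73 (l i) P₂)) = 0 :=
      Subtype.ext h1.symm
    exact mul_ne_zero (ht j) (hne i j) h2
  have hdj := fun j => hdat n (x j) (y j) (hx1 j) fun i => rfl
  -- the estimates
  have e1 := heights73 hQS P₁ P₂ WA WB p hp hu0 Z t hZR ht y hy hy1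
  have e2 := fun j => height_ge73 hQS P₁ P₂ WA WB (r := r) (by omega) hWBc.le (u := u) (Z j) (t j) (by
    have h1 := hzr j
    rw [hF, map_add, map_mul, Polynomial.aeval_C, pw_aeval73, pw_aeval73] at h1
    have h2 : (gal z).val (∏ a ∈ WA, (Z j - algebraMap k (gal z) a) + algebraMap k (gal z) u *
        ∏ b ∈ WB, (Z j - algebraMap k (gal z) b)) = 0 := by
      rw [map_add, map_mul, map_prod, map_prod]
      exact h1
    exact Subtype.ext h2) (by
    intro h0
    obtain ⟨b', hb', h1⟩ := Finset.prod_eq_zero_iff.1 h0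
    have h2 := hZR b'
    rw [ev_eq73 WB b' hb', mul_zero, add_zero, Finset.prod_eq_zero (Finset.mem_univ j) (by rw [← neg_sub, h1, neg_zero]),
      mul_zero, map_eq_zero_iff _ hinjg] at h2
    exact ev_ne73 WA b' (fun h => Finset.disjoint_left.1 hd h hb') h2) (ht j) (y j) (hy j) (hy1 j) (l i₁) (l i₂) h12 h21 h11 h22
  have e3 := lams73 hQS l P₁ P₂ WA WB S D hD hu0 Z t hZR ht y hy hne (l i₁) (l i₂) h12 h21 h11 h22
  have hgs : gsum (lm73 u) = m * T73 k := gsum_lm73 m
  rw [hcard, hgs, ← hC₁] at e1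
  simp only [hcard, hgs] at e2
  rw [hcard] at e3
  -- heights
  have f1 : ∑ j, hgt (x j) ≤ m * T73 k + C₁ := by
    have h1 : ∑ j, Hg (MonoidHom.id (gal z ≃ₐ[k] gal z)) M (y j) = finrank k (gal z) * ∑ j, hgt (x j) := by
      rw [Finset.mul_sum]
      exact Finset.sum_congr rfl fun j _ => (hdj j).1.symm
    rw [h1] at e1
    exact le_of_mul_le_mul_left e1 hpos
  have f2 : ∀ j, m * T73 k ≤ r * hgt (x j) + C₅ := by
    intro j
    have h1 := e2 j
    rw [← (hdj j).1] at h1
    refine le_of_mul_le_mul_left (h1.trans (le_of_eq ?_)) hpos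
    rw [hC₅, hcy]
    ring
  -- the local functions
  have f3 : (2 * n + 2 * r - 2 : ℝ) * (m * T73 k) - C₂ ≤ ∑ j, ∑ v ∈ S, ∑ i, lam (l i) v (x j) := by
    have h1 : ∑ j, ∑ v ∈ S, ∑ i, ∑ g : gal z ≃ₐ[k] gal z, (Real.log (mxn (M v) fun a => (MonoidHom.id (gal z ≃ₐ[k] gal z)) g (y j a)) -
        Real.log (M v ((MonoidHom.id (gal z ≃ₐ[k] gal z)) g (lvg (l i) (y j))))) =
        finrank k (gal z) * ∑ j, ∑ v ∈ S, ∑ i, lam (l i) v (x j) := by
      rw [Finset.mul_sum]
      refine Finset.sum_congr rfl fun j _ => ?_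
      rw [Finset.mul_sum]
      refine Finset.sum_congr rfl fun v _ => ?_
      rw [Finset.mul_sum]
      exact Finset.sum_congr rfl fun i _ => ((hdj j).2 v (l i) (hval i j)).symm
    rw [h1] at e3
    have h2 := le_of_mul_le_mul_left e3 hpos
    have h3 : ∑ v ∈ S, ∑ i, (th73 WA WB (dp73 (l i) P₁) (dp73 (l i) P₂) u v - (D i v +
        r * cy73 (l i₁) (l i₂) (dp73 (l i₁) P₁) (dp73 (l i₂) P₂) v)) =
        ∑ i, ∑ v ∈ S, th73 WA WB (dp73 (l i) P₁) (dp73 (l i) P₂) u v - C₂ := by
      rw [hC₂, Finset.sum_comm (s := Finset.univ) (t := S), ← Finset.sum_sub_distrib]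
      refine Finset.sum_congr rfl fun v _ => ?_
      rw [← Finset.sum_sub_distrib]
    rw [h3] at h2
    let J : Finset (Fin q) := Finset.univ.filter fun i => a i = 0 ∨ -b i / a i ∈ WA ∨ -b i / a i ∈ WB
    have hJ : 2 * n + 2 * r - 2 ≤ J.card := by
      have h4 : Finset.univ.image α ⊆ J := by
        intro i hi
        exact Finset.mem_filter.2 ⟨Finset.mem_univ _, Or.inl (hP1 i hi)⟩
      have h5 := hW (J \ Finset.univ.image α) (by
        intro i hi hi'
        have hai : a i ≠ 0 := (Finset.mem_filter.1 hi).2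
        rw [Finset.mem_sdiff]
        refine ⟨Finset.mem_filter.2 ⟨Finset.mem_univ _, Or.inr ?_⟩, fun h => hai (hP1 i h)⟩
        by_cases h6 : -b i / a i ∈ WA
        · exact Or.inl h6
        · exact Or.inr (Finset.mem_sdiff.2 ⟨hi', h6⟩))
      rw [Finset.card_sdiff_of_subset h4, hc1] at h5
      omega
    have h4 : ((2 * n + 2 * r - 2 : ℕ) : ℝ) * (m * T73 k) ≤ ∑ i, ∑ v ∈ S, th73 WA WB (dp73 (l i) P₁) (dp73 (l i) P₂) u v := by
      calc ((2 * n + 2 * r - 2 : ℕ) : ℝ) * (m * T73 k) ≤ (J.card : ℝ) * (m * T73 k) :=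
            mul_le_mul_of_nonneg_right (by exact_mod_cast hJ) (mul_nonneg (Nat.cast_nonneg _) hT.le)
        _ = ∑ i ∈ J, ∑ v ∈ S, th73 WA WB (dp73 (l i) P₁) (dp73 (l i) P₂) u v := by
            rw [← nsmul_eq_mul, ← Finset.sum_const]
            refine Finset.sum_congr rfl fun i hi => ?_
            exact (sum_th73 hS WA WB (a i) (b i) m (Finset.mem_filter.1 hi).2).symm
        _ ≤ _ := Finset.sum_le_sum_of_subset_of_nonneg (Finset.subset_univ _) fun i _ _ => sum_th_nonneg73 hS WA WB _ _ m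
    have h5 : ((2 * n + 2 * r - 2 : ℕ) : ℝ) = 2 * n + 2 * r - 2 := by
      rw [Nat.cast_sub (by omega)]
      push_cast
      ring
    rw [h5] at h4
    linarith
  have hE : (0 : ℝ) ≤ 2 * n + 2 * r - 2 := by
    have : (1 : ℝ) ≤ n := by exact_mod_cast hn
    have : (2 : ℝ) ≤ r := by exact_mod_cast hr
    linarith
  obtain ⟨j, hj⟩ := pigeon73 hr0 (fun j => ∑ v ∈ S, ∑ i, lam (l i) v (x j) - (2 * n + 2 * r - 2) * hgt (x j))
    ((2 * n + 2 * r) * |C₁| + |C₂|) (by positivity) (by
      rw [Finset.sum_sub_distrib, ← Finset.mul_sum]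
      have h1 := mul_le_mul_of_nonneg_left f1 hE
      have h2 := le_abs_self C₂
      have h3 : (2 * n + 2 * r - 2) * C₁ ≤ (2 * n + 2 * r) * |C₁| := by
        have h4 := le_abs_self C₁
        have h5 := abs_nonneg C₁
        have h6 := mul_le_mul_of_nonneg_left h4 hE
        nlinarith
      linarith)
  refine ⟨x j, hx1 j, hdeg j, fun i => hval i j, ?_, ?_⟩
  · have h1 : (r * |B| + |C₅|) / T73 k ≤ m := hm₁.trans (by rw [hm]; push_cast; have : (0 : ℝ) ≤ m₀ := Nat.cast_nonneg _; linarith)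
    rw [div_le_iff₀ hT] at h1
    have h2 := f2 j
    have h3 := le_abs_self C₅
    have h4 : (r : ℝ) * |B| ≤ r * hgt (x j) := by linarith
    have h5 : (0 : ℝ) < r := by exact_mod_cast hr0
    exact (le_abs_self B).trans (le_of_mul_le_mul_left h4 h5)
  · linarith

end

end Pool.Agent.SQ
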