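import Pool.Agent.Helper42.SQ.Defs

/-!
# SQ: statements of the algebraic blocks (do not import; copy your statement into `Pool/Agent/Helper42/SQ/<BLOCK>.lean`)

The blueprint is `/team-store/h42_SQ.md` (section 1), the proofs of the blocks are sketched in `/team-store/h42_SQ_blocks.md`.
-/

set_option autoImplicit false

namespace Pool.Agent.SQ

open Module Polynomial

universe u

/-! ### PL -/

theorem prekopa (f g h : ℤ → ℝ) (hf : ∀ i, 0 ≤ f i) (hg : ∀ i, 0 ≤ g i) (hh : ∀ i, 0 ≤ h i)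
    (Ff : f.support.Finite) (Fg : g.support.Finite) (Fh : h.support.Finite)
    (H : ∀ i j, √(f i * g j) ≤ h (i + j)) (H' : ∀ i j, √(f i * g j) ≤ h (i + j + 1)) :
    2 * √((∑ᶠ i, f i) * ∑ᶠ i, g i) ≤ ∑ᶠ i, h i := sorry

/-! ### GR -/

theorem bm_step (w : ℕ) {k K κ : Type u} [Field k] [Field K] [Field κ] [Algebra k K] [Algebra k κ] (D : DV k K κ)
    (Q' : Submodule k κ) [FiniteDimensional k Q']
    (hQ' : ∀ A B : Submodule k κ, FiniteDimensional k A → FiniteDimensional k B → BMAt w Q' A B) :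
    ∃ Q : Submodule k K, FiniteDimensional k Q ∧
      ∀ A B : Submodule k K, FiniteDimensional k A → FiniteDimensional k B → BMAt (w + 1) Q A B := sorry

/-! ### DVR -/

theorem exists_dv (w : ℕ) {k K : Type u} [Field k] [CharZero k] [Field K] [Algebra k K] (h : FinOver (w + 1) k K) :
    ∃ (κ : Type u) (_ : Field κ) (_ : Algebra k κ), FinOver w k κ ∧ Nonempty (DV k K κ) := sorry

/-! ### BM -/

theorem bm (w : ℕ) {k K : Type u} [Field k] [CharZero k] [Field K] [Algebra k K] (h : FinOver w k K) :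
    ∃ Q : Submodule k K, FiniteDimensional k Q ∧
      ∀ A B : Submodule k K, FiniteDimensional k A → FiniteDimensional k B → BMAt w Q A B := sorry

/-! ### GRW -/

theorem growth (w : ℕ) {k K : Type u} [Field k] [Field K] [Algebra k K] (h : FinOver w k K) (W : Submodule k K)
    [FiniteDimensional k W] : ∃ C : ℕ, ∀ m : ℕ, finrank k ↥(W ^ m) ≤ C * (m + 1) ^ w := sorry

/-! ### BM2 -/

theorem bm2 {k K : Type u} [Field k] [CharZero k] [Field K] [Algebra k K] (W : Submodule k K) [FiniteDimensional k W]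
    (hW : W ≠ ⊥) : ∃ (w q C : ℕ) (Q : Submodule k K), Q ≤ W ^ q ∧
      (∀ (m m' : ℕ) (A B : Submodule k K), A ≤ W ^ m → B ≤ W ^ m' → BMAt w Q A B) ∧
      ∀ m : ℕ, finrank k ↥(W ^ m) ≤ C * (m + 1) ^ w := sorry

/-! ### GRO -/

theorem gro (D : ℕ → ℕ) (hD : ∀ m, 1 ≤ D m) (w C : ℕ) (hC : ∀ m, D m ≤ C * (m + 1) ^ w) (q : ℕ) {ε : ℝ} (hε : 0 < ε)
    (m0 : ℕ) : ∃ m ≥ m0, (D (2 * m + q) : ℝ) ≤ (1 + ε) * 2 ^ w * D m := sorry

section

variable {k K : Type u} [Field k] [Field K] [Algebra k K]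

/-! ### EX -/

theorem exchange {n : ℕ} {α : Type*} [Fintype α] (z : α → K[X]) (y : Fin n → K[X]) (hy : PInd k y)
    (hd : ∀ b, Dep k z (y b)) : ∃ g : Fin n → α, Function.Injective g ∧ PInd k (z ∘ g) := sorry

theorem dep_mul {α β : Type*} [Fintype α] [Fintype β] {z : α → K[X]} {z' : β → K[X]} {y y' : K[X]} (h : Dep k z y)
    (h' : Dep k z' y') : Dep k (fun p : α × β => z p.1 * z' p.2) (y * y') := sorry

theorem dep_add {α : Type*} [Fintype α] {z : α → K[X]} {y y' : K[X]} (h : Dep k z y) (h' : Dep k z y') :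
    Dep k z (y + y') := sorry

theorem dep_smul {α : Type*} [Fintype α] {z : α → K[X]} {y : K[X]} (c : k) (h : Dep k z y) : Dep k z (c • y) := sorry

theorem dep_trans {α β : Type*} [Fintype α] [Fintype β] {z : α → K[X]} {z' : β → K[X]} {y : K[X]} (h : ∀ b, Dep k z (z' b))
    (h' : Dep k z' y) : Dep k z y := sorry

/-- linearly independent elements of `K` are independent over `k[X]` -/
theorem pind_C {n : ℕ} (e : Fin n → K) (he : LinearIndependent k e) : PInd k fun a => C (e a) := sorry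

/-- polynomials with coefficients in `E` : at most `dim E` are independent -/
theorem pind_le (E : Submodule k K) [FiniteDimensional k E] {n : ℕ} (z : Fin n → K[X]) (hz : PInd k z)
    (hE : ∀ a m, (z a).coeff m ∈ E) : n ≤ finrank k E := sorry

theorem rk_le (E : Submodule k K) [FiniteDimensional k E] (S : Set K[X]) (hS : ∀ u ∈ S, ∀ m, u.coeff m ∈ E) :
    rk k S ≤ finrank k E := sorry

theorem le_rk (E : Submodule k K) [FiniteDimensional k E] (S : Set K[X]) (hS : ∀ u ∈ S, ∀ m, u.coeff m ∈ E) {n : ℕ}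
    (z : Fin n → K[X]) (hz : PInd k z) (h : ∀ a, z a ∈ S) : n ≤ rk k S := sorry

theorem exists_rk (E : Submodule k K) [FiniteDimensional k E] (S : Set K[X]) (hS : ∀ u ∈ S, ∀ m, u.coeff m ∈ E) :
    ∃ z : Fin (rk k S) → K[X], (∀ a, z a ∈ S) ∧ PInd k z := sorry

/-- an independent family of maximal size generates -/
theorem dep_of_rk (E : Submodule k K) [FiniteDimensional k E] (S : Set K[X]) (hS : ∀ u ∈ S, ∀ m, u.coeff m ∈ E) {n : ℕ}
    (hn : rk k S ≤ n) (z : Fin n → K[X]) (hz : PInd k z) (h : ∀ a, z a ∈ S) {y : K[X]} (hy : y ∈ S) : Dep k z y := sorry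

theorem dep_full (E : Submodule k K) [FiniteDimensional k E] {n : ℕ} (hn : finrank k E ≤ n) (z : Fin n → K[X])
    (hz : PInd k z) (h : ∀ a m, (z a).coeff m ∈ E) {y : K[X]} (hy : ∀ m, y.coeff m ∈ E) : Dep k z y := sorry

/-! ### HER -/

section

variable {ι : Type*} [Fintype ι] {t : ι → k} (ht : Function.Injective t) (F : ι → ℕ → Submodule k K) (M : ℕ)
  (E : Submodule k K) [FiniteDimensional k E]

theorem fd_PE (e : ℕ) : FiniteDimensional k (PE E e) := sorry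

theorem finrank_PE (e : ℕ) : finrank k (PE E e) = finrank k E * (e + 1) := sorry

/-- the lower bound (conditions are linear conditions) -/
theorem low (t : ι → k) (e : ℕ) : finrank k E * (e + 1) + TT F M E ≤
    finrank k ↥(Lat t F M E ⊓ PE E e) + Fintype.card ι * M * finrank k E := sorry

include ht in
/-- equality for `e` large (Hermite interpolation) -/
theorem herm (e : ℕ) (he : Fintype.card ι * M ≤ e + 1) : finrank k E * (e + 1) + TT F M E =
    finrank k ↥(Lat t F M E ⊓ PE E e) + Fintype.card ι * M * finrank k E := sorry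

include ht in
theorem her {n : ℕ} (hn : n = finrank k E) (z : Fin n → K[X]) (hz : PInd k z) (hzL : ∀ a, z a ∈ Lat t F M E) :
    Fintype.card ι * M * finrank k E ≤ ∑ a, (z a).natDegree + TT F M E := sorry

end

/-! ### LC -/

theorem lc (E : Submodule k K) [FiniteDimensional k E] (W : Submodule k K[X]) (hX : ∀ u ∈ W, X * u ∈ W)
    (hE : ∀ u ∈ W, ∀ n, u.coeff n ∈ E) (e : ℕ) :
    ∃ z : Fin (rk k ((W ⊓ PE E e : Submodule k K[X]) : Set K[X])) → K[X], (∀ a, z a ∈ W ∧ (z a).natDegree ≤ e) ∧ PInd k z ∧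
      finrank k ↥(W ⊓ PE E e) + ∑ a, (z a).natDegree ≤ rk k ((W ⊓ PE E e : Submodule k K[X]) : Set K[X]) * (e + 1) := sorry

/-! ### DER -/

theorem der [CharZero k] (E : Submodule k K) [FiniteDimensional k E] {ρ : ℕ} (z : Fin ρ → K[X]) (hz : PInd k z)
    (hE : ∀ a n, (z a).coeff n ∈ E) (hd : ∀ a, Dep k z (derivative (z a))) :
    ∃ E' : Submodule k K, E' ≤ E ∧ finrank k E' = ρ ∧ ∀ a n, (z a).coeff n ∈ E' := sorry

/-! ### BAL -/

theorem Lat_X {ι : Type*} (t : ι → k) (F : ι → ℕ → Submodule k K) (hF : ∀ i, Antitone (F i)) (M : ℕ) (E : Submodule k K)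
    (u : K[X]) (hu : u ∈ Lat t F M E) (p : k[X]) : p.map (algebraMap k K) * u ∈ Lat t F M E := sorry

theorem Lat_der {ι : Type*} [Fintype ι] (t : ι → k) (F : ι → ℕ → Submodule k K) (hF : ∀ i, Antitone (F i)) (M : ℕ)
    (E : Submodule k K) (u : K[X]) (hu : u ∈ Lat t F M E) :
    (∏ i, (X - C (t i))).map (algebraMap k K) * derivative u ∈ Lat t F M E := sorry

theorem bal [CharZero k] {ι : Type*} [Fintype ι] {t : ι → k} (ht : Function.Injective t) (F : ι → ℕ → Submodule k K)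
    (hF : ∀ i, Antitone (F i)) (M : ℕ) (E : Submodule k K) [FiniteDimensional k E] (hE : E ≠ ⊥)
    (hss : ∀ E' ≤ E, finrank k E * TT F M E' ≤ TT F M E * finrank k E') :
    ∃ u : Fin (finrank k E) → K[X], PInd k u ∧ (∀ a, u a ∈ Lat t F M E) ∧
      ∀ a, finrank k E * (u a).natDegree + TT F M E ≤
        finrank k E * (Fintype.card ι * M + finrank k E * Fintype.card ι + 1) := sorry

/-! ### SNF -/

section

variable {ω : K → ℝ} (h : RV k ω) (E : Submodule k K) [FiniteDimensional k E]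

include h in
theorem val_bdd : ∃ B : ℝ, ∀ x ∈ E, x ≠ 0 → ω x ≤ B := sorry

theorem SN_support {N : ℕ} (hN : 0 < N) (c : ℝ) :
    (Function.support fun j : ℕ => finrank k ↥(E ⊓ lev h (((j : ℝ) + 1) / N - c))).Finite := sorry

theorem SN_eq {N : ℕ} (hN : 0 < N) (c : ℝ) : ∃ M0 : ℕ, ∀ M ≥ M0, ∀ E' ≤ E,
    SN h N c E' = ∑ j ∈ Finset.Icc 1 M, finrank k ↥(E' ⊓ lev h ((j : ℝ) / N - c)) := sorry

theorem SN_ge_sum {N : ℕ} (hN : 0 < N) (c : ℝ) (M : ℕ) :
    ∑ j ∈ Finset.Icc 1 M, finrank k ↥(E ⊓ lev h ((j : ℝ) / N - c)) ≤ SN h N c E := sorry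

theorem SN_comp (τ : K ≃ₐ[k] K) (N : ℕ) (c : ℝ) : SN (h.comp τ) N c E = SN h N c (E.map τ.toLinearMap) := sorry

theorem SN_mono {N : ℕ} (hN : 0 < N) (c : ℝ) {E' : Submodule k K} (hE' : E' ≤ E) : SN h N c E' ≤ SN h N c E := sorry

theorem SN_bot (N : ℕ) (c : ℝ) : SN h N c ⊥ = 0 := sorry

theorem SN_ge {N : ℕ} (hN : 0 < N) (c : ℝ) {n : ℕ} (e : Fin n → K) (he : LinearIndependent k e) (heE : ∀ i, e i ∈ E) :
    N * ∑ i, (ω (e i) + c) ≤ SN h N c E + n := sorry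

theorem SN_le {N : ℕ} (hN : 0 < N) (c : ℝ) (h0 : ∀ x ∈ E, x ≠ 0 → 0 ≤ ω x + c) :
    ∃ e : Fin (finrank k E) → K, LinearIndependent k e ∧ (∀ i, e i ∈ E) ∧ (SN h N c E : ℝ) ≤ N * ∑ i, (ω (e i) + c) := sorry

end

/-! ### TEN -/

theorem ten [CharZero k] {ι : Type*} [Fintype ι] (ω : ι → K → ℝ) (hω : ∀ i, RV k (ω i)) (c c' : ι → ℝ)
    (V V' : Submodule k K) [FiniteDimensional k V] [FiniteDimensional k V'] (hV : V ≠ ⊥) (hr : finrank k V' = finrank k V)
    {N : ℕ} (hN : 0 < N) (ha : ∀ i, ∀ x ∈ V, x ≠ 0 → 0 ≤ ω i x + c i) (ha' : ∀ i, ∀ x ∈ V', x ≠ 0 → 0 ≤ ω i x + c' i) (T : ℕ)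
    (hT : ∑ i, SN (hω i) N (c i) V = T) (hT' : ∑ i, SN (hω i) N (c' i) V' = T)
    (hss : ∀ E ≤ V, finrank k V * ∑ i, SN (hω i) N (c i) E ≤ T * finrank k E)
    (hss' : ∀ E ≤ V', finrank k V * ∑ i, SN (hω i) N (c' i) E ≤ T * finrank k E) (m : ℕ) :
    2 * m * finrank k ↥(V ^ m * V' ^ m) * T ≤
      finrank k V * (∑ i, SN (hω i) N (m * (c i + c' i)) (V ^ m * V' ^ m)) +
      2 * m * finrank k ↥(V ^ m * V' ^ m) * (finrank k V * (finrank k V * Fintype.card ι + 1)) := sorry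

/-! ### SR -/

theorem subred [CharZero k] (τ : K ≃ₐ[k] K) (hτ : ∀ x, τ (τ x) = x) {P : Type*} [Fintype P] (ω : P → K → ℝ)
    (hω : ∀ v, RV k (ω v)) (g : P → ℝ) (E : Submodule k K) [FiniteDimensional k E] (hE : ∀ z ∈ E, τ z ∈ E)
    (h0 : ∀ v, ∀ z ∈ E, z ≠ 0 → 0 ≤ ω v z + g v) (m : ℕ)
    (hS : ∀ s : k, (s = 1 ∨ s = -1) → ∀ E' ≤ E, (∀ z ∈ E', τ z = s • z) → ∀ (n : P → ℕ) (z : ∀ v, Fin (n v) → K),
      (∀ v, LinearIndependent k (z v)) → (∀ v i, z v i ∈ E') → ∑ v, ∑ i, (ω v (z v i) + g v) ≤ m * finrank k E')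
    {N : ℕ} (hN : 0 < N) :
    ∑ v, ∑ᶠ j : ℕ, finrank k ↥(E ⊓ lev (hω v) (((j : ℝ) + 1) / N - g v) ⊓
      (lev (hω v) (((j : ℝ) + 1) / N - g v)).comap τ.toLinearMap) ≤ N * m * finrank k E := sorry

/-! ### ABS -/

theorem absN [CharZero k] (τ : K ≃ₐ[k] K) (hτ : ∀ x, τ (τ x) = x) {P : Type*} [Fintype P] (ω : P → K → ℝ)
    (hω : ∀ v, RV k (ω v)) (c d : P → ℝ) (V : Submodule k K) [FiniteDimensional k V]
    (ha : ∀ v, ∀ x ∈ V, x ≠ 0 → 0 ≤ ω v x + c v) (hb : ∀ v, ∀ x ∈ V, x ≠ 0 → 0 ≤ ω v (τ x) + d v)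
    (hS : ∀ (m : ℕ) (s : k), (s = 1 ∨ s = -1) → ∀ E ≤ (V * V.map τ.toLinearMap) ^ m, (∀ z ∈ E, τ z = s • z) →
      ∀ (n : P → ℕ) (z : ∀ v, Fin (n v) → K), (∀ v, LinearIndependent k (z v)) → (∀ v i, z v i ∈ E) →
        ∑ v, ∑ i, (ω v (z v i) + m * (c v + d v)) ≤ m * finrank k E) :
    ∃ C : ℕ, ∀ N : ℕ, 0 < N → ∑ v, (SN (hω v) N (c v) V + SN ((hω v).comp τ) N (d v) V) ≤ (2 * N + C) * finrank k V := sorry

end

end Pool.Agent.SQ
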