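import Pool.Agent.Helper42.SQ.Defs2

/-!
# SQ, stage 2: statements of the algebraic blocks (do not import; copy your statement)
-/

set_option autoImplicit false

namespace Pool.Agent.SQ

open Module Polynomial

universe u

/-! ### PLg -/

theorem prekopa_g {g : ℕ} (hg : 0 < g) (f : Fin g → ℤ → ℝ) (h : ℤ → ℝ) (hf : ∀ a i, 0 ≤ f a i) (hh : ∀ i, 0 ≤ h i)
    (Ff : ∀ a, (f a).support.Finite) (Fh : h.support.Finite)
    (H : ∀ (i : Fin g → ℤ) (e : ℕ), e < g → ∏ a, f a (i a) ≤ h (∑ a, i a + e) ^ g) :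
    (g : ℝ) ^ g * ∏ a, ∑ᶠ i, f a i ≤ (∑ᶠ i, h i) ^ g := sorry

/-! ### GRg -/

theorem bm_step_g {g : ℕ} (hg : 0 < g) (w : ℕ) {k K κ : Type u} [Field k] [Field K] [Field κ] [Algebra k K] [Algebra k κ]
    (D : DV k K κ) (Q' : Submodule k κ) [FiniteDimensional k Q']
    (hQ' : ∀ A : Fin g → Submodule k κ, (∀ i, FiniteDimensional k (A i)) → BMg g w Q' A) :
    ∃ Q : Submodule k K, FiniteDimensional k Q ∧
      ∀ A : Fin g → Submodule k K, (∀ i, FiniteDimensional k (A i)) → BMg g (w + 1) Q A := sorry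

/-! ### BMg -/

theorem bm_g {g : ℕ} (hg : 0 < g) (w : ℕ) {k K : Type u} [Field k] [CharZero k] [Field K] [Algebra k K] (h : FinOver w k K) :
    ∃ Q : Submodule k K, FiniteDimensional k Q ∧
      ∀ A : Fin g → Submodule k K, (∀ i, FiniteDimensional k (A i)) → BMg g w Q A := sorry

/-! ### BM2g -/

theorem bm2_g {g : ℕ} (hg : 0 < g) {k K : Type u} [Field k] [CharZero k] [Field K] [Algebra k K] (W : Submodule k K)
    [FiniteDimensional k W] (hW : W ≠ ⊥) : ∃ (w q C : ℕ) (Q : Submodule k K), Q ≤ W ^ q ∧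
      (∀ (m : Fin g → ℕ) (A : Fin g → Submodule k K), (∀ i, A i ≤ W ^ m i) → BMg g w Q A) ∧
      ∀ m : ℕ, finrank k ↥(W ^ m) ≤ C * (m + 1) ^ w := sorry

/-! ### GROg -/

theorem gro_g {g : ℕ} (hg : 0 < g) (D : ℕ → ℕ) (hD : ∀ m, 1 ≤ D m) (w C : ℕ) (hC : ∀ m, D m ≤ C * (m + 1) ^ w) (q : ℕ)
    {ε : ℝ} (hε : 0 < ε) (m0 : ℕ) : ∃ m ≥ m0, (D (g * m + q) : ℝ) ≤ (1 + ε) * g ^ w * D m := sorry

/-! ### TENg -/

theorem ten_g {k K : Type u} [Field k] [Field K] [Algebra k K] [CharZero k] {ι T : Type*} [Fintype ι] [Fintype T]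
    (ω : ι → K → ℝ) (hω : ∀ i, RV k (ω i)) (c : ι → T → ℝ)
    (V : T → Submodule k K) [∀ a, FiniteDimensional k (V a)] {r : ℕ} (hr : 0 < r) (hr' : ∀ a, finrank k (V a) = r)
    {N : ℕ} (hN : 0 < N) (ha : ∀ i a, ∀ x ∈ V a, x ≠ 0 → 0 ≤ ω i x + c i a) (t : ℕ)
    (hT : ∀ a, ∑ i, SN (hω i) N (c i a) (V a) = t)
    (hss : ∀ a, ∀ E ≤ V a, r * ∑ i, SN (hω i) N (c i a) E ≤ t * finrank k E) (m : ℕ) :
    Fintype.card T * m * finrank k ↥((∏ a, V a) ^ m) * t ≤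
      r * (∑ i, SN (hω i) N (m * ∑ a, c i a) ((∏ a, V a) ^ m)) +
      Fintype.card T * m * finrank k ↥((∏ a, V a) ^ m) * (r * (r * Fintype.card ι + 1)) := sorry

section

variable {k K : Type u} [Field k] [Field K] [Algebra k K] {G : Type*} [Group G] [Fintype G] (s : G →* (K ≃ₐ[k] K))

/-! ### INV -/

/-- `h` is the degree of the field of the quotients of elements of `W` over its invariants. -/
theorem inv_g [CharZero k] (W : Submodule k K) [FiniteDimensional k W] (hW : ∀ g, ∀ z ∈ W, s g z ∈ W)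
    (hz : ∃ z ∈ W, z ≠ 0 ∧ ∀ g, s g z = z) : ∃ h q : ℕ, 0 < h ∧
      (∀ m : ℕ, h * finrank k (fx s (W ^ m)) ≤ finrank k ↥(W ^ (m + q))) ∧
      ∀ (m : ℕ) (B : Submodule k K), B ≤ W ^ m → (∀ g, ∀ z ∈ B, s g z ∈ B) →
        finrank k B ≤ h * finrank k (fx s (B * W ^ q)) := sorry

/-! ### ABSg -/

theorem abs_g [CharZero k] {P : Type*} [Fintype P] (ω : P → K → ℝ) (hω : ∀ v, RV k (ω v)) (c : P → G → ℝ)
    (V : Submodule k K) [FiniteDimensional k V] (ha : ∀ v g, ∀ x ∈ V, x ≠ 0 → 0 ≤ ω v (s g x) + c v g)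
    (hS : ∀ (m : ℕ) (E : Submodule k K), E ≤ (∏ g, V.map (s g).toLinearMap) ^ m → (∀ z ∈ E, ∀ g, s g z = z) →
      ∀ (n : P → ℕ) (z : ∀ v, Fin (n v) → K), (∀ v, LinearIndependent k (z v)) → (∀ v i, z v i ∈ E) →
        ∑ v, ∑ i, (ω v (z v i) + m * ∑ g, c v g) ≤ m * finrank k E) :
    ∃ C : ℕ, ∀ N : ℕ, 0 < N → ∑ v, ∑ g, SN ((hω v).comp (s g)) N (c v g) V ≤ (Fintype.card G * N + C) * finrank k V := sorry

/-- The form for independent families. -/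
theorem thm_g [CharZero k] {P : Type*} [Fintype P] (ω : P → K → ℝ) (hω : ∀ v, RV k (ω v)) (c : P → G → ℝ)
    (V : Submodule k K) [FiniteDimensional k V] (ha : ∀ v g, ∀ x ∈ V, x ≠ 0 → 0 ≤ ω v (s g x) + c v g)
    (hS : ∀ (m : ℕ) (E : Submodule k K), E ≤ (∏ g, V.map (s g).toLinearMap) ^ m → (∀ z ∈ E, ∀ g, s g z = z) →
      ∀ (n : P → ℕ) (z : ∀ v, Fin (n v) → K), (∀ v, LinearIndependent k (z v)) → (∀ v i, z v i ∈ E) →
        ∑ v, ∑ i, (ω v (z v i) + m * ∑ g, c v g) ≤ m * finrank k E)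
    (n : P → G → ℕ) (e : ∀ v g, Fin (n v g) → K) (he : ∀ v g, LinearIndependent k (e v g)) (heV : ∀ v g i, e v g i ∈ V) :
    ∑ v, ∑ g, ∑ i, (ω v (s g (e v g i)) + c v g) ≤ Fintype.card G * finrank k V := sorry

end

/-! ### EFX -/

/-- `n + 1` forms of degree `d` without common zero on the variety of `I`, of dimension `n`. -/
theorem efx {k : Type u} [Field k] {N n d : ℕ} (hd : 0 < d) (I : Ideal (MvPolynomial (Fin (N + 1)) k)) [I.IsPrime]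
    (hI : ∀ p ∈ I, ∀ m, MvPolynomial.homogeneousComponent m p ∈ I)
    (hdim : Algebra.trdeg k (MvPolynomial (Fin (N + 1)) k ⧸ I) = n + 1)
    (f : Fin (n + 1) → MvPolynomial (Fin (N + 1)) k) (hf : ∀ i, (f i).IsHomogeneous d)
    (hfin : ∃ M, ∀ j, (MvPolynomial.X j) ^ M ∈ I ⊔ Ideal.span (Set.range f)) {ε : ℝ} (hε : 0 < ε) :
    ∃ m0 : ℕ, ∀ m ≥ m0, ∃ (r : ℕ) (α : Fin r → Fin (n + 1) → ℕ) (β : Fin r → ℕ) (b : Fin r → MvPolynomial (Fin (N + 1)) k),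
      (∀ t, ∑ i, α t i + β t = m) ∧ (∀ t, (b t).IsHomogeneous (d * β t)) ∧
      LinearIndependent k (fun t => Ideal.Quotient.mk I ((∏ i, f i ^ α t i) * b t)) ∧
      ∀ i, (1 - ε) * (m / (n + 1)) * finrank k ((MvPolynomial.homogeneousSubmodule (Fin (N + 1)) k (d * m)).map
        (Ideal.Quotient.mkₐ k I).toLinearMap) ≤ ∑ t, (α t i : ℝ) := sorry

end Pool.Agent.SQ
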