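import Pool.Agent.Helper42.SQ.GDefs3
import Pool.Agent.Helper27.TOW.Defs
import Pool.Agent.Helper42.SQ.LIN

/-!
# SQ, stage 6, TOWER FORM (this file replaces `Stmt6.lean`): the theorem of stage 3 with forms which move with the point
(uniformity in the divisor), for towers of Galois extensions; statements (do not import; copy your statement).
`H = ⊥` is the form of `Stmt6.lean`.
-/

set_option autoImplicit false

namespace Pool.Agent.SQ

open NumberField Filter Module MvPolynomial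
open Pool.Agent.Helper64.Vojta (Pl nv sn above)
open Pool.Agent.V2
open Pool.Agent.Chart (fld dg crd val hgt lam)

universe u

section

variable {k : Type u} [Field k] [NumberField k] {G : Type} [Group G] [Fintype G] {D : SqG k G} (F : GFG D)

/-! ### OMs: the valuations are trivial on the slow germs -/

theorem omg_RVs (v : Pl k) : RV (slk F) (omg F v) := sorry

section

variable {ι : Type} [Fintype ι] (x : ∀ n, ι → D.L n) (hx : Ptg D x)
  (ξ : ι → F.K) (hξ : ∀ j, ∀ᶠ n in (D.U : Filter ℕ), F.rp (ξ j) n = x n j)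

include hx hξ

/-! ### OMs (second part) -/

theorem omgs_nonneg (v : Pl k) (g : G) (z : F.K) (hz : z ∈ Submodule.span (slk F) (Set.range ξ)) (hz0 : z ≠ 0) :
    0 ≤ omg F v (ss F g z) + cg D x v g := sorry

theorem omgs_attained (v : Pl k) (g : G) :
    ∃ z ∈ Submodule.span (slk F) (Set.range ξ), z ≠ 0 ∧ omg F v (ss F g z) + cg D x v g = 0 := sorry

variable {H : Subgroup G} [Fintype (G ⧸ H)] (hxH : ∀ n, ∀ h ∈ H, ∀ j, D.s n h (x n j) = x n j)

include hxH

/-! ### SUBm: `sub_t` (`sub_g`) with slow multipliers -/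

theorem sub_tm (P : Finset (Pl k)) (m : ℕ) (B : Submodule k F.K) (hB : ∀ b ∈ B, SlowG D (F.rp b))
    (E : Submodule k F.K) [FiniteDimensional k E]
    (hE : E ≤ B * (∏ q : G ⧸ H, (Submodule.span k (Set.range ξ)).map (F.s q.out).toLinearMap) ^ m)
    (hEs : ∀ z ∈ E, ∀ g, F.s g z = z) (n : P → ℕ) (z : ∀ v : P, Fin (n v) → F.K) (hz : ∀ v, LinearIndependent k (z v))
    (hzE : ∀ v i, z v i ∈ E) :
    ∑ v : P, ∑ i, (Nat.card H * omg F v (z v i) + m * ∑ g, cg D x v g) ≤ m * finrank k E := sorry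

/-! ### SUBs: the subspace theorem over the slow germs -/

theorem sub_ts (P : Finset (Pl k)) (m : ℕ) (E : Submodule (slk F) F.K)
    (hE : E ≤ (∏ q : G ⧸ H, (Submodule.span (slk F) (Set.range ξ)).map (ss F q.out).toLinearMap) ^ m)
    (hEs : ∀ z ∈ E, ∀ g, ss F g z = z) (n : P → ℕ) (z : ∀ v : P, Fin (n v) → F.K)
    (hz : ∀ v, LinearIndependent (slk F) (z v)) (hzE : ∀ v i, z v i ∈ E) :
    ∑ v : P, ∑ i, (Nat.card H * omg F v (z v i) + m * ∑ g, cg D x v g) ≤ m * finrank (slk F) E := sorry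

/-! ### GABs: as GABt, with `abs_t` over `slk F`, `ss F` -/

/-- needed for the weights: from `sub_ts` with `m = 1` and the line of `∏ q : G ⧸ H, ss F q.out z` -/
theorem omgs_prod (P : Finset (Pl k)) (z : F.K) (hz : z ∈ Submodule.span (slk F) (Set.range ξ)) (hz0 : z ≠ 0) :
    ∑ v ∈ P, ∑ g, (omg F v (ss F g z) + cg D x v g) ≤ 1 := sorry

theorem germs_ts (hH : H.IsSubnormal) {q : ℕ} (l : Fin q → ι → slk F) (lr : ℕ → Fin q → ι → k)
    (hlr : ∀ i j, ∀ᶠ a in (D.U : Filter ℕ), F.rp (l i j : F.K) a = algebraMap k (D.L a) (lr a i j))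
    (hl : ∀ i, l i ∉ kerS F ξ) (hC : Comb (slk F) (fun i => (kerS F ξ).mkQ (l i)) (finrank (slk F) (kerS F ξ)))
    (P : Finset (Pl k)) {ε : ℝ} (hε : 0 < ε) :
    ∀ᶠ a in (D.U : Filter ℕ), ∑ v ∈ P, ∑ g, ∑ i, (Real.log (mxn (D.N a v) fun j => D.s a g (x a j)) -
      Real.log (D.N a v (D.s a g (lvg (lr a i) (x a))))) ≤
      (H.index * finrank (slk F) ((ι → slk F) ⧸ kerS F ξ) + 2 * finrank (slk F) (kerS F ξ) + ε) * D.H a := sorry

end

end

/-! ### PHIs: multihomogeneous form of `phi` -/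

theorem phi_s (n q : ℕ) : ∃ Φ : MvPolynomial (Fin q × Fin (n + 1)) ℚ, Φ ≠ 0 ∧
    (∀ (k : Type u) [Field k] [Algebra ℚ k] (l : Fin q → Fin (n + 1) → k) (c : Fin q → k), (∀ i, c i ≠ 0) →
      aeval (fun p : Fin q × Fin (n + 1) => l p.1 p.2) Φ ≠ 0 →
      aeval (fun p : Fin q × Fin (n + 1) => c p.1 * l p.1 p.2) Φ ≠ 0) ∧
    ∀ (k : Type u) [Field k] [Algebra ℚ k] (l : Fin q → Fin (n + 1) → k),
      aeval (fun p : Fin q × Fin (n + 1) => l p.1 p.2) Φ ≠ 0 → GenPos l ∧ ∀ N : Submodule k (Fin (n + 1) → k), ¬ Bad l N := sorry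

/-! ### FINs: as FINGT (helper77), with `germs_ts`, `phi_s` -/

theorem fin_unif_t (n q : ℕ) {r : ℕ} (hr : 2 ≤ r) : ∃ Φ : MvPolynomial (Fin q × Fin (n + 1)) ℚ, Φ ≠ 0 ∧
    ∀ (k : Type u) [Field k] [NumberField k] (S : Finset (Pl k)) (ε : ℝ), 0 < ε → ∃ C : ℝ,
      ∀ l : Fin q → Fin (n + 1) → k, aeval (fun p : Fin q × Fin (n + 1) => l p.1 p.2) Φ ≠ 0 →
      ∀ x : Fin (n + 1) → AlgebraicClosure k, (∃ j, x j = 1) → InTower r x → (∀ i, val (l i) x ≠ 0) →
        ∑ ν ∈ S, ∑ i, (Real.log (sn ν (l i)) + lam (l i) ν x) ≤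
          (r * (n + 1) + ε) * hgt x + C * (1 + ∑ i, Height.logHeight (l i)) := sorry

end Pool.Agent.SQ
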